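import Pool.Agent.Lib.MP_ff3fe0_an_SPH.CvA

set_option autoImplicit false

/-!
# Plancherel for bounded functions with bounded support
-/

namespace Pool.Agent.Lib.MP_ff3fe0_an_SPH

open MeasureTheory Metric Set
open scoped ENNReal NNReal ContDiff FourierTransform SchwartzMap
open Pool.Agent.Lib.MP_ff3fe0_an

variable {d : ℕ}

private theorem plaA_flip (b : E d → ℂ) (h1 : Integrable b) (g : 𝓢(E d, ℂ)) :
    ∫ x, g x • (𝓕 b) x = ∫ x, (𝓕 g) x • b x := by
  have h := VectorFourier.integral_fourierIntegral_smul_eq_flip (L := innerₗ (E d))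
      (μ := volume) (ν := volume) Real.continuous_fourierChar continuous_inner
      (g.integrable (μ := volume)) h1
  have e1 : ∀ x, VectorFourier.fourierIntegral Real.fourierChar volume (innerₗ (E d)) (⇑g) x
      = (𝓕 g) x := by
    intro x
    rw [SchwartzMap.fourier_coe]
    rfl
  have e2 : ∀ x, VectorFourier.fourierIntegral Real.fourierChar volume (innerₗ (E d)).flip b x
      = (𝓕 b) x := by
    intro x
    simp [VectorFourier.fourierIntegral, Real.fourier_eq, real_inner_comm]
  simp only [e1, e2] at h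
  exact h.symm

private theorem plaA_ae (b : E d → ℂ) (h1 : Integrable b) (h2 : MemLp b 2) :
    (𝓕 b) =ᵐ[volume] (𝓕 (h2.toLp b) : Lp ℂ 2 (volume : Measure (E d))) := by
  have hcont : Continuous (𝓕 b) :=
    VectorFourier.fourierIntegral_continuous Real.continuous_fourierChar continuous_inner h1
  apply ae_eq_of_integral_contDiff_smul_eq
  · exact hcont.locallyIntegrable
  · exact (Lp.memLp _).locallyIntegrable (by norm_num)
  · intro g hg1 hg2
    have hg₁ : HasCompactSupport (Complex.ofRealCLM ∘ g) := hg2.comp_left rfl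
    have hg₂ : ContDiff ℝ (⊤ : ℕ∞) (Complex.ofRealCLM ∘ g) := by fun_prop
    set G : 𝓢(E d, ℂ) := hg₁.toSchwartzMap hg₂ with hG
    have hGg : ∀ x, G x = (g x : ℂ) := fun x => rfl
    have e1 := plaA_flip b h1 G
    have e2 : (𝓕 ((h2.toLp b : Lp ℂ 2 (volume : Measure (E d))) : 𝓢'(E d, ℂ))) G
        = ((𝓕 (h2.toLp b) : Lp ℂ 2 (volume : Measure (E d))) : 𝓢'(E d, ℂ)) G := by
      rw [Lp.fourier_toTemperedDistribution_eq]
    rw [TemperedDistribution.fourier_apply, Lp.toTemperedDistribution_apply,
      Lp.toTemperedDistribution_apply] at e2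
    have e3 : ∫ x, (𝓕 G) x • (h2.toLp b) x = ∫ x, (𝓕 G) x • b x := by
      apply integral_congr_ae
      filter_upwards [h2.coeFn_toLp] with x hx
      rw [hx]
    rw [e3, ← e1] at e2
    simpa [hGg] using e2

theorem plancherel (q : E d → ℂ) (h1 : Integrable q) (h2 : MemLp q 2) :
    ∫⁻ ξ, ‖𝓕 q ξ‖ₑ ^ 2 = ∫⁻ y, ‖q y‖ₑ ^ 2 := by
  have e1 : ‖(𝓕 (h2.toLp q) : Lp ℂ 2 (volume : Measure (E d)))‖ₑ = ‖h2.toLp q‖ₑ := by
    have := Lp.norm_fourier_eq (h2.toLp q)
    rw [← ofReal_norm, ← ofReal_norm, this]
  rw [Lp.enorm_def, Lp.enorm_def] at e1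
  rw [eLpNorm_congr_ae (plaA_ae q h1 h2).symm, eLpNorm_congr_ae h2.coeFn_toLp] at e1
  rw [eLpNorm_eq_lintegral_rpow_enorm_toReal (by norm_num) (by norm_num),
    eLpNorm_eq_lintegral_rpow_enorm_toReal (by norm_num) (by norm_num)] at e1
  have e2 := congrArg (fun u : ENNReal => u ^ (2 : ℝ)) e1
  simp only [ENNReal.toReal_ofNat] at e2
  rw [← ENNReal.rpow_mul, ← ENNReal.rpow_mul] at e2
  norm_num at e2
  exact e2

/-- The phase. -/
private noncomputable def plaA_ph (ξ y : E d) : ℂ :=
  ((Real.fourierChar (-inner ℝ y ξ) : Circle) : ℂ)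

private theorem plaA_ph_add (ξ y z : E d) : plaA_ph ξ (y + z) = plaA_ph ξ y * plaA_ph ξ z := by
  unfold plaA_ph
  rw [inner_add_left, neg_add, AddChar.map_add_eq_mul, Circle.coe_mul]

private theorem plaA_ph_smul (ξ z : E d) (b : ℝ) : plaA_ph ξ (b • z) = plaA_ph (b • ξ) z := by
  unfold plaA_ph
  rw [inner_smul_left, inner_smul_right]
  rfl

private theorem plaA_ph_norm (ξ y : E d) : ‖plaA_ph ξ y‖ = 1 := Circle.norm_coe _

private theorem plaA_ph_cont (ξ : E d) : Continuous (plaA_ph ξ) := by
  unfold plaA_ph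
  exact continuous_subtype_val.comp (Real.continuous_fourierChar.comp
    ((continuous_id.inner continuous_const).neg))

private theorem plaA_four_eq (f : E d → ℂ) (ξ : E d) : 𝓕 f ξ = ∫ y, plaA_ph ξ y * f y := by
  rw [Real.fourier_eq]
  rfl

private theorem plaA_ker {K : E d → ℝ} (hK : IsKer K) : Integrable K := by
  refine hK.smooth.continuous.integrable_of_hasCompactSupport
    (HasCompactSupport.of_support_subset_isCompact (isCompact_closedBall 0 1) fun y hy => ?_)
  rw [mem_closedBall_zero_iff]
  by_contra h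
  exact hy (hK.supp y (not_le.1 h))

private theorem plaA_prod {K q : E d → ℝ} (hK : Integrable K) (hq : Integrable q) (b : ℝ) :
    Integrable (fun p : E d × E d => K p.1 * q (p.2 - b • p.1)) (volume.prod volume) := by
  have h1 : Integrable (fun p : E d × E d => K p.1 * q p.2) (volume.prod volume) :=
    hK.mul_prod hq
  have h2 : MeasurePreserving (fun p : E d × E d => (p.1, p.2 - b • p.1))
      (volume.prod volume) (volume.prod volume) := by
    refine (MeasurePreserving.id volume).skew_product (g := fun a c => c - b • a) ?_ ?_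
    · exact measurable_snd.sub (measurable_fst.const_smul b)
    · exact Filter.Eventually.of_forall fun a =>
        (measurePreserving_sub_right volume (b • a)).map_eq
  exact (h2.integrable_comp h1.aestronglyMeasurable).2 h1

private theorem plaA_cv_int {K q : E d → ℝ} (hK : Integrable K) (hq : Integrable q) (b : ℝ) :
    Integrable (cv K b q) := (plaA_prod hK hq b).integral_prod_right

private theorem plaA_four {K q : E d → ℝ} (hK : Integrable K) (hq : Integrable q) (b : ℝ)
    (ξ : E d) : 𝓕 (fun y => (cv K b q y : ℂ)) ξ =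
      𝓕 (fun y => (K y : ℂ)) (b • ξ) * 𝓕 (fun y => (q y : ℂ)) ξ := by
  rw [plaA_four_eq, plaA_four_eq, plaA_four_eq]
  have h0 : Integrable (fun p : E d × E d => ((K p.1 * q (p.2 - b • p.1) : ℝ) : ℂ))
      (volume.prod volume) := (plaA_prod hK hq b).ofReal
  have hint : Integrable (fun p : E d × E d =>
      plaA_ph ξ p.2 * ((K p.1 * q (p.2 - b • p.1) : ℝ) : ℂ)) (volume.prod volume) := by
    refine h0.norm.mono' ?_ (Filter.Eventually.of_forall fun p => ?_)
    · exact ((plaA_ph_cont ξ).comp continuous_snd).aestronglyMeasurable.mul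
        h0.aestronglyMeasurable
    · rw [norm_mul, plaA_ph_norm, one_mul]
  have h1 : ∀ y, plaA_ph ξ y * (cv K b q y : ℂ) =
      ∫ z, plaA_ph ξ y * ((K z * q (y - b • z) : ℝ) : ℂ) := by
    intro y
    unfold cv
    rw [← integral_complex_ofReal, integral_const_mul]
  have h2 : ∀ z, ∫ y, plaA_ph ξ y * ((K z * q (y - b • z) : ℝ) : ℂ) =
      plaA_ph (b • ξ) z * (K z : ℂ) * ∫ y, plaA_ph ξ y * (q y : ℂ) := by
    intro z
    have h3 := integral_sub_right_eq_self (μ := (volume : Measure (E d)))
      (fun y => plaA_ph ξ (y + b • z) * ((K z * q y : ℝ) : ℂ)) (b • z)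
    simp only [sub_add_cancel] at h3
    rw [h3, ← integral_const_mul]
    refine integral_congr_ae (Filter.Eventually.of_forall fun y => ?_)
    simp only []
    rw [plaA_ph_add, plaA_ph_smul, Complex.ofReal_mul]
    ring
  simp only [h1]
  have h4 := integral_integral_swap (μ := (volume : Measure (E d)))
    (ν := (volume : Measure (E d)))
    (f := fun z y => plaA_ph ξ y * ((K z * q (y - b • z) : ℝ) : ℂ)) hint
  rw [← h4]
  simp only [h2]
  rw [integral_mul_const]

/-- The Fourier transform of a convolution with a dilated kernel. -/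
theorem fourier_cv_scale {K : E d → ℝ} (hK : IsKer K) {b : ℝ} (hb : 0 < b) {q : E d → ℝ}
    (hq : Integrable q) (ξ : E d) : 𝓕 (fun y => (cv K b q y : ℂ)) ξ =
      𝓕 (fun y => (K y : ℂ)) (b • ξ) * 𝓕 (fun y => (q y : ℂ)) ξ :=
  plaA_four (plaA_ker hK) hq b ξ

/-- The Fourier transform of a convolution with a dilated vector kernel. -/
theorem fourier_cvv_scale {K : E d → E d} (hK : IsKer K) {b : ℝ} (hb : 0 < b) {H : E d → E d}
    (hH : Integrable H) (ξ : E d) : 𝓕 (fun y => (cvv K b H y : ℂ)) ξ =
      ∑ i : Fin d, 𝓕 (fun y => (K y i : ℂ)) (b • ξ) * 𝓕 (fun y => (H y i : ℂ)) ξ := by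
  have hKi : ∀ i : Fin d, IsKer (fun y => K y i) := by
    intro i
    refine ⟨?_, fun y hy => ?_⟩
    · exact (EuclideanSpace.proj (𝕜 := ℝ) i).contDiff.comp hK.smooth
    · rw [hK.supp y hy]
      rfl
  have hHi : ∀ i : Fin d, Integrable (fun y => H y i) := fun i =>
    (EuclideanSpace.proj (𝕜 := ℝ) i).integrable_comp hH
  have hsum : ∀ y, cvv K b H y = ∑ i : Fin d, cv (fun z => K z i) b (fun z => H z i) y := by
    intro y
    unfold cvv cv
    rw [← integral_finsetSum]
    · refine integral_congr_ae (Filter.Eventually.of_forall fun z => ?_)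
      simp only [PiLp.inner_apply, RCLike.inner_apply, conj_trivial]
      exact Finset.sum_congr rfl fun i _ => mul_comm _ _
    · intro i _
      have h1 : Integrable (fun z => H (y - b • z) i) := by
        have h2 := (hHi i).comp_sub_left y
        exact h2.comp_smul hb.ne'
      obtain ⟨C, hC⟩ := (hKi i).smooth.continuous.bounded_above_of_compact_support
        (HasCompactSupport.of_support_subset_isCompact (isCompact_closedBall 0 1) fun y hy => by
          rw [mem_closedBall_zero_iff]
          by_contra h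
          exact hy ((hKi i).supp y (not_le.1 h)))
      exact h1.bdd_mul (hKi i).smooth.continuous.aestronglyMeasurable
        (Filter.Eventually.of_forall hC)
  have h2 : ∀ y, (cvv K b H y : ℂ) =
      ∑ i : Fin d, (cv (fun z => K z i) b (fun z => H z i) y : ℂ) := by
    intro y
    rw [hsum y, Complex.ofReal_sum]
  simp only [h2]
  rw [plaA_four_eq]
  simp only [Finset.mul_sum]
  rw [integral_finsetSum]
  · refine Finset.sum_congr rfl fun i _ => ?_
    rw [← plaA_four (plaA_ker (hKi i)) (hHi i) b ξ, plaA_four_eq]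
  · intro i _
    have h3 : Integrable (fun y => (cv (fun z => K z i) b (fun z => H z i) y : ℂ)) :=
      (plaA_cv_int (plaA_ker (hKi i)) (hHi i) b).ofReal
    refine h3.norm.mono' ((plaA_ph_cont ξ).aestronglyMeasurable.mul h3.aestronglyMeasurable)
      (Filter.Eventually.of_forall fun y => ?_)
    rw [norm_mul, plaA_ph_norm, one_mul]

end Pool.Agent.Lib.MP_ff3fe0_an_SPH
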