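import Pool.Agent.Lib.MP_ff3fe0_an_SPH.Defs

set_option autoImplicit false

/-!
# Approximation in the Sobolev space
-/

namespace Pool.Agent.Lib.MP_ff3fe0_an_SPH

open MeasureTheory Metric Set
open scoped ENNReal NNReal ContDiff FourierTransform Convolution
open Pool.Agent.Lib.MP_ff3fe0_an

variable {d : ℕ}

section Young

variable {G : Type*} [NormedAddCommGroup G] [NormedSpace ℝ G]

/-- Young's inequality for a probability density, strongly measurable case. -/
private theorem AppA_young_aux {ρ : E d → ℝ} (hρc : Continuous ρ) (hρ0 : ∀ x, 0 ≤ ρ x)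
    (hρi : Integrable ρ) (hρ1 : ∫ x, ρ x = 1) {u : E d → G} (hu : StronglyMeasurable u)
    {p : ℝ} (hp : 1 ≤ p) :
    eLpNorm (ρ ⋆[ContinuousLinearMap.lsmul ℝ ℝ, volume] u) (ENNReal.ofReal p) volume ≤
      eLpNorm u (ENNReal.ofReal p) volume := by
  have hp0 : 0 < p := by linarith
  have hq0 : ENNReal.ofReal p ≠ 0 := by simpa using hp0
  have hqt : ENNReal.ofReal p ≠ ⊤ := ENNReal.ofReal_ne_top
  have hqr : (ENNReal.ofReal p).toReal = p := ENNReal.toReal_ofReal hp0.le
  have hm : Measurable (fun z => ENNReal.ofReal (ρ z)) := hρc.measurable.ennreal_ofReal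
  have h1 : ∫⁻ z, ENNReal.ofReal (ρ z) = 1 := by
    rw [← ofReal_integral_eq_lintegral_ofReal hρi (Filter.Eventually.of_forall hρ0), hρ1,
      ENNReal.ofReal_one]
  set ν : Measure (E d) := volume.withDensity (fun z => ENNReal.ofReal (ρ z)) with hν
  have : IsProbabilityMeasure ν := ⟨by rw [hν, withDensity_apply _ MeasurableSet.univ]; simpa⟩
  have hpt : ∀ x, ‖(ρ ⋆[ContinuousLinearMap.lsmul ℝ ℝ, volume] u) x‖ₑ ^ p ≤
      ∫⁻ t, ENNReal.ofReal (ρ t) * ‖u (x - t)‖ₑ ^ p := by
    intro x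
    have hux : StronglyMeasurable (fun t => u (x - t)) :=
      hu.comp_measurable (measurable_const.sub measurable_id)
    have h2 : ‖(ρ ⋆[ContinuousLinearMap.lsmul ℝ ℝ, volume] u) x‖ₑ ≤
        eLpNorm (fun t => u (x - t)) 1 ν := by
      rw [eLpNorm_one_eq_lintegral_enorm, hν,
        lintegral_withDensity_eq_lintegral_mul _ hm hux.enorm]
      rw [convolution_def]
      refine (enorm_integral_le_lintegral_enorm _).trans (le_of_eq ?_)
      refine lintegral_congr fun t => ?_
      simp only [ContinuousLinearMap.lsmul_apply, enorm_smul, Pi.mul_apply]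
      rw [Real.enorm_of_nonneg (hρ0 t)]
    have h3 : eLpNorm (fun t => u (x - t)) 1 ν ≤ eLpNorm (fun t => u (x - t))
        (ENNReal.ofReal p) ν :=
      eLpNorm_le_eLpNorm_of_exponent_le (by simpa using ENNReal.ofReal_le_ofReal hp)
        hux.aestronglyMeasurable
    have h4 := ENNReal.rpow_le_rpow (h2.trans h3) hp0.le
    rw [eLpNorm_eq_lintegral_rpow_enorm_toReal hq0 hqt, hqr, ← ENNReal.rpow_mul,
      one_div_mul_cancel hp0.ne', ENNReal.rpow_one, hν,
      lintegral_withDensity_eq_lintegral_mul _ hm (hux.enorm.pow_const _)] at h4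
    exact h4
  rw [eLpNorm_eq_lintegral_rpow_enorm_toReal hq0 hqt, eLpNorm_eq_lintegral_rpow_enorm_toReal
    hq0 hqt, hqr]
  refine ENNReal.rpow_le_rpow ?_ (by positivity)
  calc ∫⁻ x, ‖(ρ ⋆[ContinuousLinearMap.lsmul ℝ ℝ, volume] u) x‖ₑ ^ p
      ≤ ∫⁻ x, ∫⁻ t, ENNReal.ofReal (ρ t) * ‖u (x - t)‖ₑ ^ p := lintegral_mono hpt
    _ = ∫⁻ t, ∫⁻ x, ENNReal.ofReal (ρ t) * ‖u (x - t)‖ₑ ^ p := by
        refine lintegral_lintegral_swap ?_
        have h5 : Measurable (fun z : E d × E d => ‖u (z.1 - z.2)‖ₑ) :=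
          (hu.comp_measurable (measurable_fst.sub measurable_snd)).enorm
        exact ((hm.comp measurable_snd).mul (h5.pow_const p)).aemeasurable
    _ = ∫⁻ t, ENNReal.ofReal (ρ t) * ∫⁻ x, ‖u x‖ₑ ^ p := by
        refine lintegral_congr fun t => ?_
        rw [lintegral_const_mul']
        · congr 1
          exact lintegral_sub_right_eq_self (fun x => ‖u x‖ₑ ^ p) t
        · exact ENNReal.ofReal_ne_top
    _ = ∫⁻ x, ‖u x‖ₑ ^ p := by
        rw [lintegral_mul_const _ hm, h1, one_mul]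

/-- Young's inequality for a probability density. -/
private theorem AppA_young {ρ : E d → ℝ} (hρc : Continuous ρ) (hρ0 : ∀ x, 0 ≤ ρ x)
    (hρi : Integrable ρ) (hρ1 : ∫ x, ρ x = 1) {u : E d → G} (hu : AEStronglyMeasurable u)
    {p : ℝ} (hp : 1 ≤ p) :
    eLpNorm (ρ ⋆[ContinuousLinearMap.lsmul ℝ ℝ, volume] u) (ENNReal.ofReal p) volume ≤
      eLpNorm u (ENNReal.ofReal p) volume := by
  have h1 : (ρ ⋆[ContinuousLinearMap.lsmul ℝ ℝ, volume] u) =
      (ρ ⋆[ContinuousLinearMap.lsmul ℝ ℝ, volume] hu.mk u) :=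
    convolution_congr _ Filter.EventuallyEq.rfl hu.ae_eq_mk
  rw [h1, eLpNorm_congr_ae hu.ae_eq_mk]
  exact AppA_young_aux hρc hρ0 hρi hρ1 hu.stronglyMeasurable_mk hp

/-- A mollifier at the scale `ε`. -/
private structure AppAMol (ρ : E d → ℝ) (ε : ℝ) : Prop where
  smooth : ContDiff ℝ ∞ ρ
  supp : Function.support ρ ⊆ ball 0 ε
  nonneg : ∀ x, 0 ≤ ρ x
  int : ∫ x, ρ x = 1

private theorem AppAMol.cpt {ρ : E d → ℝ} {ε : ℝ} (h : AppAMol ρ ε) : HasCompactSupport ρ :=
  HasCompactSupport.of_support_subset_isCompact (isCompact_closedBall (0 : E d) ε)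
    (h.supp.trans ball_subset_closedBall)

private theorem AppA_exists_mol {ε : ℝ} (hε : 0 < ε) : ∃ ρ : E d → ℝ, AppAMol ρ ε := by
  set φ : ContDiffBump (0 : E d) := ⟨ε / 2, ε, half_pos hε, half_lt_self hε⟩
  exact ⟨φ.normed volume, φ.contDiff_normed, φ.support_normed_eq.subset, φ.nonneg_normed,
    φ.integral_normed⟩

/-- Mollifications converge in `Lp`. -/
private theorem AppA_approx [CompleteSpace G] {u : E d → G} {p : ℝ} (hp : 1 ≤ p)
    (hu : MemLp u (ENNReal.ofReal p)) {δ : ℝ} (hδ : 0 < δ) :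
    ∃ ε₀ : ℝ, 0 < ε₀ ∧ ε₀ ≤ 1 ∧ ∀ ρ : E d → ℝ, AppAMol ρ ε₀ →
      eLpNorm (fun x => (ρ ⋆[ContinuousLinearMap.lsmul ℝ ℝ, volume] u) x - u x)
        (ENNReal.ofReal p) ≤ ENNReal.ofReal δ := by
  have hp0 : 0 < p := by linarith
  have hq0 : ENNReal.ofReal p ≠ 0 := by simpa using hp0
  have hq1 : 1 ≤ ENNReal.ofReal p := by simpa using ENNReal.ofReal_le_ofReal hp
  have hqt : ENNReal.ofReal p ≠ ⊤ := ENNReal.ofReal_ne_top
  have hqr : (ENNReal.ofReal p).toReal = p := ENNReal.toReal_ofReal hp0.le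
  obtain ⟨v, hvc, hv, hvcont, hvm⟩ := hu.exists_hasCompactSupport_eLpNorm_sub_le hqt
    (ε := ENNReal.ofReal (δ / 3)) (by simpa using hδ)
  -- the compact set
  set K : Set (E d) := cthickening 1 (tsupport v) with hK
  have hKc : IsCompact K := hvc.isCompact.cthickening
  have hKv : volume K ≠ ⊤ := hKc.measure_lt_top.ne
  obtain ⟨η, hη0, hη⟩ : ∃ η : ℝ, 0 < η ∧
      ENNReal.ofReal η * volume K ^ (1 / p) ≤ ENNReal.ofReal (δ / 3) := by
    set c : ℝ := (volume K ^ (1 / p)).toReal with hc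
    have hc' : volume K ^ (1 / p) = ENNReal.ofReal c :=
      (ENNReal.ofReal_toReal (ENNReal.rpow_ne_top_of_nonneg (by positivity) hKv)).symm
    have hc0 : 0 ≤ c := ENNReal.toReal_nonneg
    refine ⟨δ / 3 / (c + 1), by positivity, ?_⟩
    rw [hc', ← ENNReal.ofReal_mul (by positivity)]
    refine ENNReal.ofReal_le_ofReal ?_
    rw [div_mul_eq_mul_div, div_le_iff₀ (by positivity)]
    nlinarith
  have hvu : UniformContinuous v := hvc.uniformContinuous_of_continuous hvcont
  obtain ⟨δ₁, hδ₁, hv1⟩ := Metric.uniformContinuous_iff.mp hvu η hη0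
  refine ⟨min 1 δ₁, lt_min one_pos hδ₁, min_le_left _ _, fun ρ hρ => ?_⟩
  have hρi : Integrable ρ := hρ.smooth.continuous.integrable_of_hasCompactSupport hρ.cpt
  have hvi : LocallyIntegrable v := hvcont.locallyIntegrable
  have hui : LocallyIntegrable u := hu.locallyIntegrable hq1
  have e1 : (ρ ⋆[ContinuousLinearMap.lsmul ℝ ℝ, volume] u) =
      (ρ ⋆[ContinuousLinearMap.lsmul ℝ ℝ, volume] (u - v)) +
      (ρ ⋆[ContinuousLinearMap.lsmul ℝ ℝ, volume] v) := by
    have h1 : u = (u - v) + v := by abel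
    nth_rewrite 1 [h1]
    exact ConvolutionExists.distrib_add
      (hρ.cpt.convolutionExists_left _ hρ.smooth.continuous (hui.sub hvi))
      (hρ.cpt.convolutionExists_left _ hρ.smooth.continuous hvi)
  have e2 : (fun x => (ρ ⋆[ContinuousLinearMap.lsmul ℝ ℝ, volume] u) x - u x) =
      (ρ ⋆[ContinuousLinearMap.lsmul ℝ ℝ, volume] (u - v)) +
      ((ρ ⋆[ContinuousLinearMap.lsmul ℝ ℝ, volume] v) - v) + (v - u) := by
    rw [e1]
    funext x
    simp only [Pi.add_apply, Pi.sub_apply]
    abel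
  have hc1 : Continuous (ρ ⋆[ContinuousLinearMap.lsmul ℝ ℝ, volume] (u - v)) :=
    hρ.cpt.continuous_convolution_left _ hρ.smooth.continuous (hui.sub hvi)
  have hc2 : Continuous (ρ ⋆[ContinuousLinearMap.lsmul ℝ ℝ, volume] v) :=
    hρ.cpt.continuous_convolution_left _ hρ.smooth.continuous hvi
  have b1 : eLpNorm (ρ ⋆[ContinuousLinearMap.lsmul ℝ ℝ, volume] (u - v)) (ENNReal.ofReal p) ≤
      ENNReal.ofReal (δ / 3) :=
    (AppA_young hρ.smooth.continuous hρ.nonneg hρi hρ.int
      (hu.1.sub hvcont.aestronglyMeasurable) hp).trans hv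
  have b3 : eLpNorm (v - u) (ENNReal.ofReal p) ≤ ENNReal.ofReal (δ / 3) := by
    rw [eLpNorm_sub_comm]
    exact hv
  have b2 : eLpNorm ((ρ ⋆[ContinuousLinearMap.lsmul ℝ ℝ, volume] v) - v) (ENNReal.ofReal p) ≤
      ENNReal.ofReal (δ / 3) := by
    have h1 : ∀ x, ‖((ρ ⋆[ContinuousLinearMap.lsmul ℝ ℝ, volume] v) - v) x‖ ≤
        ‖K.indicator (fun _ => η) x‖ := by
      intro x
      rw [Pi.sub_apply, ← dist_eq_norm]
      by_cases hx : x ∈ K
      · rw [indicator_of_mem hx, Real.norm_of_nonneg hη0.le]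
        refine dist_convolution_le hη0.le (hρ.supp) hρ.nonneg hρ.int
          hvcont.aestronglyMeasurable fun y hy => ?_
        exact (hv1 (lt_of_lt_of_le (mem_ball.mp hy) (min_le_right _ _))).le
      · rw [indicator_of_notMem hx, norm_zero]
        refine dist_convolution_le le_rfl (hρ.supp) hρ.nonneg hρ.int
          hvcont.aestronglyMeasurable fun y hy => ?_
        have hz : ∀ z, dist z x ≤ 1 → v z = 0 := by
          intro z hz
          by_contra hne
          exact hx (mem_cthickening_of_dist_le x z _ _ (subset_tsupport v hne)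
            (by rwa [dist_comm]))
        rw [hz y ((mem_ball.mp hy).le.trans (min_le_left _ _)), hz x (by simp), dist_self]
    refine (eLpNorm_mono h1).trans ?_
    rw [eLpNorm_indicator_const hKc.measurableSet hq0 hqt, hqr, Real.enorm_of_nonneg hη0.le]
    exact hη
  rw [e2]
  have hm1 := hc1.aestronglyMeasurable (μ := (volume : Measure (E d)))
  have hm2 := (hc2.sub hvcont).aestronglyMeasurable (μ := (volume : Measure (E d)))
  have hm3 : AEStronglyMeasurable (v - u) (volume : Measure (E d)) :=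
    hvcont.aestronglyMeasurable.sub hu.1
  refine (eLpNorm_add_le (hm1.add hm2) hm3 hq1).trans ?_
  refine (add_le_add (eLpNorm_add_le hm1 hm2 hq1) le_rfl).trans ?_
  refine (add_le_add (add_le_add b1 b2) b3).trans (le_of_eq ?_)
  rw [← ENNReal.ofReal_add (by positivity) (by positivity),
    ← ENNReal.ofReal_add (by positivity) (by positivity)]
  congr 1
  ring

end Young

private theorem AppA_gradi (g : E d → ℝ) (x : E d) (i : Fin d) :
    gradient g x i = fderiv ℝ g x (EuclideanSpace.single i 1) := by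
  rw [← inner_gradient_left, EuclideanSpace.inner_single_right]
  simp

/-- The gradient of a mollification. -/
private theorem AppA_grad {f : E d → ℝ} {F : E d → E d} (hw : IsWeakGradient f F)
    {ρ : E d → ℝ} {ε : ℝ} (hρ : AppAMol ρ ε) (x : E d) :
    gradient (ρ ⋆[ContinuousLinearMap.lsmul ℝ ℝ, volume] f) x =
      (ρ ⋆[ContinuousLinearMap.lsmul ℝ ℝ, volume] F) x := by
  obtain ⟨hf, hF, hw⟩ := hw
  have hC1 : ContDiff ℝ 1 ρ := hρ.smooth.of_le (by exact_mod_cast le_top)
  have hswap : (ρ ⋆[ContinuousLinearMap.lsmul ℝ ℝ, volume] f) =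
      (f ⋆[ContinuousLinearMap.lsmul ℝ ℝ, volume] ρ) := by
    rw [← convolution_flip]
    congr 1
    ext
    simp
  ext i
  -- the test function
  set φ : E d → ℝ := fun y => ρ (x - y) with hφ
  have hφC : ContDiff ℝ ∞ φ := hρ.smooth.comp (contDiff_const.sub contDiff_id)
  have hφc : HasCompactSupport φ := by
    refine HasCompactSupport.of_support_subset_isCompact (isCompact_closedBall x ε) ?_
    intro y hy
    have h1 : x - y ∈ Function.support ρ := hy
    have h2 := hρ.supp h1
    rw [mem_ball_zero_iff] at h2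
    rw [mem_closedBall, dist_comm, dist_eq_norm]
    exact h2.le
  have hφd : ∀ y v, fderiv ℝ φ y v = - fderiv ℝ ρ (x - y) v := by
    intro y v
    have h1 : HasFDerivAt ρ (fderiv ℝ ρ (x - y)) (x - y) :=
      (hC1.differentiable (by norm_num) _).hasFDerivAt
    have h2 : HasFDerivAt (fun y : E d => x - y) (-ContinuousLinearMap.id ℝ (E d)) y :=
      (hasFDerivAt_id y).const_sub x
    have h3 := h1.comp y h2
    have h4 : fderiv ℝ φ y = (fderiv ℝ ρ (x - y)).comp (-ContinuousLinearMap.id ℝ (E d)) :=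
      h3.fderiv
    rw [h4]
    simp
  have key := hw φ hφC hφc i
  have hder : fderiv ℝ (ρ ⋆[ContinuousLinearMap.lsmul ℝ ℝ, volume] f) x
      (EuclideanSpace.single i 1) = ∫ t, f t * fderiv ℝ ρ (x - t) (EuclideanSpace.single i 1) := by
    rw [hswap]
    have h1 := hρ.cpt.hasFDerivAt_convolution_right
      (ContinuousLinearMap.lsmul ℝ ℝ) hf hC1 x (μ := volume)
    rw [h1.fderiv, convolution_precompR_apply _ hf
      (hρ.cpt.fderiv ℝ) (hC1.continuous_fderiv (by norm_num)) x (EuclideanSpace.single i 1)]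
    rfl
  rw [AppA_gradi, hder]
  have h2 : ∫ t, f t * fderiv ℝ ρ (x - t) (EuclideanSpace.single i 1) =
      ∫ t, F t i * φ t := by
    simp only [hφd, mul_neg] at key
    rw [integral_neg] at key
    exact neg_injective key
  rw [h2]
  have h3 : (ρ ⋆[ContinuousLinearMap.lsmul ℝ ℝ, volume] F) x i = ∫ t, ρ t * F (x - t) i := by
    have hex := hρ.cpt.convolutionExists_left (ContinuousLinearMap.lsmul ℝ ℝ)
      hρ.smooth.continuous hF x
    have h4 := (EuclideanSpace.proj i : E d →L[ℝ] ℝ).integral_comp_comm hex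
    simp only [ContinuousLinearMap.lsmul_apply] at h4
    rw [convolution_def]
    simp only [ContinuousLinearMap.lsmul_apply]
    change (EuclideanSpace.proj i : E d →L[ℝ] ℝ) (∫ t, ρ t • F (x - t)) = _
    rw [← h4]
    rfl
  rw [h3, ← integral_sub_left_eq_self _ volume x]
  refine integral_congr_ae (Filter.Eventually.of_forall fun t => ?_)
  simp only [hφ, sub_sub_cancel]
  ring

/-- The cutoff function at the scale `R`. -/
private theorem AppA_cutoff : ∃ C : ℝ, 0 ≤ C ∧ ∀ R : ℝ, 1 ≤ R → ∃ χ : E d → ℝ,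
    ContDiff ℝ ∞ χ ∧ HasCompactSupport χ ∧ (∀ x, 0 ≤ χ x) ∧ (∀ x, χ x ≤ 1) ∧
      (∀ x, ‖x‖ ≤ R → χ x = 1) ∧ ∀ x, ‖gradient χ x‖ ≤ C / R := by
  set φ : ContDiffBump (0 : E d) := ⟨1, 2, by norm_num, by norm_num⟩ with hφ
  have hφC : ContDiff ℝ ∞ (φ : E d → ℝ) := φ.contDiff
  have hφC1 : ContDiff ℝ 1 (φ : E d → ℝ) := φ.contDiff
  have hcont : Continuous (fun x => fderiv ℝ (φ : E d → ℝ) x) :=
    hφC1.continuous_fderiv (by norm_num)
  obtain ⟨C, hC⟩ := (φ.hasCompactSupport.fderiv ℝ).exists_bound_of_continuous hcont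
  have hC0 : 0 ≤ C := (norm_nonneg _).trans (hC 0)
  refine ⟨C, hC0, fun R hR => ?_⟩
  have hR0 : 0 < R := by linarith
  refine ⟨fun x => φ (R⁻¹ • x), hφC.comp (contDiff_const_smul R⁻¹), ?_, fun x => φ.nonneg,
    fun x => φ.le_one, ?_, ?_⟩
  · refine HasCompactSupport.of_support_subset_isCompact (isCompact_closedBall (0 : E d) (2 * R))
      fun x hx => ?_
    have h1 : R⁻¹ • x ∈ Function.support (φ : E d → ℝ) := hx
    rw [φ.support_eq, mem_ball_zero_iff, norm_smul, norm_inv, Real.norm_of_nonneg hR0.le] at h1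
    rw [mem_closedBall_zero_iff]
    have h2 : R * (R⁻¹ * ‖x‖) < R * 2 := mul_lt_mul_of_pos_left h1 hR0
    rw [← mul_assoc, mul_inv_cancel₀ hR0.ne', one_mul] at h2
    linarith
  · intro x hx
    refine φ.one_of_mem_closedBall ?_
    rw [mem_closedBall_zero_iff, norm_smul, norm_inv, Real.norm_of_nonneg hR0.le]
    change R⁻¹ * ‖x‖ ≤ 1
    rw [inv_mul_le_iff₀ hR0]
    linarith
  · intro x
    have h1 : HasFDerivAt (φ : E d → ℝ) (fderiv ℝ (φ : E d → ℝ) (R⁻¹ • x)) (R⁻¹ • x) :=
      (hφC1.differentiable (by norm_num) _).hasFDerivAt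
    have h2 : HasFDerivAt (fun x : E d => R⁻¹ • x) (R⁻¹ • ContinuousLinearMap.id ℝ (E d)) x :=
      (hasFDerivAt_id x).const_smul R⁻¹
    have h3 := (h1.comp x h2).fderiv
    rw [gradient, LinearIsometryEquiv.norm_map]
    have h4 : fderiv ℝ (fun x => (φ : E d → ℝ) (R⁻¹ • x)) x =
        R⁻¹ • fderiv ℝ (φ : E d → ℝ) (R⁻¹ • x) := by
      refine h3.trans ?_
      ext v
      simp
    rw [h4, norm_smul, norm_inv, Real.norm_of_nonneg hR0.le, div_eq_inv_mul]
    exact mul_le_mul_of_nonneg_left (hC _) (by positivity)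

/-- Cutting off converges in `Lp`. -/
private theorem AppA_cut {G : Type*} [NormedAddCommGroup G] [NormedSpace ℝ G] {u : E d → G}
    {p : ℝ} (hp : 1 ≤ p) (hu : MemLp u (ENNReal.ofReal p)) {δ : ℝ} (hδ : 0 < δ) :
    ∃ R₀ : ℝ, 1 ≤ R₀ ∧ ∀ χ : E d → ℝ, Continuous χ → (∀ x, 0 ≤ χ x) → (∀ x, χ x ≤ 1) →
      (∀ x, ‖x‖ ≤ R₀ → χ x = 1) →
        eLpNorm (fun x => χ x • u x - u x) (ENNReal.ofReal p) ≤ ENNReal.ofReal δ := by
  have hp0 : 0 < p := by linarith
  have hq0 : ENNReal.ofReal p ≠ 0 := by simpa using hp0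
  have hqt : ENNReal.ofReal p ≠ ⊤ := ENNReal.ofReal_ne_top
  have hqr : (ENNReal.ofReal p).toReal = p := ENNReal.toReal_ofReal hp0.le
  obtain ⟨v, hvc, hv, hvcont, hvm⟩ := hu.exists_hasCompactSupport_eLpNorm_sub_le hqt
    (ε := ENNReal.ofReal δ) (by simpa using hδ)
  obtain ⟨r, hr⟩ := hvc.isCompact.isBounded.subset_closedBall (0 : E d)
  refine ⟨max 1 r, le_max_left _ _, fun χ _ hχ0 hχ1 hχR => ?_⟩
  refine le_trans (eLpNorm_mono fun x => ?_) hv
  have h1 : χ x • u x - u x = -((1 - χ x) • u x) := by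
    rw [sub_smul, one_smul]
    abel
  rw [h1, norm_neg, norm_smul, Real.norm_of_nonneg (by linarith [hχ1 x]), Pi.sub_apply]
  by_cases hx : ‖x‖ ≤ max 1 r
  · rw [hχR x hx]
    simp
  · have h2 : v x = 0 := by
      by_contra hne
      have h3 := hr (subset_tsupport v hne)
      rw [mem_closedBall_zero_iff] at h3
      exact hx (h3.trans (le_max_right _ _))
    rw [h2, sub_zero]
    refine mul_le_of_le_one_left (norm_nonneg _) ?_
    linarith [hχ0 x]

/-- The weak gradient of a product with a test function. -/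
private theorem AppA_prod {f : E d → ℝ} {F : E d → E d} (hw : IsWeakGradient f F)
    {χ : E d → ℝ} (hχ : ContDiff ℝ ∞ χ) (hχc : HasCompactSupport χ) :
    IsWeakGradient (fun x => χ x * f x) (fun x => χ x • F x + f x • gradient χ x) := by
  obtain ⟨hf, hF, hw⟩ := hw
  have hχ1 : ContDiff ℝ 1 χ := hχ.of_le (by exact_mod_cast le_top)
  have hgc : Continuous (gradient χ) := by
    have h1 : Continuous (fderiv ℝ χ) := hχ1.continuous_fderiv (by norm_num)
    exact (InnerProductSpace.toDual ℝ (E d)).symm.continuous.comp h1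
  have hgs : HasCompactSupport (gradient χ) := by
    refine (hχc.fderiv ℝ).mono fun x hx => ?_
    intro h
    apply hx
    rw [gradient, h, map_zero]
  refine ⟨?_, ?_, fun φ hφ hφc i => ?_⟩
  · have h1 := hf.integrable_smul_left_of_hasCompactSupport hχ.continuous hχc
    exact h1.locallyIntegrable
  · have h1 := hF.integrable_smul_left_of_hasCompactSupport hχ.continuous hχc
    have h2 := hf.integrable_smul_right_of_hasCompactSupport hgc hgs
    exact (h1.add h2).locallyIntegrable
  · have hφ1 : ContDiff ℝ 1 φ := hφ.of_le (by exact_mod_cast le_top)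
    have hd : ∀ x, fderiv ℝ (fun y => χ y * φ y) x (EuclideanSpace.single i 1) =
        χ x * fderiv ℝ φ x (EuclideanSpace.single i 1) +
          φ x * fderiv ℝ χ x (EuclideanSpace.single i 1) := by
      intro x
      rw [fderiv_fun_mul (hχ1.differentiable (by norm_num) x) (hφ1.differentiable (by norm_num) x)]
      simp
    have key := hw (fun y => χ y * φ y) (hχ.mul hφ) (hφc.mul_left) i
    simp only [hd] at key
    have hcφ : Continuous (fun x => fderiv ℝ φ x (EuclideanSpace.single i 1)) :=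
      (hφ1.continuous_fderiv (by norm_num)).clm_apply continuous_const
    have hcχ : Continuous (fun x => fderiv ℝ χ x (EuclideanSpace.single i 1)) :=
      (hχ1.continuous_fderiv (by norm_num)).clm_apply continuous_const
    have i1 : Integrable (fun x => χ x * f x * fderiv ℝ φ x (EuclideanSpace.single i 1)) := by
      have h1 := hf.integrable_smul_left_of_hasCompactSupport (hχ.continuous.mul hcφ)
        (hχc.mul_right)
      refine h1.congr (Filter.Eventually.of_forall fun x => ?_)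
      simp only [Pi.mul_apply, smul_eq_mul]
      ring
    have i2 : Integrable (fun x => f x * (φ x * fderiv ℝ χ x (EuclideanSpace.single i 1))) := by
      have h1 := hf.integrable_smul_left_of_hasCompactSupport (hφ.continuous.mul hcχ)
        (hφc.mul_right)
      refine h1.congr (Filter.Eventually.of_forall fun x => ?_)
      simp only [Pi.mul_apply, smul_eq_mul]
      ring
    have i3 : Integrable (fun x => F x i * (χ x * φ x)) := by
      have h1 := hF.integrable_smul_left_of_hasCompactSupport (hχ.continuous.mul hφ.continuous)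
        (hχc.mul_right)
      have h2 := (EuclideanSpace.proj i : E d →L[ℝ] ℝ).integrable_comp h1
      refine h2.congr (Filter.Eventually.of_forall fun x => ?_)
      simp
      ring
    have e1 : ∫ x, f x * (χ x * fderiv ℝ φ x (EuclideanSpace.single i 1) +
        φ x * fderiv ℝ χ x (EuclideanSpace.single i 1)) =
        (∫ x, χ x * f x * fderiv ℝ φ x (EuclideanSpace.single i 1)) +
          ∫ x, f x * (φ x * fderiv ℝ χ x (EuclideanSpace.single i 1)) := by
      rw [← integral_add i1 i2]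
      refine integral_congr_ae (Filter.Eventually.of_forall fun x => ?_)
      simp only
      ring
    have e2 : ∫ x, (χ x • F x + f x • gradient χ x) i * φ x =
        (∫ x, F x i * (χ x * φ x)) +
          ∫ x, f x * (φ x * fderiv ℝ χ x (EuclideanSpace.single i 1)) := by
      rw [← integral_add i3 i2]
      refine integral_congr_ae (Filter.Eventually.of_forall fun x => ?_)
      simp only [PiLp.add_apply, PiLp.smul_apply, smul_eq_mul, AppA_gradi]
      ring
    rw [e2]
    linarith [e1, key]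

/-- Approximation of a Sobolev function by test functions. -/
theorem dense_test {p : ℝ} (hp : 1 ≤ p) {f : E d → ℝ} {F : E d → E d}
    (hf : MemLp f (ENNReal.ofReal p)) (hF : MemLp F (ENNReal.ofReal p))
    (hw : IsWeakGradient f F) {e : ℝ} (he : 0 < e) : ∃ g : E d → ℝ, ContDiff ℝ ∞ g ∧
      HasCompactSupport g ∧ eLpNorm (fun x => g x - f x) (ENNReal.ofReal p) ≤ ENNReal.ofReal e ∧
      eLpNorm (fun x => gradient g x - F x) (ENNReal.ofReal p) ≤ ENNReal.ofReal e := by
  have hp0 : 0 < p := by linarith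
  have hq1 : 1 ≤ ENNReal.ofReal p := by simpa using ENNReal.ofReal_le_ofReal hp
  obtain ⟨C, hC0, hcut⟩ := AppA_cutoff (d := d)
  obtain ⟨R₁, hR₁, h1⟩ := AppA_cut hp hf (show (0 : ℝ) < e / 3 by positivity)
  obtain ⟨R₂, hR₂, h2⟩ := AppA_cut hp hF (show (0 : ℝ) < e / 3 by positivity)
  -- the norm of f
  set N : ℝ := (eLpNorm f (ENNReal.ofReal p)).toReal with hN
  have hN' : eLpNorm f (ENNReal.ofReal p) = ENNReal.ofReal N :=
    (ENNReal.ofReal_toReal hf.2.ne).symm
  have hN0 : 0 ≤ N := ENNReal.toReal_nonneg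
  set R : ℝ := max (max R₁ R₂) (3 * C * N / e + 1) with hR
  have hR1 : 1 ≤ R := hR₁.trans ((le_max_left _ _).trans (le_max_left _ _))
  obtain ⟨χ, hχ, hχc, hχ0, hχ1, hχR, hχg⟩ := hcut R hR1
  have b1 : eLpNorm (fun x => χ x • f x - f x) (ENNReal.ofReal p) ≤ ENNReal.ofReal (e / 3) :=
    h1 χ hχ.continuous hχ0 hχ1 fun x hx =>
      hχR x (hx.trans ((le_max_left _ _).trans (le_max_left _ _)))
  have b2 : eLpNorm (fun x => χ x • F x - F x) (ENNReal.ofReal p) ≤ ENNReal.ofReal (e / 3) :=
    h2 χ hχ.continuous hχ0 hχ1 fun x hx =>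
      hχR x (hx.trans ((le_max_right _ _).trans (le_max_left _ _)))
  have hχ' : ContDiff ℝ 1 χ := hχ.of_le (by exact_mod_cast le_top)
  have hgc : Continuous (gradient χ) := by
    have h1 : Continuous (fderiv ℝ χ) := hχ'.continuous_fderiv (by norm_num)
    exact (InnerProductSpace.toDual ℝ (E d)).symm.continuous.comp h1
  have hR0 : 0 < R := by linarith
  -- the cut off function and its weak gradient
  have hW := AppA_prod hw hχ hχc
  have m1 : MemLp (fun x => χ x * f x) (ENNReal.ofReal p) := by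
    refine hf.mono (hχ.continuous.aestronglyMeasurable.mul hf.1)
      (Filter.Eventually.of_forall fun x => ?_)
    rw [norm_mul, Real.norm_of_nonneg (hχ0 x)]
    exact mul_le_of_le_one_left (norm_nonneg _) (hχ1 x)
  have m2 : MemLp (fun x => χ x • F x) (ENNReal.ofReal p) := by
    refine hF.mono (hχ.continuous.aestronglyMeasurable.smul hF.1)
      (Filter.Eventually.of_forall fun x => ?_)
    rw [norm_smul, Real.norm_of_nonneg (hχ0 x)]
    exact mul_le_of_le_one_left (norm_nonneg _) (hχ1 x)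
  have hle : ∀ x, ‖f x • gradient χ x‖ ≤ C / R * ‖f x‖ := by
    intro x
    rw [norm_smul, mul_comm]
    exact mul_le_mul_of_nonneg_right (hχg x) (norm_nonneg _)
  have m3 : MemLp (fun x => f x • gradient χ x) (ENNReal.ofReal p) :=
    hf.of_le_mul (hf.1.smul hgc.aestronglyMeasurable) (Filter.Eventually.of_forall hle)
  have b3 : eLpNorm (fun x => f x • gradient χ x) (ENNReal.ofReal p) ≤ ENNReal.ofReal (e / 3) := by
    refine (eLpNorm_le_mul_eLpNorm_of_ae_le_mul (Filter.Eventually.of_forall hle) _).trans ?_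
    rw [hN', ← ENNReal.ofReal_mul (by positivity)]
    refine ENNReal.ofReal_le_ofReal ?_
    have h3 : 3 * C * N / e ≤ R := by
      have := le_max_right (max R₁ R₂) (3 * C * N / e + 1)
      linarith
    rw [div_le_iff₀ he] at h3
    rw [div_mul_eq_mul_div, div_le_iff₀ hR0]
    linarith
  obtain ⟨ε₁, hε₁, hε₁1, hm1⟩ := AppA_approx hp m1 (show (0 : ℝ) < e / 3 by positivity)
  obtain ⟨ε₂, hε₂, hε₂1, hm2⟩ := AppA_approx hp (m2.add m3) (show (0 : ℝ) < e / 3 by positivity)
  obtain ⟨ρ, hρ⟩ := AppA_exists_mol (d := d) (lt_min hε₁ hε₂)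
  have hρ1 : AppAMol ρ ε₁ := ⟨hρ.smooth, hρ.supp.trans (ball_subset_ball (min_le_left _ _)),
    hρ.nonneg, hρ.int⟩
  have hρ2 : AppAMol ρ ε₂ := ⟨hρ.smooth, hρ.supp.trans (ball_subset_ball (min_le_right _ _)),
    hρ.nonneg, hρ.int⟩
  have b4 := hm1 ρ hρ1
  have b5 := hm2 ρ hρ2
  set g : E d → ℝ := (ρ ⋆[ContinuousLinearMap.lsmul ℝ ℝ, volume] fun x => χ x * f x) with hg
  have hgs : ContDiff ℝ ∞ g := hρ.cpt.contDiff_convolution_left _ hρ.smooth hW.1
  refine ⟨g, hgs, hρ.cpt.convolution _ (hχc.mul_right), ?_, ?_⟩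
  · have e1 : (fun x => g x - f x) = (fun x => g x - χ x * f x) + fun x => χ x • f x - f x := by
      funext x
      simp only [Pi.add_apply, smul_eq_mul]
      ring
    rw [e1]
    refine (eLpNorm_add_le (hgs.continuous.aestronglyMeasurable.sub m1.1)
      ((hχ.continuous.aestronglyMeasurable.smul hf.1).sub hf.1) hq1).trans ?_
    refine (add_le_add b4 b1).trans ?_
    rw [← ENNReal.ofReal_add (by positivity) (by positivity)]
    exact ENNReal.ofReal_le_ofReal (by linarith)
  · have hgg : ∀ x, gradient g x = (ρ ⋆[ContinuousLinearMap.lsmul ℝ ℝ, volume]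
        fun x => χ x • F x + f x • gradient χ x) x := fun x => AppA_grad hW hρ x
    have e1 : (fun x => gradient g x - F x) =
        ((fun x => (ρ ⋆[ContinuousLinearMap.lsmul ℝ ℝ, volume]
          fun x => χ x • F x + f x • gradient χ x) x - (χ x • F x + f x • gradient χ x)) +
        fun x => χ x • F x - F x) + fun x => f x • gradient χ x := by
      funext x
      simp only [Pi.add_apply, hgg]
      abel
    have hc : Continuous (ρ ⋆[ContinuousLinearMap.lsmul ℝ ℝ, volume]
        fun x => χ x • F x + f x • gradient χ x) :=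
      hρ.cpt.continuous_convolution_left _ hρ.smooth.continuous hW.2.1
    have k1 := hc.aestronglyMeasurable (μ := (volume : Measure (E d))) |>.sub (m2.add m3).1
    have k2 := m2.1.sub hF.1
    rw [e1]
    refine (eLpNorm_add_le (k1.add k2) m3.1 hq1).trans ?_
    refine (add_le_add (eLpNorm_add_le k1 k2 hq1) le_rfl).trans ?_
    refine (add_le_add (add_le_add b5 b2) b3).trans (le_of_eq ?_)
    rw [← ENNReal.ofReal_add (by positivity) (by positivity),
      ← ENNReal.ofReal_add (by positivity) (by positivity)]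
    congr 1
    ring

end Pool.Agent.Lib.MP_ff3fe0_an_SPH
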