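import Pool.Agent.Lib.MP_ff3fe0_an_SPH.AppA

set_option autoImplicit false

/-!
# Approximation of the absolute value
-/

namespace Pool.Agent.Lib.MP_ff3fe0_an_SPH

open MeasureTheory Metric Set
open scoped ENNReal NNReal ContDiff FourierTransform
open Pool.Agent.Lib.MP_ff3fe0_an

variable {d : ℕ}

private theorem AppB_dct {p : ℝ} (hp : 1 ≤ p) {G : Type*} [NormedAddCommGroup G]
    {u : ℕ → E d → G} {b : E d → ℝ} (hu : ∀ n, AEStronglyMeasurable (u n) volume)
    (hb : MemLp b (ENNReal.ofReal p)) (hle : ∀ n, ∀ᵐ x, ‖u n x‖ ≤ b x)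
    (hlim : ∀ᵐ x, Filter.Tendsto (fun n => u n x) Filter.atTop (nhds 0)) :
    Filter.Tendsto (fun n => eLpNorm (u n) (ENNReal.ofReal p)) Filter.atTop (nhds 0) := by
  have hp0 : 0 < p := by linarith
  have h0 : ENNReal.ofReal p ≠ 0 := by simpa using hp0
  have htop : ENNReal.ofReal p ≠ ⊤ := ENNReal.ofReal_ne_top
  have htr : (ENNReal.ofReal p).toReal = p := ENNReal.toReal_ofReal hp0.le
  have hbfin : ∫⁻ x, ‖b x‖ₑ ^ p ≠ ⊤ := by
    have h := lintegral_rpow_enorm_lt_top_of_eLpNorm_lt_top h0 htop hb.2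
    rw [htr] at h
    exact h.ne
  have hint : Filter.Tendsto (fun n => ∫⁻ x, ‖u n x‖ₑ ^ p) Filter.atTop (nhds 0) := by
    have h := tendsto_lintegral_of_dominated_convergence' (μ := volume)
      (F := fun n x => ‖u n x‖ₑ ^ p) (f := fun _ => 0) (fun x => ‖b x‖ₑ ^ p)
      (fun n => (hu n).enorm.pow_const p) (fun n => ?_) hbfin ?_
    · simpa using h
    · filter_upwards [hle n] with x hx
      refine ENNReal.rpow_le_rpow ?_ hp0.le
      refine enorm_le_iff_norm_le.2 ?_
      exact hx.trans (le_abs_self _)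
    · filter_upwards [hlim] with x hx
      have h1 : Filter.Tendsto (fun n => ‖u n x‖ₑ) Filter.atTop (nhds 0) := by
        have := (continuous_enorm.tendsto (0 : G)).comp hx
        rw [enorm_zero] at this
        exact this
      have h2 := (ENNReal.continuous_rpow_const (y := p)).tendsto (0 : ℝ≥0∞)
      have h3 := h2.comp h1
      rw [ENNReal.zero_rpow_of_pos hp0] at h3
      exact h3
  have h4 := ((ENNReal.continuous_rpow_const (y := 1 / p)).tendsto (0 : ℝ≥0∞)).comp hint
  rw [ENNReal.zero_rpow_of_pos (by positivity)] at h4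
  refine h4.congr fun n => ?_
  simp only [Function.comp_apply]
  rw [eLpNorm_eq_lintegral_rpow_enorm_toReal h0 htop, htr]

/-- The smooth approximation of the absolute value. -/
private noncomputable def ph (s u : ℝ) : ℝ := Real.sqrt (u ^ 2 + s ^ 2) - s

private noncomputable def ph' (s u : ℝ) : ℝ := u / Real.sqrt (u ^ 2 + s ^ 2)

private theorem AppB_pos {s : ℝ} (hs : 0 < s) (u : ℝ) : 0 < u ^ 2 + s ^ 2 := by positivity

private theorem AppB_smooth {s : ℝ} (hs : 0 < s) : ContDiff ℝ ∞ (ph s) := by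
  unfold ph
  refine ContDiff.sub (ContDiff.sqrt ?_ fun u => (AppB_pos hs u).ne') contDiff_const
  exact (contDiff_id.pow 2).add contDiff_const

private theorem AppB_deriv {s : ℝ} (hs : 0 < s) (u : ℝ) : HasDerivAt (ph s) (ph' s u) u := by
  have h1 : HasDerivAt (fun u : ℝ => u ^ 2 + s ^ 2) (2 * u) u := by
    simpa using ((hasDerivAt_id u).pow 2).add_const (s ^ 2)
  have h2 := (h1.sqrt (AppB_pos hs u).ne').sub_const s
  have e : ph' s u = 2 * u / (2 * Real.sqrt (u ^ 2 + s ^ 2)) := by
    unfold ph'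
    rw [mul_div_mul_left _ _ (two_ne_zero)]
  rw [e]
  exact h2

private theorem AppB_zero {s : ℝ} (hs : 0 < s) : ph s 0 = 0 := by
  unfold ph
  rw [zero_pow two_ne_zero, zero_add, Real.sqrt_sq hs.le, sub_self]

private theorem AppB_le_sqrt (s u : ℝ) : |u| ≤ Real.sqrt (u ^ 2 + s ^ 2) :=
  Real.abs_le_sqrt (by nlinarith [sq_nonneg s])

private theorem AppB_le_sqrt' {s : ℝ} (hs : 0 < s) (u : ℝ) :
    s ≤ Real.sqrt (u ^ 2 + s ^ 2) := by
  have := Real.abs_le_sqrt (x := s) (y := u ^ 2 + s ^ 2) (by nlinarith [sq_nonneg u])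
  rwa [abs_of_pos hs] at this

private theorem AppB_sqrt_le {s : ℝ} (hs : 0 < s) (u : ℝ) :
    Real.sqrt (u ^ 2 + s ^ 2) ≤ |u| + s := by
  refine Real.sqrt_le_iff.2 ⟨by positivity, ?_⟩
  have : 0 ≤ |u| * s := by positivity
  nlinarith [sq_abs u]

private theorem AppB_nonneg {s : ℝ} (hs : 0 < s) (u : ℝ) : 0 ≤ ph s u := by
  unfold ph
  linarith [AppB_le_sqrt' hs u]

private theorem AppB_abs_le {s : ℝ} (hs : 0 < s) (u : ℝ) : |ph' s u| ≤ 1 := by
  unfold ph'
  rw [abs_div, abs_of_nonneg (Real.sqrt_nonneg _)]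
  exact div_le_one_of_le₀ (AppB_le_sqrt s u) (Real.sqrt_nonneg _)

private theorem AppB_lip {s : ℝ} (hs : 0 < s) (u v : ℝ) : |ph s u - ph s v| ≤ |u - v| := by
  have h := Convex.norm_image_sub_le_of_norm_hasDerivWithin_le (f := ph s) (f' := ph' s)
    (s := Set.univ) (x := v) (y := u) (C := 1)
    (fun x _ => (AppB_deriv hs x).hasDerivWithinAt) (fun x _ => by
      rw [Real.norm_eq_abs]; exact AppB_abs_le hs x) convex_univ (mem_univ _) (mem_univ _)
  simpa [Real.norm_eq_abs] using h

private theorem AppB_err {s : ℝ} (hs : 0 < s) (u : ℝ) :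
    abs (ph s u - |u|) ≤ |u| ∧ abs (ph s u - |u|) ≤ s := by
  unfold ph
  have h1 := AppB_le_sqrt s u
  have h2 := AppB_le_sqrt' hs u
  have h3 := AppB_sqrt_le hs u
  have h4 := abs_nonneg u
  constructor <;> rw [abs_le] <;> constructor <;> linarith

private theorem AppB_lim (s : ℕ → ℝ) (hs : ∀ n, 0 < s n)
    (h0 : Filter.Tendsto s Filter.atTop (nhds 0)) (u : ℝ) :
    Filter.Tendsto (fun n => ph' (s n) u - u / |u|) Filter.atTop (nhds 0) := by
  by_cases hu : u = 0
  · subst hu
    simp [ph']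
  · have hu' : |u| ≠ 0 := abs_ne_zero.2 hu
    have h1 : Filter.Tendsto (fun n => Real.sqrt (u ^ 2 + s n ^ 2)) Filter.atTop
        (nhds (Real.sqrt (u ^ 2 + 0 ^ 2))) :=
      (Real.continuous_sqrt.tendsto _).comp (tendsto_const_nhds.add (h0.pow 2))
    have e : Real.sqrt (u ^ 2 + 0 ^ 2) = |u| := by
      rw [zero_pow two_ne_zero, add_zero, Real.sqrt_sq_eq_abs]
    rw [e] at h1
    have h2 : Filter.Tendsto (fun n => ph' (s n) u) Filter.atTop (nhds (u / |u|)) :=
      tendsto_const_nhds.div h1 hu'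
    have h3 := h2.sub_const (u / |u|)
    rwa [sub_self] at h3

private theorem AppB_gradient {s : ℝ} (hs : 0 < s) {u : E d → ℝ} (hu : ContDiff ℝ ∞ u)
    (x : E d) : gradient (fun y => ph s (u y)) x = ph' s (u x) • gradient u x := by
  have hd : DifferentiableAt ℝ u x := (hu.differentiable (by simp)) x
  have h1 : HasFDerivAt (fun y => ph s (u y)) (ph' s (u x) • fderiv ℝ u x) x :=
    (AppB_deriv hs (u x)).comp_hasFDerivAt x hd.hasFDerivAt
  unfold gradient
  rw [h1.fderiv]
  simp

/-- The absolute value: there is a weak gradient of `|f|` of the size of `F`, and `|f|` is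
approximated by nonnegative test functions. -/
theorem dense_abs {p : ℝ} (hp : 1 ≤ p) {f : E d → ℝ} {F : E d → E d}
    (hf : MemLp f (ENNReal.ofReal p)) (hF : MemLp F (ENNReal.ofReal p))
    (hw : IsWeakGradient f F) : ∃ F' : E d → E d, MemLp F' (ENNReal.ofReal p) ∧
      (∀ᵐ x, ‖F' x‖ ≤ ‖F x‖) ∧ ∀ e : ℝ, 0 < e → ∃ g : E d → ℝ, ContDiff ℝ ∞ g ∧
        HasCompactSupport g ∧ (∀ x, 0 ≤ g x) ∧
        eLpNorm (fun x => g x - |f x|) (ENNReal.ofReal p) ≤ ENNReal.ofReal e ∧
        eLpNorm (fun x => gradient g x - F' x) (ENNReal.ofReal p) ≤ ENNReal.ofReal e := by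
  have hp1 : (1 : ℝ≥0∞) ≤ ENNReal.ofReal p := ENNReal.one_le_ofReal.2 hp
  have hp0 : ENNReal.ofReal p ≠ 0 := (zero_lt_one.trans_le hp1).ne'
  have hfm : AEStronglyMeasurable f volume := hf.1
  have hFm : AEStronglyMeasurable F volume := hF.1
  have hrm : AEStronglyMeasurable (fun x => f x / |f x|) volume :=
    (hfm.aemeasurable.div (continuous_abs.measurable.comp_aemeasurable
      hfm.aemeasurable)).aestronglyMeasurable
  have hr1 : ∀ t : ℝ, abs (t / |t|) ≤ 1 := fun t => by
    rw [abs_div, abs_abs]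
    exact div_self_le_one _
  have hphm : ∀ s : ℝ, 0 < s → Continuous (ph' s) := fun s hs =>
    continuous_id.div (Real.continuous_sqrt.comp ((continuous_id.pow 2).add continuous_const))
      fun u => (Real.sqrt_pos.2 (AppB_pos hs u)).ne'
  have hF'le : ∀ x, ‖(f x / |f x|) • F x‖ ≤ ‖F x‖ := fun x => by
    rw [norm_smul, Real.norm_eq_abs]
    exact mul_le_of_le_one_left (norm_nonneg _) (hr1 _)
  have hF'm : AEStronglyMeasurable (fun x => (f x / |f x|) • F x) volume := hrm.smul hFm
  refine ⟨fun x => (f x / |f x|) • F x, hF.of_le hF'm (Filter.Eventually.of_forall hF'le),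
    Filter.Eventually.of_forall hF'le, fun e he => ?_⟩
  have he4 : (0 : ℝ≥0∞) < ENNReal.ofReal (e / 4) := ENNReal.ofReal_pos.2 (by linarith)
  have hsum4 : ENNReal.ofReal (e / 4) + ENNReal.ofReal (e / 4) + ENNReal.ofReal (e / 4) ≤
      ENNReal.ofReal e := by
    rw [← ENNReal.ofReal_add (by linarith) (by linarith),
      ← ENNReal.ofReal_add (by linarith) (by linarith)]
    exact ENNReal.ofReal_le_ofReal (by linarith)
  -- choice of `s`
  have hsn : ∀ n : ℕ, (0 : ℝ) < 1 / ((n : ℝ) + 1) := fun n => Nat.one_div_pos_of_nat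
  have hsl : Filter.Tendsto (fun n : ℕ => 1 / ((n : ℝ) + 1)) Filter.atTop (nhds 0) :=
    tendsto_one_div_add_atTop_nhds_zero_nat
  have t1 : Filter.Tendsto (fun n : ℕ => eLpNorm (fun x => ph (1 / ((n : ℝ) + 1)) (f x) - |f x|)
      (ENNReal.ofReal p)) Filter.atTop (nhds 0) := by
    refine AppB_dct hp (b := fun x => |f x|) (fun n => ?_) hf.abs (fun n => ?_) ?_
    · exact (((AppB_smooth (hsn n)).continuous.comp_aestronglyMeasurable hfm)).sub
        (continuous_abs.comp_aestronglyMeasurable hfm)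
    · exact Filter.Eventually.of_forall fun x => (AppB_err (hsn n) (f x)).1
    · refine Filter.Eventually.of_forall fun x => ?_
      rw [tendsto_zero_iff_norm_tendsto_zero]
      exact squeeze_zero (fun n => norm_nonneg _) (fun n => (AppB_err (hsn n) (f x)).2) hsl
  have hbF : MemLp (fun x => 2 * ‖F x‖) (ENNReal.ofReal p) := hF.norm.const_mul 2
  have t2 : Filter.Tendsto (fun n : ℕ => eLpNorm (fun x =>
      (ph' (1 / ((n : ℝ) + 1)) (f x) - f x / |f x|) • F x)
      (ENNReal.ofReal p)) Filter.atTop (nhds 0) := by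
    refine AppB_dct hp (b := fun x => 2 * ‖F x‖) (fun n => ?_) hbF (fun n => ?_) ?_
    · exact (((hphm _ (hsn n)).comp_aestronglyMeasurable hfm).sub hrm).smul hFm
    · refine Filter.Eventually.of_forall fun x => ?_
      rw [norm_smul, Real.norm_eq_abs]
      refine mul_le_mul_of_nonneg_right ?_ (norm_nonneg _)
      have h1 := AppB_abs_le (hsn n) (f x)
      have h2 := hr1 (f x)
      have h3 := abs_sub (ph' (1 / ((n : ℝ) + 1)) (f x)) (f x / |f x|)
      linarith
    · refine Filter.Eventually.of_forall fun x => ?_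
      have h := (AppB_lim _ hsn hsl (f x)).smul_const (F x)
      rwa [zero_smul] at h
  obtain ⟨k, hk1, hk2⟩ := ((t1.eventually (gt_mem_nhds he4)).and
    (t2.eventually (gt_mem_nhds he4))).exists
  set s : ℝ := 1 / ((k : ℝ) + 1) with hsdef
  have hs : 0 < s := hsn k
  -- approximation of `f`
  have happ : ∀ n : ℕ, ∃ u : E d → ℝ, ContDiff ℝ ∞ u ∧ HasCompactSupport u ∧
      eLpNorm (fun x => u x - f x) (ENNReal.ofReal p) ≤ ENNReal.ofReal (1 / ((n : ℝ) + 1)) ∧
      eLpNorm (fun x => gradient u x - F x) (ENNReal.ofReal p) ≤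
        ENNReal.ofReal (1 / ((n : ℝ) + 1)) := fun n => dense_test hp hf hF hw (hsn n)
  choose u hu1 hu2 hu3 hu4 using happ
  have hum : ∀ n, AEStronglyMeasurable (u n) volume := fun n =>
    (hu1 n).continuous.aestronglyMeasurable
  have hle0 : Filter.Tendsto (fun n : ℕ => ENNReal.ofReal (1 / ((n : ℝ) + 1))) Filter.atTop
      (nhds 0) := by
    have := (ENNReal.continuous_ofReal.tendsto 0).comp hsl
    rw [ENNReal.ofReal_zero] at this
    exact this
  have t3 : Filter.Tendsto (fun n => eLpNorm (u n - f) (ENNReal.ofReal p)) Filter.atTop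
      (nhds 0) :=
    tendsto_of_tendsto_of_tendsto_of_le_of_le tendsto_const_nhds hle0 (fun _ => bot_le)
      fun n => hu3 n
  obtain ⟨ns, hns, hae⟩ :=
    (tendstoInMeasure_of_tendsto_eLpNorm hp0 hum hfm t3).exists_seq_tendsto_ae
  have t4 : Filter.Tendsto (fun i => eLpNorm (fun x =>
      (ph' s (u (ns i) x) - ph' s (f x)) • F x) (ENNReal.ofReal p)) Filter.atTop (nhds 0) := by
    refine AppB_dct hp (b := fun x => 2 * ‖F x‖) (fun n => ?_) hbF (fun n => ?_) ?_
    · exact (((hphm _ hs).comp_aestronglyMeasurable (hum _)).sub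
        ((hphm _ hs).comp_aestronglyMeasurable hfm)).smul hFm
    · refine Filter.Eventually.of_forall fun x => ?_
      rw [norm_smul, Real.norm_eq_abs]
      refine mul_le_mul_of_nonneg_right ?_ (norm_nonneg _)
      have h1 := AppB_abs_le hs (f x)
      have h2 := AppB_abs_le hs (u (ns n) x)
      have h3 := abs_sub (ph' s (u (ns n) x)) (ph' s (f x))
      linarith
    · filter_upwards [hae] with x hx
      have h1 := ((hphm s hs).tendsto (f x)).comp hx
      have h2 := (h1.sub_const (ph' s (f x))).smul_const (F x)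
      rw [sub_self, zero_smul] at h2
      exact h2
  have t5 : Filter.Tendsto (fun i => ENNReal.ofReal (1 / ((ns i : ℝ) + 1))) Filter.atTop
      (nhds 0) := hle0.comp hns.tendsto_atTop
  obtain ⟨i, hi1, hi2⟩ := ((t4.eventually (gt_mem_nhds he4)).and
    (t5.eventually (gt_mem_nhds he4))).exists
  have hgm : AEStronglyMeasurable (fun x => ph s (u (ns i) x)) volume :=
    (AppB_smooth hs).continuous.comp_aestronglyMeasurable (hum _)
  have hpf : AEStronglyMeasurable (fun x => ph s (f x)) volume :=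
    (AppB_smooth hs).continuous.comp_aestronglyMeasurable hfm
  have hgrm : AEStronglyMeasurable (fun x => gradient (u (ns i)) x) volume := by
    refine Continuous.aestronglyMeasurable ?_
    unfold gradient
    exact (LinearIsometryEquiv.continuous _).comp
      ((hu1 (ns i)).continuous_fderiv (by simp))
  refine ⟨fun x => ph s (u (ns i) x), (AppB_smooth hs).comp (hu1 _), ?_,
    fun x => AppB_nonneg hs _, ?_, ?_⟩
  · exact (hu2 (ns i)).comp_left (AppB_zero hs)
  · have e1 : (fun x => ph s (u (ns i) x) - |f x|) =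
        (fun x => ph s (u (ns i) x) - ph s (f x)) + fun x => ph s (f x) - |f x| := by
      funext x
      simp
    rw [e1]
    refine (eLpNorm_add_le (hgm.sub hpf)
      (hpf.sub (continuous_abs.comp_aestronglyMeasurable hfm)) hp1).trans ?_
    refine le_trans ?_ hsum4
    refine le_trans (add_le_add ?_ hk1.le) (add_le_add_left le_self_add _)
    refine le_trans (eLpNorm_mono (g := fun x => u (ns i) x - f x) fun x => ?_)
      ((hu3 (ns i)).trans hi2.le)
    rw [Real.norm_eq_abs, Real.norm_eq_abs]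
    exact AppB_lip hs _ _
  · have e1 : (fun x => gradient (fun y => ph s (u (ns i) y)) x - (f x / |f x|) • F x) =
        ((fun x => ph' s (u (ns i) x) • (gradient (u (ns i)) x - F x)) +
          fun x => (ph' s (u (ns i) x) - ph' s (f x)) • F x) +
          fun x => (ph' s (f x) - f x / |f x|) • F x := by
      funext x
      simp only [Pi.add_apply]
      rw [AppB_gradient hs (hu1 _)]
      module
    have m1 : AEStronglyMeasurable (fun x => ph' s (u (ns i) x) •
        (gradient (u (ns i)) x - F x)) volume :=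
      ((hphm _ hs).comp_aestronglyMeasurable (hum _)).smul (hgrm.sub hFm)
    have m2 : AEStronglyMeasurable (fun x => (ph' s (u (ns i) x) - ph' s (f x)) • F x)
        volume :=
      (((hphm _ hs).comp_aestronglyMeasurable (hum _)).sub
        ((hphm _ hs).comp_aestronglyMeasurable hfm)).smul hFm
    have m3 : AEStronglyMeasurable (fun x => (ph' s (f x) - f x / |f x|) • F x) volume :=
      (((hphm _ hs).comp_aestronglyMeasurable hfm).sub hrm).smul hFm
    rw [e1]
    refine (eLpNorm_add_le (m1.add m2) m3 hp1).trans ?_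
    refine le_trans (add_le_add (eLpNorm_add_le m1 m2 hp1) le_rfl) ?_
    refine le_trans (add_le_add (add_le_add ?_ hi1.le) hk2.le) hsum4
    refine le_trans (eLpNorm_mono (g := fun x => gradient (u (ns i)) x - F x) fun x => ?_)
      ((hu4 (ns i)).trans hi2.le)
    rw [norm_smul, Real.norm_eq_abs]
    exact mul_le_of_le_one_left (norm_nonneg _) (AppB_abs_le hs _)

end Pool.Agent.Lib.MP_ff3fe0_an_SPH
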