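import Pool.Agent.Lib.MP_ff3fe0_an_SPH.AppB

set_option autoImplicit false

/-!
# The approximating sequence
-/

namespace Pool.Agent.Lib.MP_ff3fe0_an_SPH

open MeasureTheory Metric Set
open scoped ENNReal NNReal ContDiff FourierTransform
open Pool.Agent.Lib.MP_ff3fe0_an

variable {d : ℕ}

private theorem AppC_pow (n : ℕ) : ENNReal.ofReal ((1 / 2 : ℝ) ^ (n + 1)) +
    ENNReal.ofReal ((1 / 2 : ℝ) ^ n) ≤ ENNReal.ofReal (2 * (1 / 2) ^ n) := by
  rw [← ENNReal.ofReal_add (by positivity) (by positivity)]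
  refine ENNReal.ofReal_le_ofReal ?_
  have h : (0 : ℝ) < (1 / 2) ^ n := by positivity
  rw [pow_succ]
  linarith

private theorem AppC_tri {p : ℝ≥0∞} (hp : 1 ≤ p) {G : Type*} [NormedAddCommGroup G]
    {u v w : E d → G} (hu : AEStronglyMeasurable u volume) (hv : AEStronglyMeasurable v volume)
    (hw : AEStronglyMeasurable w volume) {a b : ℝ≥0∞}
    (h1 : eLpNorm (fun x => u x - w x) p ≤ a) (h2 : eLpNorm (fun x => v x - w x) p ≤ b) :
    eLpNorm (fun x => u x - v x) p ≤ a + b := by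
  have e1 : (fun x => u x - v x) = (fun x => u x - w x) - fun x => v x - w x := by
    funext x
    simp
  rw [e1]
  exact (eLpNorm_sub_le (hu.sub hw) (hv.sub hw) hp).trans (add_le_add h1 h2)

private theorem AppC_grad_meas {g : E d → ℝ} (hg : ContDiff ℝ ∞ g) :
    AEStronglyMeasurable (fun x => gradient g x) volume := by
  refine Continuous.aestronglyMeasurable ?_
  unfold gradient
  exact (LinearIsometryEquiv.continuous _).comp (hg.continuous_fderiv (by simp))

private theorem AppC_grad_sub {g h : E d → ℝ} (hg : ContDiff ℝ ∞ g) (hh : ContDiff ℝ ∞ h) :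
    gradient (fun x => g x - h x) = fun x => gradient g x - gradient h x := by
  funext x
  unfold gradient
  rw [fderiv_fun_sub ((hg.differentiable (by simp)) x) ((hh.differentiable (by simp)) x), map_sub]

/-- The approximating sequence. -/
theorem approx {p : ℝ} (hp : 1 ≤ p) {f : E d → ℝ} {F : E d → E d}
    (hf : MemLp f (ENNReal.ofReal p)) (hF : MemLp F (ENNReal.ofReal p))
    (hw : IsWeakGradient f F) : ∃ g : ℕ → E d → ℝ, (∀ n, ContDiff ℝ ∞ (g n)) ∧
      (∀ n, HasCompactSupport (g n)) ∧ (∀ n x, 0 ≤ g n x) ∧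
      (∀ n, eLpNorm (fun x => g n x - |f x|) (ENNReal.ofReal p) ≤ ENNReal.ofReal ((1 / 2) ^ n)) ∧
      (∀ n, eLpNorm (fun x => g (n + 1) x - g n x) (ENNReal.ofReal p) ≤
        ENNReal.ofReal (2 * (1 / 2) ^ n)) ∧
      (∀ n, eLpNorm (gradient (fun x => g (n + 1) x - g n x)) (ENNReal.ofReal p) ≤
        ENNReal.ofReal (2 * (1 / 2) ^ n)) ∧
      ∀ n, eLpNorm (gradient (g n)) (ENNReal.ofReal p) ≤
        eLpNorm F (ENNReal.ofReal p) + ENNReal.ofReal ((1 / 2) ^ n) := by
  have hp1 : (1 : ℝ≥0∞) ≤ ENNReal.ofReal p := ENNReal.one_le_ofReal.2 hp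
  obtain ⟨F', hF', hle, H⟩ := dense_abs hp hf hF hw
  have H' : ∀ n : ℕ, ∃ g : E d → ℝ, ContDiff ℝ ∞ g ∧
        HasCompactSupport g ∧ (∀ x, 0 ≤ g x) ∧
        eLpNorm (fun x => g x - |f x|) (ENNReal.ofReal p) ≤ ENNReal.ofReal ((1 / 2) ^ n) ∧
        eLpNorm (fun x => gradient g x - F' x) (ENNReal.ofReal p) ≤
          ENNReal.ofReal ((1 / 2) ^ n) := fun n => H ((1 / 2) ^ n) (by positivity)
  choose g hg1 hg2 hg3 hg4 hg5 using H'
  have hgm : ∀ n, AEStronglyMeasurable (g n) volume := fun n =>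
    (hg1 n).continuous.aestronglyMeasurable
  have hfm : AEStronglyMeasurable (fun x => |f x|) volume :=
    continuous_abs.comp_aestronglyMeasurable hf.1
  have hdm : ∀ n, AEStronglyMeasurable (fun x => gradient (g n) x) volume := fun n =>
    AppC_grad_meas (hg1 n)
  refine ⟨g, hg1, hg2, hg3, hg4, fun n => ?_, fun n => ?_, fun n => ?_⟩
  · exact (AppC_tri hp1 (hgm (n + 1)) (hgm n) hfm (hg4 (n + 1)) (hg4 n)).trans (AppC_pow n)
  · rw [AppC_grad_sub (hg1 (n + 1)) (hg1 n)]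
    exact (AppC_tri hp1 (hdm (n + 1)) (hdm n) hF'.1 (hg5 (n + 1)) (hg5 n)).trans (AppC_pow n)
  · have e1 : gradient (g n) = F' + fun x => gradient (g n) x - F' x := by
      funext x
      simp
    rw [e1]
    refine (eLpNorm_add_le hF'.1 ((hdm n).sub hF'.1) hp1).trans (add_le_add ?_ (hg5 n))
    exact eLpNorm_mono_ae hle

end Pool.Agent.Lib.MP_ff3fe0_an_SPH
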