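import Pool.Agent.Lib.MP_ff3fe0_an_SPH.Defs

set_option autoImplicit false

/-!
# Convolutions with dilated kernels
-/

namespace Pool.Agent.Lib.MP_ff3fe0_an_SPH

open MeasureTheory Metric Set
open scoped ENNReal NNReal ContDiff FourierTransform
open Pool.Agent.Lib.MP_ff3fe0_an

variable {d : ℕ}

theorem CvA_hcs {F : Type*} [NormedAddCommGroup F] [NormedSpace ℝ F] {K : E d → F}
    (hK : IsKer K) : HasCompactSupport K :=
  HasCompactSupport.intro (isCompact_closedBall (0 : E d) 1) fun y hy =>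
    hK.supp y (by simpa using hy)

theorem CvA_bd {F : Type*} [NormedAddCommGroup F] [NormedSpace ℝ F] {K : E d → F}
    (hK : IsKer K) : ∃ C : ℝ≥0, ∀ y, ‖K y‖ ≤ C := by
  obtain ⟨C, hC⟩ := hK.smooth.continuous.bounded_above_of_compact_support (CvA_hcs hK)
  exact ⟨C.toNNReal, fun y => (hC y).trans (Real.le_coe_toNNReal C)⟩

theorem IsKer.pd {K : E d → ℝ} (hK : IsKer K) (i : Fin d) : IsKer (pd i K) := by
  refine ⟨?_, fun y hy => ?_⟩
  · exact (contDiff_infty_iff_fderiv.1 hK.smooth).2.clm_apply contDiff_const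
  · have h1 : K =ᶠ[nhds y] fun _ => (0 : ℝ) := by
      filter_upwards [(isOpen_lt continuous_const continuous_norm).mem_nhds hy] with z hz
      exact hK.supp z hz
    show fderiv ℝ K y _ = 0
    rw [h1.fderiv_eq]
    simp

/-- the dilated kernel -/
noncomputable def CvA_dil (K : E d → ℝ) (b : ℝ) (z : E d) : ℝ := K (b⁻¹ • z)

theorem CvA_dil_contDiff {K : E d → ℝ} (hK : IsKer K) (b : ℝ) : ContDiff ℝ ∞ (CvA_dil K b) :=
  hK.smooth.comp (contDiff_const_smul b⁻¹)

theorem CvA_dil_hcs {K : E d → ℝ} (hK : IsKer K) {b : ℝ} (hb : 0 < b) :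
    HasCompactSupport (CvA_dil K b) := by
  refine HasCompactSupport.intro (isCompact_closedBall (0 : E d) b) fun y hy => hK.supp _ ?_
  have hy' : b < ‖y‖ := by simpa using hy
  rw [norm_smul, norm_inv, Real.norm_of_nonneg hb.le, ← div_eq_inv_mul, lt_div_iff₀ hb, one_mul]
  exact hy'

/-- the normalising factor -/
noncomputable def CvA_fac (d : ℕ) (b : ℝ) : ℝ := |(b ^ Module.finrank ℝ (E d))⁻¹|

theorem CvA_cv_eq {K : E d → ℝ} {b : ℝ} (hb : 0 < b) (q : E d → ℝ) :
    cv K b q = fun x => CvA_fac d b *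
      convolution (CvA_dil K b) q (ContinuousLinearMap.mul ℝ ℝ) volume x := by
  funext x
  have h1 := Measure.integral_comp_smul (volume : Measure (E d))
    (fun z => K (b⁻¹ • z) * q (x - z)) b
  have h2 : ∀ y : E d, b⁻¹ • b • y = y := fun y => by
    rw [smul_smul, inv_mul_cancel₀ hb.ne', one_smul]
  simp only [h2] at h1
  rw [cv, h1, smul_eq_mul]
  rfl

theorem CvA_int {K : E d → ℝ} (hK : IsKer K) {b : ℝ} (hb : 0 < b) {q : E d → ℝ}
    (hq : LocallyIntegrable q) (x : E d) : Integrable fun y => K y * q (x - b • y) := by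
  have h1 : Integrable fun z => (ContinuousLinearMap.mul ℝ ℝ) (CvA_dil K b z) (q (x - z)) :=
    (CvA_dil_hcs hK hb).convolutionExists_left (ContinuousLinearMap.mul ℝ ℝ)
      (CvA_dil_contDiff hK b).continuous hq x
  have h2 := h1.comp_smul hb.ne'
  refine h2.congr (Filter.Eventually.of_forall fun y => ?_)
  show CvA_dil K b (b • y) * q (x - b • y) = K y * q (x - b • y)
  rw [CvA_dil, smul_smul, inv_mul_cancel₀ hb.ne', one_smul]

theorem cv_contDiff {K : E d → ℝ} (hK : IsKer K) {b : ℝ} (hb : 0 < b) {q : E d → ℝ}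
    (hq : LocallyIntegrable q) : ContDiff ℝ ∞ (cv K b q) := by
  rw [CvA_cv_eq hb]
  exact contDiff_const.mul ((CvA_dil_hcs hK hb).contDiff_convolution_left
    (ContinuousLinearMap.mul ℝ ℝ) (n := ⊤) (CvA_dil_contDiff hK b) hq)

theorem cv_supp {K : E d → ℝ} (hK : IsKer K) {b : ℝ} (hb : 0 < b) {q : E d → ℝ} {r : ℝ}
    (hq : ∀ y, r < ‖y‖ → q y = 0) : ∀ y, r + b < ‖y‖ → cv K b q y = 0 := by
  intro y hy
  rw [cv]
  have h : ∀ z : E d, K z * q (y - b • z) = 0 := by
    intro z
    by_cases hz : 1 < ‖z‖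
    · rw [hK.supp z hz, zero_mul]
    · rw [hq (y - b • z) ?_, mul_zero]
      have h1 : ‖y‖ - ‖b • z‖ ≤ ‖y - b • z‖ := norm_sub_norm_le y (b • z)
      rw [norm_smul, Real.norm_of_nonneg hb.le] at h1
      have h2 : b * ‖z‖ ≤ b := mul_le_of_le_one_right hb.le (not_lt.1 hz)
      linarith
  simp only [h, integral_zero]

/-- The derivatives of a convolution with a smooth kernel. -/
theorem cv_pd {K : E d → ℝ} (hK : IsKer K) {b : ℝ} (hb : 0 < b) {q : E d → ℝ}
    (hq : LocallyIntegrable q) (i : Fin d) :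
    pd i (cv K b q) = fun x => b⁻¹ * cv (pd i K) b q x := by
  funext x
  have hc := CvA_dil_hcs hK hb
  have hs := CvA_dil_contDiff hK b
  have h1 := (hc.hasFDerivAt_convolution_left (ContinuousLinearMap.mul ℝ ℝ)
    (hs.of_le (by simp)) hq x).const_mul (CvA_fac d b)
  have h2 : HasFDerivAt (cv K b q) (CvA_fac d b •
      (convolution (fderiv ℝ (CvA_dil K b)) q
        (ContinuousLinearMap.precompL (E d) (ContinuousLinearMap.mul ℝ ℝ)) volume x)) x := by
    rw [CvA_cv_eq hb]
    exact h1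
  have h3 : Integrable fun t => (ContinuousLinearMap.precompL (E d) (ContinuousLinearMap.mul ℝ ℝ))
      (fderiv ℝ (CvA_dil K b) t) (q (x - t)) :=
    (hc.fderiv ℝ).convolutionExists_left _ (hs.continuous_fderiv (by simp)) hq x
  rw [Pool.Agent.Lib.MP_ff3fe0_an_SPH.pd, h2.fderiv, CvA_cv_eq hb]
  have h4 : (convolution (fderiv ℝ (CvA_dil K b)) q
      (ContinuousLinearMap.precompL (E d) (ContinuousLinearMap.mul ℝ ℝ)) volume x)
        (EuclideanSpace.single i 1) =
      b⁻¹ * convolution (CvA_dil (pd i K) b) q (ContinuousLinearMap.mul ℝ ℝ) volume x := by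
    rw [convolution, ContinuousLinearMap.integral_apply h3, convolution, ← integral_const_mul]
    refine integral_congr_ae (Filter.Eventually.of_forall fun t => ?_)
    show (ContinuousLinearMap.precompL (E d) (ContinuousLinearMap.mul ℝ ℝ)
      (fderiv ℝ (CvA_dil K b) t) (q (x - t))) (EuclideanSpace.single i 1) =
      b⁻¹ * (CvA_dil (pd i K) b t * q (x - t))
    rw [ContinuousLinearMap.precompL_apply]
    have h5 : HasFDerivAt (CvA_dil K b)
        ((fderiv ℝ K (b⁻¹ • t)).comp (b⁻¹ • ContinuousLinearMap.id ℝ (E d))) t := by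
      have h6 : HasFDerivAt (fun z : E d => b⁻¹ • z) (b⁻¹ • ContinuousLinearMap.id ℝ (E d)) t :=
        (hasFDerivAt_id t).const_smul b⁻¹
      have h7 : HasFDerivAt K (fderiv ℝ K (b⁻¹ • t)) (b⁻¹ • t) :=
        ((hK.smooth.differentiable (by simp)) _).hasFDerivAt
      exact h7.comp t h6
    rw [h5.fderiv]
    show (fderiv ℝ K (b⁻¹ • t)) (b⁻¹ • EuclideanSpace.single i 1) * q (x - t) =
      b⁻¹ * (fderiv ℝ K (b⁻¹ • t) (EuclideanSpace.single i 1) * q (x - t))
    rw [map_smul, smul_eq_mul]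
    ring
  beta_reduce
  rw [ContinuousLinearMap.smul_apply, h4, smul_eq_mul]
  ring

theorem cv_congr {K : E d → ℝ} (hK : IsKer K) {b : ℝ} (hb : 0 ≤ b) {q q' : E d → ℝ} {x : E d}
    (h : ∀ y ∈ closedBall x b, q y = q' y) : cv K b q x = cv K b q' x := by
  rw [cv, cv]
  refine integral_congr_ae (Filter.Eventually.of_forall fun z => ?_)
  show K z * q (x - b • z) = K z * q' (x - b • z)
  by_cases hz : 1 < ‖z‖
  · rw [hK.supp z hz, zero_mul, zero_mul]
  · rw [h]
    rw [mem_closedBall, dist_eq_norm, sub_sub_cancel_left, norm_neg, norm_smul,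
      Real.norm_of_nonneg hb]
    exact mul_le_of_le_one_right hb (not_lt.1 hz)

/-- The derivatives of a convolution of a smooth function. -/
theorem cv_pd_right {K : E d → ℝ} (hK : IsKer K) (b : ℝ) {q : E d → ℝ} (hq : ContDiff ℝ 1 q)
    (i : Fin d) : pd i (cv K b q) = cv K b (pd i q) := by
  funext x
  have hKc := hK.smooth.continuous
  have hdq : Continuous (fderiv ℝ q) := hq.continuous_fderiv one_ne_zero
  obtain ⟨M, hM⟩ : ∃ M : ℝ, ∀ z ∈ closedBall x (1 + |b|), ‖fderiv ℝ q z‖ ≤ M := by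
    obtain ⟨M, hM⟩ := ((isCompact_closedBall x (1 + |b|)).image hdq.norm).bddAbove
    exact ⟨M, fun z hz => hM ⟨z, hz, rfl⟩⟩
  have hint : Integrable K := hKc.integrable_of_hasCompactSupport (CvA_hcs hK)
  have hc1 : ∀ z : E d, Continuous fun y => K y * q (z - b • y) := fun z =>
    hKc.mul (hq.continuous.comp (continuous_const.sub (continuous_id.const_smul b)))
  have hc2 : Continuous fun y => K y • fderiv ℝ q (x - b • y) :=
    hKc.smul (hdq.comp (continuous_const.sub (continuous_id.const_smul b)))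
  have h1 : HasFDerivAt (cv K b q) (∫ y, K y • fderiv ℝ q (x - b • y)) x := by
    refine hasFDerivAt_integral_of_dominated_of_fderiv_le (s := ball x 1)
      (F := fun z y => K y * q (z - b • y)) (F' := fun z y => K y • fderiv ℝ q (z - b • y))
      (bound := fun y => ‖K y‖ * M) (ball_mem_nhds x one_pos)
      (Filter.Eventually.of_forall fun z => (hc1 z).aestronglyMeasurable) ?_
      hc2.aestronglyMeasurable (Filter.Eventually.of_forall fun y z hz => ?_)
      (hint.norm.mul_const M) (Filter.Eventually.of_forall fun y z hz => ?_)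
    · refine (hc1 x).integrable_of_hasCompactSupport ?_
      exact (CvA_hcs hK).mul_right
    · rw [norm_smul]
      by_cases hy : 1 < ‖y‖
      · rw [hK.supp y hy, norm_zero, zero_mul, zero_mul]
      · refine mul_le_mul_of_nonneg_left (hM _ ?_) (norm_nonneg _)
        rw [mem_closedBall, dist_eq_norm]
        have h2 : z - b • y - x = (z - x) - b • y := by abel
        rw [h2]
        refine (norm_sub_le _ _).trans (add_le_add ?_ ?_)
        · rw [← dist_eq_norm]
          exact (mem_ball.1 hz).le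
        · rw [norm_smul, Real.norm_eq_abs]
          exact mul_le_of_le_one_right (abs_nonneg b) (not_lt.1 hy)
    · have h2 : HasFDerivAt q (fderiv ℝ q (z - b • y)) (z - b • y) :=
        (hq.differentiable one_ne_zero _).hasFDerivAt
      have h3 : HasFDerivAt (fun z : E d => z - b • y) (ContinuousLinearMap.id ℝ (E d)) z :=
        (hasFDerivAt_id z).sub_const _
      have h4 := (h2.comp z h3).const_mul (K y)
      rw [ContinuousLinearMap.comp_id] at h4
      exact h4
  have h5 : Integrable fun y => K y • fderiv ℝ q (x - b • y) :=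
    hc2.integrable_of_hasCompactSupport (CvA_hcs hK).smul_right
  rw [Pool.Agent.Lib.MP_ff3fe0_an_SPH.pd, h1.fderiv, ContinuousLinearMap.integral_apply h5]
  rfl

theorem cv_le {K : E d → ℝ} (hK : IsKer K) : ∃ C : ℝ≥0, ∀ (b : ℝ) (q : E d → ℝ) (x : E d),
    ‖cv K b q x‖ₑ ≤ C * ∫⁻ y in closedBall (0 : E d) 1, ‖q (x - b • y)‖ₑ := by
  obtain ⟨C, hC⟩ := CvA_bd hK
  refine ⟨C, fun b q x => ?_⟩
  rw [cv]
  refine (enorm_integral_le_lintegral_enorm _).trans ?_
  rw [← lintegral_const_mul' _ _ ENNReal.coe_ne_top,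
    ← lintegral_indicator isClosed_closedBall.measurableSet]
  refine lintegral_mono fun y => ?_
  by_cases hy : y ∈ closedBall (0 : E d) 1
  · rw [indicator_of_mem hy, enorm_mul]
    refine mul_le_mul_left ?_ _
    rw [← ofReal_norm, ← ENNReal.ofReal_coe_nnreal]
    exact ENNReal.ofReal_le_ofReal (hC y)
  · rw [indicator_of_notMem hy, hK.supp y (by simpa using hy), zero_mul, enorm_zero]

theorem cv_add {K : E d → ℝ} (hK : IsKer K) {b : ℝ} (hb : 0 < b) {q q' : E d → ℝ}
    (hq : LocallyIntegrable q) (hq' : LocallyIntegrable q') (x : E d) :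
    cv K b (fun y => q y + q' y) x = cv K b q x + cv K b q' x := by
  rw [cv, cv, cv, ← integral_add (CvA_int hK hb hq x) (CvA_int hK hb hq' x)]
  exact integral_congr_ae (Filter.Eventually.of_forall fun y => mul_add _ _ _)

theorem cvv_continuous {K : E d → E d} (hK : IsKer K) {b : ℝ} {H : E d → E d}
    (hH : Continuous H) : Continuous (cvv K b H) := by
  have h1 : cvv K b H = fun x => ∫ y in closedBall (0 : E d) 1,
      inner ℝ (K y) (H (x - b • y)) := by
    funext x
    rw [cvv, setIntegral_eq_integral_of_forall_compl_eq_zero]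
    intro y hy
    rw [hK.supp y (by simpa using hy), inner_zero_left]
  rw [h1]
  refine continuous_parametric_integral_of_continuous
    (f := fun x y => inner ℝ (K y) (H (x - b • y))) ?_ (isCompact_closedBall _ _)
  exact (hK.smooth.continuous.comp continuous_snd).inner
    (hH.comp (continuous_fst.sub (continuous_snd.const_smul b)))

theorem cvv_le {K : E d → E d} (hK : IsKer K) : ∃ C : ℝ≥0, ∀ (b : ℝ) (H : E d → E d)
    (x : E d), ‖cvv K b H x‖ₑ ≤ C * ∫⁻ y in closedBall (0 : E d) 1, ‖H (x - b • y)‖ₑ := by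
  obtain ⟨C, hC⟩ := CvA_bd hK
  refine ⟨C, fun b H x => ?_⟩
  rw [cvv]
  refine (enorm_integral_le_lintegral_enorm _).trans ?_
  rw [← lintegral_const_mul' _ _ ENNReal.coe_ne_top,
    ← lintegral_indicator isClosed_closedBall.measurableSet]
  refine lintegral_mono fun y => ?_
  by_cases hy : y ∈ closedBall (0 : E d) 1
  · rw [indicator_of_mem hy, ← ofReal_norm, ← ofReal_norm,
      ← ENNReal.ofReal_coe_nnreal, ← ENNReal.ofReal_mul (NNReal.coe_nonneg C)]
    refine ENNReal.ofReal_le_ofReal ((norm_inner_le_norm _ _).trans ?_)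
    exact mul_le_mul_of_nonneg_right (hC y) (norm_nonneg _)
  · rw [indicator_of_notMem hy, hK.supp y (by simpa using hy), inner_zero_left, enorm_zero]

theorem Bdd.locallyIntegrable {r : ℝ} {q : E d → ℝ} (hq : Bdd r q) : LocallyIntegrable q := by
  obtain ⟨C, hC⟩ := hq.bdd
  exact (memLp_top_of_bound hq.meas.aestronglyMeasurable C
    (Filter.Eventually.of_forall fun y => by
      rw [Real.norm_eq_abs]
      exact hC y)).locallyIntegrable le_top

end Pool.Agent.Lib.MP_ff3fe0_an_SPH
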