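import Pool.Agent.Lib.MP_ff3fe0_an_SPH.JJA
import Pool.Agent.Lib.MP_ff3fe0_an_SPH.CvA

set_option autoImplicit false

/-!
# The frequency pieces
-/

namespace Pool.Agent.Lib.MP_ff3fe0_an_SPH

open MeasureTheory Metric Set
open scoped ENNReal NNReal ContDiff FourierTransform
open Pool.Agent.Lib.MP_ff3fe0_an

variable {d : ℕ}

private theorem GmA_sc_pos (m : ℕ) : 0 < sc m := by unfold sc; positivity

theorem gm_contDiff {S : E d → ℝ} (hS : IsKer S) (m : ℕ) {r : ℝ} {q : E d → ℝ} (hq : Bdd r q) :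
    ContDiff ℝ ∞ (gm S m q) :=
  contDiff_const.mul (cv_contDiff hS (GmA_sc_pos m) hq.locallyIntegrable)

theorem gm_compact {S : E d → ℝ} (hS : IsKer S) (m : ℕ) {r : ℝ} {q : E d → ℝ} (hq : Bdd r q) :
    HasCompactSupport (gm S m q) := by
  refine HasCompactSupport.intro (isCompact_closedBall (0 : E d) (r + sc m)) fun y hy => ?_
  rw [mem_closedBall, dist_zero_right, not_le] at hy
  unfold gm
  rw [cv_supp hS (GmA_sc_pos m) hq.supp y hy, mul_zero]

theorem XX_zero (S : E d → ℝ) (m j : ℕ) (c x : E d) (t : ℝ) : XX S m j 0 c x t = 0 := by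
  have h1 : gm S m (0 : E d → ℝ) = fun _ => 0 := by
    funext y
    simp [gm, cv]
  unfold XX JJ
  rw [h1]
  have h2 : (fun s : ℝ => ∫ w : Sph d, (fun _ : E d => (0 : ℝ)) (x - s • (w : E d)) •
      ((w : E d) - c) ∂(sigma d)) = fun _ => (0 : E d) := by
    funext s
    simp
  rw [h2]
  have h3 : iteratedDeriv j (fun _ : ℝ => (0 : E d)) t = 0 := by
    simp [iteratedDeriv_const]
  rw [h3, enorm_zero, mul_zero]

theorem measurable_XX (hd : 0 < d) {S : E d → ℝ} (hS : IsKer S) (m j : ℕ) {r : ℝ}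
    {q : E d → ℝ} (hq : Bdd r q) :
    Measurable (fun z : E d × E d × ℝ => XX S m j q z.1 z.2.1 z.2.2) := by
  unfold XX
  exact (JJ_cont hd (gm_contDiff hS m hq) j).measurable.enorm.const_mul _

private theorem GmA_add {S : E d → ℝ} (hS : IsKer S) (m : ℕ) {q q' : E d → ℝ}
    (hq : LocallyIntegrable q) (hq' : LocallyIntegrable q') :
    gm S m (fun y => q y + q' y) = fun y => gm S m q y + gm S m q' y := by
  funext y
  unfold gm
  rw [cv_add hS (GmA_sc_pos m) hq hq', mul_add]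

private theorem GmA_sum {S : E d → ℝ} (hS : IsKer S) (m : ℕ) (s : Finset ℕ)
    {ql : ℕ → E d → ℝ} (hq : ∀ l, LocallyIntegrable (ql l)) :
    LocallyIntegrable (fun y => ∑ l ∈ s, ql l y) ∧
      gm S m (fun y => ∑ l ∈ s, ql l y) = fun y => ∑ l ∈ s, gm S m (ql l) y := by
  induction s using Finset.induction_on with
  | empty =>
    refine ⟨?_, ?_⟩
    · simp only [Finset.sum_empty]
      exact locallyIntegrable_const _
    · funext y
      simp [gm, cv]
  | insert a s ha ih =>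
    have h1 : (fun y => ∑ l ∈ insert a s, ql l y) = fun y => ql a y + ∑ l ∈ s, ql l y := by
      funext y
      rw [Finset.sum_insert ha]
    refine ⟨?_, ?_⟩
    · rw [h1]
      exact (hq a).add ih.1
    · rw [h1, GmA_add hS m (hq a) ih.1, ih.2]
      funext y
      rw [Finset.sum_insert ha]

theorem XX_sum (hd : 0 < d) {S : E d → ℝ} (hS : IsKer S) (m j : ℕ) {r : ℝ} {L : ℕ}
    {q : E d → ℝ} {ql : ℕ → E d → ℝ} {qh : E d → ℝ} (hq : ∀ l, Bdd r (ql l)) (hh : Bdd r qh)
    (hs : ∀ y, q y = ∑ l ∈ Finset.range (L + 1), ql l y + qh y) (c x : E d) (t : ℝ) :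
    XX S m j q c x t ≤ ∑ l ∈ Finset.range (L + 1), XX S m j (ql l) c x t + XX S m j qh c x t := by
  obtain ⟨h1, h2⟩ := GmA_sum hS m (Finset.range (L + 1)) (fun l => (hq l).locallyIntegrable)
  have h3 : q = fun y => (fun y => ∑ l ∈ Finset.range (L + 1), ql l y) y + qh y := funext hs
  have h4 : gm S m q = fun y => (fun y => ∑ l ∈ Finset.range (L + 1), gm S m (ql l) y) y +
      gm S m qh y := by
    rw [h3, GmA_add hS m h1 hh.locallyIntegrable, h2]
  have hc : ContDiff ℝ ∞ (fun y => ∑ l ∈ Finset.range (L + 1), gm S m (ql l) y) :=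
    ContDiff.sum fun l _ => gm_contDiff hS m (hq l)
  have h5 : JJ j (gm S m q) c x t = ∑ l ∈ Finset.range (L + 1), JJ j (gm S m (ql l)) c x t +
      JJ j (gm S m qh) c x t := by
    rw [h4, JJ_add hd hc (gm_contDiff hS m hh),
      JJ_sum hd (fun l _ => gm_contDiff hS m (hq l))]
  unfold XX
  rw [h5, ← Finset.mul_sum, ← mul_add]
  refine mul_le_mul' le_rfl ((enorm_add_le _ _).trans ?_)
  exact add_le_add (enorm_sum_le _ _) le_rfl

end Pool.Agent.Lib.MP_ff3fe0_an_SPH
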