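import Pool.Agent.Lib.MP_ff3fe0_an_SPH.SrcB
import Pool.Agent.Lib.MP_ff3fe0_an_SPH.GmA

set_option autoImplicit false

/-!
# Averages over the source measures
-/

namespace Pool.Agent.Lib.MP_ff3fe0_an_SPH

open MeasureTheory Metric Set
open scoped ENNReal NNReal ContDiff FourierTransform
open Pool.Agent.Lib.MP_ff3fe0_an

variable {d : ℕ}

private lemma AvgA_comp (G : E d × E d × ℝ → ℝ≥0∞) (hG : Measurable G) (x : E d) (t : ℝ) :
    Measurable (fun z : Sph d × ℝ => G ((z.1 : E d), x, (t + z.2))) := by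
  have h1 : Measurable fun z : Sph d × ℝ => ((z.1 : E d), x, t + z.2) := by fun_prop
  exact hG.comp h1

private lemma AvgA_int (H : Sph d × ℝ → ℝ≥0∞) (hH : Measurable H) (a : ℝ) :
    Measurable fun c : Sph d => ∫⁻ r in Icc (-a) a, H (c, r) :=
  hH.lintegral_prod_right'

private lemma AvgA_avr (H : Sph d → ℝ → ℝ≥0∞) (n : ℕ) (t : ℝ)
    (h : Measurable fun c : Sph d => ∫⁻ r in Icc (-(sc n / 2)) (sc n / 2), H c (t + r)) :
    Measurable (fun c : Sph d => Avr n (H c) t) := by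
  show Measurable (fun c : Sph d => 2 ^ n * ∫⁻ r in Icc (-(sc n / 2)) (sc n / 2), H c (t + r))
  exact h.const_mul (2 ^ n)

private lemma AvgA_gen (G : E d × E d × ℝ → ℝ≥0∞) (hG : Measurable G) (x : E d) (t : ℝ) (n : ℕ) :
    Measurable (fun c : Sph d => Avr n (fun s => G ((c : E d), x, s)) t) :=
  AvgA_avr (fun (c : Sph d) (s : ℝ) => G ((c : E d), x, s)) n t
    (AvgA_int (fun z : Sph d × ℝ => G ((z.1 : E d), x, (t + z.2))) (AvgA_comp G hG x t) (sc n / 2))

private lemma AvgA_meas (hd : 0 < d) {S : E d → ℝ} (hS : IsKer S) {r : ℝ} {q : ℕ → E d → ℝ}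
    (hq : ∀ m, Bdd r (q m)) (x : E d) (t : ℝ) (m n j : ℕ) : Measurable (fun c : Sph d =>
      Avr n (fun s => XX S m j (q m) (c : E d) x s) t) :=
  AvgA_gen (fun z : E d × E d × ℝ => XX S m j (q m) z.1 z.2.1 z.2.2)
    (measurable_XX hd hS m j (hq m)) x t n

/-- The average of `DD` over the source measure. -/
theorem DD_avg (hd : 0 < d) {S : E d → ℝ} (hS : IsKer S) {r : ℝ} {q : ℕ → E d → ℝ}
    (hq : ∀ m, Bdd r (q m)) {P : ℕ → E d → ℝ≥0∞} (hP : ∀ m, Measurable (P m)) (k : ℕ) (x : E d)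
    (t : ℝ) : Measurable (fun c : Sph d => DD S q k x t c) ∧
      ∫⁻ c : Sph d, DD S q k x t c ∂(piK P k x t) = ∑' m : ℕ, (1 / 2) ^ ((k - m) + (m - k)) *
        ∑ n ∈ RR k m, ∑ j ∈ Finset.range 3, ∫⁻ c : Sph d,
          Avr n (fun s => XX S m j (q m) c x s) t ∂(piK P k x t) := by
  have h1 : ∀ m n j : ℕ, Measurable (fun c : Sph d =>
      Avr n (fun s => XX S m j (q m) (c : E d) x s) t) := fun m n j =>
    AvgA_meas hd hS hq x t m n j
  have h2 : ∀ m n : ℕ, Measurable (fun c : Sph d => ∑ j ∈ Finset.range 3,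
      Avr n (fun s => XX S m j (q m) (c : E d) x s) t) := fun m n =>
    Finset.measurable_fun_sum _ fun j _ => h1 m n j
  have h3 : ∀ m : ℕ, Measurable (fun c : Sph d => ∑ n ∈ RR k m, ∑ j ∈ Finset.range 3,
      Avr n (fun s => XX S m j (q m) (c : E d) x s) t) := fun m =>
    Finset.measurable_fun_sum _ fun n _ => h2 m n
  have h4 : ∀ m : ℕ, Measurable (fun c : Sph d => (1 / 2 : ℝ≥0∞) ^ ((k - m) + (m - k)) *
      ∑ n ∈ RR k m, ∑ j ∈ Finset.range 3, Avr n (fun s => XX S m j (q m) (c : E d) x s) t) :=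
    fun m => (h3 m).const_mul _
  refine ⟨Measurable.tsum h4, ?_⟩
  unfold DD
  rw [lintegral_tsum fun m => (h4 m).aemeasurable]
  refine tsum_congr fun m => ?_
  rw [lintegral_const_mul _ (h3 m), lintegral_finsetSum _ fun n _ => h2 m n]
  congr 1
  refine Finset.sum_congr rfl fun n _ => ?_
  rw [lintegral_finsetSum _ fun j _ => h1 m n j]

end Pool.Agent.Lib.MP_ff3fe0_an_SPH
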