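import Pool.Agent.Lib.MP_ff3fe0_an_SPH.CZA

set_option autoImplicit false

/-!
# The bad parts
-/

namespace Pool.Agent.Lib.MP_ff3fe0_an_SPH

open MeasureTheory Metric Set
open scoped ENNReal NNReal ContDiff FourierTransform
open Pool.Agent.Lib.MP_ff3fe0_an

variable {d : ℕ}

variable {p : ℝ} {H : E d → E d} {l : ℝ≥0∞}

private theorem czb_vol_ne_zero (i : ℤ) (x : E d) : volume (dc i x) ≠ 0 := by
  rw [volume_dc]
  have : (0 : ℝ) < ((2 : ℝ) ^ i) ^ d := by positivity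
  simpa using this

private theorem czb_vol_ne_top (i : ℤ) (x : E d) : volume (dc i x) ≠ ⊤ := by
  rw [volume_dc]
  exact ENNReal.ofReal_ne_top

private theorem czb_avg_le (i : ℤ) (x : E d) :
    ‖⨍ y in dc i x, H y‖ₑ ≤ dav i (fun y => ‖H y‖ₑ) x := by
  rw [setAverage_eq, enorm_smul]
  unfold dav
  refine mul_le_mul' ?_ (enorm_integral_le_lintegral_enorm _)
  rw [Measure.real, ← ENNReal.toReal_inv, Real.enorm_of_nonneg ENNReal.toReal_nonneg,
    ENNReal.ofReal_toReal]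
  exact ENNReal.inv_ne_top.2 (czb_vol_ne_zero i x)

private theorem czb_on {i : ℤ} {x : E d} (h : (dc i x ∩ Lp' p H l i).Nonempty) :
    dc i x ⊆ Lp' p H l i := by
  obtain ⟨z, hz, hz'⟩ := h
  rw [← dc_eq hz]
  exact lev_sat hz'

private theorem czb_bd {i : ℤ} {x : E d} (h : dc i x ⊆ Lp' p H l i) {y : E d}
    (hy : y ∈ dc i x) : bd p H l i y = H y - ⨍ z in dc i x, H z := by
  unfold bd
  rw [indicator_of_mem (h hy), dc_eq hy]

private theorem czb_bd_zero {i : ℤ} {x : E d} (h : ¬ (dc i x ∩ Lp' p H l i).Nonempty) {y : E d}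
    (hy : y ∈ dc i x) : bd p H l i y = 0 :=
  bd_off fun hy' => h ⟨y, hy, hy'⟩

private theorem czb_meas (hm : Measurable H) (i : ℤ) : MeasurableSet (Lp' p H l i) :=
  measurableSet_lev ((hm.enorm).pow_const p) i

private theorem czb_mass (hm : Measurable H) (i : ℤ) :
    ∫⁻ x, ‖bd p H l i x‖ₑ ≤ 2 * ∫⁻ x in Lp' p H l i, ‖H x‖ₑ := by
  have hL := czb_meas (p := p) (l := l) hm i
  have h1 : ∀ x, ‖bd p H l i x‖ₑ ≤ (Lp' p H l i).indicator
      (fun x => ‖H x‖ₑ + dav i (fun y => ‖H y‖ₑ) x) x := by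
    intro x
    by_cases hx : x ∈ Lp' p H l i
    · rw [indicator_of_mem hx]
      unfold bd
      rw [indicator_of_mem hx]
      refine (enorm_sub_le).trans (add_le_add le_rfl (czb_avg_le i x))
    · rw [indicator_of_notMem hx, bd_off hx]
      simp
  calc ∫⁻ x, ‖bd p H l i x‖ₑ
      ≤ ∫⁻ x, (Lp' p H l i).indicator (fun x => ‖H x‖ₑ + dav i (fun y => ‖H y‖ₑ) x) x :=
        lintegral_mono h1
    _ = ∫⁻ x in Lp' p H l i, (‖H x‖ₑ + dav i (fun y => ‖H y‖ₑ) x) := lintegral_indicator hL _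
    _ = (∫⁻ x in Lp' p H l i, ‖H x‖ₑ) + ∫⁻ x in Lp' p H l i, dav i (fun y => ‖H y‖ₑ) x :=
        lintegral_add_left hm.enorm _
    _ = 2 * ∫⁻ x in Lp' p H l i, ‖H x‖ₑ := by
        rw [lintegral_dav i hm.enorm hL (fun x hx => lev_sat hx), two_mul]

private theorem czb_fin (hH : Integrable H) : ∫⁻ x, ‖H x‖ₑ ≠ ⊤ := hH.2.ne

theorem bd_integrable (hd : 0 < d) (hm : Measurable H) (hH : Integrable H)
    (i : ℤ) : Integrable (bd p H l i) := by
  refine ⟨(measurable_bd hm i).aestronglyMeasurable, ?_⟩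
  refine lt_of_le_of_lt (czb_mass hm i) ?_
  refine ENNReal.mul_lt_top (by simp) ?_
  exact lt_of_le_of_lt (setLIntegral_le_lintegral _ _) (czb_fin hH).lt_top

theorem bd_sum_integrable (hd : 0 < d) (hm : Measurable H) (hH : Integrable H) :
    ∑' i : ℤ, ∫⁻ x, ‖bd p H l i x‖ₑ ≠ ⊤ := by
  have h1 : ∑' i : ℤ, ∫⁻ x, ‖bd p H l i x‖ₑ ≤ 2 * ∫⁻ x, ‖H x‖ₑ := by
    calc ∑' i : ℤ, ∫⁻ x, ‖bd p H l i x‖ₑ
        ≤ ∑' i : ℤ, 2 * ∫⁻ x in Lp' p H l i, ‖H x‖ₑ := ENNReal.tsum_le_tsum fun i => czb_mass hm i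
      _ = 2 * ∑' i : ℤ, ∫⁻ x in Lp' p H l i, ‖H x‖ₑ := ENNReal.tsum_mul_left
      _ = 2 * ∫⁻ x in ⋃ i : ℤ, Lp' p H l i, ‖H x‖ₑ := by
          rw [lintegral_iUnion (fun i => czb_meas hm i) (fun i j hij => lev_disj hij)]
      _ ≤ 2 * ∫⁻ x, ‖H x‖ₑ := mul_le_mul' le_rfl (setLIntegral_le_lintegral _ _)
  exact ne_top_of_le_ne_top (ENNReal.mul_ne_top (by simp) (czb_fin hH)) h1

theorem gd_integrable (hd : 0 < d) (hm : Measurable H) (hH : Integrable H) :
    Integrable (gd p H l) := by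
  refine ⟨(measurable_gd hm).aestronglyMeasurable, ?_⟩
  have h1 : ∀ x, ‖gd p H l x‖ₑ ≤ ‖H x‖ₑ + ∑' i : ℤ, ‖bd p H l i x‖ₑ := by
    intro x
    unfold gd
    refine (enorm_sub_le).trans (add_le_add le_rfl ?_)
    by_cases hx : ∃ i, x ∈ Lp' p H l i
    · obtain ⟨i, hi⟩ := hx
      rw [finsum_eq_single _ i]
      · exact ENNReal.le_tsum (f := fun i : ℤ => ‖bd p H l i x‖ₑ) i
      · intro j hj
        refine bd_off fun hj' => ?_
        exact Set.disjoint_left.1 (lev_disj hj) hj' hi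
    · have : ∀ i, bd p H l i x = 0 := fun i => bd_off fun h => hx ⟨i, h⟩
      simp [this]
  refine lt_of_le_of_lt (lintegral_mono h1) ?_
  rw [lintegral_add_left hm.enorm, lintegral_tsum fun i => (measurable_bd hm i).enorm.aemeasurable]
  exact ENNReal.add_lt_top.2 ⟨(czb_fin hH).lt_top, (bd_sum_integrable hd hm hH).lt_top⟩

theorem bd_mean (hd : 0 < d) (hH : Integrable H) (i : ℤ) (x : E d) :
    ∫ y in dc i x, bd p H l i y = 0 := by
  by_cases h : (dc i x ∩ Lp' p H l i).Nonempty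
  · have h1 := czb_on h
    rw [setIntegral_congr_fun (measurableSet_dc i x) (fun y hy => czb_bd h1 hy)]
    exact setAverage_sub_setAverage (czb_vol_ne_top i x) H
  · rw [setIntegral_congr_fun (measurableSet_dc i x) (fun y hy => czb_bd_zero h hy)]
    simp

/-- The average of the `p`-th power on the cubes of the level set. -/
private theorem czb_Ip (hd : 0 < d) {i : ℤ} {x : E d} (h : dc i x ⊆ Lp' p H l i) :
    ∫⁻ y in dc i x, ‖H y‖ₑ ^ p ≤ 2 ^ d * l ^ p * volume (dc i x) := by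
  have h1 := lev_le hd (h (mem_dc_self i x))
  unfold dav at h1
  have hV := czb_vol_ne_zero (d := d) i x
  have hV' := czb_vol_ne_top (d := d) i x
  calc ∫⁻ y in dc i x, ‖H y‖ₑ ^ p
      = volume (dc i x) * ((volume (dc i x))⁻¹ * ∫⁻ y in dc i x, fp p H y) := by
        rw [← mul_assoc, ENNReal.mul_inv_cancel hV hV', one_mul]; rfl
    _ ≤ volume (dc i x) * (2 ^ d * l ^ p) := mul_le_mul' le_rfl h1
    _ = 2 ^ d * l ^ p * volume (dc i x) := mul_comm _ _

private theorem czb_hol (hp : 1 ≤ p) (hH : Measurable H) (i : ℤ) (x : E d) :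
    ∫⁻ y in dc i x, ‖H y‖ₑ ≤
      (∫⁻ y in dc i x, ‖H y‖ₑ ^ p) ^ (1 / p) * volume (dc i x) ^ (1 - 1 / p) := by
  have := eLpNorm'_le_eLpNorm'_mul_rpow_measure_univ (p := 1) (q := p) one_pos hp
    (f := H) (μ := volume.restrict (dc i x)) hH.aestronglyMeasurable
  unfold eLpNorm' at this
  simpa using this

private theorem czb_jensen (hp : 1 ≤ p) (hH : Measurable H) (i : ℤ) (x : E d) :
    (dav i (fun y => ‖H y‖ₑ) x) ^ p * volume (dc i x) ≤ ∫⁻ y in dc i x, ‖H y‖ₑ ^ p := by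
  have hV := czb_vol_ne_zero (d := d) i x
  have hV' := czb_vol_ne_top (d := d) i x
  have hp0 : 0 < p := by linarith
  set V := volume (dc i x) with hVdef
  set I := ∫⁻ y in dc i x, ‖H y‖ₑ ^ p with hI
  have h1 : dav i (fun y => ‖H y‖ₑ) x ≤ V⁻¹ * (I ^ (1 / p) * V ^ (1 - 1 / p)) :=
    mul_le_mul' le_rfl (czb_hol hp hH i x)
  calc (dav i (fun y => ‖H y‖ₑ) x) ^ p * V
      ≤ (V⁻¹ * (I ^ (1 / p) * V ^ (1 - 1 / p))) ^ p * V :=
        mul_le_mul' (ENNReal.rpow_le_rpow h1 hp0.le) le_rfl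
    _ = I * (V⁻¹ ^ p * V ^ (p - 1) * V ^ (1 : ℝ)) := by
        rw [ENNReal.mul_rpow_of_nonneg _ _ hp0.le, ENNReal.mul_rpow_of_nonneg _ _ hp0.le,
          ← ENNReal.rpow_mul, ← ENNReal.rpow_mul, one_div, inv_mul_cancel₀ hp0.ne',
          ENNReal.rpow_one, ENNReal.rpow_one]
        have : (1 - p⁻¹) * p = p - 1 := by
          rw [sub_mul, one_mul, inv_mul_cancel₀ hp0.ne']
        rw [this]
        ring
    _ = I * 1 := by
        congr 1
        rw [ENNReal.inv_rpow, mul_assoc, ← ENNReal.rpow_add _ _ hV hV', sub_add_cancel]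
        refine ENNReal.inv_mul_cancel ?_ ?_
        · exact (ENNReal.rpow_pos (pos_iff_ne_zero.2 hV) hV').ne'
        · exact ENNReal.rpow_ne_top_of_nonneg hp0.le hV'
    _ = I := mul_one _

theorem bd_le (hd : 0 < d) (hp : 1 ≤ p) (hH : Measurable H) (i : ℤ) (x : E d) :
    ∫⁻ y in dc i x, ‖bd p H l i y‖ₑ ^ p ≤
      2 ^ (p + 1) * 2 ^ d * l ^ p * volume (dc i x ∩ Lp' p H l i) := by
  have hp0 : 0 < p := by linarith
  by_cases h : (dc i x ∩ Lp' p H l i).Nonempty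
  · have h1 := czb_on h
    rw [inter_eq_self_of_subset_left h1]
    set c := ⨍ z in dc i x, H z with hc
    set I := ∫⁻ y in dc i x, ‖H y‖ₑ ^ p with hI
    have hm : Measurable fun y => ‖H y‖ₑ ^ p := hH.enorm.pow_const p
    have h2 : ∫⁻ y in dc i x, ‖bd p H l i y‖ₑ ^ p ≤
        2 ^ (p - 1) * (I + ‖c‖ₑ ^ p * volume (dc i x)) := by
      calc ∫⁻ y in dc i x, ‖bd p H l i y‖ₑ ^ p
          ≤ ∫⁻ y in dc i x, 2 ^ (p - 1) * (‖H y‖ₑ ^ p + ‖c‖ₑ ^ p) := by
            refine setLIntegral_mono' (measurableSet_dc i x) fun y hy => ?_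
            rw [czb_bd h1 hy]
            refine (ENNReal.rpow_le_rpow (enorm_sub_le) hp0.le).trans ?_
            exact ENNReal.rpow_add_le_mul_rpow_add_rpow _ _ hp
        _ = 2 ^ (p - 1) * ∫⁻ y in dc i x, (‖H y‖ₑ ^ p + ‖c‖ₑ ^ p) :=
            lintegral_const_mul _ (hm.add_const _)
        _ = 2 ^ (p - 1) * (I + ‖c‖ₑ ^ p * volume (dc i x)) := by
            rw [lintegral_add_left hm, setLIntegral_const]
    have h3 : ‖c‖ₑ ^ p * volume (dc i x) ≤ I := by
      refine le_trans ?_ (czb_jensen hp hH i x)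
      exact mul_le_mul' (ENNReal.rpow_le_rpow (czb_avg_le i x) hp0.le) le_rfl
    calc ∫⁻ y in dc i x, ‖bd p H l i y‖ₑ ^ p
        ≤ 2 ^ (p - 1) * (I + I) := h2.trans (mul_le_mul' le_rfl (add_le_add le_rfl h3))
      _ = 2 ^ (p - 1) * 2 ^ (1 : ℝ) * I := by rw [ENNReal.rpow_one, ← two_mul]; ring
      _ = 2 ^ p * I := by
          rw [← ENNReal.rpow_add _ _ (by simp) (by simp), sub_add_cancel]
      _ ≤ 2 ^ (p + 1) * (2 ^ d * l ^ p * volume (dc i x)) := by
          refine mul_le_mul' ?_ (czb_Ip hd h1)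
          exact ENNReal.rpow_le_rpow_of_exponent_le (by norm_num) (by linarith)
      _ = _ := by ring
  · have h1 : ∫⁻ y in dc i x, ‖bd p H l i y‖ₑ ^ p = 0 := by
      rw [setLIntegral_congr_fun (g := fun _ => 0) (measurableSet_dc i x)]
      · simp
      · intro y hy
        simp only
        rw [czb_bd_zero h hy, enorm_zero, ENNReal.zero_rpow_of_pos hp0]
    rw [h1]
    exact zero_le

theorem bd_le_one (hd : 0 < d) (hp : 1 ≤ p) (hH : Measurable H) (i : ℤ) (x : E d) :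
    ∫⁻ y in dc i x, ‖bd p H l i y‖ₑ ≤ 2 ^ (d + 1) * l * volume (dc i x ∩ Lp' p H l i) := by
  have hp0 : 0 < p := by linarith
  by_cases h : (dc i x ∩ Lp' p H l i).Nonempty
  · have h1 := czb_on h
    rw [inter_eq_self_of_subset_left h1]
    have hV := czb_vol_ne_zero (d := d) i x
    have hV' := czb_vol_ne_top (d := d) i x
    set c := ⨍ z in dc i x, H z with hc
    set V := volume (dc i x) with hVd
    set I := ∫⁻ y in dc i x, ‖H y‖ₑ with hI
    have h2 : ∫⁻ y in dc i x, ‖bd p H l i y‖ₑ ≤ I + ‖c‖ₑ * V := by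
      calc ∫⁻ y in dc i x, ‖bd p H l i y‖ₑ ≤ ∫⁻ y in dc i x, (‖H y‖ₑ + ‖c‖ₑ) := by
            refine setLIntegral_mono' (measurableSet_dc i x) fun y hy => ?_
            rw [czb_bd h1 hy]
            exact enorm_sub_le
        _ = I + ‖c‖ₑ * V := by
            rw [lintegral_add_left hH.enorm, setLIntegral_const]
    have h3 : ‖c‖ₑ * V ≤ I := by
      calc ‖c‖ₑ * V ≤ (V⁻¹ * I) * V := mul_le_mul' (czb_avg_le i x) le_rfl
        _ = I := by rw [mul_comm, ← mul_assoc, ENNReal.mul_inv_cancel hV hV', one_mul]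
    have h4 : I ≤ 2 ^ d * l * V := by
      have h5 := czb_hol hp hH i x
      have h6 := czb_Ip hd h1
      calc I ≤ (2 ^ d * l ^ p * V) ^ (1 / p) * V ^ (1 - 1 / p) :=
            h5.trans (mul_le_mul' (ENNReal.rpow_le_rpow h6 (by positivity)) le_rfl)
        _ = ((2 : ℝ≥0∞) ^ d) ^ (1 / p) * l * (V ^ (1 / p) * V ^ (1 - 1 / p)) := by
            rw [ENNReal.mul_rpow_of_nonneg _ _ (by positivity),
              ENNReal.mul_rpow_of_nonneg _ _ (by positivity), ← ENNReal.rpow_mul l,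
              mul_one_div_cancel hp0.ne', ENNReal.rpow_one]
            ring
        _ = ((2 : ℝ≥0∞) ^ d) ^ (1 / p) * l * V := by
            rw [← ENNReal.rpow_add _ _ hV hV', add_sub_cancel, ENNReal.rpow_one]
        _ ≤ ((2 : ℝ≥0∞) ^ d) ^ (1 : ℝ) * l * V := by
            refine mul_le_mul' (mul_le_mul' ?_ le_rfl) le_rfl
            refine ENNReal.rpow_le_rpow_of_exponent_le (one_le_pow₀ (by norm_num)) ?_
            rw [div_le_one hp0]
            exact hp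
        _ = 2 ^ d * l * V := by rw [ENNReal.rpow_one]
    calc ∫⁻ y in dc i x, ‖bd p H l i y‖ₑ ≤ I + I := h2.trans (add_le_add le_rfl h3)
      _ ≤ 2 ^ d * l * V + 2 ^ d * l * V := add_le_add h4 h4
      _ = 2 ^ (d + 1) * l * V := by rw [pow_succ]; ring
  · have h1 : ∫⁻ y in dc i x, ‖bd p H l i y‖ₑ = 0 := by
      rw [setLIntegral_congr_fun (g := fun _ => 0) (measurableSet_dc i x)]
      · simp
      · intro y hy
        simp only
        rw [czb_bd_zero h hy, enorm_zero]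
    rw [h1]
    exact zero_le

end Pool.Agent.Lib.MP_ff3fe0_an_SPH
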