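import Pool.Agent.Lib.MP_ff3fe0_an_SPH.OverA
import Pool.Agent.Lib.MP_ff3fe0_an_SPH.CZB
import Pool.Agent.Lib.MP_ff3fe0_an_SPH.CvA

set_option autoImplicit false

/-!
# The small cubes
-/

namespace Pool.Agent.Lib.MP_ff3fe0_an_SPH

open MeasureTheory Metric Set
open scoped ENNReal NNReal ContDiff FourierTransform
open Pool.Agent.Lib.MP_ff3fe0_an

variable {d : ℕ}

/-- The sum of the bad parts of the levels `i ≤ j - m`. -/
noncomputable def bS (p : ℝ) (H : E d → E d) (l : ℝ≥0∞) (m : ℕ) (j : ℤ) (x : E d) : E d :=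
  ∑' n : ℕ, bd p H l (j - m - n) x

private theorem badS_cs {K : E d → E d} (hK : IsKer K) : HasCompactSupport K := by
  refine HasCompactSupport.intro (isCompact_closedBall (0 : E d) 1) fun y hy => hK.supp y ?_
  simpa using hy

private theorem badS_bound {K : E d → E d} (hK : IsKer K) : ∃ C : ℝ≥0, ∀ x, ‖K x‖ₑ ≤ C := by
  obtain ⟨C, hC⟩ := (badS_cs hK).exists_bound_of_continuous hK.smooth.continuous
  refine ⟨C.toNNReal, fun x => ?_⟩
  rw [← ofReal_norm]
  exact ENNReal.ofReal_le_ofReal (hC x)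

private theorem badS_lint {b : ℝ} (hb : 0 < b) (y : E d) (f : E d → ℝ≥0∞) (hf : Measurable f) :
    ∫⁻ z, f (y - b • z) = ENNReal.ofReal ((b ^ d)⁻¹) * ∫⁻ w, f w := by
  have h1 : ∫⁻ w, f w = ∫⁻ w, f (y - w) := (lintegral_sub_left_eq_self f y).symm
  rw [h1]
  have h2 : Measurable (fun w : E d => f (y - w)) := hf.comp (measurable_const.sub measurable_id)
  have h3 := Measure.map_addHaar_smul (volume : Measure (E d)) (r := b) hb.ne'
  have h4 : ∫⁻ z, f (y - b • z) = ∫⁻ w, f (y - w) ∂(Measure.map (fun z : E d => b • z) volume) := by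
    rw [lintegral_map h2 (measurable_const_smul b)]
  rw [h4, h3, lintegral_smul_measure]
  congr 1
  rw [finrank_euclideanSpace_fin, abs_of_pos (by positivity)]

private theorem badS_unique {p : ℝ} {H : E d → E d} {l : ℝ≥0∞} {x : E d} {i i' : ℤ}
    (h : x ∈ Lp' p H l i) (h' : x ∈ Lp' p H l i') : i = i' := by
  rcases lt_trichotomy i i' with hlt | heq | hlt
  · exact absurd h'.1 (not_lt.2 (h.2 i' hlt))
  · exact heq
  · exact absurd h.1 (not_lt.2 (h'.2 i hlt))

private theorem badS_supp {p : ℝ} {H : E d → E d} {l : ℝ≥0∞} (m : ℕ) (j : ℤ) (x : E d) :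
    (Function.support fun n : ℕ => bd p H l (j - m - n) x).Finite := by
  refine Set.Subsingleton.finite fun n hn n' hn' => ?_
  have h1 : x ∈ Lp' p H l (j - m - n) := by
    by_contra hx
    exact hn (bd_off hx)
  have h2 : x ∈ Lp' p H l (j - m - n') := by
    by_contra hx
    exact hn' (bd_off hx)
  have := badS_unique h1 h2
  omega

theorem bS_cvv (hd : 0 < d) (K : Ker d) {p : ℝ} {H : E d → E d} {l : ℝ≥0∞} (hH : Continuous H)
    (hi : Integrable H) (m : ℕ) (j : ℤ) (b : ℝ) (hb : 0 < b) (y : E d) :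
    ‖cvv K.ka b (bS p H l m j) y‖ₑ ≤ ∑' n : ℕ, ‖cvv K.ka b (bd p H l (j - m - n)) y‖ₑ := by
  obtain ⟨C, hC⟩ := badS_bound K.hka
  have hmb : ∀ n : ℕ, Measurable (bd p H l (j - m - n)) := fun n => measurable_bd hH.measurable _
  have hmk : Measurable K.ka := K.hka.smooth.continuous.measurable
  have hms : ∀ n : ℕ, Measurable
      (fun z : E d => (inner ℝ (K.ka z) (bd p H l (j - m - n) (y - b • z)) : ℝ)) := by
    intro n
    exact hmk.inner ((hmb n).comp (measurable_const.sub (measurable_id.const_smul b)))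
  have hin : ∀ z : E d, inner ℝ (K.ka z) (bS p H l m j (y - b • z)) =
      ∑' n : ℕ, inner ℝ (K.ka z) (bd p H l (j - m - n) (y - b • z)) := by
    intro z
    have hs : Summable fun n : ℕ => bd p H l (j - m - n) (y - b • z) :=
      summable_of_finite_support (badS_supp m j _)
    exact (innerSL ℝ (K.ka z)).map_tsum hs
  have hsum : ∑' n : ℕ, ∫⁻ z : E d,
      ‖(inner ℝ (K.ka z) (bd p H l (j - m - n) (y - b • z)) : ℝ)‖ₑ ≠ ⊤ := by
    have h0 : ∀ n : ℕ, ∫⁻ z : E d,
        ‖(inner ℝ (K.ka z) (bd p H l (j - m - n) (y - b • z)) : ℝ)‖ₑ ≤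
        C * ENNReal.ofReal ((b ^ d)⁻¹) * ∫⁻ w, ‖bd p H l (j - m - n) w‖ₑ := by
      intro n
      have hm1 : Measurable fun w => ‖bd p H l (j - m - n) w‖ₑ := (hmb n).enorm
      rw [mul_assoc, ← badS_lint hb y _ hm1, ← lintegral_const_mul]
      · refine lintegral_mono fun z => ?_
        have h1 : ‖(inner ℝ (K.ka z) (bd p H l (j - m - n) (y - b • z)) : ℝ)‖ₑ ≤
            ‖K.ka z‖ₑ * ‖bd p H l (j - m - n) (y - b • z)‖ₑ := by
          rw [← ofReal_norm, ← ofReal_norm, ← ofReal_norm,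
            ← ENNReal.ofReal_mul (norm_nonneg _)]
          exact ENNReal.ofReal_le_ofReal (norm_inner_le_norm _ _)
        exact h1.trans (mul_le_mul' (hC z) le_rfl)
      · exact hm1.comp (measurable_const.sub (measurable_id.const_smul b))
    have h1 : ∑' n : ℕ, ∫⁻ w, ‖bd p H l (j - m - n) w‖ₑ ≤ ∑' i : ℤ, ∫⁻ x, ‖bd p H l i x‖ₑ := by
      have hinj : Function.Injective (fun n : ℕ => j - (m : ℤ) - (n : ℤ)) := by
        intro a b hab
        simpa using hab
      exact ENNReal.tsum_comp_le_tsum_of_injective hinj _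
    refine ne_top_of_le_ne_top ?_ (ENNReal.tsum_le_tsum h0)
    rw [ENNReal.tsum_mul_left]
    refine ENNReal.mul_ne_top (ENNReal.mul_ne_top ENNReal.coe_ne_top ENNReal.ofReal_ne_top) ?_
    exact ne_top_of_le_ne_top (bd_sum_integrable hd hH.measurable hi) h1
  unfold cvv
  simp_rw [hin]
  rw [integral_tsum (fun n => (hms n).aestronglyMeasurable) hsum]
  exact enorm_tsum_le_tsum_enorm

/-- The cancellation on the cubes which are smaller than the scale. -/
theorem bad_cancel (hd : 0 < d) (K : Ker d) {p : ℝ} (hp : 1 ≤ p) : ∃ C : ℝ≥0,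
    ∀ (H : E d → E d) (l : ℝ≥0∞) (i : ℤ) (b : ℝ), Continuous H → Integrable H → (2 : ℝ) ^ i ≤ b →
      ∀ y, ‖cvv K.ka b (bd p H l i) y‖ₑ ≤ C * ENNReal.ofReal ((2 : ℝ) ^ i / b) *
        (ENNReal.ofReal ((b ^ d)⁻¹) *
          (l * volume (Lp' p H l i ∩ closedBall y ((1 + 2 * √d) * b)))) := by
  obtain ⟨L, hL⟩ := K.hka.smooth.lipschitzWith_of_hasCompactSupport (badS_cs K.hka) (by simp)
  obtain ⟨M, hM⟩ := badS_bound K.hka
  refine ⟨L * (√d).toNNReal * 2 ^ (d + 1), fun H l i b hH hi hib y => ?_⟩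
  have h2i : (0 : ℝ) < (2 : ℝ) ^ i := by positivity
  have hb : 0 < b := h2i.trans_le hib
  set B : E d → E d := bd p H l i with hB
  have hBi : Integrable B := bd_integrable hd hH.measurable hi i
  have hBm : Measurable B := measurable_bd hH.measurable i
  have hkc : Continuous K.ka := K.hka.smooth.continuous
  set u : E d → E d := fun w => K.ka (b⁻¹ • (y - w)) with hu
  set c : E d → E d := fun w => K.ka (b⁻¹ • (y - cor i w)) with hc
  have hum : Continuous u := hkc.comp ((continuous_const.sub continuous_id).const_smul b⁻¹)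
  have hcm : Measurable c :=
    hkc.measurable.comp ((measurable_const.sub (measurable_cor i)).const_smul b⁻¹)
  have hMn : ∀ x, ‖K.ka x‖ ≤ M := by
    intro x
    have := hM x
    rw [← ofReal_norm] at this
    have h2 := ENNReal.toReal_mono ENNReal.coe_ne_top this
    rwa [ENNReal.toReal_ofReal (norm_nonneg _), ENNReal.coe_toReal] at h2
  -- the change of variables
  have h1 : cvv K.ka b B y = (b ^ d)⁻¹ * ∫ w, inner ℝ (u w) (B w) := by
    unfold cvv
    have e1 : ∀ z : E d, (inner ℝ (K.ka z) (B (y - b • z)) : ℝ) =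
        (fun v : E d => (inner ℝ (u (y - v)) (B (y - v)) : ℝ)) (b • z) := by
      intro z
      simp only [hu]
      congr 2
      rw [sub_sub_cancel, smul_smul, inv_mul_cancel₀ hb.ne', one_smul]
    have e2 := Measure.integral_comp_smul (volume : Measure (E d))
      (fun v : E d => (inner ℝ (u (y - v)) (B (y - v)) : ℝ)) b
    rw [finrank_euclideanSpace_fin, abs_of_pos (by positivity), smul_eq_mul] at e2
    rw [integral_congr_ae (Filter.Eventually.of_forall e1), e2]
    congr 1
    exact integral_sub_left_eq_self (fun w => (inner ℝ (u w) (B w) : ℝ)) volume y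
  have h0 : ∫ w, inner ℝ (c w) (B w) = (0 : ℝ) := by
    refine integral_cubes i hBi hcm ⟨M, fun x => hMn _⟩ (fun x z hz => ?_) (fun x => ?_)
    · simp only [hc]
      rw [cor_eq hz]
    · exact bd_mean hd hi i x
  have hint : ∀ v : E d → E d, Measurable v → (∀ x, ‖v x‖ ≤ M) →
      Integrable fun w => (inner ℝ (v w) (B w) : ℝ) := by
    intro v hv hvb
    refine Integrable.mono' (hBi.norm.const_mul (M : ℝ)) (hv.inner hBm).aestronglyMeasurable ?_
    refine Filter.Eventually.of_forall fun w => ?_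
    exact (norm_inner_le_norm _ _).trans (mul_le_mul_of_nonneg_right (hvb w) (norm_nonneg _))
  have h2 : ∫ w, (inner ℝ (u w) (B w) : ℝ) = ∫ w, inner ℝ (u w - c w) (B w) := by
    have e : ∀ w, (inner ℝ (u w - c w) (B w) : ℝ) = inner ℝ (u w) (B w) - inner ℝ (c w) (B w) :=
      fun w => inner_sub_left _ _ _
    simp_rw [e]
    rw [integral_sub (hint u hum.measurable fun x => hMn _) (hint c hcm fun x => hMn _), h0,
      sub_zero]
  -- the cubes which matter
  set A : Set (E d) := {w | ‖y - cor i w‖ ≤ (1 + √d) * b} with hA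
  have hAm : MeasurableSet A :=
    measurableSet_le (measurable_const.sub (measurable_cor i)).norm measurable_const
  have hAs : ∀ x ∈ A, dc i x ⊆ A := by
    intro x hx z hz
    simp only [hA, mem_ofPred_eq] at hx ⊢
    rwa [cor_eq hz]
  have hcd : ∀ w : E d, ‖cor i w - w‖ ≤ √d * (2 : ℝ) ^ i := fun w => dc_dist (cor_mem i w)
  have hsd : 0 ≤ √(d : ℝ) := Real.sqrt_nonneg _
  have hsdb : √(d : ℝ) * (2 : ℝ) ^ i ≤ √d * b := mul_le_mul_of_nonneg_left hib hsd
  have hAb : A ⊆ closedBall y ((1 + 2 * √d) * b) := by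
    intro w hw
    simp only [hA, mem_ofPred_eq] at hw
    rw [mem_closedBall, dist_comm, dist_eq_norm]
    have : y - w = (y - cor i w) + (cor i w - w) := by abel
    rw [this]
    calc ‖(y - cor i w) + (cor i w - w)‖ ≤ ‖y - cor i w‖ + ‖cor i w - w‖ := norm_add_le _ _
      _ ≤ (1 + √d) * b + √d * b := add_le_add hw ((hcd w).trans hsdb)
      _ = (1 + 2 * √d) * b := by ring
  have hdiff : ∀ w, ‖u w - c w‖ₑ ≤
      A.indicator (fun _ => (L : ℝ≥0∞) * ENNReal.ofReal (√d * ((2 : ℝ) ^ i / b))) w := by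
    intro w
    by_cases hw : w ∈ A
    · rw [indicator_of_mem hw]
      have e1 : ‖u w - c w‖ₑ ≤ L * ‖b⁻¹ • (y - w) - b⁻¹ • (y - cor i w)‖ₑ := by
        have := hL (b⁻¹ • (y - w)) (b⁻¹ • (y - cor i w))
        rwa [edist_eq_enorm_sub, edist_eq_enorm_sub] at this
      refine e1.trans (mul_le_mul' le_rfl ?_)
      rw [← ofReal_norm]
      refine ENNReal.ofReal_le_ofReal ?_
      rw [← smul_sub, norm_smul, norm_inv, Real.norm_of_nonneg hb.le]
      have e2 : y - w - (y - cor i w) = cor i w - w := by abel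
      rw [e2]
      calc b⁻¹ * ‖cor i w - w‖ ≤ b⁻¹ * (√d * (2 : ℝ) ^ i) :=
            mul_le_mul_of_nonneg_left (hcd w) (by positivity)
        _ = √d * ((2 : ℝ) ^ i / b) := by ring
    · rw [indicator_of_notMem hw]
      simp only [hA, mem_ofPred_eq, not_le] at hw
      have z1 : c w = 0 := by
        refine K.hka.supp _ ?_
        rw [norm_smul, norm_inv, Real.norm_of_nonneg hb.le, lt_inv_mul_iff₀ hb, mul_one]
        refine lt_of_le_of_lt ?_ hw
        nlinarith
      have z2 : u w = 0 := by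
        refine K.hka.supp _ ?_
        rw [norm_smul, norm_inv, Real.norm_of_nonneg hb.le, lt_inv_mul_iff₀ hb, mul_one]
        have e3 : y - cor i w = (y - w) - (cor i w - w) := by abel
        rw [e3] at hw
        have e4 := norm_sub_le (y - w) (cor i w - w)
        have e5 := hcd w
        nlinarith
      simp [z1, z2]
  have hmI : Measurable (fun w => ‖B w‖ₑ) := hBm.enorm
  have hLm : MeasurableSet (Lp' p H l i) := by
    have hfm : Measurable (fp p H) := (hH.measurable.enorm).pow_const p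
    unfold Lp' lev
    have : {x | l ^ p < dav i (fp p H) x ∧ ∀ i' : ℤ, i < i' → dav i' (fp p H) x ≤ l ^ p} =
        {x | l ^ p < dav i (fp p H) x} ∩
          ⋂ i' : ℤ, {x | i < i' → dav i' (fp p H) x ≤ l ^ p} := by
      ext x
      simp
    rw [this]
    refine (measurableSet_lt measurable_const (measurable_dav i hfm)).inter
      (MeasurableSet.iInter fun i' => ?_)
    by_cases h : i < i'
    · simpa [h] using measurableSet_le (measurable_dav i' hfm) measurable_const
    · simp [h]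
  have hmass : ∫⁻ w in A, ‖B w‖ₑ ≤
      2 ^ (d + 1) * l * volume (Lp' p H l i ∩ closedBall y ((1 + 2 * √d) * b)) := by
    rw [← lintegral_dav i hmI hAm hAs]
    have e1 : ∀ x, dav i (fun w => ‖B w‖ₑ) x ≤
        2 ^ (d + 1) * l * dav i ((Lp' p H l i).indicator 1) x := by
      intro x
      unfold dav
      rw [lintegral_indicator_one hLm, Measure.restrict_apply hLm]
      calc (volume (dc i x))⁻¹ * ∫⁻ y in dc i x, ‖B y‖ₑ
          ≤ (volume (dc i x))⁻¹ * (2 ^ (d + 1) * l * volume (dc i x ∩ Lp' p H l i)) :=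
            mul_le_mul' le_rfl (bd_le_one hd hp hH.measurable i x)
        _ = 2 ^ (d + 1) * l * ((volume (dc i x))⁻¹ * volume (Lp' p H l i ∩ dc i x)) := by
            rw [inter_comm]; ring
    calc ∫⁻ x in A, dav i (fun w => ‖B w‖ₑ) x
        ≤ ∫⁻ x in A, 2 ^ (d + 1) * l * dav i ((Lp' p H l i).indicator 1) x :=
          lintegral_mono fun x => e1 x
      _ = 2 ^ (d + 1) * l * ∫⁻ x in A, dav i ((Lp' p H l i).indicator 1) x := by
          rw [lintegral_const_mul]
          exact measurable_dav i (measurable_one.indicator hLm)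
      _ = 2 ^ (d + 1) * l * volume (Lp' p H l i ∩ A) := by
          rw [lintegral_dav i (measurable_one.indicator hLm) hAm hAs,
            lintegral_indicator_one hLm, Measure.restrict_apply hLm]
      _ ≤ _ := by
          gcongr
  have hfin : ‖∫ w, (inner ℝ (u w) (B w) : ℝ)‖ₑ ≤
      (L : ℝ≥0∞) * ENNReal.ofReal (√d * ((2 : ℝ) ^ i / b)) *
        (2 ^ (d + 1) * l * volume (Lp' p H l i ∩ closedBall y ((1 + 2 * √d) * b))) := by
    rw [h2]
    calc ‖∫ w, (inner ℝ (u w - c w) (B w) : ℝ)‖ₑ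
        ≤ ∫⁻ w, ‖(inner ℝ (u w - c w) (B w) : ℝ)‖ₑ := enorm_integral_le_lintegral_enorm _
      _ ≤ ∫⁻ w, A.indicator (fun w =>
            (L : ℝ≥0∞) * ENNReal.ofReal (√d * ((2 : ℝ) ^ i / b)) * ‖B w‖ₑ) w := by
          refine lintegral_mono fun w => ?_
          have e1 : ‖(inner ℝ (u w - c w) (B w) : ℝ)‖ₑ ≤ ‖u w - c w‖ₑ * ‖B w‖ₑ := by
            rw [← ofReal_norm, ← ofReal_norm, ← ofReal_norm,
              ← ENNReal.ofReal_mul (norm_nonneg _)]
            exact ENNReal.ofReal_le_ofReal (norm_inner_le_norm _ _)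
          refine e1.trans ?_
          refine (mul_le_mul' (hdiff w) le_rfl).trans ?_
          by_cases hw : w ∈ A
          · simp [indicator_of_mem hw]
          · simp [indicator_of_notMem hw]
      _ = ∫⁻ w in A, (L : ℝ≥0∞) * ENNReal.ofReal (√d * ((2 : ℝ) ^ i / b)) * ‖B w‖ₑ :=
          lintegral_indicator hAm _
      _ = (L : ℝ≥0∞) * ENNReal.ofReal (√d * ((2 : ℝ) ^ i / b)) * ∫⁻ w in A, ‖B w‖ₑ :=
          lintegral_const_mul _ hmI
      _ ≤ _ := mul_le_mul' le_rfl hmass
  rw [h1, enorm_mul, Real.enorm_of_nonneg (by positivity)]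
  refine (mul_le_mul' le_rfl hfin).trans (le_of_eq ?_)
  rw [ENNReal.ofReal_mul hsd]
  push_cast
  have e6 : ((√(d : ℝ)).toNNReal : ℝ≥0∞) = ENNReal.ofReal (√d) := rfl
  rw [e6]
  ring

end Pool.Agent.Lib.MP_ff3fe0_an_SPH
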