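import Pool.Agent.Lib.MP_ff3fe0_an_SPH.SigA

set_option autoImplicit false

/-!
# The change of variables for the bilinear estimate
-/

namespace Pool.Agent.Lib.MP_ff3fe0_an_SPH

open MeasureTheory Metric Set
open scoped ENNReal NNReal ContDiff FourierTransform
open Pool.Agent.Lib.MP_ff3fe0_an

variable {d : ℕ}

private theorem bilA_norm_deriv (v : E d) (hv : v ≠ 0) :
    HasFDerivAt (fun x : E d => ‖x‖) (‖v‖⁻¹ • innerSL ℝ v) v := by
  have h1 := (hasStrictFDerivAt_norm_sq (F := E d) v).hasFDerivAt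
  have h2 : ‖v‖ ^ 2 ≠ 0 := pow_ne_zero 2 (norm_ne_zero_iff.mpr hv)
  have h3 := h1.sqrt h2
  have h4 : (fun x : E d => Real.sqrt (‖x‖ ^ 2)) = fun x => ‖x‖ := by
    funext x
    exact Real.sqrt_sq (norm_nonneg x)
  rw [h4] at h3
  refine h3.congr_fderiv ?_
  rw [Real.sqrt_sq (norm_nonneg v)]
  ext h
  have h5 : ‖v‖ ≠ 0 := norm_ne_zero_iff.mpr hv
  simp only [smul_apply, innerSL_apply_apply, smul_eq_mul, nsmul_eq_mul,
    Nat.cast_ofNat]
  field_simp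

/-- the derivative of the map -/
private noncomputable def bilA_D (a v : E d) : E d →L[ℝ] E d :=
  (‖v‖⁻¹ • innerSL ℝ v).smulRight a - ContinuousLinearMap.id ℝ (E d)

private theorem bilA_deriv (a : E d) (s : ℝ) (v : E d) (hv : v ≠ 0) :
    HasFDerivAt (fun v : E d => (‖v‖ + s) • a - v) (bilA_D a v) v := by
  have h1 : HasFDerivAt (fun x : E d => ‖x‖ + s) (‖v‖⁻¹ • innerSL ℝ v) v :=
    (bilA_norm_deriv v hv).add_const s
  exact (h1.smul_const a).sub (hasFDerivAt_id v)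

private theorem bilA_det (a v : E d) :
    |(bilA_D a v).det| = |1 - ‖v‖⁻¹ * inner ℝ v a| := by
  have h1 : ((bilA_D a v : E d →L[ℝ] E d) : E d →ₗ[ℝ] E d) =
      (-1 : ℝ) • LinearMap.transvection
        (((-(‖v‖⁻¹ • innerSL ℝ v) : E d →L[ℝ] ℝ)) : E d →ₗ[ℝ] ℝ) a := by
    ext x i
    simp [bilA_D, LinearMap.transvection]
    ring
  have h2 : (bilA_D a v).det = (-1 : ℝ) ^ (Module.finrank ℝ (E d)) *
      (1 + (-(‖v‖⁻¹ • innerSL ℝ v) : E d →L[ℝ] ℝ) a) := by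
    rw [ContinuousLinearMap.det, h1, LinearMap.det_smul, LinearMap.transvection.det]
    rfl
  rw [h2, abs_mul, abs_pow, abs_neg, abs_one, one_pow, one_mul]
  rw [sub_eq_add_neg]
  rfl

private theorem bilA_inj (a : E d) (ha : ‖a‖ = 1) (s : ℝ) :
    InjOn (fun v : E d => (‖v‖ + s) • a - v) {v | inner ℝ a v < ‖v‖} := by
  have key : ∀ v : E d, ‖(‖v‖ + s) • a - v‖ ^ 2 + s ^ 2 -
      2 * s * inner ℝ ((‖v‖ + s) • a - v) a =
        2 * ‖v‖ * (inner ℝ ((‖v‖ + s) • a - v) a - s) ∧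
      inner ℝ ((‖v‖ + s) • a - v) a - s = ‖v‖ - inner ℝ a v := by
    intro v
    have h1 : inner ℝ a a = (1 : ℝ) := by
      rw [real_inner_self_eq_norm_sq, ha]; norm_num
    have h2 : inner ℝ ((‖v‖ + s) • a - v) a = (‖v‖ + s) - inner ℝ a v := by
      rw [inner_sub_left, inner_smul_left, h1, real_inner_comm]
      simp
    have h3 : ‖(‖v‖ + s) • a - v‖ ^ 2 = (‖v‖ + s) ^ 2 - 2 * (‖v‖ + s) * inner ℝ a v + ‖v‖ ^ 2 := by
      rw [norm_sub_sq_real, norm_smul, ha, inner_smul_left]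
      simp
      ring
    rw [h3, h2]
    constructor <;> ring
  intro v hv v' hv' h
  simp only [mem_ofPred_eq] at hv hv'
  obtain ⟨k1, k2⟩ := key v
  obtain ⟨k3, k4⟩ := key v'
  have h0 : (‖v‖ + s) • a - v = (‖v'‖ + s) • a - v' := h
  rw [← h0] at k3 k4
  have h5 : 0 < inner ℝ ((‖v‖ + s) • a - v) a - s := by rw [k2]; linarith
  have h6 : ‖v‖ = ‖v'‖ := by
    have h7 : 2 * ‖v‖ * (inner ℝ ((‖v‖ + s) • a - v) a - s) =
        2 * ‖v'‖ * (inner ℝ ((‖v‖ + s) • a - v) a - s) := by rw [← k1, ← k3]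
    have h8 := mul_right_cancel₀ h5.ne' h7
    linarith
  rw [h6] at h0
  exact sub_right_injective h0

/-- The map `v ↦ (‖v‖ + s) a - v` has Jacobian `1 - ⟨a, v/‖v‖⟩` up to sign and is injective off
the ray of `a`. -/
theorem bil_change (a : E d) (ha : ‖a‖ = 1) (s : ℝ) (G : E d → ℝ≥0∞) (hG : Measurable G) :
    ∫⁻ v : E d, ENNReal.ofReal (1 - inner ℝ a (‖v‖⁻¹ • v)) * G ((‖v‖ + s) • a - v)
      ≤ ∫⁻ z, G z := by
  have hUo : IsOpen {v : E d | inner ℝ a v < ‖v‖} :=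
    isOpen_lt (by fun_prop) (by fun_prop)
  have hU : MeasurableSet {v : E d | inner ℝ a v < ‖v‖} := hUo.measurableSet
  have hv0 : ∀ v ∈ {v : E d | inner ℝ a v < ‖v‖}, v ≠ 0 := by
    rintro v hv rfl
    simp at hv
  have hnt : Nontrivial (E d) := ⟨a, 0, by
    rintro rfl
    simp at ha⟩
  rw [← lintegral_add_compl _ hU]
  have h0 : ∫⁻ v in {v : E d | inner ℝ a v < ‖v‖}ᶜ,
      ENNReal.ofReal (1 - inner ℝ a (‖v‖⁻¹ • v)) * G ((‖v‖ + s) • a - v) = 0 := by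
    rw [lintegral_eq_zero_of_ae_eq_zero]
    rw [Filter.EventuallyEq, ae_restrict_iff' hU.compl]
    have h1 : ∀ᵐ v : E d, v ≠ 0 := by
      rw [ae_iff]
      simp
    filter_upwards [h1] with v hv hvU
    simp only [mem_compl_iff, mem_ofPred_eq, not_lt] at hvU
    have h2 : 0 < ‖v‖ := norm_pos_iff.mpr hv
    have h3 : (1 : ℝ) ≤ inner ℝ a (‖v‖⁻¹ • v) := by
      rw [inner_smul_right]
      rw [← mul_inv_cancel₀ h2.ne', mul_comm]
      exact mul_le_mul_of_nonneg_left hvU (by positivity)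
    rw [ENNReal.ofReal_of_nonpos (by linarith), zero_mul]
    rfl
  rw [h0, add_zero]
  have h1 : ∫⁻ z in (fun v : E d => (‖v‖ + s) • a - v) '' {v | inner ℝ a v < ‖v‖}, G z =
      ∫⁻ v in {v : E d | inner ℝ a v < ‖v‖},
        ENNReal.ofReal |(bilA_D a v).det| * G ((‖v‖ + s) • a - v) :=
    lintegral_image_eq_lintegral_abs_det_fderiv_mul volume hU
      (fun v hv => (bilA_deriv a s v (hv0 v hv)).hasFDerivWithinAt) (bilA_inj a ha s) G
  refine le_trans (le_of_eq ?_) (setLIntegral_le_lintegral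
    ((fun v : E d => (‖v‖ + s) • a - v) '' {v | inner ℝ a v < ‖v‖}) G)
  rw [h1]
  refine setLIntegral_congr_fun hU fun v hv => ?_
  have hvn : 0 < ‖v‖ := norm_pos_iff.mpr (hv0 v hv)
  have h2 : (1 - inner ℝ a (‖v‖⁻¹ • v) : ℝ) = 1 - ‖v‖⁻¹ * inner ℝ v a := by
    rw [inner_smul_right, real_inner_comm]
  have h3 : 0 ≤ (1 - ‖v‖⁻¹ * inner ℝ v a : ℝ) := by
    have h4 : inner ℝ a v < ‖v‖ := hv
    rw [real_inner_comm] at h4
    have h5 : ‖v‖⁻¹ * inner ℝ v a ≤ ‖v‖⁻¹ * ‖v‖ :=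
      mul_le_mul_of_nonneg_left h4.le (by positivity)
    rw [inv_mul_cancel₀ hvn.ne'] at h5
    linarith
  change _ = ENNReal.ofReal |(bilA_D a v).det| * G ((‖v‖ + s) • a - v)
  rw [bilA_det, abs_of_nonneg h3, h2]

theorem bil_sphere (hd : 0 < d) : ∃ C : ℝ≥0, ∀ (a : Sph d) (s : ℝ) (G : E d → ℝ≥0∞),
    Measurable G → ∫⁻ t in Icc (1 / 4 : ℝ) 3, ∫⁻ b : Sph d,
      ‖(a : E d) - (b : E d)‖ₑ ^ 2 * G ((t + s) • (a : E d) - t • (b : E d)) ∂(sigma d)
        ≤ C * ∫⁻ z, G z := by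
  have hd0 : (d : ℝ≥0∞) ≠ 0 := by
    simp only [ne_eq, Nat.cast_eq_zero]
    omega
  have hb0 : volume (ball (0 : E d) 1) ≠ 0 := (measure_ball_pos _ _ one_pos).ne'
  have hbt : volume (ball (0 : E d) 1) ≠ ⊤ := measure_ball_lt_top.ne
  have hq0 : ENNReal.ofReal ((1 / 4 : ℝ) ^ (d - 1)) ≠ 0 := by
    rw [ne_eq, ENNReal.ofReal_eq_zero, not_le]
    positivity
  have hc0 : (d * volume (ball (0 : E d) 1)) * ENNReal.ofReal ((1 / 4 : ℝ) ^ (d - 1)) ≠ 0 :=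
    mul_ne_zero (mul_ne_zero hd0 hb0) hq0
  have hct : (d * volume (ball (0 : E d) 1)) * ENNReal.ofReal ((1 / 4 : ℝ) ^ (d - 1)) ≠ ⊤ :=
    ENNReal.mul_ne_top (ENNReal.mul_ne_top (by simp) hbt) ENNReal.ofReal_ne_top
  refine ⟨2 * ((d * volume (ball (0 : E d) 1)) *
    ENNReal.ofReal ((1 / 4 : ℝ) ^ (d - 1)))⁻¹.toNNReal, fun a s G hG => ?_⟩
  have ha : ‖(a : E d)‖ = 1 := norm_eq_of_mem_sphere a
  -- the function to which polar coordinates are applied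
  have hFm : Measurable fun v : E d => ENNReal.ofReal (1 - inner ℝ (a : E d) (‖v‖⁻¹ • v)) *
      G ((‖v‖ + s) • (a : E d) - v) := by
    refine Measurable.mul ?_ (hG.comp (by fun_prop))
    fun_prop
  have h1 := bil_change (a : E d) ha s G hG
  rw [lintegral_polar hd _ hFm] at h1
  have h2 : ENNReal.ofReal ((1 / 4 : ℝ) ^ (d - 1)) *
      ∫⁻ t in Icc (1 / 4 : ℝ) 3, ∫⁻ b : Sph d,
        ENNReal.ofReal (1 - inner ℝ (a : E d) (b : E d)) *
          G ((t + s) • (a : E d) - t • (b : E d)) ∂(sigma d) ≤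
      ∫⁻ r in Ioi (0 : ℝ), ENNReal.ofReal (r ^ (d - 1)) * ∫⁻ w : Sph d,
        ENNReal.ofReal (1 - inner ℝ (a : E d) (‖r • (w : E d)‖⁻¹ • r • (w : E d))) *
          G ((‖r • (w : E d)‖ + s) • (a : E d) - r • (w : E d)) ∂(sigma d) := by
    have h3 : Icc (1 / 4 : ℝ) 3 ⊆ Ioi (0 : ℝ) := fun r hr => by
      rw [mem_Ioi]
      linarith [hr.1]
    rw [← lintegral_const_mul' _ _ ENNReal.ofReal_ne_top]
    refine le_trans ?_ (lintegral_mono_set h3)
    refine setLIntegral_mono' measurableSet_Icc fun r hr => ?_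
    have h4 : (0 : ℝ) < r := by linarith [hr.1]
    refine mul_le_mul' (ENNReal.ofReal_le_ofReal (pow_le_pow_left₀ (by norm_num) hr.1 _)) ?_
    refine lintegral_mono fun w => ?_
    have h5 : ‖r • (w : E d)‖ = r := by
      rw [norm_smul, Real.norm_of_nonneg h4.le, norm_eq_of_mem_sphere w, mul_one]
    rw [h5, smul_smul, inv_mul_cancel₀ h4.ne', one_smul]
  have h3 : ∀ b : Sph d, ‖(a : E d) - (b : E d)‖ₑ ^ 2 =
      2 * ENNReal.ofReal (1 - inner ℝ (a : E d) (b : E d)) := by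
    intro b
    have h4 : ‖(a : E d) - (b : E d)‖ ^ 2 = 2 * (1 - inner ℝ (a : E d) (b : E d)) := by
      rw [norm_sub_sq_real, ha, norm_eq_of_mem_sphere b]
      ring
    rw [← ofReal_norm, ← ENNReal.ofReal_pow (norm_nonneg _), h4,
      ENNReal.ofReal_mul (by norm_num), ENNReal.ofReal_ofNat]
  have h4 : ∫⁻ t in Icc (1 / 4 : ℝ) 3, ∫⁻ b : Sph d,
      ‖(a : E d) - (b : E d)‖ₑ ^ 2 * G ((t + s) • (a : E d) - t • (b : E d)) ∂(sigma d) =
      2 * ∫⁻ t in Icc (1 / 4 : ℝ) 3, ∫⁻ b : Sph d,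
        ENNReal.ofReal (1 - inner ℝ (a : E d) (b : E d)) *
          G ((t + s) • (a : E d) - t • (b : E d)) ∂(sigma d) := by
    rw [← lintegral_const_mul' _ _ (by norm_num)]
    refine lintegral_congr fun t => ?_
    rw [← lintegral_const_mul' _ _ (by norm_num)]
    refine lintegral_congr fun b => ?_
    rw [h3 b, mul_assoc]
  rw [h4, ENNReal.coe_mul, ENNReal.coe_ofNat, mul_assoc]
  refine mul_le_mul' le_rfl ?_
  rw [ENNReal.coe_toNNReal (ENNReal.inv_ne_top.mpr hc0), mul_comm, ← div_eq_mul_inv,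
    ENNReal.le_div_iff_mul_le (Or.inl hc0) (Or.inl hct)]
  calc (∫⁻ t in Icc (1 / 4 : ℝ) 3, ∫⁻ b : Sph d,
        ENNReal.ofReal (1 - inner ℝ (a : E d) (b : E d)) *
          G ((t + s) • (a : E d) - t • (b : E d)) ∂(sigma d)) *
        ((d * volume (ball (0 : E d) 1)) * ENNReal.ofReal ((1 / 4 : ℝ) ^ (d - 1))) =
      (d * volume (ball (0 : E d) 1)) * (ENNReal.ofReal ((1 / 4 : ℝ) ^ (d - 1)) *
        ∫⁻ t in Icc (1 / 4 : ℝ) 3, ∫⁻ b : Sph d,
        ENNReal.ofReal (1 - inner ℝ (a : E d) (b : E d)) *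
          G ((t + s) • (a : E d) - t • (b : E d)) ∂(sigma d)) := by ring
    _ ≤ _ := mul_le_mul' le_rfl h2
    _ ≤ _ := h1

end Pool.Agent.Lib.MP_ff3fe0_an_SPH
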