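import Pool.Agent.Lib.MP_ff3fe0_an_SPH.Defs

set_option autoImplicit false

/-!
# The weights
-/

namespace Pool.Agent.Lib.MP_ff3fe0_an_SPH

open MeasureTheory Metric Set
open scoped ENNReal NNReal ContDiff FourierTransform
open Pool.Agent.Lib.MP_ff3fe0_an

variable {d : ℕ}

private theorem thA_pow (n : ℕ) : (2 : ℝ≥0∞) ^ n = ENNReal.ofReal (2 ^ n) := by
  rw [ENNReal.ofReal_pow (by norm_num)]
  norm_num

private theorem thA_four : (4 : ℝ≥0∞) = ENNReal.ofReal 4 := by norm_num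

private theorem thA_pos (n : ℕ) (s : ℝ) : (0 : ℝ) < 1 + 2 ^ n * |s| := by positivity

private theorem thA_sc {n : ℕ} {r : ℝ} (hr : |r| ≤ sc n) : 2 ^ n * |r| ≤ 1 := by
  unfold sc at hr
  have h1 : (0 : ℝ) ≤ 2 ^ n := by positivity
  have h2 : (2 : ℝ) ^ n * (1 / 2) ^ n = 1 := by
    rw [← mul_pow]
    norm_num
  calc (2 : ℝ) ^ n * |r| ≤ 2 ^ n * (1 / 2) ^ n := mul_le_mul_of_nonneg_left hr h1
    _ = 1 := h2

theorem measurable_Th (n : ℕ) : Measurable (Th n) := by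
  unfold Th
  have h : Continuous (fun s : ℝ => (2 : ℝ) ^ n / (1 + 2 ^ n * |s|) ^ 2) := by
    apply Continuous.div continuous_const (by fun_prop)
    intro s
    have := thA_pos n s
    positivity
  exact h.measurable.ennreal_ofReal

theorem Th_neg (n : ℕ) (s : ℝ) : Th n (-s) = Th n s := by
  unfold Th
  rw [abs_neg]

theorem Th_le (n : ℕ) (s : ℝ) : Th n s ≤ 2 ^ n := by
  unfold Th
  rw [thA_pow]
  apply ENNReal.ofReal_le_ofReal
  apply div_le_self (by positivity)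
  have h1 : (0 : ℝ) ≤ 2 ^ n * |s| := by positivity
  nlinarith

theorem Th_pos (n : ℕ) (s : ℝ) : Th n s ≠ 0 := by
  unfold Th
  have h1 := thA_pos n s
  exact (ENNReal.ofReal_pos.2 (by positivity)).ne'

theorem Th_lower {n : ℕ} {s : ℝ} (hs : |s| ≤ sc n) : 2 ^ n ≤ 4 * Th n s := by
  unfold Th
  rw [thA_pow, thA_four, ← ENNReal.ofReal_mul (by norm_num)]
  apply ENNReal.ofReal_le_ofReal
  have h1 := thA_sc hs
  have h2 := thA_pos n s
  have h3 : (0 : ℝ) < 2 ^ n := by positivity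
  have h4 : (0 : ℝ) ≤ 2 ^ n * |s| := by positivity
  rw [← mul_div_assoc, le_div_iff₀ (by positivity)]
  have h5 : (1 + 2 ^ n * |s|) ^ 2 ≤ 4 := by nlinarith
  nlinarith

theorem Th_shift {n : ℕ} {s r : ℝ} (hr : |r| ≤ sc n) : Th n s ≤ 4 * Th n (s - r) := by
  unfold Th
  rw [thA_four, ← ENNReal.ofReal_mul (by norm_num)]
  apply ENNReal.ofReal_le_ofReal
  have h1 := thA_sc hr
  have h2 := thA_pos n s
  have h2' := thA_pos n (s - r)
  have h3 : (0 : ℝ) < 2 ^ n := by positivity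
  have h4 : (0 : ℝ) ≤ 2 ^ n * |s| := by positivity
  have h5 : |s - r| ≤ |s| + |r| := abs_sub _ _
  have h6 : 1 + 2 ^ n * |s - r| ≤ 2 * (1 + 2 ^ n * |s|) := by
    have : 2 ^ n * |s - r| ≤ 2 ^ n * (|s| + |r|) := mul_le_mul_of_nonneg_left h5 h3.le
    nlinarith
  rw [← mul_div_assoc, div_le_div_iff₀ (by positivity) (by positivity)]
  have h7 : (1 + 2 ^ n * |s - r|) ^ 2 ≤ (2 * (1 + 2 ^ n * |s|)) ^ 2 :=
    pow_le_pow_left₀ h2'.le h6 2
  nlinarith

theorem Th_mono {n n' : ℕ} (h : n' ≤ n) (s : ℝ) : Th n s ≤ 2 ^ (n - n') * Th n' s := by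
  unfold Th
  rw [thA_pow, ← ENNReal.ofReal_mul (by positivity)]
  apply ENNReal.ofReal_le_ofReal
  have h1 := thA_pos n s
  have h1' := thA_pos n' s
  have h2 : (2 : ℝ) ^ n' ≤ 2 ^ n := pow_le_pow_right₀ (by norm_num) h
  have h3 : (2 : ℝ) ^ (n - n') * 2 ^ n' = 2 ^ n := by
    rw [← pow_add]
    congr 1
    omega
  rw [← mul_div_assoc, h3]
  apply div_le_div_of_nonneg_left (by positivity) (by positivity)
  apply pow_le_pow_left₀ h1'.le
  have := mul_le_mul_of_nonneg_right h2 (abs_nonneg s)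
  linarith

theorem Th_mul_Th (n n' : ℕ) (a b : ℝ) :
    Th n a * Th n' b ≤ 2 ^ max n n' * Th (min n n') (a - b) := by
  unfold Th
  rw [thA_pow, ← ENNReal.ofReal_mul (by positivity), ← ENNReal.ofReal_mul (by positivity)]
  apply ENNReal.ofReal_le_ofReal
  have h1 := thA_pos n a
  have h1' := thA_pos n' b
  have h2 := thA_pos (min n n') (a - b)
  have h3 : (2 : ℝ) ^ max n n' * 2 ^ min n n' = 2 ^ n * 2 ^ n' := by
    rw [← pow_add, ← pow_add]
    congr 1
    omega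
  have h4 : (2 : ℝ) ^ min n n' ≤ 2 ^ n := pow_le_pow_right₀ (by norm_num) (min_le_left _ _)
  have h5 : (2 : ℝ) ^ min n n' ≤ 2 ^ n' := pow_le_pow_right₀ (by norm_num) (min_le_right _ _)
  have h6 : |a - b| ≤ |a| + |b| := abs_sub _ _
  have h7 : 1 + 2 ^ min n n' * |a - b| ≤ (1 + 2 ^ n * |a|) * (1 + 2 ^ n' * |b|) := by
    have e1 : (2 : ℝ) ^ min n n' * |a - b| ≤ 2 ^ min n n' * (|a| + |b|) :=
      mul_le_mul_of_nonneg_left h6 (by positivity)
    have e2 := mul_le_mul_of_nonneg_right h4 (abs_nonneg a)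
    have e3 := mul_le_mul_of_nonneg_right h5 (abs_nonneg b)
    have e4 : (0 : ℝ) ≤ 2 ^ n * |a| * (2 ^ n' * |b|) := by positivity
    nlinarith
  rw [div_mul_div_comm, ← mul_div_assoc, h3]
  apply div_le_div_of_nonneg_left (by positivity) (by positivity)
  rw [← mul_pow]
  exact pow_le_pow_left₀ h2.le h7 2

theorem Th_int (n : ℕ) : ∫⁻ s, Th n s ≤ 2 := by
  have h1 : ∫⁻ s in Ioi (0 : ℝ), Th n s = 1 := by
    have hpos : ∀ s ∈ Ici (0 : ℝ), (0 : ℝ) < 1 + 2 ^ n * s := by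
      intro s hs
      have hs' : (0 : ℝ) ≤ s := hs
      positivity
    have hder : ∀ s ∈ Ici (0 : ℝ), HasDerivAt (fun s : ℝ => -(1 + 2 ^ n * s)⁻¹)
        (2 ^ n / (1 + 2 ^ n * s) ^ 2) s := by
      intro s hs
      have e1 : HasDerivAt (fun s : ℝ => 1 + 2 ^ n * s) (2 ^ n) s := by
        have := ((hasDerivAt_id s).const_mul ((2 : ℝ) ^ n)).const_add 1
        simpa using this
      have e2 := (e1.inv (hpos s hs).ne').neg
      have e3 : -(-(2 : ℝ) ^ n / (1 + 2 ^ n * s) ^ 2) = 2 ^ n / (1 + 2 ^ n * s) ^ 2 := by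
        rw [neg_div, neg_neg]
      rw [← e3]
      exact e2
    have hlim : Filter.Tendsto (fun s : ℝ => -(1 + 2 ^ n * s)⁻¹) Filter.atTop (nhds 0) := by
      rw [← neg_zero]
      apply Filter.Tendsto.neg
      apply Filter.Tendsto.inv_tendsto_atTop
      apply Filter.tendsto_atTop_add_const_left
      exact Filter.Tendsto.const_mul_atTop (by positivity) Filter.tendsto_id
    have hnn : ∀ s ∈ Ioi (0 : ℝ), (0 : ℝ) ≤ 2 ^ n / (1 + 2 ^ n * s) ^ 2 := by
      intro s hs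
      positivity
    have hi := integrableOn_Ioi_deriv_of_nonneg' hder hnn hlim
    have hv := integral_Ioi_of_hasDerivAt_of_nonneg' hder hnn hlim
    have h2 : ∫⁻ s in Ioi (0 : ℝ), Th n s =
        ∫⁻ s in Ioi (0 : ℝ), ENNReal.ofReal (2 ^ n / (1 + 2 ^ n * s) ^ 2) := by
      apply setLIntegral_congr_fun measurableSet_Ioi
      intro s hs
      have hs' : (0 : ℝ) < s := hs
      show Th n s = _
      unfold Th
      rw [abs_of_pos hs']
    rw [h2, ← ofReal_integral_eq_lintegral_ofReal hi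
      ((ae_restrict_iff' measurableSet_Ioi).2 (Filter.Eventually.of_forall hnn)), hv]
    norm_num
  have h2 : ∫⁻ s in Iio (0 : ℝ), Th n s = 1 := by
    have h3 := (Measure.measurePreserving_neg (volume : Measure ℝ)).setLIntegral_comp_preimage
      (measurableSet_Ioi (a := (0 : ℝ))) (measurable_Th n)
    have h4 : Neg.neg ⁻¹' Ioi (0 : ℝ) = Iio 0 := by
      ext s
      simp
    rw [h4, h1] at h3
    rw [← h3]
    congr 1
    funext s
    exact (Th_neg n s).symm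
  have h3 : ∫⁻ s in Iic (0 : ℝ), Th n s = ∫⁻ s in Iio (0 : ℝ), Th n s :=
    setLIntegral_congr Iio_ae_eq_Iic.symm
  have h4 := lintegral_add_compl (μ := (volume : Measure ℝ)) (Th n)
    (measurableSet_Iic (a := (0 : ℝ)))
  rw [compl_Iic, h3, h2, h1] at h4
  rw [← h4]
  norm_num

end Pool.Agent.Lib.MP_ff3fe0_an_SPH
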