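import Pool.Agent.Lib.MP_ff3fe0_an_SPH.BilA
import Pool.Agent.Lib.MP_ff3fe0_an_SPH.ThA

set_option autoImplicit false

/-!
# The bilinear L1 estimate
-/

namespace Pool.Agent.Lib.MP_ff3fe0_an_SPH

open MeasureTheory Metric Set
open scoped ENNReal NNReal ContDiff FourierTransform
open Pool.Agent.Lib.MP_ff3fe0_an

variable {d : ℕ}

private instance BilB_sfin : SFinite (sigma d) := by
  unfold sigma
  infer_instance

private theorem BilB_swap {α β : Type*} [MeasurableSpace α] [MeasurableSpace β] (μ : Measure α)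
    (ν : Measure β) [SFinite μ] [SFinite ν] (f : α → β → ℝ≥0∞)
    (h : Measurable fun p : α × β => f p.1 p.2) :
    ∫⁻ x, ∫⁻ y, f x y ∂ν ∂μ = ∫⁻ y, ∫⁻ x, f x y ∂μ ∂ν :=
  lintegral_lintegral_swap h.aemeasurable

private theorem BilB_int {α β : Type*} [MeasurableSpace α] [MeasurableSpace β] (ν : Measure β)
    [SFinite ν] (f : α → β → ℝ≥0∞) (h : Measurable fun p : α × β => f p.1 p.2) :
    Measurable fun x => ∫⁻ y, f x y ∂ν :=
  h.lintegral_prod_right'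

private theorem BilB_comp {α β : Type*} [MeasurableSpace α] [MeasurableSpace β]
    {f : β → ℝ≥0∞} (h : Measurable f) (g : α → β) (hg : Measurable g) :
    Measurable fun x => f (g x) := h.comp hg

/-- the inner kernel -/
private noncomputable def ker1 (G' : E d → ℝ≥0∞) (a : Sph d) (y : E d) (t t' : ℝ) : ℝ≥0∞ :=
  ∫⁻ b : Sph d, ‖(a : E d) - (b : E d)‖ₑ ^ 2 * G' (y + t • (a : E d) - t' • (b : E d)) ∂(sigma d)

private theorem ker1_meas {G' : E d → ℝ≥0∞} (hG' : Measurable G') :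
    Measurable fun p : (Sph d × E d) × ℝ × ℝ => ker1 G' p.1.1 p.1.2 p.2.1 p.2.2 := by
  unfold ker1
  refine BilB_int (sigma d) (fun (p : (Sph d × E d) × ℝ × ℝ) (b : Sph d) =>
    ‖(p.1.1 : E d) - (b : E d)‖ₑ ^ 2 *
      G' (p.1.2 + p.2.1 • (p.1.1 : E d) - p.2.2 • (b : E d))) ?_
  have h1 : Measurable fun p : ((Sph d × E d) × ℝ × ℝ) × Sph d =>
      ‖(p.1.1.1 : E d) - (p.2 : E d)‖ₑ ^ 2 := by fun_prop
  have h2 : Measurable fun p : ((Sph d × E d) × ℝ × ℝ) × Sph d =>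
      G' (p.1.1.2 + p.1.2.1 • (p.1.1.1 : E d) - p.1.2.2 • (p.2 : E d)) :=
    BilB_comp hG' _ (by fun_prop)
  exact h1.mul h2

/-- `BB` in terms of the inner kernel -/
private theorem BB_eq (n : ℕ) (G G' : E d → ℝ≥0∞) (hG' : Measurable G') (x : E d) :
    BB n G G' x = ∫⁻ t in Icc (1 / 4 : ℝ) 3, ∫⁻ t' in Icc (1 / 4 : ℝ) 3, Th n (t - t') *
      ∫⁻ a : Sph d, G (x - t • (a : E d)) * ker1 G' a (x - t • (a : E d)) t t' ∂(sigma d) := by
  unfold BB
  refine lintegral_congr fun t => lintegral_congr fun t' => ?_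
  refine congrArg _ (lintegral_congr fun a => ?_)
  unfold ker1
  rw [← lintegral_const_mul]
  · refine lintegral_congr fun b => ?_
    rw [sub_add_cancel]
    ring
  · have h1 : Measurable fun b : Sph d => ‖(a : E d) - (b : E d)‖ₑ ^ 2 := by fun_prop
    have h2 : Measurable fun b : Sph d =>
        G' (x - t • (a : E d) + t • (a : E d) - t' • (b : E d)) :=
      BilB_comp hG' _ (by fun_prop)
    exact h1.mul h2

private theorem BB_meas1 {G G' : E d → ℝ≥0∞} (hG : Measurable G) (hG' : Measurable G') :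
    Measurable fun p : (E d × ℝ) × ℝ => ∫⁻ a : Sph d, G (p.1.1 - p.1.2 • (a : E d)) *
      ker1 G' a (p.1.1 - p.1.2 • (a : E d)) p.1.2 p.2 ∂(sigma d) := by
  refine BilB_int (sigma d) (fun (p : (E d × ℝ) × ℝ) (a : Sph d) =>
    G (p.1.1 - p.1.2 • (a : E d)) * ker1 G' a (p.1.1 - p.1.2 • (a : E d)) p.1.2 p.2) ?_
  have h1 : Measurable fun p : ((E d × ℝ) × ℝ) × Sph d =>
      G (p.1.1.1 - p.1.1.2 • (p.2 : E d)) := BilB_comp hG _ (by fun_prop)
  have h2 : Measurable fun p : ((E d × ℝ) × ℝ) × Sph d =>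
      ker1 G' p.2 (p.1.1.1 - p.1.1.2 • (p.2 : E d)) p.1.1.2 p.1.2 :=
    BilB_comp (ker1_meas hG') (fun p : ((E d × ℝ) × ℝ) × Sph d =>
      ((p.2, p.1.1.1 - p.1.1.2 • (p.2 : E d)), p.1.1.2, p.1.2)) (by fun_prop)
  exact h1.mul h2

private theorem BB_meas2 (n : ℕ) {G G' : E d → ℝ≥0∞} (hG : Measurable G) (hG' : Measurable G') :
    Measurable fun p : (E d × ℝ) × ℝ => Th n (p.1.2 - p.2) *
      ∫⁻ a : Sph d, G (p.1.1 - p.1.2 • (a : E d)) *
      ker1 G' a (p.1.1 - p.1.2 • (a : E d)) p.1.2 p.2 ∂(sigma d) :=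
  (BilB_comp (measurable_Th n) (fun p : (E d × ℝ) × ℝ => p.1.2 - p.2) (by fun_prop)).mul
    (BB_meas1 hG hG')

private theorem BB_meas3 (n : ℕ) {G G' : E d → ℝ≥0∞} (hG : Measurable G) (hG' : Measurable G') :
    Measurable fun p : E d × ℝ => ∫⁻ t' in Icc (1 / 4 : ℝ) 3, Th n (p.2 - t') *
      ∫⁻ a : Sph d, G (p.1 - p.2 • (a : E d)) *
      ker1 G' a (p.1 - p.2 • (a : E d)) p.2 t' ∂(sigma d) :=
  BilB_int (volume.restrict (Icc (1 / 4 : ℝ) 3)) (fun (p : E d × ℝ) (t' : ℝ) =>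
    Th n (p.2 - t') * ∫⁻ a : Sph d, G (p.1 - p.2 • (a : E d)) *
      ker1 G' a (p.1 - p.2 • (a : E d)) p.2 t' ∂(sigma d)) (BB_meas2 n hG hG')

theorem measurable_BB (n : ℕ) {G G' : E d → ℝ≥0∞} (hG : Measurable G) (hG' : Measurable G') :
    Measurable (BB n G G') := by
  have h : BB n G G' = fun x => ∫⁻ t in Icc (1 / 4 : ℝ) 3, ∫⁻ t' in Icc (1 / 4 : ℝ) 3,
      Th n (t - t') * ∫⁻ a : Sph d, G (x - t • (a : E d)) *
        ker1 G' a (x - t • (a : E d)) t t' ∂(sigma d) := by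
    funext x
    exact BB_eq n G G' hG' x
  rw [h]
  exact BilB_int (volume.restrict (Icc (1 / 4 : ℝ) 3)) (fun (x : E d) (t : ℝ) =>
    ∫⁻ t' in Icc (1 / 4 : ℝ) 3,
      Th n (t - t') * ∫⁻ a : Sph d, G (x - t • (a : E d)) *
        ker1 G' a (x - t • (a : E d)) t t' ∂(sigma d)) (BB_meas3 n hG hG')

/-- the inner integral in the bilinear estimate, after the change of variables in `x` -/
private theorem BilB_inner {C : ℝ≥0} (hC : ∀ (a : Sph d) (s : ℝ) (G : E d → ℝ≥0∞),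
    Measurable G → ∫⁻ t in Icc (1 / 4 : ℝ) 3, ∫⁻ b : Sph d,
      ‖(a : E d) - (b : E d)‖ₑ ^ 2 * G ((t + s) • (a : E d) - t • (b : E d)) ∂(sigma d)
        ≤ C * ∫⁻ z, G z) (n : ℕ) {G' : E d → ℝ≥0∞} (hG' : Measurable G') (y : E d)
    (a : Sph d) :
    ∫⁻ t in Icc (1 / 4 : ℝ) 3, ∫⁻ t' in Icc (1 / 4 : ℝ) 3, Th n (t - t') * ker1 G' a y t t'
      ≤ 2 * C * ∫⁻ z, G' z := by
  have m1 : Measurable fun p : ℝ × ℝ => ker1 G' a y p.1 p.2 :=
    BilB_comp (ker1_meas hG') (fun p : ℝ × ℝ => ((a, y), p.1, p.2)) (by fun_prop)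
  have m2 : Measurable fun p : ℝ × ℝ => Th n (p.1 - p.2) * ker1 G' a y p.1 p.2 :=
    (BilB_comp (measurable_Th n) (fun p : ℝ × ℝ => p.1 - p.2) (by fun_prop)).mul m1
  rw [BilB_swap _ _ (fun t t' : ℝ => Th n (t - t') * ker1 G' a y t t') m2]
  have h3 : ∀ t' : ℝ, ∫⁻ t in Icc (1 / 4 : ℝ) 3, Th n (t - t') * ker1 G' a y t t' ≤
      ∫⁻ s, Th n s * ker1 G' a y (t' + s) t' := by
    intro t'
    refine (setLIntegral_le_lintegral _ _).trans (le_of_eq ?_)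
    rw [← lintegral_add_left_eq_self _ t']
    refine lintegral_congr fun s => ?_
    rw [add_sub_cancel_left]
  refine (lintegral_mono h3).trans ?_
  have m3 : Measurable fun p : ℝ × ℝ => Th n p.2 * ker1 G' a y (p.1 + p.2) p.1 :=
    (BilB_comp (measurable_Th n) (fun p : ℝ × ℝ => p.2) (by fun_prop)).mul
      (BilB_comp m1 (fun p : ℝ × ℝ => (p.1 + p.2, p.1)) (by fun_prop))
  rw [BilB_swap _ _ (fun t' s : ℝ => Th n s * ker1 G' a y (t' + s) t') m3]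
  have h4 : ∀ s : ℝ, ∫⁻ t' in Icc (1 / 4 : ℝ) 3, Th n s * ker1 G' a y (t' + s) t' ≤
      Th n s * (C * ∫⁻ z, G' z) := by
    intro s
    have m4 : Measurable fun t' : ℝ => ker1 G' a y (t' + s) t' :=
      BilB_comp m1 (fun t' : ℝ => (t' + s, t')) (by fun_prop)
    rw [lintegral_const_mul _ m4]
    refine mul_le_mul' le_rfl ?_
    have h5 := hC a s (fun z => G' (y + z)) (BilB_comp hG' _ (by fun_prop))
    rw [lintegral_add_left_eq_self G' y] at h5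
    refine le_trans (le_of_eq ?_) h5
    unfold ker1
    refine lintegral_congr fun t' => lintegral_congr fun b => ?_
    rw [add_sub_assoc]
  refine (lintegral_mono h4).trans ?_
  rw [lintegral_mul_const _ (measurable_Th n), mul_assoc]
  exact mul_le_mul' (Th_int n) le_rfl

/-- the change of variables in `x` -/
private theorem BilB_shift {G G' : E d → ℝ≥0∞} (hG : Measurable G) (hG' : Measurable G')
    (t t' : ℝ) :
    ∫⁻ x, ∫⁻ a : Sph d, G (x - t • (a : E d)) * ker1 G' a (x - t • (a : E d)) t t' ∂(sigma d) =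
      ∫⁻ y, ∫⁻ a : Sph d, G y * ker1 G' a y t t' ∂(sigma d) := by
  have m1 : Measurable fun p : E d × Sph d =>
      G (p.1 - t • (p.2 : E d)) * ker1 G' p.2 (p.1 - t • (p.2 : E d)) t t' := by
    have h1 : Measurable fun p : E d × Sph d => G (p.1 - t • (p.2 : E d)) :=
      BilB_comp hG _ (by fun_prop)
    have h2 : Measurable fun p : E d × Sph d => ker1 G' p.2 (p.1 - t • (p.2 : E d)) t t' :=
      BilB_comp (ker1_meas hG') (fun p : E d × Sph d =>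
        ((p.2, p.1 - t • (p.2 : E d)), t, t')) (by fun_prop)
    exact h1.mul h2
  have m2 : Measurable fun p : E d × Sph d => G p.1 * ker1 G' p.2 p.1 t t' := by
    have h1 : Measurable fun p : E d × Sph d => G p.1 := BilB_comp hG _ (by fun_prop)
    have h2 : Measurable fun p : E d × Sph d => ker1 G' p.2 p.1 t t' :=
      BilB_comp (ker1_meas hG') (fun p : E d × Sph d => ((p.2, p.1), t, t')) (by fun_prop)
    exact h1.mul h2
  rw [BilB_swap _ _ (fun (x : E d) (a : Sph d) =>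
    G (x - t • (a : E d)) * ker1 G' a (x - t • (a : E d)) t t') m1,
    BilB_swap _ _ (fun (y : E d) (a : Sph d) => G y * ker1 G' a y t t') m2]
  refine lintegral_congr fun a => ?_
  exact lintegral_sub_right_eq_self (fun y => G y * ker1 G' a y t t') (t • (a : E d))

private theorem BilB_const {G G' : E d → ℝ≥0∞} (hG' : Measurable G') (n : ℕ) (y : E d) :
    ∫⁻ t in Icc (1 / 4 : ℝ) 3, ∫⁻ t' in Icc (1 / 4 : ℝ) 3, Th n (t - t') *
      ∫⁻ a : Sph d, G y * ker1 G' a y t t' ∂(sigma d) =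
    G y * ∫⁻ a : Sph d, (∫⁻ t in Icc (1 / 4 : ℝ) 3, ∫⁻ t' in Icc (1 / 4 : ℝ) 3,
      Th n (t - t') * ker1 G' a y t t') ∂(sigma d) := by
  have k1 : Measurable fun p : (ℝ × ℝ) × Sph d => ker1 G' p.2 y p.1.1 p.1.2 :=
    BilB_comp (ker1_meas hG') (fun p : (ℝ × ℝ) × Sph d => ((p.2, y), p.1.1, p.1.2))
      (by fun_prop)
  have k2 : Measurable fun p : (ℝ × ℝ) × Sph d =>
      Th n (p.1.1 - p.1.2) * ker1 G' p.2 y p.1.1 p.1.2 :=
    (BilB_comp (measurable_Th n) (fun p : (ℝ × ℝ) × Sph d => p.1.1 - p.1.2)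
      (by fun_prop)).mul k1
  have e3 : ∀ t t' : ℝ, Th n (t - t') * ∫⁻ a : Sph d, G y * ker1 G' a y t t' ∂(sigma d) =
      G y * ∫⁻ a : Sph d, Th n (t - t') * ker1 G' a y t t' ∂(sigma d) := by
    intro t t'
    have k4 : Measurable fun a : Sph d => ker1 G' a y t t' :=
      BilB_comp k1 (fun a : Sph d => ((t, t'), a)) (by fun_prop)
    rw [lintegral_const_mul _ k4, lintegral_const_mul _ k4]
    ring
  have k7 : Measurable fun p : ℝ × ℝ => ∫⁻ a : Sph d,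
      Th n (p.1 - p.2) * ker1 G' a y p.1 p.2 ∂(sigma d) :=
    BilB_int (sigma d) (fun (p : ℝ × ℝ) (a : Sph d) =>
      Th n (p.1 - p.2) * ker1 G' a y p.1 p.2) k2
  have k8 : Measurable fun t : ℝ => ∫⁻ t' in Icc (1 / 4 : ℝ) 3, ∫⁻ a : Sph d,
      Th n (t - t') * ker1 G' a y t t' ∂(sigma d) :=
    BilB_int (volume.restrict (Icc (1 / 4 : ℝ) 3)) (fun t t' : ℝ => ∫⁻ a : Sph d,
      Th n (t - t') * ker1 G' a y t t' ∂(sigma d)) k7
  have e4 : ∀ t : ℝ, ∫⁻ t' in Icc (1 / 4 : ℝ) 3, Th n (t - t') *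
      ∫⁻ a : Sph d, G y * ker1 G' a y t t' ∂(sigma d) =
      G y * ∫⁻ t' in Icc (1 / 4 : ℝ) 3, ∫⁻ a : Sph d,
        Th n (t - t') * ker1 G' a y t t' ∂(sigma d) := by
    intro t
    rw [← lintegral_const_mul _
      (BilB_comp k7 (fun t' : ℝ => (t, t')) (by fun_prop))]
    exact lintegral_congr fun t' => e3 t t'
  have e5 : ∀ t : ℝ, ∫⁻ t' in Icc (1 / 4 : ℝ) 3, ∫⁻ a : Sph d,
      Th n (t - t') * ker1 G' a y t t' ∂(sigma d) =
      ∫⁻ a : Sph d, (∫⁻ t' in Icc (1 / 4 : ℝ) 3,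
        Th n (t - t') * ker1 G' a y t t') ∂(sigma d) := by
    intro t
    exact BilB_swap _ _ (fun (t' : ℝ) (a : Sph d) => Th n (t - t') * ker1 G' a y t t')
      (BilB_comp k2 (fun p : ℝ × Sph d => ((t, p.1), p.2)) (by fun_prop))
  rw [lintegral_congr e4, lintegral_const_mul _ k8, lintegral_congr e5]
  refine congrArg _ ?_
  refine BilB_swap _ _ (fun (t : ℝ) (a : Sph d) => ∫⁻ t' in Icc (1 / 4 : ℝ) 3,
    Th n (t - t') * ker1 G' a y t t') ?_
  exact BilB_int (volume.restrict (Icc (1 / 4 : ℝ) 3)) (fun (p : ℝ × Sph d) (t' : ℝ) =>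
    Th n (p.1 - t') * ker1 G' p.2 y p.1 t')
    (BilB_comp k2 (fun p : (ℝ × Sph d) × ℝ => ((p.1.1, p.2), p.1.2)) (by fun_prop))

private theorem BilB_tonelli {G G' : E d → ℝ≥0∞} (hG : Measurable G) (hG' : Measurable G')
    (n : ℕ) :
    ∫⁻ x, BB n G G' x = ∫⁻ y : E d, ∫⁻ t in Icc (1 / 4 : ℝ) 3,
      ∫⁻ t' in Icc (1 / 4 : ℝ) 3, Th n (t - t') *
        ∫⁻ a : Sph d, G y * ker1 G' a y t t' ∂(sigma d) := by
  have m2 : Measurable fun p : (E d × ℝ) × ℝ =>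
      ∫⁻ a : Sph d, G p.1.1 * ker1 G' a p.1.1 p.1.2 p.2 ∂(sigma d) := by
    refine BilB_int (sigma d) (fun (p : (E d × ℝ) × ℝ) (a : Sph d) =>
      G p.1.1 * ker1 G' a p.1.1 p.1.2 p.2) ?_
    have h1 : Measurable fun p : ((E d × ℝ) × ℝ) × Sph d => G p.1.1.1 :=
      BilB_comp hG _ (by fun_prop)
    have h2 : Measurable fun p : ((E d × ℝ) × ℝ) × Sph d =>
        ker1 G' p.2 p.1.1.1 p.1.1.2 p.1.2 :=
      BilB_comp (ker1_meas hG') (fun p : ((E d × ℝ) × ℝ) × Sph d =>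
        ((p.2, p.1.1.1), p.1.1.2, p.1.2)) (by fun_prop)
    exact h1.mul h2
  have m3 : Measurable fun p : (E d × ℝ) × ℝ => Th n (p.1.2 - p.2) *
      ∫⁻ a : Sph d, G p.1.1 * ker1 G' a p.1.1 p.1.2 p.2 ∂(sigma d) :=
    (BilB_comp (measurable_Th n) (fun p : (E d × ℝ) × ℝ => p.1.2 - p.2) (by fun_prop)).mul m2
  have m4 : Measurable fun p : E d × ℝ => ∫⁻ t' in Icc (1 / 4 : ℝ) 3, Th n (p.2 - t') *
      ∫⁻ a : Sph d, G p.1 * ker1 G' a p.1 p.2 t' ∂(sigma d) :=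
    BilB_int (volume.restrict (Icc (1 / 4 : ℝ) 3)) (fun (p : E d × ℝ) (t' : ℝ) =>
      Th n (p.2 - t') * ∫⁻ a : Sph d, G p.1 * ker1 G' a p.1 p.2 t' ∂(sigma d)) m3
  rw [lintegral_congr (BB_eq n G G' hG')]
  rw [BilB_swap _ _ (fun (x : E d) (t : ℝ) => ∫⁻ t' in Icc (1 / 4 : ℝ) 3,
      Th n (t - t') * ∫⁻ a : Sph d, G (x - t • (a : E d)) *
        ker1 G' a (x - t • (a : E d)) t t' ∂(sigma d)) (BB_meas3 n hG hG'),
    BilB_swap _ _ (fun (y : E d) (t : ℝ) => ∫⁻ t' in Icc (1 / 4 : ℝ) 3, Th n (t - t') *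
      ∫⁻ a : Sph d, G y * ker1 G' a y t t' ∂(sigma d)) m4]
  refine lintegral_congr fun t => ?_
  rw [BilB_swap _ _ (fun (x : E d) (t' : ℝ) =>
      Th n (t - t') * ∫⁻ a : Sph d, G (x - t • (a : E d)) *
        ker1 G' a (x - t • (a : E d)) t t' ∂(sigma d))
      (BilB_comp (BB_meas2 n hG hG') (fun p : E d × ℝ => ((p.1, t), p.2)) (by fun_prop)),
    BilB_swap _ _ (fun (y : E d) (t' : ℝ) => Th n (t - t') *
      ∫⁻ a : Sph d, G y * ker1 G' a y t t' ∂(sigma d))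
      (BilB_comp m3 (fun p : E d × ℝ => ((p.1, t), p.2)) (by fun_prop))]
  refine lintegral_congr fun t' => ?_
  rw [lintegral_const_mul _
      (BilB_comp (BB_meas1 hG hG') (fun x : E d => ((x, t), t')) (by fun_prop)),
    lintegral_const_mul _
      (BilB_comp m2 (fun x : E d => ((x, t), t')) (by fun_prop)),
    BilB_shift hG hG']

theorem BB_bound (hd : 0 < d) : ∃ C : ℝ≥0, ∀ (n : ℕ) (G G' : E d → ℝ≥0∞), Measurable G →
    Measurable G' → ∫⁻ x, BB n G G' x ≤ C * (∫⁻ y, G y) * ∫⁻ y, G' y := by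
  obtain ⟨C, hC⟩ := bil_sphere hd
  have hpr := sigma_prob hd
  refine ⟨2 * C, fun n G G' hG hG' => ?_⟩
  rw [BilB_tonelli hG hG' n]
  have e2 : ∀ y : E d, ∫⁻ t in Icc (1 / 4 : ℝ) 3,
      ∫⁻ t' in Icc (1 / 4 : ℝ) 3, Th n (t - t') *
        ∫⁻ a : Sph d, G y * ker1 G' a y t t' ∂(sigma d) ≤ G y * (2 * C * ∫⁻ z, G' z) := by
    intro y
    rw [BilB_const hG']
    refine mul_le_mul' le_rfl ?_
    refine (lintegral_mono fun a => BilB_inner hC n hG' y a).trans ?_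
    rw [lintegral_const, measure_univ, mul_one]
  refine (lintegral_mono e2).trans ?_
  rw [lintegral_mul_const _ hG]
  refine le_of_eq ?_
  push_cast
  ring

private theorem fat_meas (m : ℕ) {q : E d → ℝ} (hq : Measurable q) :
    Measurable fun p : E d × E d => ‖q (p.1 - sc m • p.2)‖ₑ :=
  BilB_comp hq.enorm (fun p : E d × E d => p.1 - sc m • p.2) (by fun_prop)

theorem fat_int (m : ℕ) {q : E d → ℝ} (hq : Measurable q) :
    ∫⁻ y, fat m q y = volume (closedBall (0 : E d) 2) * ∫⁻ y, ‖q y‖ₑ := by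
  unfold fat
  rw [BilB_swap _ _ (fun y z : E d => ‖q (y - sc m • z)‖ₑ) (fat_meas m hq)]
  have h2 : ∀ z : E d, ∫⁻ y, ‖q (y - sc m • z)‖ₑ = ∫⁻ y, ‖q y‖ₑ := fun z =>
    lintegral_sub_right_eq_self (fun y => ‖q y‖ₑ) (sc m • z)
  rw [lintegral_congr h2, lintegral_const, Measure.restrict_apply_univ, mul_comm]

theorem measurable_fat (m : ℕ) {q : E d → ℝ} (hq : Measurable q) : Measurable (fat m q) :=
  BilB_int (volume.restrict (closedBall (0 : E d) 2)) (fun y z : E d => ‖q (y - sc m • z)‖ₑ)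
    (fat_meas m hq)

end Pool.Agent.Lib.MP_ff3fe0_an_SPH
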