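import Pool.Agent.Lib.MP_ff3fe0_an_SPH.DyB

set_option autoImplicit false

/-!
# The Calderon-Zygmund decomposition
-/

namespace Pool.Agent.Lib.MP_ff3fe0_an_SPH

open MeasureTheory Metric Set
open scoped ENNReal NNReal ContDiff FourierTransform
open Pool.Agent.Lib.MP_ff3fe0_an

variable {d : ℕ}

/-- The function whose averages are used. -/
noncomputable def fp (p : ℝ) (H : E d → E d) (x : E d) : ℝ≥0∞ := ‖H x‖ₑ ^ p

/-- The level set at the height `l`. -/
noncomputable def Lp' (p : ℝ) (H : E d → E d) (l : ℝ≥0∞) (i : ℤ) : Set (E d) :=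
  lev (fp p H) (l ^ p) i

/-- The bad part at the level `i`. -/
noncomputable def bd (p : ℝ) (H : E d → E d) (l : ℝ≥0∞) (i : ℤ) : E d → E d :=
  (Lp' p H l i).indicator (fun x => H x - ⨍ y in dc i x, H y)

/-- The good part. -/
noncomputable def gd (p : ℝ) (H : E d → E d) (l : ℝ≥0∞) (x : E d) : E d :=
  H x - ∑ᶠ i : ℤ, bd p H l i x

variable {p : ℝ} {H : E d → E d} {l : ℝ≥0∞}

private lemma CZA_fp (hH : Measurable H) : Measurable (fp p H) := hH.enorm.pow_const p

private lemma CZA_floor (i : ℤ) :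
    Measurable (fun (x : E d) (l : Fin d) => ⌊(2 : ℝ) ^ (-i) * x l⌋) := by
  refine measurable_pi_lambda _ fun l => Int.measurable_floor.comp ?_
  have h : Continuous (fun x : E d => (2 : ℝ) ^ (-i) * x l) := by fun_prop
  exact h.measurable

private lemma CZA_avg (H : E d → E d) (i : ℤ) :
    Measurable (fun x : E d => ⨍ y in dc i x, H y) := by
  have h : Measurable (fun v : Fin d → ℤ =>
      ⨍ y in {y : E d | ∀ l, ⌊(2 : ℝ) ^ (-i) * y l⌋ = v l}, H y) := Measurable.of_discrete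
  exact h.comp (CZA_floor i)

theorem measurable_bd (hH : Measurable H) (i : ℤ) : Measurable (bd p H l i) :=
  (hH.sub (CZA_avg H i)).indicator (measurableSet_lev (CZA_fp hH) i)

theorem bd_off {i : ℤ} {x : E d} (hx : x ∉ Lp' p H l i) : bd p H l i x = 0 :=
  indicator_of_notMem hx _

theorem gd_off {x : E d} (hx : x ∉ Lv (fp p H) (l ^ p)) : gd p H l x = H x := by
  have h : ∑ᶠ i : ℤ, bd p H l i x = 0 := by
    refine finsum_eq_zero_of_forall_eq_zero fun i => bd_off fun hi => hx ?_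
    exact mem_iUnion.2 ⟨i, hi⟩
  rw [gd, h, sub_zero]

theorem gd_on {i : ℤ} {x : E d} (hx : x ∈ Lp' p H l i) : gd p H l x = ⨍ y in dc i x, H y := by
  have h : ∑ᶠ j : ℤ, bd p H l j x = bd p H l i x := by
    refine finsum_eq_single _ i fun j hj => bd_off fun hxj => ?_
    exact (disjoint_left.1 (lev_disj (f := fp p H) (a := l ^ p) hj)) hxj hx
  rw [gd, h, bd, indicator_of_mem hx, sub_sub_cancel]

theorem measurable_gd (hH : Measurable H) : Measurable (gd p H l) := by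
  intro s hs
  have hL : ∀ i, MeasurableSet (Lp' p H l i) := fun i => measurableSet_lev (CZA_fp hH) i
  have e : gd p H l ⁻¹' s = ((⋃ i : ℤ, Lp' p H l i)ᶜ ∩ H ⁻¹' s) ∪
      ⋃ i : ℤ, (Lp' p H l i ∩ (fun x : E d => ⨍ y in dc i x, H y) ⁻¹' s) := by
    ext x
    simp only [mem_union, mem_inter_iff, mem_compl_iff, mem_iUnion, mem_preimage]
    by_cases hx : ∃ i, x ∈ Lp' p H l i
    · obtain ⟨i, hi⟩ := hx
      rw [gd_on hi]
      constructor
      · intro h
        exact Or.inr ⟨i, hi, h⟩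
      · rintro (⟨h, -⟩ | ⟨j, hj, h⟩)
        · exact absurd ⟨i, hi⟩ h
        · have hij : j = i := by
            by_contra hij
            exact (disjoint_left.1 (lev_disj (f := fp p H) (a := l ^ p) hij)) hj hi
          rwa [hij] at h
    · have hx' : x ∉ Lv (fp p H) (l ^ p) := fun h => hx (mem_iUnion.1 h)
      rw [gd_off hx']
      constructor
      · intro h
        exact Or.inl ⟨hx, h⟩
      · rintro (⟨-, h⟩ | ⟨j, hj, -⟩)
        · exact h
        · exact absurd ⟨j, hj⟩ hx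
  rw [e]
  exact ((MeasurableSet.iUnion hL).compl.inter (hH hs)).union
    (MeasurableSet.iUnion fun i => (hL i).inter (CZA_avg H i hs))

/-- The decomposition. -/
theorem cz_sum (x : E d) : H x = gd p H l x + ∑ᶠ i : ℤ, bd p H l i x := by
  rw [gd, sub_add_cancel]

private lemma CZA_jensen (hp : 1 ≤ p) (hH : Measurable H) {s : Set (E d)}
    (h0 : volume s ≠ 0) (h1 : volume s ≠ ⊤) :
    ‖⨍ y in s, H y‖ₑ ≤ ((volume s)⁻¹ * ∫⁻ y in s, ‖H y‖ₑ ^ p) ^ (1 / p) := by
  set ν : Measure (E d) := (volume s)⁻¹ • (volume.restrict s) with hν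
  have : IsProbabilityMeasure ν := ⟨by
    rw [hν, Measure.smul_apply, Measure.restrict_apply_univ, smul_eq_mul,
      ENNReal.inv_mul_cancel h0 h1]⟩
  have h2 : ‖⨍ y in s, H y‖ₑ ≤ ∫⁻ y, ‖H y‖ₑ ∂ν := by
    rw [hν, lintegral_smul_measure, smul_eq_mul, setAverage_eq, enorm_smul]
    refine mul_le_mul' (le_of_eq ?_) (enorm_integral_le_lintegral_enorm _)
    rw [enorm_inv (by
      rw [Measure.real]
      exact (ENNReal.toReal_pos h0 h1).ne')]
    congr 1
    rw [Measure.real, Real.enorm_eq_ofReal ENNReal.toReal_nonneg, ENNReal.ofReal_toReal h1]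
  refine h2.trans ?_
  have h3 := eLpNorm_le_eLpNorm_of_exponent_le (μ := ν) (p := 1) (q := ENNReal.ofReal p)
    (ENNReal.one_le_ofReal.2 hp) (f := H) hH.aestronglyMeasurable
  rw [eLpNorm_one_eq_lintegral_enorm, eLpNorm_eq_lintegral_rpow_enorm_toReal
    (by simp; linarith) ENNReal.ofReal_ne_top, ENNReal.toReal_ofReal (by linarith)] at h3
  refine h3.trans (le_of_eq ?_)
  rw [hν, lintegral_smul_measure, smul_eq_mul]

theorem gd_le (hd : 0 < d) (hp : 1 ≤ p) (hH : Measurable H) {x : E d}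
    (hx : x ∈ Lv (fp p H) (l ^ p)) : ‖gd p H l x‖ₑ ≤ 2 ^ d * l := by
  obtain ⟨i, hi⟩ := mem_iUnion.1 hx
  have hv : volume (dc i x) = ENNReal.ofReal (((2 : ℝ) ^ i) ^ d) := volume_dc i x
  have h0 : volume (dc i x) ≠ 0 := by
    rw [hv]
    exact (ENNReal.ofReal_pos.2 (by positivity)).ne'
  have h1 : volume (dc i x) ≠ ⊤ := by
    rw [hv]
    exact ENNReal.ofReal_ne_top
  have hp0 : 0 < p := by linarith
  rw [gd_on (i := i) hi]
  refine (CZA_jensen hp hH h0 h1).trans ?_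
  have h2 : dav i (fp p H) x ≤ 2 ^ d * l ^ p := lev_le hd hi
  have h3 : (volume (dc i x))⁻¹ * ∫⁻ y in dc i x, ‖H y‖ₑ ^ p = dav i (fp p H) x := rfl
  rw [h3]
  calc dav i (fp p H) x ^ (1 / p) ≤ (2 ^ d * l ^ p) ^ (1 / p) :=
        ENNReal.rpow_le_rpow h2 (by positivity)
    _ = (2 ^ d) ^ (1 / p) * l := by
        rw [ENNReal.mul_rpow_of_nonneg _ _ (by positivity), ← ENNReal.rpow_mul,
          mul_one_div_cancel hp0.ne', ENNReal.rpow_one]
    _ ≤ (2 ^ d) ^ (1 : ℝ) * l := by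
        gcongr
        · exact one_le_pow₀ (by norm_num)
        · rw [div_le_one hp0]
          exact hp
    _ = 2 ^ d * l := by rw [ENNReal.rpow_one]

/-- The L2 norm of the good part. -/
theorem gd_two (hd : 0 < d) (hp : 1 ≤ p) (hl : l ≠ 0) (hl' : l ≠ ⊤) (hH : Continuous H)
    (hfin : ∫⁻ x, ‖H x‖ₑ ^ p ≠ ⊤) :
    ∫⁻ x, ‖gd p H l x‖ₑ ^ 2 ≤ (∫⁻ x in {x | ‖H x‖ₑ ≤ l}, ‖H x‖ₑ ^ 2) +
      4 ^ d * l ^ 2 * volume (Lv (fp p H) (l ^ p)) := by
  have hp0 : 0 < p := by linarith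
  have hLm : MeasurableSet (Lv (fp p H) (l ^ p)) :=
    MeasurableSet.iUnion fun i => measurableSet_lev (CZA_fp hH.measurable) i
  have hlp : l ^ p ≠ 0 := by
    rw [Ne, ENNReal.rpow_eq_zero_iff]
    rintro (⟨h, -⟩ | ⟨h, -⟩)
    · exact hl h
    · exact hl' h
  have hc : Continuous (fp p H) := ENNReal.continuous_rpow_const.comp hH.enorm
  have hsub : (Lv (fp p H) (l ^ p))ᶜ ⊆ {x | ‖H x‖ₑ ≤ l} := by
    intro x hx
    have h := not_Lv_cont hd hlp hfin hc hx
    exact (ENNReal.rpow_le_rpow_iff hp0).1 h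
  rw [← lintegral_add_compl _ hLm, add_comm]
  refine add_le_add ?_ ?_
  · calc ∫⁻ x in (Lv (fp p H) (l ^ p))ᶜ, ‖gd p H l x‖ₑ ^ 2
        = ∫⁻ x in (Lv (fp p H) (l ^ p))ᶜ, ‖H x‖ₑ ^ 2 := by
          refine setLIntegral_congr_fun hLm.compl fun x hx => ?_
          rw [gd_off hx]
      _ ≤ _ := lintegral_mono_set hsub
  · calc ∫⁻ x in Lv (fp p H) (l ^ p), ‖gd p H l x‖ₑ ^ 2
        ≤ ∫⁻ _ in Lv (fp p H) (l ^ p), 4 ^ d * l ^ 2 := by
          refine setLIntegral_mono' hLm fun x hx => ?_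
          have h := gd_le hd hp hH.measurable hx
          calc ‖gd p H l x‖ₑ ^ 2 ≤ (2 ^ d * l) ^ 2 := by gcongr
            _ = 4 ^ d * l ^ 2 := by
              rw [mul_pow, ← pow_mul, mul_comm d 2, pow_mul]
              norm_num
      _ = _ := by rw [setLIntegral_const]

end Pool.Agent.Lib.MP_ff3fe0_an_SPH
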