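import Mathlib
import Pool.Agent.Lib.MP_ff3fe0_an.Defs

/-!
Energy flux through the graph of a function with gradient at most one, for first order systems
`∂_t P = ∇ p + K`, `∂_t p = div P + F`.
-/

set_option autoImplicit false
set_option linter.all false

open MeasureTheory Set Filter Topology
open scoped ENNReal NNReal ContDiff

namespace Pool.Agent.Lib.MP_ff3fe0_an.SPH

variable {d : ℕ}

/-- the basis vector -/
noncomputable abbrev eb (i : Fin d) : E d := EuclideanSpace.single i (1 : ℝ)

/-- the derivative in the space variable `x i` -/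
noncomputable def dxi (i : Fin d) (f : E d × ℝ → ℝ) (z : E d × ℝ) : ℝ :=
  fderiv ℝ f z (eb i, (0 : ℝ))

/-- the derivative in the time variable -/
noncomputable def dti (f : E d × ℝ → ℝ) (z : E d × ℝ) : ℝ :=
  fderiv ℝ f z ((0 : E d), (1 : ℝ))

private lemma integral_fderiv_zero {f : E d → ℝ} (hf : ContDiff ℝ 1 f) (cf : HasCompactSupport f)
    (v : E d) : ∫ y, fderiv ℝ f y v = 0 := by
  obtain ⟨χ, hχ1, hχ2, hχc⟩ : ∃ χ : E d → ℝ, ContDiff ℝ 1 χ ∧ HasCompactSupport χ ∧
      ∀ y ∈ tsupport f, χ y = 1 ∧ fderiv ℝ χ y v = 0 := by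
    obtain ⟨R, hR⟩ := (cf.isCompact.isBounded).subset_closedBall (0 : E d)
    let b : ContDiffBump (0 : E d) := ⟨|R| + 1, |R| + 2, by positivity, by linarith⟩
    refine ⟨b, b.contDiff, b.hasCompactSupport, fun y hy => ?_⟩
    have h1 : y ∈ Metric.ball (0 : E d) (|R| + 1) := by
      have := hR hy
      rw [Metric.mem_closedBall] at this
      rw [Metric.mem_ball]
      have := le_abs_self R
      linarith
    refine ⟨b.one_of_mem_closedBall (Metric.ball_subset_closedBall h1), ?_⟩
    have h2 : (b : E d → ℝ) =ᶠ[𝓝 y] fun _ => (1 : ℝ) := by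
      filter_upwards [Metric.isOpen_ball.mem_nhds h1] with z hz
      exact b.one_of_mem_closedBall (Metric.ball_subset_closedBall hz)
    rw [h2.fderiv_eq]
    simp
  have hcf : Continuous (fderiv ℝ f) := hf.continuous_fderiv one_ne_zero
  have hcχ : Continuous (fderiv ℝ χ) := hχ1.continuous_fderiv one_ne_zero
  have hz : ∀ y, y ∉ tsupport f → fderiv ℝ f y v = 0 := by
    intro y hy
    have : fderiv ℝ f y = 0 := by
      have h1 : y ∉ Function.support (fderiv ℝ f) := fun h => hy (support_fderiv_subset ℝ h)
      simpa using h1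
    rw [this]; rfl
  have key := integral_mul_fderiv_eq_neg_fderiv_mul_of_integrable (μ := (volume : Measure (E d)))
    (f := χ) (g := f) (v := v)
    (((hcχ.clm_apply continuous_const).mul hf.continuous).integrable_of_hasCompactSupport
      (cf.mul_left))
    ((hχ1.continuous.mul (hcf.clm_apply continuous_const)).integrable_of_hasCompactSupport
      (hχ2.mul_right))
    ((hχ1.continuous.mul hf.continuous).integrable_of_hasCompactSupport (cf.mul_left))
    (fun x _ => hχ1.differentiable one_ne_zero x) (fun x _ => hf.differentiable one_ne_zero x)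
  have e1 : ∀ y, χ y * fderiv ℝ f y v = fderiv ℝ f y v := by
    intro y
    by_cases hy : y ∈ tsupport f
    · rw [(hχc y hy).1, one_mul]
    · rw [hz y hy, mul_zero]
  have e2 : ∀ y, fderiv ℝ χ y v * f y = 0 := by
    intro y
    by_cases hy : y ∈ tsupport f
    · rw [(hχc y hy).2, zero_mul]
    · rw [image_eq_zero_of_notMem_tsupport hy, mul_zero]
  simp only [e1, e2] at key
  rw [key]
  simp

/-- the shear -/
private noncomputable def shear (ψ : E d → ℝ) (hψ : Continuous ψ) : E d × ℝ ≃ₜ E d × ℝ where
  toFun z := (z.1, ψ z.1 + z.2)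
  invFun z := (z.1, z.2 - ψ z.1)
  left_inv z := by simp
  right_inv z := by simp
  continuous_toFun := by fun_prop
  continuous_invFun := by fun_prop

private lemma shear_mp (ψ : E d → ℝ) (hψ : Continuous ψ) :
    MeasurePreserving (shear ψ hψ) (volume : Measure (E d × ℝ)) volume := by
  have h : MeasurePreserving (fun z : E d × ℝ => (z.1, ψ z.1 + z.2))
      ((volume : Measure (E d)).prod (volume : Measure ℝ))
      ((volume : Measure (E d)).prod (volume : Measure ℝ)) := by
    refine MeasurePreserving.skew_product (f := id) (g := fun y t => ψ y + t)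
      (MeasurePreserving.id _) (by
        show Measurable fun z : E d × ℝ => ψ z.1 + z.2
        exact ((hψ.comp continuous_fst).add continuous_snd).measurable) ?_
    refine Filter.Eventually.of_forall fun y => ?_
    exact (measurePreserving_add_left (volume : Measure ℝ) (ψ y)).map_eq
  exact h

/-- The flux inequality. -/
theorem flux (p : E d × ℝ → ℝ) (P : Fin d → E d × ℝ → ℝ) (hp : ContDiff ℝ 1 p)
    (hP : ∀ i, ContDiff ℝ 1 (P i)) (cp : HasCompactSupport p)
    (cP : ∀ i, HasCompactSupport (P i)) (ψ : E d → ℝ) (hψ : ContDiff ℝ 1 ψ)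
    (hψ1 : ∀ y, ∑ i, (fderiv ℝ ψ y (eb i)) ^ 2 ≤ 1) (τ : ℝ) :
    (1 / 2) * ∫ y, ∑ i, (P i (y, ψ y + τ) + p (y, ψ y + τ) * fderiv ℝ ψ y (eb i)) ^ 2 ≤
      ∫ z, (|p z| * |dti p z - ∑ i, dxi i (P i) z| +
        ∑ i, |P i z| * |dti (P i) z - dxi i p z|) := by
  classical
  -- notation
  set Φ := shear ψ hψ.continuous with hΦ
  have hΦa : ∀ z : E d × ℝ, Φ z = (z.1, ψ z.1 + z.2) := fun z => rfl
  have hcΦ : Continuous Φ := Φ.continuous
  have dψ : Differentiable ℝ ψ := hψ.differentiable one_ne_zero
  have dp : Differentiable ℝ p := hp.differentiable one_ne_zero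
  have dP : ∀ i, Differentiable ℝ (P i) := fun i => (hP i).differentiable one_ne_zero
  -- the fields
  set X : Fin d → E d × ℝ → ℝ := fun i z => p z * P i z with hX
  have hXc : ∀ i, ContDiff ℝ 1 (X i) := fun i => hp.mul (hP i)
  have cX : ∀ i, HasCompactSupport (X i) := fun i => cp.mul_right
  have dX : ∀ i, Differentiable ℝ (X i) := fun i => (hXc i).differentiable one_ne_zero
  set en : E d × ℝ → ℝ := fun z => (1 / 2) * ((p z) ^ 2 + ∑ i, (P i z) ^ 2) with hen
  have henc : ContDiff ℝ 1 en := by
    refine contDiff_const.mul ((hp.pow 2).add ?_)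
    exact ContDiff.sum fun i _ => (hP i).pow 2
  have cen : HasCompactSupport en := by
    have h1 : HasCompactSupport fun z => (p z) ^ 2 := by
      have : (fun z => (p z) ^ 2) = fun z => p z * p z := by funext z; ring
      rw [this]
      exact cp.mul_right
    have h2 : ∀ i, HasCompactSupport fun z => (P i z) ^ 2 := by
      intro i
      have : (fun z => (P i z) ^ 2) = fun z => P i z * P i z := by funext z; ring
      rw [this]
      exact (cP i).mul_right
    have h3 : HasCompactSupport fun z => ∑ i, (P i z) ^ 2 := by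
      have : (fun z => ∑ i, (P i z) ^ 2) = ∑ i, fun z => (P i z) ^ 2 := by
        funext z; simp
      rw [this]
      exact HasCompactSupport.finset_sum fun i _ => h2 i
    exact (h1.add h3).mul_left
  have den : Differentiable ℝ en := henc.differentiable one_ne_zero
  -- the source
  set S : E d × ℝ → ℝ := fun z => p z * (dti p z - ∑ i, dxi i (P i) z) +
    ∑ i, P i z * (dti (P i) z - dxi i p z) with hS
  have cdt : ∀ f : E d × ℝ → ℝ, ContDiff ℝ 1 f → Continuous (dti f) := fun f hf =>
    (hf.continuous_fderiv one_ne_zero).clm_apply continuous_const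
  have cdx : ∀ (i : Fin d) (f : E d × ℝ → ℝ), ContDiff ℝ 1 f → Continuous (dxi i f) :=
    fun i f hf => (hf.continuous_fderiv one_ne_zero).clm_apply continuous_const
  have hSc : Continuous S := by
    refine (hp.continuous.mul ((cdt p hp).sub ?_)).add ?_
    · exact continuous_finset_sum _ fun i _ => cdx i (P i) (hP i)
    · exact continuous_finset_sum _ fun i _ =>
        (hP i).continuous.mul ((cdt _ (hP i)).sub (cdx i p hp))
  have hSs : HasCompactSupport S := by
    refine HasCompactSupport.add cp.mul_right ?_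
    have : (fun z => ∑ i, P i z * (dti (P i) z - dxi i p z)) =
        ∑ i, fun z => P i z * (dti (P i) z - dxi i p z) := by
      funext z; simp
    rw [this]
    exact HasCompactSupport.finset_sum fun i _ => (cP i).mul_right
  -- pointwise identity for the derivatives
  have hid : ∀ z, dti en z - ∑ i, dxi i (X i) z = S z := by
    intro z
    have h1 : dti en z = p z * dti p z + ∑ i, P i z * dti (P i) z := by
      have h : HasFDerivAt en ((1 / 2 : ℝ) • ((2 * p z) • fderiv ℝ p z +
          ∑ i, (2 * P i z) • fderiv ℝ (P i) z)) z := by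
        have h2 : HasFDerivAt (fun z => (p z) ^ 2) ((2 * p z) • fderiv ℝ p z) z := by
          have := (dp z).hasFDerivAt.pow 2
          simpa using this
        have h3 : ∀ i, HasFDerivAt (fun z => (P i z) ^ 2) ((2 * P i z) • fderiv ℝ (P i) z) z := by
          intro i
          have := (dP i z).hasFDerivAt.pow 2
          simpa using this
        have h4 : HasFDerivAt (fun z => ∑ i, (P i z) ^ 2)
            (∑ i, (2 * P i z) • fderiv ℝ (P i) z) z :=
          HasFDerivAt.fun_sum fun i _ => h3 i
        exact (h2.add h4).const_mul (1 / 2 : ℝ)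
      unfold dti
      rw [h.fderiv]
      simp only [ContinuousLinearMap.smul_apply, ContinuousLinearMap.add_apply,
        ContinuousLinearMap.sum_apply, smul_eq_mul, mul_add, Finset.mul_sum]
      congr 1
      · ring
      · refine Finset.sum_congr rfl fun i _ => by ring
    have h2 : ∀ i, dxi i (X i) z = dxi i p z * P i z + p z * dxi i (P i) z := by
      intro i
      have h : HasFDerivAt (X i) (p z • fderiv ℝ (P i) z + P i z • fderiv ℝ p z) z :=
        (dp z).hasFDerivAt.mul (dP i z).hasFDerivAt
      unfold dxi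
      rw [h.fderiv]
      simp only [ContinuousLinearMap.smul_apply, ContinuousLinearMap.add_apply, smul_eq_mul]
      ring
    rw [h1]
    simp only [h2, hS, mul_sub, Finset.mul_sum, Finset.sum_add_distrib, Finset.sum_sub_distrib]
    have h3 : ∑ i, dxi i p z * P i z = ∑ i, P i z * dxi i p z :=
      Finset.sum_congr rfl fun i _ => mul_comm _ _
    rw [h3]
    ring
  -- the divergence term
  set G : E d × ℝ → ℝ := fun z => ∑ i, (dxi i (X i) (Φ z) +
    fderiv ℝ ψ z.1 (eb i) * dti (X i) (Φ z)) with hG
  have hψc : ∀ i, Continuous fun z : E d × ℝ => fderiv ℝ ψ z.1 (eb i) := fun i =>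
    ((hψ.continuous_fderiv one_ne_zero).comp continuous_fst).clm_apply continuous_const
  have sdt : ∀ f : E d × ℝ → ℝ, HasCompactSupport f → HasCompactSupport (dti f) := fun f hf =>
    (hf.fderiv (𝕜 := ℝ)).comp_left (g := fun L : E d × ℝ →L[ℝ] ℝ => L ((0 : E d), (1 : ℝ))) rfl
  have sdx : ∀ (i : Fin d) (f : E d × ℝ → ℝ), HasCompactSupport f →
      HasCompactSupport (dxi i f) := fun i f hf =>
    (hf.fderiv (𝕜 := ℝ)).comp_left (g := fun L : E d × ℝ →L[ℝ] ℝ => L (eb i, (0 : ℝ))) rfl
  have hGc : Continuous G := by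
    refine continuous_finset_sum _ fun i _ => ?_
    exact ((cdx i _ (hXc i)).comp hcΦ).add ((hψc i).mul ((cdt _ (hXc i)).comp hcΦ))
  have hGs : HasCompactSupport G := by
    have : G = ∑ i, fun z => (dxi i (X i) (Φ z) +
        fderiv ℝ ψ z.1 (eb i) * dti (X i) (Φ z)) := by
      funext z; simp [hG]
    rw [this]
    refine HasCompactSupport.finset_sum fun i _ => ?_
    have h1 : HasCompactSupport fun z => dxi i (X i) (Φ z) :=
      (sdx i _ (cX i)).comp_homeomorph Φ
    have h2 : HasCompactSupport fun z => dti (X i) (Φ z) :=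
      (sdt _ (cX i)).comp_homeomorph Φ
    exact h1.add h2.mul_left
  have hGz : ∀ t : ℝ, ∫ y, G (y, t) = 0 := by
    intro t
    have hmap : ∀ y : E d, HasFDerivAt (fun y : E d => ((y, ψ y + t) : E d × ℝ))
        ((ContinuousLinearMap.id ℝ (E d)).prod (fderiv ℝ ψ y)) y := by
      intro y
      exact (hasFDerivAt_id y).prodMk ((dψ y).hasFDerivAt.add_const t)
    have hcd : ContDiff ℝ 1 (fun y : E d => ((y, ψ y + t) : E d × ℝ)) :=
      contDiff_id.prodMk (hψ.add contDiff_const)
    have h1 : ∀ i, ∀ y, dxi i (X i) (Φ (y, t)) + fderiv ℝ ψ y (eb i) * dti (X i) (Φ (y, t)) =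
        fderiv ℝ (fun y : E d => X i (y, ψ y + t)) y (eb i) := by
      intro i y
      have h := HasFDerivAt.comp y (g := X i) (f := fun y : E d => ((y, ψ y + t) : E d × ℝ))
        (dX i _).hasFDerivAt (hmap y)
      have h' : fderiv ℝ (fun y : E d => X i (y, ψ y + t)) y =
        (fderiv ℝ (X i) (y, ψ y + t)).comp
          ((ContinuousLinearMap.id ℝ (E d)).prod (fderiv ℝ ψ y)) := h.fderiv
      rw [h']
      simp only [ContinuousLinearMap.comp_apply, ContinuousLinearMap.prod_apply,
        ContinuousLinearMap.id_apply]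
      have h3 : ((eb i, fderiv ℝ ψ y (eb i)) : E d × ℝ) =
          (eb i, (0 : ℝ)) + (fderiv ℝ ψ y (eb i)) • ((0 : E d), (1 : ℝ)) := by
        ext <;> simp
      have h4 : fderiv ℝ (X i) (y, ψ y + t) (eb i, fderiv ℝ ψ y (eb i)) =
          fderiv ℝ (X i) (y, ψ y + t) (eb i, (0 : ℝ)) +
            fderiv ℝ ψ y (eb i) * fderiv ℝ (X i) (y, ψ y + t) ((0 : E d), (1 : ℝ)) := by
        rw [h3, map_add, map_smul, smul_eq_mul]
      rw [h4]
      rfl
    have hcs : ∀ i, HasCompactSupport fun y : E d => X i (y, ψ y + t) := by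
      intro i
      have hcl : Topology.IsClosedEmbedding (fun y : E d => ((y, ψ y + t) : E d × ℝ)) := by
        refine Topology.IsClosedEmbedding.of_continuous_injective_isClosedMap hcd.continuous
          (fun a b h => congrArg Prod.fst h) ?_
        have hc : IsClosed (Set.range fun y : E d => ((y, ψ y + t) : E d × ℝ)) := by
          have : (Set.range fun y : E d => ((y, ψ y + t) : E d × ℝ)) =
              {z : E d × ℝ | z.2 = ψ z.1 + t} := by
            ext z
            constructor
            · rintro ⟨y, rfl⟩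
              rfl
            · intro hz
              exact ⟨z.1, Prod.ext rfl hz.symm⟩
          rw [this]
          exact isClosed_eq continuous_snd ((hψ.continuous.comp continuous_fst).add
            continuous_const)
        intro s hs
        have : (fun y : E d => ((y, ψ y + t) : E d × ℝ)) '' s =
            (Set.range fun y : E d => ((y, ψ y + t) : E d × ℝ)) ∩ Prod.fst ⁻¹' s := by
          ext z
          constructor
          · rintro ⟨y, hy, rfl⟩
            exact ⟨⟨y, rfl⟩, hy⟩
          · rintro ⟨⟨y, rfl⟩, hy⟩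
            exact ⟨y, hy, rfl⟩
        rw [this]
        exact hc.inter (hs.preimage continuous_fst)
      exact (cX i).comp_isClosedEmbedding hcl
    have h2 : (fun y => G (y, t)) = fun y => ∑ i,
        fderiv ℝ (fun y : E d => X i (y, ψ y + t)) y (eb i) := by
      funext y
      exact Finset.sum_congr rfl fun i _ => h1 i y
    rw [h2, integral_finset_sum]
    · refine Finset.sum_eq_zero fun i _ => ?_
      exact integral_fderiv_zero ((hXc i).comp hcd) (hcs i) _
    · intro i _
      have hc : ContDiff ℝ 1 fun y : E d => X i (y, ψ y + t) := (hXc i).comp hcd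
      exact (((hc.continuous_fderiv one_ne_zero).clm_apply
        continuous_const).integrable_of_hasCompactSupport
          (((hcs i).fderiv (𝕜 := ℝ)).comp_left (g := fun L : E d →L[ℝ] ℝ => L (eb i)) rfl))
  -- the energy density along the graph
  set Q : E d × ℝ → ℝ := fun z => en (Φ z) + ∑ i, X i (Φ z) * fderiv ℝ ψ z.1 (eb i) with hQ
  have hQc : Continuous Q := by
    refine (henc.continuous.comp hcΦ).add (continuous_finset_sum _ fun i _ => ?_)
    exact ((hXc i).continuous.comp hcΦ).mul (hψc i)
  have hQs : HasCompactSupport Q := by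
    refine (cen.comp_homeomorph Φ).add ?_
    have : (fun z : E d × ℝ => ∑ i, X i (Φ z) * fderiv ℝ ψ z.1 (eb i)) =
        ∑ i, fun z => X i (Φ z) * fderiv ℝ ψ z.1 (eb i) := by
      funext z; simp
    rw [this]
    exact HasCompactSupport.finset_sum fun i _ => ((cX i).comp_homeomorph Φ).mul_right
  have hQd : ∀ (y : E d) (t : ℝ), HasDerivAt (fun t => Q (y, t))
      (G (y, t) + S (Φ (y, t))) t := by
    intro y t
    have hline : HasDerivAt (fun t : ℝ => ((y, ψ y + t) : E d × ℝ)) ((0 : E d), (1 : ℝ)) t := by
      have := (hasDerivAt_const t y).prodMk ((hasDerivAt_id t).const_add (ψ y))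
      simpa using this
    have h1 : HasDerivAt (fun t => en (y, ψ y + t)) (dti en (y, ψ y + t)) t :=
      (den _).hasFDerivAt.comp_hasDerivAt t hline
    have h2 : ∀ i, HasDerivAt (fun t => X i (y, ψ y + t) * fderiv ℝ ψ y (eb i))
        (dti (X i) (y, ψ y + t) * fderiv ℝ ψ y (eb i)) t := by
      intro i
      exact ((dX i _).hasFDerivAt.comp_hasDerivAt t hline).mul_const _
    have h3 : HasDerivAt (fun t => ∑ i, X i (y, ψ y + t) * fderiv ℝ ψ y (eb i))
        (∑ i, dti (X i) (y, ψ y + t) * fderiv ℝ ψ y (eb i)) t :=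
      HasDerivAt.fun_sum fun i _ => h2 i
    have h4 := h1.add h3
    have h5 : dti en (y, ψ y + t) + ∑ i, dti (X i) (y, ψ y + t) * fderiv ℝ ψ y (eb i) =
        G (y, t) + S (Φ (y, t)) := by
      rw [← hid]
      simp only [hG, Finset.sum_add_distrib, hΦa]
      have h6 : ∑ i, dti (X i) (y, ψ y + t) * fderiv ℝ ψ y (eb i) =
          ∑ i, fderiv ℝ ψ y (eb i) * dti (X i) (y, ψ y + t) :=
        Finset.sum_congr rfl fun i _ => mul_comm _ _
      rw [h6]
      ring
    rw [← h5]
    exact h4
  -- integrate
  have hIoi : ∀ y : E d, ∫ t in Ioi τ, (G (y, t) + S (Φ (y, t))) = - Q (y, τ) := by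
    intro y
    have hcont : Continuous fun t : ℝ => G (y, t) + S (Φ (y, t)) :=
      (hGc.comp (Continuous.prodMk_right y)).add
        (hSc.comp (hcΦ.comp (Continuous.prodMk_right y)))
    have hQ1 : ContDiff ℝ 1 fun t => Q (y, t) := by
      rw [contDiff_one_iff_deriv]
      refine ⟨fun t => (hQd y t).differentiableAt, ?_⟩
      have : deriv (fun t => Q (y, t)) = fun t => G (y, t) + S (Φ (y, t)) := by
        funext t
        exact (hQd y t).deriv
      rw [this]
      exact hcont
    have hQ2 : HasCompactSupport fun t => Q (y, t) :=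
      hQs.comp_isClosedEmbedding (by
        refine Topology.IsClosedEmbedding.of_continuous_injective_isClosedMap
          (Continuous.prodMk_right y) (fun a b h => congrArg Prod.snd h) ?_
        intro s hs
        have : (fun t : ℝ => ((y, t) : E d × ℝ)) '' s = {y} ×ˢ s := by
          ext z
          constructor
          · rintro ⟨t, ht, rfl⟩
            exact ⟨rfl, ht⟩
          · rintro ⟨h1, h2⟩
            exact ⟨z.2, h2, Prod.ext h1.symm rfl⟩
        rw [this]
        exact isClosed_singleton.prod hs)
    have h := hQ2.integral_Ioi_deriv_eq hQ1 τ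
    have h2 : deriv (fun t => Q (y, t)) = fun t => G (y, t) + S (Φ (y, t)) := by
      funext t
      exact (hQd y t).deriv
    rw [h2] at h
    exact h
  have hSΦc : Continuous fun z => S (Φ z) := hSc.comp hcΦ
  have hSΦs : HasCompactSupport fun z => S (Φ z) := hSs.comp_homeomorph Φ
  have iG : Integrable G ((volume : Measure (E d)).prod (volume.restrict (Ioi τ))) := by
    have h1 : Integrable G (volume : Measure (E d × ℝ)) := hGc.integrable_of_hasCompactSupport hGs
    have h2 : ((volume : Measure (E d)).prod ((volume : Measure ℝ).restrict (Ioi τ))) =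
        (volume : Measure (E d × ℝ)).restrict (univ ×ˢ Ioi τ) := by
      rw [Measure.volume_eq_prod, ← Measure.prod_restrict, Measure.restrict_univ]
    rw [h2]
    exact h1.restrict
  have iS : Integrable (fun z => S (Φ z))
      ((volume : Measure (E d)).prod (volume.restrict (Ioi τ))) := by
    have h1 : Integrable (fun z => S (Φ z)) (volume : Measure (E d × ℝ)) :=
      hSΦc.integrable_of_hasCompactSupport hSΦs
    have h2 : ((volume : Measure (E d)).prod ((volume : Measure ℝ).restrict (Ioi τ))) =
        (volume : Measure (E d × ℝ)).restrict (univ ×ˢ Ioi τ) := by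
      rw [Measure.volume_eq_prod, ← Measure.prod_restrict, Measure.restrict_univ]
    rw [h2]
    exact h1.restrict
  have hmain : ∫ y, Q (y, τ) = - ∫ z, S (Φ z) ∂((volume : Measure (E d)).prod
      (volume.restrict (Ioi τ))) := by
    have h1 : ∫ y, Q (y, τ) = - ∫ y, ∫ t in Ioi τ, (G (y, t) + S (Φ (y, t))) := by
      rw [← integral_neg]
      refine integral_congr_ae (Filter.Eventually.of_forall fun y => ?_)
      simp only [hIoi y, neg_neg]
    have h2 : ∫ y, ∫ t in Ioi τ, (G (y, t) + S (Φ (y, t))) =
        ∫ z, (G z + S (Φ z)) ∂((volume : Measure (E d)).prod (volume.restrict (Ioi τ))) := by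
      exact (integral_prod (fun z => G z + S (Φ z)) (iG.add iS)).symm
    have h3 : ∫ z, G z ∂((volume : Measure (E d)).prod (volume.restrict (Ioi τ))) = 0 := by
      rw [integral_prod_symm _ iG]
      simp only [hGz]
      simp
    rw [h1, h2, integral_add iG iS, h3, zero_add]
  -- lower bound of the density
  have hlow : ∀ y, (1 / 2) * ∑ i, (P i (y, ψ y + τ) + p (y, ψ y + τ) * fderiv ℝ ψ y (eb i)) ^ 2 ≤
      Q (y, τ) := by
    intro y
    have h1 : ∑ i, (P i (y, ψ y + τ) + p (y, ψ y + τ) * fderiv ℝ ψ y (eb i)) ^ 2 =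
        ∑ i, (P i (y, ψ y + τ)) ^ 2 + 2 * ∑ i, X i (y, ψ y + τ) * fderiv ℝ ψ y (eb i) +
          (p (y, ψ y + τ)) ^ 2 * ∑ i, (fderiv ℝ ψ y (eb i)) ^ 2 := by
      rw [Finset.mul_sum, Finset.mul_sum, ← Finset.sum_add_distrib, ← Finset.sum_add_distrib]
      refine Finset.sum_congr rfl fun i _ => ?_
      simp only [hX]
      ring
    have h2 : (p (y, ψ y + τ)) ^ 2 * ∑ i, (fderiv ℝ ψ y (eb i)) ^ 2 ≤ (p (y, ψ y + τ)) ^ 2 :=
      mul_le_of_le_one_right (sq_nonneg _) (hψ1 y)
    rw [h1]
    simp only [hQ, hen, hΦa]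
    linarith
  have hgraph : Continuous fun y : E d => ((y, ψ y + τ) : E d × ℝ) :=
    continuous_id.prodMk (hψ.continuous.add continuous_const)
  have hQτ : Continuous fun y => Q (y, τ) := hQc.comp (Continuous.prodMk_left τ)
  have hQτs : HasCompactSupport fun y => Q (y, τ) :=
    hQs.comp_isClosedEmbedding (by
      refine Topology.IsClosedEmbedding.of_continuous_injective_isClosedMap
        (Continuous.prodMk_left τ) (fun a b h => congrArg Prod.fst h) ?_
      intro s hs
      have : (fun y : E d => ((y, τ) : E d × ℝ)) '' s = s ×ˢ {τ} := by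
        ext z
        constructor
        · rintro ⟨t, ht, rfl⟩
          exact ⟨ht, rfl⟩
        · rintro ⟨h1, h2⟩
          exact ⟨z.1, h1, Prod.ext rfl h2.symm⟩
      rw [this]
      exact hs.prod isClosed_singleton)
  have hle1 : (1 / 2) * ∫ y, ∑ i, (P i (y, ψ y + τ) +
      p (y, ψ y + τ) * fderiv ℝ ψ y (eb i)) ^ 2 ≤ ∫ y, Q (y, τ) := by
    rw [← integral_const_mul]
    refine integral_mono_of_nonneg (Filter.Eventually.of_forall fun y => ?_)
      (hQτ.integrable_of_hasCompactSupport hQτs) (Filter.Eventually.of_forall hlow)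
    exact mul_nonneg (by norm_num) (Finset.sum_nonneg fun i _ => sq_nonneg _)
  -- upper bound
  have hle2 : - ∫ z, S (Φ z) ∂((volume : Measure (E d)).prod (volume.restrict (Ioi τ))) ≤
      ∫ z, |S z| := by
    have h1 : - ∫ z, S (Φ z) ∂((volume : Measure (E d)).prod (volume.restrict (Ioi τ))) ≤
        ∫ z, |S (Φ z)| ∂((volume : Measure (E d)).prod (volume.restrict (Ioi τ))) := by
      refine (neg_le_abs _).trans ?_
      exact abs_integral_le_integral_abs
    have h2 : ∫ z, |S (Φ z)| ∂((volume : Measure (E d)).prod (volume.restrict (Ioi τ))) ≤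
        ∫ z, |S (Φ z)| := by
      have h3 : ((volume : Measure (E d)).prod ((volume : Measure ℝ).restrict (Ioi τ))) =
          (volume : Measure (E d × ℝ)).restrict (univ ×ˢ Ioi τ) := by
        rw [Measure.volume_eq_prod, ← Measure.prod_restrict, Measure.restrict_univ]
      rw [h3]
      refine setIntegral_le_integral ?_ (Filter.Eventually.of_forall fun z => abs_nonneg _)
      exact (hSΦc.integrable_of_hasCompactSupport hSΦs).abs
    have h4 : ∫ z, |S (Φ z)| = ∫ z, |S z| :=
      (shear_mp ψ hψ.continuous).integral_comp Φ.measurableEmbedding (fun z => |S z|)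
    linarith
  have hSle : ∀ z, |S z| ≤ |p z| * |dti p z - ∑ i, dxi i (P i) z| +
      ∑ i, |P i z| * |dti (P i) z - dxi i p z| := by
    intro z
    refine (abs_add_le _ _).trans (add_le_add ?_ ?_)
    · rw [abs_mul]
    · refine (Finset.abs_sum_le_sum_abs _ _).trans (le_of_eq ?_)
      exact Finset.sum_congr rfl fun i _ => abs_mul _ _
  have hle3 : ∫ z, |S z| ≤ ∫ z, (|p z| * |dti p z - ∑ i, dxi i (P i) z| +
      ∑ i, |P i z| * |dti (P i) z - dxi i p z|) := by
    refine integral_mono_of_nonneg (Filter.Eventually.of_forall fun z => abs_nonneg _) ?_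
      (Filter.Eventually.of_forall hSle)
    refine Continuous.integrable_of_hasCompactSupport ?_ ?_
    · refine (hp.continuous.abs.mul ((cdt p hp).sub ?_).abs).add ?_
      · exact continuous_finset_sum _ fun i _ => cdx i (P i) (hP i)
      · exact continuous_finset_sum _ fun i _ =>
          (hP i).continuous.abs.mul ((cdt _ (hP i)).sub (cdx i p hp)).abs
    · refine HasCompactSupport.add (cp.abs.mul_right) ?_
      have : (fun z => ∑ i, |P i z| * |dti (P i) z - dxi i p z|) =
          ∑ i, fun z => |P i z| * |dti (P i) z - dxi i p z| := by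
        funext z; simp
      rw [this]
      exact HasCompactSupport.finset_sum fun i _ => ((cP i).abs).mul_right
  linarith [hle1, hmain, hle2, hle3]

end Pool.Agent.Lib.MP_ff3fe0_an.SPH
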