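import Mathlib
import Pool.Agent.Lib.MP_ff3fe0_an.Defs
import Pool.Agent.Lib.MP_ff3fe0_an_SPH.FluxA

/-!
Weighted spherical means as smooth functions of position and radius.
-/

set_option autoImplicit false
set_option linter.all false

open MeasureTheory Set Filter Topology Metric
open scoped ENNReal NNReal ContDiff

namespace Pool.Agent.Lib.MP_ff3fe0_an.SPH

variable {d : ℕ}

/-- the unit sphere -/
abbrev Sp (d : ℕ) : Type := sphere (0 : E d) 1

instance : IsFiniteMeasure (sigma d) := by
  unfold sigma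
  by_cases h : (volume : Measure (E d)).toSphere univ = 0
  · have : (volume : Measure (E d)).toSphere = 0 := Measure.measure_univ_eq_zero.1 h
    rw [this]
    simp
    infer_instance
  · refine ⟨?_⟩
    rw [Measure.smul_apply, smul_eq_mul]
    exact ENNReal.mul_lt_top (ENNReal.inv_lt_top.2 (pos_iff_ne_zero.2 h)) (measure_lt_top _ _)

/-- the weighted spherical mean of `φ` with weight `a`: position `z.1`, radius `z.2` -/
noncomputable def TA (a : Sp d → ℝ) (φ : E d → ℝ) (z : E d × ℝ) : ℝ :=
  ∫ w : Sp d, a w * φ (z.1 - z.2 • (w : E d)) ∂(sigma d)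

/-- the directional derivative -/
noncomputable def pd (i : Fin d) (φ : E d → ℝ) (x : E d) : ℝ := fderiv ℝ φ x (eb i)

lemma pd_contDiff (i : Fin d) {φ : E d → ℝ} (hφ : ContDiff ℝ ∞ φ) : ContDiff ℝ ∞ (pd i φ) := by
  have h : ContDiff ℝ ∞ (fderiv ℝ φ) := hφ.fderiv_right (m := ∞) (by simp)
  exact h.clm_apply contDiff_const

lemma pd_compact (i : Fin d) {φ : E d → ℝ} (cφ : HasCompactSupport φ) :
    HasCompactSupport (pd i φ) :=
  (cφ.fderiv (𝕜 := ℝ)).comp_left (g := fun L : E d →L[ℝ] ℝ => L (eb i)) rfl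

/-- the coordinate functional -/
noncomputable def pr (i : Fin d) : E d →L[ℝ] ℝ := EuclideanSpace.proj i

@[simp] lemma pr_apply (i : Fin d) (v : E d) : pr i v = v i := rfl

lemma fderiv_eq_sum (φ : E d → ℝ) (x v : E d) :
    fderiv ℝ φ x v = ∑ i, v i * pd i φ x := by
  have h : v = ∑ i, v i • eb i := by
    ext j
    simp [eb, Pi.single_apply]
  conv_lhs => rw [h, map_sum]
  refine Finset.sum_congr rfl fun i _ => ?_
  rw [map_smul, smul_eq_mul]
  rfl

/-- a product of a continuous weight and a coordinate is continuous -/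
lemma cont_coord (i : Fin d) : Continuous fun w : Sp d => (w : E d) i :=
  (pr i).continuous.comp continuous_subtype_val

lemma TA_integrable {a : Sp d → ℝ} (ha : Continuous a) {φ : E d → ℝ} (hφ : Continuous φ)
    (z : E d × ℝ) : Integrable (fun w : Sp d => a w * φ (z.1 - z.2 • (w : E d))) (sigma d) := by
  have hc : Continuous fun w : Sp d => a w * φ (z.1 - z.2 • (w : E d)) := by
    refine ha.mul (hφ.comp ?_)
    fun_prop
  exact hc.integrable_of_hasCompactSupport (HasCompactSupport.of_compactSpace _)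

lemma TA_hasFDerivAt {a : Sp d → ℝ} (ha : Continuous a) {φ : E d → ℝ} (hφ : ContDiff ℝ ∞ φ)
    (cφ : HasCompactSupport φ) (z : E d × ℝ) :
    HasFDerivAt (TA a φ)
      ((∑ i, TA a (pd i φ) z • ((pr i).comp
        (ContinuousLinearMap.fst ℝ (E d) ℝ))) -
        (∑ i, TA (fun w => a w * (w : E d) i) (pd i φ) z) •
          ContinuousLinearMap.snd ℝ (E d) ℝ) z := by
  -- the derivative under the integral sign
  have hd : Differentiable ℝ φ := hφ.differentiable (by simp)
  have hcf : Continuous (fderiv ℝ φ) := hφ.continuous_fderiv (by simp)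
  obtain ⟨M, hM⟩ := (cφ.fderiv (𝕜 := ℝ)).exists_bound_of_continuous hcf
  obtain ⟨N, hN⟩ := (isCompact_univ (X := Sp d)).exists_bound_of_continuousOn ha.continuousOn
  let F' : E d × ℝ → Sp d → (E d × ℝ →L[ℝ] ℝ) := fun z w =>
    a w • ((fderiv ℝ φ (z.1 - z.2 • (w : E d))).comp
      (ContinuousLinearMap.fst ℝ (E d) ℝ -
        (ContinuousLinearMap.snd ℝ (E d) ℝ).smulRight (w : E d)))
  have hF' : ∀ z w, HasFDerivAt (fun z : E d × ℝ => a w * φ (z.1 - z.2 • (w : E d)))
      (F' z w) z := by
    intro z w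
    have h1 : HasFDerivAt (fun z : E d × ℝ => z.1 - z.2 • (w : E d))
        (ContinuousLinearMap.fst ℝ (E d) ℝ -
          (ContinuousLinearMap.snd ℝ (E d) ℝ).smulRight (w : E d)) z :=
      hasFDerivAt_fst.sub (hasFDerivAt_snd.smul_const (w : E d))
    have h2 := HasFDerivAt.comp z (hd (z.1 - z.2 • (w : E d))).hasFDerivAt h1
    exact h2.const_mul (a w)
  have hF'b : ∀ z w, ‖F' z w‖ ≤ |N| * (|M| * 2) := by
    intro z w
    have h1 : ‖(ContinuousLinearMap.fst ℝ (E d) ℝ -
        (ContinuousLinearMap.snd ℝ (E d) ℝ).smulRight (w : E d))‖ ≤ 2 := by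
      refine (norm_sub_le _ _).trans ?_
      have h2 : ‖(ContinuousLinearMap.snd ℝ (E d) ℝ).smulRight (w : E d)‖ ≤ 1 := by
        rw [ContinuousLinearMap.norm_smulRight_apply]
        have h3 : ‖(w : E d)‖ = 1 := by
          have := w.2
          rwa [mem_sphere_zero_iff_norm] at this
        rw [h3, mul_one]
        exact ContinuousLinearMap.norm_snd_le ℝ (E d) ℝ
      have h4 := ContinuousLinearMap.norm_fst_le ℝ (E d) ℝ
      linarith
    show ‖a w • _‖ ≤ _
    rw [norm_smul]
    refine mul_le_mul ((hN w (mem_univ w)).trans (le_abs_self N)) ?_ (norm_nonneg _)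
      (abs_nonneg _)
    refine (ContinuousLinearMap.opNorm_comp_le _ _).trans ?_
    exact mul_le_mul ((hM _).trans (le_abs_self M)) h1 (norm_nonneg _) (abs_nonneg _)
  have hF'c : ∀ z, Continuous (F' z) := by
    intro z
    have h1 : Continuous fun w : Sp d => fderiv ℝ φ (z.1 - z.2 • (w : E d)) :=
      hcf.comp (by fun_prop)
    have h2 : Continuous fun w : Sp d => (ContinuousLinearMap.fst ℝ (E d) ℝ -
        (ContinuousLinearMap.snd ℝ (E d) ℝ).smulRight (w : E d)) := by
      refine continuous_const.sub ?_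
      exact ((ContinuousLinearMap.smulRightL ℝ (E d × ℝ) (E d)
        (ContinuousLinearMap.snd ℝ (E d) ℝ)).continuous).comp continuous_subtype_val
    exact ha.smul (h1.clm_comp h2)
  have key := hasFDerivAt_integral_of_dominated_of_fderiv_le (μ := sigma d)
    (F := fun (z : E d × ℝ) (w : Sp d) => a w * φ (z.1 - z.2 • (w : E d))) (F' := F')
    (x₀ := z) (s := univ) (bound := fun _ => |N| * (|M| * 2)) univ_mem
    (Filter.Eventually.of_forall fun z' =>
      (TA_integrable ha hφ.continuous z').aestronglyMeasurable)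
    (TA_integrable ha hφ.continuous z)
    ((hF'c z).aestronglyMeasurable)
    (Filter.Eventually.of_forall fun w z' _ => hF'b z' w)
    (integrable_const _)
    (Filter.Eventually.of_forall fun w z' _ => hF' z' w)
  have hint : Integrable (F' z) (sigma d) :=
    (hF'c z).integrable_of_hasCompactSupport (HasCompactSupport.of_compactSpace _)
  have e1 : ∫ w, F' z w ∂(sigma d) =
      ((∑ i, TA a (pd i φ) z • ((pr i).comp
        (ContinuousLinearMap.fst ℝ (E d) ℝ))) -
        (∑ i, TA (fun w => a w * (w : E d) i) (pd i φ) z) •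
          ContinuousLinearMap.snd ℝ (E d) ℝ) := by
    refine ContinuousLinearMap.ext fun v => ?_
    have h2 : (∫ w, F' z w ∂(sigma d)) v = ∫ w, F' z w v ∂(sigma d) :=
      (ContinuousLinearMap.integral_apply hint v)
    rw [h2]
    have hA : ∀ i, Integrable (fun w : Sp d => v.1 i * (a w * pd i φ (z.1 - z.2 • (w : E d))))
        (sigma d) := fun i => (TA_integrable ha (pd_contDiff i hφ).continuous z).const_mul _
    have hB : ∀ i, Integrable (fun w : Sp d => v.2 * ((a w * (w : E d) i) *
        pd i φ (z.1 - z.2 • (w : E d)))) (sigma d) := fun i =>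
      (TA_integrable (ha.mul (cont_coord i)) (pd_contDiff i hφ).continuous z).const_mul _
    have h3 : ∀ w : Sp d, F' z w v =
        (∑ i, v.1 i * (a w * pd i φ (z.1 - z.2 • (w : E d)))) -
        ∑ i, v.2 * ((a w * (w : E d) i) * pd i φ (z.1 - z.2 • (w : E d))) := by
      intro w
      show a w • (fderiv ℝ φ (z.1 - z.2 • (w : E d)) (v.1 - v.2 • (w : E d))) = _
      rw [fderiv_eq_sum, smul_eq_mul, Finset.mul_sum, ← Finset.sum_sub_distrib]
      refine Finset.sum_congr rfl fun i _ => ?_
      simp only [PiLp.sub_apply, PiLp.smul_apply, smul_eq_mul]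
      ring
    simp only [h3]
    rw [integral_sub (integrable_finset_sum _ fun i _ => hA i)
      (integrable_finset_sum _ fun i _ => hB i), integral_finset_sum _ fun i _ => hA i,
      integral_finset_sum _ fun i _ => hB i]
    simp only [integral_const_mul]
    simp only [ContinuousLinearMap.sub_apply, ContinuousLinearMap.sum_apply,
      ContinuousLinearMap.smul_apply, ContinuousLinearMap.comp_apply,
      ContinuousLinearMap.coe_fst', ContinuousLinearMap.coe_snd', smul_eq_mul,
      pr_apply, TA]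
    congr 1
    · refine Finset.sum_congr rfl fun i _ => mul_comm _ _
    · rw [Finset.sum_mul]
      refine Finset.sum_congr rfl fun i _ => mul_comm _ _
  rw [← e1]
  exact key

lemma dxi_TA {a : Sp d → ℝ} (ha : Continuous a) {φ : E d → ℝ} (hφ : ContDiff ℝ ∞ φ)
    (cφ : HasCompactSupport φ) (i : Fin d) (z : E d × ℝ) :
    dxi i (TA a φ) z = TA a (pd i φ) z := by
  classical
  unfold dxi
  rw [(TA_hasFDerivAt ha hφ cφ z).fderiv]
  simp [eb, Pi.single_apply]

lemma dti_TA {a : Sp d → ℝ} (ha : Continuous a) {φ : E d → ℝ} (hφ : ContDiff ℝ ∞ φ)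
    (cφ : HasCompactSupport φ) (z : E d × ℝ) :
    dti (TA a φ) z = - ∑ i, TA (fun w => a w * (w : E d) i) (pd i φ) z := by
  unfold dti
  rw [(TA_hasFDerivAt ha hφ cφ z).fderiv]
  simp

lemma TA_contDiff_nat (n : ℕ) : ∀ {a : Sp d → ℝ} (ha : Continuous a) {φ : E d → ℝ}
    (hφ : ContDiff ℝ ∞ φ) (cφ : HasCompactSupport φ), ContDiff ℝ n (TA a φ) := by
  induction n with
  | zero =>
    intro a ha φ hφ cφ
    rw [Nat.cast_zero, contDiff_zero]
    exact (show Differentiable ℝ (TA a φ) from fun z =>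
      (TA_hasFDerivAt ha hφ cφ z).differentiableAt).continuous
  | succ n ih =>
    intro a ha φ hφ cφ
    rw [Nat.cast_succ]
    refine contDiff_succ_iff_hasFDerivAt.2 ⟨fun z =>
      (∑ i, TA a (pd i φ) z • ((pr i).comp (ContinuousLinearMap.fst ℝ (E d) ℝ))) -
        (∑ i, TA (fun w => a w * (w : E d) i) (pd i φ) z) •
          ContinuousLinearMap.snd ℝ (E d) ℝ, ?_, fun z => TA_hasFDerivAt ha hφ cφ z⟩
    have h1 : ContDiff ℝ n (fun z => ∑ i, TA a (pd i φ) z •
        ((pr i).comp (ContinuousLinearMap.fst ℝ (E d) ℝ))) :=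
      ContDiff.sum fun i _ => (ih ha (pd_contDiff i hφ) (pd_compact i cφ)).smul contDiff_const
    have h2 : ContDiff ℝ n (fun z => ∑ i, TA (fun w => a w * (w : E d) i) (pd i φ) z) :=
      ContDiff.sum fun i _ => ih (ha.mul (cont_coord i)) (pd_contDiff i hφ) (pd_compact i cφ)
    exact h1.sub (h2.smul contDiff_const)

lemma TA_contDiff {a : Sp d → ℝ} (ha : Continuous a) {φ : E d → ℝ}
    (hφ : ContDiff ℝ ∞ φ) (cφ : HasCompactSupport φ) : ContDiff ℝ ∞ (TA a φ) :=
  contDiff_infty.2 fun n => TA_contDiff_nat n ha hφ cφ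

end Pool.Agent.Lib.MP_ff3fe0_an.SPH
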