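import Mathlib
import Pool.Agent.Lib.MP_ff3fe0_an.Defs
import Pool.Agent.Lib.MP_ff3fe0_an_SPH.FluxA
import Pool.Agent.Lib.MP_ff3fe0_an_SPH.FluxB

/-!
The energy flux of spherical means through light cones.
-/

set_option autoImplicit false
set_option linter.all false

open MeasureTheory Set Filter Topology Metric
open scoped ENNReal NNReal ContDiff

namespace Pool.Agent.Lib.MP_ff3fe0_an.SPH

variable {d : ℕ}

/-- iterated time derivative -/
noncomputable def tD : ℕ → (E d × ℝ → ℝ) → E d × ℝ → ℝ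
  | 0, f => f
  | j + 1, f => dti (tD j f)

lemma dti_contDiff {f : E d × ℝ → ℝ} (hf : ContDiff ℝ ∞ f) : ContDiff ℝ ∞ (dti f) := by
  have h : ContDiff ℝ ∞ (fderiv ℝ f) := hf.fderiv_right (m := ∞) (by simp)
  exact h.clm_apply contDiff_const

lemma dxi_contDiff (i : Fin d) {f : E d × ℝ → ℝ} (hf : ContDiff ℝ ∞ f) :
    ContDiff ℝ ∞ (dxi i f) := by
  have h : ContDiff ℝ ∞ (fderiv ℝ f) := hf.fderiv_right (m := ∞) (by simp)
  exact h.clm_apply contDiff_const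

lemma tD_contDiff (j : ℕ) {f : E d × ℝ → ℝ} (hf : ContDiff ℝ ∞ f) : ContDiff ℝ ∞ (tD j f) := by
  induction j with
  | zero => exact hf
  | succ j ih => exact dti_contDiff ih

lemma dti_tsupport (f : E d × ℝ → ℝ) : tsupport (dti f) ⊆ tsupport f := by
  refine closure_minimal ?_ (isClosed_tsupport f)
  intro z hz
  by_contra h
  apply hz
  have h1 : z ∉ Function.support (fderiv ℝ f) := fun h' => h (support_fderiv_subset ℝ h')
  have h2 : fderiv ℝ f z = 0 := by simpa using h1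
  show fderiv ℝ f z _ = 0
  rw [h2]; rfl

lemma tD_tsupport (j : ℕ) (f : E d × ℝ → ℝ) : tsupport (tD j f) ⊆ tsupport f := by
  induction j with
  | zero => exact Subset.rfl
  | succ j ih => exact (dti_tsupport _).trans ih

/-- time and space derivatives commute -/
lemma dxi_dti (i : Fin d) {f : E d × ℝ → ℝ} (hf : ContDiff ℝ ∞ f) :
    dxi i (dti f) = dti (dxi i f) := by
  funext z
  have h2 : ContDiff ℝ 2 f := hf.of_le (WithTop.coe_le_coe.2 (le_top : (2 : ℕ∞) ≤ ⊤))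
  have hs : IsSymmSndFDerivAt ℝ f z := h2.contDiffAt.isSymmSndFDerivAt (by simp)
  have hd : DifferentiableAt ℝ (fderiv ℝ f) z :=
    ((hf.fderiv_right (m := ∞) (by simp)).differentiable (by simp)) z
  have e1 : ∀ v w : E d × ℝ, fderiv ℝ (fun z => fderiv ℝ f z v) z w =
      fderiv ℝ (fderiv ℝ f) z w v := by
    intro v w
    have h := (hd.hasFDerivAt.clm_apply (hasFDerivAt_const v z))
    have h' : fderiv ℝ (fun z => fderiv ℝ f z v) z = _ := h.fderiv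
    rw [h']
    simp
  show fderiv ℝ (fun z => fderiv ℝ f z ((0 : E d), (1 : ℝ))) z (eb i, (0 : ℝ)) =
    fderiv ℝ (fun z => fderiv ℝ f z (eb i, (0 : ℝ))) z ((0 : E d), (1 : ℝ))
  rw [e1, e1]
  exact hs _ _

lemma dxi_tD (i : Fin d) (j : ℕ) {f : E d × ℝ → ℝ} (hf : ContDiff ℝ ∞ f) :
    dxi i (tD j f) = tD j (dxi i f) := by
  induction j with
  | zero => rfl
  | succ j ih =>
    show dxi i (dti (tD j f)) = dti (tD j (dxi i f))
    rw [dxi_dti i (tD_contDiff j hf), ih]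

lemma dti_add {f g : E d × ℝ → ℝ} {z : E d × ℝ} (hf : DifferentiableAt ℝ f z)
    (hg : DifferentiableAt ℝ g z) : dti (fun z => f z + g z) z = dti f z + dti g z := by
  unfold dti
  rw [fderiv_fun_add hf hg]; rfl

lemma dti_sum {ι : Type} (s : Finset ι) {f : ι → E d × ℝ → ℝ} {z : E d × ℝ}
    (hf : ∀ i ∈ s, DifferentiableAt ℝ (f i) z) :
    dti (fun z => ∑ i ∈ s, f i z) z = ∑ i ∈ s, dti (f i) z := by
  unfold dti
  rw [fderiv_fun_sum hf]
  simp

lemma tD_sum {ι : Type} (j : ℕ) (s : Finset ι) {f : ι → E d × ℝ → ℝ}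
    (hf : ∀ i ∈ s, ContDiff ℝ ∞ (f i)) :
    tD j (fun z => ∑ i ∈ s, f i z) = fun z => ∑ i ∈ s, tD j (f i) z := by
  induction j with
  | zero => rfl
  | succ j ih =>
    show dti (tD j (fun z => ∑ i ∈ s, f i z)) = _
    rw [ih]
    funext z
    rw [dti_sum s fun i hi => ((tD_contDiff j (hf i hi)).differentiable (by simp)) z]
    rfl

lemma dti_neg (f : E d × ℝ → ℝ) : dti (fun z => - f z) = fun z => - dti f z := by
  funext z
  unfold dti
  rw [fderiv_fun_neg]; rfl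

lemma tD_neg (j : ℕ) (f : E d × ℝ → ℝ) : tD j (fun z => - f z) = fun z => - tD j f z := by
  induction j with
  | zero => rfl
  | succ j ih =>
    show dti (tD j (fun z => - f z)) = _
    rw [ih, dti_neg]; rfl

lemma tD_comm (j : ℕ) (f : E d × ℝ → ℝ) : tD j (dti f) = tD (j + 1) f := by
  induction j with
  | zero => rfl
  | succ j ih =>
    show dti (tD j (dti f)) = _
    rw [ih]; rfl

lemma tD_add (j : ℕ) {f g : E d × ℝ → ℝ} (hf : ContDiff ℝ ∞ f) (hg : ContDiff ℝ ∞ g) :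
    tD j (fun z => f z + g z) = fun z => tD j f z + tD j g z := by
  induction j with
  | zero => rfl
  | succ j ih =>
    show dti (tD j (fun z => f z + g z)) = _
    rw [ih]
    funext z
    rw [dti_add ((tD_contDiff j hf).differentiable (by simp) z)
      ((tD_contDiff j hg).differentiable (by simp) z)]
    rfl

lemma dti_congr {f g : E d × ℝ → ℝ} {z : E d × ℝ} (h : f =ᶠ[𝓝 z] g) : dti f z = dti g z := by
  unfold dti
  rw [h.fderiv_eq]

lemma tD_congr (j : ℕ) {f g : E d × ℝ → ℝ} {z : E d × ℝ} (h : f =ᶠ[𝓝 z] g) :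
    tD j f =ᶠ[𝓝 z] tD j g := by
  induction j with
  | zero => exact h
  | succ j ih =>
    filter_upwards [ih.eventually_nhds] with y hy
    exact dti_congr hy

/-- product with a function of time -/
lemma dti_mul_time {ζ : ℝ → ℝ} {ζ' : ℝ} {f : E d × ℝ → ℝ} {z : E d × ℝ}
    (hζ : HasDerivAt ζ ζ' z.2) (hf : DifferentiableAt ℝ f z) :
    dti (fun z => ζ z.2 * f z) z = ζ' * f z + ζ z.2 * dti f z := by
  have h1 : HasFDerivAt (fun z : E d × ℝ => ζ z.2)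
      (ζ' • ContinuousLinearMap.snd ℝ (E d) ℝ) z := by
    have := hζ.hasFDerivAt.comp z (hasFDerivAt_snd (𝕜 := ℝ) (E := E d) (F := ℝ) (p := z))
    refine this.congr_fderiv ?_
    ext v <;> simp [mul_comm]
  have h2 := h1.mul hf.hasFDerivAt
  unfold dti
  have h3 : fderiv ℝ (fun z : E d × ℝ => ζ z.2 * f z) z = _ := h2.fderiv
  rw [h3]
  simp
  ring

lemma dxi_mul_time {ζ : ℝ → ℝ} {ζ' : ℝ} {f : E d × ℝ → ℝ} {z : E d × ℝ} (i : Fin d)
    (hζ : HasDerivAt ζ ζ' z.2) (hf : DifferentiableAt ℝ f z) :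
    dxi i (fun z => ζ z.2 * f z) z = ζ z.2 * dxi i f z := by
  have h1 : HasFDerivAt (fun z : E d × ℝ => ζ z.2)
      (ζ' • ContinuousLinearMap.snd ℝ (E d) ℝ) z := by
    have := hζ.hasFDerivAt.comp z (hasFDerivAt_snd (𝕜 := ℝ) (E := E d) (F := ℝ) (p := z))
    refine this.congr_fderiv ?_
    ext v <;> simp [mul_comm]
  have h2 := h1.mul hf.hasFDerivAt
  unfold dxi
  have h3 : fderiv ℝ (fun z : E d × ℝ => ζ z.2 * f z) z = _ := h2.fderiv
  rw [h3]
  simp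

/-- the time derivatives of `t⁻¹ f` up to order two -/
lemma tD_inv {f : E d × ℝ → ℝ} (hf : ContDiff ℝ ∞ f) {z : E d × ℝ} (hz : z.2 ≠ 0) (j : ℕ)
    (hj : j ≤ 2) : |tD j (fun z => z.2⁻¹ * f z) z| ≤
      |z.2|⁻¹ * |tD j f z| + 2 * |z.2|⁻¹ ^ 2 * |tD (j - 1) f z| +
        2 * |z.2|⁻¹ ^ 3 * |tD (j - 2) f z| := by
  have hz' : 0 < |z.2|⁻¹ := inv_pos.2 (abs_pos.2 hz)
  have hne : ∀ᶠ y : E d × ℝ in 𝓝 z, y.2 ≠ 0 :=
    continuous_snd.continuousAt.eventually_ne hz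
  have hd : ∀ j, Differentiable ℝ (tD j f) := fun j =>
    (tD_contDiff j hf).differentiable (by simp)
  have k1 : ∀ y : E d × ℝ, y.2 ≠ 0 → dti (fun z => z.2⁻¹ * f z) y =
      -(y.2 ^ 2)⁻¹ * f y + y.2⁻¹ * dti f y := fun y hy =>
    dti_mul_time (ζ := fun t => t⁻¹) (hasDerivAt_inv hy) (hd 0 y)
  have k2 : ∀ y : E d × ℝ, y.2 ≠ 0 → dti (dti (fun z => z.2⁻¹ * f z)) y =
      2 * (y.2 ^ 3)⁻¹ * f y - 2 * (y.2 ^ 2)⁻¹ * dti f y + y.2⁻¹ * dti (dti f) y := by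
    intro y hy
    have hev : dti (fun z => z.2⁻¹ * f z) =ᶠ[𝓝 y]
        fun z => (-(z.2 ^ 2)⁻¹) * f z + z.2⁻¹ * dti f z := by
      filter_upwards [continuous_snd.continuousAt.eventually_ne hy] with w hw
      exact k1 w hw
    rw [dti_congr hev]
    have hA : HasDerivAt (fun t : ℝ => -(t ^ 2)⁻¹) (2 * (y.2 ^ 3)⁻¹) y.2 := by
      have h1 : HasDerivAt (fun t : ℝ => t ^ 2) (2 * y.2) y.2 := by
        simpa using hasDerivAt_pow 2 y.2
      have h2 := (h1.inv (pow_ne_zero 2 hy)).neg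
      have e : 2 * (y.2 ^ 3)⁻¹ = -(-(2 * y.2) / (y.2 ^ 2) ^ 2) := by
        field_simp
      rw [e]
      exact h2
    have e1 : dti (fun z => (-(z.2 ^ 2)⁻¹) * f z) y =
        2 * (y.2 ^ 3)⁻¹ * f y + (-(y.2 ^ 2)⁻¹) * dti f y :=
      dti_mul_time (ζ := fun t => -(t ^ 2)⁻¹) hA (hd 0 y)
    have e2 : dti (fun z => z.2⁻¹ * dti f z) y =
        -(y.2 ^ 2)⁻¹ * dti f y + y.2⁻¹ * dti (dti f) y :=
      dti_mul_time (ζ := fun t => t⁻¹) (hasDerivAt_inv hy) (hd 1 y)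
    have hdA : DifferentiableAt ℝ (fun z : E d × ℝ => (-(z.2 ^ 2)⁻¹) * f z) y := by
      have h1 : DifferentiableAt ℝ (fun z : E d × ℝ => -(z.2 ^ 2)⁻¹) y :=
        hA.differentiableAt.comp y (f := fun z : E d × ℝ => z.2) differentiableAt_snd
      exact h1.mul (hd 0 y)
    have hdB : DifferentiableAt ℝ (fun z : E d × ℝ => z.2⁻¹ * dti f z) y := by
      have h1 : DifferentiableAt ℝ (fun z : E d × ℝ => z.2⁻¹) y :=
        (hasDerivAt_inv hy).differentiableAt.comp y (f := fun z : E d × ℝ => z.2)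
          differentiableAt_snd
      exact h1.mul (hd 1 y)
    rw [dti_add hdA hdB, e1, e2]
    ring
  interval_cases j
  · show |z.2⁻¹ * f z| ≤ _
    rw [abs_mul, abs_inv]
    have h1 := abs_nonneg (tD 0 f z)
    have h2 : 0 ≤ 2 * |z.2|⁻¹ ^ 2 * |tD (0 - 1) f z| := by positivity
    have h3 : 0 ≤ 2 * |z.2|⁻¹ ^ 3 * |tD (0 - 2) f z| := by positivity
    have h4 : |z.2|⁻¹ * |f z| = |z.2|⁻¹ * |tD 0 f z| := rfl
    linarith
  · show |dti (fun z => z.2⁻¹ * f z) z| ≤ _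
    rw [k1 z hz]
    refine (abs_add_le _ _).trans ?_
    rw [abs_mul, abs_mul, abs_neg, abs_inv, abs_inv, abs_pow]
    have h3 : 0 ≤ 2 * |z.2|⁻¹ ^ 3 * |tD (1 - 2) f z| := by positivity
    have h4 : |z.2|⁻¹ * |dti f z| = |z.2|⁻¹ * |tD 1 f z| := rfl
    have h5 : (|z.2| ^ 2)⁻¹ * |f z| ≤ 2 * |z.2|⁻¹ ^ 2 * |tD (1 - 1) f z| := by
      have : (|z.2| ^ 2)⁻¹ * |f z| = |z.2|⁻¹ ^ 2 * |tD (1 - 1) f z| := by
        rw [inv_pow]; rfl
      rw [this]
      have : 0 ≤ |z.2|⁻¹ ^ 2 * |tD (1 - 1) f z| := by positivity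
      linarith
    linarith
  · show |dti (dti (fun z => z.2⁻¹ * f z)) z| ≤ _
    rw [k2 z hz]
    refine (abs_add_le _ _).trans ?_
    have h0 := abs_sub (2 * (z.2 ^ 3)⁻¹ * f z) (2 * (z.2 ^ 2)⁻¹ * dti f z)
    have h1 : |2 * (z.2 ^ 3)⁻¹ * f z| = 2 * |z.2|⁻¹ ^ 3 * |tD (2 - 2) f z| := by
      rw [abs_mul, abs_mul, abs_inv, abs_pow, inv_pow]
      norm_num
      left; rfl
    have h2 : |2 * (z.2 ^ 2)⁻¹ * dti f z| = 2 * |z.2|⁻¹ ^ 2 * |tD (2 - 1) f z| := by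
      rw [abs_mul, abs_mul, abs_inv, abs_pow, inv_pow]
      norm_num
      left; rfl
    have h3 : |z.2⁻¹ * dti (dti f) z| = |z.2|⁻¹ * |tD 2 f z| := by
      rw [abs_mul, abs_inv]; rfl
    rw [h3]
    rw [h1, h2] at h0
    linarith

end Pool.Agent.Lib.MP_ff3fe0_an.SPH
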