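import Mathlib
import Pool.Agent.Lib.MP_ff3fe0_an.Defs
import Pool.Agent.Lib.MP_ff3fe0_an_SPH.FluxA
import Pool.Agent.Lib.MP_ff3fe0_an_SPH.FluxB
import Pool.Agent.Lib.MP_ff3fe0_an_SPH.FluxC

/-!
The energy flux of spherical means through light cones: main estimate.
-/

set_option autoImplicit false
set_option linter.all false

open MeasureTheory Set Filter Topology Metric
open scoped ENNReal NNReal ContDiff

namespace Pool.Agent.Lib.MP_ff3fe0_an.SPH

variable {d : ℕ}

/-- the regularised distance -/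
noncomputable def psi (b : E d) (ε : ℝ) (y : E d) : ℝ := Real.sqrt (‖y - b‖ ^ 2 + ε ^ 2)

lemma psi_contDiff (b : E d) {ε : ℝ} (hε : 0 < ε) : ContDiff ℝ 1 (psi b ε) := by
  have h1 : ContDiff ℝ 1 fun y : E d => ‖y - b‖ ^ 2 + ε ^ 2 :=
    ((contDiff_id.sub contDiff_const).norm_sq ℝ).add contDiff_const
  exact h1.sqrt fun y => by positivity

lemma psi_deriv (b : E d) {ε : ℝ} (hε : 0 < ε) (y : E d) (i : Fin d) :
    fderiv ℝ (psi b ε) y (eb i) = (y i - b i) / psi b ε y := by
  have h0 : 0 < ‖y - b‖ ^ 2 + ε ^ 2 := by positivity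
  have h1 : HasFDerivAt (fun y : E d => ‖y - b‖ ^ 2 + ε ^ 2)
      (2 • (innerSL ℝ (y - b)).comp (ContinuousLinearMap.id ℝ (E d))) y := by
    have h2 : HasFDerivAt (fun y : E d => y - b) (ContinuousLinearMap.id ℝ (E d)) y :=
      (hasFDerivAt_id y).sub_const b
    exact (h2.norm_sq).add_const _
  have h2 := h1.sqrt h0.ne'
  have h3 : fderiv ℝ (psi b ε) y = _ := h2.fderiv
  rw [h3]
  have h4 : (inner ℝ (y - b) (eb i) : ℝ) = y i - b i := by
    simp [eb, EuclideanSpace.inner_single_right]
  simp only [ContinuousLinearMap.smul_apply, ContinuousLinearMap.comp_apply,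
    ContinuousLinearMap.id_apply, innerSL_apply_apply, smul_eq_mul, h4, nsmul_eq_mul]
  unfold psi
  have h5 : Real.sqrt (‖y - b‖ ^ 2 + ε ^ 2) ≠ 0 := (Real.sqrt_pos.2 h0).ne'
  field_simp
  norm_num

lemma psi_grad_le (b : E d) {ε : ℝ} (hε : 0 < ε) (y : E d) :
    ∑ i, (fderiv ℝ (psi b ε) y (eb i)) ^ 2 ≤ 1 := by
  have h0 : 0 < ‖y - b‖ ^ 2 + ε ^ 2 := by positivity
  simp only [psi_deriv b hε]
  simp only [div_pow]
  rw [← Finset.sum_div]
  have h1 : psi b ε y ^ 2 = ‖y - b‖ ^ 2 + ε ^ 2 := Real.sq_sqrt h0.le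
  rw [h1, div_le_one h0]
  have h2 : ‖y - b‖ ^ 2 = ∑ i, (y i - b i) ^ 2 := by
    rw [EuclideanSpace.norm_sq_eq]
    simp
  rw [h2]
  have : 0 ≤ ε ^ 2 := sq_nonneg _
  linarith

/-- The flux estimate for first order systems of the type satisfied by spherical means. -/
theorem cone_abstract (d : ℕ) : ∃ C : ℝ, 0 < C ∧ ∀ (f : E d × ℝ → ℝ) (g : Fin d → E d × ℝ → ℝ)
    (R : ℝ), ContDiff ℝ ∞ f → (∀ i, ContDiff ℝ ∞ (g i)) →
    (∀ z, z ∈ tsupport f → ‖z.1‖ ≤ R + |z.2|) → (∀ i z, z ∈ tsupport (g i) → ‖z.1‖ ≤ R + |z.2|) →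
    (∀ z, ∑ i, dxi i (g i) z = - dti f z) →
    (∀ i z, z.2 ≠ 0 → dxi i f z + dti (g i) z = -(((d : ℝ) - 1) * (z.2⁻¹ * g i z))) →
    ∀ j ≤ 2, ∀ M : ℝ, (∀ t ∈ Icc (1 / 4 : ℝ) 3, ∀ l ≤ j,
      ∫ x, ((tD l f (x, t)) ^ 2 + ∑ i, (tD l (g i) (x, t)) ^ 2) ≤ M) →
    ∀ (b : E d) (τ : ℝ), ∫⁻ y in {y : E d | ‖y - b‖ + τ ∈ Icc (1 / 2 : ℝ) (5 / 2)},
      ENNReal.ofReal (∑ i, (tD j (g i) (y, ‖y - b‖ + τ) -
        (y i - b i) / ‖y - b‖ * tD j f (y, ‖y - b‖ + τ)) ^ 2) ≤ ENNReal.ofReal (C * M) := by
  classical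
  let ζb : ContDiffBump (3 / 2 : ℝ) := ⟨1, 9 / 8, by norm_num, by norm_num⟩
  let χb : ContDiffBump (3 / 2 : ℝ) := ⟨9 / 8, 5 / 4, by norm_num, by norm_num⟩
  obtain ⟨ζ, hζ⟩ : ∃ ζ : ℝ → ℝ, ζ = fun t => ζb t := ⟨_, rfl⟩
  obtain ⟨χ, hχ⟩ : ∃ χ : ℝ → ℝ, χ = fun t => χb t := ⟨_, rfl⟩
  have ζc : ContDiff ℝ ∞ ζ := by rw [hζ]; exact ζb.contDiff
  have ζ0 : ∀ t, 0 ≤ ζ t := fun t => by rw [hζ]; exact ζb.nonneg
  have ζ1 : ∀ t, ζ t ≤ 1 := fun t => by rw [hζ]; exact ζb.le_one
  have ζd : ∀ t, HasDerivAt ζ (deriv ζ t) t := fun t =>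
    ((ζc.differentiable (by simp)) t).hasDerivAt
  have ζdc : Continuous (deriv ζ) := ζc.continuous_deriv (by simp)
  obtain ⟨L, hL⟩ : ∃ L : ℝ, ∀ t, |deriv ζ t| ≤ L := by
    have hcs : HasCompactSupport ζ := by rw [hζ]; exact ζb.hasCompactSupport
    obtain ⟨L, hL⟩ := hcs.deriv.exists_bound_of_continuous ζdc
    exact ⟨L, fun t => by simpa using hL t⟩
  have hL0 : 0 ≤ L := (abs_nonneg _).trans (hL 0)
  have ζs : ∀ t, t ∉ closedBall (3 / 2 : ℝ) (9 / 8) → ζ t = 0 ∧ deriv ζ t = 0 := by
    intro t ht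
    have h1 : tsupport ζ = closedBall (3 / 2 : ℝ) (9 / 8) := by
      rw [hζ]; exact ζb.tsupport_eq
    have h2 : t ∉ tsupport ζ := by rwa [h1]
    refine ⟨image_eq_zero_of_notMem_tsupport h2, ?_⟩
    have h3 : ζ =ᶠ[𝓝 t] fun _ => (0 : ℝ) := notMem_tsupport_iff_eventuallyEq.1 h2
    rw [h3.deriv_eq]
    simp
  have χ0 : ∀ t, 0 ≤ χ t := fun t => by rw [hχ]; exact χb.nonneg
  have χ1 : ∀ t, χ t ≤ 1 := fun t => by rw [hχ]; exact χb.le_one
  have χone : ∀ t, t ∈ closedBall (3 / 2 : ℝ) (9 / 8) → χ t = 1 := fun t ht => by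
    rw [hχ]; exact χb.one_of_mem_closedBall ht
  have χb' : ∀ t, χ t ≠ 0 → t ∈ ball (3 / 2 : ℝ) (5 / 4) := by
    intro t ht
    rw [hχ] at ht
    have h2 : Function.support (fun t => χb t) = ball (3 / 2 : ℝ) (5 / 4) := χb.support_eq
    rw [← h2]
    exact ht
  have χs : ∀ t, χ t ≠ 0 → t ∈ Icc (1 / 4 : ℝ) 3 := by
    intro t ht
    have h1 := χb' t ht
    rw [mem_ball, Real.dist_eq, abs_lt] at h1
    constructor <;> linarith [h1.1, h1.2]
  have χc : Continuous χ := by rw [hχ]; exact χb.continuous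
  have χcs : HasCompactSupport χ := by rw [hχ]; exact χb.hasCompactSupport
  set C0 : ℝ := L + 200 * d with hC0
  have hC00 : 0 ≤ C0 := by positivity
  refine ⟨100 * (C0 + 1), by positivity, ?_⟩
  intro f g R hf hg sf sg hdiv hgrad j hj M hM b τ
  have hM0 : 0 ≤ M := by
    refine le_trans ?_ (hM 1 (by constructor <;> norm_num) 0 (Nat.zero_le _))
    exact integral_nonneg fun x => add_nonneg (sq_nonneg _) (Finset.sum_nonneg fun i _ =>
      sq_nonneg _)
  -- the fields
  set p : E d × ℝ → ℝ := fun z => ζ z.2 * tD j f z with hp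
  set P : Fin d → E d × ℝ → ℝ := fun i z => -(ζ z.2 * tD j (g i) z) with hP
  have cζ : ContDiff ℝ ∞ fun z : E d × ℝ => ζ z.2 := ζc.comp contDiff_snd
  have hpc : ContDiff ℝ ∞ p := cζ.mul (tD_contDiff j hf)
  have hPc : ∀ i, ContDiff ℝ ∞ (P i) := fun i => (cζ.mul (tD_contDiff j (hg i))).neg
  have hone : (1 : WithTop ℕ∞) ≤ ((⊤ : ℕ∞) : WithTop ℕ∞) :=
    WithTop.coe_le_coe.2 (le_top : (1 : ℕ∞) ≤ ⊤)
  -- a compact set containing all supports
  set Kc : Set (E d × ℝ) := closedBall (0 : E d) (|R| + 3) ×ˢ closedBall (3 / 2 : ℝ) (5 / 4)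
    with hKc
  have hKcc : IsCompact Kc := (isCompact_closedBall _ _).prod (isCompact_closedBall _ _)
  have hball : ∀ z : E d × ℝ, z.2 ∈ closedBall (3 / 2 : ℝ) (5 / 4) → ‖z.1‖ ≤ R + |z.2| →
      z ∈ Kc := by
    intro z h1 h2
    refine ⟨?_, h1⟩
    rw [mem_closedBall_zero_iff]
    rw [mem_closedBall, Real.dist_eq, abs_le] at h1
    have h3 : |z.2| ≤ 3 := by rw [abs_le]; constructor <;> linarith [h1.1, h1.2]
    have := le_abs_self R
    linarith
  have hsub : closedBall (3 / 2 : ℝ) (9 / 8) ⊆ closedBall (3 / 2 : ℝ) (5 / 4) :=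
    closedBall_subset_closedBall (by norm_num)
  have sfj : ∀ l, ∀ z, tD l f z ≠ 0 → ‖z.1‖ ≤ R + |z.2| := fun l z hz =>
    sf z (tD_tsupport l f (subset_tsupport _ hz))
  have sgj : ∀ l i, ∀ z, tD l (g i) z ≠ 0 → ‖z.1‖ ≤ R + |z.2| := fun l i z hz =>
    sg i z (tD_tsupport l (g i) (subset_tsupport _ hz))
  have cp : HasCompactSupport p := by
    refine HasCompactSupport.intro hKcc fun z hz => ?_
    by_contra h
    have h1 : ζ z.2 ≠ 0 := left_ne_zero_of_mul h
    have h2 : tD j f z ≠ 0 := right_ne_zero_of_mul h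
    refine hz (hball z (hsub ?_) (sfj j z h2))
    by_contra h3
    exact h1 (ζs _ h3).1
  have cP : ∀ i, HasCompactSupport (P i) := by
    intro i
    refine HasCompactSupport.intro hKcc fun z hz => ?_
    by_contra h
    have h0 : ζ z.2 * tD j (g i) z ≠ 0 := by
      intro h0
      apply h
      show -(ζ z.2 * tD j (g i) z) = 0
      rw [h0, neg_zero]
    have h1 : ζ z.2 ≠ 0 := left_ne_zero_of_mul h0
    have h2 : tD j (g i) z ≠ 0 := right_ne_zero_of_mul h0
    refine hz (hball z (hsub ?_) (sgj j i z h2))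
    by_contra h3
    exact h1 (ζs _ h3).1
  -- the sources
  have dfl : ∀ l, Differentiable ℝ (tD l f) := fun l => (tD_contDiff l hf).differentiable (by simp)
  have dgl : ∀ l i, Differentiable ℝ (tD l (g i)) := fun l i =>
    (tD_contDiff l (hg i)).differentiable (by simp)
  have hdivj : ∀ z, ∑ i, dxi i (tD j (g i)) z = - dti (tD j f) z := by
    intro z
    have h1 : ∀ i, dxi i (tD j (g i)) = tD j (dxi i (g i)) := fun i => dxi_tD i j (hg i)
    have h2 : (fun z => ∑ i, tD j (dxi i (g i)) z) = fun z => - tD j (dti f) z := by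
      rw [← tD_sum j Finset.univ (fun i _ => dxi_contDiff i (hg i)), ← tD_neg]
      congr 1
      funext z
      exact hdiv z
    have h3 := congrFun h2 z
    simp only [h1]
    rw [h3, tD_comm]
    rfl
  have hgradj : ∀ i z, z.2 ≠ 0 → dxi i (tD j f) z + dti (tD j (g i)) z =
      -(((d : ℝ) - 1) * tD j (fun z => z.2⁻¹ * g i z) z) := by
    intro i z hz
    have h1 : dxi i (tD j f) = tD j (dxi i f) := dxi_tD i j hf
    have h2 : dti (tD j (g i)) = tD j (dti (g i)) := by
      rw [tD_comm]; rfl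
    have h3 : (fun z => dxi i f z + dti (g i) z) =ᶠ[𝓝 z]
        fun z => -(((d : ℝ) - 1) * (z.2⁻¹ * g i z)) := by
      filter_upwards [continuous_snd.continuousAt.eventually_ne hz] with w hw
      exact hgrad i w hw
    have h4 := (tD_congr j h3).eq_of_nhds
    rw [tD_add j (dxi_contDiff i hf) (dti_contDiff (hg i))] at h4
    rw [h1, h2]
    have h5 : tD j (fun z : E d × ℝ => -(((d : ℝ) - 1) * (z.2⁻¹ * g i z))) =
        fun z => -(((d : ℝ) - 1) * tD j (fun z => z.2⁻¹ * g i z) z) := by
      rw [tD_neg]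
      have h6 : ∀ (l : ℕ) (c : ℝ) (F : E d × ℝ → ℝ), tD l (fun z => c * F z) =
          fun z => c * tD l F z := by
        intro l c F
        induction l with
        | zero => rfl
        | succ l ih =>
          show dti (tD l (fun z => c * F z)) = _
          rw [ih]
          funext z
          show fderiv ℝ (fun z => c * tD l F z) z _ = _
          have : (fun z => c * tD l F z) = c • tD l F := rfl
          rw [this, fderiv_const_smul_field]
          rfl
      rw [h6]
    rw [h5] at h4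
    exact h4
  have hF : ∀ z, dti p z - ∑ i, dxi i (P i) z = deriv ζ z.2 * tD j f z := by
    intro z
    have h1 : dti p z = deriv ζ z.2 * tD j f z + ζ z.2 * dti (tD j f) z :=
      dti_mul_time (ζd z.2) (dfl j z)
    have h2 : ∀ i, dxi i (P i) z = -(ζ z.2 * dxi i (tD j (g i)) z) := by
      intro i
      have h3 : dxi i (fun z => ζ z.2 * tD j (g i) z) z = ζ z.2 * dxi i (tD j (g i)) z :=
        dxi_mul_time i (ζd z.2) (dgl j i z)
      have h4 : dxi i (P i) z = - dxi i (fun z => ζ z.2 * tD j (g i) z) z := by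
        show fderiv ℝ (fun z => -(ζ z.2 * tD j (g i) z)) z _ = _
        rw [fderiv_fun_neg]; rfl
      rw [h4, h3]
    rw [h1]
    simp only [h2]
    rw [Finset.sum_neg_distrib, ← Finset.mul_sum, hdivj z]
    ring
  have hK : ∀ i z, z.2 ≠ 0 → dti (P i) z - dxi i p z = -(deriv ζ z.2 * tD j (g i) z) +
      ζ z.2 * (((d : ℝ) - 1) * tD j (fun z => z.2⁻¹ * g i z) z) := by
    intro i z hz
    have h1 : dxi i p z = ζ z.2 * dxi i (tD j f) z := dxi_mul_time i (ζd z.2) (dfl j z)
    have h3 : dti (fun z => ζ z.2 * tD j (g i) z) z =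
        deriv ζ z.2 * tD j (g i) z + ζ z.2 * dti (tD j (g i)) z :=
      dti_mul_time (ζd z.2) (dgl j i z)
    have h4 : dti (P i) z = - dti (fun z => ζ z.2 * tD j (g i) z) z := by
      show fderiv ℝ (fun z => -(ζ z.2 * tD j (g i) z)) z _ = _
      rw [fderiv_fun_neg]; rfl
    rw [h1, h4, h3]
    have h5 := hgradj i z hz
    have h6 : dti (tD j (g i)) z = -(((d : ℝ) - 1) * tD j (fun z => z.2⁻¹ * g i z) z) -
        dxi i (tD j f) z := by linarith
    rw [h6]
    ring
  -- the comparison function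
  set Gs : E d × ℝ → ℝ := fun z => ∑ l ∈ Finset.range (j + 1),
    ((tD l f z) ^ 2 + ∑ i, (tD l (g i) z) ^ 2) with hGs
  have hGs0 : ∀ z, 0 ≤ Gs z := fun z => Finset.sum_nonneg fun l _ =>
    add_nonneg (sq_nonneg _) (Finset.sum_nonneg fun i _ => sq_nonneg _)
  have hGsc : Continuous Gs := by
    refine continuous_finset_sum _ fun l _ => ?_
    refine ((tD_contDiff l hf).continuous.pow 2).add (continuous_finset_sum _ fun i _ => ?_)
    exact (tD_contDiff l (hg i)).continuous.pow 2
  have hterm : ∀ l ≤ j, ∀ z, (tD l f z) ^ 2 + ∑ i, (tD l (g i) z) ^ 2 ≤ Gs z := by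
    intro l hl z
    exact Finset.single_le_sum (f := fun l => (tD l f z) ^ 2 + ∑ i, (tD l (g i) z) ^ 2)
      (fun l _ => add_nonneg (sq_nonneg _) (Finset.sum_nonneg fun i _ => sq_nonneg _))
      (Finset.mem_range.2 (by omega))
  have hsumg : ∀ l ≤ j, ∀ z, ∑ i, (tD l (g i) z) ^ 2 ≤ Gs z := fun l hl z =>
    le_trans (le_add_of_nonneg_left (sq_nonneg _)) (hterm l hl z)
  have hf2 : ∀ z, (tD j f z) ^ 2 ≤ Gs z := fun z =>
    le_trans (le_add_of_nonneg_right (Finset.sum_nonneg fun i _ => sq_nonneg _))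
      (hterm j le_rfl z)
  set Hs : E d × ℝ → ℝ := fun z => χ z.2 * ((L + (L + 200 * d)) * Gs z) with hHs
  have hHsc : Continuous Hs := (χc.comp continuous_snd).mul (continuous_const.mul hGsc)
  have hHss : HasCompactSupport Hs := by
    refine HasCompactSupport.intro hKcc fun z hz => ?_
    by_contra h
    have h1 : χ z.2 ≠ 0 := left_ne_zero_of_mul h
    have h2 : Gs z ≠ 0 := right_ne_zero_of_mul (right_ne_zero_of_mul h)
    have h3 : z.2 ∈ closedBall (3 / 2 : ℝ) (5 / 4) := ball_subset_closedBall (χb' _ h1)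
    refine hz (hball z h3 ?_)
    obtain ⟨l, hl, hl2⟩ := Finset.exists_ne_zero_of_sum_ne_zero h2
    by_cases hfl : tD l f z = 0
    · rw [hfl] at hl2
      have h4 : ∑ i, (tD l (g i) z) ^ 2 ≠ 0 := by simpa using hl2
      obtain ⟨i, -, hi⟩ := Finset.exists_ne_zero_of_sum_ne_zero h4
      exact sgj l i z (fun h => hi (by rw [h]; ring))
    · exact sfj l z hfl
  have hpt : ∀ z, |p z| * |dti p z - ∑ i, dxi i (P i) z| +
      ∑ i, |P i z| * |dti (P i) z - dxi i p z| ≤ Hs z := by
    intro z
    by_cases hz : z.2 ∈ closedBall (3 / 2 : ℝ) (9 / 8)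
    · have hz2 : 3 / 8 ≤ z.2 := by
        rw [mem_closedBall, Real.dist_eq, abs_le] at hz
        linarith [hz.1]
      have hz0 : z.2 ≠ 0 := by linarith
      have hzi : |z.2|⁻¹ ≤ 4 := by
        rw [abs_of_pos (by linarith)]
        rw [inv_le_comm₀ (by linarith) (by norm_num)]
        linarith
      have hzi0 : 0 ≤ |z.2|⁻¹ := by positivity
      have hG := hGs0 z
      have e1 : |p z| * |dti p z - ∑ i, dxi i (P i) z| ≤ L * Gs z := by
        rw [hF z]
        simp only [hp, abs_mul, abs_of_nonneg (ζ0 z.2)]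
        have h1 : |tD j f z| * |tD j f z| = (tD j f z) ^ 2 := by rw [← abs_mul, abs_of_nonneg (mul_self_nonneg _)]; ring
        calc ζ z.2 * |tD j f z| * (|deriv ζ z.2| * |tD j f z|)
            = (ζ z.2 * |deriv ζ z.2|) * (tD j f z) ^ 2 := by rw [← h1]; ring
          _ ≤ L * (tD j f z) ^ 2 := by
              refine mul_le_mul_of_nonneg_right ?_ (sq_nonneg _)
              calc ζ z.2 * |deriv ζ z.2| ≤ 1 * L :=
                    mul_le_mul (ζ1 _) (hL _) (abs_nonneg _) zero_le_one
                _ = L := one_mul L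
          _ ≤ L * Gs z := mul_le_mul_of_nonneg_left (hf2 z) hL0
      have e2 : ∀ i, |P i z| * |dti (P i) z - dxi i p z| ≤
          (L + 100 * d) * (tD j (g i) z) ^ 2 + 20 * d * (tD (j - 1) (g i) z) ^ 2 +
            80 * d * (tD (j - 2) (g i) z) ^ 2 := by
        intro i
        rw [hK i z hz0]
        set a := |tD j (g i) z| with ha
        set a1 := |tD (j - 1) (g i) z| with ha1
        set a2 := |tD (j - 2) (g i) z| with ha2
        have ha0 : 0 ≤ a := abs_nonneg _
        have ha10 : 0 ≤ a1 := abs_nonneg _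
        have ha20 : 0 ≤ a2 := abs_nonneg _
        have q1 : (tD j (g i) z) ^ 2 = a ^ 2 := (sq_abs _).symm
        have q2 : (tD (j - 1) (g i) z) ^ 2 = a1 ^ 2 := (sq_abs _).symm
        have q3 : (tD (j - 2) (g i) z) ^ 2 = a2 ^ 2 := (sq_abs _).symm
        have b1 : |P i z| ≤ a := by
          simp only [hP, abs_neg, abs_mul, abs_of_nonneg (ζ0 z.2)]
          exact mul_le_of_le_one_left (abs_nonneg _) (ζ1 _)
        have b2 := tD_inv (hg i) hz0 j hj
        have b3 : |tD j (fun z => z.2⁻¹ * g i z) z| ≤ 4 * a + 32 * a1 + 128 * a2 := by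
          refine b2.trans ?_
          have c1 : |z.2|⁻¹ * a ≤ 4 * a := mul_le_mul_of_nonneg_right hzi ha0
          have c2 : |z.2|⁻¹ ^ 2 ≤ 16 := by
            calc |z.2|⁻¹ ^ 2 ≤ 4 ^ 2 := pow_le_pow_left₀ hzi0 hzi 2
              _ = 16 := by norm_num
          have c3 : |z.2|⁻¹ ^ 3 ≤ 64 := by
            calc |z.2|⁻¹ ^ 3 ≤ 4 ^ 3 := pow_le_pow_left₀ hzi0 hzi 3
              _ = 64 := by norm_num
          have c4 : 2 * |z.2|⁻¹ ^ 2 * a1 ≤ 32 * a1 :=
            mul_le_mul_of_nonneg_right (by linarith) ha10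
          have c5 : 2 * |z.2|⁻¹ ^ 3 * a2 ≤ 128 * a2 :=
            mul_le_mul_of_nonneg_right (by linarith) ha20
          linarith
        have hd1 : |(d : ℝ) - 1| ≤ d := by
          rw [abs_le]
          constructor
          · rcases Nat.eq_zero_or_pos d with h | h
            · -- no indices
              subst h
              exact i.elim0
            · have : (1 : ℝ) ≤ d := by exact_mod_cast h
              linarith
          · linarith
        have b4 : |-(deriv ζ z.2 * tD j (g i) z) +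
            ζ z.2 * (((d : ℝ) - 1) * tD j (fun z => z.2⁻¹ * g i z) z)| ≤
            L * a + d * (4 * a + 32 * a1 + 128 * a2) := by
          refine (abs_add_le _ _).trans (add_le_add ?_ ?_)
          · rw [abs_neg, abs_mul]
            exact mul_le_mul_of_nonneg_right (hL _) ha0
          · rw [abs_mul, abs_mul, abs_of_nonneg (ζ0 z.2)]
            calc ζ z.2 * (|(d : ℝ) - 1| * |tD j (fun z => z.2⁻¹ * g i z) z|)
                ≤ 1 * (d * (4 * a + 32 * a1 + 128 * a2)) :=
                  mul_le_mul (ζ1 _) (mul_le_mul hd1 b3 (abs_nonneg _) (Nat.cast_nonneg _))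
                    (by positivity) zero_le_one
              _ = d * (4 * a + 32 * a1 + 128 * a2) := one_mul _
        have hdd : (0 : ℝ) ≤ d := Nat.cast_nonneg _
        calc |P i z| * |-(deriv ζ z.2 * tD j (g i) z) +
            ζ z.2 * (((d : ℝ) - 1) * tD j (fun z => z.2⁻¹ * g i z) z)|
            ≤ a * (L * a + d * (4 * a + 32 * a1 + 128 * a2)) :=
              mul_le_mul b1 b4 (abs_nonneg _) ha0
          _ ≤ (L + 100 * d) * (tD j (g i) z) ^ 2 + 20 * d * (tD (j - 1) (g i) z) ^ 2 +
            80 * d * (tD (j - 2) (g i) z) ^ 2 := by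
              rw [q1, q2, q3]
              have s1 : 0 ≤ (d : ℝ) * (a - a1) ^ 2 := mul_nonneg hdd (sq_nonneg _)
              have s2 : 0 ≤ (d : ℝ) * (a - a2) ^ 2 := mul_nonneg hdd (sq_nonneg _)
              nlinarith [s1, s2, mul_nonneg hdd (sq_nonneg a), mul_nonneg hdd (sq_nonneg a1),
                mul_nonneg hdd (sq_nonneg a2)]
      have e3 : ∑ i, |P i z| * |dti (P i) z - dxi i p z| ≤ (L + 200 * d) * Gs z := by
        refine (Finset.sum_le_sum fun i _ => e2 i).trans ?_
        rw [Finset.sum_add_distrib, Finset.sum_add_distrib, ← Finset.mul_sum, ← Finset.mul_sum,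
          ← Finset.mul_sum]
        have g1 := hsumg j le_rfl z
        have g2 := hsumg (j - 1) (by omega) z
        have g3 := hsumg (j - 2) (by omega) z
        have hdd : (0 : ℝ) ≤ d := Nat.cast_nonneg _
        have k1 : (L + 100 * d) * ∑ i, (tD j (g i) z) ^ 2 ≤ (L + 100 * d) * Gs z :=
          mul_le_mul_of_nonneg_left g1 (by positivity)
        have k2 : 20 * (d : ℝ) * ∑ i, (tD (j - 1) (g i) z) ^ 2 ≤ 20 * d * Gs z :=
          mul_le_mul_of_nonneg_left g2 (by positivity)
        have k3 : 80 * (d : ℝ) * ∑ i, (tD (j - 2) (g i) z) ^ 2 ≤ 80 * d * Gs z :=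
          mul_le_mul_of_nonneg_left g3 (by positivity)
        nlinarith
      simp only [hHs, χone z.2 hz, one_mul]
      nlinarith
    · obtain ⟨h1, h2⟩ := ζs z.2 hz
      have h3 : p z = 0 := by simp only [hp, h1, zero_mul]
      have h4 : ∀ i, P i z = 0 := fun i => by simp only [hP, h1, zero_mul, neg_zero]
      simp only [h3, h4, abs_zero, zero_mul, Finset.sum_const_zero, add_zero]
      exact mul_nonneg (χ0 _) (mul_nonneg (by positivity) (hGs0 z))
  have hint : ∫ z, Hs z ≤ (L + (L + 200 * d)) * (3 * M) * 5 := by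
    have hH : Integrable Hs (volume : Measure (E d × ℝ)) :=
      hHsc.integrable_of_hasCompactSupport hHss
    have h1 : ∫ z, Hs z = ∫ t : ℝ, ∫ x : E d, Hs (x, t) := by
      rw [Measure.volume_eq_prod]
      exact integral_prod_symm _ hH
    rw [h1]
    have h2 : ∀ t : ℝ, ∫ x : E d, Hs (x, t) ≤
        (Icc (1 / 4 : ℝ) 3).indicator (fun _ => (L + (L + 200 * d)) * (3 * M)) t := by
      intro t
      by_cases ht : χ t = 0
      · have h3 : ∀ x : E d, Hs (x, t) = 0 := fun x => by simp only [hHs, ht, zero_mul]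
        simp only [h3, integral_zero]
        exact indicator_nonneg (fun _ _ => by positivity) t
      · have ht' := χs t ht
        rw [indicator_of_mem ht']
        have h4 : ∫ x : E d, Hs (x, t) = χ t * ((L + (L + 200 * d)) * ∫ x : E d, Gs (x, t)) := by
          simp only [hHs]
          rw [integral_const_mul, integral_const_mul]
        have h5 : ∫ x : E d, Gs (x, t) ≤ 3 * M := by
          have hint : ∀ l ∈ Finset.range (j + 1), Integrable (fun x : E d =>
              (tD l f (x, t)) ^ 2 + ∑ i, (tD l (g i) (x, t)) ^ 2) := by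
            intro l _
            refine Continuous.integrable_of_hasCompactSupport ?_ ?_
            · refine (((tD_contDiff l hf).continuous.comp (Continuous.prodMk_left t)).pow 2).add
                (continuous_finset_sum _ fun i _ => ?_)
              exact ((tD_contDiff l (hg i)).continuous.comp (Continuous.prodMk_left t)).pow 2
            · refine HasCompactSupport.intro (isCompact_closedBall (0 : E d) (R + |t|))
                fun x hx => ?_
              rw [mem_closedBall_zero_iff] at hx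
              have q1 : tD l f (x, t) = 0 := by
                by_contra h
                exact hx (sfj l (x, t) h)
              have q2 : ∀ i, tD l (g i) (x, t) = 0 := by
                intro i
                by_contra h
                exact hx (sgj l i (x, t) h)
              simp [q1, q2]
          simp only [hGs]
          rw [integral_finset_sum _ hint]
          calc ∑ l ∈ Finset.range (j + 1), ∫ x : E d,
              ((tD l f (x, t)) ^ 2 + ∑ i, (tD l (g i) (x, t)) ^ 2)
              ≤ ∑ l ∈ Finset.range (j + 1), M := Finset.sum_le_sum fun l hl =>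
                hM t ht' l (by have := Finset.mem_range.1 hl; omega)
            _ = (j + 1) * M := by simp
            _ ≤ 3 * M := by
                refine mul_le_mul_of_nonneg_right ?_ hM0
                have : (j : ℝ) ≤ 2 := by exact_mod_cast hj
                linarith
        rw [h4]
        have h6 : 0 ≤ ∫ x : E d, Gs (x, t) := integral_nonneg fun x => hGs0 _
        calc χ t * ((L + (L + 200 * d)) * ∫ x : E d, Gs (x, t))
            ≤ 1 * ((L + (L + 200 * d)) * (3 * M)) :=
              mul_le_mul (χ1 t) (mul_le_mul_of_nonneg_left h5 (by positivity)) (by positivity)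
                zero_le_one
          _ = _ := one_mul _
    calc ∫ t : ℝ, ∫ x : E d, Hs (x, t)
        ≤ ∫ t : ℝ, (Icc (1 / 4 : ℝ) 3).indicator
            (fun _ => (L + (L + 200 * d)) * (3 * M)) t := by
          refine integral_mono_of_nonneg (Filter.Eventually.of_forall fun t =>
            integral_nonneg fun x => mul_nonneg (χ0 _) (mul_nonneg (by positivity) (hGs0 _)))
            ?_ (Filter.Eventually.of_forall h2)
          exact (integrable_indicator_iff measurableSet_Icc).2 (by
            refine integrableOn_const (by simp) )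
      _ = (11 / 4) * ((L + (L + 200 * d)) * (3 * M)) := by
          rw [integral_indicator measurableSet_Icc, setIntegral_const, smul_eq_mul]
          congr 1
          simp [Measure.real]
          norm_num
      _ ≤ (L + (L + 200 * d)) * (3 * M) * 5 := by
          have : 0 ≤ (L + (L + 200 * (d : ℝ))) * (3 * M) := by positivity
          linarith
  -- flux for the regularised cone
  have hflux : ∀ ε : ℝ, 0 < ε → ∫⁻ y : E d, ENNReal.ofReal
      (∑ i, (P i (y, psi b ε y + τ) + p (y, psi b ε y + τ) *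
        ((y i - b i) / psi b ε y)) ^ 2) ≤ ENNReal.ofReal (100 * (C0 + 1) * M) := by
    intro ε hε
    have h1 := flux p P (hpc.of_le hone) (fun i => (hPc i).of_le hone) cp cP (psi b ε)
      (psi_contDiff b hε) (psi_grad_le b hε) τ
    simp only [psi_deriv b hε] at h1
    have h2 : ∫ z, (|p z| * |dti p z - ∑ i, dxi i (P i) z| +
        ∑ i, |P i z| * |dti (P i) z - dxi i p z|) ≤ ∫ z, Hs z := by
      refine integral_mono_of_nonneg (Filter.Eventually.of_forall fun z => ?_)
        (hHsc.integrable_of_hasCompactSupport hHss) (Filter.Eventually.of_forall hpt)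
      exact add_nonneg (by positivity) (Finset.sum_nonneg fun i _ => by positivity)
    have hcont : Continuous fun y : E d => ∑ i, (P i (y, psi b ε y + τ) +
        p (y, psi b ε y + τ) * ((y i - b i) / psi b ε y)) ^ 2 := by
      have hψc : Continuous (psi b ε) := (psi_contDiff b hε).continuous
      have hψp : ∀ y, psi b ε y ≠ 0 := fun y => (Real.sqrt_pos.2 (by positivity)).ne'
      have hgr : Continuous fun y : E d => ((y, psi b ε y + τ) : E d × ℝ) :=
        continuous_id.prodMk (hψc.add continuous_const)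
      refine continuous_finset_sum _ fun i _ => ?_
      refine (((hPc i).continuous.comp hgr).add ((hpc.continuous.comp hgr).mul ?_)).pow 2
      refine Continuous.div ?_ hψc hψp
      exact ((pr i).continuous).sub continuous_const
    have hcs : HasCompactSupport fun y : E d => ∑ i, (P i (y, psi b ε y + τ) +
        p (y, psi b ε y + τ) * ((y i - b i) / psi b ε y)) ^ 2 := by
      refine HasCompactSupport.intro (isCompact_closedBall (0 : E d) (|R| + 3)) fun y hy => ?_
      have hy' : ∀ t : ℝ, ((y, t) : E d × ℝ) ∉ Kc := fun t ht => hy ht.1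
      have q1 : ∀ t, p (y, t) = 0 := by
        intro t
        by_contra h
        have h1 : ζ t ≠ 0 := left_ne_zero_of_mul h
        have h2 : tD j f (y, t) ≠ 0 := right_ne_zero_of_mul h
        refine hy' t (hball (y, t) (hsub ?_) (sfj j _ h2))
        by_contra h3
        exact h1 (ζs _ h3).1
      have q2 : ∀ i t, P i (y, t) = 0 := by
        intro i t
        by_contra h
        have h0 : ζ t * tD j (g i) (y, t) ≠ 0 := by
          intro h0
          apply h
          show -(ζ t * tD j (g i) (y, t)) = 0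
          rw [h0, neg_zero]
        have h1 : ζ t ≠ 0 := left_ne_zero_of_mul h0
        have h2 : tD j (g i) (y, t) ≠ 0 := right_ne_zero_of_mul h0
        refine hy' t (hball (y, t) (hsub ?_) (sgj j i _ h2))
        by_contra h3
        exact h1 (ζs _ h3).1
      simp [q1, q2]
    rw [← ofReal_integral_eq_lintegral_ofReal (hcont.integrable_of_hasCompactSupport hcs)
      (Filter.Eventually.of_forall fun y => Finset.sum_nonneg fun i _ => sq_nonneg _)]
    refine ENNReal.ofReal_le_ofReal ?_
    have h3 : ∫ y : E d, ∑ i, (P i (y, psi b ε y + τ) +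
        p (y, psi b ε y + τ) * ((y i - b i) / psi b ε y)) ^ 2 ≤
        2 * ((L + (L + 200 * d)) * (3 * M) * 5) := by linarith
    refine h3.trans ?_
    have h4 : (0:ℝ) ≤ (d : ℝ) * M := by positivity
    have h5 : (0:ℝ) ≤ L * M := by positivity
    simp only [hC0]
    nlinarith
  -- Fatou
  set εn : ℕ → ℝ := fun n => 1 / ((n : ℝ) + 1) with hεn
  have hεp : ∀ n, 0 < εn n := fun n => by positivity
  have hεt : Tendsto εn atTop (𝓝 0) := tendsto_one_div_add_atTop_nhds_zero_nat
  set Fn : ℕ → E d → ℝ≥0∞ := fun n y => ENNReal.ofReal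
      (∑ i, (P i (y, psi b (εn n) y + τ) + p (y, psi b (εn n) y + τ) *
        ((y i - b i) / psi b (εn n) y)) ^ 2) with hFn
  have hFm : ∀ n, Measurable (Fn n) := by
    intro n
    have hψc : Continuous (psi b (εn n)) := (psi_contDiff b (hεp n)).continuous
    have hψp : ∀ y, psi b (εn n) y ≠ 0 := fun y =>
      (Real.sqrt_pos.2 (by have := hεp n; positivity)).ne'
    have hgr : Continuous fun y : E d => ((y, psi b (εn n) y + τ) : E d × ℝ) :=
      continuous_id.prodMk (hψc.add continuous_const)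
    refine (ENNReal.continuous_ofReal.comp (continuous_finset_sum _ fun i _ => ?_)).measurable
    refine (((hPc i).continuous.comp hgr).add ((hpc.continuous.comp hgr).mul ?_)).pow 2
    refine Continuous.div ?_ hψc hψp
    exact ((pr i).continuous).sub continuous_const
  have hfatou : ∫⁻ y, liminf (fun n => Fn n y) atTop ≤ ENNReal.ofReal (100 * (C0 + 1) * M) := by
    refine (lintegral_liminf_le hFm).trans ?_
    refine liminf_le_of_frequently_le' (Filter.Frequently.of_forall fun n => ?_)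
    exact hflux (εn n) (hεp n)
  refine le_trans ?_ hfatou
  -- pointwise limit
  rw [← lintegral_indicator (by
    have : {y : E d | ‖y - b‖ + τ ∈ Icc (1 / 2 : ℝ) (5 / 2)} =
      (fun y : E d => ‖y - b‖ + τ) ⁻¹' Icc (1 / 2 : ℝ) (5 / 2) := rfl
    rw [this]
    exact (Continuous.measurable (by fun_prop)) measurableSet_Icc)]
  by_cases hd0 : d = 0
  · -- zero dimensional case
    subst hd0
    refine lintegral_mono fun y => ?_
    by_cases hy : y ∈ {y : E 0 | ‖y - b‖ + τ ∈ Icc (1 / 2 : ℝ) (5 / 2)}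
    · rw [indicator_of_mem hy]
      simp
    · rw [indicator_of_notMem hy]
      exact zero_le
  have hne : ∀ᵐ y : E d, y ≠ b := by
    haveI : Nontrivial (E d) := by
      haveI : Nonempty (Fin d) := ⟨⟨0, Nat.pos_of_ne_zero hd0⟩⟩
      exact inferInstance
    have : (volume : Measure (E d)) {b} = 0 := measure_singleton b
    exact (measure_eq_zero_iff_ae_notMem.1 this)
  refine lintegral_mono_ae ?_
  filter_upwards [hne] with y hyb
  by_cases hy : y ∈ {y : E d | ‖y - b‖ + τ ∈ Icc (1 / 2 : ℝ) (5 / 2)}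
  · rw [indicator_of_mem hy]
    have hyn : 0 < ‖y - b‖ := norm_pos_iff.2 (sub_ne_zero.2 hyb)
    have hψt : Tendsto (fun n => psi b (εn n) y) atTop (𝓝 ‖y - b‖) := by
      have h1 : Tendsto (fun n => Real.sqrt (‖y - b‖ ^ 2 + (εn n) ^ 2)) atTop
          (𝓝 (Real.sqrt (‖y - b‖ ^ 2 + 0 ^ 2))) :=
        (Real.continuous_sqrt.tendsto _).comp (tendsto_const_nhds.add (hεt.pow 2))
      have h2 : Real.sqrt (‖y - b‖ ^ 2 + 0 ^ 2) = ‖y - b‖ := by
        rw [zero_pow two_ne_zero, add_zero, Real.sqrt_sq hyn.le]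
      rw [h2] at h1
      exact h1
    have hgt : Tendsto (fun n => ((y, psi b (εn n) y + τ) : E d × ℝ)) atTop
        (𝓝 (y, ‖y - b‖ + τ)) :=
      tendsto_const_nhds.prodMk_nhds (hψt.add_const τ)
    have hlim : Tendsto (fun n => Fn n y) atTop (𝓝 (ENNReal.ofReal
        (∑ i, (P i (y, ‖y - b‖ + τ) + p (y, ‖y - b‖ + τ) *
          ((y i - b i) / ‖y - b‖)) ^ 2))) := by
      refine (ENNReal.continuous_ofReal.tendsto _).comp (tendsto_finset_sum _ fun i _ => ?_)
      refine ((((hPc i).continuous.tendsto _).comp hgt).add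
        (((hpc.continuous.tendsto _).comp hgt).mul ?_)).pow 2
      exact tendsto_const_nhds.div hψt hyn.ne'
    rw [hlim.liminf_eq]
    refine ENNReal.ofReal_le_ofReal (le_of_eq ?_)
    have hζ1 : ζ (‖y - b‖ + τ) = 1 := by
      rw [hζ]
      refine ζb.one_of_mem_closedBall ?_
      rw [mem_closedBall, Real.dist_eq]
      have h1 : ‖y - b‖ + τ ∈ Icc (1 / 2 : ℝ) (5 / 2) := hy
      show |‖y - b‖ + τ - 3 / 2| ≤ 1
      rw [abs_le]
      constructor <;> linarith [h1.1, h1.2]
    refine Finset.sum_congr rfl fun i _ => ?_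
    simp only [hP, hp, hζ1, one_mul]
    ring
  · rw [indicator_of_notMem hy]
    exact zero_le

end Pool.Agent.Lib.MP_ff3fe0_an.SPH
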