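import Pool.Agent.Lib.MP_ff3fe0_an_SPH.FouB
import Pool.Agent.Lib.MP_ff3fe0_an_SPH.GmA

set_option autoImplicit false

/-!
# The L2 bounds for the pieces
-/

namespace Pool.Agent.Lib.MP_ff3fe0_an_SPH

open MeasureTheory Metric Set
open scoped ENNReal NNReal ContDiff FourierTransform
open Pool.Agent.Lib.MP_ff3fe0_an

variable {d : ℕ}

theorem FouC_memLp {r : ℝ} {q : E d → ℝ} (hq : Bdd r q) (p : ℝ≥0∞) :
    MemLp (fun y => (q y : ℂ)) p volume := by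
  obtain ⟨C, hC⟩ := hq.bdd
  have e : (fun y => (q y : ℂ)) = (closedBall (0 : E d) r).indicator (fun y => (q y : ℂ)) := by
    funext y
    by_cases hy : y ∈ closedBall (0 : E d) r
    · rw [indicator_of_mem hy]
    · rw [indicator_of_notMem hy]
      have : r < ‖y‖ := by simpa using hy
      rw [hq.supp y this]
      simp
  rw [e, memLp_indicator_iff_restrict measurableSet_closedBall]
  have : IsFiniteMeasure ((volume : Measure (E d)).restrict (closedBall (0 : E d) r)) :=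
    ⟨by rw [Measure.restrict_apply_univ]; exact measure_closedBall_lt_top⟩
  refine MemLp.of_bound (Complex.measurable_ofReal.comp hq.meas).aestronglyMeasurable C ?_
  refine Filter.Eventually.of_forall fun y => ?_
  rw [Complex.norm_real]
  exact hC y

theorem FouC_int {r : ℝ} {q : E d → ℝ} (hq : Bdd r q) : Integrable (fun y => (q y : ℂ)) :=
  memLp_one_iff_integrable.mp (FouC_memLp hq 1)

theorem FouC_int' {r : ℝ} {q : E d → ℝ} (hq : Bdd r q) : Integrable q := by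
  have h := (FouC_int hq).re
  simpa using h

theorem FouC_sc_pos (m : ℕ) : 0 < sc m := by
  unfold sc
  positivity

theorem FouC_hat {S : E d → ℝ} (hS : IsKer S) (m : ℕ) {r : ℝ} {q : E d → ℝ} (hq : Bdd r q)
    (ξ : E d) : 𝓕 (fun y => (gm S m q y : ℂ)) ξ =
      (sc m : ℂ) * (𝓕 (fun y => (S y : ℂ)) (sc m • ξ) * 𝓕 (fun y => (q y : ℂ)) ξ) := by
  rw [← fourier_cv_scale hS (FouC_sc_pos m) (FouC_int' hq) ξ]
  rw [Real.fourier_eq, Real.fourier_eq, ← integral_const_mul]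
  congr 1
  funext y
  unfold gm
  rw [Complex.ofReal_mul, Circle.smul_def, Circle.smul_def, smul_eq_mul, smul_eq_mul]
  ring

/-- The elementary inequality for the multiplier. -/
theorem FouC_mult (m : ℕ) {i j : ℕ} (hj : j ≤ 2) (hij : i ≤ j) (hd : 2 ≤ d) (x : ℝ) (hx : 0 ≤ x) :
    x ^ (2 * i) / (1 + x) ^ (d - 1) *
      (sc m * ((sc m * x) ^ d / (1 + sc m * x) ^ (2 * d + 4))) ^ 2 ≤
      4 ^ (m * j) * (sc m ^ 2 * sc m ^ (d - 1)) := by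
  have hs := FouC_sc_pos m
  set l : ℝ := sc m * x with hl
  have hl0 : 0 ≤ l := by positivity
  have hx2 : x = 2 ^ m * l := by
    rw [hl, sc, ← mul_assoc, ← mul_pow]
    norm_num
  have h1 : x ^ (2 * i) ≤ 4 ^ (m * j) * l ^ (2 * i) := by
    rw [hx2, mul_pow]
    have : ((2 : ℝ) ^ m) ^ (2 * i) = 4 ^ (m * i) := by
      rw [← pow_mul, show m * (2 * i) = 2 * (m * i) by ring, pow_mul]
      norm_num
    rw [this]
    have h2 : (4 : ℝ) ^ (m * i) ≤ 4 ^ (m * j) :=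
      pow_le_pow_right₀ (by norm_num) (Nat.mul_le_mul_left m hij)
    gcongr
  have h3 : l ^ (d - 1) ≤ sc m ^ (d - 1) * (1 + x) ^ (d - 1) := by
    rw [hl, mul_pow]
    gcongr
    linarith
  have h4 : l ^ (2 * i + (d + 1)) ≤ (1 + l) ^ (4 * d + 8) := by
    calc l ^ (2 * i + (d + 1)) ≤ (1 + l) ^ (2 * i + (d + 1)) := by
          gcongr
          linarith
      _ ≤ (1 + l) ^ (4 * d + 8) := pow_le_pow_right₀ (by linarith) (by omega)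
  have hp1 : 0 < (1 + x) ^ (d - 1) := by positivity
  have hp2 : 0 < (1 + l) ^ (4 * d + 8) := by positivity
  have e1 : x ^ (2 * i) / (1 + x) ^ (d - 1) *
      (sc m * (l ^ d / (1 + l) ^ (2 * d + 4))) ^ 2 =
      (x ^ (2 * i) * (sc m ^ 2 * (l ^ (d + 1) * l ^ (d - 1)))) /
        ((1 + x) ^ (d - 1) * (1 + l) ^ (4 * d + 8)) := by
    have e2 : l ^ (d + 1) * l ^ (d - 1) = (l ^ d) ^ 2 := by
      rw [← pow_add, ← pow_mul]
      congr 1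
      omega
    have e3 : (1 + l) ^ (4 * d + 8) = ((1 + l) ^ (2 * d + 4)) ^ 2 := by
      rw [← pow_mul]
      congr 1
      ring
    rw [e2, e3, mul_pow, div_pow]
    field_simp
  rw [e1, div_le_iff₀ (by positivity)]
  calc x ^ (2 * i) * (sc m ^ 2 * (l ^ (d + 1) * l ^ (d - 1)))
      ≤ (4 ^ (m * j) * l ^ (2 * i)) *
        (sc m ^ 2 * (l ^ (d + 1) * (sc m ^ (d - 1) * (1 + x) ^ (d - 1)))) := by
        gcongr
    _ = 4 ^ (m * j) * (sc m ^ 2 * sc m ^ (d - 1)) *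
        ((1 + x) ^ (d - 1) * l ^ (2 * i + (d + 1))) := by
        rw [pow_add l (2 * i) (d + 1)]
        ring
    _ ≤ 4 ^ (m * j) * (sc m ^ 2 * sc m ^ (d - 1)) *
        ((1 + x) ^ (d - 1) * (1 + l) ^ (4 * d + 8)) := by
        gcongr

/-- The L2 bound at a fixed time for the frequency pieces. -/
theorem piece_two (hd : 2 ≤ d) {S : E d → ℝ} (hS : IsKer S) (hF : FB S) : ∃ C : ℝ≥0,
    ∀ (m : ℕ) (r : ℝ) (q : E d → ℝ), Bdd r q → ∀ j ≤ 2, ∀ i ≤ j, ∀ t ∈ Icc (1 / 4 : ℝ) 3,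
      (∫⁻ x, ‖iteratedDeriv i (fun s => sm (gm S m q) s x) t‖ₑ ^ 2) +
        ∫⁻ x, ‖JJ i (gm S m q) 0 x t‖ₑ ^ 2 ≤
        C * ENNReal.ofReal (4 ^ (m * j) * (sc m ^ 2 * sc m ^ (d - 1))) * ∫⁻ y, ‖q y‖ₑ ^ 2 := by
  obtain ⟨C1, h1⟩ := vec_fourier (d := d) hd
  obtain ⟨C2, h2⟩ := hF
  refine ⟨C1 * (‖C2‖₊ ^ 2), ?_⟩
  intro m r q hq j hj i hij t ht
  refine (h1 (gm S m q) (gm_contDiff hS m hq) (gm_compact hS m hq) i (hij.trans hj) t ht).trans ?_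
  have hb : ∀ ξ : E d, ENNReal.ofReal (‖ξ‖ ^ (2 * i) / (1 + ‖ξ‖) ^ (d - 1)) *
      ‖𝓕 (fun y => (gm S m q y : ℂ)) ξ‖ₑ ^ 2 ≤
      (‖C2‖₊ : ℝ≥0∞) ^ 2 * ENNReal.ofReal (4 ^ (m * j) * (sc m ^ 2 * sc m ^ (d - 1))) *
        ‖𝓕 (fun y => (q y : ℂ)) ξ‖ₑ ^ 2 := by
    intro ξ
    have hs := FouC_sc_pos m
    rw [FouC_hat hS m hq ξ]
    set A : ℂ := 𝓕 (fun y => (S y : ℂ)) (sc m • ξ) with hA
    set B : ℂ := 𝓕 (fun y => (q y : ℂ)) ξ with hB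
    have hA2 : ‖A‖ ≤ |C2| * ((sc m * ‖ξ‖) ^ d / (1 + sc m * ‖ξ‖) ^ (2 * d + 4)) := by
      have h3 := h2 (sc m • ξ)
      rw [norm_smul, Real.norm_of_nonneg hs.le] at h3
      refine h3.trans ?_
      rw [mul_div_assoc]
      gcongr
      exact le_abs_self _
    have hr : ‖ξ‖ ^ (2 * i) / (1 + ‖ξ‖) ^ (d - 1) * ‖(sc m : ℂ) * (A * B)‖ ^ 2 ≤
        |C2| ^ 2 * (4 ^ (m * j) * (sc m ^ 2 * sc m ^ (d - 1))) * ‖B‖ ^ 2 := by
      have h4 := FouC_mult (d := d) m hj hij hd ‖ξ‖ (norm_nonneg _)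
      have h5 : ‖(sc m : ℂ) * (A * B)‖ ≤ |C2| *
          (sc m * ((sc m * ‖ξ‖) ^ d / (1 + sc m * ‖ξ‖) ^ (2 * d + 4))) * ‖B‖ := by
        rw [norm_mul, norm_mul, Complex.norm_real, Real.norm_of_nonneg hs.le]
        calc sc m * (‖A‖ * ‖B‖) ≤ sc m *
            ((|C2| * ((sc m * ‖ξ‖) ^ d / (1 + sc m * ‖ξ‖) ^ (2 * d + 4))) * ‖B‖) := by
              gcongr
          _ = _ := by ring
      calc ‖ξ‖ ^ (2 * i) / (1 + ‖ξ‖) ^ (d - 1) * ‖(sc m : ℂ) * (A * B)‖ ^ 2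
          ≤ ‖ξ‖ ^ (2 * i) / (1 + ‖ξ‖) ^ (d - 1) * (|C2| *
            (sc m * ((sc m * ‖ξ‖) ^ d / (1 + sc m * ‖ξ‖) ^ (2 * d + 4))) * ‖B‖) ^ 2 := by
            gcongr
        _ = |C2| ^ 2 * (‖ξ‖ ^ (2 * i) / (1 + ‖ξ‖) ^ (d - 1) *
            (sc m * ((sc m * ‖ξ‖) ^ d / (1 + sc m * ‖ξ‖) ^ (2 * d + 4))) ^ 2) * ‖B‖ ^ 2 := by
            ring
        _ ≤ _ := by gcongr
    have e1 : ∀ z : ℂ, ‖z‖ₑ ^ 2 = ENNReal.ofReal (‖z‖ ^ 2) := fun z => by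
      rw [← ofReal_norm, ENNReal.ofReal_pow (norm_nonneg _)]
    have e2 : (‖C2‖₊ : ℝ≥0∞) ^ 2 = ENNReal.ofReal (|C2| ^ 2) := by
      rw [ENNReal.ofReal_pow (abs_nonneg _), ← Real.norm_eq_abs, ofReal_norm]
      rfl
    rw [e1, e1, e2, ← ENNReal.ofReal_mul (by positivity), ← ENNReal.ofReal_mul (by positivity),
      ← ENNReal.ofReal_mul (by positivity)]
    exact ENNReal.ofReal_le_ofReal hr
  have hp := plancherel (d := d) (fun y => (q y : ℂ)) (FouC_int hq) (FouC_memLp hq 2)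
  have hn : ∀ y, ‖((q y : ℝ) : ℂ)‖ₑ = ‖q y‖ₑ := fun y => by
    rw [← ofReal_norm, ← ofReal_norm, Complex.norm_real]
  simp only [hn] at hp
  calc (C1 : ℝ≥0∞) * ∫⁻ ξ : E d, ENNReal.ofReal (‖ξ‖ ^ (2 * i) / (1 + ‖ξ‖) ^ (d - 1)) *
          ‖𝓕 (fun y => (gm S m q y : ℂ)) ξ‖ₑ ^ 2
      ≤ C1 * ∫⁻ ξ : E d, (‖C2‖₊ : ℝ≥0∞) ^ 2 *
          ENNReal.ofReal (4 ^ (m * j) * (sc m ^ 2 * sc m ^ (d - 1))) *
            ‖𝓕 (fun y => (q y : ℂ)) ξ‖ₑ ^ 2 := by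
        exact mul_le_mul_right (lintegral_mono hb) _
    _ = C1 * ((‖C2‖₊ : ℝ≥0∞) ^ 2 *
          ENNReal.ofReal (4 ^ (m * j) * (sc m ^ 2 * sc m ^ (d - 1))) *
            ∫⁻ y, ‖q y‖ₑ ^ 2) := by
        rw [lintegral_const_mul' _ _ (by finiteness), hp]
    _ = _ := by
        push_cast
        ring

end Pool.Agent.Lib.MP_ff3fe0_an_SPH
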