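import Pool.Agent.Lib.MP_ff3fe0_an_SPH.ConeA
import Pool.Agent.Lib.MP_ff3fe0_an_SPH.FouC

set_option autoImplicit false

/-!
# The cone bound for the frequency pieces
-/

namespace Pool.Agent.Lib.MP_ff3fe0_an_SPH

open MeasureTheory Metric Set
open scoped ENNReal NNReal ContDiff FourierTransform
open Pool.Agent.Lib.MP_ff3fe0_an

variable {d : ℕ}

theorem cone_piece (hd : 2 ≤ d) {S : E d → ℝ} (hS : IsKer S) (hF : FB S) : ∃ C : ℝ≥0,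
    ∀ (m : ℕ) (r : ℝ) (q : E d → ℝ), Bdd r q → ∀ j ≤ 2, ∀ (b : E d) (τ : ℝ),
      ∫⁻ y in {y : E d | ‖y - b‖ + τ ∈ Icc (1 / 2 : ℝ) (5 / 2)},
        XX S m j q (‖y - b‖⁻¹ • (y - b)) y (‖y - b‖ + τ) ^ 2 ≤
          C * ENNReal.ofReal (sc m ^ (d - 1)) * ∫⁻ y, ‖q y‖ₑ ^ 2 := by
  have hd0 : 0 < d := by omega
  obtain ⟨C1, h1⟩ := cone (d := d) hd0
  obtain ⟨C2, h2⟩ := piece_two hd hS hF
  refine ⟨C1 * C2, ?_⟩
  intro m r q hq j hj b τ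
  have hsc : 0 < sc m := by unfold sc; positivity
  have key := h1 (gm S m q) (gm_contDiff hS m hq) (gm_compact hS m hq) j hj _
    (fun i hi t ht => h2 m r q hq j hj i hi t ht) b τ
  unfold XX
  have e1 : ∀ y : E d, (ENNReal.ofReal (2 ^ m * sc m ^ j) *
      ‖JJ j (gm S m q) (‖y - b‖⁻¹ • (y - b)) y (‖y - b‖ + τ)‖ₑ) ^ 2 =
      (ENNReal.ofReal (2 ^ m * sc m ^ j)) ^ 2 *
      ‖JJ j (gm S m q) (‖y - b‖⁻¹ • (y - b)) y (‖y - b‖ + τ)‖ₑ ^ 2 := fun y => mul_pow _ _ _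
  simp only [e1]
  rw [lintegral_const_mul' _ _ (by finiteness)]
  refine (mul_le_mul_right key _).trans (le_of_eq ?_)
  have h4 : (ENNReal.ofReal (2 ^ m * sc m ^ j)) ^ 2 *
      ENNReal.ofReal (4 ^ (m * j) * (sc m ^ 2 * sc m ^ (d - 1))) =
      ENNReal.ofReal (sc m ^ (d - 1)) := by
    rw [← ENNReal.ofReal_pow (by positivity), ← ENNReal.ofReal_mul (by positivity)]
    congr 1
    have e2 : (2 : ℝ) ^ m * sc m = 1 := by
      unfold sc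
      rw [← mul_pow]
      norm_num
    have e3 : (4 : ℝ) ^ (m * j) = ((2 : ℝ) ^ m) ^ (2 * j) := by
      rw [← pow_mul, show (4 : ℝ) = 2 ^ 2 by norm_num, ← pow_mul]
      congr 1
      ring
    rw [e3]
    calc ((2 : ℝ) ^ m * sc m ^ j) ^ 2 * ((2 ^ m) ^ (2 * j) * (sc m ^ 2 * sc m ^ (d - 1)))
        = ((2 : ℝ) ^ m * sc m) ^ 2 * (((2 : ℝ) ^ m) * sc m) ^ (2 * j) * sc m ^ (d - 1) := by
          rw [mul_pow _ (sc m ^ j), mul_pow _ (sc m) 2, mul_pow _ (sc m) (2 * j), ← pow_mul (sc m),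
            mul_comm j 2]
          ring
      _ = sc m ^ (d - 1) := by rw [e2]; simp
  rw [ENNReal.coe_mul, ← h4]
  ring

end Pool.Agent.Lib.MP_ff3fe0_an_SPH
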