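import Pool.Agent.Lib.MP_ff3fe0_an_SPH.Defs

set_option autoImplicit false

/-!
# The Hardy-Littlewood maximal function
-/

namespace Pool.Agent.Lib.MP_ff3fe0_an_SPH

open MeasureTheory Metric Set
open scoped ENNReal NNReal ContDiff FourierTransform
open Pool.Agent.Lib.MP_ff3fe0_an

variable {d : ℕ}

private theorem hla_vol (x : E d) {r : ℝ} (hr : 0 < r) :
    volume (ball x r) = ENNReal.ofReal (r ^ d) * volume (ball (0 : E d) 1) := by
  rw [Measure.addHaar_ball_of_pos _ _ hr]
  simp [E]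

theorem hl_ball (hd : 0 < d) : ∃ C : ℝ≥0, ∀ {F : Type} [NormedAddCommGroup F] (H : E d → F)
    (x : E d) (r : ℝ), 0 < r →
      ∫⁻ y in closedBall x r, ‖H y‖ₑ ≤ C * ENNReal.ofReal (r ^ d) * hlm H x := by
  have hv : volume (ball (0 : E d) 1) ≠ ⊤ := measure_ball_lt_top.ne
  refine ⟨(ENNReal.ofReal (2 ^ d) * volume (ball (0 : E d) 1)).toNNReal, ?_⟩
  intro F _ H x r hr
  rw [ENNReal.coe_toNNReal (ENNReal.mul_ne_top ENNReal.ofReal_ne_top hv)]
  have h2r : (0 : ℝ) < 2 * r := by positivity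
  have hV : volume (ball x (2 * r)) =
      ENNReal.ofReal (2 ^ d) * volume (ball (0 : E d) 1) * ENNReal.ofReal (r ^ d) := by
    rw [hla_vol x h2r, mul_pow, ENNReal.ofReal_mul (by positivity)]
    ring
  rw [← hV]
  have hV0 : volume (ball x (2 * r)) ≠ 0 := (measure_ball_pos _ _ h2r).ne'
  have hVt : volume (ball x (2 * r)) ≠ ⊤ := measure_ball_lt_top.ne
  calc ∫⁻ y in closedBall x r, ‖H y‖ₑ ≤ ∫⁻ y in ball x (2 * r), ‖H y‖ₑ :=
        lintegral_mono_set (closedBall_subset_ball (by linarith))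
    _ = volume (ball x (2 * r)) *
        ((volume (ball x (2 * r)))⁻¹ * ∫⁻ y in ball x (2 * r), ‖H y‖ₑ) := by
        rw [← mul_assoc, ENNReal.mul_inv_cancel hV0 hVt, one_mul]
    _ ≤ volume (ball x (2 * r)) * hlm H x := by
        gcongr
        exact le_iSup_of_le (2 * r) (le_iSup_of_le h2r le_rfl)

theorem hlm_add {F : Type*} [NormedAddCommGroup F] [MeasurableSpace F] [BorelSpace F]
    {H H' : E d → F} (hH : Measurable H) (x : E d) :
    hlm (fun y => H y + H' y) x ≤ hlm H x + hlm H' x := by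
  refine iSup_le fun r => iSup_le fun hr => ?_
  calc (volume (ball x r))⁻¹ * ∫⁻ y in ball x r, ‖H y + H' y‖ₑ
      ≤ (volume (ball x r))⁻¹ * ∫⁻ y in ball x r, (‖H y‖ₑ + ‖H' y‖ₑ) := by
        gcongr with y
        exact enorm_add_le _ _
    _ = (volume (ball x r))⁻¹ * (∫⁻ y in ball x r, ‖H y‖ₑ) +
        (volume (ball x r))⁻¹ * ∫⁻ y in ball x r, ‖H' y‖ₑ := by
        rw [lintegral_add_left hH.enorm, mul_add]
    _ ≤ hlm H x + hlm H' x := by
        gcongr
        · exact le_iSup_of_le r (le_iSup_of_le hr le_rfl)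
        · exact le_iSup_of_le r (le_iSup_of_le hr le_rfl)

theorem hlm_mono {F F' : Type*} [NormedAddCommGroup F] [NormedAddCommGroup F'] {H : E d → F}
    {H' : E d → F'} (h : ∀ y, ‖H y‖ₑ ≤ ‖H' y‖ₑ) (x : E d) : hlm H x ≤ hlm H' x := by
  refine iSup_le fun r => iSup_le fun hr => ?_
  refine le_trans ?_ (le_iSup_of_le r (le_iSup_of_le hr le_rfl))
  gcongr with y
  exact h y

private theorem hla_lsc (ν : Measure (E d)) (r : ℝ) :
    LowerSemicontinuous (fun x : E d => ν (ball x r)) := by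
  intro x a ha0
  have ha : a < ν (ball x r) := ha0
  have hU : ball x r = ⋃ n : ℕ, ball x (r - 1 / ((n : ℝ) + 1)) := by
    ext y
    simp only [mem_ball, mem_iUnion]
    constructor
    · intro hy
      obtain ⟨n, hn⟩ := exists_nat_one_div_lt (sub_pos.2 hy)
      exact ⟨n, by linarith⟩
    · rintro ⟨n, hn⟩
      have : (0 : ℝ) < 1 / ((n : ℝ) + 1) := by positivity
      linarith
  have hm : Monotone (fun n : ℕ => ball x (r - 1 / ((n : ℝ) + 1))) := by
    intro n m hnm
    apply ball_subset_ball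
    have h1 : (n : ℝ) ≤ m := by exact_mod_cast hnm
    have h2 : (1 : ℝ) / ((m : ℝ) + 1) ≤ 1 / ((n : ℝ) + 1) :=
      one_div_le_one_div_of_le (by positivity) (by linarith)
    linarith
  rw [hU, hm.measure_iUnion, lt_iSup_iff] at ha
  obtain ⟨n, hn⟩ := ha
  have hpos : (0 : ℝ) < 1 / ((n : ℝ) + 1) := by positivity
  filter_upwards [ball_mem_nhds x hpos] with y hy
  change a < ν (ball y r)
  refine lt_of_lt_of_le hn (measure_mono ?_)
  intro z hz
  rw [mem_ball] at hz hy ⊢
  calc dist z y ≤ dist z x + dist x y := dist_triangle _ _ _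
    _ < (r - 1 / ((n : ℝ) + 1)) + 1 / ((n : ℝ) + 1) := by
        rw [dist_comm x y]
        linarith
    _ = r := by ring

theorem measurable_hlm {F : Type*} [NormedAddCommGroup F] {H : E d → F}
    (hH : Measurable (fun x => ‖H x‖ₑ)) : Measurable (hlm H) := by
  have h1 : LowerSemicontinuous (hlm H) := by
    unfold hlm
    refine lowerSemicontinuous_iSup fun r => lowerSemicontinuous_iSup fun hr => ?_
    have h2 : (fun x : E d => (volume (ball x r))⁻¹ * ∫⁻ y in ball x r, ‖H y‖ₑ) =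
        (fun u : ℝ≥0∞ => (volume (ball (0 : E d) r))⁻¹ * u) ∘
          (fun x => (volume.withDensity (fun y => ‖H y‖ₑ)) (ball x r)) := by
      funext x
      simp only [Function.comp]
      rw [withDensity_apply _ measurableSet_ball, hla_vol x hr, hla_vol 0 hr]
    rw [h2]
    refine Continuous.comp_lowerSemicontinuous ?_ (hla_lsc _ r) ?_
    · exact ENNReal.continuous_const_mul
        (ENNReal.inv_ne_top.2 (measure_ball_pos _ _ hr).ne')
    · intro u v huv
      simp only
      gcongr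
  exact h1.measurable

end Pool.Agent.Lib.MP_ff3fe0_an_SPH
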