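import Pool.Agent.Lib.MP_ff3fe0_an_SPH.OmA
import Pool.Agent.Lib.MP_ff3fe0_an_SPH.HlA

set_option autoImplicit false

/-!
# The Hardy-Littlewood maximal theorem
-/

namespace Pool.Agent.Lib.MP_ff3fe0_an_SPH

open MeasureTheory Metric Set
open scoped ENNReal NNReal ContDiff FourierTransform
open Pool.Agent.Lib.MP_ff3fe0_an

variable {d : ℕ}

open Classical in
/-- The part of `H` where the norm is greater than `l / 2`. -/
private noncomputable def HLpT {F : Type} [NormedAddCommGroup F] (H : E d → F) (l : ℝ≥0∞)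
    (y : E d) : F := if l / 2 < ‖H y‖ₑ then H y else 0

private theorem HLp_enorm {F : Type} [NormedAddCommGroup F] (H : E d → F) (l : ℝ≥0∞) (y : E d) :
    ‖HLpT H l y‖ₑ = {x | l / 2 < ‖H x‖ₑ}.indicator (fun x => ‖H x‖ₑ) y := by
  unfold HLpT
  by_cases h : l / 2 < ‖H y‖ₑ
  · rw [if_pos h, indicator_of_mem (show y ∈ {x | l / 2 < ‖H x‖ₑ} from h)]
  · rw [if_neg h, indicator_of_notMem (show y ∉ {x | l / 2 < ‖H x‖ₑ} from h), enorm_zero]

private theorem HLp_meas {F : Type} [NormedAddCommGroup F] {H : E d → F} (l : ℝ≥0∞)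
    (hH : Measurable (fun x => ‖H x‖ₑ)) : Measurable (fun y => ‖HLpT H l y‖ₑ) := by
  simp_rw [HLp_enorm]
  exact hH.indicator (measurableSet_lt measurable_const hH)

private theorem HLp_split {F : Type} [NormedAddCommGroup F] (H : E d → F) (l : ℝ≥0∞) (x : E d) :
    hlm H x ≤ hlm (HLpT H l) x + l / 2 := by
  refine iSup₂_le fun r hr => ?_
  have h1 : ∫⁻ y in ball x r, ‖H y‖ₑ ≤ ∫⁻ y in ball x r, (‖HLpT H l y‖ₑ + l / 2) := by
    refine lintegral_mono fun y => ?_
    rw [HLp_enorm]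
    by_cases h : l / 2 < ‖H y‖ₑ
    · rw [indicator_of_mem (show y ∈ {x | l / 2 < ‖H x‖ₑ} from h)]
      exact le_self_add
    · exact (not_lt.1 h).trans le_add_self
  rw [lintegral_add_right _ measurable_const, setLIntegral_const] at h1
  calc (volume (ball x r))⁻¹ * ∫⁻ y in ball x r, ‖H y‖ₑ
      ≤ (volume (ball x r))⁻¹ *
          ((∫⁻ y in ball x r, ‖HLpT H l y‖ₑ) + l / 2 * volume (ball x r)) := by
        gcongr
    _ = ((volume (ball x r))⁻¹ * ∫⁻ y in ball x r, ‖HLpT H l y‖ₑ) +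
        ((volume (ball x r))⁻¹ * volume (ball x r)) * (l / 2) := by ring
    _ ≤ hlm (HLpT H l) x + 1 * (l / 2) := by
        gcongr
        · exact le_iSup₂ (f := fun (r : ℝ) (_ : 0 < r) =>
            (volume (ball x r))⁻¹ * ∫⁻ y in ball x r, ‖HLpT H l y‖ₑ) r hr
        · exact ENNReal.inv_mul_le_one _
    _ = _ := by rw [one_mul]

private theorem HLp_fin {F : Type} [NormedAddCommGroup F] {H : E d → F} {l : ℝ≥0∞} {p : ℝ}
    (hp : 1 < p) (hl : l ≠ 0) (hl' : l ≠ ⊤) (hfin : ∫⁻ x, ‖H x‖ₑ ^ p ≠ ⊤) :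
    ∫⁻ x, ‖HLpT H l x‖ₑ ≠ ⊤ := by
  have hl2 : l / 2 ≠ 0 := (ENNReal.div_pos hl (by norm_num)).ne'
  have hl3 : l / 2 ≠ ⊤ := (ENNReal.div_lt_top hl' (by norm_num)).ne
  have h1 : ∫⁻ x, ‖HLpT H l x‖ₑ ≤ ∫⁻ x, (l / 2) ^ (1 - p) * ‖H x‖ₑ ^ p := by
    refine lintegral_mono fun y => ?_
    rw [HLp_enorm]
    by_cases h : l / 2 < ‖H y‖ₑ
    · rw [indicator_of_mem (show y ∈ {x | l / 2 < ‖H x‖ₑ} from h)]
      have h0 : ‖H y‖ₑ ≠ 0 := (lt_of_le_of_lt zero_le h).ne'
      have h2 : ‖H y‖ₑ = ‖H y‖ₑ ^ (1 - p) * ‖H y‖ₑ ^ p := by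
        rw [← ENNReal.rpow_add _ _ h0 enorm_ne_top]
        simp
      calc ‖H y‖ₑ = ‖H y‖ₑ ^ (1 - p) * ‖H y‖ₑ ^ p := h2
        _ ≤ (l / 2) ^ (1 - p) * ‖H y‖ₑ ^ p := by
          gcongr ?_ * _
          rw [← neg_sub p 1, ENNReal.rpow_neg, ENNReal.rpow_neg, ENNReal.inv_le_inv]
          exact ENNReal.rpow_le_rpow h.le (by linarith)
    · rw [indicator_of_notMem (show y ∉ {x | l / 2 < ‖H x‖ₑ} from h)]
      exact zero_le
  rw [lintegral_const_mul' _ _ (ENNReal.rpow_ne_top_of_ne_zero hl2 hl3)] at h1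
  exact ne_top_of_le_ne_top (ENNReal.mul_ne_top (ENNReal.rpow_ne_top_of_ne_zero hl2 hl3) hfin) h1

private theorem HLp_weak (hd : 0 < d) {p : ℝ} (hp : 1 < p) {F : Type} [NormedAddCommGroup F] :
    ∃ C : ℝ≥0, 0 < C ∧ ∀ (H : E d → F) (l : ℝ≥0∞), Measurable (fun x => ‖H x‖ₑ) → l ≠ 0 → l ≠ ⊤ →
      ∫⁻ x, ‖H x‖ₑ ^ p ≠ ⊤ →
      l * volume {x | C * l < hlm H x} ≤
        C * ∫⁻ x, {x | l / 2 < ‖H x‖ₑ}.indicator (fun x => ‖H x‖ₑ) x := by
  obtain ⟨C1, h1⟩ := om_hlm hd (le_refl (1 : ℝ)) (F := F)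
  obtain ⟨C2, h2⟩ := om_vol hd 2
  refine ⟨C1 + 1 + C2, by positivity, fun H l hH hl hl' hfin => ?_⟩
  have hT := HLp_meas l hH
  have hsub : {x | ((C1 + 1 + C2 : ℝ≥0) : ℝ≥0∞) * l < hlm H x} ⊆
      Om (fun y => ‖HLpT H l y‖ₑ) l 2 := by
    intro x hx
    by_contra hcon
    have h3 := h1 (HLpT H l) l hT hl hl' (by simpa using HLp_fin hp hl hl' hfin) x
      (by simpa using hcon)
    have h4 := (HLp_split H l x).trans (add_le_add_left h3 _)
    have h5 : (C1 : ℝ≥0∞) * l + l / 2 ≤ ((C1 + 1 + C2 : ℝ≥0) : ℝ≥0∞) * l := by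
      push_cast
      calc (C1 : ℝ≥0∞) * l + l / 2 ≤ C1 * l + l := by
            gcongr
            exact ENNReal.half_le_self
        _ = (C1 + 1) * l := by ring
        _ ≤ _ := by
            gcongr ?_ * _
            exact le_self_add
    exact absurd (h4.trans h5) (not_le.2 hx)
  calc l * volume {x | ((C1 + 1 + C2 : ℝ≥0) : ℝ≥0∞) * l < hlm H x}
      ≤ l * (C2 * volume (Lv (fun y => ‖HLpT H l y‖ₑ) l)) := by
        gcongr
        exact (measure_mono hsub).trans (h2 _ _ hT)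
    _ = C2 * (l * volume (Lv (fun y => ‖HLpT H l y‖ₑ) l)) := by ring
    _ ≤ C2 * ∫⁻ x in Lv (fun y => ‖HLpT H l y‖ₑ) l, ‖HLpT H l x‖ₑ := by
        gcongr
        exact Lv_mass hT
    _ ≤ C2 * ∫⁻ x, ‖HLpT H l x‖ₑ := by
        gcongr
        exact Measure.restrict_le_self
    _ = C2 * ∫⁻ x, {x | l / 2 < ‖H x‖ₑ}.indicator (fun x => ‖H x‖ₑ) x := by
        simp_rw [HLp_enorm]
    _ ≤ _ := by
        gcongr
        exact le_add_self

/-- the integral of a power -/
private theorem HLp_pow {s : ℝ} (hs : -1 < s) {a : ℝ} (ha : 0 ≤ a) :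
    ∫⁻ t in Ioo 0 a, ENNReal.ofReal (t ^ s) = ENNReal.ofReal (a ^ (s + 1) / (s + 1)) := by
  have h1 : IntervalIntegrable (fun t : ℝ => t ^ s) volume 0 a :=
    intervalIntegral.intervalIntegrable_rpow' hs
  have h2 := integral_rpow (a := 0) (b := a) (Or.inl hs)
  rw [Real.zero_rpow (by linarith), sub_zero] at h2
  rw [← h2, intervalIntegral.integral_of_le ha, integral_Ioc_eq_integral_Ioo,
    ofReal_integral_eq_lintegral_ofReal]
  · have h3 := (intervalIntegrable_iff_integrableOn_Ioc_of_le ha).1 h1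
    exact h3.mono_set Ioo_subset_Ioc_self
  · refine (ae_restrict_iff' measurableSet_Ioo).2 (Filter.Eventually.of_forall fun t ht => ?_)
    exact Real.rpow_nonneg ht.1.le _

private theorem HLp_low {p : ℝ} (hp : 0 < p) (y : ℝ≥0∞) :
    y ^ p ≤ ENNReal.ofReal p * ∫⁻ t in Ioi (0 : ℝ),
      {t : ℝ | ENNReal.ofReal t < y}.indicator (fun t => ENNReal.ofReal (t ^ (p - 1))) t := by
  have key : ∀ a : ℝ≥0, (a : ℝ≥0∞) ≤ y → (a : ℝ≥0∞) ^ p ≤ ENNReal.ofReal p *
      ∫⁻ t in Ioi (0 : ℝ),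
      {t : ℝ | ENNReal.ofReal t < y}.indicator (fun t => ENNReal.ofReal (t ^ (p - 1))) t := by
    intro a ha
    have h1 := HLp_pow (s := p - 1) (by linarith) a.coe_nonneg
    have h2 : ∫⁻ t in Ioo (0 : ℝ) a, ENNReal.ofReal (t ^ (p - 1)) ≤ ∫⁻ t in Ioi (0 : ℝ),
      {t : ℝ | ENNReal.ofReal t < y}.indicator (fun t => ENNReal.ofReal (t ^ (p - 1))) t := by
      calc ∫⁻ t in Ioo (0 : ℝ) a, ENNReal.ofReal (t ^ (p - 1))
          = ∫⁻ t in Ioo (0 : ℝ) a, {t : ℝ | ENNReal.ofReal t < y}.indicator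
            (fun t => ENNReal.ofReal (t ^ (p - 1))) t := by
            refine setLIntegral_congr_fun measurableSet_Ioo fun t ht => ?_
            have h3 : ENNReal.ofReal t < y := by
              refine lt_of_lt_of_le ?_ ha
              rw [ENNReal.ofReal_lt_coe_iff ht.1.le]
              exact ht.2
            rw [indicator_of_mem (show t ∈ {t : ℝ | ENNReal.ofReal t < y} from h3)]
        _ ≤ _ := lintegral_mono_set Ioo_subset_Ioi_self
    calc (a : ℝ≥0∞) ^ p = ENNReal.ofReal p * ENNReal.ofReal ((a : ℝ) ^ (p - 1 + 1) /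
          (p - 1 + 1)) := by
          rw [sub_add_cancel, ← ENNReal.ofReal_mul hp.le, mul_div_cancel₀ _ hp.ne',
            ← ENNReal.ofReal_rpow_of_nonneg a.coe_nonneg hp.le, ENNReal.ofReal_coe_nnreal]
      _ ≤ _ := by
          rw [← h1]
          gcongr
  rcases eq_or_ne y ⊤ with h | h
  · subst h
    rw [ENNReal.top_rpow_of_pos hp, top_le_iff]
    refine ENNReal.eq_top_of_forall_nnreal_le fun r => ?_
    have h3 := key (r ^ (1 / p)) le_top
    rwa [← ENNReal.coe_rpow_of_nonneg _ hp.le, ← NNReal.rpow_mul, one_div_mul_cancel hp.ne',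
      NNReal.rpow_one] at h3
  · lift y to ℝ≥0 using h
    exact key y le_rfl

private theorem HLp_up {p : ℝ} (hp : 1 < p) {c : ℝ≥0} (hc : 0 < c) {y : ℝ≥0∞} (hy : y ≠ ⊤) :
    ∫⁻ t in Ioi (0 : ℝ), {t : ℝ | ENNReal.ofReal t / c < y}.indicator
      (fun t => ENNReal.ofReal (t ^ (p - 2))) t ≤
      ENNReal.ofReal (c ^ (p - 1) / (p - 1)) * y ^ (p - 1) := by
  lift y to ℝ≥0 using hy
  have h1 : ∫⁻ t in Ioi (0 : ℝ), {t : ℝ | ENNReal.ofReal t / c < y}.indicator
      (fun t => ENNReal.ofReal (t ^ (p - 2))) t ≤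
      ∫⁻ t in Ioo (0 : ℝ) (c * y), ENNReal.ofReal (t ^ (p - 2)) := by
    rw [← lintegral_indicator measurableSet_Ioi, ← lintegral_indicator measurableSet_Ioo]
    refine lintegral_mono fun t => ?_
    by_cases ht : t ∈ Ioi (0 : ℝ)
    · rw [indicator_of_mem ht]
      by_cases h : ENNReal.ofReal t / c < y
      · rw [indicator_of_mem (show t ∈ {t : ℝ | ENNReal.ofReal t / c < y} from h)]
        have h2 : t < c * y := by
          rw [ENNReal.div_lt_iff (Or.inl (by exact_mod_cast hc.ne')) (Or.inl ENNReal.coe_ne_top),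
            ← ENNReal.coe_mul, ENNReal.ofReal_lt_coe_iff (le_of_lt ht)] at h
          push_cast at h
          rwa [mul_comm] at h
        rw [indicator_of_mem (show t ∈ Ioo (0 : ℝ) (c * y) from ⟨ht, h2⟩)]
      · rw [indicator_of_notMem (show t ∉ {t : ℝ | ENNReal.ofReal t / c < y} from h)]
        exact zero_le
    · rw [indicator_of_notMem ht]
      exact zero_le
  refine h1.trans (le_of_eq ?_)
  rw [HLp_pow (by linarith) (by positivity), show p - 2 + 1 = p - 1 by ring,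
    Real.mul_rpow c.coe_nonneg y.coe_nonneg, mul_div_right_comm, ENNReal.ofReal_mul (by
      have : 0 < p - 1 := by linarith
      positivity), ← ENNReal.ofReal_rpow_of_nonneg y.coe_nonneg (by linarith), ENNReal.ofReal_coe_nnreal]

theorem hlm_Lp (hd : 0 < d) {p : ℝ} (hp : 1 < p) {F : Type} [NormedAddCommGroup F] :
    ∃ C : ℝ≥0, ∀ H : E d → F, Measurable (fun x => ‖H x‖ₑ) →
      ∫⁻ x, hlm H x ^ p ≤ C * ∫⁻ x, ‖H x‖ₑ ^ p := by
  obtain ⟨C, hC, hw⟩ := HLp_weak hd hp (F := F)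
  refine ⟨1 + Real.toNNReal p * (C * C) * Real.toNNReal ((2 * C : ℝ≥0) ^ (p - 1) / (p - 1)),
    fun H hH => ?_⟩
  rcases eq_or_ne (∫⁻ x, ‖H x‖ₑ ^ p) ⊤ with hfin | hfin
  · rw [hfin, ENNReal.mul_top]
    · exact le_top
    · push_cast
      positivity
  have hM := measurable_hlm hH
  have hC0 : (C : ℝ≥0∞) ≠ 0 := by exact_mod_cast hC.ne'
  -- the weak type bound
  have hweak : ∀ t : ℝ, 0 < t → volume {x | ENNReal.ofReal t < hlm H x} *
      ENNReal.ofReal (t ^ (p - 1)) ≤ C * C * ∫⁻ x, ‖H x‖ₑ *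
        {t : ℝ | ENNReal.ofReal t / (2 * C : ℝ≥0) < ‖H x‖ₑ}.indicator
      (fun t => ENNReal.ofReal (t ^ (p - 2))) t := by
    intro t ht
    have ht0 : ENNReal.ofReal t ≠ 0 := by
      rw [Ne, ENNReal.ofReal_eq_zero, not_le]
      exact ht
    have h1 := hw H (ENNReal.ofReal t / C) hH (ENNReal.div_pos ht0 ENNReal.coe_ne_top).ne'
      (ENNReal.div_lt_top ENNReal.ofReal_ne_top hC0).ne hfin
    rw [ENNReal.mul_div_cancel hC0 ENNReal.coe_ne_top] at h1
    have h2 : ENNReal.ofReal t / C / 2 = ENNReal.ofReal t / (2 * C : ℝ≥0) := by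
      push_cast
      rw [div_eq_mul_inv, div_eq_mul_inv, div_eq_mul_inv, mul_assoc,
        ENNReal.mul_inv (Or.inl (by norm_num)) (Or.inl (by norm_num)), mul_comm (2⁻¹ : ℝ≥0∞)]
    rw [h2] at h1
    have h3 : ENNReal.ofReal (t ^ (p - 1)) = ENNReal.ofReal t * ENNReal.ofReal (t ^ (p - 2)) := by
      rw [← ENNReal.ofReal_mul ht.le]
      congr 1
      rw [show p - 1 = 1 + (p - 2) by ring, Real.rpow_add ht, Real.rpow_one]
    have h4 : ENNReal.ofReal t = C * (ENNReal.ofReal t / C) :=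
      (ENNReal.mul_div_cancel hC0 ENNReal.coe_ne_top).symm
    calc volume {x | ENNReal.ofReal t < hlm H x} * ENNReal.ofReal (t ^ (p - 1))
        = C * ENNReal.ofReal (t ^ (p - 2)) *
          (ENNReal.ofReal t / C * volume {x | ENNReal.ofReal t < hlm H x}) := by
          rw [h3]
          conv_lhs => rw [show volume {x | ENNReal.ofReal t < hlm H x} *
            (ENNReal.ofReal t * ENNReal.ofReal (t ^ (p - 2))) =
            ENNReal.ofReal t * (ENNReal.ofReal (t ^ (p - 2)) *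
              volume {x | ENNReal.ofReal t < hlm H x}) by ring]
          rw [show C * ENNReal.ofReal (t ^ (p - 2)) *
            (ENNReal.ofReal t / C * volume {x | ENNReal.ofReal t < hlm H x}) =
            (C * (ENNReal.ofReal t / C)) * (ENNReal.ofReal (t ^ (p - 2)) *
              volume {x | ENNReal.ofReal t < hlm H x}) by ring, ← h4]
      _ ≤ C * ENNReal.ofReal (t ^ (p - 2)) * (C * ∫⁻ x,
          {x | ENNReal.ofReal t / (2 * C : ℝ≥0) < ‖H x‖ₑ}.indicator (fun x => ‖H x‖ₑ) x) := by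
          gcongr
      _ = C * C * (ENNReal.ofReal (t ^ (p - 2)) * ∫⁻ x,
          {x | ENNReal.ofReal t / (2 * C : ℝ≥0) < ‖H x‖ₑ}.indicator (fun x => ‖H x‖ₑ) x) := by
          ring
      _ = _ := by
          rw [← lintegral_const_mul' _ _ ENNReal.ofReal_ne_top]
          congr 1
          refine lintegral_congr fun x => ?_
          by_cases h : ENNReal.ofReal t / (2 * C : ℝ≥0) < ‖H x‖ₑ
          · rw [indicator_of_mem (show x ∈ {x | ENNReal.ofReal t / (2 * C : ℝ≥0) < ‖H x‖ₑ} from h),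
              indicator_of_mem
                (show t ∈ {t : ℝ | ENNReal.ofReal t / (2 * C : ℝ≥0) < ‖H x‖ₑ} from h), mul_comm]
          · rw [indicator_of_notMem
                (show x ∉ {x | ENNReal.ofReal t / (2 * C : ℝ≥0) < ‖H x‖ₑ} from h),
              indicator_of_notMem
                (show t ∉ {t : ℝ | ENNReal.ofReal t / (2 * C : ℝ≥0) < ‖H x‖ₑ} from h)]
            simp
  have hm1 : Measurable (fun z : E d × ℝ => {t : ℝ | ENNReal.ofReal t < hlm H z.1}.indicator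
      (fun t => ENNReal.ofReal (t ^ (p - 1))) z.2) := by
    have h1 : MeasurableSet {z : E d × ℝ | ENNReal.ofReal z.2 < hlm H z.1} :=
      measurableSet_lt (ENNReal.measurable_ofReal.comp measurable_snd) (hM.comp measurable_fst)
    have h2 : Measurable (fun z : E d × ℝ => ENNReal.ofReal (z.2 ^ (p - 1))) :=
      ENNReal.measurable_ofReal.comp (measurable_snd.pow_const _)
    exact h2.indicator h1
  have hm2 : Measurable (fun z : E d × ℝ => ‖H z.1‖ₑ *
      {t : ℝ | ENNReal.ofReal t / (2 * C : ℝ≥0) < ‖H z.1‖ₑ}.indicator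
      (fun t => ENNReal.ofReal (t ^ (p - 2))) z.2) := by
    have h1 : MeasurableSet {z : E d × ℝ | ENNReal.ofReal z.2 / (2 * C : ℝ≥0) < ‖H z.1‖ₑ} :=
      measurableSet_lt ((ENNReal.measurable_ofReal.comp measurable_snd).div_const _)
        (hH.comp measurable_fst)
    have h2 : Measurable (fun z : E d × ℝ => ENNReal.ofReal (z.2 ^ (p - 2))) :=
      ENNReal.measurable_ofReal.comp (measurable_snd.pow_const _)
    exact (hH.comp measurable_fst).mul (h2.indicator h1)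
  calc ∫⁻ x, hlm H x ^ p
      ≤ ∫⁻ x, ENNReal.ofReal p * ∫⁻ t in Ioi (0 : ℝ),
        {t : ℝ | ENNReal.ofReal t < hlm H x}.indicator
          (fun t => ENNReal.ofReal (t ^ (p - 1))) t :=
        lintegral_mono fun x => HLp_low (by linarith) _
    _ = ENNReal.ofReal p * ∫⁻ x, ∫⁻ t in Ioi (0 : ℝ),
        {t : ℝ | ENNReal.ofReal t < hlm H x}.indicator
          (fun t => ENNReal.ofReal (t ^ (p - 1))) t :=
        lintegral_const_mul' _ _ ENNReal.ofReal_ne_top
    _ = ENNReal.ofReal p * ∫⁻ t in Ioi (0 : ℝ), ∫⁻ x,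
        {t : ℝ | ENNReal.ofReal t < hlm H x}.indicator
          (fun t => ENNReal.ofReal (t ^ (p - 1))) t := by
        rw [lintegral_lintegral_swap hm1.aemeasurable]
    _ = ENNReal.ofReal p * ∫⁻ t in Ioi (0 : ℝ), volume {x | ENNReal.ofReal t < hlm H x} *
          ENNReal.ofReal (t ^ (p - 1)) := by
        congr 1
        refine lintegral_congr fun t => ?_
        have h1 : ∀ x, {t : ℝ | ENNReal.ofReal t < hlm H x}.indicator
          (fun t => ENNReal.ofReal (t ^ (p - 1))) t =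
          {x | ENNReal.ofReal t < hlm H x}.indicator
            (fun _ => ENNReal.ofReal (t ^ (p - 1))) x := by
          intro x
          by_cases h : ENNReal.ofReal t < hlm H x
          · rw [indicator_of_mem (show t ∈ {t : ℝ | ENNReal.ofReal t < hlm H x} from h),
              indicator_of_mem (show x ∈ {x | ENNReal.ofReal t < hlm H x} from h)]
          · rw [indicator_of_notMem (show t ∉ {t : ℝ | ENNReal.ofReal t < hlm H x} from h),
              indicator_of_notMem (show x ∉ {x | ENNReal.ofReal t < hlm H x} from h)]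
        simp_rw [h1]
        rw [lintegral_indicator_const (measurableSet_lt measurable_const hM), mul_comm]
    _ ≤ ENNReal.ofReal p * ∫⁻ t in Ioi (0 : ℝ), C * C * ∫⁻ x, ‖H x‖ₑ *
        {t : ℝ | ENNReal.ofReal t / (2 * C : ℝ≥0) < ‖H x‖ₑ}.indicator
      (fun t => ENNReal.ofReal (t ^ (p - 2))) t := by
        gcongr ENNReal.ofReal p * ?_
        exact setLIntegral_mono' measurableSet_Ioi fun t ht => hweak t ht
    _ = ENNReal.ofReal p * (C * C) * ∫⁻ t in Ioi (0 : ℝ), ∫⁻ x, ‖H x‖ₑ *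
        {t : ℝ | ENNReal.ofReal t / (2 * C : ℝ≥0) < ‖H x‖ₑ}.indicator
      (fun t => ENNReal.ofReal (t ^ (p - 2))) t := by
        rw [lintegral_const_mul' _ _ (ENNReal.mul_ne_top ENNReal.coe_ne_top ENNReal.coe_ne_top)]
        ring
    _ = ENNReal.ofReal p * (C * C) * ∫⁻ x, ∫⁻ t in Ioi (0 : ℝ), ‖H x‖ₑ *
        {t : ℝ | ENNReal.ofReal t / (2 * C : ℝ≥0) < ‖H x‖ₑ}.indicator
      (fun t => ENNReal.ofReal (t ^ (p - 2))) t := by
        rw [← lintegral_lintegral_swap hm2.aemeasurable]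
    _ ≤ ENNReal.ofReal p * (C * C) * ∫⁻ x, ENNReal.ofReal ((2 * C : ℝ≥0) ^ (p - 1) / (p - 1)) *
        ‖H x‖ₑ ^ p := by
        gcongr with x
        rw [lintegral_const_mul' _ _ enorm_ne_top]
        calc ‖H x‖ₑ * ∫⁻ t in Ioi (0 : ℝ),
              {t : ℝ | ENNReal.ofReal t / (2 * C : ℝ≥0) < ‖H x‖ₑ}.indicator
                (fun t => ENNReal.ofReal (t ^ (p - 2))) t
            ≤ ‖H x‖ₑ * (ENNReal.ofReal ((2 * C : ℝ≥0) ^ (p - 1) / (p - 1)) *
              ‖H x‖ₑ ^ (p - 1)) := by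
              gcongr
              exact HLp_up hp (by positivity) enorm_ne_top
          _ = ENNReal.ofReal ((2 * C : ℝ≥0) ^ (p - 1) / (p - 1)) *
              (‖H x‖ₑ ^ (1 : ℝ) * ‖H x‖ₑ ^ (p - 1)) := by
              rw [ENNReal.rpow_one]
              ring
          _ = _ := by
              rw [← ENNReal.rpow_add_of_nonneg _ _ zero_le_one (by linarith),
                add_sub_cancel]
    _ = ENNReal.ofReal p * (C * C) * ENNReal.ofReal ((2 * C : ℝ≥0) ^ (p - 1) / (p - 1)) *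
        ∫⁻ x, ‖H x‖ₑ ^ p := by
        rw [lintegral_const_mul' _ _ ENNReal.ofReal_ne_top]
        ring
    _ ≤ _ := by
        gcongr
        push_cast
        exact le_add_self

end Pool.Agent.Lib.MP_ff3fe0_an_SPH
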