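import Pool.Agent.Lib.MP_ff3fe0_an_SPH.SphM

set_option autoImplicit false

/-!
# The spherical maximal operator and null sets
-/

namespace Pool.Agent.Lib.MP_ff3fe0_an_SPH

open MeasureTheory Metric Set
open scoped ENNReal NNReal ContDiff FourierTransform
open Pool.Agent.Lib.MP_ff3fe0_an

variable {d : ℕ}

/-- continuous compactly supported functions increasing to the indicator of an open set -/
private noncomputable def SphN_g (U : Set (E d)) (n : ℕ) (x : E d) : ℝ :=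
  (min 1 ((n : ℝ≥0∞) * infEDist x Uᶜ)).toReal * max 0 (min 1 (n - ‖x‖))

private theorem SphN_g_nonneg (U : Set (E d)) (n : ℕ) (x : E d) : 0 ≤ SphN_g U n x :=
  mul_nonneg ENNReal.toReal_nonneg (le_max_left _ _)

private theorem SphN_min_ne (U : Set (E d)) (n : ℕ) (x : E d) :
    min 1 ((n : ℝ≥0∞) * infEDist x Uᶜ) ≠ ⊤ :=
  ne_top_of_le_ne_top ENNReal.one_ne_top (min_le_left _ _)

private theorem SphN_min_le (U : Set (E d)) (n : ℕ) (x : E d) :
    (min 1 ((n : ℝ≥0∞) * infEDist x Uᶜ)).toReal ≤ 1 := by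
  have h := ENNReal.toReal_mono ENNReal.one_ne_top (min_le_left 1 ((n : ℝ≥0∞) * infEDist x Uᶜ))
  rwa [ENNReal.toReal_one] at h

private theorem SphN_g_cont (U : Set (E d)) (n : ℕ) : Continuous (SphN_g U n) := by
  refine Continuous.mul ?_ (by fun_prop)
  have h1 : Continuous fun x : E d => min 1 ((n : ℝ≥0∞) * infEDist x Uᶜ) :=
    continuous_const.min ((ENNReal.continuous_const_mul (ENNReal.natCast_ne_top n)).comp
      continuous_infEDist)
  exact ENNReal.continuousOn_toReal.comp_continuous h1 fun x => SphN_min_ne U n x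

private theorem SphN_g_supp (U : Set (E d)) (n : ℕ) : HasCompactSupport (SphN_g U n) := by
  refine HasCompactSupport.intro (isCompact_closedBall (0 : E d) n) fun x hx => ?_
  rw [mem_closedBall_zero_iff, not_le] at hx
  unfold SphN_g
  rw [max_eq_left, mul_zero]
  exact (min_le_right _ _).trans (by linarith)

private theorem SphN_g_le (U : Set (E d)) (n : ℕ) (x : E d) : SphN_g U n x ≤ 1 := by
  have h1 := SphN_min_le U n x
  have h2 : max 0 (min 1 ((n : ℝ) - ‖x‖)) ≤ 1 := max_le zero_le_one (min_le_left _ _)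
  have h3 : (0 : ℝ) ≤ max 0 (min 1 ((n : ℝ) - ‖x‖)) := le_max_left _ _
  unfold SphN_g
  calc _ ≤ 1 * max 0 (min 1 ((n : ℝ) - ‖x‖)) := mul_le_mul_of_nonneg_right h1 h3
    _ ≤ 1 := by rw [one_mul]; exact h2

private theorem SphN_g_mono (U : Set (E d)) (x : E d) : Monotone fun n => SphN_g U n x := by
  intro n m hnm
  have hnm' : (n : ℝ≥0∞) ≤ m := by exact_mod_cast hnm
  have hnm'' : (n : ℝ) ≤ m := by exact_mod_cast hnm
  refine mul_le_mul ?_ ?_ (le_max_left _ _) ENNReal.toReal_nonneg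
  · exact ENNReal.toReal_mono (SphN_min_ne U m x) (min_le_min_left _ (by gcongr))
  · exact max_le_max_left _ (min_le_min_left _ (by linarith))

private theorem SphN_g_zero {U : Set (E d)} (n : ℕ) {x : E d} (hx : x ∉ U) :
    SphN_g U n x = 0 := by
  unfold SphN_g
  have h1 : infEDist x Uᶜ = 0 := infEDist_zero_of_mem hx
  rw [h1, mul_zero, min_eq_right zero_le_one, ENNReal.toReal_zero, zero_mul]

private theorem SphN_g_one {U : Set (E d)} (hU : IsOpen U) {x : E d} (hx : x ∈ U) :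
    ∃ n, SphN_g U n x = 1 := by
  have h1 : infEDist x Uᶜ ≠ 0 := by
    intro h
    have h2 : x ∈ closure Uᶜ := mem_closure_iff_infEDist_zero.2 h
    rw [hU.isClosed_compl.closure_eq] at h2
    exact h2 hx
  obtain ⟨n1, hn1⟩ : ∃ n : ℕ, 1 ≤ (n : ℝ≥0∞) * infEDist x Uᶜ := by
    by_cases htop : infEDist x Uᶜ = ⊤
    · exact ⟨1, by rw [htop]; simp⟩
    · obtain ⟨n, hn⟩ := ENNReal.exists_nat_gt (ENNReal.inv_ne_top.2 h1)
      refine ⟨n, ?_⟩
      have h3 := mul_le_mul_left hn.le (infEDist x Uᶜ)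
      rwa [ENNReal.inv_mul_cancel h1 htop] at h3
  obtain ⟨n2, hn2⟩ := exists_nat_ge (‖x‖ + 1)
  refine ⟨max n1 n2, ?_⟩
  have e1 : (n1 : ℝ≥0∞) ≤ ((max n1 n2 : ℕ) : ℝ≥0∞) := by exact_mod_cast le_max_left n1 n2
  have e2 : (n2 : ℝ) ≤ ((max n1 n2 : ℕ) : ℝ) := by exact_mod_cast le_max_right n1 n2
  unfold SphN_g
  rw [min_eq_left (hn1.trans (by gcongr)), min_eq_left (by linarith), max_eq_right zero_le_one,
    ENNReal.toReal_one, mul_one]

private theorem SphN_iSup {U : Set (E d)} (hU : IsOpen U) (x : E d) :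
    ⨆ n, ENNReal.ofReal (SphN_g U n x) = U.indicator (fun _ => 1) x := by
  by_cases hx : x ∈ U
  · rw [indicator_of_mem hx]
    obtain ⟨n, hn⟩ := SphN_g_one hU hx
    refine le_antisymm (iSup_le fun m => ?_) ?_
    · exact ENNReal.ofReal_le_one.2 (SphN_g_le U m x)
    · refine le_iSup_of_le n ?_
      rw [hn, ENNReal.ofReal_one]
  · rw [indicator_of_notMem hx]
    refine le_antisymm (iSup_le fun m => ?_) bot_le
    rw [SphN_g_zero m hx, ENNReal.ofReal_zero]

/-- the maximal function of a continuous function of compact support is measurable -/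
private theorem SphN_meas (hd : 0 < d) {g : E d → ℝ} (hg : Continuous g) :
    Measurable fun x => ⨆ t : ℝ, ⨆ _ : t ∈ Icc (1 : ℝ) 2, ENNReal.ofReal (sm g t x) := by
  have := sigma_prob hd
  refine LowerSemicontinuous.measurable ?_
  refine lowerSemicontinuous_biSup fun t _ => Continuous.lowerSemicontinuous ?_
  refine ENNReal.continuous_ofReal.comp ?_
  unfold sm
  have h1 : Continuous (Function.uncurry fun (x : E d) (w : Sph d) => g (x - t • (w : E d))) := by
    unfold Function.uncurry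
    fun_prop
  have h2 := continuous_parametric_integral_of_continuous (μ := sigma d) h1 isCompact_univ
  simpa using h2

private theorem SphN_sup (hd : 0 < d) {U : Set (E d)} (hU : IsOpen U) (x : E d) :
    (⨆ t : ℝ, ⨆ _ : t ∈ Icc (1 : ℝ) 2, sigma d {w : Sph d | x - t • (w : E d) ∈ U}) =
      ⨆ n : ℕ, ⨆ t : ℝ, ⨆ _ : t ∈ Icc (1 : ℝ) 2, ENNReal.ofReal (sm (SphN_g U n) t x) := by
  have := sigma_prob hd
  have h1 : ∀ t : ℝ, sigma d {w : Sph d | x - t • (w : E d) ∈ U} =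
      ⨆ n : ℕ, ENNReal.ofReal (sm (SphN_g U n) t x) := by
    intro t
    have hc : Continuous fun w : Sph d => x - t • (w : E d) := by fun_prop
    have h2 : ∀ n : ℕ, ENNReal.ofReal (sm (SphN_g U n) t x) =
        ∫⁻ w : Sph d, ENNReal.ofReal (SphN_g U n (x - t • (w : E d))) ∂(sigma d) := by
      intro n
      refine ofReal_integral_eq_lintegral_ofReal ?_
        (Filter.Eventually.of_forall fun w => SphN_g_nonneg U n _)
      exact ((SphN_g_cont U n).comp hc).integrable_of_hasCompactSupport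
        (HasCompactSupport.of_compactSpace _)
    simp_rw [h2]
    rw [← lintegral_iSup]
    · simp_rw [SphN_iSup hU]
      show sigma d ((fun w : Sph d => x - t • (w : E d)) ⁻¹' U) = _
      rw [← lintegral_indicator_one (hc.isOpen_preimage U hU).measurableSet]
      rfl
    · exact fun n => (ENNReal.continuous_ofReal.comp ((SphN_g_cont U n).comp hc)).measurable
    · exact fun n m hnm w => ENNReal.ofReal_le_ofReal (SphN_g_mono U _ hnm)
  simp_rw [h1]
  refine le_antisymm ?_ ?_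
  · exact iSup_le fun t => iSup_le fun ht => iSup_le fun n =>
      le_iSup_of_le n (le_iSup₂_of_le t ht le_rfl)
  · exact iSup_le fun n => iSup_le fun t => iSup_le fun ht =>
      le_iSup₂_of_le t ht (le_iSup_of_le n le_rfl)

private theorem SphN_pow (a : ℕ → ℝ≥0∞) : (⨆ n, a n) ^ 2 = ⨆ n, a n ^ 2 := by
  have h1 : (⨆ n, a n) ^ (2 : ℝ) = ⨆ n, a n ^ (2 : ℝ) :=
    (ENNReal.orderIsoRpow 2 (by norm_num)).map_iSup a
  have h2 : ∀ b : ℝ≥0∞, b ^ (2 : ℝ) = b ^ 2 := fun b => by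
    rw [← ENNReal.rpow_natCast]
    norm_num
  simp_rw [h2] at h1
  exact h1

private theorem SphN_mono (hd : 0 < d) (U : Set (E d)) (x : E d) : Monotone fun n : ℕ =>
    ⨆ t : ℝ, ⨆ _ : t ∈ Icc (1 : ℝ) 2, ENNReal.ofReal (sm (SphN_g U n) t x) := by
  have := sigma_prob hd
  intro n m hnm
  refine iSup₂_mono fun t _ => ENNReal.ofReal_le_ofReal ?_
  have hc : Continuous fun w : Sph d => x - t • (w : E d) := by fun_prop
  have hi : ∀ n : ℕ, Integrable (fun w : Sph d => SphN_g U n (x - t • (w : E d))) (sigma d) :=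
    fun n => ((SphN_g_cont U n).comp hc).integrable_of_hasCompactSupport
      (HasCompactSupport.of_compactSpace _)
  exact integral_mono (hi n) (hi m) fun w => SphN_g_mono U _ hnm

theorem max_open (hd : 3 ≤ d) (K : Ker d) : ∃ C : ℝ≥0, ∀ U : Set (E d), IsOpen U →
    ∫⁻ x, (⨆ t : ℝ, ⨆ _ : t ∈ Icc (1 : ℝ) 2,
      sigma d {w : Sph d | x - t • (w : E d) ∈ U}) ^ 2 ≤ C * volume U := by
  have hd0 : 0 < d := by omega
  obtain ⟨C, hC⟩ := max_two hd K
  refine ⟨C, fun U hU => ?_⟩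
  have hpow : ∀ x : E d, (⨆ t : ℝ, ⨆ _ : t ∈ Icc (1 : ℝ) 2,
      sigma d {w : Sph d | x - t • (w : E d) ∈ U}) ^ 2 =
      ⨆ n : ℕ, (⨆ t : ℝ, ⨆ _ : t ∈ Icc (1 : ℝ) 2, ENNReal.ofReal (sm (SphN_g U n) t x)) ^ 2 := by
    intro x
    rw [SphN_sup hd0 hU x, SphN_pow]
  simp_rw [hpow]
  rw [lintegral_iSup]
  · refine iSup_le fun n => (hC _ (SphN_g_cont U n) (SphN_g_supp U n) (SphN_g_nonneg U n)).trans ?_
    gcongr
    rw [← lintegral_indicator_one hU.measurableSet]
    refine lintegral_mono fun x => ?_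
    have h1 : U.indicator (1 : E d → ℝ≥0∞) x = ⨆ n, ENNReal.ofReal (SphN_g U n x) :=
      (SphN_iSup hU x).symm
    rw [h1]
    refine le_trans ?_ (le_iSup _ n)
    rw [Real.enorm_of_nonneg (SphN_g_nonneg U n x), sq]
    calc ENNReal.ofReal (SphN_g U n x) * ENNReal.ofReal (SphN_g U n x) ≤
          ENNReal.ofReal (SphN_g U n x) * 1 := by
            gcongr
            exact ENNReal.ofReal_le_one.2 (SphN_g_le U n x)
      _ = ENNReal.ofReal (SphN_g U n x) := mul_one _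
  · exact fun n => (SphN_meas hd0 (SphN_g_cont U n)).pow_const 2
  · intro n m hnm x
    exact pow_le_pow_left' (SphN_mono hd0 U x hnm) 2

private theorem SphN_null_one (hd : 3 ≤ d) (K : Ker d) {N : Set (E d)} (hN : volume N = 0) :
    ∀ᵐ x, ∀ s ∈ Icc (1 : ℝ) 2, sigma d {w : Sph d | x - s • (w : E d) ∈ N} = 0 := by
  have hd0 : 0 < d := by omega
  obtain ⟨C, hC⟩ := max_open hd K
  have h1 : ∀ k : ℕ, ∃ U, N ⊆ U ∧ IsOpen U ∧ volume U < (1 / 2 : ℝ≥0∞) ^ k := by
    intro k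
    have h2 : volume N < (1 / 2 : ℝ≥0∞) ^ k := by
      rw [hN]
      exact ENNReal.pow_pos (by norm_num) k
    exact Set.exists_isOpen_lt_of_lt N _ h2
  choose U hNU hU hvol using h1
  set f : ℕ → E d → ℝ≥0∞ := fun k x => ⨆ t : ℝ, ⨆ _ : t ∈ Icc (1 : ℝ) 2,
    sigma d {w : Sph d | x - t • (w : E d) ∈ U k} with hf
  have hfm : ∀ k, Measurable (f k) := by
    intro k
    have h2 : f k = fun x => ⨆ n : ℕ, ⨆ t : ℝ, ⨆ _ : t ∈ Icc (1 : ℝ) 2,
        ENNReal.ofReal (sm (SphN_g (U k) n) t x) := funext fun x => SphN_sup hd0 (hU k) x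
    rw [h2]
    exact Measurable.iSup fun n => SphN_meas hd0 (SphN_g_cont (U k) n)
  have hFm : Measurable fun x => (⨅ k, f k x) ^ 2 := (Measurable.iInf hfm).pow_const 2
  have hint : ∫⁻ x, (⨅ k, f k x) ^ 2 = 0 := by
    have h2 : ∀ k, ∫⁻ x, (⨅ k, f k x) ^ 2 ≤ C * (1 / 2 : ℝ≥0∞) ^ k := by
      intro k
      calc ∫⁻ x, (⨅ k, f k x) ^ 2 ≤ ∫⁻ x, f k x ^ 2 :=
            lintegral_mono fun x => pow_le_pow_left' (iInf_le _ k) 2
        _ ≤ C * volume (U k) := hC _ (hU k)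
        _ ≤ C * (1 / 2 : ℝ≥0∞) ^ k := by
            gcongr
            exact (hvol k).le
    have h3 : Filter.Tendsto (fun k : ℕ => (C : ℝ≥0∞) * (1 / 2 : ℝ≥0∞) ^ k) Filter.atTop
        (nhds (C * 0)) :=
      ENNReal.Tendsto.const_mul (ENNReal.tendsto_pow_atTop_nhds_zero_of_lt_one (by
        rw [one_div]
        exact ENNReal.inv_lt_one.2 (by norm_num))) (Or.inr ENNReal.coe_ne_top)
    rw [mul_zero] at h3
    exact le_antisymm (ge_of_tendsto' h3 h2) bot_le
  rw [lintegral_eq_zero_iff hFm] at hint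
  filter_upwards [hint] with x hx s hs
  have h4 : (⨅ k, f k x) = 0 := by
    have h5 : (⨅ k, f k x) ^ 2 = 0 := hx
    exact pow_eq_zero_iff two_ne_zero |>.1 h5
  refine le_antisymm ?_ bot_le
  rw [← h4]
  refine le_iInf fun k => ?_
  refine le_trans (measure_mono fun w hw => hNU k hw) ?_
  exact le_iSup₂_of_le (f := fun (t : ℝ) (_ : t ∈ Icc (1 : ℝ) 2) =>
    sigma d {w : Sph d | x - t • (w : E d) ∈ U k}) s hs le_rfl

/-- Almost every centre sees a null set as a null set of every sphere. -/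
theorem sph_null (hd : 3 ≤ d) (K : Ker d) {N : Set (E d)} (hN : volume N = 0) :
    ∀ᵐ x, ∀ t : ℝ, 0 < t → sigma d {w : Sph d | x - t • (w : E d) ∈ N} = 0 := by
  have hd0 : 0 < d := by omega
  -- the dyadic pieces
  have h1 : ∀ j : ℤ, ∀ᵐ x : E d, ∀ s ∈ Icc (1 : ℝ) 2,
      sigma d {w : Sph d | ((2 : ℝ) ^ j)⁻¹ • x - s • (w : E d) ∈
        (fun y : E d => (2 : ℝ) ^ j • y) ⁻¹' N} = 0 := by
    intro j
    have h2j : ((2 : ℝ) ^ j) ≠ 0 := (zpow_pos two_pos j).ne'
    have hNj : volume ((fun y : E d => (2 : ℝ) ^ j • y) ⁻¹' N) = 0 := by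
      rw [Measure.addHaar_preimage_smul volume h2j, hN, mul_zero]
    have h3 := SphN_null_one hd K hNj
    rw [ae_iff] at h3 ⊢
    have h4 := Measure.addHaar_preimage_smul (volume : Measure (E d)) (inv_ne_zero h2j)
      {a : E d | ¬ ∀ s ∈ Icc (1 : ℝ) 2,
        sigma d {w : Sph d | a - s • (w : E d) ∈ (fun y : E d => (2 : ℝ) ^ j • y) ⁻¹' N} = 0}
    rw [h3, mul_zero] at h4
    exact h4
  rw [← ae_all_iff] at h1
  filter_upwards [h1] with x hx t ht
  obtain ⟨j, hj⟩ := exists_mem_Ico_zpow ht (one_lt_two (α := ℝ))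
  have h2j : (0 : ℝ) < (2 : ℝ) ^ j := zpow_pos two_pos j
  have h2 := hx j (t / 2 ^ j) ⟨by rw [le_div_iff₀ h2j, one_mul]; exact hj.1, by
    rw [div_le_iff₀ h2j]
    have h3 := hj.2.le
    rw [zpow_add_one₀ two_ne_zero] at h3
    linarith⟩
  refine measure_mono_null (fun w hw => ?_) h2
  rw [mem_ofPred_eq] at hw ⊢
  rw [mem_preimage, smul_sub, smul_smul, smul_smul, mul_inv_cancel₀ h2j.ne', one_smul,
    mul_div_cancel₀ _ h2j.ne']
  exact hw

end Pool.Agent.Lib.MP_ff3fe0_an_SPH
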