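import Pool.Agent.Lib.MP_ff3fe0_an_SPH.MaxS
import Pool.Agent.Lib.MP_ff3fe0_an_SPH.HLp
import Pool.Agent.Lib.MP_ff3fe0_an_SPH.SphN
import Pool.Agent.Lib.MP_ff3fe0_an.Bumps

set_option autoImplicit false

/-!
# Convergence of the spherical maximal functions
-/

namespace Pool.Agent.Lib.MP_ff3fe0_an_SPH

open MeasureTheory Metric Set
open scoped ENNReal NNReal ContDiff FourierTransform
open Pool.Agent.Lib.MP_ff3fe0_an

variable {d : ℕ}

private theorem ConvA_grad {g : E d → ℝ} (hg : ContDiff ℝ ∞ g) : Continuous (gradient g) := by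
  unfold gradient
  have h1 : Continuous (fderiv ℝ g) := hg.continuous_fderiv (by norm_num)
  exact (InnerProductSpace.toDual ℝ (E d)).symm.continuous.comp h1

private theorem ConvA_one (a : ℝ≥0∞) {p : ℝ} (hp : 1 ≤ p) : a ≤ 1 + a ^ p := by
  rcases le_total a 1 with h | h
  · exact h.trans le_self_add
  · calc a = a ^ (1 : ℝ) := (ENNReal.rpow_one a).symm
      _ ≤ a ^ p := ENNReal.rpow_le_rpow_of_exponent_le h hp
      _ ≤ 1 + a ^ p := le_add_self

private theorem ConvA_L1 {h : E d → ℝ≥0∞} {a C : ℝ≥0∞} (ha0 : a ≠ 0) (ha : a ≠ ⊤) {p : ℝ}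
    (hp : 1 ≤ p) (hC : ∫⁻ x, h x ^ p ≤ C * a ^ p) (B : Set (E d)) :
    ∫⁻ x in B, h x ≤ a * (volume B + C) := by
  have hp0 : 0 ≤ p := by linarith
  have e0 : a ^ p ≠ 0 := (ENNReal.rpow_pos (pos_iff_ne_zero.2 ha0) ha).ne'
  have e1 : a ^ p ≠ ⊤ := ENNReal.rpow_ne_top_of_nonneg hp0 ha
  have hpt : ∀ x, h x ≤ a + (a * (a ^ p)⁻¹) * h x ^ p := by
    intro x
    calc h x = a * (h x / a) := (ENNReal.mul_div_cancel ha0 ha).symm
      _ ≤ a * (1 + (h x / a) ^ p) := by gcongr; exact ConvA_one _ hp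
      _ = a + (a * (a ^ p)⁻¹) * h x ^ p := by
          rw [ENNReal.div_rpow_of_nonneg _ _ hp0, mul_add, mul_one, ENNReal.div_eq_inv_mul,
            mul_assoc]
  calc ∫⁻ x in B, h x ≤ ∫⁻ x in B, (a + (a * (a ^ p)⁻¹) * h x ^ p) := lintegral_mono hpt
    _ = a * volume B + (a * (a ^ p)⁻¹) * ∫⁻ x in B, h x ^ p := by
        rw [lintegral_add_left measurable_const, lintegral_const,
          lintegral_const_mul' _ _ (ENNReal.mul_ne_top ha (ENNReal.inv_ne_top.2 e0)),
          Measure.restrict_apply_univ]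
    _ ≤ a * volume B + (a * (a ^ p)⁻¹) * (C * a ^ p) := by
        gcongr
        exact (setLIntegral_le_lintegral _ _).trans hC
    _ = a * (volume B + C) := by
        have e2 : (a * (a ^ p)⁻¹) * (C * a ^ p) = a * C * ((a ^ p)⁻¹ * a ^ p) := by ring
        rw [e2, ENNReal.inv_mul_cancel e0 e1, mul_one, mul_add]

private theorem ConvA_pow {F : Type*} [NormedAddCommGroup F] {H : E d → F} {p : ℝ} (hp : 1 < p)
    {a : ℝ≥0∞} (h : eLpNorm H (ENNReal.ofReal p) ≤ a) :
    (∫⁻ x, ‖H x‖ₑ ^ p) ^ (1 / p) ≤ a ∧ ∫⁻ x, ‖H x‖ₑ ^ p ≤ a ^ p := by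
  have hp0 : 0 < p := by linarith
  have e1 : ENNReal.ofReal p ≠ 0 := by
    rw [Ne, ENNReal.ofReal_eq_zero, not_le]; exact hp0
  rw [eLpNorm_eq_lintegral_rpow_enorm_toReal e1 ENNReal.ofReal_ne_top,
    ENNReal.toReal_ofReal hp0.le] at h
  refine ⟨h, ?_⟩
  rw [one_div] at h
  exact (ENNReal.rpow_inv_le_iff hp0).1 h

private theorem ConvA_geom : ∑' n : ℕ, ENNReal.ofReal ((1 / 2 : ℝ) ^ n) ≤ 2 := by
  have h : ∀ n : ℕ, ENNReal.ofReal ((1 / 2 : ℝ) ^ n) = (2⁻¹ : ℝ≥0∞) ^ n := by
    intro n
    rw [ENNReal.ofReal_pow (by norm_num), one_div, ENNReal.ofReal_inv_of_pos (by norm_num)]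
    norm_num
  simp_rw [h]
  rw [ENNReal.tsum_geometric, ENNReal.one_sub_inv_two, inv_inv]

private theorem ConvA_ae {p : ℝ} (hp : 1 < p) {f : E d → ℝ} {g : ℕ → E d → ℝ}
    (hm : ∀ n, AEStronglyMeasurable (fun x => g n x - |f x|))
    (h1 : ∀ n, eLpNorm (fun x => g n x - |f x|) (ENNReal.ofReal p) ≤
      ENNReal.ofReal ((1 / 2) ^ n)) :
    volume {y | ¬ Filter.Tendsto (fun n => g n y) Filter.atTop (nhds |f y|)} = 0 := by
  have hp0 : 0 < p := by linarith
  have e1 : ∫⁻ y, ∑' n, ‖g n y - |f y|‖ₑ ^ p ≠ ⊤ := by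
    rw [lintegral_tsum (fun n => (hm n).enorm.pow_const _)]
    refine ne_top_of_le_ne_top (b := 2) (by norm_num) ?_
    refine le_trans (ENNReal.tsum_le_tsum fun n => ?_) ConvA_geom
    refine le_trans (ConvA_pow hp (h1 n)).2 ?_
    refine ENNReal.rpow_le_self_of_le_one ?_ hp.le
    rw [← ENNReal.ofReal_one]
    exact ENNReal.ofReal_le_ofReal (pow_le_one₀ (by norm_num) (by norm_num))
  have e2 := ae_lt_top' (AEMeasurable.tsum fun n => (hm n).enorm.pow_const _) e1
  rw [← ae_iff]
  filter_upwards [e2] with y hy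
  have e3 := ENNReal.tendsto_atTop_zero_of_tsum_ne_top hy.ne
  have e4 : Filter.Tendsto (fun n => (‖g n y - |f y|‖ₑ ^ p) ^ (p⁻¹)) Filter.atTop (nhds 0) := by
    have := ((ENNReal.continuous_rpow_const (y := p⁻¹)).tendsto 0).comp e3
    rw [ENNReal.zero_rpow_of_pos (inv_pos.2 hp0)] at this
    exact this
  have e5 : Filter.Tendsto (fun n => ‖g n y - |f y|‖ₑ) Filter.atTop (nhds 0) := by
    refine e4.congr fun n => ?_
    rw [← ENNReal.rpow_mul, mul_inv_cancel₀ hp0.ne', ENNReal.rpow_one]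
  rw [tendsto_iff_edist_tendsto_0]
  refine e5.congr fun n => ?_
  rw [edist_eq_enorm_sub]

private theorem ConvA_tele {f : E d → ℝ} {g : ℕ → E d → ℝ} {y : E d}
    (h : Filter.Tendsto (fun n => g n y) Filter.atTop (nhds |f y|)) (n : ℕ) :
    ‖|f y| - g n y‖ₑ ≤ ∑' k, ‖g (n + k + 1) y - g (n + k) y‖ₑ := by
  have e1 : Filter.Tendsto (fun m => ‖g (n + m) y - g n y‖ₑ) Filter.atTop
      (nhds ‖|f y| - g n y‖ₑ) := by
    have e2 : Filter.Tendsto (fun m => g (n + m) y) Filter.atTop (nhds |f y|) := by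
      have e3 : Filter.Tendsto (fun m : ℕ => n + m) Filter.atTop Filter.atTop :=
        Filter.tendsto_atTop_mono (fun m => Nat.le_add_left m n) Filter.tendsto_id
      exact h.comp e3
    exact (e2.sub_const _).enorm
  refine le_of_tendsto' e1 fun m => ?_
  have e4 : g (n + m) y - g n y = ∑ k ∈ Finset.range m, (g (n + (k + 1)) y - g (n + k) y) := by
    rw [Finset.sum_range_sub (fun k => g (n + k) y)]
    simp
  rw [e4]
  refine (enorm_sum_le _ _).trans ?_
  exact ENNReal.sum_le_tsum (f := fun k => ‖g (n + k + 1) y - g (n + k) y‖ₑ) _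

private theorem ConvA_meas (hd : 0 < d) {g : E d → ℝ} (hg : Continuous g)
    (hc : HasCompactSupport g) : Measurable (sphMax g) := by
  obtain ⟨C, hC⟩ := hc.exists_bound_of_continuous hg
  have := sigma_prob hd
  have h : LowerSemicontinuous (sphMax g) := by
    unfold sphMax
    refine lowerSemicontinuous_iSup fun t => lowerSemicontinuous_iSup fun _ => ?_
    refine Continuous.lowerSemicontinuous ?_
    rw [continuous_iff_continuousAt]
    intro x
    refine tendsto_lintegral_filter_of_dominated_convergence (fun _ => ENNReal.ofReal C) ?_ ?_ ?_ ?_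
    · refine Filter.Eventually.of_forall fun z => ?_
      exact (Continuous.enorm (hg.comp (by fun_prop))).measurable
    · refine Filter.Eventually.of_forall fun z => Filter.Eventually.of_forall fun w => ?_
      rw [← ofReal_norm]
      exact ENNReal.ofReal_le_ofReal (hC _)
    · rw [lintegral_const, measure_univ, mul_one]
      exact ENNReal.ofReal_ne_top
    · refine Filter.Eventually.of_forall fun w => ?_
      have : Continuous fun z => ‖g (z - t • (w : E d))‖ₑ :=
        Continuous.enorm (hg.comp (by fun_prop))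
      exact this.tendsto x
  exact h.measurable

/-- comparison of the maximal functions along the sequence -/
private theorem ConvA_cmp {f : E d → ℝ} {g : ℕ → E d → ℝ} (hg : ∀ n, Continuous (g n)) {x : E d}
    (hx : ∀ t : ℝ, 0 < t → ∀ᵐ w : Sph d ∂(sigma d), Filter.Tendsto
      (fun n => g n (x - t • (w : E d))) Filter.atTop (nhds |f (x - t • (w : E d))|)) (n : ℕ) :
    sphMax f x ≤ sphMax (g n) x + ∑' k, sphMax (fun y => g (n + k + 1) y - g (n + k) y) x ∧
    sphMax (g n) x ≤ sphMax f x + ∑' k, sphMax (fun y => g (n + k + 1) y - g (n + k) y) x := by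
  have hae : ∀ t : ℝ, 0 < t → ∀ᵐ w : Sph d ∂(sigma d),
      ‖|f (x - t • (w : E d))| - g n (x - t • (w : E d))‖ₑ ≤
        ∑' k, ‖g (n + k + 1) (x - t • (w : E d)) - g (n + k) (x - t • (w : E d))‖ₑ := by
    intro t ht
    filter_upwards [hx t ht] with w hw
    exact ConvA_tele hw n
  have hcw : ∀ (k : ℕ) (t : ℝ), Measurable fun w : Sph d =>
      ‖g (n + k + 1) (x - t • (w : E d)) - g (n + k) (x - t • (w : E d))‖ₑ := by
    intro k t
    exact (Continuous.enorm
      (((hg _).comp (by fun_prop)).sub ((hg _).comp (by fun_prop)))).measurable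
  have htail : ∀ t : ℝ, 0 < t →
      ∫⁻ w, ∑' k, ‖g (n + k + 1) (x - t • (w : E d)) - g (n + k) (x - t • (w : E d))‖ₑ ∂(sigma d) ≤
        ∑' k, sphMax (fun y => g (n + k + 1) y - g (n + k) y) x := by
    intro t ht
    rw [lintegral_tsum (fun k => (hcw k t).aemeasurable)]
    refine ENNReal.tsum_le_tsum fun k => ?_
    exact le_iSup₂_of_le t ht le_rfl
  constructor
  · refine iSup₂_le fun t ht => ?_
    calc ∫⁻ w, ‖f (x - t • (w : E d))‖ₑ ∂(sigma d) ≤ ∫⁻ w, (‖g n (x - t • (w : E d))‖ₑ +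
          ∑' k, ‖g (n + k + 1) (x - t • (w : E d)) - g (n + k) (x - t • (w : E d))‖ₑ)
            ∂(sigma d) := by
          refine lintegral_mono_ae ?_
          filter_upwards [hae t ht] with w hw
          have e1 : ‖f (x - t • (w : E d))‖ₑ = ‖|f (x - t • (w : E d))|‖ₑ := by
            rw [Real.enorm_abs]
          rw [e1]
          have e2 : |f (x - t • (w : E d))| = g n (x - t • (w : E d)) +
            (|f (x - t • (w : E d))| - g n (x - t • (w : E d))) := by ring
          calc ‖|f (x - t • (w : E d))|‖ₑ = ‖g n (x - t • (w : E d)) +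
                (|f (x - t • (w : E d))| - g n (x - t • (w : E d)))‖ₑ := by rw [← e2]
            _ ≤ _ := (enorm_add_le _ _).trans (by gcongr)
      _ = ∫⁻ w, ‖g n (x - t • (w : E d))‖ₑ ∂(sigma d) + ∫⁻ w,
          ∑' k, ‖g (n + k + 1) (x - t • (w : E d)) - g (n + k) (x - t • (w : E d))‖ₑ
            ∂(sigma d) := by
          refine lintegral_add_left ?_ _
          exact (Continuous.enorm ((hg _).comp (by fun_prop))).measurable
      _ ≤ _ := by
          refine add_le_add ?_ (htail t ht)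
          exact le_iSup₂_of_le t ht le_rfl
  · refine iSup₂_le fun t ht => ?_
    calc ∫⁻ w, ‖g n (x - t • (w : E d))‖ₑ ∂(sigma d) ≤ ∫⁻ w, (‖f (x - t • (w : E d))‖ₑ +
          ∑' k, ‖g (n + k + 1) (x - t • (w : E d)) - g (n + k) (x - t • (w : E d))‖ₑ)
            ∂(sigma d) := by
          refine lintegral_mono_ae ?_
          filter_upwards [hae t ht] with w hw
          have e1 : ‖f (x - t • (w : E d))‖ₑ = ‖|f (x - t • (w : E d))|‖ₑ := by
            rw [Real.enorm_abs]
          rw [e1]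
          have e2 : g n (x - t • (w : E d)) = |f (x - t • (w : E d))| -
            (|f (x - t • (w : E d))| - g n (x - t • (w : E d))) := by ring
          calc ‖g n (x - t • (w : E d))‖ₑ = ‖|f (x - t • (w : E d))| -
                (|f (x - t • (w : E d))| - g n (x - t • (w : E d)))‖ₑ := by rw [← e2]
            _ ≤ _ := enorm_sub_le.trans (by gcongr)
      _ = ∫⁻ w, ‖f (x - t • (w : E d))‖ₑ ∂(sigma d) + ∫⁻ w,
          ∑' k, ‖g (n + k + 1) (x - t • (w : E d)) - g (n + k) (x - t • (w : E d))‖ₑ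
            ∂(sigma d) := by
          refine lintegral_add_right _ ?_
          exact Measurable.tsum fun k => hcw k t
      _ ≤ _ := by
          refine add_le_add ?_ (htail t ht)
          exact le_iSup₂_of_le t ht le_rfl

private theorem ConvA_toReal {a b c : ℝ≥0∞} (ha : a ≠ ⊤) (hb : b ≠ ⊤) (h1 : a ≤ b + c)
    (h2 : b ≤ a + c) : ‖b.toReal - a.toReal‖ₑ ≤ c := by
  by_cases hc : c = ⊤
  · rw [hc]; exact le_top
  · have e1 : a.toReal ≤ b.toReal + c.toReal := by
      rw [← ENNReal.toReal_add hb hc]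
      exact ENNReal.toReal_mono (ENNReal.add_ne_top.2 ⟨hb, hc⟩) h1
    have e2 : b.toReal ≤ a.toReal + c.toReal := by
      rw [← ENNReal.toReal_add ha hc]
      exact ENNReal.toReal_mono (ENNReal.add_ne_top.2 ⟨ha, hc⟩) h2
    rw [← ofReal_norm, Real.norm_eq_abs, ← ENNReal.ofReal_toReal hc]
    refine ENNReal.ofReal_le_ofReal ?_
    rw [abs_le]
    constructor <;> linarith

/-- The spherical maximal functions of the approximating sequence converge. -/
theorem conv (hd : 3 ≤ d) (K : Ker d) {p : ℝ} (hp : 1 < p) (hpd : p < d) {f : E d → ℝ}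
    {g : ℕ → E d → ℝ} (hg : ∀ n, ContDiff ℝ ∞ (g n)) (hc : ∀ n, HasCompactSupport (g n))
    (h0 : ∀ n x, 0 ≤ g n x) (hf : AEStronglyMeasurable f)
    (h1 : ∀ n, eLpNorm (fun x => g n x - |f x|) (ENNReal.ofReal p) ≤ ENNReal.ofReal ((1 / 2) ^ n))
    (h2 : ∀ n, eLpNorm (fun x => g (n + 1) x - g n x) (ENNReal.ofReal p) ≤
      ENNReal.ofReal (2 * (1 / 2) ^ n))
    (h3 : ∀ n, eLpNorm (gradient (fun x => g (n + 1) x - g n x)) (ENNReal.ofReal p) ≤
      ENNReal.ofReal (2 * (1 / 2) ^ n)) :
    (∀ᵐ x, sphMax f x ≠ ⊤) ∧ LocallyIntegrable (fun x => (sphMax f x).toReal) ∧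
      ∀ R : ℝ, Filter.Tendsto (fun n => ∫⁻ x in closedBall (0 : E d) R,
        ‖(sphMax (g n) x).toReal - (sphMax f x).toReal‖ₑ) Filter.atTop (nhds 0) := by
  have hd0 : 0 < d := by omega
  obtain ⟨C1, hC1⟩ := local_max (d := d) (by omega) hp.le hpd
  obtain ⟨C2, hC2⟩ := hlm_Lp (d := d) hd0 hp (F := ℝ)
  obtain ⟨C3, hC3⟩ := hlm_Lp (d := d) hd0 hp (F := E d)
  have hgc : ∀ n, Continuous (g n) := fun n => (hg n).continuous
  have hws : ∀ n, ContDiff ℝ ∞ (fun x => g (n + 1) x - g n x) := fun n =>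
    (hg (n + 1)).sub (hg n)
  have hwc : ∀ n, HasCompactSupport (fun x => g (n + 1) x - g n x) := fun n =>
    (hc (n + 1)).sub (hc n)
  -- the majorant
  set T : ℕ → E d → ℝ≥0∞ := fun n x => C1 * (hlm (fun x => g (n + 1) x - g n x) x +
    hlm (gradient (fun x => g (n + 1) x - g n x)) x +
      (∫⁻ y, ‖gradient (fun x => g (n + 1) x - g n x) y‖ₑ ^ p) ^ (1 / p)) with hTdef
  have hm1 : ∀ n, Measurable (fun x => ‖g (n + 1) x - g n x‖ₑ) := fun n =>
    ((hws n).continuous.enorm).measurable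
  have hm2 : ∀ n, Measurable (fun x => ‖gradient (fun x => g (n + 1) x - g n x) x‖ₑ) := fun n =>
    ((ConvA_grad (hws n)).enorm).measurable
  have hTm : ∀ n, Measurable (T n) := by
    intro n
    exact (((measurable_hlm (hm1 n)).add (measurable_hlm (hm2 n))).add_const _).const_mul _
  have hTw : ∀ n x, sphMax (fun y => g (n + 1) y - g n y) x ≤ T n x := by
    intro n x
    exact hC1 _ ((hws n).of_le (by exact_mod_cast le_top)) (hwc n) x
  set a : ℕ → ℝ≥0∞ := fun n => ENNReal.ofReal (2 * (1 / 2) ^ n) with hadef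
  have ha0 : ∀ n, a n ≠ 0 := by
    intro n
    rw [hadef]
    simp only [Ne, ENNReal.ofReal_eq_zero, not_le]
    positivity
  have hat : ∀ n, a n ≠ ⊤ := fun n => ENNReal.ofReal_ne_top
  set M : Set (E d) → ℝ≥0∞ := fun B => C1 * ((volume B + C2) + (volume B + C3) + volume B)
    with hMdef
  have hTi : ∀ n B, ∫⁻ x in B, T n x ≤ a n * M B := by
    intro n B
    have e1 : ∫⁻ x in B, hlm (fun x => g (n + 1) x - g n x) x ≤ a n * (volume B + C2) := by
      refine ConvA_L1 (ha0 n) (hat n) hp.le ?_ B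
      refine (hC2 _ (hm1 n)).trans ?_
      gcongr
      exact (ConvA_pow hp (h2 n)).2
    have e2 : ∫⁻ x in B, hlm (gradient (fun x => g (n + 1) x - g n x)) x ≤
        a n * (volume B + C3) := by
      refine ConvA_L1 (ha0 n) (hat n) hp.le ?_ B
      refine (hC3 _ (hm2 n)).trans ?_
      gcongr
      exact (ConvA_pow hp (h3 n)).2
    have e3 := (ConvA_pow hp (h3 n)).1
    calc ∫⁻ x in B, T n x = C1 * ((∫⁻ x in B, hlm (fun x => g (n + 1) x - g n x) x) +
          (∫⁻ x in B, hlm (gradient (fun x => g (n + 1) x - g n x)) x) +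
          (∫⁻ y, ‖gradient (fun x => g (n + 1) x - g n x) y‖ₑ ^ p) ^ (1 / p) * volume B) := by
          rw [hTdef]
          simp only
          rw [lintegral_const_mul' _ _ ENNReal.coe_ne_top,
            lintegral_add_right _ measurable_const,
            lintegral_add_left (measurable_hlm (hm1 n)), lintegral_const,
            Measure.restrict_apply_univ]
      _ ≤ C1 * (a n * (volume B + C2) + a n * (volume B + C3) + a n * volume B) := by
          gcongr
      _ = a n * M B := by
          rw [hMdef]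
          ring
  have hMt : ∀ R : ℝ, M (closedBall (0 : E d) R) ≠ ⊤ := by
    intro R
    have hv : volume (closedBall (0 : E d) R) ≠ ⊤ := measure_closedBall_lt_top.ne
    rw [hMdef]
    simp only
    refine ENNReal.mul_ne_top ENNReal.coe_ne_top ?_
    refine ENNReal.add_ne_top.2 ⟨ENNReal.add_ne_top.2 ⟨?_, ?_⟩, hv⟩
    · exact ENNReal.add_ne_top.2 ⟨hv, ENNReal.coe_ne_top⟩
    · exact ENNReal.add_ne_top.2 ⟨hv, ENNReal.coe_ne_top⟩
  have hak : ∀ n k, a (n + k) = a n * ENNReal.ofReal ((1 / 2) ^ k) := by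
    intro n k
    rw [hadef]
    simp only
    rw [← ENNReal.ofReal_mul (by positivity), pow_add]
    ring_nf
  have htail : ∀ n (R : ℝ), ∫⁻ x in closedBall (0 : E d) R, ∑' k, T (n + k) x ≤
      a n * (2 * M (closedBall (0 : E d) R)) := by
    intro n R
    rw [lintegral_tsum (fun k => (hTm _).aemeasurable)]
    calc ∑' k, ∫⁻ x in closedBall (0 : E d) R, T (n + k) x
        ≤ ∑' k, (a n * M (closedBall (0 : E d) R)) * ENNReal.ofReal ((1 / 2) ^ k) := by
          refine ENNReal.tsum_le_tsum fun k => ?_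
          refine (hTi _ _).trans (le_of_eq ?_)
          rw [hak]
          ring
      _ = (a n * M (closedBall (0 : E d) R)) * ∑' k : ℕ, ENNReal.ofReal ((1 / 2) ^ k) :=
          ENNReal.tsum_mul_left
      _ ≤ (a n * M (closedBall (0 : E d) R)) * 2 := by
          gcongr
          exact ConvA_geom
      _ = _ := by ring
  have ha_lim : Filter.Tendsto a Filter.atTop (nhds 0) := by
    have e1 : Filter.Tendsto (fun n : ℕ => 2 * (1 / 2 : ℝ) ^ n) Filter.atTop (nhds 0) := by
      have := (tendsto_pow_atTop_nhds_zero_of_lt_one (r := (1 / 2 : ℝ)) (by norm_num)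
        (by norm_num)).const_mul 2
      simpa using this
    have e2 := ENNReal.tendsto_ofReal e1
    rw [ENNReal.ofReal_zero] at e2
    exact e2
  -- the sum of the majorants is finite almost everywhere
  have hS : ∀ᵐ x : E d, ∑' k, T k x ≠ ⊤ := by
    have e1 : ∀ m : ℕ, ∀ᵐ x ∂(volume.restrict (closedBall (0 : E d) m)), ∑' k, T k x < ⊤ := by
      intro m
      refine ae_lt_top (Measurable.tsum hTm) ?_
      have e2 := htail 0 m
      simp only [zero_add] at e2
      exact ne_top_of_le_ne_top (ENNReal.mul_ne_top (hat 0)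
        (ENNReal.mul_ne_top (by norm_num) (hMt _))) e2
    have e3 : ∀ m : ℕ, ∀ᵐ x : E d, x ∈ closedBall (0 : E d) m → ∑' k, T k x < ⊤ := fun m =>
      (ae_restrict_iff' measurableSet_closedBall).1 (e1 m)
    filter_upwards [ae_all_iff.2 e3] with x hx
    obtain ⟨m, hm⟩ := exists_nat_ge ‖x‖
    refine (hx m ?_).ne
    rw [mem_closedBall, dist_zero_right]
    exact hm
  have hNm : ∀ n, AEStronglyMeasurable (fun x => g n x - |f x|) := fun n =>
    ((hgc n).aestronglyMeasurable).sub hf.norm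
  have hN := ConvA_ae hp hNm h1
  have hgood := sph_null hd K hN
  have hgt : ∀ n x, sphMax (g n) x ≠ ⊤ := by
    intro n x
    obtain ⟨C, hC⟩ := (hc n).exists_bound_of_continuous (hgc n)
    exact sphMax_ne_top hd0 (g n) C hC x
  have hcmp : ∀ᵐ x : E d, ∀ n, sphMax f x ≤ sphMax (g n) x + ∑' k, T (n + k) x ∧
      sphMax (g n) x ≤ sphMax f x + ∑' k, T (n + k) x := by
    filter_upwards [hgood] with x hx n
    have hx' : ∀ t : ℝ, 0 < t → ∀ᵐ w : Sph d ∂(sigma d), Filter.Tendsto
        (fun n => g n (x - t • (w : E d))) Filter.atTop (nhds |f (x - t • (w : E d))|) := by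
      intro t ht
      rw [ae_iff]
      exact hx t ht
    obtain ⟨e1, e2⟩ := ConvA_cmp (f := f) hgc hx' n
    have e3 : ∑' k, sphMax (fun y => g (n + k + 1) y - g (n + k) y) x ≤ ∑' k, T (n + k) x :=
      ENNReal.tsum_le_tsum fun k => hTw (n + k) x
    exact ⟨e1.trans (by gcongr), e2.trans (by gcongr)⟩
  have hfin : ∀ᵐ x, sphMax f x ≠ ⊤ := by
    filter_upwards [hcmp, hS] with x hx hs
    have e1 := (hx 0).1
    simp only [zero_add] at e1
    exact ne_top_of_le_ne_top (ENNReal.add_ne_top.2 ⟨hgt 0 x, hs⟩) e1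
  have hdiff : ∀ᵐ x : E d, ∀ n, ‖(sphMax (g n) x).toReal - (sphMax f x).toReal‖ₑ ≤
      ∑' k, T (n + k) x := by
    filter_upwards [hcmp, hfin] with x hx hfx n
    exact ConvA_toReal hfx (hgt n x) (hx n).1 (hx n).2
  have hmeas : AEStronglyMeasurable (fun x => (sphMax f x).toReal) := by
    refine aestronglyMeasurable_of_tendsto_ae Filter.atTop
      (f := fun n x => (sphMax (g n) x).toReal) ?_ ?_
    · intro n
      exact (ConvA_meas hd0 (hgc n) (hc n)).ennreal_toReal.aestronglyMeasurable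
    · filter_upwards [hdiff, hS] with x hx hs
      rw [tendsto_iff_edist_tendsto_0]
      have e1 : Filter.Tendsto (fun n => ∑' k, T (n + k) x) Filter.atTop (nhds 0) := by
        have e2 := ENNReal.tendsto_sum_nat_add (fun k => T k x) hs
        refine e2.congr fun n => ?_
        refine tsum_congr fun k => ?_
        rw [add_comm]
      refine tendsto_of_tendsto_of_tendsto_of_le_of_le tendsto_const_nhds e1
        (fun _ => zero_le) fun n => ?_
      rw [edist_eq_enorm_sub]
      exact hx n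
  refine ⟨hfin, ?_, ?_⟩
  · -- local integrability
    intro x0
    refine ⟨closedBall (0 : E d) (‖x0‖ + 1), ?_, ?_⟩
    · refine Filter.mem_of_superset (isOpen_ball.mem_nhds (x := x0)
        (s := ball (0 : E d) (‖x0‖ + 1)) ?_) ball_subset_closedBall
      rw [mem_ball, dist_zero_right]
      linarith
    · refine ⟨hmeas.restrict, ?_⟩
      rw [HasFiniteIntegral]
      obtain ⟨C, hC⟩ := (hc 0).exists_bound_of_continuous (hgc 0)
      have e0 : ∀ x, sphMax (g 0) x ≤ ENNReal.ofReal C := by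
        intro x
        have := sigma_prob hd0
        refine iSup₂_le fun t _ => ?_
        calc ∫⁻ y, ‖g 0 (x - t • (y : E d))‖ₑ ∂(sigma d) ≤ ∫⁻ _, ENNReal.ofReal C ∂(sigma d) := by
              refine lintegral_mono fun y => ?_
              rw [← ofReal_norm]
              exact ENNReal.ofReal_le_ofReal (hC _)
          _ = ENNReal.ofReal C := by rw [lintegral_const, measure_univ, mul_one]
      calc ∫⁻ x in closedBall (0 : E d) (‖x0‖ + 1), ‖(sphMax f x).toReal‖ₑ
          ≤ ∫⁻ x in closedBall (0 : E d) (‖x0‖ + 1), (ENNReal.ofReal C + ∑' k, T (0 + k) x) := by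
            refine lintegral_mono_ae (ae_restrict_of_ae ?_)
            filter_upwards [hcmp] with x hx
            rw [Real.enorm_eq_ofReal ENNReal.toReal_nonneg]
            refine ENNReal.ofReal_toReal_le.trans ?_
            exact (hx 0).1.trans (by gcongr; exact e0 x)
        _ = ENNReal.ofReal C * volume (closedBall (0 : E d) (‖x0‖ + 1)) +
            ∫⁻ x in closedBall (0 : E d) (‖x0‖ + 1), ∑' k, T (0 + k) x := by
            rw [lintegral_add_left measurable_const, lintegral_const, Measure.restrict_apply_univ]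
        _ < ⊤ := by
            refine ENNReal.add_lt_top.2 ⟨?_, ?_⟩
            · exact ENNReal.mul_lt_top ENNReal.ofReal_lt_top measure_closedBall_lt_top
            · exact lt_of_le_of_lt (htail 0 _) (ENNReal.mul_ne_top (hat 0)
                (ENNReal.mul_ne_top (by norm_num) (hMt _))).lt_top
  · intro R
    have e1 : Filter.Tendsto (fun n => a n * (2 * M (closedBall (0 : E d) R))) Filter.atTop
        (nhds 0) := by
      have := ENNReal.Tendsto.mul_const ha_lim (b := 2 * M (closedBall (0 : E d) R))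
        (Or.inr (ENNReal.mul_ne_top (by norm_num) (hMt R)))
      rw [zero_mul] at this
      exact this
    refine tendsto_of_tendsto_of_tendsto_of_le_of_le tendsto_const_nhds e1
      (fun _ => zero_le) fun n => ?_
    refine le_trans ?_ (htail n R)
    refine lintegral_mono_ae (ae_restrict_of_ae ?_)
    filter_upwards [hdiff] with x hx
    exact hx n

end Pool.Agent.Lib.MP_ff3fe0_an_SPH
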