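import Pool.Agent.Lib.MP_ff3fe0_an_SPH.CvA

set_option autoImplicit false

/-!
# The derivatives of a convolution
-/

namespace Pool.Agent.Lib.MP_ff3fe0_an_SPH

open MeasureTheory Metric Set
open scoped ENNReal NNReal ContDiff FourierTransform
open Pool.Agent.Lib.MP_ff3fe0_an

variable {d : ℕ}

private lemma cvB_fderiv (f : E d → ℝ) (x : E d) :
    fderiv ℝ f x = ∑ i : Fin d, pd i f x • (EuclideanSpace.proj i : E d →L[ℝ] ℝ) := by
  ext y
  have hy : y = ∑ i : Fin d, y i • EuclideanSpace.single i (1 : ℝ) := by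
    ext j
    simp [Finset.sum_apply, Pi.single_apply]
  conv_lhs => rw [hy]
  rw [map_sum, sum_apply]
  refine Finset.sum_congr rfl fun i _ => ?_
  rw [map_smul, smul_apply, smul_eq_mul, smul_eq_mul, mul_comm]
  rfl

/-- the linear map `t ↦ b⁻¹ t dx_i` -/
private noncomputable def cvB_L (b : ℝ) (i : Fin d) : ℝ →L[ℝ] (E d →L[ℝ] ℝ) :=
  ContinuousLinearMap.smulRight (b⁻¹ • (1 : ℝ →L[ℝ] ℝ)) (EuclideanSpace.proj i : E d →L[ℝ] ℝ)

private lemma cvB_L_norm {b : ℝ} (hb : 0 < b) (i : Fin d) :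
    ‖cvB_L b i‖ ≤ b⁻¹ * ‖(EuclideanSpace.proj i : E d →L[ℝ] ℝ)‖ := by
  unfold cvB_L
  rw [ContinuousLinearMap.norm_smulRight_apply, norm_smul, norm_one, mul_one,
    Real.norm_of_nonneg (inv_pos.2 hb).le]

private lemma cvB_step {K : E d → ℝ} (hK : IsKer K) (k : ℕ) {b : ℝ} (hb : 0 < b) {q : E d → ℝ}
    (hq : LocallyIntegrable q) (x : E d) :
    ‖iteratedFDeriv ℝ (k + 1) (cv K b q) x‖ ≤ ∑ i : Fin d,
      b⁻¹ * ‖(EuclideanSpace.proj i : E d →L[ℝ] ℝ)‖ *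
        ‖iteratedFDeriv ℝ k (cv (pd i K) b q) x‖ := by
  rw [← norm_iteratedFDeriv_fderiv]
  have h1 : fderiv ℝ (cv K b q) = fun x => ∑ i : Fin d, (cvB_L b i ∘ cv (pd i K) b q) x := by
    funext x
    rw [cvB_fderiv]
    refine Finset.sum_congr rfl fun i _ => ?_
    rw [cv_pd hK hb hq i]
    simp only [cvB_L, Function.comp, smul_apply,
      ContinuousLinearMap.smulRight_apply, one_apply_eq_self, smul_eq_mul]
  have hc : ∀ i : Fin d, ContDiff ℝ k (cv (pd i K) b q) := fun i =>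
    (cv_contDiff (hK.pd i) hb hq).of_le (by exact_mod_cast le_top)
  have hc' : ∀ i : Fin d, ContDiff ℝ k (cvB_L b i ∘ cv (pd i K) b q) := fun i =>
    (cvB_L b i).contDiff.comp (hc i)
  have h2 : iteratedFDeriv ℝ k (fderiv ℝ (cv K b q)) x =
      ∑ i : Fin d, iteratedFDeriv ℝ k (cvB_L b i ∘ cv (pd i K) b q) x := by
    rw [h1]
    exact iteratedFDeriv_fun_sum_apply fun i _ => (hc' i).contDiffAt
  rw [h2]
  refine (norm_sum_le _ _).trans (Finset.sum_le_sum fun i _ => ?_)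
  rw [ContinuousLinearMap.iteratedFDeriv_comp_left (cvB_L b i) (hc i).contDiffAt le_rfl]
  exact (ContinuousLinearMap.norm_compContinuousMultilinearMap_le _ _).trans
    (mul_le_mul_of_nonneg_right (cvB_L_norm hb i) (norm_nonneg _))

private lemma cvB_main (k : ℕ) : ∀ K : E d → ℝ, IsKer K → ∃ C : ℝ≥0, ∀ (b : ℝ), 0 < b →
    ∀ q : E d → ℝ, LocallyIntegrable q → ∀ x : E d,
      ‖iteratedFDeriv ℝ k (cv K b q) x‖ₑ ≤ C * ENNReal.ofReal ((b⁻¹) ^ k) *
        ∫⁻ y in closedBall (0 : E d) 1, ‖q (x - b • y)‖ₑ := by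
  induction k with
  | zero =>
    intro K hK
    obtain ⟨C, hC⟩ := cv_le hK
    refine ⟨C, fun b _ q _ x => ?_⟩
    have h1 : ‖iteratedFDeriv ℝ 0 (cv K b q) x‖ₑ = ‖cv K b q x‖ₑ := by
      rw [← ofReal_norm, ← ofReal_norm, norm_iteratedFDeriv_zero]
    rw [h1, pow_zero, ENNReal.ofReal_one, mul_one]
    exact hC b q x
  | succ k ih =>
    intro K hK
    choose C hC using fun i : Fin d => ih (pd i K) (hK.pd i)
    refine ⟨∑ i : Fin d, ‖(EuclideanSpace.proj i : E d →L[ℝ] ℝ)‖₊ * C i,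
      fun b hb q hq x => ?_⟩
    have hb' : 0 ≤ b⁻¹ := (inv_pos.2 hb).le
    have h1 := cvB_step hK k hb hq x
    calc ‖iteratedFDeriv ℝ (k + 1) (cv K b q) x‖ₑ
        = ENNReal.ofReal ‖iteratedFDeriv ℝ (k + 1) (cv K b q) x‖ :=
          (ofReal_norm _).symm
      _ ≤ ENNReal.ofReal (∑ i : Fin d, b⁻¹ * ‖(EuclideanSpace.proj i : E d →L[ℝ] ℝ)‖ *
            ‖iteratedFDeriv ℝ k (cv (pd i K) b q) x‖) := ENNReal.ofReal_le_ofReal h1
      _ = ∑ i : Fin d, ENNReal.ofReal b⁻¹ * ‖(EuclideanSpace.proj i : E d →L[ℝ] ℝ)‖₊ *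
            ‖iteratedFDeriv ℝ k (cv (pd i K) b q) x‖ₑ := by
          rw [ENNReal.ofReal_sum_of_nonneg fun i _ => by positivity]
          refine Finset.sum_congr rfl fun i _ => ?_
          rw [ENNReal.ofReal_mul (by positivity), ENNReal.ofReal_mul hb',
            ofReal_norm, ofReal_norm]
          rfl
      _ ≤ ∑ i : Fin d, ENNReal.ofReal b⁻¹ * ‖(EuclideanSpace.proj i : E d →L[ℝ] ℝ)‖₊ *
            (C i * ENNReal.ofReal ((b⁻¹) ^ k) *
              ∫⁻ y in closedBall (0 : E d) 1, ‖q (x - b • y)‖ₑ) := by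
          refine Finset.sum_le_sum fun i _ => ?_
          gcongr
          exact hC i b hb q hq x
      _ = _ := by
          rw [ENNReal.ofNNReal_finsetSum, pow_succ, ENNReal.ofReal_mul (by positivity),
            Finset.sum_mul, Finset.sum_mul]
          refine Finset.sum_congr rfl fun i _ => ?_
          rw [ENNReal.coe_mul]
          ring

theorem cv_iter_le {K : E d → ℝ} (hK : IsKer K) (k : ℕ) : ∃ C : ℝ≥0, ∀ (b : ℝ), 0 < b →
    ∀ q : E d → ℝ, LocallyIntegrable q → ∀ x : E d,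
      ‖iteratedFDeriv ℝ k (cv K b q) x‖ₑ ≤ C * ENNReal.ofReal ((b⁻¹) ^ k) *
        ∫⁻ y in closedBall (0 : E d) 1, ‖q (x - b • y)‖ₑ :=
  cvB_main k K hK

end Pool.Agent.Lib.MP_ff3fe0_an_SPH
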