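import Pool.Agent.Lib.MP_ff3fe0_an_SPH.CvA

set_option autoImplicit false

/-!
# The frequency decomposition
-/

namespace Pool.Agent.Lib.MP_ff3fe0_an_SPH

open MeasureTheory Metric Set
open scoped ENNReal NNReal ContDiff FourierTransform
open Pool.Agent.Lib.MP_ff3fe0_an

variable {d : ℕ}

private theorem DecA_sc_pos (m : ℕ) : 0 < sc m := by
  unfold sc
  positivity

private theorem DecA_sc_le (m : ℕ) : sc m ≤ 1 := by
  unfold sc
  exact pow_le_one₀ (by norm_num) (by norm_num)

theorem tele_sum (K : Ker d) {g : E d → ℝ} (hg : ContDiff ℝ ∞ g) (hc : HasCompactSupport g)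
    (M : ℕ) (x : E d) : cv K.Psi (sc M) g x = cv K.Psi 1 g x +
      ∑ m ∈ Finset.Icc 1 M, sc m * cv K.S (sc m) (cvv K.ka (sc m) (gradient g)) x := by
  induction M with
  | zero =>
    have : sc 0 = 1 := by
      unfold sc
      simp
    rw [this]
    simp
  | succ M ih =>
    have h1 := K.tele g hg hc (sc (M + 1)) (DecA_sc_pos _) x
    have h2 : 2 * sc (M + 1) = sc M := by
      unfold sc
      rw [pow_succ]
      ring
    rw [h2] at h1
    rw [Finset.sum_Icc_succ_top (by omega), ← h1, ← add_assoc, ← ih]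
    ring

/-- The decomposition of `g` in a ball. -/
theorem decomp (K : Ker d) {g : E d → ℝ} (hg : ContDiff ℝ ∞ g) (hc : HasCompactSupport g)
    {r : ℝ} {q : ℕ → E d → ℝ} (hq : ∀ m, 1 ≤ m → ∀ y ∈ closedBall (0 : E d) r,
      q m y = cvv K.ka (sc m) (gradient g) y) (M : ℕ) {y : E d} (hy : ‖y‖ + 1 ≤ r) :
    g y = cv K.Psi 1 g y + ∑ m ∈ Finset.Icc 1 M, gm K.S m (q m) y +
      (g y - cv K.Psi (sc M) g y) := by
  have h1 : ∑ m ∈ Finset.Icc 1 M, gm K.S m (q m) y =
      ∑ m ∈ Finset.Icc 1 M, sc m * cv K.S (sc m) (cvv K.ka (sc m) (gradient g)) y := by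
    refine Finset.sum_congr rfl fun m hm => ?_
    unfold gm
    congr 1
    refine cv_congr K.hS (DecA_sc_pos m).le fun z hz => ?_
    refine hq m (Finset.mem_Icc.1 hm).1 z ?_
    rw [mem_closedBall, dist_eq_norm] at hz
    rw [mem_closedBall, dist_zero_right]
    have h2 : ‖z‖ ≤ ‖z - y‖ + ‖y‖ := by
      have := norm_add_le (z - y) y
      rwa [sub_add_cancel] at this
    have h3 := DecA_sc_le m
    linarith
  rw [h1, ← tele_sum K hg hc M y]
  ring

end Pool.Agent.Lib.MP_ff3fe0_an_SPH
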