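import Pool.Agent.Lib.MP_ff3fe0_an.Defs

set_option autoImplicit false

/-!
# Definitions for the positive theorem on the spherical maximal function
-/

namespace Pool.Agent.Lib.MP_ff3fe0_an_SPH

open MeasureTheory Metric Set
open scoped ENNReal NNReal ContDiff FourierTransform
open Pool.Agent.Lib.MP_ff3fe0_an

/-- The unit sphere. -/
abbrev Sph (d : ℕ) : Type := sphere (0 : E d) 1

variable {d : ℕ}

/-! ### Spherical means and convolutions -/

/-- The `i`-th partial derivative. -/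
noncomputable def pd (i : Fin d) (f : E d → ℝ) (x : E d) : ℝ :=
  fderiv ℝ f x (EuclideanSpace.single i 1)

/-- The spherical mean of `g` over the sphere of radius `t` around `x`. -/
noncomputable def sm (g : E d → ℝ) (t : ℝ) (x : E d) : ℝ :=
  ∫ w : Sph d, g (x - t • (w : E d)) ∂(sigma d)

/-- The convolution of `f` with the dilated kernel `b ^ (-d) K (· / b)`. -/
noncomputable def cv (K : E d → ℝ) (b : ℝ) (f : E d → ℝ) (x : E d) : ℝ :=
  ∫ y, K y * f (x - b • y)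

/-- The convolution of the vector field `H` with the dilated vector kernel `b ^ (-d) K (· / b)`. -/
noncomputable def cvv (K : E d → E d) (b : ℝ) (H : E d → E d) (x : E d) : ℝ :=
  ∫ y, inner ℝ (K y) (H (x - b • y))

/-- The Hardy-Littlewood maximal function. -/
noncomputable def hlm {F : Type*} [NormedAddCommGroup F] (H : E d → F) (x : E d) : ℝ≥0∞ :=
  ⨆ r : ℝ, ⨆ _ : 0 < r, (volume (ball x r))⁻¹ * ∫⁻ y in ball x r, ‖H y‖ₑ

/-- The Fourier transform of the kernel `K` vanishes of order `d` at `0` and decays. -/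
def FB (K : E d → ℝ) : Prop :=
  ∃ C : ℝ, ∀ ξ : E d, ‖𝓕 (fun y => (K y : ℂ)) ξ‖ ≤ C * ‖ξ‖ ^ d / (1 + ‖ξ‖) ^ (2 * d + 4)

/-- A smooth kernel supported in the unit ball. -/
structure IsKer {F : Type*} [NormedAddCommGroup F] [NormedSpace ℝ F] (K : E d → F) : Prop where
  smooth : ContDiff ℝ ∞ K
  supp : ∀ y, 1 < ‖y‖ → K y = 0

/-- The kernels of the frequency decomposition. -/
structure Ker (d : ℕ) where
  Psi : E d → ℝ
  S : E d → ℝ
  ka : E d → E d
  hPsi : IsKer Psi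
  hS : IsKer S
  hka : IsKer ka
  Psi_half : ∀ y, 1 / 2 < ‖y‖ → Psi y = 0
  Psi_int : ∫ y, Psi y = 1
  Psi_even : ∀ y, Psi (-y) = Psi y
  ka_odd : ∀ y, ka (-y) = - ka y
  S_hat : FB S
  Psi_hat : FB (fun y => Psi y - (2 ^ d)⁻¹ * Psi ((2 : ℝ)⁻¹ • y))
  tele : ∀ g : E d → ℝ, ContDiff ℝ ∞ g → HasCompactSupport g → ∀ b : ℝ, 0 < b → ∀ x,
    cv Psi b g x - cv Psi (2 * b) g x = b * cv S b (cvv ka b (gradient g)) x

/-- The scales `2 ^ (-m)`. -/
noncomputable def sc (m : ℕ) : ℝ := (1 / 2) ^ m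

/-- A bounded measurable function vanishing outside the ball of radius `r`. -/
structure Bdd (r : ℝ) (q : E d → ℝ) : Prop where
  meas : Measurable q
  bdd : ∃ C : ℝ, ∀ y, |q y| ≤ C
  supp : ∀ y, r < ‖y‖ → q y = 0

/-- The square function of the spherical means of the convolution of `q` with `K` at the scale
`2 ^ (-m)`. -/
noncomputable def Lk (K : E d → ℝ) (m : ℕ) (q : E d → ℝ) (x : E d) : ℝ≥0∞ :=
  ∑ k ∈ Finset.range 2, ENNReal.ofReal (2 ^ m / 4 ^ (m * k)) *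
    ∫⁻ t in Icc (1 / 2 : ℝ) (5 / 2),
      ‖iteratedDeriv k (fun s => sm (cv K (sc m) q) s x) t‖ₑ ^ 2

/-- The Fourier transform of `sigma` in terms of cosines. -/
noncomputable def mus (ξ : E d) : ℝ := ∫ w : Sph d, Real.cos (inner ℝ ξ (w : E d)) ∂(sigma d)

/-! ### The frequency pieces -/

/-- The weight in the radial direction at the scale `2 ^ (-n)`. -/
noncomputable def Th (n : ℕ) (s : ℝ) : ℝ≥0∞ := ENNReal.ofReal (2 ^ n / (1 + 2 ^ n * |s|) ^ 2)

/-- The average of `|q|` at the scale `2 ^ (-m)`. -/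
noncomputable def av (m : ℕ) (q : E d → ℝ) (y : E d) : ℝ≥0∞ :=
  ∫⁻ z in closedBall (0 : E d) 1, ‖q (y - sc m • z)‖ₑ

/-- The average of `|q|` over a larger ball at the scale `2 ^ (-m)`. -/
noncomputable def fat (m : ℕ) (q : E d → ℝ) (y : E d) : ℝ≥0∞ :=
  ∫⁻ z in closedBall (0 : E d) 2, ‖q (y - sc m • z)‖ₑ

/-- The mass of a piece. -/
noncomputable def nm (m : ℕ) (q : E d → ℝ) (x : E d) (t : ℝ) (w : Sph d) : ℝ≥0∞ :=
  ∫⁻ s in Icc (-(1 / 4) : ℝ) (1 / 4), Th m s * fat m q (x - (t + s) • (w : E d))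

/-- The frequency piece of `g` which comes from `q`. -/
noncomputable def gm (S : E d → ℝ) (m : ℕ) (q : E d → ℝ) (y : E d) : ℝ := sc m * cv S (sc m) q y

/-- The pieces of the decomposition of `g`. -/
noncomputable def pc (K : Ker d) (g : E d → ℝ) (q : ℕ → E d → ℝ) (m : ℕ) : E d → ℝ :=
  if m = 0 then cv K.Psi 1 g else gm K.S m (q m)

/-- The derivatives of `∫ (w - c) φ (x - t w) dσ(w)` in `t`. -/
noncomputable def JJ (j : ℕ) (φ : E d → ℝ) (c x : E d) (t : ℝ) : E d :=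
  iteratedDeriv j (fun s => ∫ w : Sph d, φ (x - s • (w : E d)) • ((w : E d) - c) ∂(sigma d)) t

/-- The normalised size of `JJ` for a frequency piece. -/
noncomputable def XX (S : E d → ℝ) (m j : ℕ) (q : E d → ℝ) (c x : E d) (t : ℝ) : ℝ≥0∞ :=
  ENNReal.ofReal (2 ^ m * sc m ^ j) * ‖JJ j (gm S m q) c x t‖ₑ

/-- The average over the interval of length `2 ^ (-n)` around `t`. -/
noncomputable def Avr (n : ℕ) (F : ℝ → ℝ≥0∞) (t : ℝ) : ℝ≥0∞ :=
  2 ^ n * ∫⁻ r in Icc (-(sc n / 2)) (sc n / 2), F (t + r)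

/-- The scales of the averages at the level `k` for the frequency `m`. -/
def RR (k m : ℕ) : Finset ℕ := {k - 1, k, max k m}

/-- The error at the level `k` for the vector `c`. -/
noncomputable def DD (S : E d → ℝ) (q : ℕ → E d → ℝ) (k : ℕ) (x : E d) (t : ℝ) (c : E d) : ℝ≥0∞ :=
  ∑' m : ℕ, (1 / 2) ^ ((k - m) + (m - k)) * ∑ n ∈ RR k m, ∑ j ∈ Finset.range 3,
    Avr n (fun s => XX S m j (q m) c x s) t

/-! ### The sources -/

/-- The density of the source measure at the level `k`. -/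
noncomputable def pden (P : ℕ → E d → ℝ≥0∞) (k : ℕ) (x : E d) (t : ℝ) (c : Sph d) : ℝ≥0∞ :=
  ∑' m : ℕ, (3 / 4) ^ (k - m) *
    ∫⁻ s in Icc (-(3 / 4) : ℝ) (3 / 4), Th (min k m) s * P m (x - (t + s) • (c : E d))

/-- The source measure at the level `k`. -/
noncomputable def piK (P : ℕ → E d → ℝ≥0∞) (k : ℕ) (x : E d) (t : ℝ) : Measure (Sph d) :=
  (sigma d).withDensity (pden P k x t)

/-- The loss in the comparison of the mass of a piece with the source measure. -/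
noncomputable def KK (k m : ℕ) : ℝ≥0∞ := (4 / 3) ^ (k - m) * 2 ^ (m - k)

/-- The density of the sources at the frequency `m`. -/
noncomputable def PP (p η A r : ℝ) (q : ℕ → E d → ℝ) (m : ℕ) (y : E d) : ℝ≥0∞ :=
  ENNReal.ofReal ((2 : ℝ) ^ (-(η * m))) * ∫⁻ z in closedBall (0 : E d) 2,
    (2 * ‖q m (y - sc m • z)‖ₑ ^ p +
      (closedBall (0 : E d) r).indicator (fun _ => ENNReal.ofReal (A ^ p)) (y - sc m • z))

/-- The bilinear expression. -/
noncomputable def BB (n : ℕ) (G G' : E d → ℝ≥0∞) (x : E d) : ℝ≥0∞ :=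
  ∫⁻ t in Icc (1 / 4 : ℝ) 3, ∫⁻ t' in Icc (1 / 4 : ℝ) 3, Th n (t - t') *
    ∫⁻ a : Sph d, ∫⁻ b : Sph d, ‖(a : E d) - (b : E d)‖ₑ ^ 2 * G (x - t • (a : E d)) *
      G' (x - t' • (b : E d)) ∂(sigma d) ∂(sigma d)

/-! ### Dyadic cubes -/

/-- The dyadic cube of side `2 ^ i` which contains `x`. -/
def dc (i : ℤ) (x : E d) : Set (E d) := {y | ∀ l, ⌊(2 : ℝ) ^ (-i) * y l⌋ = ⌊(2 : ℝ) ^ (-i) * x l⌋}

/-- The average of `f` over the dyadic cube of side `2 ^ i` which contains `x`. -/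
noncomputable def dav (i : ℤ) (f : E d → ℝ≥0∞) (x : E d) : ℝ≥0∞ :=
  (volume (dc i x))⁻¹ * ∫⁻ y in dc i x, f y

/-- The union of the maximal dyadic cubes of side `2 ^ i` over which the average of `f` is greater
than `a`. -/
def lev (f : E d → ℝ≥0∞) (a : ℝ≥0∞) (i : ℤ) : Set (E d) :=
  {x | a < dav i f x ∧ ∀ i' : ℤ, i < i' → dav i' f x ≤ a}

end Pool.Agent.Lib.MP_ff3fe0_an_SPH
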