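import Pool.Agent.Lib.MP_ff3fe0_an_SPH.Defs

set_option autoImplicit false

/-!
# Dyadic cubes
-/

namespace Pool.Agent.Lib.MP_ff3fe0_an_SPH

open MeasureTheory Metric Set
open scoped ENNReal NNReal ContDiff FourierTransform
open Pool.Agent.Lib.MP_ff3fe0_an

variable {d : ℕ}

theorem mem_dc_self (i : ℤ) (x : E d) : x ∈ dc i x := fun _ => rfl

theorem dc_eq {i : ℤ} {x y : E d} (h : y ∈ dc i x) : dc i y = dc i x := by
  ext z
  exact ⟨fun hz l => (hz l).trans (h l), fun hz l => (hz l).trans (h l).symm⟩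

theorem dc_mono {i i' : ℤ} (h : i ≤ i') (x : E d) : dc i x ⊆ dc i' x := by
  intro y hy l
  obtain ⟨n, rfl⟩ := Int.le.dest h
  have e : ∀ a : ℝ, (2 : ℝ) ^ (-(i + (n : ℤ))) * a = ((2 : ℝ) ^ (-i) * a) / ((2 ^ n : ℕ) : ℝ) := by
    intro a
    rw [neg_add, zpow_add₀ (by norm_num), zpow_neg _ (n : ℤ), zpow_natCast]
    push_cast
    field_simp
  rw [e, e, Int.floor_div_natCast, Int.floor_div_natCast, hy l]

/-- The vector of the indices of the cube of `x`. -/
private noncomputable def DyA_fl (i : ℤ) (x : E d) : Fin d → ℤ := fun l => ⌊(2 : ℝ) ^ (-i) * x l⌋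

private theorem DyA_measurable_fl (i : ℤ) : Measurable (DyA_fl (d := d) i) := by
  refine measurable_pi_lambda _ (fun l => ?_)
  refine Int.measurable_floor.comp ?_
  have h : Measurable (fun x : E d => x l) :=
    (EuclideanSpace.proj (𝕜 := ℝ) l).continuous.measurable
  exact h.const_mul _

private theorem DyA_dc (i : ℤ) (x : E d) : dc i x = DyA_fl i ⁻¹' {DyA_fl i x} := by
  ext y
  simp only [mem_preimage, mem_singleton_iff]
  exact ⟨fun h => funext h, fun h l => congrFun h l⟩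

theorem measurableSet_dc (i : ℤ) (x : E d) : MeasurableSet (dc i x) := by
  rw [DyA_dc]
  exact DyA_measurable_fl i (measurableSet_singleton _)

private theorem DyA_dc_pi (i : ℤ) (x : E d) : dc i x =
    (@WithLp.ofLp 2 (Fin d → ℝ)) ⁻¹' (Set.pi univ fun l =>
      Ico ((2 : ℝ) ^ i * ⌊(2 : ℝ) ^ (-i) * x l⌋)
        ((2 : ℝ) ^ i * ⌊(2 : ℝ) ^ (-i) * x l⌋ + 2 ^ i)) := by
  have hp : (0 : ℝ) < (2 : ℝ) ^ i := by positivity
  ext y
  simp only [dc, mem_setOf_eq, mem_preimage, Set.mem_pi, mem_univ, true_imp_iff, mem_Ico]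
  refine forall_congr' (fun l => ?_)
  generalize ⌊(2 : ℝ) ^ (-i) * x l⌋ = k
  rw [Int.floor_eq_iff, zpow_neg, inv_mul_eq_div, le_div_iff₀ hp, div_lt_iff₀ hp]
  constructor
  · rintro ⟨h1, h2⟩
    exact ⟨by linarith, by linarith⟩
  · rintro ⟨h1, h2⟩
    exact ⟨by linarith, by linarith⟩

theorem volume_dc (i : ℤ) (x : E d) : volume (dc i x) = ENNReal.ofReal (((2 : ℝ) ^ i) ^ d) := by
  rw [DyA_dc_pi, (PiLp.volume_preserving_ofLp (Fin d)).measure_preimage
    (MeasurableSet.univ_pi (fun l => measurableSet_Ico)).nullMeasurableSet, Real.volume_pi_Ico,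
    ENNReal.ofReal_pow (by positivity)]
  simp

theorem dc_dist {i : ℤ} {x y : E d} (h : y ∈ dc i x) : ‖y - x‖ ≤ √d * (2 : ℝ) ^ i := by
  have hp : (0 : ℝ) < (2 : ℝ) ^ i := by positivity
  have key : ∀ l, ‖(y - x) l‖ ≤ (2 : ℝ) ^ i := by
    intro l
    have h1 := Int.abs_sub_lt_one_of_floor_eq_floor (h l)
    rw [← mul_sub, abs_mul, abs_of_pos (by positivity), zpow_neg, inv_mul_eq_div,
      div_lt_iff₀ hp, one_mul] at h1
    have e : (y - x) l = y l - x l := rfl
    rw [e, Real.norm_eq_abs]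
    exact h1.le
  rw [EuclideanSpace.norm_eq]
  calc √(∑ l, ‖(y - x) l‖ ^ 2) ≤ √(∑ _l : Fin d, ((2 : ℝ) ^ i) ^ 2) := by
        refine Real.sqrt_le_sqrt (Finset.sum_le_sum fun l _ => ?_)
        exact pow_le_pow_left₀ (norm_nonneg _) (key l) 2
    _ = √d * (2 : ℝ) ^ i := by
        rw [Finset.sum_const, Finset.card_univ, Fintype.card_fin, nsmul_eq_mul,
          Real.sqrt_mul (by positivity), Real.sqrt_sq hp.le]

/-- The corner of the cube which contains `x`. -/
noncomputable def cor (i : ℤ) (x : E d) : E d :=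
  WithLp.toLp 2 (fun l => (2 : ℝ) ^ i * ⌊(2 : ℝ) ^ (-i) * x l⌋)

theorem cor_mem (i : ℤ) (x : E d) : cor i x ∈ dc i x := by
  intro l
  have e : cor i x l = (2 : ℝ) ^ i * ⌊(2 : ℝ) ^ (-i) * x l⌋ := rfl
  have hp : (2 : ℝ) ^ i ≠ 0 := by positivity
  rw [e, ← mul_assoc, zpow_neg, inv_mul_cancel₀ hp, one_mul, Int.floor_intCast]

theorem cor_eq {i : ℤ} {x y : E d} (h : y ∈ dc i x) : cor i y = cor i x := by
  have e : (fun l => (2 : ℝ) ^ i * (⌊(2 : ℝ) ^ (-i) * y l⌋ : ℝ)) =
      (fun l => (2 : ℝ) ^ i * (⌊(2 : ℝ) ^ (-i) * x l⌋ : ℝ)) := by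
    funext l
    rw [h l]
  simp only [cor, e]

theorem measurable_cor (i : ℤ) : Measurable (cor i : E d → E d) := by
  have h : Measurable ((fun k : Fin d → ℤ => (WithLp.toLp 2 fun l => (2 : ℝ) ^ i * (k l : ℝ) : E d))
      ∘ DyA_fl i) := (measurable_of_countable _).comp (DyA_measurable_fl i)
  exact h

theorem measurable_dav (i : ℤ) {f : E d → ℝ≥0∞} (hf : Measurable f) : Measurable (dav i f) := by
  have h : Measurable ((fun k : Fin d → ℤ => (volume (DyA_fl (d := d) i ⁻¹' {k}))⁻¹ *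
      ∫⁻ y in DyA_fl (d := d) i ⁻¹' {k}, f y) ∘ DyA_fl i) :=
    (measurable_of_countable _).comp (DyA_measurable_fl i)
  have e : dav i f = ((fun k : Fin d → ℤ => (volume (DyA_fl (d := d) i ⁻¹' {k}))⁻¹ *
      ∫⁻ y in DyA_fl (d := d) i ⁻¹' {k}, f y) ∘ DyA_fl i) := by
    funext x
    simp only [dav, Function.comp, DyA_dc]
  rw [e]
  exact h

theorem dav_eq {i : ℤ} (f : E d → ℝ≥0∞) {x y : E d} (h : y ∈ dc i x) :
    dav i f y = dav i f x := by
  simp only [dav, dc_eq h]

private theorem DyA_vol_ne_zero (i : ℤ) (x : E d) : volume (dc i x) ≠ 0 := by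
  rw [volume_dc]
  exact (ENNReal.ofReal_pos.2 (by positivity)).ne'

private theorem DyA_vol_ne_top (i : ℤ) (x : E d) : volume (dc i x) ≠ ⊤ := by
  rw [volume_dc]
  exact ENNReal.ofReal_ne_top

private theorem DyA_lintegral_dav_one (i : ℤ) (f : E d → ℝ≥0∞) (x : E d) :
    ∫⁻ y in dc i x, dav i f y = ∫⁻ y in dc i x, f y := by
  rw [setLIntegral_congr_fun (measurableSet_dc i x) (fun y hy => dav_eq f hy),
    setLIntegral_const, dav, mul_comm, ← mul_assoc,
    ENNReal.mul_inv_cancel (DyA_vol_ne_zero i x) (DyA_vol_ne_top i x), one_mul]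

private theorem DyA_disj (i : ℤ) : Pairwise (Function.onFun Disjoint
    (fun k : Fin d → ℤ => DyA_fl (d := d) i ⁻¹' {k})) := by
  intro k k' h
  exact Disjoint.preimage _ (by simpa using h)

/-- The integral over a union of dyadic cubes of the averages. -/
theorem lintegral_dav (i : ℤ) {f : E d → ℝ≥0∞} (hf : Measurable f) {A : Set (E d)}
    (hA : MeasurableSet A) (hs : ∀ x ∈ A, dc i x ⊆ A) :
    ∫⁻ x in A, dav i f x = ∫⁻ x in A, f x := by
  have hU : A = ⋃ k : Fin d → ℤ, A ∩ (DyA_fl i ⁻¹' {k}) := by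
    rw [← inter_iUnion, ← preimage_iUnion]
    ext x
    simp
  have hm : ∀ k : Fin d → ℤ, MeasurableSet (A ∩ (DyA_fl i ⁻¹' {k})) := fun k =>
    hA.inter (DyA_measurable_fl i (measurableSet_singleton _))
  have hd : Pairwise (Function.onFun Disjoint (fun k : Fin d → ℤ => A ∩ (DyA_fl i ⁻¹' {k}))) := by
    intro k k' h
    exact (DyA_disj i h).mono inter_subset_right inter_subset_right
  have h1 : ∀ g : E d → ℝ≥0∞, ∫⁻ x in A, g x =
      ∑' k : Fin d → ℤ, ∫⁻ x in A ∩ (DyA_fl i ⁻¹' {k}), g x := by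
    intro g
    conv_lhs => rw [hU]
    exact lintegral_iUnion hm hd g
  rw [h1, h1]
  refine tsum_congr (fun k => ?_)
  rcases (A ∩ (DyA_fl i ⁻¹' {k})).eq_empty_or_nonempty with he | ⟨x, hx, hxk⟩
  · rw [he]
    simp
  · have e : A ∩ (DyA_fl i ⁻¹' {k}) = dc i x := by
      have hk : DyA_fl i x = k := hxk
      rw [DyA_dc, hk]
      refine inter_eq_right.2 ?_
      have := hs x hx
      rwa [DyA_dc, hk] at this
    rw [e]
    exact DyA_lintegral_dav_one i f x

/-- The integral of a vector-valued function over a union of dyadic cubes, in terms of the cubes: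
if the integrals over all cubes vanish, then so does the integral against a bounded function which
is constant on the cubes. -/
theorem integral_cubes (i : ℤ) {b c : E d → E d} (hb : Integrable b) (hc : Measurable c)
    (hcb : ∃ C : ℝ, ∀ x, ‖c x‖ ≤ C) (hcc : ∀ x, ∀ y ∈ dc i x, c y = c x)
    (h0 : ∀ x, ∫ y in dc i x, b y = 0) : ∫ y, inner ℝ (c y) (b y) = 0 := by
  obtain ⟨C, hC⟩ := hcb
  have hint : Integrable (fun y => inner ℝ (c y) (b y)) := by
    refine (hb.norm.const_mul C).mono' ?_ ?_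
    · exact (hc.aestronglyMeasurable).inner hb.aestronglyMeasurable
    · refine Filter.Eventually.of_forall (fun y => ?_)
      exact (norm_inner_le_norm _ _).trans
        (mul_le_mul_of_nonneg_right (hC y) (norm_nonneg _))
  have hU : (⋃ k : Fin d → ℤ, DyA_fl (d := d) i ⁻¹' {k}) = univ := by
    rw [← preimage_iUnion]
    ext x
    simp
  have hm : ∀ k : Fin d → ℤ, MeasurableSet (DyA_fl (d := d) i ⁻¹' {k}) := fun k =>
    DyA_measurable_fl i (measurableSet_singleton _)
  rw [← setIntegral_univ, ← hU, integral_iUnion hm (DyA_disj i) hint.integrableOn]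
  refine (tsum_congr (fun k => ?_)).trans tsum_zero
  rcases (DyA_fl (d := d) i ⁻¹' {k}).eq_empty_or_nonempty with he | ⟨x, hx⟩
  · rw [he]
    simp
  · have e : DyA_fl i ⁻¹' {k} = dc i x := by
      have hk : DyA_fl i x = k := hx
      rw [DyA_dc, hk]
    rw [e, setIntegral_congr_fun (measurableSet_dc i x)
      (fun y hy => by
        change inner ℝ (c y) (b y) = inner ℝ (c x) (b y)
        rw [hcc x y hy] : EqOn (fun y => inner ℝ (c y) (b y))
        (fun y => inner ℝ (c x) (b y)) (dc i x)),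
      integral_inner hb.integrableOn, h0 x, inner_zero_right]

end Pool.Agent.Lib.MP_ff3fe0_an_SPH
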