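import Pool.Agent.Lib.MP_ff3fe0_an_SPH.DyA

set_option autoImplicit false

/-!
# The maximal dyadic cubes
-/

namespace Pool.Agent.Lib.MP_ff3fe0_an_SPH

open MeasureTheory Metric Set
open scoped ENNReal NNReal ContDiff FourierTransform
open Pool.Agent.Lib.MP_ff3fe0_an

variable {d : ℕ}

/-- The union of all maximal cubes. -/
def Lv (f : E d → ℝ≥0∞) (a : ℝ≥0∞) : Set (E d) := ⋃ i : ℤ, lev f a i

variable {f : E d → ℝ≥0∞} {a : ℝ≥0∞}

theorem measurableSet_lev (hf : Measurable f) (i : ℤ) : MeasurableSet (lev f a i) := by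
  have e : lev f a i = {x | a < dav i f x} ∩ ⋂ i' : ℤ, ⋂ _ : i < i', {x | dav i' f x ≤ a} := by
    ext x
    simp [lev]
  rw [e]
  refine (measurableSet_lt measurable_const (measurable_dav i hf)).inter ?_
  exact MeasurableSet.iInter fun i' => MeasurableSet.iInter fun _ =>
    measurableSet_le (measurable_dav i' hf) measurable_const

theorem lev_sat {i : ℤ} {x : E d} (hx : x ∈ lev f a i) : dc i x ⊆ lev f a i := by
  intro y hy
  refine ⟨?_, fun i' hi' => ?_⟩
  · rw [dav_eq f hy]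
    exact hx.1
  · rw [dav_eq f (dc_mono hi'.le x hy)]
    exact hx.2 i' hi'

theorem lev_disj {i i' : ℤ} (h : i ≠ i') : Disjoint (lev f a i) (lev f a i') := by
  rw [Set.disjoint_left]
  intro x hx hx'
  rcases lt_or_gt_of_ne h with h1 | h1
  · exact absurd (hx.2 i' h1) (not_le.2 hx'.1)
  · exact absurd (hx'.2 i h1) (not_le.2 hx.1)

theorem lev_mass (hf : Measurable f) (i : ℤ) :
    a * volume (lev f a i) ≤ ∫⁻ x in lev f a i, f x := by
  rw [← lintegral_dav i hf (measurableSet_lev hf i) (fun x hx => lev_sat hx), ← setLIntegral_const]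
  exact setLIntegral_mono' (measurableSet_lev hf i) (fun x hx => hx.1.le)

theorem lev_le (hd : 0 < d) {i : ℤ} {x : E d} (hx : x ∈ lev f a i) : dav i f x ≤ 2 ^ d * a := by
  have h1 : dav (i + 1) f x ≤ a := hx.2 (i + 1) (by omega)
  refine le_trans ?_ (mul_le_mul_right h1 _)
  have e : (volume (dc i x))⁻¹ = 2 ^ d * (volume (dc (i + 1) x))⁻¹ := by
    have h2 : ENNReal.ofReal ((2 : ℝ) ^ d) = 2 ^ d := by
      rw [ENNReal.ofReal_pow (by norm_num), ENNReal.ofReal_ofNat]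
    rw [volume_dc, volume_dc, zpow_add_one₀ (by norm_num), mul_pow, mul_comm (((2 : ℝ) ^ i) ^ d),
      ENNReal.ofReal_mul (by positivity), ENNReal.mul_inv (Or.inr ENNReal.ofReal_ne_top)
        (Or.inl ENNReal.ofReal_ne_top), ← mul_assoc, h2,
      ENNReal.mul_inv_cancel (by simp) (by simp), one_mul]
  rw [dav, dav, e, mul_assoc]
  gcongr
  exact dc_mono (by omega) x

private theorem DyB_bound (hd : 0 < d) (ha : a ≠ 0) (hfin : ∫⁻ x, f x ≠ ⊤) :
    ∃ n : ℕ, ∀ (x : E d) (i : ℤ), (n : ℤ) ≤ i → dav i f x ≤ a := by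
  obtain ⟨n, hn⟩ := ENNReal.exists_nat_mul_gt ha hfin
  refine ⟨n, fun x i hi => ?_⟩
  have h0 : volume (dc i x) ≠ 0 := by
    rw [volume_dc]
    exact (ENNReal.ofReal_pos.2 (by positivity)).ne'
  have h1 : volume (dc i x) ≠ ⊤ := by
    rw [volume_dc]
    exact ENNReal.ofReal_ne_top
  have h2 : (n : ℝ≥0∞) ≤ volume (dc i x) := by
    rw [volume_dc, ← ENNReal.ofReal_natCast]
    refine ENNReal.ofReal_le_ofReal ?_
    have h3 : (n : ℝ) ≤ (2 : ℝ) ^ n := by
      exact_mod_cast (Nat.lt_two_pow_self (n := n)).le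
    have h4 : (2 : ℝ) ^ (n : ℤ) ≤ (2 : ℝ) ^ i := zpow_le_zpow_right₀ (by norm_num) hi
    rw [zpow_natCast] at h4
    have h5 : (1 : ℝ) ≤ (2 : ℝ) ^ i := (one_le_pow₀ (by norm_num)).trans h4
    calc (n : ℝ) ≤ (2 : ℝ) ^ i := h3.trans h4
      _ = ((2 : ℝ) ^ i) ^ 1 := (pow_one _).symm
      _ ≤ ((2 : ℝ) ^ i) ^ d := pow_le_pow_right₀ h5 hd
  rw [dav, ENNReal.inv_mul_le_iff h0 h1]
  calc ∫⁻ y in dc i x, f y ≤ ∫⁻ y, f y := setLIntegral_le_lintegral _ _
    _ ≤ n * a := hn.le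
    _ ≤ volume (dc i x) * a := by gcongr

private theorem DyB_exists (hd : 0 < d) (ha : a ≠ 0) (hfin : ∫⁻ x, f x ≠ ⊤) {x : E d} {i : ℤ}
    (hx : a < dav i f x) : ∃ i' : ℤ, i ≤ i' ∧ x ∈ lev f a i' := by
  obtain ⟨n, hn⟩ := DyB_bound hd ha hfin
  obtain ⟨i', hi', hmax⟩ := Int.exists_greatest_of_bdd (P := fun j : ℤ => i ≤ j ∧ a < dav j f x)
    ⟨n, fun j hj => by
      by_contra h
      exact absurd (hn x j (not_le.1 h).le) (not_le.2 hj.2)⟩ ⟨i, le_refl i, hx⟩
  refine ⟨i', hi'.1, hi'.2, fun j hj => ?_⟩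
  by_contra h
  exact absurd (hmax j ⟨hi'.1.trans hj.le, not_le.1 h⟩) (not_le.2 hj)

/-- Outside of the maximal cubes, and for the larger cubes, the averages are at most `a`. -/
theorem not_Lv (hd : 0 < d) (ha : a ≠ 0) (hfin : ∫⁻ x, f x ≠ ⊤) {x : E d} (hx : x ∉ Lv f a)
    (i : ℤ) : dav i f x ≤ a := by
  by_contra h
  obtain ⟨i', -, hi'⟩ := DyB_exists hd ha hfin (not_le.1 h)
  exact hx (mem_iUnion.2 ⟨i', hi'⟩)

/-- If the average over the cube of `x` of side `2 ^ i` is greater than `a`, then the cube is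
contained in a maximal cube. -/
theorem exists_lev (hd : 0 < d) (ha : a ≠ 0) (hfin : ∫⁻ x, f x ≠ ⊤) {x : E d} {i : ℤ}
    (hx : a < dav i f x) : ∃ i' : ℤ, i ≤ i' ∧ x ∈ lev f a i' := DyB_exists hd ha hfin hx

private theorem DyB_disj : Pairwise (Function.onFun Disjoint (fun i : ℤ => lev f a i)) :=
  fun _ _ h => lev_disj h

theorem Lv_mass (hf : Measurable f) : a * volume (Lv f a) ≤ ∫⁻ x in Lv f a, f x := by
  rw [Lv, lintegral_iUnion (measurableSet_lev hf) DyB_disj,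
    measure_iUnion DyB_disj (measurableSet_lev hf), ← ENNReal.tsum_mul_left]
  exact ENNReal.tsum_le_tsum (lev_mass hf)

/-- The weak type inequality with a truncation. -/
theorem Lv_weak (hd : 0 < d) (hf : Measurable f) (ha : a ≠ 0) (ha' : a ≠ ⊤)
    (hfin : ∫⁻ x, f x ≠ ⊤) : a * volume (Lv f a) ≤ 2 * ∫⁻ x in {x | a / 2 < f x}, f x := by
  have hm : MeasurableSet (Lv f a) := MeasurableSet.iUnion (measurableSet_lev hf)
  have hv : a * volume (Lv f a) ≠ ⊤ :=
    ((Lv_mass hf).trans (setLIntegral_le_lintegral _ _)).trans_lt (lt_top_iff_ne_top.2 hfin) |>.ne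
  have hs : MeasurableSet {x | a / 2 < f x} := measurableSet_lt measurable_const hf
  have h1 : ∫⁻ x in Lv f a, f x ≤
      (∫⁻ x in {x | a / 2 < f x}, f x) + a / 2 * volume (Lv f a) := by
    rw [← setLIntegral_const, ← lintegral_indicator hm, ← lintegral_indicator hs,
      ← lintegral_indicator hm, ← lintegral_add_left (hf.indicator hs)]
    refine lintegral_mono (fun x => ?_)
    by_cases h2 : x ∈ Lv f a
    · rw [indicator_of_mem h2, indicator_of_mem h2]
      by_cases h3 : a / 2 < f x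
      · rw [indicator_of_mem (show x ∈ {x | a / 2 < f x} from h3)]
        exact le_self_add
      · exact (not_lt.1 h3).trans le_add_self
    · rw [indicator_of_notMem h2]
      exact zero_le
  have h2 : a * volume (Lv f a) ≤
      (∫⁻ x in {x | a / 2 < f x}, f x) + a / 2 * volume (Lv f a) := (Lv_mass hf).trans h1
  have h3 : a * volume (Lv f a) = a / 2 * volume (Lv f a) + a / 2 * volume (Lv f a) := by
    rw [← add_mul, ENNReal.add_halves]
  have h4 : a / 2 * volume (Lv f a) ≠ ⊤ := by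
    rw [h3] at hv
    exact (ENNReal.add_ne_top.1 hv).1
  have h5 : a / 2 * volume (Lv f a) ≤ ∫⁻ x in {x | a / 2 < f x}, f x := by
    rw [h3] at h2
    exact (ENNReal.add_le_add_iff_right h4).1 h2
  rw [h3, ← two_mul]
  gcongr

/-- Outside of the maximal cubes a continuous function is at most `a`. -/
theorem not_Lv_cont (hd : 0 < d) (ha : a ≠ 0) (hfin : ∫⁻ x, f x ≠ ⊤) (hc : Continuous f)
    {x : E d} (hx : x ∉ Lv f a) : f x ≤ a := by
  by_contra h
  obtain ⟨b, hab, hbf⟩ := exists_between (not_le.1 h)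
  obtain ⟨r, hr, hball⟩ := Metric.isOpen_iff.1 (isOpen_lt continuous_const hc) x hbf
  obtain ⟨n, hn⟩ := exists_pow_lt_of_lt_one (show 0 < r / (√d + 1) by positivity)
    (show (1 / 2 : ℝ) < 1 by norm_num)
  have h2 : dc (-(n : ℤ)) x ⊆ {y | b < f y} := by
    intro y hy
    refine hball ?_
    rw [mem_ball, dist_eq_norm]
    refine (dc_dist hy).trans_lt ?_
    have e : (2 : ℝ) ^ (-(n : ℤ)) = (1 / 2) ^ n := by
      rw [zpow_neg, zpow_natCast, one_div, inv_pow]
    rw [e]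
    rw [lt_div_iff₀ (by positivity)] at hn
    have h3 : (0 : ℝ) < (1 / 2) ^ n := by positivity
    nlinarith [Real.sqrt_nonneg (d : ℝ)]
  have h0 : volume (dc (-(n : ℤ)) x) ≠ 0 := by
    rw [volume_dc]
    exact (ENNReal.ofReal_pos.2 (by positivity)).ne'
  have h1 : volume (dc (-(n : ℤ)) x) ≠ ⊤ := by
    rw [volume_dc]
    exact ENNReal.ofReal_ne_top
  have h3 : b ≤ dav (-(n : ℤ)) f x := by
    have h4 : b * volume (dc (-(n : ℤ)) x) ≤ ∫⁻ y in dc (-(n : ℤ)) x, f y := by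
      rw [← setLIntegral_const]
      exact setLIntegral_mono' (measurableSet_dc _ x) (fun y hy => (h2 hy).le)
    rw [dav, mul_comm, ← div_eq_mul_inv]
    exact (ENNReal.le_div_iff_mul_le (Or.inl h0) (Or.inl h1)).2 h4
  exact absurd (not_Lv hd ha hfin hx (-(n : ℤ))) (not_le.2 (hab.trans_le h3))

end Pool.Agent.Lib.MP_ff3fe0_an_SPH
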