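import Pool.Agent.Lib.MP_ff3fe0_an_SPH.Defs

set_option autoImplicit false

/-!
# Weak limits of gradients
-/

namespace Pool.Agent.Lib.MP_ff3fe0_an_SPH

open MeasureTheory Metric Set
open scoped ENNReal NNReal ContDiff FourierTransform
open Pool.Agent.Lib.MP_ff3fe0_an

variable {d : ℕ}

/-! ### A uniformly convex function -/

private noncomputable def wkA (a : E d) : ℝ := Real.sqrt (1 + ‖a‖ ^ 2)

private theorem wkA_one (a : E d) : 1 ≤ wkA a := by
  unfold wkA
  rw [Real.one_le_sqrt]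
  nlinarith [sq_nonneg ‖a‖]

private theorem wkA_sq (a : E d) : wkA a ^ 2 = 1 + ‖a‖ ^ 2 :=
  Real.sq_sqrt (by positivity)

private theorem wkA_norm (a : E d) : ‖a‖ ≤ wkA a := by
  unfold wkA
  apply Real.le_sqrt_of_sq_le
  linarith

private theorem wkA_le (a : E d) : wkA a ≤ 1 + ‖a‖ := by
  unfold wkA
  rw [Real.sqrt_le_left (by positivity)]
  nlinarith [norm_nonneg a]

private theorem wk_defect (a b : E d) :
    0 ≤ (wkA a + wkA b) / 2 - wkA ((1 / 2 : ℝ) • (a + b)) ∧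
    ‖a - b‖ ^ 2 ≤ 4 * wkA a * wkA b * (wkA a + wkA b) *
      ((wkA a + wkA b) / 2 - wkA ((1 / 2 : ℝ) • (a + b))) := by
  set A := wkA a with hA
  set B := wkA b with hB
  set M := wkA ((1 / 2 : ℝ) • (a + b)) with hM
  set s : ℝ := inner ℝ a b with hs
  have hA1 := wkA_one a
  have hB1 := wkA_one b
  have hM1 := wkA_one ((1 / 2 : ℝ) • (a + b))
  rw [← hA] at hA1
  rw [← hB] at hB1
  rw [← hM] at hM1
  have hA2 : A ^ 2 = 1 + ‖a‖ ^ 2 := wkA_sq a
  have hB2 : B ^ 2 = 1 + ‖b‖ ^ 2 := wkA_sq b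
  have hM2 : M ^ 2 = 1 + ‖(1 / 2 : ℝ) • (a + b)‖ ^ 2 := wkA_sq _
  have h1 : ‖(1 / 2 : ℝ) • (a + b)‖ ^ 2 = (1 / 4) * (‖a‖ ^ 2 + 2 * s + ‖b‖ ^ 2) := by
    rw [norm_smul, mul_pow, norm_add_sq_real, ← hs]
    norm_num
  have h2 : ‖a - b‖ ^ 2 = ‖a‖ ^ 2 - 2 * s + ‖b‖ ^ 2 := norm_sub_sq_real a b
  have h3 : s ^ 2 ≤ ‖a‖ ^ 2 * ‖b‖ ^ 2 := by
    have := abs_real_inner_le_norm a b
    rw [← mul_pow]
    exact sq_le_sq' (by linarith [(abs_le.mp this).1]) (abs_le.mp this).2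
  have h4 : ‖a - b‖ ^ 2 ≤ (A * B - (1 + s)) * (A * B + (1 + s)) := by
    have : (A * B - (1 + s)) * (A * B + (1 + s)) = A ^ 2 * B ^ 2 - (1 + s) ^ 2 := by ring
    rw [this, hA2, hB2, h2]
    nlinarith
  have hAB : 1 ≤ A * B := by nlinarith
  have h5 : 1 + s ≤ A * B := by
    by_contra hc
    push Not at hc
    have h6 : (A * B - (1 + s)) * (A * B + (1 + s)) < 0 :=
      mul_neg_of_neg_of_pos (by linarith) (by linarith)
    nlinarith [sq_nonneg ‖a - b‖]
  have h7 : ((A + B) / 2 - M) * ((A + B) / 2 + M) = (A * B - (1 + s)) / 2 := by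
    have : ((A + B) / 2 - M) * ((A + B) / 2 + M) = (A ^ 2 + 2 * (A * B) + B ^ 2) / 4 - M ^ 2 := by
      ring
    rw [this, hM2, h1, hA2, hB2]
    ring
  have hS : 0 < (A + B) / 2 + M := by linarith
  have hD : 0 ≤ (A + B) / 2 - M := by
    by_contra hc
    push Not at hc
    have := mul_neg_of_neg_of_pos hc hS
    linarith
  refine ⟨hD, ?_⟩
  have h8 : (A + B) / 2 + M ≤ A + B := by linarith
  calc ‖a - b‖ ^ 2 ≤ (A * B - (1 + s)) * (A * B + (1 + s)) := h4
    _ ≤ (A * B - (1 + s)) * (2 * (A * B)) := by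
        apply mul_le_mul_of_nonneg_left _ (by linarith)
        linarith
    _ = 4 * A * B * ((A + B) / 2 + M) * ((A + B) / 2 - M) := by
        have : A * B - (1 + s) = 2 * (((A + B) / 2 - M) * ((A + B) / 2 + M)) := by
          rw [h7]; ring
        rw [this]; ring
    _ ≤ 4 * A * B * (A + B) * ((A + B) / 2 - M) := by
        apply mul_le_mul_of_nonneg_right _ hD
        apply mul_le_mul_of_nonneg_left h8 (by positivity)

private theorem wk_pt {p : ℝ} (hp : 1 < p) {K t : ℝ} (hK : 1 ≤ K) (ht : 0 < t) (a b : E d) :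
    ‖a - b‖ ≤ t + 8 * K ^ 3 / t * ((wkA a + wkA b) / 2 - wkA ((1 / 2 : ℝ) • (a + b))) +
      2 * K ^ (1 - p) * (wkA a ^ p + wkA b ^ p) := by
  obtain ⟨hD, h1⟩ := wk_defect a b
  set D := (wkA a + wkA b) / 2 - wkA ((1 / 2 : ℝ) • (a + b)) with hDdef
  have hA1 := wkA_one a
  have hB1 := wkA_one b
  set A := wkA a
  set B := wkA b
  have hK0 : 0 < K := by linarith
  have hx : 0 ≤ 8 * K ^ 3 / t * D := by positivity
  have hy : 0 ≤ 2 * K ^ (1 - p) * (A ^ p + B ^ p) := by positivity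
  by_cases h : A ≤ K ∧ B ≤ K
  · have h2 : ‖a - b‖ ^ 2 ≤ 8 * K ^ 3 * D := by
      refine h1.trans ?_
      apply mul_le_mul_of_nonneg_right _ hD
      have h3 : A * B ≤ K * K := mul_le_mul h.1 h.2 (by linarith) (by linarith)
      have h4 : A * B * (A + B) ≤ (K * K) * (K + K) :=
        mul_le_mul h3 (by linarith [h.1, h.2]) (by linarith) (by positivity)
      nlinarith
    by_cases h5 : ‖a - b‖ ≤ t
    · linarith
    · push Not at h5
      have h6 : ‖a - b‖ ≤ 8 * K ^ 3 / t * D := by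
        rw [div_mul_eq_mul_div, le_div_iff₀ ht]
        nlinarith
      linarith
  · have key : ∀ m : ℝ, K < m → m ≤ K ^ (1 - p) * m ^ p := by
      intro m hm
      have hm0 : 0 < m := by linarith
      have h7 : m ^ (1 - p) ≤ K ^ (1 - p) :=
        Real.rpow_le_rpow_of_nonpos hK0 hm.le (by linarith)
      calc m = m ^ (1 - p) * m ^ p := by
            rw [← Real.rpow_add hm0]; simp
        _ ≤ K ^ (1 - p) * m ^ p := mul_le_mul_of_nonneg_right h7 (by positivity)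
    have h8 : ‖a - b‖ ≤ A + B := (norm_sub_le a b).trans
      (add_le_add (wkA_norm a) (wkA_norm b))
    have hAp : 0 ≤ K ^ (1 - p) * A ^ p := by positivity
    have hBp : 0 ≤ K ^ (1 - p) * B ^ p := by positivity
    rcases le_total A B with hAB | hAB
    · have h9 : K < B := by
        by_contra hc
        push Not at hc
        exact h ⟨hAB.trans hc, hc⟩
      have h10 := key B h9
      nlinarith
    · have h9 : K < A := by
        by_contra hc
        push Not at hc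
        exact h ⟨hc, hAB.trans hc⟩
      have h10 := key A h9
      nlinarith

private theorem wkA_rpow {p : ℝ} (hp : 1 < p) (a : E d) :
    wkA a ^ p ≤ 2 ^ p * (1 + ‖a‖ ^ p) := by
  have h1 : wkA a ≤ 2 * max 1 ‖a‖ := by
    refine (wkA_le a).trans ?_
    have := le_max_left 1 ‖a‖
    have := le_max_right 1 ‖a‖
    linarith
  have h0 := wkA_one a
  have hp0 : 0 ≤ p := by linarith
  calc wkA a ^ p ≤ (2 * max 1 ‖a‖) ^ p := Real.rpow_le_rpow (by linarith) h1 hp0
    _ = 2 ^ p * (max 1 ‖a‖) ^ p := Real.mul_rpow (by norm_num) (by positivity)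
    _ ≤ 2 ^ p * (1 + ‖a‖ ^ p) := by
        apply mul_le_mul_of_nonneg_left _ (by positivity)
        rcases max_cases 1 ‖a‖ with ⟨h, _⟩ | ⟨h, _⟩
        · rw [h, Real.one_rpow]
          have : 0 ≤ ‖a‖ ^ p := by positivity
          linarith
        · rw [h]; linarith

/-! ### A finite measure -/

private noncomputable def wmu (d : ℕ) : Measure (E d) :=
  volume.withDensity (fun x => ENNReal.ofReal ((1 + ‖x‖) ^ (-((d : ℝ) + 1))))

private theorem wmu_le : wmu d ≤ volume := by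
  unfold wmu
  have h : volume.withDensity (fun x : E d => ENNReal.ofReal ((1 + ‖x‖) ^ (-((d : ℝ) + 1)))) ≤
      volume.withDensity (fun _ : E d => (1 : ℝ≥0∞)) := by
    apply withDensity_mono
    filter_upwards with x
    rw [← ENNReal.ofReal_one]
    apply ENNReal.ofReal_le_ofReal
    apply Real.rpow_le_one_of_one_le_of_nonpos
    · linarith [norm_nonneg x]
    · have : (0 : ℝ) ≤ d := by positivity
      linarith
  refine h.trans (le_of_eq ?_)
  exact withDensity_one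

private theorem wmu_fin : IsFiniteMeasure (wmu d) := by
  unfold wmu
  apply isFiniteMeasure_withDensity_ofReal
  have := integrable_one_add_norm (μ := (volume : Measure (E d))) (r := (d : ℝ) + 1)
    (by simp)
  exact this.hasFiniteIntegral

private theorem wmu_ac : (volume : Measure (E d)) ≪ wmu d := by
  unfold wmu
  apply withDensity_absolutelyContinuous'
  · fun_prop
  · filter_upwards with x
    rw [ne_eq, ENNReal.ofReal_eq_zero, not_le]
    positivity

private theorem wmu_ball (R : ℝ) (hR : 0 ≤ R) : ∃ C : ℝ≥0∞, C ≠ ⊤ ∧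
    volume.restrict (closedBall (0 : E d) R) ≤ C • wmu d := by
  refine ⟨ENNReal.ofReal ((1 + R) ^ ((d : ℝ) + 1)), ENNReal.ofReal_ne_top, ?_⟩
  rw [Measure.le_iff]
  intro s hs
  rw [Measure.restrict_apply hs, Measure.smul_apply, smul_eq_mul, wmu, withDensity_apply _ hs,
    ← lintegral_const_mul _ (by fun_prop)]
  calc volume (s ∩ closedBall (0 : E d) R) = ∫⁻ _ in s ∩ closedBall (0 : E d) R, 1 := by simp
    _ ≤ ∫⁻ x in s ∩ closedBall (0 : E d) R, ENNReal.ofReal ((1 + R) ^ ((d : ℝ) + 1)) *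
        ENNReal.ofReal ((1 + ‖x‖) ^ (-((d : ℝ) + 1))) := by
        apply setLIntegral_mono' (hs.inter measurableSet_closedBall)
        intro x hx
        have h1 : ‖x‖ ≤ R := by simpa using hx.2
        rw [← ENNReal.ofReal_mul (by positivity), ← ENNReal.ofReal_one]
        apply ENNReal.ofReal_le_ofReal
        have h2 : (1 + R) ^ (-((d : ℝ) + 1)) ≤ (1 + ‖x‖) ^ (-((d : ℝ) + 1)) := by
          apply Real.rpow_le_rpow_of_nonpos (by positivity) (by linarith)
          have : (0 : ℝ) ≤ d := by positivity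
          linarith
        have h3 : (1 + R) ^ ((d : ℝ) + 1) * (1 + R) ^ (-((d : ℝ) + 1)) = 1 := by
          rw [← Real.rpow_add (by linarith)]; simp
        calc (1 : ℝ) = (1 + R) ^ ((d : ℝ) + 1) * (1 + R) ^ (-((d : ℝ) + 1)) := h3.symm
          _ ≤ _ := mul_le_mul_of_nonneg_left h2 (by positivity)
    _ ≤ _ := lintegral_mono_set inter_subset_left

/-! ### Test functions -/

private theorem wk_pair (ψ : E d → ℝ) (hψ : Continuous ψ) (hc : HasCompactSupport ψ) :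
    ∃ (R : ℕ) (C : ℝ≥0∞), C ≠ ⊤ ∧ ∀ h : E d → ℝ,
      ‖∫ x, h x * ψ x‖ₑ ≤ C * ∫⁻ x in closedBall (0 : E d) R, ‖h x‖ₑ := by
  obtain ⟨C, hC⟩ := hψ.bounded_above_of_compact_support hc
  obtain ⟨r, hr⟩ := hc.isCompact.isBounded.subset_closedBall (0 : E d)
  obtain ⟨R, hR⟩ := exists_nat_ge r
  refine ⟨R, ENNReal.ofReal C, ENNReal.ofReal_ne_top, fun h => ?_⟩
  calc ‖∫ x, h x * ψ x‖ₑ ≤ ∫⁻ x, ‖h x * ψ x‖ₑ := enorm_integral_le_lintegral_enorm _
    _ = ∫⁻ x in closedBall (0 : E d) R, ‖h x * ψ x‖ₑ := by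
        rw [← lintegral_indicator measurableSet_closedBall]
        congr 1
        ext x
        by_cases hx : x ∈ closedBall (0 : E d) R
        · rw [indicator_of_mem hx]
        · rw [indicator_of_notMem hx]
          have h1 : x ∉ tsupport ψ := fun h2 => hx (closedBall_subset_closedBall hR (hr h2))
          rw [image_eq_zero_of_notMem_tsupport h1]
          simp
    _ ≤ ∫⁻ x in closedBall (0 : E d) R, ENNReal.ofReal C * ‖h x‖ₑ := by
        apply lintegral_mono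
        intro x
        show ‖h x * ψ x‖ₑ ≤ ENNReal.ofReal C * ‖h x‖ₑ
        rw [enorm_mul, mul_comm]
        gcongr
        rw [← ofReal_norm]
        exact ENNReal.ofReal_le_ofReal (hC x)
    _ = _ := lintegral_const_mul' _ _ ENNReal.ofReal_ne_top

private theorem wk_pd (φ : E d → ℝ) (hφ : ContDiff ℝ ∞ φ) (hc : HasCompactSupport φ)
    (i : Fin d) : Continuous (fun x => fderiv ℝ φ x (EuclideanSpace.single i 1)) ∧
      HasCompactSupport (fun x => fderiv ℝ φ x (EuclideanSpace.single i 1)) := by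
  constructor
  · exact (hφ.continuous_fderiv (by simp)).clm_apply continuous_const
  · exact hc.fderiv_apply (𝕜 := ℝ) _

private theorem wk_int {h ψ : E d → ℝ} (hh : LocallyIntegrable h) (hψ : Continuous ψ)
    (hc : HasCompactSupport ψ) : Integrable (fun x => h x * ψ x) := by
  have := hh.integrable_smul_left_of_hasCompactSupport hψ hc
  refine this.congr ?_
  filter_upwards with x
  simp [mul_comm]

private theorem wk_comp {G : E d → E d} (hG : LocallyIntegrable G) (i : Fin d) :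
    LocallyIntegrable (fun x => G x i) := by
  intro x
  obtain ⟨s, hs, h⟩ := hG x
  refine ⟨s, hs, ?_⟩
  refine Integrable.mono (g := G) h ?_ ?_
  · exact (EuclideanSpace.proj (𝕜 := ℝ) i).continuous.comp_aestronglyMeasurable
      h.aestronglyMeasurable
  · filter_upwards with y
    exact PiLp.norm_apply_le (G y) i

/-- Midpoints of weak gradients. -/
private theorem wk_mid {w1 w2 : E d → ℝ} {F1 F2 : E d → E d} (h1 : IsWeakGradient w1 F1)
    (h2 : IsWeakGradient w2 F2) :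
    IsWeakGradient (fun x => (1 / 2 : ℝ) * (w1 x + w2 x))
      (fun x => (1 / 2 : ℝ) • (F1 x + F2 x)) := by
  refine ⟨?_, ?_, ?_⟩
  · exact (h1.1.add h2.1).smul (1 / 2 : ℝ)
  · exact (h1.2.1.add h2.2.1).smul (1 / 2 : ℝ)
  · intro φ hφ hc i
    obtain ⟨p1, p2⟩ := wk_pd φ hφ hc i
    have e1 := h1.2.2 φ hφ hc i
    have e2 := h2.2.2 φ hφ hc i
    have i1 := wk_int h1.1 p1 p2
    have i2 := wk_int h2.1 p1 p2
    have j1 := wk_int (wk_comp h1.2.1 i) hφ.continuous hc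
    have j2 := wk_int (wk_comp h2.2.1 i) hφ.continuous hc
    have a1 : ∫ x, (1 / 2 : ℝ) * (w1 x + w2 x) * fderiv ℝ φ x (EuclideanSpace.single i 1) =
        (1 / 2) * (∫ x, w1 x * fderiv ℝ φ x (EuclideanSpace.single i 1)) +
        (1 / 2) * ∫ x, w2 x * fderiv ℝ φ x (EuclideanSpace.single i 1) := by
      rw [← integral_const_mul, ← integral_const_mul, ← integral_add (i1.const_mul _)
        (i2.const_mul _)]
      congr 1; ext x; ring
    have a2 : ∫ x, ((1 / 2 : ℝ) • (F1 x + F2 x)) i * φ x =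
        (1 / 2) * (∫ x, F1 x i * φ x) + (1 / 2) * ∫ x, F2 x i * φ x := by
      rw [← integral_const_mul, ← integral_const_mul, ← integral_add (j1.const_mul _)
        (j2.const_mul _)]
      congr 1; ext x
      simp only [PiLp.smul_apply, PiLp.add_apply, smul_eq_mul]
      ring
    rw [a1, a2, e1, e2]
    ring

private theorem wk_mid_norm {F1 F2 : E d → E d} {q c : ℝ≥0∞} (hq : 1 ≤ q)
    (m1 : AEStronglyMeasurable F1) (m2 : AEStronglyMeasurable F2)
    (h1 : eLpNorm F1 q ≤ c) (h2 : eLpNorm F2 q ≤ c) :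
    eLpNorm (fun x => (1 / 2 : ℝ) • (F1 x + F2 x)) q ≤ c := by
  have e : (fun x => (1 / 2 : ℝ) • (F1 x + F2 x)) = (1 / 2 : ℝ) • (F1 + F2) := rfl
  have h3 : eLpNorm (F1 + F2) q volume ≤ c + c :=
    (eLpNorm_add_le m1 m2 hq).trans (add_le_add h1 h2)
  have h4 : ‖(1 / 2 : ℝ)‖ₑ = 2⁻¹ := by
    rw [Real.enorm_eq_ofReal (by norm_num), one_div, ENNReal.ofReal_inv_of_pos (by norm_num)]
    norm_num
  rw [e, eLpNorm_const_smul, h4]
  refine (mul_le_mul_right h3 (2⁻¹ : ℝ≥0∞)).trans (le_of_eq ?_)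
  rw [← two_mul, ← mul_assoc, ENNReal.inv_mul_cancel (by norm_num) (by norm_num), one_mul]

private theorem wk_mid_dist {w1 w2 u : E d → ℝ} {c : ℝ≥0∞} {s : Set (E d)}
    (m1 : AEStronglyMeasurable w1) (m2 : AEStronglyMeasurable w2) (mu : AEStronglyMeasurable u)
    (h1 : ∫⁻ x in s, ‖w1 x - u x‖ₑ ≤ c) (h2 : ∫⁻ x in s, ‖w2 x - u x‖ₑ ≤ c) :
    ∫⁻ x in s, ‖(1 / 2 : ℝ) * (w1 x + w2 x) - u x‖ₑ ≤ c := by
  calc ∫⁻ x in s, ‖(1 / 2 : ℝ) * (w1 x + w2 x) - u x‖ₑ
      ≤ ∫⁻ x in s, (2⁻¹ * ‖w1 x - u x‖ₑ + 2⁻¹ * ‖w2 x - u x‖ₑ) := by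
        apply lintegral_mono
        intro x
        have e : (1 / 2 : ℝ) * (w1 x + w2 x) - u x =
            (1 / 2 : ℝ) * (w1 x - u x) + (1 / 2 : ℝ) * (w2 x - u x) := by ring
        have : ‖(1 / 2 : ℝ)‖ₑ = 2⁻¹ := by
          rw [Real.enorm_eq_ofReal (by norm_num), one_div, ENNReal.ofReal_inv_of_pos (by norm_num)]
          norm_num
        show ‖(1 / 2 : ℝ) * (w1 x + w2 x) - u x‖ₑ ≤ 2⁻¹ * ‖w1 x - u x‖ₑ + 2⁻¹ * ‖w2 x - u x‖ₑ
        rw [e]
        refine (enorm_add_le _ _).trans ?_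
        rw [enorm_mul, enorm_mul, this]
    _ = 2⁻¹ * (∫⁻ x in s, ‖w1 x - u x‖ₑ) + 2⁻¹ * ∫⁻ x in s, ‖w2 x - u x‖ₑ := by
        rw [lintegral_add_left', lintegral_const_mul', lintegral_const_mul']
        · norm_num
        · norm_num
        · exact ((m1.sub mu).enorm.const_mul _).restrict
    _ ≤ 2⁻¹ * c + 2⁻¹ * c := by gcongr
    _ = c := by
        rw [← two_mul, ← mul_assoc, ENNReal.mul_inv_cancel (by norm_num) (by norm_num), one_mul]

/-! ### The functional -/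

private theorem wkA_cont : Continuous (wkA (d := d)) := by
  unfold wkA
  fun_prop

private theorem wk_lp {p : ℝ} (hp : 1 < p) {F : E d → E d} (hm : AEStronglyMeasurable F)
    {K : ℝ≥0∞} (hK : K ≠ ⊤) (hF : eLpNorm F (ENNReal.ofReal p) ≤ K) :
    Integrable (fun x => ‖F x‖ ^ p) (wmu d) ∧ ∫ x, ‖F x‖ ^ p ∂(wmu d) ≤ K.toReal ^ p := by
  have hp0 : 0 < p := by linarith
  have h0 : ENNReal.ofReal p ≠ 0 := by simpa using hp0
  have h1 : ENNReal.ofReal p ≠ ⊤ := ENNReal.ofReal_ne_top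
  have h2 : (ENNReal.ofReal p).toReal = p := ENNReal.toReal_ofReal hp0.le
  have hle : eLpNorm F (ENNReal.ofReal p) (wmu d) ≤ K :=
    (eLpNorm_mono_measure F wmu_le).trans hF
  have hac : AEStronglyMeasurable F (wmu d) := hm.mono_measure wmu_le
  have hmem : MemLp F (ENNReal.ofReal p) (wmu d) := ⟨hac, lt_of_le_of_lt hle hK.lt_top⟩
  have hint := hmem.integrable_norm_rpow h0 h1
  rw [h2] at hint
  refine ⟨hint, ?_⟩
  rw [integral_eq_lintegral_of_nonneg_ae (Filter.Eventually.of_forall fun x => by positivity)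
    hint.aestronglyMeasurable, ENNReal.toReal_rpow]
  apply ENNReal.toReal_mono (ENNReal.rpow_ne_top_of_nonneg hp0.le hK)
  have h3 : ∫⁻ x, ENNReal.ofReal (‖F x‖ ^ p) ∂(wmu d) = ∫⁻ x, ‖F x‖ₑ ^ p ∂(wmu d) := by
    congr 1
    ext x
    rw [← ENNReal.ofReal_rpow_of_nonneg (norm_nonneg _) hp0.le, ofReal_norm]
  rw [h3]
  have h4 := eLpNorm_eq_lintegral_rpow_enorm_toReal (f := F) (μ := wmu d) h0 h1
  rw [h2] at h4
  rw [h4] at hle
  have h5 := ENNReal.rpow_le_rpow hle hp0.le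
  rw [← ENNReal.rpow_mul] at h5
  rw [one_div, inv_mul_cancel₀ hp0.ne', ENNReal.rpow_one] at h5
  exact h5

private theorem wk_A {p : ℝ} (hp : 1 < p) {F : E d → E d} (hm : AEStronglyMeasurable F)
    {K : ℝ≥0∞} (hK : K ≠ ⊤) (hF : eLpNorm F (ENNReal.ofReal p) ≤ K) :
    Integrable (fun x => wkA (F x)) (wmu d) ∧ Integrable (fun x => wkA (F x) ^ p) (wmu d) ∧
      ∫ x, wkA (F x) ^ p ∂(wmu d) ≤ 2 ^ p * ((wmu d).real univ + K.toReal ^ p) ∧
      ∫ x, wkA (F x) ∂(wmu d) ≤ 2 ^ p * ((wmu d).real univ + K.toReal ^ p) := by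
  have := wmu_fin (d := d)
  obtain ⟨h1, h2⟩ := wk_lp hp hm hK hF
  have hac : AEStronglyMeasurable F (wmu d) := hm.mono_measure wmu_le
  have hA : AEStronglyMeasurable (fun x => wkA (F x)) (wmu d) :=
    wkA_cont.comp_aestronglyMeasurable hac
  have hp0 : 0 < p := by linarith
  have hAp : AEStronglyMeasurable (fun x => wkA (F x) ^ p) (wmu d) :=
    (Real.continuous_rpow_const hp0.le).comp_aestronglyMeasurable hA
  have hb : Integrable (fun x => (2 : ℝ) ^ p * (1 + ‖F x‖ ^ p)) (wmu d) :=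
    ((integrable_const 1).add h1).const_mul _
  have i1 : Integrable (fun x => wkA (F x) ^ p) (wmu d) := by
    refine hb.mono hAp ?_
    filter_upwards with x
    have h3 := wkA_rpow hp (F x)
    have h4 := wkA_one (F x)
    rw [Real.norm_of_nonneg (by positivity), Real.norm_of_nonneg (by positivity)]
    exact h3
  have h5 : ∀ x, wkA (F x) ≤ wkA (F x) ^ p := by
    intro x
    have h4 := wkA_one (F x)
    calc wkA (F x) = wkA (F x) ^ (1 : ℝ) := (Real.rpow_one _).symm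
      _ ≤ wkA (F x) ^ p := Real.rpow_le_rpow_of_exponent_le h4 hp.le
  have i0 : Integrable (fun x => wkA (F x)) (wmu d) := by
    refine i1.mono hA ?_
    filter_upwards with x
    have h4 := wkA_one (F x)
    rw [Real.norm_of_nonneg (by positivity), Real.norm_of_nonneg (by positivity)]
    exact h5 x
  have h6 : ∫ x, wkA (F x) ^ p ∂(wmu d) ≤ 2 ^ p * ((wmu d).real univ + K.toReal ^ p) := by
    calc ∫ x, wkA (F x) ^ p ∂(wmu d) ≤ ∫ x, (2 : ℝ) ^ p * (1 + ‖F x‖ ^ p) ∂(wmu d) :=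
          integral_mono i1 hb fun x => wkA_rpow hp (F x)
      _ = 2 ^ p * ((wmu d).real univ + ∫ x, ‖F x‖ ^ p ∂(wmu d)) := by
          rw [integral_const_mul, integral_add (integrable_const 1) h1]
          simp
      _ ≤ _ := by
          apply mul_le_mul_of_nonneg_left _ (by positivity)
          linarith
  exact ⟨i0, i1, h6, (integral_mono i0 i1 h5).trans h6⟩

private theorem wk_L1 {p : ℝ} (hp : 1 < p) {F1 F2 : E d → E d} (m1 : AEStronglyMeasurable F1)
    (m2 : AEStronglyMeasurable F2) {K : ℝ≥0∞} (hK : K ≠ ⊤)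
    (h1 : eLpNorm F1 (ENNReal.ofReal p) ≤ K) (h2 : eLpNorm F2 (ENNReal.ofReal p) ≤ K)
    {δ : ℝ} (hδ : (∫ x, wkA (F1 x) ∂(wmu d) + ∫ x, wkA (F2 x) ∂(wmu d)) / 2 -
      ∫ x, wkA ((1 / 2 : ℝ) • (F1 x + F2 x)) ∂(wmu d) ≤ δ) {M t : ℝ} (hM : 1 ≤ M) (ht : 0 < t) :
    Integrable (fun x => ‖F1 x - F2 x‖) (wmu d) ∧
    ∫ x, ‖F1 x - F2 x‖ ∂(wmu d) ≤ t * (wmu d).real univ + 8 * M ^ 3 / t * δ +
      2 * M ^ (1 - p) * (2 * (2 ^ p * ((wmu d).real univ + K.toReal ^ p))) := by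
  have := wmu_fin (d := d)
  obtain ⟨a1, a2, a3, _⟩ := wk_A hp m1 hK h1
  obtain ⟨b1, b2, b3, _⟩ := wk_A hp m2 hK h2
  have hq : 1 ≤ ENNReal.ofReal p := by
    rw [← ENNReal.ofReal_one]; exact ENNReal.ofReal_le_ofReal hp.le
  have m3 : AEStronglyMeasurable (fun x => (1 / 2 : ℝ) • (F1 x + F2 x)) :=
    (m1.add m2).const_smul (1 / 2 : ℝ)
  obtain ⟨c1, _, _, _⟩ := wk_A hp m3 hK (wk_mid_norm hq m1 m2 h1 h2)
  have n1 : AEStronglyMeasurable (fun x => F1 x - F2 x) (wmu d) :=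
    (m1.sub m2).mono_measure wmu_le
  have i1 : Integrable (fun x => t + 8 * M ^ 3 / t * ((wkA (F1 x) + wkA (F2 x)) / 2 -
      wkA ((1 / 2 : ℝ) • (F1 x + F2 x))) + 2 * M ^ (1 - p) * (wkA (F1 x) ^ p + wkA (F2 x) ^ p))
      (wmu d) := by
    refine ((integrable_const t).add ?_).add ((a2.add b2).const_mul _)
    exact (((a1.add b1).div_const 2).sub c1).const_mul _
  have hle : ∀ x, ‖F1 x - F2 x‖ ≤ t + 8 * M ^ 3 / t * ((wkA (F1 x) + wkA (F2 x)) / 2 -
      wkA ((1 / 2 : ℝ) • (F1 x + F2 x))) + 2 * M ^ (1 - p) * (wkA (F1 x) ^ p + wkA (F2 x) ^ p) :=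
    fun x => wk_pt hp hM ht (F1 x) (F2 x)
  have i0 : Integrable (fun x => ‖F1 x - F2 x‖) (wmu d) := by
    refine i1.mono n1.norm ?_
    filter_upwards with x
    rw [Real.norm_of_nonneg (norm_nonneg _)]
    exact (hle x).trans (le_abs_self _)
  refine ⟨i0, (integral_mono i0 i1 hle).trans ?_⟩
  have j1 : Integrable (fun x => wkA (F1 x) + wkA (F2 x)) (wmu d) := a1.add b1
  have j2 : Integrable (fun x => (wkA (F1 x) + wkA (F2 x)) / 2) (wmu d) := j1.div_const 2
  have j3 : Integrable (fun x => (wkA (F1 x) + wkA (F2 x)) / 2 -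
      wkA ((1 / 2 : ℝ) • (F1 x + F2 x))) (wmu d) := j2.sub c1
  have j4 : Integrable (fun x => 8 * M ^ 3 / t * ((wkA (F1 x) + wkA (F2 x)) / 2 -
      wkA ((1 / 2 : ℝ) • (F1 x + F2 x)))) (wmu d) := j3.const_mul _
  have j5 : Integrable (fun x => t + 8 * M ^ 3 / t * ((wkA (F1 x) + wkA (F2 x)) / 2 -
      wkA ((1 / 2 : ℝ) • (F1 x + F2 x)))) (wmu d) := (integrable_const t).add j4
  have j6 : Integrable (fun x => wkA (F1 x) ^ p + wkA (F2 x) ^ p) (wmu d) := a2.add b2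
  have j7 : Integrable (fun x => 2 * M ^ (1 - p) * (wkA (F1 x) ^ p + wkA (F2 x) ^ p)) (wmu d) :=
    j6.const_mul _
  rw [integral_add j5 j7, integral_add (integrable_const t) j4, integral_const_mul,
    integral_const_mul, integral_sub j2 c1, integral_div, integral_add a1 b1,
    integral_add a2 b2]
  have e1 : ∫ _x : E d, t ∂(wmu d) = t * (wmu d).real univ := by simp [mul_comm]
  rw [e1]
  have hM0 : 0 < M := by linarith
  have e2 : 8 * M ^ 3 / t * ((∫ x, wkA (F1 x) ∂(wmu d) + ∫ x, wkA (F2 x) ∂(wmu d)) / 2 -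
      ∫ x, wkA ((1 / 2 : ℝ) • (F1 x + F2 x)) ∂(wmu d)) ≤ 8 * M ^ 3 / t * δ :=
    mul_le_mul_of_nonneg_left hδ (by positivity)
  have e3 : 2 * M ^ (1 - p) * (∫ x, wkA (F1 x) ^ p ∂(wmu d) + ∫ x, wkA (F2 x) ^ p ∂(wmu d)) ≤
      2 * M ^ (1 - p) * (2 * (2 ^ p * ((wmu d).real univ + K.toReal ^ p))) :=
    mul_le_mul_of_nonneg_left (by linarith) (by positivity)
  linarith

/-! ### Limits -/

private theorem wk_limit {F : ℕ → E d → E d} (hI : ∀ n, Integrable (F n) (wmu d))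
    (hC : ∀ ε : ℝ, 0 < ε → ∃ N, ∀ n, N ≤ n → ∀ m, n ≤ m →
      ∫ x, ‖F n x - F m x‖ ∂(wmu d) ≤ ε) :
    ∃ g : E d → E d, Integrable g (wmu d) ∧
      Filter.Tendsto (fun n => eLpNorm (F n - g) 1 (wmu d)) Filter.atTop (nhds 0) := by
  have hm : ∀ n, MemLp (F n) 1 (wmu d) := fun n => memLp_one_iff_integrable.mpr (hI n)
  have hcs : CauchySeq (fun n => (hm n).toLp (F n)) := by
    rw [Metric.cauchySeq_iff']
    intro ε hε
    obtain ⟨N, hN⟩ := hC (ε / 2) (by linarith)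
    refine ⟨N, fun n hn => ?_⟩
    have h1 := hN N le_rfl n hn
    rw [dist_comm, dist_eq_norm, ← MemLp.toLp_sub, Lp.norm_toLp, eLpNorm_one_eq_lintegral_enorm]
    have h2 := integral_norm_eq_lintegral_enorm ((hI N).sub (hI n)).aestronglyMeasurable
    rw [← h2]
    refine lt_of_le_of_lt (le_trans (le_of_eq ?_) h1) (by linarith)
    rfl
  obtain ⟨G, hG⟩ := cauchySeq_tendsto_of_complete hcs
  refine ⟨G, L1.integrable_coeFn G, ?_⟩
  have h3 : MemLp (G : E d → E d) 1 (wmu d) := Lp.memLp G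
  have h4 := (Lp.tendsto_Lp_iff_tendsto_eLpNorm'' (fi := Filter.atTop) F hm (G : E d → E d) h3).mp
  apply h4
  rw [Lp.toLp_coeFn]
  exact hG

private theorem wk_sup {f : ℕ → ℝ≥0∞} {L : ℝ≥0∞} (hf : Filter.Tendsto f Filter.atTop (nhds L)) :
    Filter.Tendsto (fun N => ⨆ n, ⨆ (_ : N ≤ n), f n) Filter.atTop (nhds L) := by
  have h1 : Antitone (fun N => ⨆ n, ⨆ (_ : N ≤ n), f n) := by
    intro N M hNM
    apply iSup_mono
    intro n
    apply iSup_le
    intro hn
    exact le_iSup_of_le (hNM.trans hn) le_rfl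
  have h2 := tendsto_atTop_iInf h1
  have h3 : (⨅ N, ⨆ n, ⨆ (_ : N ≤ n), f n) = L := by
    have := hf.limsup_eq
    rw [Filter.limsup_eq_iInf_iSup_of_nat] at this
    exact this
  rw [h3] at h2
  exact h2

private theorem wk_core {p : ℝ} (hp : 1 < p) {v : ℕ → E d → ℝ} {u : E d → ℝ}
    {G : ℕ → E d → E d}
    (hG : ∀ n, IsWeakGradient (v n) (G n)) (hu : LocallyIntegrable u)
    (hv : ∀ R : ℝ, Filter.Tendsto (fun n => ∫⁻ x in closedBall (0 : E d) R, ‖v n x - u x‖ₑ)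
      Filter.atTop (nhds 0)) {B : ℕ → ℝ≥0∞} {b K : ℝ≥0∞} (hK : K ≠ ⊤) (hBK : ∀ n, B n ≤ K)
    (hB : ∀ n, eLpNorm (G n) (ENNReal.ofReal p) ≤ B n)
    (hBb : Filter.Tendsto B Filter.atTop (nhds b)) :
    ∃ G' : E d → E d, IsWeakGradient u G' ∧ eLpNorm G' (ENNReal.ofReal p) ≤ b := by
  have := wmu_fin (d := d)
  have hq : 1 ≤ ENNReal.ofReal p := by
    rw [← ENNReal.ofReal_one]; exact ENNReal.ofReal_le_ofReal hp.le
  set bb : ℕ → ℝ≥0∞ := fun N => ⨆ n, ⨆ (_ : N ≤ n), B n with hbb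
  set ee : ℕ → ℕ → ℝ≥0∞ := fun N R => ⨆ n, ⨆ (_ : N ≤ n),
    ∫⁻ x in closedBall (0 : E d) R, ‖v n x - u x‖ₑ with hee
  have hbbK : ∀ N, bb N ≤ K := fun N => iSup_le fun n => iSup_le fun _ => hBK n
  have hbbl : Filter.Tendsto bb Filter.atTop (nhds b) := wk_sup hBb
  have heel : ∀ R : ℕ, Filter.Tendsto (fun N => ee N R) Filter.atTop (nhds 0) :=
    fun R => wk_sup (hv R)
  set S : ℕ → Set ((E d → ℝ) × (E d → E d)) := fun N => {q | IsWeakGradient q.1 q.2 ∧
    eLpNorm q.2 (ENNReal.ofReal p) ≤ bb N ∧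
    ∀ R : ℕ, ∫⁻ x in closedBall (0 : E d) R, ‖q.1 x - u x‖ₑ ≤ ee N R} with hS
  have hbbm : ∀ N M, N ≤ M → bb M ≤ bb N := by
    intro N M hNM
    apply iSup_mono
    intro n
    exact iSup_le fun hn => le_iSup_of_le (hNM.trans hn) le_rfl
  have heem : ∀ N M, N ≤ M → ∀ R, ee M R ≤ ee N R := by
    intro N M hNM R
    apply iSup_mono
    intro n
    exact iSup_le fun hn => le_iSup_of_le (hNM.trans hn) le_rfl
  have hSm : ∀ N M, N ≤ M → S M ⊆ S N := by
    intro N M hNM q hq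
    exact ⟨hq.1, hq.2.1.trans (hbbm N M hNM), fun R => (hq.2.2 R).trans (heem N M hNM R)⟩
  have hSne : ∀ N, (v N, G N) ∈ S N := by
    intro N
    refine ⟨hG N, (hB N).trans ?_, fun R => ?_⟩
    · exact le_iSup_of_le N (le_iSup_of_le le_rfl le_rfl)
    · exact le_iSup_of_le N (le_iSup_of_le le_rfl le_rfl)
  have hmeas : ∀ q ∈ S 0, AEStronglyMeasurable q.2 := fun q hq => hq.1.2.1.aestronglyMeasurable
  have hbd : ∀ N, ∀ q ∈ S N, eLpNorm q.2 (ENNReal.ofReal p) ≤ K :=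
    fun N q hq => hq.2.1.trans (hbbK N)
  set J : (E d → E d) → ℝ := fun F => ∫ x, wkA (F x) ∂(wmu d) with hJ
  set C0 : ℝ := 2 ^ p * ((wmu d).real univ + K.toReal ^ p) with hC0
  have hJ0 : ∀ F, 0 ≤ J F := fun F => integral_nonneg fun x => (zero_le_one.trans (wkA_one _))
  have hJC : ∀ N, ∀ q ∈ S N, J q.2 ≤ C0 := fun N q hq =>
    (wk_A hp (hmeas q (hSm 0 N (Nat.zero_le N) hq)) hK (hbd N q hq)).2.2.2
  set jj : ℕ → ℝ := fun N => sInf ((fun q : (E d → ℝ) × (E d → E d) => J q.2) '' S N) with hjj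
  have hbdd : ∀ N, BddBelow ((fun q : (E d → ℝ) × (E d → E d) => J q.2) '' S N) := by
    intro N
    refine ⟨0, ?_⟩
    rintro _ ⟨q, _, rfl⟩
    exact hJ0 _
  have hne : ∀ N, ((fun q : (E d → ℝ) × (E d → E d) => J q.2) '' S N).Nonempty :=
    fun N => ⟨_, _, hSne N, rfl⟩
  have hjm : Monotone jj := by
    intro N M hNM
    exact csInf_le_csInf (hbdd N) (hne M) (image_mono (hSm N M hNM))
  have hjb : BddAbove (range jj) := by
    refine ⟨C0, ?_⟩
    rintro _ ⟨N, rfl⟩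
    exact (csInf_le (hbdd N) ⟨_, hSne N, rfl⟩).trans (hJC N _ (hSne N))
  have hjl := tendsto_atTop_ciSup hjm hjb
  set L := ⨆ N, jj N with hL
  have hjL : ∀ N, jj N ≤ L := fun N => le_ciSup hjb N
  have hex : ∀ N : ℕ, ∃ q ∈ S N, J q.2 < jj N + 1 / ((N : ℝ) + 1) := by
    intro N
    have h1 : jj N < jj N + 1 / ((N : ℝ) + 1) := by
      have : 0 < 1 / ((N : ℝ) + 1) := by positivity
      linarith
    obtain ⟨_, ⟨q, hq, rfl⟩, h2⟩ := exists_lt_of_csInf_lt (hne N) h1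
    exact ⟨q, hq, h2⟩
  choose Q hQS hQJ using hex
  have hQm : ∀ N, AEStronglyMeasurable (Q N).2 := fun N =>
    hmeas _ (hSm 0 N (Nat.zero_le N) (hQS N))
  have hQl : ∀ N, eLpNorm (Q N).2 (ENNReal.ofReal p) ≤ K := fun N => hbd N _ (hQS N)
  -- the defect
  have hdef : ∀ N M, N ≤ M → (J (Q N).2 + J (Q M).2) / 2 -
      J (fun x => (1 / 2 : ℝ) • ((Q N).2 x + (Q M).2 x)) ≤ (L - jj N) / 2 + 1 / ((N : ℝ) + 1) := by
    intro N M hNM
    have h1 := hQS N
    have h2 := hSm N M hNM (hQS M)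
    have h3 : ((fun x => (1 / 2 : ℝ) * ((Q N).1 x + (Q M).1 x)),
        (fun x => (1 / 2 : ℝ) • ((Q N).2 x + (Q M).2 x))) ∈ S N := by
      refine ⟨wk_mid h1.1 h2.1, wk_mid_norm hq (hQm N) (hQm M) h1.2.1 h2.2.1, fun R => ?_⟩
      exact wk_mid_dist h1.1.1.aestronglyMeasurable h2.1.1.aestronglyMeasurable
        hu.aestronglyMeasurable (h1.2.2 R) (h2.2.2 R)
    have h4 : jj N ≤ J (fun x => (1 / 2 : ℝ) • ((Q N).2 x + (Q M).2 x)) :=
      csInf_le (hbdd N) ⟨_, h3, rfl⟩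
    have h5 := hQJ N
    have h6 := hQJ M
    have h7 := hjL M
    have h8 : 1 / ((M : ℝ) + 1) ≤ 1 / ((N : ℝ) + 1) := by
      apply one_div_le_one_div_of_le (by positivity)
      have : (N : ℝ) ≤ M := by exact_mod_cast hNM
      linarith
    linarith
  -- Cauchy in L1
  have hcau : ∀ ε : ℝ, 0 < ε → ∃ N, ∀ n, N ≤ n → ∀ m, n ≤ m →
      ∫ x, ‖(Q n).2 x - (Q m).2 x‖ ∂(wmu d) ≤ ε := by
    intro ε hε
    have hm0 : 0 ≤ (wmu d).real univ := measureReal_nonneg
    have hC00 : 0 ≤ C0 := by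
      rw [hC0]; positivity
    obtain ⟨Λ, hΛ1, hΛ⟩ : ∃ Λ : ℝ, 1 ≤ Λ ∧ 2 * Λ ^ (1 - p) * (2 * C0) ≤ ε / 3 := by
      have h1 : Filter.Tendsto (fun y : ℝ => 2 * y ^ (1 - p) * (2 * C0)) Filter.atTop
          (nhds (2 * 0 * (2 * C0))) := by
        apply Filter.Tendsto.mul_const
        apply Filter.Tendsto.const_mul
        have := tendsto_rpow_neg_atTop (y := p - 1) (by linarith)
        simpa [neg_sub] using this
      have h2 : (2 * 0 * (2 * C0) : ℝ) < ε / 3 := by simp; linarith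
      obtain ⟨Λ, h3, h4⟩ := ((h1.eventually (gt_mem_nhds h2)).and
        (Filter.eventually_ge_atTop 1)).exists
      exact ⟨Λ, h4, h3.le⟩
    set t : ℝ := ε / (3 * ((wmu d).real univ + 1)) with ht
    have ht0 : 0 < t := by positivity
    have ht1 : t * (wmu d).real univ ≤ ε / 3 := by
      rw [ht, div_mul_eq_mul_div, div_le_div_iff₀ (by positivity) (by norm_num)]
      nlinarith
    have hΛ0 : 0 < Λ := by linarith
    set δ : ℝ := ε / 3 / (8 * Λ ^ 3 / t) with hδ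
    have hδ0 : 0 < δ := by positivity
    have hδ1 : 8 * Λ ^ 3 / t * δ = ε / 3 := by
      rw [hδ]; field_simp
    have h5 : Filter.Tendsto (fun N : ℕ => (L - jj N) / 2 + 1 / ((N : ℝ) + 1)) Filter.atTop
        (nhds ((L - L) / 2 + 0)) :=
      ((tendsto_const_nhds.sub hjl).div_const 2).add tendsto_one_div_add_atTop_nhds_zero_nat
    have h6 : (L - L) / 2 + 0 < δ := by simpa using hδ0
    obtain ⟨N, hN⟩ := Filter.eventually_atTop.mp (h5.eventually (gt_mem_nhds h6))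
    refine ⟨N, fun n hn m hm => ?_⟩
    have h7 := (hdef n m hm).trans (hN n hn).le
    have h8 := (wk_L1 hp (hQm n) (hQm m) hK (hQl n) (hQl m) h7 hΛ1 ht0).2
    rw [hδ1] at h8
    linarith
  have hQI : ∀ N, Integrable (Q N).2 (wmu d) := by
    intro N
    have h1 : MemLp (Q N).2 (ENNReal.ofReal p) (wmu d) :=
      ⟨(hQm N).mono_measure wmu_le, lt_of_le_of_lt
        ((eLpNorm_mono_measure _ wmu_le).trans (hQl N)) hK.lt_top⟩
    exact h1.integrable hq
  obtain ⟨g, hg, hlim⟩ := wk_limit hQI hcau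
  have hgl : LocallyIntegrable g := by
    rw [locallyIntegrable_iff]
    intro k hk
    obtain ⟨r, hr⟩ := hk.isBounded.subset_closedBall (0 : E d)
    obtain ⟨C, hC, hle⟩ := wmu_ball (d := d) (max r 0) (le_max_right _ _)
    have h1 : IntegrableOn g (closedBall 0 (max r 0)) := (hg.smul_measure hC).mono_measure hle
    exact h1.mono_set (hr.trans (closedBall_subset_closedBall (le_max_left _ _)))
  refine ⟨g, ⟨hu, hgl, ?_⟩, ?_⟩
  · intro φ hφ hc i
    obtain ⟨p1, p2⟩ := wk_pd φ hφ hc i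
    obtain ⟨R1, C1, hC1, hp1⟩ := wk_pair _ p1 p2
    obtain ⟨R2, C2, hC2, hp2⟩ := wk_pair _ hφ.continuous hc
    obtain ⟨C, hC, hle⟩ := wmu_ball (d := d) (R2 : ℝ) (by positivity)
    have t1 : Filter.Tendsto (fun n => ∫ x, (Q n).1 x *
        fderiv ℝ φ x (EuclideanSpace.single i 1)) Filter.atTop
        (nhds (∫ x, u x * fderiv ℝ φ x (EuclideanSpace.single i 1))) := by
      rw [tendsto_iff_edist_tendsto_0]
      have h1 : Filter.Tendsto (fun n => C1 * ee n R1) Filter.atTop (nhds 0) := by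
        have := ENNReal.Tendsto.const_mul (heel R1) (Or.inr hC1)
        simpa using this
      refine tendsto_of_tendsto_of_tendsto_of_le_of_le tendsto_const_nhds h1
        (fun n => bot_le) (fun n => ?_)
      show edist _ _ ≤ _
      rw [edist_eq_enorm_sub, ← integral_sub (wk_int (hQS n).1.1 p1 p2) (wk_int hu p1 p2)]
      have e1 : ∫ x, ((Q n).1 x * fderiv ℝ φ x (EuclideanSpace.single i 1) -
          u x * fderiv ℝ φ x (EuclideanSpace.single i 1)) = ∫ x, ((Q n).1 x - u x) *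
          fderiv ℝ φ x (EuclideanSpace.single i 1) := by
        congr 1; ext x; ring
      rw [e1]
      refine (hp1 (fun x => (Q n).1 x - u x)).trans ?_
      exact mul_le_mul_right ((hQS n).2.2 R1) C1
    have t2 : Filter.Tendsto (fun n => ∫ x, (Q n).2 x i * φ x) Filter.atTop
        (nhds (∫ x, g x i * φ x)) := by
      rw [tendsto_iff_edist_tendsto_0]
      have h1 : Filter.Tendsto (fun n => C2 * (C * eLpNorm ((Q n).2 - g) 1 (wmu d)))
          Filter.atTop (nhds 0) := by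
        have h2 := ENNReal.Tendsto.const_mul hlim (Or.inr hC)
        rw [mul_zero] at h2
        have h3 := ENNReal.Tendsto.const_mul h2 (Or.inr hC2)
        rw [mul_zero] at h3
        exact h3
      refine tendsto_of_tendsto_of_tendsto_of_le_of_le tendsto_const_nhds h1
        (fun n => bot_le) (fun n => ?_)
      show edist _ _ ≤ _
      rw [edist_eq_enorm_sub, ← integral_sub (wk_int (wk_comp (hQS n).1.2.1 i) hφ.continuous hc)
        (wk_int (wk_comp hgl i) hφ.continuous hc)]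
      have e1 : ∫ x, ((Q n).2 x i * φ x - g x i * φ x) =
          ∫ x, ((Q n).2 x i - g x i) * φ x := by
        congr 1; ext x; ring
      rw [e1]
      refine (hp2 (fun x => (Q n).2 x i - g x i)).trans ?_
      refine mul_le_mul_right ?_ C2
      rw [eLpNorm_one_eq_lintegral_enorm]
      calc ∫⁻ x in closedBall (0 : E d) R2, ‖(Q n).2 x i - g x i‖ₑ
          ≤ ∫⁻ x in closedBall (0 : E d) R2, ‖((Q n).2 - g) x‖ₑ := by
            apply lintegral_mono
            intro x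
            show ‖(Q n).2 x i - g x i‖ₑ ≤ ‖((Q n).2 - g) x‖ₑ
            have h4 : ‖((Q n).2 x - g x) i‖ ≤ ‖(Q n).2 x - g x‖ :=
              PiLp.norm_apply_le ((Q n).2 x - g x) i
            rw [← ofReal_norm, ← ofReal_norm]
            exact ENNReal.ofReal_le_ofReal h4
        _ ≤ ∫⁻ x, ‖((Q n).2 - g) x‖ₑ ∂(C • wmu d) := lintegral_mono' hle le_rfl
        _ = C * ∫⁻ x, ‖((Q n).2 - g) x‖ₑ ∂(wmu d) := by
            rw [lintegral_smul_measure, smul_eq_mul]
    have t3 : (fun n => ∫ x, (Q n).1 x * fderiv ℝ φ x (EuclideanSpace.single i 1)) =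
        fun n => - ∫ x, (Q n).2 x i * φ x := by
      funext n
      exact (hQS n).1.2.2 φ hφ hc i
    rw [t3] at t1
    exact tendsto_nhds_unique t1 t2.neg
  · have h1 := tendstoInMeasure_of_tendsto_eLpNorm one_ne_zero
      (fun n => (hQI n).aestronglyMeasurable) hg.aestronglyMeasurable hlim
    obtain ⟨ns, hns, h2⟩ := h1.exists_seq_tendsto_ae
    have h3 := wmu_ac.ae_le h2
    have h4 := Lp.eLpNorm_lim_le_liminf_eLpNorm (p := ENNReal.ofReal p)
      (fun k => hQm (ns k)) g h3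
    refine h4.trans ?_
    have h5 : Filter.Tendsto (fun k => bb (ns k)) Filter.atTop (nhds b) :=
      hbbl.comp hns.tendsto_atTop
    rw [← h5.liminf_eq]
    exact Filter.liminf_le_liminf (Filter.Eventually.of_forall fun k => (hQS (ns k)).2.1)

/-- Weak compactness: a bounded sequence of gradients. -/
theorem weak_limit {p : ℝ} (hp : 1 < p) {v : ℕ → E d → ℝ} {u : E d → ℝ} {G : ℕ → E d → E d}
    (hG : ∀ n, IsWeakGradient (v n) (G n)) (hu : LocallyIntegrable u)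
    (hv : ∀ R : ℝ, Filter.Tendsto (fun n => ∫⁻ x in closedBall (0 : E d) R, ‖v n x - u x‖ₑ)
      Filter.atTop (nhds 0)) {B : ℕ → ℝ≥0∞} {b : ℝ≥0∞} (hb : b ≠ ⊤)
    (hB : ∀ n, eLpNorm (G n) (ENNReal.ofReal p) ≤ B n)
    (hBb : Filter.Tendsto B Filter.atTop (nhds b)) :
    ∃ G' : E d → E d, IsWeakGradient u G' ∧ eLpNorm G' (ENNReal.ofReal p) ≤ b := by
  have h1 : b < b + 1 := ENNReal.lt_add_right hb one_ne_zero
  obtain ⟨N, hN⟩ := Filter.eventually_atTop.mp (hBb.eventually (gt_mem_nhds h1))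
  have hs : Filter.Tendsto (fun n : ℕ => n + N) Filter.atTop Filter.atTop :=
    Filter.tendsto_add_atTop_nat N
  exact wk_core (K := b + 1) hp (v := fun n => v (n + N)) (G := fun n => G (n + N))
    (fun n => hG (n + N)) hu (fun R => (hv R).comp hs) (B := fun n => B (n + N))
    (ENNReal.add_ne_top.mpr ⟨hb, ENNReal.one_ne_top⟩)
    (fun n => (hN (n + N) (by omega)).le) (fun n => hB (n + N)) (hBb.comp hs)

end Pool.Agent.Lib.MP_ff3fe0_an_SPH
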