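import Pool.Agent.Lib.MP_ff3fe0_an_SPH.LpA
import Pool.Agent.Lib.MP_ff3fe0_an_SPH.ConvA
import Pool.Agent.Lib.MP_ff3fe0_an_SPH.WeakC
import Pool.Agent.Lib.MP_ff3fe0_an_SPH.AppC

set_option autoImplicit false

/-!
# The gradient bound for the spherical maximal operator
-/

namespace Pool.Agent.Lib.MP_ff3fe0_an_SPH

open MeasureTheory Metric Set
open scoped ENNReal NNReal ContDiff FourierTransform
open Pool.Agent.Lib.MP_ff3fe0_an

variable {d : ℕ}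

/-- Let `d ≥ 3` and `(2 d - 1) / (2 d - 2) < p < 2`. The spherical maximal operator is
gradient-bounded on `W^{1,p}(ℝ^d)`. -/
theorem gradient_bounded (hd : 3 ≤ d) {p : ℝ} (hp : (2 * (d : ℝ) - 1) / (2 * d - 2) < p)
    (hp2 : p < 2) : ∃ C : ℝ≥0, ∀ (f : E d → ℝ) (F : E d → E d),
      MemLp f (ENNReal.ofReal p) → MemLp F (ENNReal.ofReal p) → IsWeakGradient f F →
        (∀ᵐ x, sphMax f x ≠ ⊤) ∧ ∃ G : E d → E d,
          IsWeakGradient (fun x => (sphMax f x).toReal) G ∧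
          eLpNorm G (ENNReal.ofReal p) ≤ C * eLpNorm F (ENNReal.ofReal p) := by
  have hd0 : 0 < d := by omega
  have hd1 : (3 : ℝ) ≤ d := by exact_mod_cast hd
  have hp1 : 1 < p := (expo hd hp).1
  have hp0 : 0 < p := by linarith
  obtain ⟨K⟩ := exists_ker hd0
  obtain ⟨C, hC⟩ := smooth_bound hd hp hp2
  refine ⟨C ^ (1 / p), fun f F hf hF hw => ?_⟩
  obtain ⟨g, hg, hc, h0, h1, h2, h3, h4⟩ := approx hp1.le hf hF hw
  obtain ⟨k1, k2, k3⟩ := conv hd K hp1 (by linarith) hg hc h0 hf.1 h1 h2 h3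
  refine ⟨k1, ?_⟩
  choose G hGw hGn using fun n => hC (g n) (hg n) (hc n) (h0 n)
  have hpt : ENNReal.ofReal p ≠ 0 := by simpa using hp0
  have key : ∀ n, eLpNorm (G n) (ENNReal.ofReal p) ≤
      (C : ℝ≥0∞) ^ (1 / p) * (eLpNorm F (ENNReal.ofReal p) + ENNReal.ofReal ((1 / 2) ^ n)) := by
    intro n
    have e1 := hGn n
    have e2 := h4 n
    rw [eLpNorm_eq_lintegral_rpow_enorm_toReal hpt ENNReal.ofReal_ne_top,
      ENNReal.toReal_ofReal hp0.le] at e2 ⊢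
    calc (∫⁻ x, ‖G n x‖ₑ ^ p) ^ (1 / p) ≤ (C * ∫⁻ x, ‖gradient (g n) x‖ₑ ^ p) ^ (1 / p) := by
          gcongr
      _ = (C : ℝ≥0∞) ^ (1 / p) * (∫⁻ x, ‖gradient (g n) x‖ₑ ^ p) ^ (1 / p) := by
          rw [ENNReal.mul_rpow_of_nonneg _ _ (by positivity)]
      _ ≤ _ := by gcongr
  have hlim : Filter.Tendsto (fun n : ℕ => (C : ℝ≥0∞) ^ (1 / p) *
      (eLpNorm F (ENNReal.ofReal p) + ENNReal.ofReal ((1 / 2) ^ n))) Filter.atTop
      (nhds ((C : ℝ≥0∞) ^ (1 / p) * (eLpNorm F (ENNReal.ofReal p) + 0))) := by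
    have a1 : Filter.Tendsto (fun n : ℕ => ENNReal.ofReal ((1 / 2 : ℝ) ^ n)) Filter.atTop
        (nhds 0) := by
      rw [← ENNReal.ofReal_zero]
      exact ENNReal.tendsto_ofReal (tendsto_pow_atTop_nhds_zero_of_lt_one (by norm_num)
        (by norm_num))
    refine ENNReal.Tendsto.const_mul (tendsto_const_nhds.add a1) (Or.inr ?_)
    exact ENNReal.rpow_ne_top_of_nonneg (by positivity) ENNReal.coe_ne_top
  have hfin : (C : ℝ≥0∞) ^ (1 / p) * (eLpNorm F (ENNReal.ofReal p) + 0) ≠ ⊤ := by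
    rw [add_zero]
    exact ENNReal.mul_ne_top (ENNReal.rpow_ne_top_of_nonneg (by positivity) ENNReal.coe_ne_top)
      hF.2.ne
  obtain ⟨G', hG1, hG2⟩ := weak_limit hp1 hGw k2 k3 hfin key hlim
  refine ⟨G', hG1, hG2.trans ?_⟩
  rw [add_zero, ENNReal.coe_rpow_of_nonneg _ (by positivity)]

end Pool.Agent.Lib.MP_ff3fe0_an_SPH
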