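import Pool.Agent.Lib.MP_ff3fe0_an_SPH.SmA

set_option autoImplicit false

/-!
# Linearity of the spherical means
-/

namespace Pool.Agent.Lib.MP_ff3fe0_an_SPH

open MeasureTheory Metric Set
open scoped ENNReal NNReal ContDiff FourierTransform
open Pool.Agent.Lib.MP_ff3fe0_an

variable {d : ℕ}

private theorem SmB_int (hd : 0 < d) {g : E d → ℝ} (hg : Continuous g) (t : ℝ) (x : E d) :
    Integrable (fun w : Sph d => g (x - t • (w : E d))) (sigma d) := by
  have := sigma_prob hd
  have hc : Continuous (fun w : Sph d => g (x - t • (w : E d))) :=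
    hg.comp (continuous_const.sub (continuous_subtype_val.const_smul t))
  exact hc.integrable_of_hasCompactSupport (HasCompactSupport.of_compactSpace _)

theorem sm_sum (hd : 0 < d) (s : Finset ℕ) (g : ℕ → E d → ℝ) (hg : ∀ m ∈ s, Continuous (g m))
    (t : ℝ) (x : E d) : sm (fun y => ∑ m ∈ s, g m y) t x = ∑ m ∈ s, sm (g m) t x :=
  integral_finset_sum s fun m hm => SmB_int hd (hg m hm) t x

theorem sm_add (hd : 0 < d) {g g' : E d → ℝ} (hg : Continuous g) (hg' : Continuous g') (t : ℝ)
    (x : E d) : sm (fun y => g y + g' y) t x = sm g t x + sm g' t x :=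
  integral_add (SmB_int hd hg t x) (SmB_int hd hg' t x)

theorem sm_const_mul (c : ℝ) (g : E d → ℝ) (t : ℝ) (x : E d) :
    sm (fun y => c * g y) t x = c * sm g t x := integral_const_mul _ _

theorem sm_congr {g g' : E d → ℝ} {t : ℝ} {x : E d} (h : ∀ y ∈ closedBall x |t|, g y = g' y) :
    sm g t x = sm g' t x := by
  refine integral_congr_ae (Filter.Eventually.of_forall fun w => ?_)
  apply h
  have hw : ‖(w : E d)‖ = 1 := by simpa using w.2
  rw [mem_closedBall, dist_eq_norm, sub_sub_cancel_left, norm_neg, norm_smul, hw,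
    Real.norm_eq_abs, mul_one]

end Pool.Agent.Lib.MP_ff3fe0_an_SPH
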