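import Pool.Agent.Lib.MP_ff3fe0_an_SPH.MuA
import Pool.Agent.Lib.MP_ff3fe0_an_SPH.SmB
import Pool.Agent.Lib.MP_ff3fe0_an_SPH.PlaA

set_option autoImplicit false

/-!
# The L2 norm of the spherical means
-/

namespace Pool.Agent.Lib.MP_ff3fe0_an_SPH

open MeasureTheory Metric Set
open scoped ENNReal NNReal ContDiff FourierTransform
open Pool.Agent.Lib.MP_ff3fe0_an

variable {d : ℕ}

/-- A radius of the support. -/
private lemma fouA_radius {g : E d → ℝ} (hc : HasCompactSupport g) :
    ∃ R : ℝ, ∀ y, R < ‖y‖ → g y = 0 := by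
  obtain ⟨R, hR⟩ := hc.isCompact.isBounded.subset_closedBall (0 : E d)
  refine ⟨R, fun y hy => ?_⟩
  by_contra hne
  have h1 : y ∈ tsupport g := subset_tsupport g hne
  have h2 := hR h1
  rw [mem_closedBall_zero_iff] at h2
  linarith

/-- The spherical means vanish far away. -/
private lemma fouA_sm_zero {g : E d → ℝ} {R : ℝ} (hR : ∀ y, R < ‖y‖ → g y = 0) {s : ℝ} {x : E d}
    (hx : R + |s| < ‖x‖) : sm g s x = 0 := by
  unfold sm
  have h : ∀ w : Sph d, g (x - s • (w : E d)) = 0 := by
    intro w
    apply hR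
    have hw : ‖(w : E d)‖ = 1 := by
      have := w.2
      rwa [mem_sphere_zero_iff_norm] at this
    have h1 : ‖s • (w : E d)‖ = |s| := by rw [norm_smul, hw, mul_one, Real.norm_eq_abs]
    have h2 := norm_sub_norm_le x (s • (w : E d))
    rw [h1] at h2
    linarith
  simp [h]

/-- The derivatives of the spherical means vanish far away. -/
private lemma fouA_iter_zero {g : E d → ℝ} {R : ℝ} (hR : ∀ y, R < ‖y‖ → g y = 0) (k : ℕ) {s : ℝ}
    {x : E d} (hx : R + |s| < ‖x‖) : iteratedDeriv k (fun r => sm g r x) s = 0 := by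
  have h1 : (fun r => sm g r x) =ᶠ[nhds s] (fun _ => (0 : ℝ)) := by
    have h2 : ∀ᶠ r in nhds s, R + |r| < ‖x‖ := by
      have hcont : Continuous (fun r : ℝ => R + |r|) := by fun_prop
      exact hcont.continuousAt.eventually (gt_mem_nhds hx)
    filter_upwards [h2] with r hr
    exact fouA_sm_zero hR hr
  rw [h1.iteratedDeriv_eq k]
  simp

/-- The exponential of the Fourier transform. -/
private noncomputable def fouA_e (x ξ : E d) : ℂ :=
  Complex.exp (((-2 * Real.pi * inner ℝ x ξ : ℝ) : ℂ) * Complex.I)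

private lemma fouA_fourier (f : E d → ℂ) (ξ : E d) : 𝓕 f ξ = ∫ x, fouA_e x ξ * f x := by
  rw [Real.fourier_eq']
  rfl

private lemma fouA_e_norm (x ξ : E d) : ‖fouA_e x ξ‖ = 1 := by
  unfold fouA_e
  exact Complex.norm_exp_ofReal_mul_I _

private lemma fouA_e_cont (ξ : E d) : Continuous (fun x : E d => fouA_e x ξ) := by
  unfold fouA_e
  have h1 : Continuous (fun x : E d => (-2 * Real.pi * inner ℝ x ξ : ℝ)) := by fun_prop
  exact Complex.continuous_exp.comp
    ((Complex.continuous_ofReal.comp h1).mul continuous_const)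

private lemma fouA_e_add (x y ξ : E d) : fouA_e (x + y) ξ = fouA_e x ξ * fouA_e y ξ := by
  unfold fouA_e
  rw [← Complex.exp_add, inner_add_left]
  congr 1
  push_cast
  ring

/-- The integral of the exponential over the sphere. -/
private lemma fouA_e_sphere (hd : 0 < d) (s : ℝ) (ξ : E d) :
    ∫ w : Sph d, fouA_e (s • (w : E d)) ξ ∂(sigma d) = (mus (s • ((2 * Real.pi) • ξ)) : ℂ) := by
  have := sigma_prob hd
  set η : E d := s • ((2 * Real.pi) • ξ) with hη
  have h0 : ∀ w : Sph d, fouA_e (s • (w : E d)) ξ =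
      ((Real.cos (inner ℝ η (w : E d)) : ℝ) : ℂ)
        - ((Real.sin (inner ℝ η (w : E d)) : ℝ) : ℂ) * Complex.I := by
    intro w
    have h1 : (-2 * Real.pi * inner ℝ (s • (w : E d)) ξ : ℝ) = - inner ℝ η (w : E d) := by
      rw [hη, real_inner_smul_left, real_inner_smul_left, real_inner_smul_left,
        real_inner_comm ξ (w : E d)]
      ring
    unfold fouA_e
    rw [h1, Complex.exp_mul_I, ← Complex.ofReal_cos, ← Complex.ofReal_sin, Real.cos_neg,
      Real.sin_neg]
    push_cast
    ring
  have hcw : Continuous (fun w : Sph d => inner ℝ η (w : E d)) := by fun_prop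
  have hcos : Integrable (fun w : Sph d => ((Real.cos (inner ℝ η (w : E d)) : ℝ) : ℂ))
      (sigma d) := by
    refine Integrable.of_bound (C := 1) ?_ (Filter.Eventually.of_forall fun w => ?_)
    · exact (Complex.continuous_ofReal.comp (Real.continuous_cos.comp hcw)).aestronglyMeasurable
    · rw [Complex.norm_real, Real.norm_eq_abs]
      exact Real.abs_cos_le_one _
  have hsin : Integrable (fun w : Sph d => ((Real.sin (inner ℝ η (w : E d)) : ℝ) : ℂ))
      (sigma d) := by
    refine Integrable.of_bound (C := 1) ?_ (Filter.Eventually.of_forall fun w => ?_)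
    · exact (Complex.continuous_ofReal.comp (Real.continuous_sin.comp hcw)).aestronglyMeasurable
    · rw [Complex.norm_real, Real.norm_eq_abs]
      exact Real.abs_sin_le_one _
  have hsz : ∫ w : Sph d, ((Real.sin (inner ℝ η (w : E d)) : ℝ) : ℂ) ∂(sigma d) = 0 := by
    have h2 := integral_sigma_isometry hd (LinearIsometryEquiv.neg ℝ)
      (fun v : E d => ((Real.sin (inner ℝ η v) : ℝ) : ℂ))
    have h3 : ∀ w : Sph d, ((Real.sin (inner ℝ η ((LinearIsometryEquiv.neg ℝ) (w : E d))) : ℝ) : ℂ)
        = - ((Real.sin (inner ℝ η (w : E d)) : ℝ) : ℂ) := by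
      intro w
      rw [LinearIsometryEquiv.coe_neg, inner_neg_right, Real.sin_neg]
      push_cast
      ring
    simp only [h3] at h2
    rw [integral_neg] at h2
    exact self_eq_neg.mp h2.symm
  simp only [h0]
  rw [integral_sub hcos (hsin.mul_const _), integral_mul_const, hsz, zero_mul, sub_zero]
  unfold mus
  rw [integral_complex_ofReal]

/-- A continuous function which vanishes outside of a ball is integrable. -/
private lemma fouA_compact {F : E d → ℂ} {R : ℝ}
    (hR : ∀ x, R < ‖x‖ → F x = 0) : HasCompactSupport F := by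
  refine HasCompactSupport.intro (isCompact_closedBall (0 : E d) R) fun x hx => hR x ?_
  rw [mem_closedBall_zero_iff, not_le] at hx
  exact hx

/-- The Fourier transform of a spherical mean. -/
private lemma fouA_zero (hd : 0 < d) {g : E d → ℝ} (hg : Continuous g) {R : ℝ}
    (hR : ∀ y, R < ‖y‖ → g y = 0) (s : ℝ) (ξ : E d) :
    ∫ x, fouA_e x ξ * (sm g s x : ℂ) =
      (mus (s • ((2 * Real.pi) • ξ)) : ℂ) * ∫ x, fouA_e x ξ * (g x : ℂ) := by
  have := sigma_prob hd
  have h1 : ∀ x : E d, fouA_e x ξ * (sm g s x : ℂ) =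
      ∫ w : Sph d, fouA_e x ξ * (g (x - s • (w : E d)) : ℂ) ∂(sigma d) := by
    intro x
    rw [integral_const_mul]
    unfold sm
    rw [integral_complex_ofReal]
  simp only [h1]
  have hcont : Continuous (fun p : E d × Sph d =>
      fouA_e p.1 ξ * (g (p.1 - s • (p.2 : E d)) : ℂ)) := by
    refine ((fouA_e_cont ξ).comp continuous_fst).mul (Complex.continuous_ofReal.comp ?_)
    refine hg.comp (continuous_fst.sub ?_)
    exact (continuous_const_smul s).comp (continuous_subtype_val.comp continuous_snd)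
  have hcs : HasCompactSupport (fun p : E d × Sph d =>
      fouA_e p.1 ξ * (g (p.1 - s • (p.2 : E d)) : ℂ)) := by
    refine HasCompactSupport.intro
      ((isCompact_closedBall (0 : E d) (R + |s|)).prod isCompact_univ) ?_
    rintro ⟨x, w⟩ hxw
    have hx : x ∉ closedBall (0 : E d) (R + |s|) := by
      intro hx
      exact hxw ⟨hx, mem_univ _⟩
    rw [mem_closedBall_zero_iff, not_le] at hx
    have hw : ‖(w : E d)‖ = 1 := by
      have := w.2
      rwa [mem_sphere_zero_iff_norm] at this
    have h1 : ‖s • (w : E d)‖ = |s| := by rw [norm_smul, hw, mul_one, Real.norm_eq_abs]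
    have h2 := norm_sub_norm_le x (s • (w : E d))
    rw [h1] at h2
    have h3 : g (x - s • (w : E d)) = 0 := hR _ (by linarith)
    simp only [h3, Complex.ofReal_zero, mul_zero]
  have hint : Integrable (fun p : E d × Sph d =>
      fouA_e p.1 ξ * (g (p.1 - s • (p.2 : E d)) : ℂ)) ((volume : Measure (E d)).prod (sigma d)) :=
    hcont.integrable_of_hasCompactSupport hcs
  rw [integral_integral_swap (f := fun (x : E d) (w : Sph d) =>
    fouA_e x ξ * (g (x - s • (w : E d)) : ℂ)) hint]
  have h2 : ∀ w : Sph d, ∫ x : E d, fouA_e x ξ * (g (x - s • (w : E d)) : ℂ) =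
      fouA_e (s • (w : E d)) ξ * ∫ x, fouA_e x ξ * (g x : ℂ) := by
    intro w
    rw [← integral_sub_right_eq_self (fun x : E d => fouA_e x ξ * (g x : ℂ)) (s • (w : E d)),
      ← integral_const_mul]
    congr 1
    funext x
    rw [← mul_assoc, ← fouA_e_add, add_sub_cancel]
  simp only [h2]
  rw [integral_mul_const, fouA_e_sphere hd s ξ]

/-- The Fourier transform of the derivatives of the spherical means. -/
private lemma fouA_iter (hd : 0 < d) {g : E d → ℝ} (hg : ContDiff ℝ ∞ g) {R : ℝ}
    (hR : ∀ y, R < ‖y‖ → g y = 0) (ξ : E d) (k : ℕ) : ∀ t : ℝ,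
    ∫ x, fouA_e x ξ * ((iteratedDeriv k (fun s => sm g s x) t : ℝ) : ℂ) =
      ((iteratedDeriv k (fun s : ℝ => mus (s • ((2 * Real.pi) • ξ))) t : ℝ) : ℂ)
        * ∫ x, fouA_e x ξ * (g x : ℂ) := by
  induction k with
  | zero =>
    intro t
    simp only [iteratedDeriv_zero]
    exact fouA_zero hd hg.continuous hR t ξ
  | succ k ih =>
    intro t
    have hcx : ∀ (j : ℕ) (s : ℝ), Continuous (fun x : E d =>
        fouA_e x ξ * ((iteratedDeriv j (fun s => sm g s x) s : ℝ) : ℂ)) := by
      intro j s
      refine (fouA_e_cont ξ).mul (Complex.continuous_ofReal.comp ?_)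
      exact (sm_cont hd hg j).comp (Continuous.prodMk_right s)
    have hix : ∀ (j : ℕ) (s : ℝ), Integrable (fun x : E d =>
        fouA_e x ξ * ((iteratedDeriv j (fun s => sm g s x) s : ℝ) : ℂ)) := by
      intro j s
      refine (hcx j s).integrable_of_hasCompactSupport (fouA_compact (R := R + |s|) ?_)
      intro x hx
      rw [fouA_iter_zero hR j hx, Complex.ofReal_zero, mul_zero]
    have hder : ∀ (x : E d) (s : ℝ), HasDerivAt
        (fun r : ℝ => fouA_e x ξ * ((iteratedDeriv k (fun s => sm g s x) r : ℝ) : ℂ))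
        (fouA_e x ξ * ((iteratedDeriv (k + 1) (fun s => sm g s x) s : ℝ) : ℂ)) s := by
      intro x s
      have h1 : HasDerivAt (iteratedDeriv k (fun s => sm g s x))
          (iteratedDeriv (k + 1) (fun s => sm g s x) s) s := by
        rw [iteratedDeriv_succ]
        have h2 : Differentiable ℝ (iteratedDeriv k (fun s => sm g s x)) :=
          (sm_contDiff_t hd hg x).differentiable_iteratedDeriv k
            (by exact_mod_cast WithTop.coe_lt_coe.mpr (WithTop.coe_lt_top k))
        exact (h2 s).hasDerivAt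
      exact (h1.ofReal_comp).const_mul _
    obtain ⟨C, hC⟩ := (isCompact_Icc (a := t - 1) (b := t + 1)).prod
      (isCompact_closedBall (0 : E d) (R + |t| + 1)) |>.exists_bound_of_continuousOn
      (sm_cont hd hg (k + 1)).continuousOn
    have hL : HasDerivAt (fun r : ℝ =>
        ∫ x, fouA_e x ξ * ((iteratedDeriv k (fun s => sm g s x) r : ℝ) : ℂ))
        (∫ x, fouA_e x ξ * ((iteratedDeriv (k + 1) (fun s => sm g s x) t : ℝ) : ℂ)) t := by
      refine (hasDerivAt_integral_of_dominated_loc_of_deriv_le (μ := (volume : Measure (E d)))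
        (F := fun (r : ℝ) (x : E d) =>
          fouA_e x ξ * ((iteratedDeriv k (fun s => sm g s x) r : ℝ) : ℂ))
        (F' := fun (r : ℝ) (x : E d) =>
          fouA_e x ξ * ((iteratedDeriv (k + 1) (fun s => sm g s x) r : ℝ) : ℂ))
        (bound := (closedBall (0 : E d) (R + |t| + 1)).indicator (fun _ => C))
        (s := ball t 1) (ball_mem_nhds t one_pos) ?_ (hix k t) ?_ ?_ ?_ ?_).2
      · exact Filter.Eventually.of_forall fun r => (hcx k r).aestronglyMeasurable
      · exact (hcx (k + 1) t).aestronglyMeasurable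
      · refine Filter.Eventually.of_forall fun x r hr => ?_
        have hr' : |r - t| < 1 := by
          rw [mem_ball, Real.dist_eq] at hr
          exact hr
        have hr1 := abs_lt.mp hr'
        have hrt : |r| ≤ |t| + 1 := by
          have : |r| ≤ |r - t| + |t| := by
            have := abs_add_le (r - t) t
            rwa [sub_add_cancel] at this
          linarith
        rw [norm_mul, fouA_e_norm, one_mul, Complex.norm_real]
        by_cases hx : x ∈ closedBall (0 : E d) (R + |t| + 1)
        · rw [indicator_of_mem hx]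
          exact hC (r, x) ⟨⟨by linarith, by linarith⟩, hx⟩
        · rw [indicator_of_notMem hx]
          rw [mem_closedBall_zero_iff, not_le] at hx
          rw [fouA_iter_zero hR (k + 1) (by linarith), norm_zero]
      · rw [integrable_indicator_iff measurableSet_closedBall]
        exact integrableOn_const (measure_closedBall_lt_top.ne)
      · exact Filter.Eventually.of_forall fun x r _ => hder x r
    have hRt : HasDerivAt (fun r : ℝ =>
        ((iteratedDeriv k (fun s : ℝ => mus (s • ((2 * Real.pi) • ξ))) r : ℝ) : ℂ)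
          * ∫ x, fouA_e x ξ * (g x : ℂ))
        (((iteratedDeriv (k + 1) (fun s : ℝ => mus (s • ((2 * Real.pi) • ξ))) t : ℝ) : ℂ)
          * ∫ x, fouA_e x ξ * (g x : ℂ)) t := by
      have h1 : HasDerivAt (iteratedDeriv k (fun s : ℝ => mus (s • ((2 * Real.pi) • ξ))))
          (iteratedDeriv (k + 1) (fun s : ℝ => mus (s • ((2 * Real.pi) • ξ))) t) t := by
        rw [iteratedDeriv_succ]
        have h2 : Differentiable ℝ
            (iteratedDeriv k (fun s : ℝ => mus (s • ((2 * Real.pi) • ξ)))) :=
          (mus_contDiff hd ((2 * Real.pi) • ξ)).differentiable_iteratedDeriv k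
            (by exact_mod_cast WithTop.coe_lt_coe.mpr (WithTop.coe_lt_top k))
        exact (h2 t).hasDerivAt
      exact (h1.ofReal_comp).mul_const _
    have heq : (fun r : ℝ =>
        ∫ x, fouA_e x ξ * ((iteratedDeriv k (fun s => sm g s x) r : ℝ) : ℂ)) = (fun r : ℝ =>
        ((iteratedDeriv k (fun s : ℝ => mus (s • ((2 * Real.pi) • ξ))) r : ℝ) : ℂ)
          * ∫ x, fouA_e x ξ * (g x : ℂ)) := by
      funext r
      exact ih r
    rw [heq] at hL
    exact hL.unique hRt

/-- The spherical means and their derivatives in `t` in terms of the Fourier transform. -/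
theorem sm_fourier (hd : 0 < d) {g : E d → ℝ} (hg : ContDiff ℝ ∞ g) (hc : HasCompactSupport g)
    (k : ℕ) (t : ℝ) :
    ∫⁻ x, ‖iteratedDeriv k (fun s => sm g s x) t‖ₑ ^ 2 =
      ∫⁻ ξ : E d, ‖iteratedDeriv k (fun s : ℝ => mus (s • ((2 * Real.pi) • ξ))) t‖ₑ ^ 2 *
        ‖𝓕 (fun y => (g y : ℂ)) ξ‖ₑ ^ 2 := by
  obtain ⟨R, hR⟩ := fouA_radius hc
  have hcont : Continuous (fun x : E d => ((iteratedDeriv k (fun s => sm g s x) t : ℝ) : ℂ)) :=
    Complex.continuous_ofReal.comp ((sm_cont hd hg k).comp (Continuous.prodMk_right t))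
  have hcs : HasCompactSupport
      (fun x : E d => ((iteratedDeriv k (fun s => sm g s x) t : ℝ) : ℂ)) := by
    refine fouA_compact (R := R + |t|) ?_
    intro x hx
    rw [fouA_iter_zero hR k hx, Complex.ofReal_zero]
  have h := plancherel (fun x : E d => ((iteratedDeriv k (fun s => sm g s x) t : ℝ) : ℂ))
    (hcont.integrable_of_hasCompactSupport hcs) (hcont.memLp_of_hasCompactSupport hcs)
  have h1 : ∀ x : E d, ‖((iteratedDeriv k (fun s => sm g s x) t : ℝ) : ℂ)‖ₑ =
      ‖iteratedDeriv k (fun s => sm g s x) t‖ₑ := by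
    intro x
    rw [← ofReal_norm, ← ofReal_norm, Complex.norm_real]
  simp only [h1] at h
  rw [← h]
  congr 1
  funext ξ
  rw [fouA_fourier, fouA_iter hd hg hR ξ k t, fouA_fourier, enorm_mul, mul_pow]
  congr 2
  rw [← ofReal_norm, ← ofReal_norm, Complex.norm_real]

end Pool.Agent.Lib.MP_ff3fe0_an_SPH
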