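import Pool.Agent.Lib.MP_ff3fe0_an_SPH.RotA

set_option autoImplicit false

/-!
# The vector-valued spherical means
-/

namespace Pool.Agent.Lib.MP_ff3fe0_an_SPH

open MeasureTheory Metric Set
open scoped ENNReal NNReal ContDiff FourierTransform
open Pool.Agent.Lib.MP_ff3fe0_an

variable {d : ℕ}

section JJAaux

variable {P : Type} [NormedAddCommGroup P] [NormedSpace ℝ P] [FiniteDimensional ℝ P]

private theorem JJA_int [IsFiniteMeasure (sigma d)] {F : Type} [NormedAddCommGroup F]
    [NormedSpace ℝ F] [CompleteSpace F] {f : Sph d → F} (hf : Continuous f) :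
    Integrable f (sigma d) := by
  exact integrableOn_univ.mp (hf.continuousOn.integrableOn_compact isCompact_univ)

private noncomputable def JJA_D {F : Type} [NormedAddCommGroup F] [NormedSpace ℝ F]
    (H : P × E d → F) (q : P × E d) : P →L[ℝ] F :=
  (fderiv ℝ H q).comp (ContinuousLinearMap.inl ℝ P (E d))

private theorem JJA_D_cd {F : Type} [NormedAddCommGroup F] [NormedSpace ℝ F]
    {H : P × E d → F} (hH : ContDiff ℝ ∞ H) : ContDiff ℝ ∞ (JJA_D H) := by
  unfold JJA_D
  have h1 : ContDiff ℝ ∞ (fderiv ℝ H) := hH.fderiv_right (by simp)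
  exact h1.clm_comp contDiff_const

private theorem JJA_D_has {F : Type} [NormedAddCommGroup F] [NormedSpace ℝ F]
    {H : P × E d → F} (hH : ContDiff ℝ ∞ H) (p : P) (w : E d) :
    HasFDerivAt (fun p => H (p, w)) (JJA_D H (p, w)) p := by
  have h1 : HasFDerivAt H (fderiv ℝ H (p, w)) (p, w) :=
    (hH.differentiable (by simp) (p, w)).hasFDerivAt
  have h2 : HasFDerivAt (fun p : P => (p, w)) (ContinuousLinearMap.inl ℝ P (E d)) p :=
    hasFDerivAt_prodMk_left p w
  exact h1.comp p h2

private theorem JJA_der [IsFiniteMeasure (sigma d)] {F : Type} [NormedAddCommGroup F]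
    [NormedSpace ℝ F] [CompleteSpace F] {H : P × E d → F} (hH : ContDiff ℝ ∞ H) (p0 : P) :
    HasFDerivAt (fun p => ∫ w : Sph d, H (p, (w : E d)) ∂(sigma d))
      (∫ w : Sph d, JJA_D H (p0, (w : E d)) ∂(sigma d)) p0 := by
  have hDc : Continuous (JJA_D H) := (JJA_D_cd hH).continuous
  have hHc : Continuous H := hH.continuous
  have hcomp : IsCompact (closedBall p0 1 ×ˢ (sphere (0 : E d) 1)) :=
    (isCompact_closedBall p0 1).prod (isCompact_sphere 0 1)
  obtain ⟨C, hC⟩ := hcomp.exists_bound_of_continuousOn (f := JJA_D H) hDc.continuousOn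
  refine hasFDerivAt_integral_of_dominated_of_fderiv_le (F' := fun p (w : Sph d) =>
    JJA_D H (p, (w : E d))) (bound := fun _ => C) (s := ball p0 1)
    (ball_mem_nhds p0 one_pos) ?_ ?_ ?_ ?_ ?_ ?_
  · refine Filter.Eventually.of_forall (fun p => ?_)
    exact (JJA_int (hHc.comp (by fun_prop))).aestronglyMeasurable
  · exact JJA_int (hHc.comp (by fun_prop))
  · exact (JJA_int (hDc.comp (by fun_prop))).aestronglyMeasurable
  · refine Filter.Eventually.of_forall (fun w p hp => ?_)
    exact hC (p, (w : E d)) ⟨ball_subset_closedBall hp, w.2⟩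
  · exact integrable_const _
  · refine Filter.Eventually.of_forall (fun w p hp => ?_)
    exact JJA_D_has hH p w

private theorem JJA_cdn [IsFiniteMeasure (sigma d)] (n : ℕ) : ∀ {F : Type}
    [NormedAddCommGroup F] [NormedSpace ℝ F] [CompleteSpace F] {H : P × E d → F},
    ContDiff ℝ ∞ H → ContDiff ℝ n (fun p => ∫ w : Sph d, H (p, (w : E d)) ∂(sigma d)) := by
  induction n with
  | zero =>
    intro F _ _ _ H hH
    rw [Nat.cast_zero, contDiff_zero]
    exact continuous_iff_continuousAt.mpr (fun p => (JJA_der hH p).continuousAt)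
  | succ n ih =>
    intro F _ _ _ H hH
    rw [Nat.cast_succ, contDiff_succ_iff_hasFDerivAt]
    exact ⟨fun p => ∫ w : Sph d, JJA_D H (p, (w : E d)) ∂(sigma d), ih (JJA_D_cd hH),
      fun p => JJA_der hH p⟩

private theorem JJA_cd [IsFiniteMeasure (sigma d)] {F : Type}
    [NormedAddCommGroup F] [NormedSpace ℝ F] [CompleteSpace F] {H : P × E d → F}
    (hH : ContDiff ℝ ∞ H) :
    ContDiff ℝ ∞ (fun p => ∫ w : Sph d, H (p, (w : E d)) ∂(sigma d)) :=
  contDiff_infty.mpr (fun n => JJA_cdn n hH)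

/-- the `k`-th derivative in the first variable of a smooth function on `ℝ × P` -/
private theorem JJA_iter {F : Type} [NormedAddCommGroup F] [NormedSpace ℝ F]
    {Φ : ℝ × P → F} (hΦ : ContDiff ℝ ∞ Φ) (k : ℕ) :
    ContDiff ℝ ∞ (fun p : ℝ × P => iteratedDeriv k (fun s => Φ (s, p.2)) p.1) := by
  induction k with
  | zero => simpa only [iteratedDeriv_zero, Prod.mk.eta] using hΦ
  | succ k ih =>
    have h1 : (fun p : ℝ × P => iteratedDeriv (k + 1) (fun s => Φ (s, p.2)) p.1) =
        fun p => fderiv ℝ (fun p : ℝ × P => iteratedDeriv k (fun s => Φ (s, p.2)) p.1) p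
          ((1 : ℝ), (0 : P)) := by
      funext p
      rw [iteratedDeriv_succ]
      have h2 : HasFDerivAt (fun p : ℝ × P => iteratedDeriv k (fun s => Φ (s, p.2)) p.1)
          (fderiv ℝ (fun p : ℝ × P => iteratedDeriv k (fun s => Φ (s, p.2)) p.1) p) p :=
        (ih.differentiable (by simp) p).hasFDerivAt
      have h3 : HasDerivAt (fun s : ℝ => (s, p.2)) ((1 : ℝ), (0 : P)) p.1 :=
        (hasDerivAt_id p.1).prodMk (hasDerivAt_const p.1 p.2)
      have h4 := HasFDerivAt.comp_hasDerivAt p.1 (f := fun s : ℝ => (s, p.2)) h2 h3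
      exact h4.deriv
    rw [h1]
    have h5 := ih.fderiv_right (m := ∞) (by simp)
    exact h5.clm_apply contDiff_const

private theorem JJA_deriv_eq [IsFiniteMeasure (sigma d)] {F : Type} [NormedAddCommGroup F]
    [NormedSpace ℝ F] [CompleteSpace F] {H : ℝ × E d → F} (hH : ContDiff ℝ ∞ H) (t : ℝ) :
    deriv (fun s => ∫ w : Sph d, H (s, (w : E d)) ∂(sigma d)) t =
      ∫ w : Sph d, deriv (fun s => H (s, (w : E d))) t ∂(sigma d) := by
  have h1 := (JJA_der hH t).hasDerivAt
  rw [h1.deriv, ContinuousLinearMap.integral_apply]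
  · refine integral_congr_ae (Filter.Eventually.of_forall (fun w => ?_))
    exact (JJA_D_has hH t w).hasDerivAt.deriv.symm
  · exact JJA_int ((JJA_D_cd hH).continuous.comp (by fun_prop))

private theorem JJA_iter_eq [IsFiniteMeasure (sigma d)] (k : ℕ) : ∀ {F : Type}
    [NormedAddCommGroup F] [NormedSpace ℝ F] [CompleteSpace F] {H : ℝ × E d → F},
    ContDiff ℝ ∞ H → ∀ t : ℝ,
    iteratedDeriv k (fun s => ∫ w : Sph d, H (s, (w : E d)) ∂(sigma d)) t =
      ∫ w : Sph d, iteratedDeriv k (fun s => H (s, (w : E d))) t ∂(sigma d) := by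
  induction k with
  | zero =>
    intro F _ _ _ H hH t
    simp only [iteratedDeriv_zero]
  | succ k ih =>
    intro F _ _ _ H hH t
    simp only [iteratedDeriv_succ']
    have h1 : deriv (fun s => ∫ w : Sph d, H (s, (w : E d)) ∂(sigma d)) =
        fun s => ∫ w : Sph d, (JJA_D H (s, (w : E d))) 1 ∂(sigma d) := by
      funext s
      rw [JJA_deriv_eq hH]
      refine integral_congr_ae (Filter.Eventually.of_forall (fun w => ?_))
      exact (JJA_D_has hH s w).hasDerivAt.deriv
    have h2 : ContDiff ℝ ∞ (fun q : ℝ × E d => (JJA_D H q) 1) :=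
      (JJA_D_cd hH).clm_apply contDiff_const
    rw [h1, ih h2 t]
    refine integral_congr_ae (Filter.Eventually.of_forall (fun w => ?_))
    have h3 : (fun s => (JJA_D H (s, (w : E d))) 1) = deriv (fun s => H (s, (w : E d))) := by
      funext s
      exact ((JJA_D_has hH s w).hasDerivAt.deriv).symm
    simp only [h3]

end JJAaux

variable {φ : E d → ℝ}

private theorem JJA_hH (hφ : ContDiff ℝ ∞ φ) (c x : E d) :
    ContDiff ℝ ∞ (fun q : ℝ × E d => φ (x - q.1 • q.2) • (q.2 - c)) := by
  have h1 : ContDiff ℝ ∞ (fun q : ℝ × E d => φ (x - q.1 • q.2)) := hφ.comp (by fun_prop)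
  exact h1.smul (by fun_prop)

private theorem JJA_F_cd (hd : 0 < d) (hφ : ContDiff ℝ ∞ φ) (c x : E d) :
    ContDiff ℝ ∞ (fun s : ℝ => ∫ w : Sph d, φ (x - s • (w : E d)) • ((w : E d) - c)
      ∂(sigma d)) := by
  have := sigma_prob hd
  exact JJA_cd (JJA_hH hφ c x)

private theorem JJA_int_smul (hd : 0 < d) (hφ : ContDiff ℝ ∞ φ) (c x : E d) (s : ℝ) :
    Integrable (fun w : Sph d => φ (x - s • (w : E d)) • ((w : E d) - c)) (sigma d) := by
  have := sigma_prob hd
  have hc := hφ.continuous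
  exact JJA_int (by fun_prop)

private theorem JJA_iter_cd {F : Type} [NormedAddCommGroup F] [NormedSpace ℝ F]
    {f : ℝ → F} (hf : ContDiff ℝ ∞ f) (j : ℕ) : ContDiff ℝ ∞ (iteratedDeriv j f) := by
  induction j with
  | zero => simpa only [iteratedDeriv_zero] using hf
  | succ j ih =>
    rw [iteratedDeriv_succ]
    exact (contDiff_infty_iff_deriv.mp ih).2

private theorem JJA_iter_add {F : Type} [NormedAddCommGroup F] [NormedSpace ℝ F] (j : ℕ) :
    ∀ {f g : ℝ → F}, ContDiff ℝ ∞ f → ContDiff ℝ ∞ g →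
    iteratedDeriv j (fun s => f s + g s) = fun s => iteratedDeriv j f s + iteratedDeriv j g s := by
  induction j with
  | zero =>
    intro f g hf hg
    simp only [iteratedDeriv_zero]
  | succ j ih =>
    intro f g hf hg
    have h1 : deriv (fun s => f s + g s) = fun s => deriv f s + deriv g s := by
      funext s
      exact deriv_fun_add (hf.differentiable (by simp) s) (hg.differentiable (by simp) s)
    rw [iteratedDeriv_succ', h1, ih (contDiff_infty_iff_deriv.mp hf).2
      (contDiff_infty_iff_deriv.mp hg).2, iteratedDeriv_succ', iteratedDeriv_succ']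

private theorem JJA_iter_smul {F : Type} [NormedAddCommGroup F] [NormedSpace ℝ F] (j : ℕ)
    (v : F) : ∀ {f : ℝ → ℝ}, ContDiff ℝ ∞ f →
    iteratedDeriv j (fun s => f s • v) = fun s => iteratedDeriv j f s • v := by
  induction j with
  | zero =>
    intro f hf
    simp only [iteratedDeriv_zero]
  | succ j ih =>
    intro f hf
    have h1 : deriv (fun s => f s • v) = fun s => deriv f s • v := by
      funext s
      exact deriv_smul_const (hf.differentiable (by simp) s) v
    rw [iteratedDeriv_succ', h1, ih (contDiff_infty_iff_deriv.mp hf).2, iteratedDeriv_succ']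

theorem JJ_contDiff (hd : 0 < d) (hφ : ContDiff ℝ ∞ φ) (j : ℕ) (c x : E d) :
    ContDiff ℝ ∞ (JJ j φ c x) :=
  JJA_iter_cd (JJA_F_cd hd hφ c x) j

theorem JJ_cont (hd : 0 < d) (hφ : ContDiff ℝ ∞ φ) (j : ℕ) :
    Continuous (fun z : E d × E d × ℝ => JJ j φ z.1 z.2.1 z.2.2) := by
  have := sigma_prob hd
  have hH : ContDiff ℝ ∞ (fun q : (ℝ × (E d × E d)) × E d =>
      φ (q.1.2.2 - q.1.1 • q.2) • (q.2 - q.1.2.1)) := by
    have h1 : ContDiff ℝ ∞ (fun q : (ℝ × (E d × E d)) × E d => φ (q.1.2.2 - q.1.1 • q.2)) :=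
      hφ.comp (by fun_prop)
    exact h1.smul (by fun_prop)
  have h2 := JJA_iter (JJA_cd hH) j
  have h3 : Continuous (fun z : E d × E d × ℝ => (z.2.2, (z.1, z.2.1))) := by fun_prop
  exact h2.continuous.comp h3

theorem JJ_succ (hd : 0 < d) (hφ : ContDiff ℝ ∞ φ) (j : ℕ) (c x : E d) :
    deriv (JJ j φ c x) = JJ (j + 1) φ c x := by
  unfold JJ
  rw [iteratedDeriv_succ]

theorem JJ_add (hd : 0 < d) {φ' : E d → ℝ} (hφ : ContDiff ℝ ∞ φ) (hφ' : ContDiff ℝ ∞ φ')
    (j : ℕ) (c x : E d) (t : ℝ) :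
    JJ j (fun y => φ y + φ' y) c x t = JJ j φ c x t + JJ j φ' c x t := by
  have h1 : (fun s : ℝ => ∫ w : Sph d, (φ (x - s • (w : E d)) + φ' (x - s • (w : E d))) •
      ((w : E d) - c) ∂(sigma d)) = fun s =>
      (∫ w : Sph d, φ (x - s • (w : E d)) • ((w : E d) - c) ∂(sigma d)) +
      ∫ w : Sph d, φ' (x - s • (w : E d)) • ((w : E d) - c) ∂(sigma d) := by
    funext s
    rw [← integral_add (JJA_int_smul hd hφ c x s) (JJA_int_smul hd hφ' c x s)]
    refine integral_congr_ae (Filter.Eventually.of_forall (fun w => ?_))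
    exact add_smul _ _ _
  unfold JJ
  rw [h1, JJA_iter_add j (JJA_F_cd hd hφ c x) (JJA_F_cd hd hφ' c x)]

/-- The difference for two vectors is a multiple of the spherical mean. -/
theorem JJ_sub (hd : 0 < d) (hφ : ContDiff ℝ ∞ φ) (j : ℕ) (c c' x : E d) (t : ℝ) :
    JJ j φ c' x t - JJ j φ c x t = iteratedDeriv j (fun s => sm φ s x) t • (c - c') := by
  have := sigma_prob hd
  have h1 : (fun s : ℝ => ∫ w : Sph d, φ (x - s • (w : E d)) • ((w : E d) - c') ∂(sigma d)) =
      fun s => (∫ w : Sph d, φ (x - s • (w : E d)) • ((w : E d) - c) ∂(sigma d)) +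
        sm φ s x • (c - c') := by
    funext s
    have hi : Integrable (fun w : Sph d => φ (x - s • (w : E d))) (sigma d) := by
      have hc := hφ.continuous
      exact JJA_int (by fun_prop)
    unfold sm
    rw [← integral_smul_const, ← integral_add (JJA_int_smul hd hφ c x s) (hi.smul_const _)]
    refine integral_congr_ae (Filter.Eventually.of_forall (fun w => ?_))
    show φ (x - s • (w : E d)) • ((w : E d) - c') =
      φ (x - s • (w : E d)) • ((w : E d) - c) + φ (x - s • (w : E d)) • (c - c')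
    rw [← smul_add]
    congr 1
    abel
  have h2 : ContDiff ℝ ∞ (fun s => sm φ s x) := sm_contDiff_t hd hφ x
  have h3 : ContDiff ℝ ∞ (fun s => sm φ s x • (c - c')) := h2.smul contDiff_const
  unfold JJ
  rw [h1, JJA_iter_add j (JJA_F_cd hd hφ c x) h3, JJA_iter_smul j (c - c') h2]
  exact add_sub_cancel_left _ _

private theorem JJA_grad (hφ : ContDiff ℝ ∞ φ) (x w : E d) (t : ℝ) :
    HasDerivAt (fun s => φ (x - s • w)) (-inner ℝ (gradient φ (x - t • w)) w) t := by
  have h6 : HasFDerivAt φ (fderiv ℝ φ (x - t • w)) (x - t • w) :=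
    (hφ.differentiable (by simp) _).hasFDerivAt
  have h7 : HasDerivAt (fun s : ℝ => x - s • w) (-w) t := by
    have h8 := ((hasDerivAt_id t).smul_const w).const_sub x
    simpa using h8
  have h9 := h6.comp_hasDerivAt t h7
  have h10 : inner ℝ (gradient φ (x - t • w)) w = fderiv ℝ φ (x - t • w) w := by
    unfold gradient
    exact InnerProductSpace.toDual_symm_apply
  rw [h10, ← map_neg]
  exact h9

theorem JJ_one (hd : 0 < d) (hφ : ContDiff ℝ ∞ φ) (c x : E d) (t : ℝ) :
    ∫ w : Sph d, inner ℝ (gradient φ (x - t • (w : E d))) (w : E d) • (w : E d) ∂(sigma d) =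
      - JJ 1 φ c x t - deriv (fun s => sm φ s x) t • c := by
  have := sigma_prob hd
  have hgc : Continuous (gradient φ) := by
    unfold gradient
    exact (LinearIsometryEquiv.continuous _).comp (hφ.continuous_fderiv (by simp))
  have h1 : JJ 1 φ c x t = ∫ w : Sph d,
      (-inner ℝ (gradient φ (x - t • (w : E d))) (w : E d)) • ((w : E d) - c) ∂(sigma d) := by
    unfold JJ
    rw [iteratedDeriv_one]
    refine (JJA_deriv_eq (JJA_hH hφ c x) t).trans ?_
    refine integral_congr_ae (Filter.Eventually.of_forall (fun w => ?_))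
    exact ((JJA_grad hφ x (w : E d) t).smul_const ((w : E d) - c)).deriv
  have hi : Integrable (fun w : Sph d =>
      inner ℝ (gradient φ (x - t • (w : E d))) (w : E d)) (sigma d) :=
    JJA_int (by fun_prop)
  have hi2 : Integrable (fun w : Sph d =>
      inner ℝ (gradient φ (x - t • (w : E d))) (w : E d) • (w : E d)) (sigma d) :=
    JJA_int (by fun_prop)
  have h2 : (∫ w : Sph d,
      (-inner ℝ (gradient φ (x - t • (w : E d))) (w : E d)) • ((w : E d) - c) ∂(sigma d)) =
      (∫ w : Sph d, inner ℝ (gradient φ (x - t • (w : E d))) (w : E d) ∂(sigma d)) • c -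
      ∫ w : Sph d, inner ℝ (gradient φ (x - t • (w : E d))) (w : E d) • (w : E d)
        ∂(sigma d) := by
    rw [← integral_smul_const, ← integral_sub (hi.smul_const c) hi2]
    refine integral_congr_ae (Filter.Eventually.of_forall (fun w => ?_))
    show (-inner ℝ (gradient φ (x - t • (w : E d))) (w : E d)) • ((w : E d) - c) = _
    rw [neg_smul, smul_sub]
    abel_nf
  rw [h1, h2, sm_deriv hd hφ t x, neg_smul]
  abel

theorem JJ_le (hd : 0 < d) (hφ : ContDiff ℝ ∞ φ) (j : ℕ) (c x : E d) (t : ℝ) :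
    ‖JJ j φ c x t‖ₑ ≤ ∫⁻ w : Sph d, ‖(w : E d) - c‖ₑ *
      ‖iteratedFDeriv ℝ j φ (x - t • (w : E d))‖ₑ ∂(sigma d) := by
  have := sigma_prob hd
  have h1 : JJ j φ c x t =
      ∫ w : Sph d, iteratedDeriv j (fun s => φ (x - s • (w : E d)) • ((w : E d) - c)) t
        ∂(sigma d) :=
    JJA_iter_eq j (JJA_hH hφ c x) t
  rw [h1]
  refine (enorm_integral_le_lintegral_enorm _).trans (lintegral_mono (fun w => ?_))
  have h0 : ContDiff ℝ ∞ (fun s : ℝ => φ (x - s • (w : E d))) := hφ.comp (by fun_prop)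
  have h00 : iteratedDeriv j (fun s => φ (x - s • (w : E d)) • ((w : E d) - c)) t =
      iteratedDeriv j (fun s => φ (x - s • (w : E d))) t • ((w : E d) - c) := by
    rw [JJA_iter_smul j ((w : E d) - c) h0]
  rw [h00, enorm_smul, mul_comm]
  refine mul_le_mul_right ?_ _
  set L : ℝ →L[ℝ] E d := ContinuousLinearMap.toSpanSingleton ℝ (-(w : E d)) with hL
  have hw : ‖(w : E d)‖ = 1 := by
    have := w.2
    rwa [mem_sphere_zero_iff_norm] at this
  have hLn : ‖L‖ ≤ 1 := by
    rw [hL, ContinuousLinearMap.norm_toSpanSingleton, norm_neg, hw]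
  have h2 : (fun s : ℝ => φ (x - s • (w : E d))) = (fun y => φ (x + y)) ∘ L := by
    funext s
    simp [hL, ContinuousLinearMap.toSpanSingleton_apply, sub_eq_add_neg]
  have h3 : ContDiff ℝ ∞ (fun y => φ (x + y)) := hφ.comp (by fun_prop)
  have h4 : ‖iteratedDeriv j (fun s : ℝ => φ (x - s • (w : E d))) t‖ ≤
      ‖iteratedFDeriv ℝ j φ (x - t • (w : E d))‖ := by
    rw [← norm_iteratedFDeriv_eq_norm_iteratedDeriv, h2,
      L.iteratedFDeriv_comp_right h3 t (i := j) (by exact_mod_cast le_top)]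
    refine (ContinuousMultilinearMap.norm_compContinuousLinearMap_le _ _).trans ?_
    have h5 : ∏ i : Fin j, ‖(fun _ : Fin j => L) i‖ ≤ 1 :=
      Finset.prod_le_one (fun _ _ => norm_nonneg _) (fun _ _ => hLn)
    have h6 : iteratedFDeriv ℝ j (fun y => φ (x + y)) (L t) =
        iteratedFDeriv ℝ j φ (x - t • (w : E d)) := by
      rw [iteratedFDeriv_comp_add_left]
      congr 1
      simp [hL, ContinuousLinearMap.toSpanSingleton_apply, sub_eq_add_neg]
    rw [h6]
    calc _ ≤ ‖iteratedFDeriv ℝ j φ (x - t • (w : E d))‖ * 1 :=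
        mul_le_mul_of_nonneg_left h5 (norm_nonneg _)
      _ = _ := mul_one _
  rw [← ofReal_norm, ← ofReal_norm]
  exact ENNReal.ofReal_le_ofReal h4

theorem JJ_sum (hd : 0 < d) {s : Finset ℕ} {φ : ℕ → E d → ℝ} (hφ : ∀ l ∈ s, ContDiff ℝ ∞ (φ l))
    (j : ℕ) (c x : E d) (t : ℝ) :
    JJ j (fun y => ∑ l ∈ s, φ l y) c x t = ∑ l ∈ s, JJ j (φ l) c x t := by
  classical
  induction s using Finset.induction_on with
  | empty =>
    simp only [Finset.sum_empty]
    unfold JJ
    have h1 : (fun s : ℝ => ∫ w : Sph d, (0 : ℝ) • ((w : E d) - c) ∂(sigma d)) =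
        fun _ => (0 : E d) := by
      funext s
      simp
    rw [h1]
    simp
  | insert a s ha ih =>
    have h1 : ContDiff ℝ ∞ (φ a) := hφ a (Finset.mem_insert_self a s)
    have h2 : ∀ l ∈ s, ContDiff ℝ ∞ (φ l) := fun l hl => hφ l (Finset.mem_insert_of_mem hl)
    have h3 : ContDiff ℝ ∞ (fun y => ∑ l ∈ s, φ l y) := ContDiff.sum h2
    rw [Finset.sum_insert ha, ← ih h2, ← JJ_add hd h1 h3 j c x t]
    congr 1
    funext y
    exact Finset.sum_insert ha

theorem JJ_congr {φ' : E d → ℝ} (j : ℕ) (c : E d) {x : E d} {t a : ℝ} (ha : |t| < a)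
    (h : ∀ y ∈ closedBall x a, φ y = φ' y) : JJ j φ c x t = JJ j φ' c x t := by
  unfold JJ
  have h1 : (fun s : ℝ => ∫ w : Sph d, φ (x - s • (w : E d)) • ((w : E d) - c) ∂(sigma d))
      =ᶠ[nhds t] fun s => ∫ w : Sph d, φ' (x - s • (w : E d)) • ((w : E d) - c) ∂(sigma d) := by
    have h2 : ∀ᶠ s in nhds t, |s| < a := continuous_abs.continuousAt.eventually_lt_const ha
    filter_upwards [h2] with s hs
    refine integral_congr_ae (Filter.Eventually.of_forall (fun w => ?_))
    have hw : ‖(w : E d)‖ = 1 := by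
      have := w.2
      rwa [mem_sphere_zero_iff_norm] at this
    have h3 : x - s • (w : E d) ∈ closedBall x a := by
      rw [mem_closedBall, dist_eq_norm, sub_sub_cancel_left, norm_neg, norm_smul, hw, mul_one,
        Real.norm_eq_abs]
      exact hs.le
    show φ (x - s • (w : E d)) • ((w : E d) - c) = φ' (x - s • (w : E d)) • ((w : E d) - c)
    rw [h _ h3]
  exact h1.iteratedDeriv_eq j

end Pool.Agent.Lib.MP_ff3fe0_an_SPH
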