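import Pool.Agent.Lib.MP_ff3fe0_an_SPH.MuB
import Pool.Agent.Lib.MP_ff3fe0_an_SPH.JJA
import Pool.Agent.Lib.MP_ff3fe0_an_SPH.PlaA
import Pool.Agent.Lib.MP_ff3fe0_an_SPH.FouA

set_option autoImplicit false

/-!
# The L2 bounds at a fixed time
-/

namespace Pool.Agent.Lib.MP_ff3fe0_an_SPH

open MeasureTheory Metric Set
open scoped ENNReal NNReal ContDiff FourierTransform
open Pool.Agent.Lib.MP_ff3fe0_an

variable {d : ℕ}

theorem FouB_JJ_zero (j : ℕ) (c x : E d) (t : ℝ) : JJ j (fun _ : E d => (0 : ℝ)) c x t = 0 := by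
  unfold JJ
  simp

theorem FouB_supp {φ : E d → ℝ} (hc : HasCompactSupport φ) (j : ℕ) (c : E d) (S : ℝ) :
    ∃ R : ℝ, ∀ x : E d, ∀ s : ℝ, |s| < S → R < ‖x‖ → JJ j φ c x s = 0 := by
  obtain ⟨R0, hR0⟩ := hc.isCompact.isBounded.subset_closedBall (0 : E d)
  refine ⟨R0 + S, fun x s hs hx => ?_⟩
  rw [JJ_congr (φ' := fun _ => 0) j c hs, FouB_JJ_zero]
  intro y hy
  by_contra hne
  have h1 : y ∈ tsupport φ := subset_tsupport _ hne
  have h2 := hR0 h1
  rw [mem_closedBall, dist_zero_right] at h2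
  rw [mem_closedBall, dist_eq_norm] at hy
  have h3 := norm_le_norm_add_norm_sub' x y
  have h4 : ‖x - y‖ = ‖y - x‖ := norm_sub_rev _ _
  linarith

/-- the components -/
noncomputable def FouBh (φ : E d → ℝ) (l : Fin d) (j : ℕ) (s : ℝ) (x : E d) : ℂ :=
  (((JJ j φ 0 x s) l : ℝ) : ℂ)

theorem FouB_h_cont (hd : 0 < d) {φ : E d → ℝ} (hφ : ContDiff ℝ ∞ φ) (l : Fin d) (j : ℕ) :
    Continuous (fun z : ℝ × E d => FouBh φ l j z.1 z.2) := by
  have h1 := JJ_cont hd hφ j
  have h2 : Continuous (fun z : ℝ × E d => ((0 : E d), z.2, z.1)) := by fun_prop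
  have h3 := h1.comp h2
  have h4 : Continuous (fun v : E d => v l) := (EuclideanSpace.proj l : E d →L[ℝ] ℝ).continuous
  exact Complex.continuous_ofReal.comp (h4.comp h3)

theorem FouB_h_cont' (hd : 0 < d) {φ : E d → ℝ} (hφ : ContDiff ℝ ∞ φ) (l : Fin d) (j : ℕ) (s : ℝ) :
    Continuous (FouBh φ l j s) :=
  (FouB_h_cont hd hφ l j).comp (Continuous.prodMk_right s)

theorem FouB_h_compact {φ : E d → ℝ} (hc : HasCompactSupport φ) (l : Fin d) (j : ℕ) (s : ℝ) :
    HasCompactSupport (FouBh φ l j s) := by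
  obtain ⟨R, hR⟩ := FouB_supp hc j 0 (|s| + 1)
  refine HasCompactSupport.of_support_subset_isCompact (isCompact_closedBall (0 : E d) R) ?_
  intro x hx
  rw [mem_closedBall, dist_zero_right]
  by_contra hlt
  rw [not_le] at hlt
  apply hx
  unfold FouBh
  rw [hR x s (by linarith) hlt]
  simp

theorem FouB_h_deriv (hd : 0 < d) {φ : E d → ℝ} (hφ : ContDiff ℝ ∞ φ) (l : Fin d) (j : ℕ) (s : ℝ)
    (x : E d) : HasDerivAt (fun s => FouBh φ l j s x) (FouBh φ l (j + 1) s x) s := by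
  have h1 : HasDerivAt (JJ j φ 0 x) (JJ (j + 1) φ 0 x s) s := by
    rw [← JJ_succ hd hφ]
    exact ((JJ_contDiff hd hφ j 0 x).differentiable (by simp)).differentiableAt.hasDerivAt
  have h2 := (EuclideanSpace.proj l : E d →L[ℝ] ℝ).hasFDerivAt.comp_hasDerivAt s h1
  exact h2.ofReal_comp

theorem FouB_F_deriv (hd : 0 < d) {φ : E d → ℝ} (hφ : ContDiff ℝ ∞ φ) (hc : HasCompactSupport φ)
    (l : Fin d) (j : ℕ) (s₀ : ℝ) (ξ : E d) :
    HasDerivAt (fun s => 𝓕 (FouBh φ l j s) ξ) (𝓕 (FouBh φ l (j + 1) s₀) ξ) s₀ := by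
  obtain ⟨R, hR⟩ := FouB_supp hc (j + 1) 0 (|s₀| + 2)
  have hK : IsCompact (Icc (s₀ - 1) (s₀ + 1) ×ˢ closedBall (0 : E d) R) :=
    isCompact_Icc.prod (isCompact_closedBall _ _)
  obtain ⟨M, hM⟩ := hK.exists_bound_of_continuousOn (FouB_h_cont hd hφ l (j + 1)).continuousOn
  have hexp : Continuous fun v : E d =>
      Complex.exp (((-2 * Real.pi * inner ℝ v ξ : ℝ) : ℂ) * Complex.I) := by fun_prop
  have hnorm : ∀ v : E d, ‖Complex.exp (((-2 * Real.pi * inner ℝ v ξ : ℝ) : ℂ) * Complex.I)‖ = 1 :=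
    fun v => Complex.norm_exp_ofReal_mul_I _
  have hint : ∀ i s, Integrable (fun v : E d =>
      Complex.exp (((-2 * Real.pi * inner ℝ v ξ : ℝ) : ℂ) * Complex.I) • FouBh φ l i s v) := by
    intro i s
    apply Continuous.integrable_of_hasCompactSupport
    · exact hexp.smul (FouB_h_cont' hd hφ l i s)
    · refine (FouB_h_compact hc l i s).mono ?_
      intro v hv hv'
      apply hv
      show _ • FouBh φ l i s v = 0
      rw [hv', smul_zero]
  have hfun : (fun s => 𝓕 (FouBh φ l j s) ξ) = fun s => ∫ v : E d,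
      Complex.exp (((-2 * Real.pi * inner ℝ v ξ : ℝ) : ℂ) * Complex.I) • FouBh φ l j s v := by
    ext s; rw [Real.fourier_eq']
  rw [hfun, Real.fourier_eq']
  refine (hasDerivAt_integral_of_dominated_loc_of_deriv_le (𝕜 := ℝ) (s := ball s₀ 1)
    (F := fun s v => Complex.exp (((-2 * Real.pi * inner ℝ v ξ : ℝ) : ℂ) * Complex.I) •
      FouBh φ l j s v)
    (F' := fun s v => Complex.exp (((-2 * Real.pi * inner ℝ v ξ : ℝ) : ℂ) * Complex.I) •
      FouBh φ l (j + 1) s v)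
    (bound := (closedBall (0 : E d) R).indicator fun _ => M)
    (ball_mem_nhds _ one_pos) ?_ (hint j s₀) (hint (j + 1) s₀).aestronglyMeasurable ?_ ?_ ?_).2
  · exact Filter.Eventually.of_forall fun s => (hint j s).aestronglyMeasurable
  · refine Filter.Eventually.of_forall fun v s hs => ?_
    rw [norm_smul, hnorm, one_mul]
    rw [mem_ball, Real.dist_eq] at hs
    by_cases hv : v ∈ closedBall (0 : E d) R
    · rw [indicator_of_mem hv]
      refine hM (s, v) ⟨?_, hv⟩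
      have := abs_lt.1 hs
      constructor <;> linarith
    · rw [indicator_of_notMem hv]
      rw [mem_closedBall, dist_zero_right, not_le] at hv
      unfold FouBh
      rw [hR v s ?_ hv]
      · simp
      · have h1 := abs_sub_abs_le_abs_sub s s₀
        linarith
  · exact (integrable_indicator_iff measurableSet_closedBall).2
      (integrableOn_const (measure_closedBall_lt_top).ne)
  · refine Filter.Eventually.of_forall fun v s _ => ?_
    simp only [smul_eq_mul]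
    exact (FouB_h_deriv hd hφ l j s v).const_mul _

theorem FouB_comp (hd : 0 < d) {φ : E d → ℝ} (hφ : ContDiff ℝ ∞ φ) (l : Fin d) (s : ℝ) (x : E d) :
    (JJ 0 φ 0 x s) l = ∫ w : Sph d, φ (x - s • (w : E d)) * (w : E d) l ∂(sigma d) := by
  have hp := sigma_prob hd
  unfold JJ
  rw [iteratedDeriv_zero]
  have hcont : Continuous fun w : Sph d => φ (x - s • (w : E d)) • ((w : E d) - 0) := by
    have := hφ.continuous
    fun_prop
  have hint : Integrable (fun w : Sph d => φ (x - s • (w : E d)) • ((w : E d) - 0)) (sigma d) :=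
    hcont.integrable_of_hasCompactSupport (HasCompactSupport.of_compactSpace _)
  have h1 := ContinuousLinearMap.integral_comp_comm (EuclideanSpace.proj l : E d →L[ℝ] ℝ) hint
  have h2 : (∫ w : Sph d, φ (x - s • (w : E d)) • ((w : E d) - 0) ∂(sigma d)) l =
      (EuclideanSpace.proj l : E d →L[ℝ] ℝ)
        (∫ w : Sph d, φ (x - s • (w : E d)) • ((w : E d) - 0) ∂(sigma d)) := rfl
  rw [h2, ← h1]
  congr 1
  ext w
  simp

theorem FouB_F0 (hd : 0 < d) {φ : E d → ℝ} (hφ : ContDiff ℝ ∞ φ) (hc : HasCompactSupport φ)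
    (l : Fin d) (s : ℝ) (ξ : E d) :
    𝓕 (FouBh φ l 0 s) ξ = 𝓕 (fun y => (φ y : ℂ)) ξ * ∫ w : Sph d, (((w : E d) l : ℝ) : ℂ) *
      Complex.exp (((-2 * Real.pi * (s * inner ℝ (w : E d) ξ) : ℝ) : ℂ) * Complex.I)
        ∂(sigma d) := by
  have hp := sigma_prob hd
  have hφc := hφ.continuous
  set f : E d → Sph d → ℂ := fun v w =>
    Complex.exp (((-2 * Real.pi * inner ℝ v ξ : ℝ) : ℂ) * Complex.I) *
      ((φ (v - s • (w : E d)) * (w : E d) l : ℝ) : ℂ) with hf
  have hfc : Continuous (Function.uncurry f) := by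
    have hl : Continuous fun w : Sph d => (w : E d) l :=
      (EuclideanSpace.proj l : E d →L[ℝ] ℝ).continuous.comp continuous_subtype_val
    have e1 : Continuous fun z : E d × Sph d => (z.2 : E d) l := hl.comp continuous_snd
    have e2 : Continuous fun z : E d × Sph d => φ (z.1 - s • (z.2 : E d)) := by fun_prop
    have e3 : Continuous fun z : E d × Sph d =>
        Complex.exp (((-2 * Real.pi * inner ℝ z.1 ξ : ℝ) : ℂ) * Complex.I) := by fun_prop
    exact e3.mul (Complex.continuous_ofReal.comp (e2.mul e1))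
  obtain ⟨R0, hR0⟩ := hc.isCompact.isBounded.subset_closedBall (0 : E d)
  have hfs : HasCompactSupport (Function.uncurry f) := by
    refine HasCompactSupport.of_support_subset_isCompact
      ((isCompact_closedBall (0 : E d) (R0 + |s|)).prod isCompact_univ) ?_
    rintro ⟨v, w⟩ hz
    refine ⟨?_, mem_univ _⟩
    have hne : φ (v - s • (w : E d)) ≠ 0 := by
      intro h0
      apply hz
      simp [hf, Function.uncurry, h0]
    have h1 := hR0 (subset_tsupport _ hne)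
    rw [mem_closedBall, dist_zero_right] at h1 ⊢
    have h2 := norm_le_norm_add_norm_sub' v (s • (w : E d))
    have h3 : ‖s • (w : E d)‖ = |s| := by
      rw [norm_smul, norm_eq_of_mem_sphere, mul_one, Real.norm_eq_abs]
    linarith
  have hfi : Integrable (Function.uncurry f) (volume.prod (sigma d)) :=
    hfc.integrable_of_hasCompactSupport hfs
  have h1 : 𝓕 (FouBh φ l 0 s) ξ = ∫ v : E d, ∫ w : Sph d, f v w ∂(sigma d) := by
    rw [Real.fourier_eq']
    congr 1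
    ext v
    unfold FouBh
    rw [FouB_comp hd hφ, smul_eq_mul, ← integral_complex_ofReal, ← integral_const_mul]
  rw [h1, integral_integral_swap hfi, ← integral_const_mul]
  congr 1
  ext w
  set g : E d → ℂ := fun y => Complex.exp (((-2 * Real.pi *
      (s * inner ℝ (w : E d) ξ) : ℝ) : ℂ) * Complex.I) * (((w : E d) l : ℝ) : ℂ) *
      (Complex.exp (((-2 * Real.pi * inner ℝ y ξ : ℝ) : ℂ) * Complex.I) * (φ y : ℂ)) with hg
  have h2 : ∀ v : E d, f v w = g (v - s • (w : E d)) := by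
    intro v
    simp only [hf, hg]
    have e : Complex.exp (((-2 * Real.pi * inner ℝ v ξ : ℝ) : ℂ) * Complex.I) =
        Complex.exp (((-2 * Real.pi * (s * inner ℝ (w : E d) ξ) : ℝ) : ℂ) * Complex.I) *
        Complex.exp (((-2 * Real.pi * inner ℝ (v - s • (w : E d)) ξ : ℝ) : ℂ) * Complex.I) := by
      rw [← Complex.exp_add]
      congr 1
      rw [inner_sub_left, inner_smul_left]
      push_cast
      simp
      ring
    rw [e]
    push_cast
    ring
  have h3 : ∫ v : E d, g (v - s • (w : E d)) = ∫ v : E d, g v :=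
    integral_sub_right_eq_self g (s • (w : E d))
  have h4 : ∫ v : E d, f v w = ∫ v : E d, g (v - s • (w : E d)) := by
    congr 1
    ext v
    exact h2 v
  rw [h4, h3, hg, integral_const_mul, Real.fourier_eq']
  simp only [smul_eq_mul]
  ring

theorem FouB_int (hd : 0 < d) {F : Type*} [NormedAddCommGroup F] {f : Sph d → F}
    (hf : Continuous f) : Integrable f (sigma d) := by
  have hp := sigma_prob hd
  exact hf.integrable_of_hasCompactSupport (HasCompactSupport.of_compactSpace _)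

theorem FouB_lcont (l : Fin d) : Continuous fun w : Sph d => (w : E d) l :=
  (EuclideanSpace.proj l : E d →L[ℝ] ℝ).continuous.comp continuous_subtype_val

theorem FouB_odd (hd : 0 < d) (l : Fin d) (s : ℝ) (η : E d) :
    ∫ w : Sph d, (w : E d) l * Real.cos (s * inner ℝ η (w : E d)) ∂(sigma d) = 0 := by
  have h := integral_sigma_isometry hd (LinearIsometryEquiv.neg ℝ (E := E d))
    (fun w => w l * Real.cos (s * inner ℝ η w))
  have h2 : ∀ w : E d, (LinearIsometryEquiv.neg ℝ (E := E d)) w l *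
      Real.cos (s * inner ℝ η ((LinearIsometryEquiv.neg ℝ (E := E d)) w)) =
      -(w l * Real.cos (s * inner ℝ η w)) := by
    intro w
    simp
  simp only [h2] at h
  rw [integral_neg] at h
  linarith

theorem FouB_refl (hd : 0 < d) (s : ℝ) (η u : E d) (hu : inner ℝ u η = 0) :
    ∫ w : Sph d, inner ℝ u (w : E d) * Real.sin (s * inner ℝ η (w : E d)) ∂(sigma d) = 0 := by
  set A := (Submodule.span ℝ {u})ᗮ.reflection with hA
  have h := integral_sigma_isometry hd A (fun w => inner ℝ u w * Real.sin (s * inner ℝ η w))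
  have hAu : A u = -u := Submodule.reflection_orthogonalComplement_singleton_eq_neg u
  have hAη : A η = η := by
    apply Submodule.reflection_mem_subspace_eq_self
    rw [Submodule.mem_orthogonal_singleton_iff_inner_right]
    exact hu
  have hAA : ∀ w, A (A w) = w := fun w => Submodule.reflection_reflection _ w
  have h2 : ∀ w : E d, inner ℝ u (A w) * Real.sin (s * inner ℝ η (A w)) =
      -(inner ℝ u w * Real.sin (s * inner ℝ η w)) := by
    intro w
    have e1 : (inner ℝ u (A w) : ℝ) = - inner ℝ u w := by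
      rw [← A.inner_map_map, hAA, hAu, inner_neg_left]
    have e2 : (inner ℝ η (A w) : ℝ) = inner ℝ η w := by
      rw [← A.inner_map_map, hAA, hAη]
    rw [e1, e2]; ring
  simp only [h2] at h
  rw [integral_neg] at h
  linarith

theorem FouB_mus_deriv (hd : 0 < d) (η : E d) (s : ℝ) :
    deriv (fun s : ℝ => mus (s • η)) s =
      - ∫ w : Sph d, inner ℝ η (w : E d) * Real.sin (s * inner ℝ η (w : E d)) ∂(sigma d) := by
  have hp := sigma_prob hd
  have h0 : (fun s : ℝ => mus (s • η)) = fun s : ℝ => ∫ w : Sph d,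
      Real.cos (s * inner ℝ η (w : E d)) ∂(sigma d) := by
    ext s
    unfold mus
    congr 1
    ext w
    rw [inner_smul_left]
    simp
  rw [h0, ← integral_neg]
  refine HasDerivAt.deriv ?_
  refine (hasDerivAt_integral_of_dominated_loc_of_deriv_le (𝕜 := ℝ) (s := univ)
    (F := fun s (w : Sph d) => Real.cos (s * inner ℝ η (w : E d)))
    (F' := fun s (w : Sph d) => -(inner ℝ η (w : E d) * Real.sin (s * inner ℝ η (w : E d))))
    (bound := fun _ => ‖η‖)
    Filter.univ_mem ?_ ?_ ?_ ?_ ?_ ?_).2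
  · exact Filter.Eventually.of_forall fun s =>
      (FouB_int hd (by fun_prop)).aestronglyMeasurable
  · exact FouB_int hd (by fun_prop)
  · exact (FouB_int hd (by fun_prop)).aestronglyMeasurable
  · refine Filter.Eventually.of_forall fun w s _ => ?_
    rw [norm_neg, norm_mul]
    have h1 : ‖(inner ℝ η (w : E d) : ℝ)‖ ≤ ‖η‖ := by
      have := norm_inner_le_norm (𝕜 := ℝ) η (w : E d)
      rwa [norm_eq_of_mem_sphere, mul_one] at this
    have h2 : ‖Real.sin (s * inner ℝ η (w : E d))‖ ≤ 1 := Real.abs_sin_le_one _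
    calc _ ≤ ‖η‖ * 1 := mul_le_mul h1 h2 (norm_nonneg _) (norm_nonneg _)
      _ = ‖η‖ := mul_one _
  · exact integrable_const _
  · refine Filter.Eventually.of_forall fun w s _ => ?_
    have h1 : HasDerivAt (fun s : ℝ => s * inner ℝ η (w : E d)) (inner ℝ η (w : E d)) s := by
      simpa using (hasDerivAt_id s).mul_const (inner ℝ η (w : E d) : ℝ)
    refine h1.cos.congr_deriv ?_
    ring

theorem FouB_A (hd : 0 < d) (l : Fin d) (s : ℝ) (ξ : E d) :
    ∫ w : Sph d, (((w : E d) l : ℝ) : ℂ) *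
      Complex.exp (((-2 * Real.pi * (s * inner ℝ (w : E d) ξ) : ℝ) : ℂ) * Complex.I) ∂(sigma d) =
    Complex.I * (((((2 * Real.pi) • ξ) l) / ‖(2 * Real.pi) • ξ‖ ^ 2 *
      deriv (fun s : ℝ => mus (s • ((2 * Real.pi) • ξ))) s : ℝ) : ℂ) := by
  have hp := sigma_prob hd
  set η : E d := (2 * Real.pi) • ξ with hη
  have h1 : ∀ w : Sph d, (((w : E d) l : ℝ) : ℂ) *
      Complex.exp (((-2 * Real.pi * (s * inner ℝ (w : E d) ξ) : ℝ) : ℂ) * Complex.I) =
      (((w : E d) l * Real.cos (s * inner ℝ η (w : E d)) : ℝ) : ℂ) -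
      (((w : E d) l * Real.sin (s * inner ℝ η (w : E d)) : ℝ) : ℂ) * Complex.I := by
    intro w
    have e : -2 * Real.pi * (s * inner ℝ (w : E d) ξ) = -(s * inner ℝ η (w : E d)) := by
      rw [hη, inner_smul_left, real_inner_comm]
      simp
      ring
    rw [e, Complex.exp_mul_I, ← Complex.ofReal_cos, ← Complex.ofReal_sin, Real.cos_neg,
      Real.sin_neg]
    push_cast
    ring
  have hl := FouB_lcont l
  have i1 : Integrable (fun w : Sph d =>
      (((w : E d) l * Real.cos (s * inner ℝ η (w : E d)) : ℝ) : ℂ))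
      (sigma d) := FouB_int hd (Complex.continuous_ofReal.comp (hl.mul (by fun_prop)))
  have i2 : Integrable (fun w : Sph d =>
      (((w : E d) l * Real.sin (s * inner ℝ η (w : E d)) : ℝ) : ℂ) * Complex.I)
      (sigma d) := FouB_int hd
        ((Complex.continuous_ofReal.comp (hl.mul (by fun_prop))).mul continuous_const)
  simp_rw [h1]
  rw [integral_sub i1 i2, integral_complex_ofReal, FouB_odd hd, integral_mul_const,
    integral_complex_ofReal, FouB_mus_deriv hd]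
  -- the parallel part
  have h2 : ∫ w : Sph d, (w : E d) l * Real.sin (s * inner ℝ η (w : E d)) ∂(sigma d) =
      η l / ‖η‖ ^ 2 * ∫ w : Sph d, inner ℝ η (w : E d) * Real.sin (s * inner ℝ η (w : E d))
        ∂(sigma d) := by
    by_cases h0 : η = 0
    · rw [h0]; simp
    have hn : ‖η‖ ^ 2 ≠ 0 := by
      have := norm_pos_iff.2 h0
      positivity
    have h3 := FouB_refl hd s η (EuclideanSpace.single l 1 - (η l / ‖η‖ ^ 2) • η) (by
      rw [inner_sub_left, inner_smul_left, real_inner_self_eq_norm_sq,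
        EuclideanSpace.inner_single_left]
      simp
      field_simp
      simp)
    have h4 : ∀ w : Sph d,
        (inner ℝ (EuclideanSpace.single l 1 - (η l / ‖η‖ ^ 2) • η) (w : E d) : ℝ) *
        Real.sin (s * inner ℝ η (w : E d)) = (w : E d) l * Real.sin (s * inner ℝ η (w : E d)) -
        η l / ‖η‖ ^ 2 * (inner ℝ η (w : E d) * Real.sin (s * inner ℝ η (w : E d))) := by
      intro w
      rw [inner_sub_left, inner_smul_left, EuclideanSpace.inner_single_left]
      simp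
      ring
    simp_rw [h4] at h3
    have j1 : Integrable (fun w : Sph d => (w : E d) l * Real.sin (s * inner ℝ η (w : E d)))
      (sigma d) := FouB_int hd (hl.mul (by fun_prop))
    have j2 : Integrable (fun w : Sph d => η l / ‖η‖ ^ 2 * (inner ℝ η (w : E d) *
      Real.sin (s * inner ℝ η (w : E d)))) (sigma d) := FouB_int hd (by fun_prop)
    rw [integral_sub j1 j2, integral_const_mul] at h3
    linarith
  rw [h2]
  push_cast
  ring

theorem FouB_F (hd : 0 < d) {φ : E d → ℝ} (hφ : ContDiff ℝ ∞ φ) (hc : HasCompactSupport φ)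
    (l : Fin d) (ξ : E d) (j : ℕ) : ∀ s : ℝ,
    𝓕 (FouBh φ l j s) ξ = 𝓕 (fun y => (φ y : ℂ)) ξ * (Complex.I *
      (((((2 * Real.pi) • ξ) l) / ‖(2 * Real.pi) • ξ‖ ^ 2 *
      iteratedDeriv (j + 1) (fun s : ℝ => mus (s • ((2 * Real.pi) • ξ))) s : ℝ) : ℂ)) := by
  induction j with
  | zero =>
    intro s
    rw [FouB_F0 hd hφ hc, FouB_A hd]
    simp only [zero_add, iteratedDeriv_one]
  | succ j ih =>
    intro s
    have h1 := FouB_F_deriv hd hφ hc l j s ξ
    have h2 : (fun s => 𝓕 (FouBh φ l j s) ξ) = fun s => 𝓕 (fun y => (φ y : ℂ)) ξ * (Complex.I *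
      (((((2 * Real.pi) • ξ) l) / ‖(2 * Real.pi) • ξ‖ ^ 2 *
      iteratedDeriv (j + 1) (fun s : ℝ => mus (s • ((2 * Real.pi) • ξ))) s : ℝ) : ℂ)) := funext ih
    rw [h2] at h1
    have h3 : HasDerivAt (iteratedDeriv (j + 1) (fun s : ℝ => mus (s • ((2 * Real.pi) • ξ))))
        (iteratedDeriv (j + 1 + 1) (fun s : ℝ => mus (s • ((2 * Real.pi) • ξ))) s) s := by
      rw [iteratedDeriv_succ (n := j + 1)]
      have h4 : Differentiable ℝ (iteratedDeriv (j + 1)
          (fun s : ℝ => mus (s • ((2 * Real.pi) • ξ)))) :=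
        (mus_contDiff hd ((2 * Real.pi) • ξ)).differentiable_iteratedDeriv (j + 1) (by
          exact_mod_cast ENat.natCast_lt_top (j + 1))
      exact h4.differentiableAt.hasDerivAt
    have h5 := (((h3.const_mul (((2 * Real.pi) • ξ) l / ‖(2 * Real.pi) • ξ‖ ^ 2)).ofReal_comp
      ).const_mul Complex.I).const_mul (𝓕 (fun y => (φ y : ℂ)) ξ)
    exact h1.unique h5

theorem FouB_plan (hd : 0 < d) {φ : E d → ℝ} (hφ : ContDiff ℝ ∞ φ) (hc : HasCompactSupport φ)
    (l : Fin d) (j : ℕ) (t : ℝ) :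
    ∫⁻ x, ‖(JJ j φ 0 x t) l‖ₑ ^ 2 = ∫⁻ ξ : E d,
      ‖(((2 * Real.pi) • ξ) l) / ‖(2 * Real.pi) • ξ‖ ^ 2 *
      iteratedDeriv (j + 1) (fun s : ℝ => mus (s • ((2 * Real.pi) • ξ))) t‖ₑ ^ 2 *
      ‖𝓕 (fun y => (φ y : ℂ)) ξ‖ₑ ^ 2 := by
  have h1 := plancherel (FouBh φ l j t)
    ((FouB_h_cont' hd hφ l j t).integrable_of_hasCompactSupport (FouB_h_compact hc l j t))
    ((FouB_h_cont' hd hφ l j t).memLp_of_hasCompactSupport (FouB_h_compact hc l j t))
  have h2 : ∫⁻ x, ‖(JJ j φ 0 x t) l‖ₑ ^ 2 = ∫⁻ y, ‖FouBh φ l j t y‖ₑ ^ 2 := by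
    congr 1
    ext x
    unfold FouBh
    congr 1
    rw [← ofReal_norm, ← ofReal_norm, Complex.norm_real]
  rw [h2, ← h1]
  congr 1
  ext ξ
  rw [FouB_F hd hφ hc, enorm_mul, enorm_mul, mul_pow, mul_comm]
  congr 2
  have h3 : ‖Complex.I‖ₑ = 1 := by
    rw [← ofReal_norm, Complex.norm_I, ENNReal.ofReal_one]
  rw [h3, one_mul, ← ofReal_norm, ← ofReal_norm, Complex.norm_real]

/-- the elementary inequality -/
theorem FouB_elem {C r : ℝ} (hr : 0 ≤ r) (i n : ℕ) (hi : i ≤ 2) (hC : 0 ≤ C) :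
    C * (2 * Real.pi * r) ^ (2 * i) / (1 + 2 * Real.pi * r) ^ n ≤
      C * (2 * Real.pi) ^ 4 * (r ^ (2 * i) / (1 + r) ^ n) := by
  have hp : 1 ≤ 2 * Real.pi := by have := Real.pi_gt_three; linarith
  have h1 : (2 * Real.pi * r) ^ (2 * i) ≤ (2 * Real.pi) ^ 4 * r ^ (2 * i) := by
    rw [mul_pow]
    exact mul_le_mul_of_nonneg_right (pow_le_pow_right₀ hp (by omega)) (by positivity)
  have h2 : (1 + r) ^ n ≤ (1 + 2 * Real.pi * r) ^ n := by
    apply pow_le_pow_left₀ (by linarith)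
    nlinarith
  calc C * (2 * Real.pi * r) ^ (2 * i) / (1 + 2 * Real.pi * r) ^ n
      ≤ C * ((2 * Real.pi) ^ 4 * r ^ (2 * i)) / (1 + r) ^ n := by
        apply div_le_div₀ (by positivity) (mul_le_mul_of_nonneg_left h1 hC) (by positivity) h2
    _ = _ := by ring

theorem FouB_norm (ξ : E d) : ‖(2 * Real.pi) • ξ‖ = 2 * Real.pi * ‖ξ‖ := by
  rw [norm_smul, Real.norm_eq_abs, abs_of_pos (by positivity)]

theorem vec_fourier (hd : 2 ≤ d) : ∃ C : ℝ≥0, ∀ φ : E d → ℝ, ContDiff ℝ ∞ φ →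
    HasCompactSupport φ → ∀ i ≤ 2, ∀ t ∈ Icc (1 / 4 : ℝ) 3,
      (∫⁻ x, ‖iteratedDeriv i (fun s => sm φ s x) t‖ₑ ^ 2) + ∫⁻ x, ‖JJ i φ 0 x t‖ₑ ^ 2 ≤
        C * ∫⁻ ξ : E d, ENNReal.ofReal (‖ξ‖ ^ (2 * i) / (1 + ‖ξ‖) ^ (d - 1)) *
          ‖𝓕 (fun y => (φ y : ℂ)) ξ‖ₑ ^ 2 := by
  have hd0 : 0 < d := by omega
  obtain ⟨C0, hC0⟩ := mus_decay hd
  set C : ℝ := max C0 0 with hCdef
  have hCn : 0 ≤ C := le_max_right _ _
  have hC : ∀ (ξ : E d), ∀ t ∈ Icc (1 / 4 : ℝ) 3, ∀ k ≤ 3,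
      (iteratedDeriv k (fun s : ℝ => mus (s • ξ)) t) ^ 2 ≤
      C * ‖ξ‖ ^ (2 * k) / (1 + ‖ξ‖) ^ (d - 1) := by
    intro ξ t ht k hk
    refine (hC0 ξ t ht k hk).trans ?_
    have h1 : C0 * ‖ξ‖ ^ (2 * k) ≤ C * ‖ξ‖ ^ (2 * k) :=
      mul_le_mul_of_nonneg_right (le_max_left _ _) (by positivity)
    exact div_le_div_of_nonneg_right h1 (by positivity)
  set D : ℝ := C * (2 * Real.pi) ^ 4 with hD
  have hDn : 0 ≤ D := by positivity
  -- pointwise bounds
  have p1 : ∀ i ≤ 2, ∀ t ∈ Icc (1 / 4 : ℝ) 3, ∀ ξ : E d,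
      ‖iteratedDeriv i (fun s : ℝ => mus (s • ((2 * Real.pi) • ξ))) t‖ₑ ^ 2 ≤
      ENNReal.ofReal D * ENNReal.ofReal (‖ξ‖ ^ (2 * i) / (1 + ‖ξ‖) ^ (d - 1)) := by
    intro i hi t ht ξ
    rw [← ENNReal.ofReal_mul hDn, ← ofReal_norm, ← ENNReal.ofReal_pow (norm_nonneg _)]
    apply ENNReal.ofReal_le_ofReal
    rw [Real.norm_eq_abs, sq_abs]
    refine (hC _ t ht i (by omega)).trans ?_
    rw [FouB_norm]
    exact FouB_elem (norm_nonneg ξ) i (d - 1) hi hCn
  have p2 : ∀ i ≤ 2, ∀ t ∈ Icc (1 / 4 : ℝ) 3, ∀ l : Fin d, ∀ ξ : E d,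
      ‖(((2 * Real.pi) • ξ) l) / ‖(2 * Real.pi) • ξ‖ ^ 2 *
      iteratedDeriv (i + 1) (fun s : ℝ => mus (s • ((2 * Real.pi) • ξ))) t‖ₑ ^ 2 ≤
      ENNReal.ofReal D * ENNReal.ofReal (‖ξ‖ ^ (2 * i) / (1 + ‖ξ‖) ^ (d - 1)) := by
    intro i hi t ht l ξ
    rw [← ENNReal.ofReal_mul hDn, ← ofReal_norm, ← ENNReal.ofReal_pow (norm_nonneg _)]
    apply ENNReal.ofReal_le_ofReal
    rw [Real.norm_eq_abs, sq_abs]
    set η : E d := (2 * Real.pi) • ξ with hη
    refine le_trans ?_ (FouB_elem (norm_nonneg ξ) i (d - 1) hi hCn)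
    rw [← FouB_norm, ← hη]
    by_cases h0 : η = 0
    · rw [h0]
      simp only [PiLp.zero_apply, zero_div, zero_mul, ne_eq, OfNat.ofNat_ne_zero,
        not_false_eq_true, zero_pow]
      positivity
    have hn : 0 < ‖η‖ := norm_pos_iff.2 h0
    have h1 := hC η t ht (i + 1) (by omega)
    have h2 : (η l) ^ 2 ≤ ‖η‖ ^ 2 := by
      rw [EuclideanSpace.norm_sq_eq]
      have := Finset.single_le_sum (f := fun k => ‖η k‖ ^ 2) (fun k _ => by positivity)
        (Finset.mem_univ l)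
      simpa using this
    rw [mul_pow, div_pow]
    calc (η l) ^ 2 / (‖η‖ ^ 2) ^ 2 *
        (iteratedDeriv (i + 1) (fun s : ℝ => mus (s • η)) t) ^ 2
        ≤ ‖η‖ ^ 2 / (‖η‖ ^ 2) ^ 2 * (C * ‖η‖ ^ (2 * (i + 1)) / (1 + ‖η‖) ^ (d - 1)) := by
          apply mul_le_mul _ h1 (sq_nonneg _) (by positivity)
          exact div_le_div_of_nonneg_right h2 (by positivity)
      _ = C * ‖η‖ ^ (2 * i) / (1 + ‖η‖) ^ (d - 1) := by
          have h3 : ‖η‖ ≠ 0 := hn.ne'
          have h4 : ‖η‖ ^ (2 * (i + 1)) = ‖η‖ ^ (2 * i) * ‖η‖ ^ 2 := by ring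
          rw [h4]
          field_simp
  refine ⟨Real.toNNReal D + d * Real.toNNReal D, fun φ hφ hc i hi t ht => ?_⟩
  set J := ∫⁻ ξ : E d, ENNReal.ofReal (‖ξ‖ ^ (2 * i) / (1 + ‖ξ‖) ^ (d - 1)) *
          ‖𝓕 (fun y => (φ y : ℂ)) ξ‖ₑ ^ 2 with hJ
  have q1 : (∫⁻ x, ‖iteratedDeriv i (fun s => sm φ s x) t‖ₑ ^ 2) ≤ ENNReal.ofReal D * J := by
    rw [sm_fourier hd0 hφ hc, hJ, ← lintegral_const_mul' _ _ ENNReal.ofReal_ne_top]
    refine lintegral_mono fun ξ => ?_
    rw [← mul_assoc]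
    exact mul_le_mul_left (p1 i hi t ht ξ) _
  have q2 : ∀ l : Fin d, (∫⁻ x, ‖(JJ i φ 0 x t) l‖ₑ ^ 2) ≤ ENNReal.ofReal D * J := by
    intro l
    rw [FouB_plan hd0 hφ hc, hJ, ← lintegral_const_mul' _ _ ENNReal.ofReal_ne_top]
    refine lintegral_mono fun ξ => ?_
    rw [← mul_assoc]
    exact mul_le_mul_left (p2 i hi t ht l ξ) _
  have q3 : ∫⁻ x, ‖JJ i φ 0 x t‖ₑ ^ 2 ≤ d * (ENNReal.ofReal D * J) := by
    have e1 : ∀ x, ‖JJ i φ 0 x t‖ₑ ^ 2 = ∑ l : Fin d, ‖(JJ i φ 0 x t) l‖ₑ ^ 2 := by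
      intro x
      rw [← ofReal_norm, ← ENNReal.ofReal_pow (norm_nonneg _), EuclideanSpace.norm_sq_eq,
        ENNReal.ofReal_sum_of_nonneg (fun k _ => by positivity)]
      refine Finset.sum_congr rfl fun l _ => ?_
      rw [← ofReal_norm, ← ENNReal.ofReal_pow (norm_nonneg _)]
    simp_rw [e1]
    rw [lintegral_finsetSum]
    · calc ∑ l : Fin d, ∫⁻ x, ‖(JJ i φ 0 x t) l‖ₑ ^ 2 ≤ ∑ l : Fin d, ENNReal.ofReal D * J :=
            Finset.sum_le_sum fun l _ => q2 l
        _ = d * (ENNReal.ofReal D * J) := by simp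
    · intro l _
      have h1 := JJ_cont hd0 hφ i
      have h2 : Continuous (fun x : E d => ((0 : E d), x, t)) := by fun_prop
      have h4 : Continuous (fun v : E d => v l) := (EuclideanSpace.proj l : E d →L[ℝ] ℝ).continuous
      have h5 : Continuous fun x : E d => (JJ i φ 0 x t) l := h4.comp (h1.comp h2)
      exact (h5.measurable.enorm).pow_const 2
  calc (∫⁻ x, ‖iteratedDeriv i (fun s => sm φ s x) t‖ₑ ^ 2) + ∫⁻ x, ‖JJ i φ 0 x t‖ₑ ^ 2
      ≤ ENNReal.ofReal D * J + d * (ENNReal.ofReal D * J) := add_le_add q1 q3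
    _ = ((Real.toNNReal D + d * Real.toNNReal D : ℝ≥0) : ℝ≥0∞) * J := by
        push_cast
        rw [ENNReal.ofReal]
        ring

end Pool.Agent.Lib.MP_ff3fe0_an_SPH
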