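import Pool.Agent.Lib.MP_ff3fe0_an_SPH.KerB

set_option autoImplicit false

/-!
# The Fourier transforms of smooth kernels
-/

namespace Pool.Agent.Lib.MP_ff3fe0_an_SPH

open MeasureTheory Metric Set
open scoped ENNReal NNReal ContDiff FourierTransform Convolution
open Pool.Agent.Lib.MP_ff3fe0_an

variable {d : ℕ}

private lemma hcs {r : ℝ} {K : E d → ℝ} (hK : KR r K) :
    HasCompactSupport (fun y => (K y : ℂ)) := by
  refine HasCompactSupport.intro (isCompact_closedBall (0 : E d) r) fun y hy => ?_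
  rw [mem_closedBall, dist_zero_right, not_le] at hy
  simp [hK.supp y hy]

private lemma csm {r : ℝ} {K : E d → ℝ} (hK : KR r K) :
    ContDiff ℝ ∞ (fun y => (K y : ℂ)) :=
  Complex.ofRealCLM.contDiff.comp hK.smooth

/-- The kernel as a Schwartz function. -/
private noncomputable def sch {r : ℝ} {K : E d → ℝ} (hK : KR r K) : SchwartzMap (E d) ℂ :=
  (hcs hK).toSchwartzMap (csm hK)

private lemma sch_coe {r : ℝ} {K : E d → ℝ} (hK : KR r K) :
    ((sch hK : SchwartzMap (E d) ℂ) : E d → ℂ) = fun y => (K y : ℂ) := rfl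

private lemma sch_fou {r : ℝ} {K : E d → ℝ} (hK : KR r K) (ξ : E d) :
    𝓕 (fun y => (K y : ℂ)) ξ = (𝓕 (sch hK)) ξ := by
  rw [SchwartzMap.fourier_coe]
  rfl

theorem fourier_cv {r s : ℝ} {K L : E d → ℝ} (hK : KR r K) (hL : KR s L) (ξ : E d) :
    𝓕 (fun y => (cv K 1 L y : ℂ)) ξ = 𝓕 (fun y => (K y : ℂ)) ξ * 𝓕 (fun y => (L y : ℂ)) ξ := by
  have hKi : Integrable (fun y => (K y : ℂ)) := (sch hK).integrable
  have hLi : Integrable (fun y => (L y : ℂ)) := (sch hL).integrable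
  rw [← Real.fourier_mul_convolution_eq hKi hLi ξ]
  have e : (fun y => (cv K 1 L y : ℂ)) = (fun y => (K y : ℂ)) ⋆[ContinuousLinearMap.mul ℂ ℂ]
      (fun y => (L y : ℂ)) := by
    ext y
    rw [convolution_def]
    simp only [cv, one_smul, ContinuousLinearMap.mul_apply']
    rw [← integral_complex_ofReal]
    congr 1
    ext z
    push_cast
    rfl
  rw [e]

theorem fourier_dil (K : E d → ℝ) (ξ : E d) :
    𝓕 (fun y => (((2 ^ d)⁻¹ * K ((2 : ℝ)⁻¹ • y) : ℝ) : ℂ)) ξ =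
      𝓕 (fun y => (K y : ℂ)) ((2 : ℝ) • ξ) := by
  rw [Real.fourier_eq, Real.fourier_eq]
  have h := Measure.integral_comp_smul (volume : Measure (E d))
    (fun y => Real.fourierChar (-(inner ℝ y ((2 : ℝ) • ξ))) • (K y : ℂ)) ((2 : ℝ)⁻¹)
  have hf : Module.finrank ℝ (E d) = d := by simp
  rw [hf] at h
  have e : (fun y : E d => Real.fourierChar (-(inner ℝ y ξ)) •
      (((2 ^ d)⁻¹ * K ((2 : ℝ)⁻¹ • y) : ℝ) : ℂ)) =
      fun y : E d => ((2 ^ d)⁻¹ : ℝ) • (Real.fourierChar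
        (-(inner ℝ ((2 : ℝ)⁻¹ • y) ((2 : ℝ) • ξ))) • (K ((2 : ℝ)⁻¹ • y) : ℂ)) := by
    ext y
    rw [real_inner_smul_left, real_inner_smul_right, inv_mul_cancel_left₀ (two_ne_zero)]
    rw [smul_comm]
    congr 1
    push_cast
    rw [Complex.real_smul]
    push_cast
    rfl
  rw [e, integral_smul, h, smul_smul]
  have e2 : ((2 : ℝ) ^ d)⁻¹ * |(((2 : ℝ)⁻¹ ^ d)⁻¹)| = 1 := by
    rw [inv_pow, inv_inv, abs_of_pos (by positivity), inv_mul_cancel₀ (by positivity)]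
  rw [e2, one_smul]

/-- The Fourier transform of a smooth compactly supported kernel decays rapidly. -/
theorem fourier_decay {r : ℝ} {K : E d → ℝ} (hK : KR r K) (N : ℕ) :
    ∃ C : ℝ, ∀ ξ : E d, ‖𝓕 (fun y => (K y : ℂ)) ξ‖ ≤ C / (1 + ‖ξ‖) ^ N := by
  refine ⟨2 ^ N * (Finset.Iic ((N, 0) : ℕ × ℕ)).sup
    (fun m => SchwartzMap.seminorm ℝ m.1 m.2) (𝓕 (sch hK)), fun ξ => ?_⟩
  rw [le_div_iff₀ (by positivity), sch_fou hK]
  have h := SchwartzMap.one_add_le_sup_seminorm_apply (𝕜 := ℝ) (m := (N, 0)) (k := N) (n := 0)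
    le_rfl le_rfl (𝓕 (sch hK)) ξ
  rw [norm_iteratedFDeriv_zero] at h
  linarith

/-- If `K` has integral `1`, then `1 - K^` vanishes at the origin. -/
theorem fourier_order {r : ℝ} {K : E d → ℝ} (hK : KR r K) (h1 : ∫ y, K y = 1) :
    ∃ C : ℝ, ∀ ξ : E d, ‖1 - 𝓕 (fun y => (K y : ℂ)) ξ‖ ≤ C * ‖ξ‖ := by
  refine ⟨SchwartzMap.seminorm ℝ 0 1 (𝓕 (sch hK)), fun ξ => ?_⟩
  have h0 : 𝓕 (fun y => (K y : ℂ)) 0 = 1 := by
    rw [Real.fourier_eq]
    simp only [inner_zero_right, neg_zero, AddChar.map_zero_eq_one, one_smul]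
    rw [integral_complex_ofReal, h1]
    simp
  rw [← h0, sch_fou hK, sch_fou hK]
  have hb : ∀ x ∈ (Set.univ : Set (E d)),
      ‖fderiv ℝ ((𝓕 (sch hK) : SchwartzMap (E d) ℂ) : E d → ℂ) x‖ ≤
      SchwartzMap.seminorm ℝ 0 1 (𝓕 (sch hK)) := by
    intro x _
    have := SchwartzMap.le_seminorm ℝ 0 1 (𝓕 (sch hK)) x
    rw [pow_zero, one_mul, norm_iteratedFDeriv_one] at this
    exact this
  have := convex_univ.norm_image_sub_le_of_norm_fderiv_le (𝕜 := ℝ)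
    (fun x _ => (𝓕 (sch hK)).differentiableAt) hb (mem_univ ξ) (mem_univ 0)
  rwa [zero_sub, norm_neg] at this

theorem fourier_pd {r : ℝ} {K : E d → ℝ} (hK : KR r K) (i : Fin d) :
    ∃ C : ℝ, ∀ ξ : E d, ‖𝓕 (fun y => (pd i K y : ℂ)) ξ‖ ≤
      C * ‖ξ‖ * ‖𝓕 (fun y => (K y : ℂ)) ξ‖ := by
  refine ⟨2 * Real.pi, fun ξ => ?_⟩
  have e : (fun y => (pd i K y : ℂ)) =
      ((LineDeriv.lineDerivOp (EuclideanSpace.single i (1 : ℝ) : E d) (sch hK) :
        SchwartzMap (E d) ℂ) : E d → ℂ) := by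
    ext y
    rw [SchwartzMap.lineDerivOp_apply_eq_fderiv]
    have h2 : HasFDerivAt (fun y => (K y : ℂ))
        (Complex.ofRealCLM.comp (fderiv ℝ K y)) y :=
      Complex.ofRealCLM.hasFDerivAt.comp y
        ((hK.smooth.differentiable (by simp)) y).hasFDerivAt
    rw [sch_coe hK, h2.fderiv]
    rfl
  rw [e, ← SchwartzMap.fourier_coe, SchwartzMap.fourier_lineDerivOp_eq, sch_fou hK]
  have ht : (fun y : E d => inner ℝ y (EuclideanSpace.single i (1 : ℝ) : E d)).HasTemperateGrowth :=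
    ((innerSL ℝ).flip (EuclideanSpace.single i (1 : ℝ) : E d)).hasTemperateGrowth
  rw [smul_apply, SchwartzMap.smulLeftCLM_apply_apply ht]
  rw [norm_smul, norm_smul]
  have h3 : ‖(2 * Real.pi * Complex.I : ℂ)‖ = 2 * Real.pi := by
    simp [abs_of_pos Real.pi_pos]
  have h4 : ‖inner ℝ ξ (EuclideanSpace.single i (1 : ℝ) : E d)‖ ≤ ‖ξ‖ := by
    refine (norm_inner_le_norm _ _).trans ?_
    simp
  rw [h3]
  have h5 := mul_le_mul_of_nonneg_right h4 (norm_nonneg ((𝓕 (sch hK)) ξ))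
  have h6 := mul_le_mul_of_nonneg_left h5 (by positivity : (0 : ℝ) ≤ 2 * Real.pi)
  linarith

end Pool.Agent.Lib.MP_ff3fe0_an_SPH
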