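import Pool.Agent.Lib.MP_ff3fe0_an_SPH.PlaA
import Pool.Agent.Lib.MP_ff3fe0_an_SPH.KerD

set_option autoImplicit false

/-!
# The good part
-/

namespace Pool.Agent.Lib.MP_ff3fe0_an_SPH

open MeasureTheory Metric Set
open scoped ENNReal NNReal ContDiff FourierTransform
open Pool.Agent.Lib.MP_ff3fe0_an

variable {d : ℕ}

/-! ### The components of the kernel -/

private theorem GoodA_comp (K : Ker d) (i : Fin d) : KR 1 (fun y => K.ka y i) := by
  refine ⟨?_, fun y hy => ?_⟩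
  · exact (contDiff_euclidean.1 K.hka.smooth) i
  · rw [K.hka.supp y hy]
    rfl

private theorem GoodA_cs {r : ℝ} {K : E d → ℝ} (hK : KR r K) : HasCompactSupport K := by
  refine HasCompactSupport.intro (isCompact_closedBall (0 : E d) r) (fun y hy => hK.supp y ?_)
  rw [mem_closedBall, dist_zero_right, not_le] at hy
  exact hy

private theorem GoodA_intg {r : ℝ} {K : E d → ℝ} (hK : KR r K) : Integrable K :=
  hK.smooth.continuous.integrable_of_hasCompactSupport (GoodA_cs hK)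

private theorem GoodA_int0 (K : Ker d) (i : Fin d) : ∫ y, K.ka y i = 0 := by
  have h1 := integral_neg_eq_self (fun y : E d => K.ka y i) volume
  have h2 : ∀ y : E d, K.ka (-y) i = - K.ka y i := fun y => by rw [K.ka_odd]; rfl
  simp only [h2, integral_neg] at h1
  linarith

private theorem GoodA_low (K : Ker d) (i : Fin d) :
    ∃ C : ℝ, ∀ ξ : E d, ‖𝓕 (fun y => (K.ka y i : ℂ)) ξ‖ ≤ C * ‖ξ‖ := by
  have hP : KR 1 K.Psi := ⟨K.hPsi.smooth, K.hPsi.supp⟩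
  have hA : KR 1 (fun y => K.Psi y + K.ka y i) := hP.add (GoodA_comp K i)
  obtain ⟨C1, hC1⟩ := fourier_order hP K.Psi_int
  obtain ⟨C2, hC2⟩ := fourier_order hA (by
    rw [integral_add (GoodA_intg hP) (GoodA_intg (GoodA_comp K i)), K.Psi_int, GoodA_int0,
      add_zero])
  refine ⟨C1 + C2, fun ξ => ?_⟩
  have e : 𝓕 (fun y => ((K.Psi y + K.ka y i : ℝ) : ℂ)) ξ =
      𝓕 (fun y => (K.Psi y : ℂ)) ξ + 𝓕 (fun y => (K.ka y i : ℂ)) ξ := by
    simp only [Real.fourier_eq]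
    rw [← integral_add]
    · congr 1
      funext v
      rw [← smul_add]
      push_cast
      rfl
    · exact (Real.fourierIntegral_convergent_iff ξ).2 (GoodA_intg hP).ofReal
    · exact (Real.fourierIntegral_convergent_iff ξ).2 (GoodA_intg (GoodA_comp K i)).ofReal
  have e2 : 𝓕 (fun y => (K.ka y i : ℂ)) ξ = (1 - 𝓕 (fun y => (K.Psi y : ℂ)) ξ) -
      (1 - 𝓕 (fun y => ((K.Psi y + K.ka y i : ℝ) : ℂ)) ξ) := by
    rw [e]
    ring
  rw [e2]
  calc _ ≤ ‖1 - 𝓕 (fun y => (K.Psi y : ℂ)) ξ‖ +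
        ‖1 - 𝓕 (fun y => ((K.Psi y + K.ka y i : ℝ) : ℂ)) ξ‖ := norm_sub_le _ _
    _ ≤ C1 * ‖ξ‖ + C2 * ‖ξ‖ := add_le_add (hC1 ξ) (hC2 ξ)
    _ = (C1 + C2) * ‖ξ‖ := by ring

/-! ### The geometric sum over the scales -/

private theorem GoodA_geo : ∃ A : ℝ≥0, ∑' n : ℤ, ENNReal.ofReal ((1 / 4 : ℝ) ^ n.natAbs) ≤ A := by
  have h0 : Summable (fun n : ℕ => (1 / 4 : ℝ) ^ n) :=
    summable_geometric_of_lt_one (by norm_num) (by norm_num)
  have h1 : Summable (fun n : ℤ => (1 / 4 : ℝ) ^ n.natAbs) := by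
    refine Summable.of_nat_of_neg ?_ ?_
    · simpa using h0
    · simpa using h0
  have h2 : ∑' n : ℤ, ENNReal.ofReal ((1 / 4 : ℝ) ^ n.natAbs) ≠ ⊤ := by
    rw [← ENNReal.ofReal_tsum_of_nonneg (fun n => by positivity) h1]
    exact ENNReal.ofReal_ne_top
  exact ⟨_, (ENNReal.coe_toNNReal h2).ge⟩

private theorem GoodA_ksum (K : Ker d) (i : Fin d) : ∃ C : ℝ≥0, ∀ ξ : E d,
    ∑' j : ℤ, ‖𝓕 (fun y => (K.ka y i : ℂ)) ((2 : ℝ) ^ j • ξ)‖ₑ ^ 2 ≤ C := by
  obtain ⟨C1, hC1⟩ := GoodA_low K i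
  obtain ⟨C2, hC2⟩ := fourier_decay (GoodA_comp K i) 1
  obtain ⟨A, hA⟩ := GoodA_geo
  set M : ℝ := |C1| + |C2| with hM
  have hM0 : 0 ≤ M := by positivity
  refine ⟨Real.toNNReal ((2 * M) ^ 2) * A, fun ξ => ?_⟩
  rcases eq_or_ne ξ 0 with rfl | hξ
  · have h1 : ∀ j : ℤ, ‖𝓕 (fun y => (K.ka y i : ℂ)) ((2 : ℝ) ^ j • (0 : E d))‖ₑ ^ 2 = 0 := by
      intro j
      have h2 := hC1 ((2 : ℝ) ^ j • (0 : E d))
      rw [smul_zero, norm_zero, mul_zero] at h2
      have h3 : 𝓕 (fun y => (K.ka y i : ℂ)) (0 : E d) = 0 := norm_le_zero_iff.1 h2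
      rw [smul_zero, h3, enorm_zero]
      simp
    simp only [h1, tsum_zero]
    exact zero_le
  · have hr : 0 < ‖ξ‖ := norm_pos_iff.2 hξ
    obtain ⟨k, hk1, hk2⟩ := exists_mem_Ico_zpow hr (one_lt_two : (1 : ℝ) < 2)
    have key : ∀ j : ℤ, ‖𝓕 (fun y => (K.ka y i : ℂ)) ((2 : ℝ) ^ j • ξ)‖ ≤
        2 * M * (1 / 2 : ℝ) ^ (j + k).natAbs := by
      intro j
      have hn : ‖(2 : ℝ) ^ j • ξ‖ = (2 : ℝ) ^ j * ‖ξ‖ := by
        rw [norm_smul, Real.norm_of_nonneg (by positivity)]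
      have hlo : (2 : ℝ) ^ (j + k) ≤ ‖(2 : ℝ) ^ j • ξ‖ := by
        rw [hn, zpow_add₀ two_ne_zero]
        gcongr
      have hhi : ‖(2 : ℝ) ^ j • ξ‖ ≤ (2 : ℝ) ^ (j + k) * 2 := by
        rw [hn, zpow_add₀ two_ne_zero, mul_assoc]
        rw [zpow_add_one₀ two_ne_zero] at hk2
        gcongr
      rcases le_or_gt 0 (j + k) with h | h
      · have h1 : (1 / 2 : ℝ) ^ (j + k).natAbs = ((2 : ℝ) ^ (j + k))⁻¹ := by
          rw [one_div, inv_pow, ← zpow_natCast, Int.natAbs_of_nonneg h]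
        rw [h1]
        have h2 := hC2 ((2 : ℝ) ^ j • ξ)
        rw [pow_one] at h2
        have h3 : 0 < (2 : ℝ) ^ (j + k) := by positivity
        calc _ ≤ C2 / (1 + ‖(2 : ℝ) ^ j • ξ‖) := h2
          _ ≤ |C2| / (1 + ‖(2 : ℝ) ^ j • ξ‖) := by
              gcongr
              exact le_abs_self _
          _ ≤ |C2| / (2 : ℝ) ^ (j + k) := by
              gcongr
              linarith
          _ ≤ (2 * M) * ((2 : ℝ) ^ (j + k))⁻¹ := by
              rw [div_eq_mul_inv]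
              gcongr
              rw [hM]
              linarith [abs_nonneg C1, abs_nonneg C2]
      · have h1 : (1 / 2 : ℝ) ^ (j + k).natAbs = (2 : ℝ) ^ (j + k) := by
          have h4 : ((j + k).natAbs : ℤ) = -(j + k) := Int.ofNat_natAbs_of_nonpos h.le
          rw [one_div, inv_pow, ← zpow_natCast, h4, zpow_neg, inv_inv]
        rw [h1]
        calc _ ≤ C1 * ‖(2 : ℝ) ^ j • ξ‖ := hC1 _
          _ ≤ |C1| * ‖(2 : ℝ) ^ j • ξ‖ := by
              gcongr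
              exact le_abs_self _
          _ ≤ |C1| * ((2 : ℝ) ^ (j + k) * 2) := by gcongr
          _ ≤ M * ((2 : ℝ) ^ (j + k) * 2) := by
              gcongr
              rw [hM]
              linarith [abs_nonneg C2]
          _ = _ := by ring
    have key2 : ∀ j : ℤ, ‖𝓕 (fun y => (K.ka y i : ℂ)) ((2 : ℝ) ^ j • ξ)‖ₑ ^ 2 ≤
        ENNReal.ofReal ((2 * M) ^ 2) * ENNReal.ofReal ((1 / 4 : ℝ) ^ (j + k).natAbs) := by
      intro j
      rw [← ofReal_norm, ← ENNReal.ofReal_pow (norm_nonneg _),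
        ← ENNReal.ofReal_mul (by positivity)]
      apply ENNReal.ofReal_le_ofReal
      have h5 : (1 / 4 : ℝ) ^ (j + k).natAbs = ((1 / 2 : ℝ) ^ (j + k).natAbs) ^ 2 := by
        rw [← pow_mul, mul_comm, pow_mul]
        norm_num
      rw [h5, ← mul_pow]
      exact pow_le_pow_left₀ (norm_nonneg _) (key j) 2
    calc _ ≤ ∑' j : ℤ, ENNReal.ofReal ((2 * M) ^ 2) *
          ENNReal.ofReal ((1 / 4 : ℝ) ^ (j + k).natAbs) := ENNReal.tsum_le_tsum key2
      _ = ENNReal.ofReal ((2 * M) ^ 2) *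
          ∑' j : ℤ, ENNReal.ofReal ((1 / 4 : ℝ) ^ (j + k).natAbs) := ENNReal.tsum_mul_left
      _ = ENNReal.ofReal ((2 * M) ^ 2) *
          ∑' j : ℤ, ENNReal.ofReal ((1 / 4 : ℝ) ^ j.natAbs) := by
          congr 1
          exact (Equiv.addRight k).tsum_eq
            (fun j : ℤ => ENNReal.ofReal ((1 / 4 : ℝ) ^ j.natAbs))
      _ ≤ ENNReal.ofReal ((2 * M) ^ 2) * A := by gcongr
      _ = ((Real.toNNReal ((2 * M) ^ 2) * A : ℝ≥0) : ℝ≥0∞) := by
          rw [ENNReal.coe_mul]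
          rfl

/-! ### Young's inequality -/

private theorem GoodA_swap {F : E d → ℝ≥0∞} (hF : Measurable F) (b : ℝ) :
    ∫⁻ x, ∫⁻ y in closedBall (0 : E d) 1, F (x - b • y) =
      volume (closedBall (0 : E d) 1) * ∫⁻ x, F x := by
  rw [lintegral_lintegral_swap]
  · have h1 : ∀ y : E d, ∫⁻ x, F (x - b • y) = ∫⁻ x, F x := fun y =>
      lintegral_sub_right_eq_self F (b • y)
    simp only [h1]
    rw [setLIntegral_const, mul_comm]
  · have : Measurable (Function.uncurry fun x y : E d => F (x - b • y)) :=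
      hF.comp (by fun_prop)
    exact this.aemeasurable

private theorem GoodA_CS {μ : Measure (E d)} {f : E d → ℝ≥0∞} (hf : Measurable f) :
    (∫⁻ y, f y ∂μ) ^ 2 ≤ μ univ * ∫⁻ y, f y ^ 2 ∂μ := by
  have h1 := ENNReal.lintegral_mul_le_Lp_mul_Lq μ Real.HolderConjugate.two_two
    hf.aemeasurable (g := fun _ => (1 : ℝ≥0∞)) aemeasurable_const
  simp only [Pi.mul_apply, mul_one, ENNReal.one_rpow, lintegral_one] at h1
  have h2 : ∀ a : ℝ≥0∞, (a ^ (1 / 2 : ℝ)) ^ 2 = a := by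
    intro a
    rw [← ENNReal.rpow_two, ← ENNReal.rpow_mul]
    norm_num
  calc (∫⁻ y, f y ∂μ) ^ 2 ≤ ((∫⁻ y, f y ^ (2 : ℝ) ∂μ) ^ (1 / 2 : ℝ) *
        (μ univ) ^ (1 / 2 : ℝ)) ^ 2 := by gcongr
    _ = (∫⁻ y, f y ^ (2 : ℝ) ∂μ) * μ univ := by rw [mul_pow, h2, h2]
    _ = μ univ * ∫⁻ y, f y ^ 2 ∂μ := by
        rw [mul_comm]
        simp only [ENNReal.rpow_two]

private theorem GoodA_meas (K : Ker d) (b : ℝ) {G : E d → E d} (hG : Measurable G) :
    StronglyMeasurable (cvv K.ka b G) := by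
  unfold cvv
  have h : StronglyMeasurable (Function.uncurry fun (x y : E d) =>
      (inner ℝ (K.ka y) (G (x - b • y)) : ℝ)) := by
    apply Measurable.stronglyMeasurable
    have h1 : Measurable fun p : E d × E d => K.ka p.2 :=
      (K.hka.smooth.continuous.measurable).comp measurable_snd
    have h2 : Measurable fun p : E d × E d => G (p.1 - b • p.2) := hG.comp (by fun_prop)
    exact h1.inner h2
  exact h.integral_prod_right

private theorem GoodA_young (K : Ker d) (b : ℝ) {G : E d → E d} (hG : Measurable G)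
    (h1 : Integrable G) (h2 : ∫⁻ y, ‖G y‖ₑ ^ 2 ≠ ⊤) :
    Integrable (fun y => (cvv K.ka b G y : ℂ)) ∧ MemLp (fun y => (cvv K.ka b G y : ℂ)) 2 := by
  obtain ⟨C, hC⟩ := cvv_le K.hka
  have hm := GoodA_meas K b hG
  have hmc : AEStronglyMeasurable (fun y => (cvv K.ka b G y : ℂ)) (volume : Measure (E d)) :=
    (Complex.measurable_ofReal.comp hm.measurable).aestronglyMeasurable
  have hB : volume (closedBall (0 : E d) 1) ≠ ⊤ := measure_closedBall_lt_top.ne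
  have hen : ∀ y, ‖(cvv K.ka b G y : ℂ)‖ₑ = ‖cvv K.ka b G y‖ₑ := by
    intro y
    rw [← ofReal_norm, ← ofReal_norm, Complex.norm_real]
  refine ⟨⟨hmc, ?_⟩, ⟨hmc, ?_⟩⟩
  · rw [hasFiniteIntegral_iff_enorm]
    simp only [hen]
    calc ∫⁻ x, ‖cvv K.ka b G x‖ₑ ≤ ∫⁻ x, C * ∫⁻ y in closedBall (0 : E d) 1,
          ‖G (x - b • y)‖ₑ := lintegral_mono (fun x => hC b G x)
      _ = C * (volume (closedBall (0 : E d) 1) * ∫⁻ x, ‖G x‖ₑ) := by
          rw [lintegral_const_mul' _ _ ENNReal.coe_ne_top, GoodA_swap hG.enorm b]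
      _ < ⊤ := by
          have := h1.2
          rw [hasFiniteIntegral_iff_enorm] at this
          exact ENNReal.mul_lt_top ENNReal.coe_lt_top
            (ENNReal.mul_lt_top (lt_top_iff_ne_top.2 hB) this)
  · rw [eLpNorm_lt_top_iff_lintegral_rpow_enorm_lt_top two_ne_zero ENNReal.ofNat_ne_top]
    simp only [ENNReal.toReal_ofNat, ENNReal.rpow_two, hen]
    calc ∫⁻ x, ‖cvv K.ka b G x‖ₑ ^ 2 ≤ ∫⁻ x, C ^ 2 * (volume (closedBall (0 : E d) 1) *
          ∫⁻ y in closedBall (0 : E d) 1, ‖G (x - b • y)‖ₑ ^ 2) := by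
          refine lintegral_mono (fun x => ?_)
          calc ‖cvv K.ka b G x‖ₑ ^ 2 ≤ (C * ∫⁻ y in closedBall (0 : E d) 1,
                ‖G (x - b • y)‖ₑ) ^ 2 := by
                gcongr
                exact hC b G x
            _ = C ^ 2 * (∫⁻ y in closedBall (0 : E d) 1, ‖G (x - b • y)‖ₑ) ^ 2 := by
                rw [mul_pow]
            _ ≤ _ := by
                gcongr
                have h3 := GoodA_CS (μ := volume.restrict (closedBall (0 : E d) 1))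
                  (f := fun y => ‖G (x - b • y)‖ₑ)
                  ((hG.comp (by fun_prop : Measurable fun y : E d => x - b • y)).enorm)
                rwa [Measure.restrict_apply_univ] at h3
      _ = C ^ 2 * (volume (closedBall (0 : E d) 1) *
          (volume (closedBall (0 : E d) 1) * ∫⁻ x, ‖G x‖ₑ ^ 2)) := by
          rw [lintegral_const_mul' _ _ (ENNReal.pow_ne_top ENNReal.coe_ne_top),
            lintegral_const_mul' _ _ hB, GoodA_swap (hG.enorm.pow_const 2) b]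
      _ < ⊤ := by
          exact ENNReal.mul_lt_top (ENNReal.pow_lt_top ENNReal.coe_lt_top)
            (ENNReal.mul_lt_top (lt_top_iff_ne_top.2 hB)
              (ENNReal.mul_lt_top (lt_top_iff_ne_top.2 hB) (lt_top_iff_ne_top.2 h2)))

/-! ### The components of `G` -/

private theorem GoodA_cle (v : E d) (i : Fin d) : ‖((v i : ℝ) : ℂ)‖ₑ ≤ ‖v‖ₑ := by
  rw [← ofReal_norm, ← ofReal_norm, Complex.norm_real]
  exact ENNReal.ofReal_le_ofReal (PiLp.norm_apply_le v i)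

private theorem GoodA_G {G : E d → E d} (hG : Measurable G) (h1 : Integrable G)
    (h2 : ∫⁻ y, ‖G y‖ₑ ^ 2 ≠ ⊤) (i : Fin d) :
    Integrable (fun y => ((G y i : ℝ) : ℂ)) ∧ MemLp (fun y => ((G y i : ℝ) : ℂ)) 2 := by
  have hmi : Measurable fun y => G y i := by
    have : Continuous fun v : E d => v i := by fun_prop
    exact this.measurable.comp hG
  have hm : AEStronglyMeasurable (fun y => ((G y i : ℝ) : ℂ)) (volume : Measure (E d)) :=
    (Complex.measurable_ofReal.comp hmi).aestronglyMeasurable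
  refine ⟨⟨hm, ?_⟩, ⟨hm, ?_⟩⟩
  · have h3 := h1.2
    rw [hasFiniteIntegral_iff_enorm] at h3 ⊢
    exact (lintegral_mono (fun y => GoodA_cle (G y) i)).trans_lt h3
  · rw [eLpNorm_lt_top_iff_lintegral_rpow_enorm_lt_top two_ne_zero ENNReal.ofNat_ne_top]
    simp only [ENNReal.toReal_ofNat, ENNReal.rpow_two]
    refine (lintegral_mono (fun y => ?_)).trans_lt (lt_top_iff_ne_top.2 h2)
    exact pow_le_pow_left' (GoodA_cle (G y) i) 2

private theorem GoodA_cont {q : E d → ℂ} (hq : Integrable q) : Continuous (𝓕 q) :=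
  VectorFourier.fourierIntegral_continuous Real.continuous_fourierChar
    (innerSL ℝ).continuous₂ hq

theorem good_sum (K : Ker d) : ∃ C : ℝ≥0, ∀ G : E d → E d, Measurable G → Integrable G →
    ∫⁻ y, ‖G y‖ₑ ^ 2 ≠ ⊤ → ∑' j : ℤ, ∫⁻ y, ‖cvv K.ka ((2 : ℝ) ^ j) G y‖ₑ ^ 2 ≤
      C * ∫⁻ y, ‖G y‖ₑ ^ 2 := by
  choose Ci hCi using GoodA_ksum K
  refine ⟨d * ∑ i, Ci i, fun G hG h1 h2 => ?_⟩
  set ka : Fin d → E d → ℂ := fun i => 𝓕 (fun y => (K.ka y i : ℂ)) with hka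
  set g : Fin d → E d → ℂ := fun i => 𝓕 (fun y => (G y i : ℂ)) with hg
  have hkac : ∀ i, Continuous (ka i) := fun i =>
    GoodA_cont (GoodA_intg (GoodA_comp K i)).ofReal
  have hgc : ∀ i, Continuous (g i) := fun i => GoodA_cont (GoodA_G hG h1 h2 i).1
  have step1 : ∀ j : ℤ, ∫⁻ y, ‖cvv K.ka ((2 : ℝ) ^ j) G y‖ₑ ^ 2 ≤
      ∫⁻ ξ, ∑ i, d * (‖ka i ((2 : ℝ) ^ j • ξ)‖ₑ ^ 2 * ‖g i ξ‖ₑ ^ 2) := by
    intro j
    obtain ⟨hy1, hy2⟩ := GoodA_young K ((2 : ℝ) ^ j) hG h1 h2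
    have h3 := plancherel _ hy1 hy2
    have hen : ∀ y, ‖(cvv K.ka ((2 : ℝ) ^ j) G y : ℂ)‖ₑ = ‖cvv K.ka ((2 : ℝ) ^ j) G y‖ₑ := by
      intro y
      rw [← ofReal_norm, ← ofReal_norm, Complex.norm_real]
    simp only [hen] at h3
    rw [← h3]
    refine lintegral_mono (fun ξ => ?_)
    show ‖𝓕 (fun y => (cvv K.ka ((2 : ℝ) ^ j) G y : ℂ)) ξ‖ₑ ^ 2 ≤ _
    rw [fourier_cvv_scale K.hka (by positivity) h1 ξ]
    calc ‖∑ i : Fin d, 𝓕 (fun y => (K.ka y i : ℂ)) ((2 : ℝ) ^ j • ξ) *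
          𝓕 (fun y => (G y i : ℂ)) ξ‖ₑ ^ 2
        ≤ (∑ i : Fin d, ‖ka i ((2 : ℝ) ^ j • ξ)‖ₑ * ‖g i ξ‖ₑ) ^ 2 := by
          gcongr
          refine (enorm_sum_le _ _).trans (le_of_eq ?_)
          refine Finset.sum_congr rfl (fun i _ => ?_)
          rw [enorm_mul]
      _ ≤ d * ∑ i : Fin d, (‖ka i ((2 : ℝ) ^ j • ξ)‖ₑ * ‖g i ξ‖ₑ) ^ 2 := by
          have h4 := ENNReal.rpow_sum_le_const_mul_sum_rpow Finset.univ
            (fun i : Fin d => ‖ka i ((2 : ℝ) ^ j • ξ)‖ₑ * ‖g i ξ‖ₑ) (p := 2) one_le_two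
          simp only [ENNReal.rpow_two, Finset.card_univ, Fintype.card_fin] at h4
          refine h4.trans (le_of_eq ?_)
          norm_num
      _ = _ := by
          rw [Finset.mul_sum]
          refine Finset.sum_congr rfl (fun i _ => ?_)
          rw [mul_pow]
  calc ∑' j : ℤ, ∫⁻ y, ‖cvv K.ka ((2 : ℝ) ^ j) G y‖ₑ ^ 2
      ≤ ∑' j : ℤ, ∫⁻ ξ, ∑ i, d * (‖ka i ((2 : ℝ) ^ j • ξ)‖ₑ ^ 2 * ‖g i ξ‖ₑ ^ 2) :=
        ENNReal.tsum_le_tsum step1
    _ = ∫⁻ ξ, ∑' j : ℤ, ∑ i, d * (‖ka i ((2 : ℝ) ^ j • ξ)‖ₑ ^ 2 * ‖g i ξ‖ₑ ^ 2) := by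
        rw [lintegral_tsum]
        intro j
        refine Measurable.aemeasurable ?_
        refine Finset.measurable_fun_sum _ (fun i _ => ?_)
        have m1 : Measurable fun ξ : E d => ‖ka i ((2 : ℝ) ^ j • ξ)‖ₑ ^ 2 :=
          (((hkac i).comp (by fun_prop : Continuous fun ξ : E d =>
            (2 : ℝ) ^ j • ξ)).measurable.enorm).pow_const 2
        have m2 : Measurable fun ξ : E d => ‖g i ξ‖ₑ ^ 2 :=
          ((hgc i).measurable.enorm).pow_const 2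
        exact (m1.mul m2).const_mul _
    _ ≤ ∫⁻ ξ, ∑ i, (d * Ci i : ℝ≥0∞) * ‖g i ξ‖ₑ ^ 2 := by
        refine lintegral_mono (fun ξ => ?_)
        show ∑' j : ℤ, ∑ i, (d : ℝ≥0∞) * (‖ka i ((2 : ℝ) ^ j • ξ)‖ₑ ^ 2 * ‖g i ξ‖ₑ ^ 2) ≤
          ∑ i, (d * Ci i : ℝ≥0∞) * ‖g i ξ‖ₑ ^ 2
        rw [Summable.tsum_finsetSum (fun i _ => ENNReal.summable)]
        refine Finset.sum_le_sum (fun i _ => ?_)
        rw [ENNReal.tsum_mul_left, ENNReal.tsum_mul_right, mul_assoc]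
        gcongr
        exact hCi i ξ
    _ = ∑ i, (d * Ci i : ℝ≥0∞) * ∫⁻ ξ, ‖g i ξ‖ₑ ^ 2 := by
        rw [lintegral_finsetSum _ (fun i _ =>
          (((hgc i).measurable.enorm).pow_const 2).const_mul _)]
        refine Finset.sum_congr rfl (fun i _ => ?_)
        rw [lintegral_const_mul _ (((hgc i).measurable.enorm).pow_const 2)]
    _ ≤ ∑ i, (d * Ci i : ℝ≥0∞) * ∫⁻ y, ‖G y‖ₑ ^ 2 := by
        refine Finset.sum_le_sum (fun i _ => ?_)
        obtain ⟨h5, h6⟩ := GoodA_G hG h1 h2 i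
        have h7 : ∫⁻ ξ, ‖g i ξ‖ₑ ^ 2 ≤ ∫⁻ y, ‖G y‖ₑ ^ 2 := by
          have h8 := plancherel _ h5 h6
          refine (le_of_eq h8).trans ?_
          exact lintegral_mono (fun y => pow_le_pow_left' (GoodA_cle (G y) i) 2)
        exact mul_le_mul_right h7 _
    _ = ((d * ∑ i, Ci i : ℝ≥0) : ℝ≥0∞) * ∫⁻ y, ‖G y‖ₑ ^ 2 := by
        rw [← Finset.sum_mul, ← Finset.mul_sum]
        push_cast
        rfl

end Pool.Agent.Lib.MP_ff3fe0_an_SPH
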