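import Pool.Agent.Lib.MP_ff3fe0_an_SPH.DyA

set_option autoImplicit false

/-!
# Bounded overlap
-/

namespace Pool.Agent.Lib.MP_ff3fe0_an_SPH

open MeasureTheory Metric Set
open scoped ENNReal NNReal ContDiff FourierTransform
open Pool.Agent.Lib.MP_ff3fe0_an

variable {d : ℕ}

/-- The corners of the cubes of side `2 ^ j`. -/
noncomputable def cen (j : ℤ) (z : Fin d → ℤ) : E d := WithLp.toLp 2 (fun l => (2 : ℝ) ^ j * z l)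

theorem mem_dc_cen (j : ℤ) (x : E d) :
    x ∈ dc j (cen j (fun l => ⌊(2 : ℝ) ^ (-j) * x l⌋)) := by
  intro l
  show ⌊(2 : ℝ) ^ (-j) * x l⌋ = ⌊(2 : ℝ) ^ (-j) * ((2 : ℝ) ^ j * (⌊(2 : ℝ) ^ (-j) * x l⌋ : ℝ))⌋
  have h2 : (2 : ℝ) ^ (-j) * (2 : ℝ) ^ j = 1 := by
    rw [← zpow_add₀ (by norm_num : (2 : ℝ) ≠ 0), neg_add_cancel, zpow_zero]
  rw [← mul_assoc, h2, one_mul, Int.floor_intCast]

theorem dc_cen_sub (j : ℤ) (z : Fin d → ℤ) :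
    dc j (cen j z) ⊆ closedBall (cen j z : E d) (√d * (2 : ℝ) ^ j) := by
  intro y hy
  rw [mem_closedBall, dist_eq_norm]
  exact dc_dist hy

private theorem OverA_coord {r : ℝ} {j : ℤ} {z : Fin d → ℤ} {y : E d}
    (h : y ∈ closedBall (cen j z : E d) (r * (2 : ℝ) ^ j)) (l : Fin d) :
    z l ∈ Finset.Icc ⌈(2 : ℝ) ^ (-j) * y l - r⌉ ⌊(2 : ℝ) ^ (-j) * y l + r⌋ := by
  rw [mem_closedBall, dist_eq_norm] at h
  have h1 : |y l - (2 : ℝ) ^ j * z l| ≤ r * (2 : ℝ) ^ j :=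
    (PiLp.norm_apply_le (y - cen j z) l).trans h
  have h0 : (0 : ℝ) < (2 : ℝ) ^ (-j) := zpow_pos (by norm_num) _
  have h2 : (2 : ℝ) ^ (-j) * (2 : ℝ) ^ j = 1 := by
    rw [← zpow_add₀ (by norm_num : (2 : ℝ) ≠ 0), neg_add_cancel, zpow_zero]
  have h3 : |(2 : ℝ) ^ (-j) * y l - z l| ≤ r := by
    have h4 : (2 : ℝ) ^ (-j) * y l - z l = (2 : ℝ) ^ (-j) * (y l - (2 : ℝ) ^ j * z l) := by
      rw [mul_sub, ← mul_assoc, h2, one_mul]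
    rw [h4, abs_mul, abs_of_pos h0]
    calc _ ≤ (2 : ℝ) ^ (-j) * (r * (2 : ℝ) ^ j) := mul_le_mul_of_nonneg_left h1 h0.le
      _ = r * ((2 : ℝ) ^ (-j) * (2 : ℝ) ^ j) := by ring
      _ = r := by rw [h2, mul_one]
  rw [abs_le] at h3
  rw [Finset.mem_Icc]
  exact ⟨Int.ceil_le.mpr (by linarith), Int.le_floor.mpr (by linarith)⟩

private theorem OverA_card (a r : ℝ) :
    (Finset.Icc ⌈a - r⌉ ⌊a + r⌋).card ≤ ⌈2 * |r| + 1⌉₊ := by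
  rw [Int.card_Icc]
  have h1 : (⌊a + r⌋ : ℝ) ≤ a + r := Int.floor_le _
  have h2 : a - r ≤ (⌈a - r⌉ : ℝ) := Int.le_ceil _
  have h3 : r ≤ |r| := le_abs_self r
  have h4 : 2 * |r| + 1 ≤ (⌈2 * |r| + 1⌉₊ : ℝ) := Nat.le_ceil _
  have h5 : ((⌊a + r⌋ + 1 - ⌈a - r⌉ : ℤ) : ℝ) ≤ ((⌈2 * |r| + 1⌉₊ : ℤ) : ℝ) := by
    push_cast
    linarith
  have h6 : ⌊a + r⌋ + 1 - ⌈a - r⌉ ≤ (⌈2 * |r| + 1⌉₊ : ℤ) := by exact_mod_cast h5
  omega

theorem overlap (r : ℝ) : ∃ C : ℝ≥0, ∀ (j : ℤ) (f : E d → ℝ≥0∞), Measurable f →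
    ∑' z : Fin d → ℤ, ∫⁻ y in closedBall (cen j z) (r * (2 : ℝ) ^ j), f y ≤ C * ∫⁻ y, f y := by
  classical
  refine ⟨((⌈2 * |r| + 1⌉₊ ^ d : ℕ) : ℝ≥0), fun j f hf => ?_⟩
  have h1 : ∀ z : Fin d → ℤ, ∫⁻ y in closedBall (cen j z) (r * (2 : ℝ) ^ j), f y =
      ∫⁻ y, (closedBall (cen j z : E d) (r * (2 : ℝ) ^ j)).indicator f y := fun z =>
    (lintegral_indicator measurableSet_closedBall f).symm
  simp only [h1]
  rw [← lintegral_tsum (fun z => (hf.indicator measurableSet_closedBall).aemeasurable),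
    ← lintegral_const_mul _ hf]
  refine lintegral_mono (fun y => ?_)
  set S : Finset (Fin d → ℤ) := Fintype.piFinset (fun l =>
    Finset.Icc ⌈(2 : ℝ) ^ (-j) * y l - r⌉ ⌊(2 : ℝ) ^ (-j) * y l + r⌋) with hS
  have h2 : ∀ z ∉ S, (closedBall (cen j z : E d) (r * (2 : ℝ) ^ j)).indicator f y = 0 := by
    intro z hz
    refine indicator_of_notMem (fun hy => hz ?_) f
    rw [hS, Fintype.mem_piFinset]
    exact fun l => OverA_coord hy l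
  rw [tsum_eq_sum h2]
  have h3 : S.card ≤ ⌈2 * |r| + 1⌉₊ ^ d := by
    rw [hS, Fintype.card_piFinset]
    refine (Finset.prod_le_pow_card _ _ _ (fun l _ => OverA_card _ _)).trans ?_
    simp
  calc ∑ z ∈ S, (closedBall (cen j z : E d) (r * (2 : ℝ) ^ j)).indicator f y
      ≤ ∑ _z ∈ S, f y := Finset.sum_le_sum (fun z _ => indicator_le_self _ f y)
    _ = (S.card : ℝ≥0∞) * f y := by rw [Finset.sum_const, nsmul_eq_mul]
    _ ≤ ((⌈2 * |r| + 1⌉₊ ^ d : ℕ) : ℝ≥0∞) * f y := by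
        refine mul_le_mul_left ?_ _
        exact_mod_cast h3
    _ = _ := by norm_cast

/-- The normalised `L^p` average of the frequency piece around a cube, to the power `2 / p`. -/
noncomputable def Aav (K : Ker d) (p r : ℝ) (m : ℕ) (G : E d → E d) (j : ℤ) (z : Fin d → ℤ) :
    ℝ≥0∞ :=
  ENNReal.ofReal (((2 : ℝ) ^ j) ^ d) * (ENNReal.ofReal ((((2 : ℝ) ^ j) ^ d)⁻¹) *
    ∫⁻ y in closedBall (cen j z) (r * (2 : ℝ) ^ j),
      ‖cvv K.ka ((2 : ℝ) ^ j * sc m) G y‖ₑ ^ p) ^ (2 / p)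

end Pool.Agent.Lib.MP_ff3fe0_an_SPH
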