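import Pool.Agent.Lib.MP_ff3fe0_an_SPH.GoodA
import Pool.Agent.Lib.MP_ff3fe0_an_SPH.OverA

set_option autoImplicit false

/-!
# The averages of the good part
-/

namespace Pool.Agent.Lib.MP_ff3fe0_an_SPH

open MeasureTheory Metric Set
open scoped ENNReal NNReal ContDiff FourierTransform
open Pool.Agent.Lib.MP_ff3fe0_an

variable {d : ℕ}

private theorem goodB_meas {F : E d → E d} (hF : Continuous F) (b : ℝ) {G : E d → E d}
    (hG : Measurable G) : Measurable (cvv F b G) := by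
  unfold cvv
  have h : StronglyMeasurable (fun q : E d × E d => inner ℝ (F q.2) (G (q.1 - b • q.2))) := by
    refine Measurable.stronglyMeasurable ?_
    exact (hF.measurable.comp measurable_snd).inner
      (hG.comp (measurable_fst.sub (measurable_snd.const_smul b)))
  exact h.integral_prod_right.measurable

private theorem goodB_holder {p : ℝ} (hp : 1 ≤ p) (hp2 : p < 2) {h : E d → ℝ}
    (hh : Measurable h) (B : Set (E d)) :
    (∫⁻ y in B, ‖h y‖ₑ ^ p) ^ (2 / p) ≤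
      (∫⁻ y in B, ‖h y‖ₑ ^ 2) * volume B ^ (2 / p - 1) := by
  have hp0 : 0 < p := by linarith
  have h1 := eLpNorm'_le_eLpNorm'_mul_rpow_measure_univ (μ := volume.restrict B) (f := h) hp0
    hp2.le hh.aestronglyMeasurable
  unfold eLpNorm' at h1
  rw [Measure.restrict_apply_univ] at h1
  have h2 := ENNReal.rpow_le_rpow h1 (zero_le_two : (0 : ℝ) ≤ 2)
  rw [ENNReal.mul_rpow_of_nonneg _ _ zero_le_two, ← ENNReal.rpow_mul, ← ENNReal.rpow_mul,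
    ← ENNReal.rpow_mul] at h2
  have e1 : 1 / p * 2 = 2 / p := by ring
  have e2 : (1 : ℝ) / 2 * 2 = 1 := by norm_num
  have e3 : (1 / p - 1 / 2) * 2 = 2 / p - 1 := by ring
  rw [e1, e2, e3, ENNReal.rpow_one] at h2
  refine h2.trans (le_of_eq ?_)
  congr 1
  refine lintegral_congr fun y => ?_
  exact_mod_cast (ENNReal.rpow_natCast ‖h y‖ₑ 2)

private theorem goodB_Aav (K : Ker d) {p : ℝ} (hp : 1 ≤ p) (hp2 : p < 2) (r : ℝ) : ∃ C : ℝ≥0,
    ∀ (m : ℕ) (G : E d → E d), Measurable G → ∀ (j : ℤ) (z : Fin d → ℤ),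
      Aav K p r m G j z ≤ C * ∫⁻ y in closedBall (cen j z) (|r| * (2 : ℝ) ^ j),
        ‖cvv K.ka ((2 : ℝ) ^ j * sc m) G y‖ₑ ^ 2 := by
  have hp0 : 0 < p := by linarith
  have hexp : 0 ≤ 2 / p - 1 := by
    rw [sub_nonneg, le_div_iff₀ hp0]
    linarith
  set C0 : ℝ≥0∞ := (ENNReal.ofReal (|r| ^ d) * volume (ball (0 : E d) 1)) ^ (2 / p - 1) with hC0
  have hC0t : C0 ≠ ⊤ := by
    refine ENNReal.rpow_ne_top_of_nonneg hexp ?_
    exact ENNReal.mul_ne_top ENNReal.ofReal_ne_top measure_ball_lt_top.ne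
  refine ⟨C0.toNNReal, fun m G hG j z => ?_⟩
  rw [ENNReal.coe_toNNReal hC0t]
  set R : ℝ := (2 : ℝ) ^ j with hR
  have hR0 : 0 < R := zpow_pos two_pos j
  have hRd : 0 < R ^ d := pow_pos hR0 d
  set h : E d → ℝ := cvv K.ka (R * sc m) G with hh
  have hhm : Measurable h := goodB_meas K.hka.smooth.continuous _ hG
  have hv : volume (closedBall (cen j z : E d) (|r| * R)) =
      ENNReal.ofReal (|r| ^ d) * volume (ball (0 : E d) 1) * ENNReal.ofReal (R ^ d) := by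
    rw [Measure.addHaar_closedBall _ _ (by positivity), finrank_euclideanSpace_fin, mul_pow,
      ENNReal.ofReal_mul (by positivity)]
    ring
  have hmono : ∫⁻ y in closedBall (cen j z) (r * R), ‖h y‖ₑ ^ p ≤
      ∫⁻ y in closedBall (cen j z) (|r| * R), ‖h y‖ₑ ^ p := by
    refine lintegral_mono_set (closedBall_subset_closedBall ?_)
    exact mul_le_mul_of_nonneg_right (le_abs_self r) hR0.le
  have hmain := goodB_holder hp hp2 hhm (closedBall (cen j z : E d) (|r| * R))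
  have hone : ENNReal.ofReal (R ^ d) * (ENNReal.ofReal ((R ^ d)⁻¹) ^ (2 / p) *
      ENNReal.ofReal (R ^ d) ^ (2 / p - 1)) = 1 := by
    rw [ENNReal.ofReal_rpow_of_pos (inv_pos.2 hRd), ENNReal.ofReal_rpow_of_pos hRd,
      ← ENNReal.ofReal_mul (by positivity), ← ENNReal.ofReal_mul (by positivity),
      Real.inv_rpow hRd.le, Real.rpow_sub_one hRd.ne']
    have hne : (R ^ d) ^ (2 / p) ≠ 0 := (Real.rpow_pos_of_pos hRd _).ne'
    have : R ^ d * (((R ^ d) ^ (2 / p))⁻¹ * ((R ^ d) ^ (2 / p) / R ^ d)) = 1 := by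
      field_simp
    rw [this, ENNReal.ofReal_one]
  calc Aav K p r m G j z
      = ENNReal.ofReal (R ^ d) * (ENNReal.ofReal ((R ^ d)⁻¹) *
        ∫⁻ y in closedBall (cen j z) (r * R), ‖h y‖ₑ ^ p) ^ (2 / p) := rfl
    _ ≤ ENNReal.ofReal (R ^ d) * (ENNReal.ofReal ((R ^ d)⁻¹) *
        ∫⁻ y in closedBall (cen j z) (|r| * R), ‖h y‖ₑ ^ p) ^ (2 / p) := by
        gcongr
    _ = ENNReal.ofReal (R ^ d) * (ENNReal.ofReal ((R ^ d)⁻¹) ^ (2 / p) *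
        (∫⁻ y in closedBall (cen j z) (|r| * R), ‖h y‖ₑ ^ p) ^ (2 / p)) := by
        rw [ENNReal.mul_rpow_of_nonneg _ _ (by positivity)]
    _ ≤ ENNReal.ofReal (R ^ d) * (ENNReal.ofReal ((R ^ d)⁻¹) ^ (2 / p) *
        ((∫⁻ y in closedBall (cen j z) (|r| * R), ‖h y‖ₑ ^ 2) *
          volume (closedBall (cen j z : E d) (|r| * R)) ^ (2 / p - 1))) := by
        gcongr
    _ = (ENNReal.ofReal (R ^ d) * (ENNReal.ofReal ((R ^ d)⁻¹) ^ (2 / p) *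
        ENNReal.ofReal (R ^ d) ^ (2 / p - 1))) * (C0 *
        ∫⁻ y in closedBall (cen j z) (|r| * R), ‖h y‖ₑ ^ 2) := by
        rw [hv, ENNReal.mul_rpow_of_nonneg _ _ hexp, ← hC0]
        ring
    _ = C0 * ∫⁻ y in closedBall (cen j z) (|r| * R), ‖h y‖ₑ ^ 2 := by
        rw [hone, one_mul]

theorem good_Aav (K : Ker d) {p : ℝ} (hp : 1 ≤ p) (hp2 : p < 2) (r : ℝ) : ∃ C : ℝ≥0,
    ∀ (m : ℕ) (G : E d → E d), Measurable G → Integrable G → ∫⁻ y, ‖G y‖ₑ ^ 2 ≠ ⊤ →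
      ∑' j : ℤ, ∑' z : Fin d → ℤ, Aav K p r m G j z ≤ C * ∫⁻ y, ‖G y‖ₑ ^ 2 := by
  obtain ⟨C1, h1⟩ := goodB_Aav K hp hp2 r
  obtain ⟨C2, h2⟩ := overlap (d := d) |r|
  obtain ⟨C3, h3⟩ := good_sum K
  refine ⟨C1 * (C2 * C3), fun m G hG hGi hG2 => ?_⟩
  have hb : ∀ j : ℤ, (2 : ℝ) ^ j * sc m = (2 : ℝ) ^ (j - (m : ℤ)) := by
    intro j
    unfold sc
    rw [zpow_sub₀ (two_ne_zero), zpow_natCast, one_div, inv_pow]
    rfl
  calc ∑' j : ℤ, ∑' z : Fin d → ℤ, Aav K p r m G j z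
      ≤ ∑' j : ℤ, ∑' z : Fin d → ℤ, C1 * ∫⁻ y in closedBall (cen j z) (|r| * (2 : ℝ) ^ j),
        ‖cvv K.ka ((2 : ℝ) ^ j * sc m) G y‖ₑ ^ 2 :=
        ENNReal.tsum_le_tsum fun j => ENNReal.tsum_le_tsum fun z => h1 m G hG j z
    _ = C1 * ∑' j : ℤ, ∑' z : Fin d → ℤ, ∫⁻ y in closedBall (cen j z) (|r| * (2 : ℝ) ^ j),
        ‖cvv K.ka ((2 : ℝ) ^ j * sc m) G y‖ₑ ^ 2 := by
        rw [← ENNReal.tsum_mul_left]
        exact tsum_congr fun j => ENNReal.tsum_mul_left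
    _ ≤ C1 * ∑' j : ℤ, C2 * ∫⁻ y, ‖cvv K.ka ((2 : ℝ) ^ j * sc m) G y‖ₑ ^ 2 := by
        gcongr with j
        refine h2 j (fun y => ‖cvv K.ka ((2 : ℝ) ^ j * sc m) G y‖ₑ ^ 2) ?_
        exact (goodB_meas K.hka.smooth.continuous _ hG).enorm.pow_const 2
    _ = C1 * (C2 * ∑' j : ℤ, ∫⁻ y, ‖cvv K.ka ((2 : ℝ) ^ (j - (m : ℤ))) G y‖ₑ ^ 2) := by
        rw [ENNReal.tsum_mul_left]
        simp only [hb]
    _ = C1 * (C2 * ∑' j : ℤ, ∫⁻ y, ‖cvv K.ka ((2 : ℝ) ^ j) G y‖ₑ ^ 2) := by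
        congr 2
        exact (Equiv.subRight (m : ℤ)).tsum_eq
          (fun j : ℤ => ∫⁻ y, ‖cvv K.ka ((2 : ℝ) ^ j) G y‖ₑ ^ 2)
    _ ≤ C1 * (C2 * (C3 * ∫⁻ y, ‖G y‖ₑ ^ 2)) := by
        gcongr
        exact h3 G hG hGi hG2
    _ = ((C1 * (C2 * C3) : ℝ≥0) : ℝ≥0∞) * ∫⁻ y, ‖G y‖ₑ ^ 2 := by
        push_cast
        ring

end Pool.Agent.Lib.MP_ff3fe0_an_SPH
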