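import Pool.Agent.Lib.MP_ff3fe0_an_SPH.Defs
import Pool.Agent.Lib.MP_ff3fe0_an.Cap

set_option autoImplicit false

/-!
# The normalised surface measure
-/

namespace Pool.Agent.Lib.MP_ff3fe0_an_SPH

open MeasureTheory Metric Set
open scoped ENNReal NNReal ContDiff FourierTransform
open Pool.Agent.Lib.MP_ff3fe0_an

variable {d : ℕ}

open scoped Pointwise in
private theorem sphE_pre (A : E d ≃ₗᵢ[ℝ] E d) (e : Sph d ≃ₜ Sph d)
    (he : ∀ w, (e w : E d) = A w) (s : Set (Sph d)) :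
    Ioo (0 : ℝ) 1 • (((↑) : Sph d → E d) '' (e ⁻¹' s)) =
      A ⁻¹' (Ioo (0 : ℝ) 1 • (((↑) : Sph d → E d) '' s)) := by
  ext z
  simp only [Set.mem_smul, Set.mem_image, Set.mem_preimage]
  constructor
  · rintro ⟨r, hr, _, ⟨w, hw, rfl⟩, rfl⟩
    refine ⟨r, hr, A w, ⟨e w, hw, he w⟩, ?_⟩
    rw [map_smul]
  · rintro ⟨r, hr, _, ⟨v, hv, rfl⟩, h⟩
    refine ⟨r, hr, _, ⟨e.symm v, ?_, rfl⟩, ?_⟩
    · rw [Homeomorph.apply_symm_apply]
      exact hv
    · apply A.injective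
      rw [map_smul, ← h, ← he, Homeomorph.apply_symm_apply]

theorem sigma_prob (hd : 0 < d) : IsProbabilityMeasure (sigma d) := ⟨sigma_univ hd⟩

/-- the homeomorphism of the sphere induced by an isometry -/
private noncomputable def sphE (A : E d ≃ₗᵢ[ℝ] E d) : Sph d ≃ₜ Sph d :=
  A.toHomeomorph.subtype (p := fun x => x ∈ sphere (0 : E d) 1)
    (q := fun x => x ∈ sphere (0 : E d) 1) (by
      intro x
      change x ∈ sphere (0 : E d) 1 ↔ A x ∈ sphere (0 : E d) 1
      rw [mem_sphere_zero_iff_norm, mem_sphere_zero_iff_norm, A.norm_map])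

private theorem sphE_coe (A : E d ≃ₗᵢ[ℝ] E d) (w : Sph d) : (sphE A w : E d) = A w := rfl

private theorem sphE_mp (_hd : 0 < d) (A : E d ≃ₗᵢ[ℝ] E d) :
    MeasurePreserving (sphE A) (sigma d) (sigma d) := by
  refine ⟨(sphE A).measurable, ?_⟩
  ext s hs
  rw [Measure.map_apply (sphE A).measurable hs, sigma, Measure.smul_apply, Measure.smul_apply,
    Measure.toSphere_apply' _ hs, Measure.toSphere_apply' _ ((sphE A).measurable hs)]
  rw [sphE_pre A (sphE A) (sphE_coe A) s,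
    A.measurePreserving.measure_preimage_emb A.toHomeomorph.measurableEmbedding]

theorem lintegral_sigma_isometry (hd : 0 < d) (A : E d ≃ₗᵢ[ℝ] E d) (f : E d → ℝ≥0∞) :
    ∫⁻ w : Sph d, f (A w) ∂(sigma d) = ∫⁻ w : Sph d, f w ∂(sigma d) :=
  (sphE_mp hd A).lintegral_comp_emb (sphE A).measurableEmbedding fun w => f (w : E d)

theorem integral_sigma_isometry (hd : 0 < d) {F : Type*} [NormedAddCommGroup F]
    [NormedSpace ℝ F] (A : E d ≃ₗᵢ[ℝ] E d) (f : E d → F) :
    ∫ w : Sph d, f (A w) ∂(sigma d) = ∫ w : Sph d, f w ∂(sigma d) :=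
  (sphE_mp hd A).integral_comp (sphE A).measurableEmbedding fun w => f (w : E d)

private theorem lintegral_toSphere (hd : 0 < d) (F : Sph d → ℝ≥0∞) :
    ∫⁻ w, F w ∂((volume : Measure (E d)).toSphere) =
      (d * volume (ball (0 : E d) 1)) * ∫⁻ w, F w ∂(sigma d) := by
  have hnt : Nontrivial (E d) := by
    have : Nonempty (Fin d) := ⟨⟨0, hd⟩⟩
    infer_instance
  have hu : (volume : Measure (E d)).toSphere univ = d * volume (ball (0 : E d) 1) := by
    rw [Measure.toSphere_apply_univ, finrank_euclideanSpace_fin]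
  have h0 : (volume : Measure (E d)).toSphere univ ≠ 0 := fun h =>
    (Measure.toSphere_ne_zero (volume : Measure (E d))) (Measure.measure_univ_eq_zero.mp h)
  have ht : (volume : Measure (E d)).toSphere univ ≠ ⊤ := measure_ne_top _ _
  rw [sigma, lintegral_smul_measure, ← hu, smul_eq_mul, ← mul_assoc, ENNReal.mul_inv_cancel h0 ht,
    one_mul]

theorem lintegral_polar (hd : 0 < d) (f : E d → ℝ≥0∞) (hf : Measurable f) :
    ∫⁻ x, f x = (d * volume (ball (0 : E d) 1)) * ∫⁻ r in Ioi (0 : ℝ),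
      ENNReal.ofReal (r ^ (d - 1)) * ∫⁻ w : Sph d, f (r • (w : E d)) ∂(sigma d) := by
  have hnt : Nontrivial (E d) := by
    have : Nonempty (Fin d) := ⟨⟨0, hd⟩⟩
    infer_instance
  have hpr := sigma_prob hd
  have hmeas : Measurable fun p : Sph d × Ioi (0 : ℝ) => f ((p.2 : ℝ) • (p.1 : E d)) := by
    apply hf.comp
    fun_prop
  have h1 : ∫⁻ x, f x = ∫⁻ x : ({(0 : E d)}ᶜ : Set (E d)), f x
      ∂((volume : Measure (E d)).comap (↑)) := by
    rw [lintegral_subtype_comap (measurableSet_singleton _).compl, restrict_compl_singleton]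
  have h2 : ∫⁻ x : ({(0 : E d)}ᶜ : Set (E d)), f x ∂((volume : Measure (E d)).comap (↑)) =
      ∫⁻ p, f ((p.2 : ℝ) • (p.1 : E d)) ∂((volume : Measure (E d)).toSphere.prod
        (.volumeIoiPow (Module.finrank ℝ (E d) - 1))) := by
    rw [← (volume : Measure (E d)).measurePreserving_homeomorphUnitSphereProd.lintegral_comp hmeas]
    refine lintegral_congr fun x => ?_
    have hx : ‖(x : E d)‖ ≠ 0 := norm_ne_zero_iff.mpr x.2
    simp [smul_smul, mul_inv_cancel₀ hx]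
  have hH : Measurable fun r : ℝ => ∫⁻ w : Sph d, f (r • (w : E d)) ∂(sigma d) := by
    have : Measurable (Function.uncurry fun (r : ℝ) (w : Sph d) => f (r • (w : E d))) := by
      apply hf.comp
      fun_prop
    exact this.lintegral_prod_right
  rw [h1, h2, lintegral_prod_symm _ hmeas.aemeasurable, finrank_euclideanSpace_fin]
  simp only [lintegral_toSphere hd]
  rw [Measure.volumeIoiPow, lintegral_withDensity_eq_lintegral_mul _ (by fun_prop)
    (by fun_prop)]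
  simp only [Pi.mul_apply]
  rw [lintegral_subtype_comap measurableSet_Ioi fun r : ℝ => ENNReal.ofReal (r ^ (d - 1)) *
    (d * volume (ball (0 : E d) 1) * ∫⁻ w : Sph d, f (r • (w : E d)) ∂(sigma d))]
  rw [← lintegral_const_mul _ (by fun_prop)]
  refine lintegral_congr fun r => ?_
  ring

theorem polar_ann (hd : 0 < d) : ∃ C : ℝ≥0, ∀ f : E d → ℝ≥0∞, Measurable f → ∀ x : E d,
    ∫⁻ r in Icc (1 / 4 : ℝ) 3, ∫⁻ w : Sph d, f (x - r • (w : E d)) ∂(sigma d)
      ≤ C * ∫⁻ y in closedBall x 3, f y := by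
  have hd0 : (d : ℝ≥0∞) ≠ 0 := by
    simp only [ne_eq, Nat.cast_eq_zero]
    omega
  have hb0 : volume (ball (0 : E d) 1) ≠ 0 := (measure_ball_pos _ _ one_pos).ne'
  have hbt : volume (ball (0 : E d) 1) ≠ ⊤ := measure_ball_lt_top.ne
  have hq0 : ENNReal.ofReal ((1 / 4 : ℝ) ^ (d - 1)) ≠ 0 := by
    rw [ne_eq, ENNReal.ofReal_eq_zero, not_le]
    positivity
  have hc0 : (d * volume (ball (0 : E d) 1)) * ENNReal.ofReal ((1 / 4 : ℝ) ^ (d - 1)) ≠ 0 :=
    mul_ne_zero (mul_ne_zero hd0 hb0) hq0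
  have hct : (d * volume (ball (0 : E d) 1)) * ENNReal.ofReal ((1 / 4 : ℝ) ^ (d - 1)) ≠ ⊤ :=
    ENNReal.mul_ne_top (ENNReal.mul_ne_top (by simp) hbt) ENNReal.ofReal_ne_top
  refine ⟨((d * volume (ball (0 : E d) 1)) *
    ENNReal.ofReal ((1 / 4 : ℝ) ^ (d - 1)))⁻¹.toNNReal, fun f hf x => ?_⟩
  rw [ENNReal.coe_toNNReal (ENNReal.inv_ne_top.mpr hc0), mul_comm, ← div_eq_mul_inv,
    ENNReal.le_div_iff_mul_le (Or.inl hc0) (Or.inl hct)]
  have hg : Measurable fun y => (closedBall x 3).indicator f (x - y) :=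
    (hf.indicator measurableSet_closedBall).comp (measurable_const.sub measurable_id)
  have h1 : ∫⁻ y in closedBall x 3, f y = ∫⁻ y, (closedBall x 3).indicator f (x - y) := by
    rw [lintegral_sub_left_eq_self (fun y => (closedBall x 3).indicator f y) x,
      lintegral_indicator measurableSet_closedBall]
  rw [h1, lintegral_polar hd _ hg]
  have h2 : ∫⁻ r in Icc (1 / 4 : ℝ) 3, ENNReal.ofReal ((1 / 4 : ℝ) ^ (d - 1)) *
      ∫⁻ w : Sph d, f (x - r • (w : E d)) ∂(sigma d) ≤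
      ∫⁻ r in Ioi (0 : ℝ), ENNReal.ofReal (r ^ (d - 1)) *
        ∫⁻ w : Sph d, (closedBall x 3).indicator f (x - r • (w : E d)) ∂(sigma d) := by
    have h3 : Icc (1 / 4 : ℝ) 3 ⊆ Ioi (0 : ℝ) := fun r hr => by
      rw [mem_Ioi]
      linarith [hr.1]
    refine le_trans ?_ (lintegral_mono_set h3)
    refine setLIntegral_mono' measurableSet_Icc fun r hr => ?_
    have h4 : (0 : ℝ) ≤ r := by linarith [hr.1]
    refine mul_le_mul' (ENNReal.ofReal_le_ofReal (pow_le_pow_left₀ (by norm_num) hr.1 _)) ?_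
    refine lintegral_mono fun w => ?_
    rw [indicator_of_mem]
    rw [mem_closedBall, dist_eq_norm, sub_sub_cancel_left, norm_neg, norm_smul,
      Real.norm_of_nonneg h4, norm_eq_of_mem_sphere w, mul_one]
    exact hr.2
  have hcn : ENNReal.ofReal ((1 / 4 : ℝ) ^ (d - 1)) ≠ ⊤ := ENNReal.ofReal_ne_top
  rw [lintegral_const_mul' _ _ hcn] at h2
  calc (∫⁻ r in Icc (1 / 4 : ℝ) 3, ∫⁻ w : Sph d, f (x - r • (w : E d)) ∂(sigma d)) *
        ((d * volume (ball (0 : E d) 1)) * ENNReal.ofReal ((1 / 4 : ℝ) ^ (d - 1))) =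
      (d * volume (ball (0 : E d) 1)) * (ENNReal.ofReal ((1 / 4 : ℝ) ^ (d - 1)) *
        ∫⁻ r in Icc (1 / 4 : ℝ) 3, ∫⁻ w : Sph d, f (x - r • (w : E d)) ∂(sigma d)) := by ring
    _ ≤ _ := mul_le_mul' le_rfl h2

end Pool.Agent.Lib.MP_ff3fe0_an_SPH
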