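import Pool.Agent.Lib.MP_ff3fe0_an_SPH.ThA
import Pool.Agent.Lib.MP_ff3fe0_an_SPH.SigA

set_option autoImplicit false

/-!
# The source measures
-/

namespace Pool.Agent.Lib.MP_ff3fe0_an_SPH

open MeasureTheory Metric Set
open scoped ENNReal NNReal ContDiff FourierTransform
open Pool.Agent.Lib.MP_ff3fe0_an

variable {d : ℕ}

private theorem sc_anti {m n : ℕ} (h : m ≤ n) : sc n ≤ sc m :=
  pow_le_pow_of_le_one (by norm_num) (by norm_num) h

private theorem sc_nonneg (n : ℕ) : 0 ≤ sc n := by unfold sc; positivity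

private theorem sc_succ (n : ℕ) : sc n / 2 = sc (n + 1) := by unfold sc; rw [pow_succ]; ring

private theorem sc_le_one (n : ℕ) : sc n ≤ 1 := pow_le_one₀ (by norm_num) (by norm_num)

private theorem RR_ge {k m n : ℕ} (hn : n ∈ RR k m) : k - 1 ≤ n := by
  unfold RR at hn
  simp only [Finset.mem_insert, Finset.mem_singleton] at hn
  rcases hn with h | h | h
  · omega
  · omega
  · rw [h]
    exact le_trans (Nat.sub_le k 1) (le_max_left k m)

private theorem u_le {k m n : ℕ} (hn : n ∈ RR k m) {u : ℝ} (hu : |u| ≤ sc n / 2) :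
    |u| ≤ sc k := by
  have h1 := RR_ge hn
  rcases Nat.eq_zero_or_pos k with h | h
  · subst h
    have := sc_le_one n
    have h2 : sc 0 = 1 := pow_zero _
    rw [h2]
    linarith
  · have h3 : sc n / 2 ≤ sc (k - 1) / 2 := by
      have := sc_anti h1
      linarith
    have h4 : sc (k - 1) / 2 = sc k := by
      rw [sc_succ]
      congr 1
      omega
    linarith

private theorem Th_comp {k m n : ℕ} (hn : n ∈ RR k m) {u : ℝ}
    (hu : |u| ≤ sc n / 2) (s : ℝ) : Th m (s - u) ≤ 4 * 2 ^ (m - k) * Th (min k m) s := by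
  have h1 := u_le hn hu
  have h2 : ∀ j, j ≤ k → Th j (s - u) ≤ 4 * Th j s := by
    intro j hj
    have h3 := Th_shift (n := j) (s := s - u) (r := -u) (by
      rw [abs_neg]
      exact h1.trans (sc_anti hj))
    rwa [sub_neg_eq_add, sub_add_cancel] at h3
  rcases le_or_gt m k with h | h
  · rw [min_eq_right h, Nat.sub_eq_zero_of_le h, pow_zero, mul_one]
    exact h2 m h
  · rw [min_eq_left h.le]
    calc Th m (s - u) ≤ 2 ^ (m - k) * Th k (s - u) := Th_mono h.le _
      _ ≤ 2 ^ (m - k) * (4 * Th k s) := mul_le_mul' le_rfl (h2 k le_rfl)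
      _ = _ := by ring

private theorem measurable_inner {P : ℕ → E d → ℝ≥0∞} (hP : ∀ m, Measurable (P m)) (x : E d)
    (t : ℝ) (j m : ℕ) : Measurable (Function.uncurry fun (c : Sph d) (s : ℝ) =>
      Th j s * P m (x - (t + s) • (c : E d))) := by
  have h1 : Measurable fun p : Sph d × ℝ => Th j p.2 := (measurable_Th j).comp measurable_snd
  have h2 : Measurable fun p : Sph d × ℝ => P m (x - (t + p.2) • (p.1 : E d)) := by
    apply (hP m).comp
    fun_prop
  exact h1.mul h2

theorem measurable_pden (k : ℕ) {P : ℕ → E d → ℝ≥0∞} (hP : ∀ m, Measurable (P m)) (x : E d)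
    (t : ℝ) : Measurable (pden P k x t) := by
  unfold pden
  refine Measurable.tsum fun m => Measurable.const_mul ?_ _
  exact (measurable_inner hP x t (min k m) m).lintegral_prod_right

private theorem piK_univ (k : ℕ) (P : ℕ → E d → ℝ≥0∞) (x : E d) (t : ℝ) :
    piK P k x t univ = ∫⁻ c : Sph d, pden P k x t c ∂(sigma d) := by
  unfold piK
  rw [withDensity_apply _ MeasurableSet.univ, Measure.restrict_univ]

/-- (4c). -/
theorem mass_le (hd : 0 < d) (k m n : ℕ) (hm : 1 ≤ m) (hn : n ∈ RR k m)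
    {P : ℕ → E d → ℝ≥0∞} (hP : ∀ m, Measurable (P m)) {q : E d → ℝ} (hq : Measurable q)
    {θ : ℝ≥0∞} (h0 : θ ≠ 0) (h1 : θ ≠ ⊤) (hθ : ∀ y, θ * fat m q y ≤ P m y) (x : E d) (t : ℝ)
    {u : ℝ} (hu : |u| ≤ sc n / 2) :
    ∫⁻ w : Sph d, nm m q x (t + u) w ∂(sigma d) ≤ 16 * KK k m * θ⁻¹ * piK P k x t univ := by
  have hkey : ∀ w : Sph d, nm m q x (t + u) w ≤ 16 * KK k m * θ⁻¹ * pden P k x t w := by
    intro w
    have hfat : ∀ y, fat m q y ≤ θ⁻¹ * P m y := by
      intro y
      calc fat m q y = θ⁻¹ * (θ * fat m q y) := by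
            rw [← mul_assoc, ENNReal.inv_mul_cancel h0 h1, one_mul]
        _ ≤ _ := mul_le_mul' le_rfl (hθ y)
    have e1 : nm m q x (t + u) w ≤ ∫⁻ s, (Icc (-(3 / 4) : ℝ) (3 / 4)).indicator
        (fun s => θ⁻¹ * (4 * 2 ^ (m - k)) * (Th (min k m) s * P m (x - (t + s) • (w : E d))))
        (s + u) := by
      unfold nm
      rw [← lintegral_indicator measurableSet_Icc]
      refine lintegral_mono fun s => ?_
      by_cases hs : s ∈ Icc (-(1 / 4) : ℝ) (1 / 4)
      · have hu2 : |u| ≤ 1 / 2 := by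
          have := sc_le_one n
          linarith
        have hsu : s + u ∈ Icc (-(3 / 4) : ℝ) (3 / 4) := by
          have := abs_le.mp hu2
          constructor
          · linarith [hs.1, this.1]
          · linarith [hs.2, this.2]
        rw [indicator_of_mem hs, indicator_of_mem hsu]
        have e2 := Th_comp hn hu (s + u)
        rw [add_sub_cancel_right] at e2
        have e3 := hfat (x - (t + u + s) • (w : E d))
        have e4 : t + u + s = t + (s + u) := by ring
        rw [e4] at e3 ⊢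
        calc Th m s * fat m q (x - (t + (s + u)) • (w : E d)) ≤
            (4 * 2 ^ (m - k) * Th (min k m) (s + u)) *
              (θ⁻¹ * P m (x - (t + (s + u)) • (w : E d))) := mul_le_mul' e2 e3
          _ = _ := by ring
      · rw [indicator_of_notMem hs]
        exact zero_le
    rw [lintegral_add_right_eq_self (fun s => (Icc (-(3 / 4) : ℝ) (3 / 4)).indicator
        (fun s => θ⁻¹ * (4 * 2 ^ (m - k)) *
          (Th (min k m) s * P m (x - (t + s) • (w : E d)))) s) u,
      lintegral_indicator measurableSet_Icc, lintegral_const_mul' _ _ (by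
        refine ENNReal.mul_ne_top (ENNReal.inv_ne_top.mpr h0) (ENNReal.mul_ne_top (by norm_num) ?_)
        exact ENNReal.pow_ne_top (by norm_num))] at e1
    refine e1.trans ?_
    set I := ∫⁻ s in Icc (-(3 / 4) : ℝ) (3 / 4), Th (min k m) s * P m (x - (t + s) • (w : E d))
      with hI
    have e5 : (3 / 4 : ℝ≥0∞) ^ (k - m) * I ≤ pden P k x t w := by
      unfold pden
      exact ENNReal.le_tsum (f := fun m => (3 / 4 : ℝ≥0∞) ^ (k - m) *
        ∫⁻ s in Icc (-(3 / 4) : ℝ) (3 / 4), Th (min k m) s * P m (x - (t + s) • (w : E d))) m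
    have e6 : (4 / 3 : ℝ≥0∞) ^ (k - m) * (3 / 4 : ℝ≥0∞) ^ (k - m) = 1 := by
      rw [← mul_pow]
      have : (4 / 3 : ℝ≥0∞) * (3 / 4) = 1 := by
        rw [ENNReal.div_eq_inv_mul, ENNReal.div_eq_inv_mul, mul_mul_mul_comm, mul_comm 4 3,
          mul_comm (3⁻¹ : ℝ≥0∞) 4⁻¹, ← ENNReal.mul_inv (by norm_num) (by norm_num),
          mul_comm (4 : ℝ≥0∞) 3]
        exact ENNReal.inv_mul_cancel (by norm_num) (by finiteness)
      rw [this, one_pow]
    calc θ⁻¹ * (4 * 2 ^ (m - k)) * I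
        = θ⁻¹ * (4 * 2 ^ (m - k)) *
            (((4 / 3 : ℝ≥0∞) ^ (k - m) * (3 / 4 : ℝ≥0∞) ^ (k - m)) * I) := by
          rw [e6, one_mul]
      _ = 4 * ((4 / 3) ^ (k - m) * 2 ^ (m - k)) * θ⁻¹ * ((3 / 4) ^ (k - m) * I) := by ring
      _ ≤ 16 * ((4 / 3) ^ (k - m) * 2 ^ (m - k)) * θ⁻¹ * pden P k x t w := by
          gcongr
          norm_num
      _ = _ := by rw [KK]
  calc ∫⁻ w : Sph d, nm m q x (t + u) w ∂(sigma d)
      ≤ ∫⁻ w : Sph d, 16 * KK k m * θ⁻¹ * pden P k x t w ∂(sigma d) := lintegral_mono hkey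
    _ = 16 * KK k m * θ⁻¹ * ∫⁻ w : Sph d, pden P k x t w ∂(sigma d) :=
        lintegral_const_mul _ (measurable_pden k hP x t)
    _ = _ := by rw [piK_univ]

/-- Choice of a vector which is at most the average. -/
theorem choice {ν : Measure (Sph d)} (h0 : ν univ ≠ 0) (h1 : ν univ ≠ ⊤) {f : Sph d → ℝ≥0∞}
    (hf : Measurable f) : ∃ c : Sph d, f c ≤ (ν univ)⁻¹ * ∫⁻ a, f a ∂ν := by
  by_contra hcon
  push Not at hcon
  have hν : ν ≠ 0 := fun h => h0 (by rw [h]; rfl)
  have hfin : ∫⁻ a, f a ∂ν ≠ ⊤ := by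
    intro h
    have hne : Nonempty (Sph d) := by
      by_contra hemp
      rw [not_nonempty_iff] at hemp
      exact h0 (by rw [univ_eq_empty_iff.mpr hemp, measure_empty])
    obtain ⟨c⟩ := hne
    have h2 := hcon c
    rw [h, ENNReal.mul_top (ENNReal.inv_ne_zero.mpr h1)] at h2
    exact absurd h2 not_top_lt
  have hfinm : IsFiniteMeasure ν := ⟨lt_top_iff_ne_top.mpr h1⟩
  obtain ⟨c, hc⟩ := exists_le_laverage hν hf.aemeasurable
  have h3 := hcon c
  rw [laverage_eq, ENNReal.div_eq_inv_mul] at hc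
  exact absurd hc (not_le.mpr h3)

/-- Finiteness of the source measure. -/
theorem piK_fin (hd : 0 < d) (k : ℕ) {P : ℕ → E d → ℝ≥0∞} (hP : ∀ m, Measurable (P m))
    (h : ∑' m, ∫⁻ y, P m y ≠ ⊤) (x : E d) {t : ℝ} (ht : t ∈ Icc (1 : ℝ) 2) :
    piK P k x t univ ≠ ⊤ := by
  have hpr := sigma_prob hd
  obtain ⟨C, hC⟩ := polar_ann hd
  have hb : ∀ m, ∫⁻ c : Sph d, ((3 / 4 : ℝ≥0∞) ^ (k - m) *
      (∫⁻ s in Icc (-(3 / 4) : ℝ) (3 / 4), Th (min k m) s * P m (x - (t + s) • (c : E d))))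
      ∂(sigma d) ≤ 2 ^ k * C * ∫⁻ y, P m y := by
    intro m
    have e1 : ∀ c : Sph d, (3 / 4 : ℝ≥0∞) ^ (k - m) *
        ∫⁻ s in Icc (-(3 / 4) : ℝ) (3 / 4), Th (min k m) s * P m (x - (t + s) • (c : E d)) ≤
        2 ^ k * ∫⁻ r in Icc (1 / 4 : ℝ) 3, P m (x - r • (c : E d)) := by
      intro c
      have e2 : (3 / 4 : ℝ≥0∞) ^ (k - m) ≤ 1 := by
        refine pow_le_one₀ zero_le ?_
        refine ENNReal.div_le_of_le_mul ?_
        norm_num
      have e3 : ∫⁻ s in Icc (-(3 / 4) : ℝ) (3 / 4),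
          Th (min k m) s * P m (x - (t + s) • (c : E d)) ≤
          ∫⁻ s, (Icc (1 / 4 : ℝ) 3).indicator (fun r => 2 ^ k * P m (x - r • (c : E d)))
            (s + t) := by
        rw [← lintegral_indicator measurableSet_Icc]
        refine lintegral_mono fun s => ?_
        by_cases hs : s ∈ Icc (-(3 / 4) : ℝ) (3 / 4)
        · have hst : s + t ∈ Icc (1 / 4 : ℝ) 3 := by
            constructor
            · linarith [hs.1, ht.1]
            · linarith [hs.2, ht.2]
          rw [indicator_of_mem hs, indicator_of_mem hst, add_comm t s]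
          refine mul_le_mul' ((Th_le _ _).trans ?_) le_rfl
          exact pow_le_pow_right₀ (by norm_num) (min_le_left k m)
        · rw [indicator_of_notMem hs]
          exact zero_le
      rw [lintegral_add_right_eq_self (fun s => (Icc (1 / 4 : ℝ) 3).indicator
        (fun r => 2 ^ k * P m (x - r • (c : E d))) s) t,
        lintegral_indicator measurableSet_Icc, lintegral_const_mul' _ _
          (ENNReal.pow_ne_top (by norm_num))] at e3
      calc _ ≤ 1 * (2 ^ k * ∫⁻ r in Icc (1 / 4 : ℝ) 3, P m (x - r • (c : E d))) :=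
            mul_le_mul' e2 e3
        _ = _ := one_mul _
    have e4 : Measurable (Function.uncurry fun (c : Sph d) (r : ℝ) =>
        P m (x - r • (c : E d))) := by
      apply (hP m).comp
      fun_prop
    calc _ ≤ ∫⁻ c : Sph d, (2 ^ k * (∫⁻ r in Icc (1 / 4 : ℝ) 3, P m (x - r • (c : E d))))
            ∂(sigma d) := lintegral_mono e1
      _ = 2 ^ k * ∫⁻ c : Sph d, (∫⁻ r in Icc (1 / 4 : ℝ) 3, P m (x - r • (c : E d)))
            ∂(sigma d) :=
          lintegral_const_mul' _ _ (ENNReal.pow_ne_top (by norm_num))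
      _ = 2 ^ k * ∫⁻ r in Icc (1 / 4 : ℝ) 3, ∫⁻ c : Sph d, P m (x - r • (c : E d)) ∂(sigma d) := by
          rw [lintegral_lintegral_swap e4.aemeasurable]
      _ ≤ 2 ^ k * (C * ∫⁻ y in closedBall x 3, P m y) := mul_le_mul' le_rfl (hC _ (hP m) x)
      _ ≤ 2 ^ k * (C * ∫⁻ y, P m y) :=
          mul_le_mul' le_rfl (mul_le_mul' le_rfl (setLIntegral_le_lintegral _ _))
      _ = _ := by ring
  rw [piK_univ]
  unfold pden
  rw [lintegral_tsum fun m => (Measurable.const_mul
    (measurable_inner hP x t (min k m) m).lintegral_prod_right _).aemeasurable]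
  have h2 := ENNReal.tsum_le_tsum hb
  rw [ENNReal.tsum_mul_left] at h2
  refine ne_top_of_le_ne_top ?_ h2
  exact ENNReal.mul_ne_top (ENNReal.mul_ne_top (ENNReal.pow_ne_top (by norm_num))
    ENNReal.coe_ne_top) h

private theorem lint_ne_zero {f : ℝ → ℝ≥0∞} (hf : Measurable f)
    (h : ∀ s ∈ Icc (-(3 / 4) : ℝ) (3 / 4), f s ≠ 0) :
    ∫⁻ s in Icc (-(3 / 4) : ℝ) (3 / 4), f s ≠ 0 := by
  intro h0
  rw [lintegral_eq_zero_iff hf] at h0
  have h1 : ∀ᵐ s ∂(volume.restrict (Icc (-(3 / 4) : ℝ) (3 / 4))), False := by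
    filter_upwards [h0, ae_restrict_mem measurableSet_Icc] with s h2 h3
    exact h s h3 h2
  rw [ae_iff] at h1
  simp only [not_false_eq_true, Set.ofPred_true, Measure.restrict_apply_univ, Real.volume_Icc] at h1
  norm_num at h1

theorem piK_pos (hd : 0 < d) (k m : ℕ) {P : ℕ → E d → ℝ≥0∞} (hP : ∀ m, Measurable (P m))
    (x : E d) {t : ℝ} (ht : t ∈ Icc (1 : ℝ) 2) (h : ∀ y ∈ closedBall x 3, P m y ≠ 0) :
    piK P k x t univ ≠ 0 := by
  have hpr := sigma_prob hd
  have h1 : ∀ c : Sph d, pden P k x t c ≠ 0 := by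
    intro c hc
    unfold pden at hc
    rw [ENNReal.tsum_eq_zero] at hc
    have h2 := hc m
    rw [mul_eq_zero] at h2
    rcases h2 with h2 | h2
    · have h3 : (3 / 4 : ℝ≥0∞) ^ (k - m) ≠ 0 := by
        refine pow_ne_zero _ ?_
        rw [ne_eq, ENNReal.div_eq_zero_iff]
        push Not
        exact ⟨by norm_num, by finiteness⟩
      exact h3 h2
    · have hms : Measurable fun s : ℝ => Th (min k m) s * P m (x - (t + s) • (c : E d)) :=
        (measurable_inner hP x t (min k m) m).of_uncurry_left (x := c)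
      refine lint_ne_zero hms (fun s hs => ?_) h2
      refine mul_ne_zero (Th_pos _ _) (h _ ?_)
      have h4 : 0 ≤ t + s := by linarith [hs.1, ht.1]
      rw [mem_closedBall, dist_eq_norm, sub_sub_cancel_left, norm_neg, norm_smul,
        Real.norm_of_nonneg h4, norm_eq_of_mem_sphere c, mul_one]
      linarith [hs.2, ht.2]
  rw [piK_univ]
  intro h0
  rw [lintegral_eq_zero_iff (measurable_pden k hP x t)] at h0
  have h5 : sigma d univ = 0 := by
    refine measure_mono_null ?_ h0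
    intro c _
    exact h1 c
  rw [sigma_univ hd] at h5
  exact one_ne_zero h5

end Pool.Agent.Lib.MP_ff3fe0_an_SPH
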