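import Pool.Agent.Lib.MP_ff3fe0_an_SPH.SrcA
import Pool.Agent.Lib.MP_ff3fe0_an_SPH.SrcB
import Pool.Agent.Lib.MP_ff3fe0_an_SPH.BilB
import Pool.Agent.Lib.MP_ff3fe0_an_SPH.GmA

set_option autoImplicit false

/-!
# The high pieces
-/

namespace Pool.Agent.Lib.MP_ff3fe0_an_SPH

open MeasureTheory Metric Set
open scoped ENNReal NNReal ContDiff FourierTransform
open Pool.Agent.Lib.MP_ff3fe0_an

variable {d : ℕ}

private theorem highA_sc_pos (n : ℕ) : 0 < sc n := by unfold sc; positivity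

private theorem highA_sc_le_one (n : ℕ) : sc n ≤ 1 :=
  pow_le_one₀ (by norm_num) (by norm_num)

private theorem highA_sc_anti {n n' : ℕ} (h : n ≤ n') : sc n' ≤ sc n :=
  pow_le_pow_of_le_one (by norm_num) (by norm_num) h

/-- The radii of the averages. -/
private theorem highA_sc_RR {k m n : ℕ} (hn : n ∈ RR k m) : sc n / 2 ≤ sc k := by
  have h0 := highA_sc_pos k
  have h3 : ∀ l, k ≤ l → sc l / 2 ≤ sc k := fun l hl => by
    have := highA_sc_anti hl
    linarith
  have h1 : n = k - 1 ∨ n = k ∨ n = max k m := by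
    simpa [RR] using hn
  rcases h1 with h1 | h1 | h1
  · rcases Nat.eq_zero_or_pos k with hk | hk
    · exact h3 n (by omega)
    · obtain ⟨l, rfl⟩ : ∃ l, k = l + 1 := ⟨k - 1, by omega⟩
      have h4 : n = l := by omega
      rw [h4]
      unfold sc
      rw [pow_succ]
      apply le_of_eq
      ring
  · exact h3 n (by omega)
  · exact h3 n (by omega)

/-- The total mass of the average. -/
private theorem highA_one (n : ℕ) (A : ℝ≥0∞) :
    2 ^ n * ∫⁻ _ in Icc (-(sc n / 2)) (sc n / 2), A = A := by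
  rw [setLIntegral_const, Real.volume_Icc]
  have h1 : sc n / 2 - -(sc n / 2) = sc n := by ring
  rw [h1]
  have h2 : (2 : ℝ≥0∞) ^ n = ENNReal.ofReal ((2 : ℝ) ^ n) := by
    rw [ENNReal.ofReal_pow (by norm_num)]
    norm_num
  rw [h2, mul_left_comm, ← ENNReal.ofReal_mul (by positivity)]
  have h3 : (2 : ℝ) ^ n * sc n = 1 := by
    unfold sc
    rw [← mul_pow]
    norm_num
  rw [h3]
  simp

private theorem highA_meas_fat {m : ℕ} {q : E d → ℝ} (hq : Measurable q) (x : E d) :
    Measurable (fun z : ℝ × Sph d => fat m q (x - z.1 • (z.2 : E d))) := by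
  apply (measurable_fat m hq).comp
  apply Continuous.measurable
  fun_prop

private theorem highA_meas_nm {m : ℕ} {q : E d → ℝ} (hq : Measurable q) (x : E d) (t : ℝ) :
    Measurable (fun z : ℝ × Sph d => nm m q x (t + z.1) z.2) := by
  have h : Measurable (fun (p : (ℝ × Sph d) × ℝ) =>
      Th m p.2 * fat m q (x - (t + p.1.1 + p.2) • (p.1.2 : E d))) := by
    apply Measurable.mul
    · exact (measurable_Th m).comp measurable_snd
    · apply (measurable_fat m hq).comp
      apply Continuous.measurable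
      fun_prop
  exact h.lintegral_prod_right'

private theorem highA_meas_nm1 {m : ℕ} {q : E d → ℝ} (hq : Measurable q) (x : E d) (t : ℝ)
    (w : Sph d) : Measurable (fun u : ℝ => nm m q x (t + u) w) := by
  have h : Measurable (fun (p : ℝ × ℝ) =>
      Th m p.2 * fat m q (x - (t + p.1 + p.2) • (w : E d))) := by
    apply Measurable.mul
    · exact (measurable_Th m).comp measurable_snd
    · apply (measurable_fat m hq).comp
      apply Continuous.measurable
      fun_prop
  exact h.lintegral_prod_right'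

private theorem highA_meas_nm' {m : ℕ} {q : E d → ℝ} (hq : Measurable q) (x : E d) (t : ℝ) :
    Measurable (fun z : Sph d × ℝ => nm m q x (t + z.2) z.1) := by
  have h : Measurable (fun (p : (Sph d × ℝ) × ℝ) =>
      Th m p.2 * fat m q (x - (t + p.1.2 + p.2) • (p.1.1 : E d))) := by
    apply Measurable.mul
    · exact (measurable_Th m).comp measurable_snd
    · apply (measurable_fat m hq).comp
      apply Continuous.measurable
      fun_prop
  exact h.lintegral_prod_right'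

private theorem highA_meas_avr {m : ℕ} {q : E d → ℝ} (hq : Measurable q) (n : ℕ) (x : E d)
    (t : ℝ) : Measurable (fun w : Sph d => Avr n (fun s => nm m q x s w) t) := by
  have h : Measurable (fun (p : Sph d × ℝ) => nm m q x (t + p.2) p.1) :=
    highA_meas_nm' hq x t
  have h1 : Measurable (fun w : Sph d => ∫⁻ r in Icc (-(sc n / 2)) (sc n / 2),
      nm m q x (t + r) w) := h.lintegral_prod_right'
  exact h1.const_mul _

/-- The average of the pointwise bound. -/
private theorem highA_avr_le (hd : 0 < d) {X : ℝ → ℝ≥0∞} {C : ℝ≥0} {m : ℕ} {q : E d → ℝ}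
    {c x : E d} (h : ∀ t, X t ≤
      C * ∫⁻ w : Sph d, ‖(w : E d) - c‖ₑ * nm m q x t w ∂(sigma d))
    (hq : Measurable q) (n : ℕ) (t : ℝ) :
    Avr n X t ≤ C * ∫⁻ w : Sph d, ‖(w : E d) - c‖ₑ * Avr n (fun s => nm m q x s w) t
      ∂(sigma d) := by
  have := sigma_prob hd
  have h1 : ∫⁻ r in Icc (-(sc n / 2)) (sc n / 2), X (t + r) ≤
      C * ∫⁻ r in Icc (-(sc n / 2)) (sc n / 2), ∫⁻ w : Sph d,
        ‖(w : E d) - c‖ₑ * nm m q x (t + r) w ∂(sigma d) := by
    rw [← lintegral_const_mul' _ _ ENNReal.coe_ne_top]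
    exact lintegral_mono fun r => h (t + r)
  have h2 : ∫⁻ r in Icc (-(sc n / 2)) (sc n / 2), ∫⁻ w : Sph d,
        ‖(w : E d) - c‖ₑ * nm m q x (t + r) w ∂(sigma d) =
      ∫⁻ w : Sph d, (∫⁻ r in Icc (-(sc n / 2)) (sc n / 2),
        ‖(w : E d) - c‖ₑ * nm m q x (t + r) w) ∂(sigma d) := by
    apply lintegral_lintegral_swap
    apply Measurable.aemeasurable
    apply Measurable.mul
    · apply Continuous.measurable
      fun_prop
    · exact highA_meas_nm hq x t
  have h3 : ∀ w : Sph d, 2 ^ n * ∫⁻ r in Icc (-(sc n / 2)) (sc n / 2),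
        ‖(w : E d) - c‖ₑ * nm m q x (t + r) w =
      ‖(w : E d) - c‖ₑ * Avr n (fun s => nm m q x s w) t := fun w => by
    rw [lintegral_const_mul' _ _ enorm_ne_top]
    unfold Avr
    ring
  calc Avr n X t = 2 ^ n * ∫⁻ r in Icc (-(sc n / 2)) (sc n / 2), X (t + r) := rfl
    _ ≤ 2 ^ n * (C * ∫⁻ w : Sph d, (∫⁻ r in Icc (-(sc n / 2)) (sc n / 2),
        ‖(w : E d) - c‖ₑ * nm m q x (t + r) w) ∂(sigma d)) := by
      rw [← h2]
      exact mul_le_mul_right h1 _
    _ = C * ∫⁻ w : Sph d, (2 ^ n * ∫⁻ r in Icc (-(sc n / 2)) (sc n / 2),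
        ‖(w : E d) - c‖ₑ * nm m q x (t + r) w) ∂(sigma d) := by
      rw [lintegral_const_mul' _ _ (by simp)]
      ring
    _ = _ := by
      congr 1
      exact lintegral_congr h3

/-- The mass of the averaged piece. -/
private theorem highA_nu_le (hd : 0 < d) {k m n : ℕ} (hm : 1 ≤ m) (hn : n ∈ RR k m)
    {P : ℕ → E d → ℝ≥0∞} (hP : ∀ m, Measurable (P m)) {q : E d → ℝ} (hq : Measurable q)
    {θ : ℝ≥0∞} (h0 : θ ≠ 0) (h1 : θ ≠ ⊤) (hθ : ∀ y, θ * fat m q y ≤ P m y) (x : E d) (t : ℝ) :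
    ∫⁻ w : Sph d, Avr n (fun s => nm m q x s w) t ∂(sigma d) ≤
      16 * KK k m * θ⁻¹ * piK P k x t univ := by
  have := sigma_prob hd
  have h2 : ∫⁻ w : Sph d, (∫⁻ r in Icc (-(sc n / 2)) (sc n / 2), nm m q x (t + r) w)
        ∂(sigma d) =
      ∫⁻ r in Icc (-(sc n / 2)) (sc n / 2), ∫⁻ w : Sph d, nm m q x (t + r) w ∂(sigma d) := by
    apply lintegral_lintegral_swap
    apply Measurable.aemeasurable
    exact highA_meas_nm' hq x t
  calc ∫⁻ w : Sph d, Avr n (fun s => nm m q x s w) t ∂(sigma d)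
      = 2 ^ n * ∫⁻ r in Icc (-(sc n / 2)) (sc n / 2), ∫⁻ w : Sph d,
          nm m q x (t + r) w ∂(sigma d) := by
        rw [← h2, ← lintegral_const_mul' _ _ (by simp)]
        rfl
    _ ≤ 2 ^ n * ∫⁻ _ in Icc (-(sc n / 2)) (sc n / 2),
          16 * KK k m * θ⁻¹ * piK P k x t univ := by
        apply mul_le_mul_right
        apply setLIntegral_mono' measurableSet_Icc
        intro u hu
        apply mass_le hd k m n hm hn hP hq h0 h1 hθ x t
        rw [abs_le]
        exact ⟨by linarith [hu.1], hu.2⟩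
    _ = _ := highA_one n _

/-- The inequality of Cauchy and Schwarz. -/
private theorem highA_cs {X : Type*} [MeasurableSpace X] (μ : Measure X) {f : X → ℝ≥0∞}
    (hf : AEMeasurable f μ) : (∫⁻ x, f x ∂μ) ^ 2 ≤ μ univ * ∫⁻ x, f x ^ 2 ∂μ := by
  have h := ENNReal.lintegral_mul_le_Lp_mul_Lq μ Real.HolderConjugate.two_two
    (f := fun _ => 1) (g := f) aemeasurable_const hf
  have h1 : ∫⁻ x, f x ∂μ ≤ (μ univ) ^ (1 / 2 : ℝ) * (∫⁻ x, f x ^ 2 ∂μ) ^ (1 / 2 : ℝ) := by
    simpa using h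
  calc (∫⁻ x, f x ∂μ) ^ 2
      ≤ ((μ univ) ^ (1 / 2 : ℝ) * (∫⁻ x, f x ^ 2 ∂μ) ^ (1 / 2 : ℝ)) ^ 2 := by
        gcongr
    _ = _ := by
        rw [mul_pow, ← ENNReal.rpow_natCast, ← ENNReal.rpow_natCast, ← ENNReal.rpow_mul,
          ← ENNReal.rpow_mul]
        norm_num

private theorem highA_cs2 (μ ν : Measure (Sph d)) [SFinite μ] [SFinite ν] :
    (∫⁻ c, ∫⁻ w, ‖(w : E d) - (c : E d)‖ₑ ∂ν ∂μ) ^ 2 ≤
      μ univ * ν univ * ∫⁻ c, ∫⁻ w, ‖(w : E d) - (c : E d)‖ₑ ^ 2 ∂ν ∂μ := by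
  have hm : Measurable (fun z : Sph d × Sph d => ‖(z.2 : E d) - (z.1 : E d)‖ₑ) := by
    apply Continuous.measurable
    fun_prop
  have h := highA_cs (μ.prod ν) hm.aemeasurable
  rw [lintegral_prod _ hm.aemeasurable, lintegral_prod _ (hm.pow_const 2).aemeasurable,
    ← univ_prod_univ, Measure.prod_prod] at h
  exact h

/-- A translation. -/
private theorem highA_shift (h : ℝ → ℝ≥0∞) {α β τ : ℝ} (h1 : 1 / 4 ≤ τ + α)
    (h2 : τ + β ≤ 3) : ∫⁻ s in Icc α β, h (τ + s) ≤ ∫⁻ a in Icc (1 / 4 : ℝ) 3, h a := by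
  rw [← lintegral_indicator measurableSet_Icc, ← lintegral_indicator measurableSet_Icc,
    ← lintegral_add_left_eq_self ((Icc (1 / 4 : ℝ) 3).indicator h) τ]
  apply lintegral_mono
  intro s
  by_cases hs : s ∈ Icc α β
  · have h3 : τ + s ∈ Icc (1 / 4 : ℝ) 3 :=
      ⟨by linarith [hs.1], by linarith [hs.2]⟩
    show (Icc α β).indicator (fun s => h (τ + s)) s ≤
      (Icc (1 / 4 : ℝ) 3).indicator h (τ + s)
    rw [indicator_of_mem hs, indicator_of_mem h3]
  · rw [indicator_of_notMem hs]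
    exact zero_le

/-- The comparison of the weights. -/
private theorem highA_weight {k m n n' : ℕ} (hn : n ∈ RR k m) (hk : n' ≤ k) {s s' u : ℝ}
    (hu : |u| ≤ sc n / 2) :
    Th m s * Th n' s' ≤ 4 * 2 ^ max k m * Th (min m n') (s - (s' - u)) := by
  have h1 : |u| ≤ sc n' := hu.trans ((highA_sc_RR hn).trans (highA_sc_anti hk))
  have h2 : Th n' s' ≤ 4 * Th n' (s' - u) := Th_shift h1
  calc Th m s * Th n' s' ≤ Th m s * (4 * Th n' (s' - u)) := by gcongr
    _ = 4 * (Th m s * Th n' (s' - u)) := by ring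
    _ ≤ 4 * (2 ^ max m n' * Th (min m n') (s - (s' - u))) :=
        mul_le_mul_right (Th_mul_Th m n' s (s' - u)) _
    _ ≤ 4 * (2 ^ max k m * Th (min m n') (s - (s' - u))) := by
        apply mul_le_mul_right
        apply mul_le_mul_left
        exact pow_le_pow_right₀ (by norm_num) (by omega)
    _ = _ := by ring

/-- The pointwise bound of the product of the two densities. -/
private theorem highA_pt {k m n n' : ℕ} (hn : n ∈ RR k m) (hk : n' ≤ k) {q : E d → ℝ}
    (hq : Measurable q) {G : E d → ℝ≥0∞} (hG : Measurable G) (x : E d) {t : ℝ}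
    (ht : t ∈ Icc (1 : ℝ) 2) (w c : Sph d) :
    Avr n (fun s => nm m q x s w) t *
      ∫⁻ s in Icc (-(3 / 4) : ℝ) (3 / 4), Th n' s * G (x - (t + s) • (c : E d)) ≤
    4 * 2 ^ max k m * ∫⁻ a in Icc (1 / 4 : ℝ) 3, ∫⁻ b in Icc (1 / 4 : ℝ) 3,
      Th (min m n') (a - b) * (fat m q (x - a • (w : E d)) * G (x - b • (c : E d))) := by
  have hG1 : Measurable (fun s : ℝ => Th n' s * G (x - (t + s) • (c : E d))) := by
    apply (measurable_Th n').mul
    apply hG.comp
    apply Continuous.measurable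
    fun_prop
  have hF1 : ∀ u : ℝ, Measurable (fun s : ℝ =>
      Th m s * fat m q (x - (t + u + s) • (w : E d))) := fun u => by
    apply (measurable_Th m).mul
    apply (measurable_fat m hq).comp
    apply Continuous.measurable
    fun_prop
  have key : ∀ u ∈ Icc (-(sc n / 2)) (sc n / 2), nm m q x (t + u) w *
      ∫⁻ s in Icc (-(3 / 4) : ℝ) (3 / 4), Th n' s * G (x - (t + s) • (c : E d)) ≤
      4 * 2 ^ max k m * ∫⁻ a in Icc (1 / 4 : ℝ) 3, ∫⁻ b in Icc (1 / 4 : ℝ) 3,
        Th (min m n') (a - b) *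
          (fat m q (x - a • (w : E d)) * G (x - b • (c : E d))) := by
    intro u hu
    have hu1 : |u| ≤ sc n / 2 := abs_le.2 ⟨hu.1, hu.2⟩
    have hu2 : |u| ≤ 1 / 2 := hu1.trans (by linarith [highA_sc_le_one n])
    obtain ⟨hu3, hu4⟩ := abs_le.1 hu2
    have h1 : nm m q x (t + u) w *
        ∫⁻ s in Icc (-(3 / 4) : ℝ) (3 / 4), Th n' s * G (x - (t + s) • (c : E d)) =
        ∫⁻ s in Icc (-(1 / 4) : ℝ) (1 / 4), ∫⁻ s' in Icc (-(3 / 4) : ℝ) (3 / 4),
          (Th m s * fat m q (x - (t + u + s) • (w : E d))) *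
            (Th n' s' * G (x - (t + s') • (c : E d))) := by
      unfold nm
      rw [← lintegral_mul_const _ (hF1 u)]
      apply lintegral_congr
      intro s
      rw [lintegral_const_mul _ hG1]
    rw [h1]
    have h2 : ∀ s s' : ℝ, (Th m s * fat m q (x - (t + u + s) • (w : E d))) *
            (Th n' s' * G (x - (t + s') • (c : E d))) ≤
          4 * 2 ^ max k m * (Th (min m n') ((t + u + s) - (t + s')) *
            (fat m q (x - (t + u + s) • (w : E d)) * G (x - (t + s') • (c : E d)))) := by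
      intro s s'
      have h3 := highA_weight (s := s) (s' := s') hn hk hu1 (n' := n')
      have h4 : (t + u + s) - (t + s') = s - (s' - u) := by ring
      rw [h4]
      calc (Th m s * fat m q (x - (t + u + s) • (w : E d))) *
            (Th n' s' * G (x - (t + s') • (c : E d))) =
          (Th m s * Th n' s') * (fat m q (x - (t + u + s) • (w : E d)) *
            G (x - (t + s') • (c : E d))) := by ring
        _ ≤ (4 * 2 ^ max k m * Th (min m n') (s - (s' - u))) *
            (fat m q (x - (t + u + s) • (w : E d)) * G (x - (t + s') • (c : E d))) :=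
            mul_le_mul_left h3 _
        _ = _ := by ring
    have h5 : (4 * 2 ^ max k m : ℝ≥0∞) ≠ ⊤ := by
      apply ENNReal.mul_ne_top (by simp)
      simp
    calc ∫⁻ s in Icc (-(1 / 4) : ℝ) (1 / 4), ∫⁻ s' in Icc (-(3 / 4) : ℝ) (3 / 4),
          (Th m s * fat m q (x - (t + u + s) • (w : E d))) *
            (Th n' s' * G (x - (t + s') • (c : E d)))
        ≤ ∫⁻ s in Icc (-(1 / 4) : ℝ) (1 / 4), ∫⁻ s' in Icc (-(3 / 4) : ℝ) (3 / 4),
          4 * 2 ^ max k m * (Th (min m n') ((t + u + s) - (t + s')) *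
            (fat m q (x - (t + u + s) • (w : E d)) * G (x - (t + s') • (c : E d)))) :=
          lintegral_mono fun s => lintegral_mono fun s' => h2 s s'
      _ = 4 * 2 ^ max k m * ∫⁻ s in Icc (-(1 / 4) : ℝ) (1 / 4),
          ∫⁻ s' in Icc (-(3 / 4) : ℝ) (3 / 4),
          (Th (min m n') ((t + u + s) - (t + s')) *
            (fat m q (x - (t + u + s) • (w : E d)) * G (x - (t + s') • (c : E d)))) := by
          rw [← lintegral_const_mul' _ _ h5]
          apply lintegral_congr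
          intro s
          rw [← lintegral_const_mul' _ _ h5]
      _ ≤ 4 * 2 ^ max k m * ∫⁻ s in Icc (-(1 / 4) : ℝ) (1 / 4),
          ∫⁻ b in Icc (1 / 4 : ℝ) 3,
          (Th (min m n') ((t + u + s) - b) *
            (fat m q (x - (t + u + s) • (w : E d)) * G (x - b • (c : E d)))) := by
          apply mul_le_mul_right
          apply lintegral_mono
          intro s
          exact highA_shift (fun b => Th (min m n') ((t + u + s) - b) *
            (fat m q (x - (t + u + s) • (w : E d)) * G (x - b • (c : E d))))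
            (by linarith [ht.1]) (by linarith [ht.2])
      _ ≤ _ := by
          apply mul_le_mul_right
          exact highA_shift (fun a => ∫⁻ b in Icc (1 / 4 : ℝ) 3, Th (min m n') (a - b) *
            (fat m q (x - a • (w : E d)) * G (x - b • (c : E d))))
            (by linarith [ht.1]) (by linarith [ht.2])
  have hfin : ∀ R B : ℝ≥0∞, (∀ u ∈ Icc (-(sc n / 2)) (sc n / 2),
      nm m q x (t + u) w * B ≤ R) → Avr n (fun s => nm m q x s w) t * B ≤ R := by
    intro R B h
    have h6 : Measurable (fun u : ℝ => nm m q x (t + u) w) := highA_meas_nm1 hq x t w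
    calc Avr n (fun s => nm m q x s w) t * B
        = 2 ^ n * ∫⁻ u in Icc (-(sc n / 2)) (sc n / 2), nm m q x (t + u) w * B := by
          rw [lintegral_mul_const _ h6, ← mul_assoc]
          rfl
      _ ≤ 2 ^ n * ∫⁻ _ in Icc (-(sc n / 2)) (sc n / 2), R := by
          apply mul_le_mul_right
          exact setLIntegral_mono' measurableSet_Icc h
      _ = R := highA_one n R
  exact hfin _ _ key

/-- The theorem of Tonelli for four variables. -/
private theorem highA_swap {X Y : Type*} [MeasurableSpace X] [MeasurableSpace Y]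
    (μ : Measure X) [SFinite μ] (ν : Measure Y) [SFinite ν] (Φ : X → X → Y → Y → ℝ≥0∞)
    (h : Measurable (fun z : (X × X) × (Y × Y) => Φ z.1.1 z.1.2 z.2.1 z.2.2)) :
    ∫⁻ c, ∫⁻ w, ∫⁻ a, ∫⁻ b, Φ w c a b ∂ν ∂ν ∂μ ∂μ =
      ∫⁻ a, ∫⁻ b, ∫⁻ w, ∫⁻ c, Φ w c a b ∂μ ∂μ ∂ν ∂ν := by
  have h1 : Measurable (fun z : X × X => ∫⁻ y : Y × Y, Φ z.1 z.2 y.1 y.2 ∂(ν.prod ν)) :=
    h.lintegral_prod_right'
  have h2 : Measurable (fun y : Y × Y => ∫⁻ z : X × X, Φ z.1 z.2 y.1 y.2 ∂(μ.prod μ)) :=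
    h.lintegral_prod_left'
  have h3 : ∀ w c, Measurable (fun y : Y × Y => Φ w c y.1 y.2) := fun w c =>
    h.comp (measurable_const (a := (w, c)) |>.prodMk measurable_id)
  have h4 : ∀ a b, Measurable (fun z : X × X => Φ z.1 z.2 a b) := fun a b =>
    h.comp (measurable_id.prodMk (measurable_const (a := (a, b))))
  calc ∫⁻ c, ∫⁻ w, ∫⁻ a, ∫⁻ b, Φ w c a b ∂ν ∂ν ∂μ ∂μ
      = ∫⁻ c, ∫⁻ w, ∫⁻ y : Y × Y, Φ w c y.1 y.2 ∂(ν.prod ν) ∂μ ∂μ := by
        apply lintegral_congr
        intro c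
        apply lintegral_congr
        intro w
        exact (lintegral_prod _ (h3 w c).aemeasurable).symm
    _ = ∫⁻ z : X × X, ∫⁻ y : Y × Y, Φ z.1 z.2 y.1 y.2 ∂(ν.prod ν) ∂(μ.prod μ) :=
        (lintegral_prod_symm _ h1.aemeasurable).symm
    _ = ∫⁻ y : Y × Y, ∫⁻ z : X × X, Φ z.1 z.2 y.1 y.2 ∂(μ.prod μ) ∂(ν.prod ν) :=
        lintegral_lintegral_swap h.aemeasurable
    _ = ∫⁻ a, ∫⁻ b, ∫⁻ z : X × X, Φ z.1 z.2 a b ∂(μ.prod μ) ∂ν ∂ν :=
        lintegral_prod _ h2.aemeasurable
    _ = _ := by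
        apply lintegral_congr
        intro a
        apply lintegral_congr
        intro b
        exact lintegral_prod _ (h4 a b).aemeasurable

/-- The comparison with the bilinear form for one source. -/
private theorem highA_bil (hd : 0 < d) {k m n n' : ℕ} (hn : n ∈ RR k m) (hk : n' ≤ k)
    {q : E d → ℝ} (hq : Measurable q) {G : E d → ℝ≥0∞} (hG : Measurable G) (x : E d) {t : ℝ}
    (ht : t ∈ Icc (1 : ℝ) 2) :
    ∫⁻ c : Sph d, ∫⁻ w : Sph d, ‖(w : E d) - (c : E d)‖ₑ ^ 2 *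
      (Avr n (fun s => nm m q x s w) t *
      ∫⁻ s in Icc (-(3 / 4) : ℝ) (3 / 4), Th n' s * G (x - (t + s) • (c : E d)))
        ∂(sigma d) ∂(sigma d) ≤
    4 * 2 ^ max k m * BB (min m n') (fat m q) G x := by
  have := sigma_prob hd
  have h5 : (4 * 2 ^ max k m : ℝ≥0∞) ≠ ⊤ := by
    apply ENNReal.mul_ne_top (by simp)
    simp
  have hsq : ∀ w c : Sph d, ‖(w : E d) - (c : E d)‖ₑ ^ 2 ≠ ⊤ := fun w c =>
    ENNReal.pow_ne_top enorm_ne_top
  have hm : Measurable (fun z : (Sph d × Sph d) × (ℝ × ℝ) =>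
      ‖(z.1.1 : E d) - (z.1.2 : E d)‖ₑ ^ 2 * (Th (min m n') (z.2.1 - z.2.2) *
        (fat m q (x - z.2.1 • (z.1.1 : E d)) * G (x - z.2.2 • (z.1.2 : E d))))) := by
    apply Measurable.mul
    · apply Measurable.pow_const
      apply Continuous.measurable
      fun_prop
    · apply Measurable.mul
      · apply (measurable_Th _).comp
        apply Continuous.measurable
        fun_prop
      · apply Measurable.mul
        · apply (measurable_fat m hq).comp
          apply Continuous.measurable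
          fun_prop
        · apply hG.comp
          apply Continuous.measurable
          fun_prop
  calc ∫⁻ c : Sph d, ∫⁻ w : Sph d, ‖(w : E d) - (c : E d)‖ₑ ^ 2 *
        (Avr n (fun s => nm m q x s w) t *
        ∫⁻ s in Icc (-(3 / 4) : ℝ) (3 / 4), Th n' s * G (x - (t + s) • (c : E d)))
          ∂(sigma d) ∂(sigma d)
      ≤ ∫⁻ c : Sph d, ∫⁻ w : Sph d, 4 * 2 ^ max k m *
          (∫⁻ a in Icc (1 / 4 : ℝ) 3, ∫⁻ b in Icc (1 / 4 : ℝ) 3,
            ‖(w : E d) - (c : E d)‖ₑ ^ 2 * (Th (min m n') (a - b) *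
              (fat m q (x - a • (w : E d)) * G (x - b • (c : E d)))))
          ∂(sigma d) ∂(sigma d) := by
        apply lintegral_mono
        intro c
        apply lintegral_mono
        intro w
        have h6 : ∫⁻ a in Icc (1 / 4 : ℝ) 3, ∫⁻ b in Icc (1 / 4 : ℝ) 3,
            ‖(w : E d) - (c : E d)‖ₑ ^ 2 * (Th (min m n') (a - b) *
              (fat m q (x - a • (w : E d)) * G (x - b • (c : E d)))) =
            ‖(w : E d) - (c : E d)‖ₑ ^ 2 * ∫⁻ a in Icc (1 / 4 : ℝ) 3,
              ∫⁻ b in Icc (1 / 4 : ℝ) 3, (Th (min m n') (a - b) *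
              (fat m q (x - a • (w : E d)) * G (x - b • (c : E d)))) := by
          rw [← lintegral_const_mul' _ _ (hsq w c)]
          apply lintegral_congr
          intro a
          rw [← lintegral_const_mul' _ _ (hsq w c)]
        have h7 := highA_pt hn hk hq hG x ht w c
        calc ‖(w : E d) - (c : E d)‖ₑ ^ 2 * (Avr n (fun s => nm m q x s w) t *
              ∫⁻ s in Icc (-(3 / 4) : ℝ) (3 / 4), Th n' s * G (x - (t + s) • (c : E d)))
            ≤ ‖(w : E d) - (c : E d)‖ₑ ^ 2 * (4 * 2 ^ max k m *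
              ∫⁻ a in Icc (1 / 4 : ℝ) 3, ∫⁻ b in Icc (1 / 4 : ℝ) 3,
              Th (min m n') (a - b) *
              (fat m q (x - a • (w : E d)) * G (x - b • (c : E d)))) :=
              mul_le_mul_right h7 _
          _ = _ := by
              beta_reduce
              rw [h6]
              ring
    _ = 4 * 2 ^ max k m * ∫⁻ c : Sph d, ∫⁻ w : Sph d,
          (∫⁻ a in Icc (1 / 4 : ℝ) 3, ∫⁻ b in Icc (1 / 4 : ℝ) 3,
            ‖(w : E d) - (c : E d)‖ₑ ^ 2 * (Th (min m n') (a - b) *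
              (fat m q (x - a • (w : E d)) * G (x - b • (c : E d)))))
          ∂(sigma d) ∂(sigma d) := by
        rw [← lintegral_const_mul' _ _ h5]
        apply lintegral_congr
        intro c
        rw [← lintegral_const_mul' _ _ h5]
    _ = 4 * 2 ^ max k m * ∫⁻ a in Icc (1 / 4 : ℝ) 3, ∫⁻ b in Icc (1 / 4 : ℝ) 3,
          (∫⁻ w : Sph d, ∫⁻ c : Sph d,
            ‖(w : E d) - (c : E d)‖ₑ ^ 2 * (Th (min m n') (a - b) *
              (fat m q (x - a • (w : E d)) * G (x - b • (c : E d))))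
          ∂(sigma d) ∂(sigma d)) := by
        rw [highA_swap (sigma d) (volume.restrict (Icc (1 / 4 : ℝ) 3))
          (fun w c a b => ‖(w : E d) - (c : E d)‖ₑ ^ 2 * (Th (min m n') (a - b) *
              (fat m q (x - a • (w : E d)) * G (x - b • (c : E d))))) hm]
    _ = 4 * 2 ^ max k m * BB (min m n') (fat m q) G x := by
        congr 1
        unfold BB
        apply lintegral_congr
        intro a
        apply lintegral_congr
        intro b
        have h8 : Th (min m n') (a - b) ≠ ⊤ := ENNReal.ofReal_ne_top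
        rw [← lintegral_const_mul' _ _ h8]
        apply lintegral_congr
        intro w
        rw [← lintegral_const_mul' _ _ h8]
        apply lintegral_congr
        intro c
        ring

/-- The comparison with the bilinear forms. -/
private theorem highA_dbl (hd : 0 < d) {k m n : ℕ} (hn : n ∈ RR k m)
    {q : E d → ℝ} (hq : Measurable q) {P : ℕ → E d → ℝ≥0∞} (hP : ∀ m, Measurable (P m))
    (x : E d) {t : ℝ} (ht : t ∈ Icc (1 : ℝ) 2) :
    ∫⁻ c : Sph d, ∫⁻ w : Sph d, ‖(w : E d) - (c : E d)‖ₑ ^ 2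
      ∂((sigma d).withDensity (fun w => Avr n (fun s => nm m q x s w) t)) ∂(piK P k x t) ≤
    4 * 2 ^ max k m * ∑' m', BB (min m (min k m')) (fat m q) (P m') x := by
  have := sigma_prob hd
  have hN := highA_meas_avr (m := m) hq n x t
  have hsq : ∀ c : Sph d, Measurable (fun w : Sph d => ‖(w : E d) - (c : E d)‖ₑ ^ 2) :=
    fun c => by
      apply Measurable.pow_const
      apply Continuous.measurable
      fun_prop
  have hA : ∀ m', Measurable (fun c : Sph d => ∫⁻ s in Icc (-(3 / 4) : ℝ) (3 / 4),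
      Th (min k m') s * P m' (x - (t + s) • (c : E d))) := by
    intro m'
    have h : Measurable (fun z : Sph d × ℝ =>
        Th (min k m') z.2 * P m' (x - (t + z.2) • (z.1 : E d))) := by
      apply Measurable.mul
      · exact (measurable_Th _).comp measurable_snd
      · apply (hP m').comp
        apply Continuous.measurable
        fun_prop
    exact h.lintegral_prod_right'
  have h1 : ∀ c : Sph d, ∫⁻ w : Sph d, ‖(w : E d) - (c : E d)‖ₑ ^ 2
      ∂((sigma d).withDensity (fun w => Avr n (fun s => nm m q x s w) t)) =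
      ∫⁻ w : Sph d, Avr n (fun s => nm m q x s w) t * ‖(w : E d) - (c : E d)‖ₑ ^ 2
        ∂(sigma d) := fun c =>
    lintegral_withDensity_eq_lintegral_mul _ hN (hsq c)
  have h2 : ∀ c : Sph d, pden P k x t c *
      ∫⁻ w : Sph d, Avr n (fun s => nm m q x s w) t * ‖(w : E d) - (c : E d)‖ₑ ^ 2
        ∂(sigma d) ≤ ∑' m', ∫⁻ w : Sph d, ‖(w : E d) - (c : E d)‖ₑ ^ 2 *
      (Avr n (fun s => nm m q x s w) t * ∫⁻ s in Icc (-(3 / 4) : ℝ) (3 / 4),
        Th (min k m') s * P m' (x - (t + s) • (c : E d))) ∂(sigma d) := by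
    intro c
    unfold pden
    rw [← ENNReal.tsum_mul_right]
    apply ENNReal.tsum_le_tsum
    intro m'
    have h3 : ((3 : ℝ≥0∞) / 4) ^ (k - m') ≤ 1 := by
      apply pow_le_one₀ zero_le
      apply ENNReal.div_le_of_le_mul
      norm_num
    calc (3 / 4) ^ (k - m') * (∫⁻ s in Icc (-(3 / 4) : ℝ) (3 / 4),
          Th (min k m') s * P m' (x - (t + s) • (c : E d))) *
        ∫⁻ w : Sph d, Avr n (fun s => nm m q x s w) t * ‖(w : E d) - (c : E d)‖ₑ ^ 2
        ∂(sigma d)
        ≤ 1 * (∫⁻ s in Icc (-(3 / 4) : ℝ) (3 / 4),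
          Th (min k m') s * P m' (x - (t + s) • (c : E d))) *
        ∫⁻ w : Sph d, Avr n (fun s => nm m q x s w) t * ‖(w : E d) - (c : E d)‖ₑ ^ 2
        ∂(sigma d) := by
          apply mul_le_mul_left
          apply mul_le_mul_left
          exact h3
      _ = ∫⁻ w : Sph d, (∫⁻ s in Icc (-(3 / 4) : ℝ) (3 / 4),
          Th (min k m') s * P m' (x - (t + s) • (c : E d))) *
          (Avr n (fun s => nm m q x s w) t * ‖(w : E d) - (c : E d)‖ₑ ^ 2)
        ∂(sigma d) := by
          rw [one_mul]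
          exact (lintegral_const_mul _ (hN.mul (hsq c))).symm
      _ = _ := by
          apply lintegral_congr
          intro w
          ring
  calc ∫⁻ c : Sph d, ∫⁻ w : Sph d, ‖(w : E d) - (c : E d)‖ₑ ^ 2
        ∂((sigma d).withDensity (fun w => Avr n (fun s => nm m q x s w) t)) ∂(piK P k x t)
      ≤ ∫⁻ c : Sph d, pden P k x t c * ∫⁻ w : Sph d, Avr n (fun s => nm m q x s w) t *
          ‖(w : E d) - (c : E d)‖ₑ ^ 2 ∂(sigma d) ∂(sigma d) := by
        simp_rw [h1]
        exact lintegral_withDensity_le_lintegral_mul _ (measurable_pden k hP x t) _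
    _ ≤ ∫⁻ c : Sph d, ∑' m', ∫⁻ w : Sph d, ‖(w : E d) - (c : E d)‖ₑ ^ 2 *
          (Avr n (fun s => nm m q x s w) t * ∫⁻ s in Icc (-(3 / 4) : ℝ) (3 / 4),
          Th (min k m') s * P m' (x - (t + s) • (c : E d))) ∂(sigma d) ∂(sigma d) :=
        lintegral_mono h2
    _ = ∑' m', ∫⁻ c : Sph d, ∫⁻ w : Sph d, ‖(w : E d) - (c : E d)‖ₑ ^ 2 *
          (Avr n (fun s => nm m q x s w) t * ∫⁻ s in Icc (-(3 / 4) : ℝ) (3 / 4),
          Th (min k m') s * P m' (x - (t + s) • (c : E d))) ∂(sigma d) ∂(sigma d) := by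
        apply lintegral_tsum
        intro m'
        apply Measurable.aemeasurable
        have h4 : Measurable (fun z : Sph d × Sph d => ‖(z.2 : E d) - (z.1 : E d)‖ₑ ^ 2 *
            (Avr n (fun s => nm m q x s z.2) t * ∫⁻ s in Icc (-(3 / 4) : ℝ) (3 / 4),
            Th (min k m') s * P m' (x - (t + s) • (z.1 : E d)))) := by
          apply Measurable.mul
          · apply Measurable.pow_const
            apply Continuous.measurable
            fun_prop
          · exact (hN.comp measurable_snd).mul ((hA m').comp measurable_fst)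
        exact h4.lintegral_prod_right'
    _ ≤ ∑' m', 4 * 2 ^ max k m * BB (min m (min k m')) (fat m q) (P m') x :=
        ENNReal.tsum_le_tsum fun m' => highA_bil hd hn (min_le_left k m') hq (hP m') x ht
    _ = _ := ENNReal.tsum_mul_left

theorem high (hd : 2 ≤ d) {S : E d → ℝ} (hS : IsKer S) : ∃ C : ℝ≥0,
    ∀ (k m n j : ℕ), 1 ≤ m → n ∈ RR k m → j ≤ 2 → ∀ P : ℕ → E d → ℝ≥0∞,
      (∀ m, Measurable (P m)) → ∀ (r : ℝ) (q : E d → ℝ), Bdd r q → ∀ θ : ℝ≥0∞, θ ≠ 0 → θ ≠ ⊤ →
        (∀ y, θ * fat m q y ≤ P m y) → ∃ W : E d → ℝ≥0∞, Measurable W ∧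
          (∀ x, ∀ t ∈ Icc (1 : ℝ) 2, ((piK P k x t univ)⁻¹ * ∫⁻ c : Sph d,
            Avr n (fun s => XX S m j q c x s) t ∂(piK P k x t)) ^ 2 ≤ W x) ∧
          ∫⁻ x, W x ≤ C * (KK k m * θ⁻¹ * 2 ^ max k m * (∑' m', ∫⁻ y, P m' y) *
            ∫⁻ y, ‖q y‖ₑ) := by
  have hd0 : 0 < d := by omega
  have := sigma_prob hd0
  obtain ⟨C1, hC1⟩ := XX_le hd0 hS
  obtain ⟨C2, hC2⟩ := BB_bound (d := d) hd0
  have hV : volume (closedBall (0 : E d) 2) ≠ ⊤ := measure_closedBall_lt_top.ne
  refine ⟨C1 ^ 2 * 64 * C2 * (volume (closedBall (0 : E d) 2)).toNNReal, ?_⟩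
  intro k m n j hm hn hj P hP r q hq θ h0 h1 hθ
  have hBB : ∀ m', Measurable (BB (min m (min k m')) (fat m q) (P m')) := fun m' =>
    measurable_BB _ (measurable_fat m hq.meas) (hP m')
  have hBBs : Measurable (fun x => ∑' m', BB (min m (min k m')) (fat m q) (P m') x) :=
    Measurable.tsum hBB
  refine ⟨fun x => (C1 : ℝ≥0∞) ^ 2 * (16 * KK k m * θ⁻¹) * (4 * 2 ^ max k m *
    ∑' m', BB (min m (min k m')) (fat m q) (P m') x), (hBBs.const_mul _).const_mul _, ?_, ?_⟩
  · intro x t ht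
    have hN := highA_meas_avr (m := m) hq.meas n x t
    have hpi : piK P k x t = (sigma d).withDensity (pden P k x t) := rfl
    have hpS : SFinite (piK P k x t) := by
      rw [hpi]
      infer_instance
    obtain ⟨ν, hν⟩ : ∃ ν, ν = (sigma d).withDensity
      (fun w => Avr n (fun s => nm m q x s w) t) := ⟨_, rfl⟩
    have hνS : SFinite ν := by
      rw [hν]
      infer_instance
    have hn1 : ∀ c : Sph d, Measurable (fun w : Sph d => ‖(w : E d) - (c : E d)‖ₑ) :=
      fun c => by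
        apply Continuous.measurable
        fun_prop
    have h2 : ∀ c : Sph d, Avr n (fun s => XX S m j q c x s) t ≤
        C1 * ∫⁻ w : Sph d, ‖(w : E d) - (c : E d)‖ₑ ∂ν := by
      intro c
      have h3 := highA_avr_le hd0 (X := fun s => XX S m j q c x s)
        (fun t => hC1 m hm j hj r q hq (c : E d) x t) hq.meas n t
      have h4 : ∫⁻ w : Sph d, ‖(w : E d) - (c : E d)‖ₑ ∂ν = ∫⁻ w : Sph d,
          ‖(w : E d) - (c : E d)‖ₑ * Avr n (fun s => nm m q x s w) t ∂(sigma d) := by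
        rw [hν, lintegral_withDensity_eq_lintegral_mul _ hN (hn1 c)]
        apply lintegral_congr
        intro w
        exact mul_comm _ _
      rw [h4]
      exact h3
    have h5 : ∫⁻ c : Sph d, Avr n (fun s => XX S m j q c x s) t ∂(piK P k x t) ≤
        C1 * ∫⁻ c : Sph d, ∫⁻ w : Sph d, ‖(w : E d) - (c : E d)‖ₑ ∂ν ∂(piK P k x t) := by
      rw [← lintegral_const_mul' _ _ ENNReal.coe_ne_top]
      exact lintegral_mono h2
    have h6 := highA_cs2 (piK P k x t) ν
    have h7 : ν univ ≤ 16 * KK k m * θ⁻¹ * piK P k x t univ := by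
      rw [hν, withDensity_apply _ MeasurableSet.univ, Measure.restrict_univ]
      exact highA_nu_le hd0 hm hn hP hq.meas h0 h1 hθ x t
    have h8 : ∫⁻ c : Sph d, ∫⁻ w : Sph d, ‖(w : E d) - (c : E d)‖ₑ ^ 2 ∂ν ∂(piK P k x t) ≤
        4 * 2 ^ max k m * ∑' m', BB (min m (min k m')) (fat m q) (P m') x := by
      rw [hν]
      exact highA_dbl hd0 hn hq.meas hP x ht
    obtain ⟨p, hp⟩ : ∃ p, p = piK P k x t univ := ⟨_, rfl⟩
    obtain ⟨J, hJ⟩ : ∃ J, J = ∫⁻ c : Sph d, ∫⁻ w : Sph d, ‖(w : E d) - (c : E d)‖ₑ ∂ν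
      ∂(piK P k x t) := ⟨_, rfl⟩
    obtain ⟨Q, hQ⟩ : ∃ Q, Q = 4 * 2 ^ max k m *
      ∑' m', BB (min m (min k m')) (fat m q) (P m') x := ⟨_, rfl⟩
    rw [← hp] at h6 h7 ⊢
    rw [← hJ] at h5 h6
    rw [← hQ] at h8
    show _ ≤ (C1 : ℝ≥0∞) ^ 2 * (16 * KK k m * θ⁻¹) * (4 * 2 ^ max k m *
      ∑' m', BB (min m (min k m')) (fat m q) (P m') x)
    rw [← hQ]
    calc (p⁻¹ * ∫⁻ c : Sph d, Avr n (fun s => XX S m j q c x s) t ∂(piK P k x t)) ^ 2
        ≤ (p⁻¹ * (C1 * J)) ^ 2 := by gcongr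
      _ = (C1 : ℝ≥0∞) ^ 2 * (p⁻¹ ^ 2 * J ^ 2) := by ring
      _ ≤ (C1 : ℝ≥0∞) ^ 2 * (p⁻¹ ^ 2 * (p * (16 * KK k m * θ⁻¹ * p) * Q)) := by
          apply mul_le_mul_right
          apply mul_le_mul_right
          exact h6.trans (mul_le_mul' (mul_le_mul_right h7 _) h8)
      _ = (C1 : ℝ≥0∞) ^ 2 * (16 * KK k m * θ⁻¹) * Q * (p⁻¹ * p) ^ 2 := by ring
      _ ≤ (C1 : ℝ≥0∞) ^ 2 * (16 * KK k m * θ⁻¹) * Q * 1 := by
          apply mul_le_mul_right
          apply pow_le_one₀ zero_le
          exact ENNReal.inv_mul_le_one p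
      _ = _ := mul_one _
  · rw [lintegral_const_mul _ (hBBs.const_mul _), lintegral_const_mul _ hBBs,
      lintegral_tsum fun m' => (hBB m').aemeasurable]
    have h2 : ∀ m', ∫⁻ x, BB (min m (min k m')) (fat m q) (P m') x ≤
        C2 * (volume (closedBall (0 : E d) 2) * ∫⁻ y, ‖q y‖ₑ) * ∫⁻ y, P m' y := by
      intro m'
      rw [← fat_int m hq.meas]
      exact hC2 _ _ _ (measurable_fat m hq.meas) (hP m')
    have h3 : (((volume (closedBall (0 : E d) 2)).toNNReal : ℝ≥0) : ℝ≥0∞) =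
        volume (closedBall (0 : E d) 2) := ENNReal.coe_toNNReal hV
    calc (C1 : ℝ≥0∞) ^ 2 * (16 * KK k m * θ⁻¹) * (4 * 2 ^ max k m *
          ∑' m', ∫⁻ x, BB (min m (min k m')) (fat m q) (P m') x)
        ≤ (C1 : ℝ≥0∞) ^ 2 * (16 * KK k m * θ⁻¹) * (4 * 2 ^ max k m *
          ∑' m', C2 * (volume (closedBall (0 : E d) 2) * ∫⁻ y, ‖q y‖ₑ) * ∫⁻ y, P m' y) := by
          apply mul_le_mul_right
          apply mul_le_mul_right
          exact ENNReal.tsum_le_tsum h2
      _ = _ := by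
          rw [ENNReal.tsum_mul_left]
          push_cast
          rw [h3]
          ring

end Pool.Agent.Lib.MP_ff3fe0_an_SPH
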