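import Pool.Agent.Lib.MP_ff3fe0_an_SPH.CZA

set_option autoImplicit false

/-!
# Integration of the weak type estimates
-/

namespace Pool.Agent.Lib.MP_ff3fe0_an_SPH

open MeasureTheory Metric Set
open scoped ENNReal NNReal ContDiff FourierTransform
open Pool.Agent.Lib.MP_ff3fe0_an

variable {d : ℕ}

private lemma IntA_tail {a h : ℝ} (ha : a < -1) (hh : 0 < h) :
    ∫⁻ t in Ici h, ENNReal.ofReal (t ^ a) = ENNReal.ofReal (h ^ (a + 1) / (-(a + 1))) := by
  rw [setLIntegral_congr (Ioi_ae_eq_Ici (a := h)).symm,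
    ← ofReal_integral_eq_lintegral_ofReal (integrableOn_Ioi_rpow_of_lt ha hh) ?_,
    integral_Ioi_rpow_of_lt ha hh]
  · congr 1
    rw [div_neg, neg_div]
  · exact (ae_restrict_mem measurableSet_Ioi).mono fun t ht =>
      Real.rpow_nonneg (hh.le.trans (le_of_lt ht)) a

private lemma IntA_head {a h : ℝ} (ha : -1 < a) (hh : 0 ≤ h) :
    ∫⁻ t in Ioc 0 h, ENNReal.ofReal (t ^ a) = ENNReal.ofReal (h ^ (a + 1) / (a + 1)) := by
  have hi : IntervalIntegrable (fun t : ℝ => t ^ a) volume 0 h :=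
    intervalIntegral.intervalIntegrable_rpow' ha
  rw [intervalIntegrable_iff_integrableOn_Ioc_of_le hh] at hi
  rw [← ofReal_integral_eq_lintegral_ofReal hi ?_, ← intervalIntegral.integral_of_le hh,
    integral_rpow (Or.inl ha), Real.zero_rpow (by linarith), sub_zero]
  exact (ae_restrict_mem measurableSet_Ioc).mono fun t ht => Real.rpow_nonneg ht.1.le a

private lemma IntA_one {α : Type*} [MeasurableSpace α] (μ : Measure α) [SFinite μ] {h : α → ℝ}
    (hm : Measurable h) (h0 : ∀ x, 0 ≤ h x) {p : ℝ} (hp : p < 2) :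
    ∫⁻ t in Ioi (0 : ℝ), ENNReal.ofReal (t ^ (p - 3)) *
        ∫⁻ x in {x | h x ≤ t}, ENNReal.ofReal (h x ^ 2) ∂μ ≤
      ENNReal.ofReal (1 / (2 - p)) * ∫⁻ x, ENNReal.ofReal (h x ^ p) ∂μ := by
  obtain ⟨F, hF⟩ : ∃ F : ℝ × α → ℝ≥0∞, F = {z : ℝ × α | h z.2 ≤ z.1}.indicator
      (fun z => ENNReal.ofReal (z.1 ^ (p - 3)) * ENNReal.ofReal (h z.2 ^ 2)) := ⟨_, rfl⟩
  have hFm : Measurable F := by
    rw [hF]
    refine Measurable.indicator ?_ (measurableSet_le (hm.comp measurable_snd) measurable_fst)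
    exact ((measurable_fst.pow_const _).ennreal_ofReal).mul
      (((hm.comp measurable_snd).pow_const 2).ennreal_ofReal)
  have e1 : ∀ t : ℝ, ENNReal.ofReal (t ^ (p - 3)) *
      ∫⁻ x in {x | h x ≤ t}, ENNReal.ofReal (h x ^ 2) ∂μ = ∫⁻ x, F (t, x) ∂μ := by
    intro t
    rw [← lintegral_const_mul _ ((hm.pow_const 2).ennreal_ofReal),
      ← lintegral_indicator (measurableSet_le hm measurable_const)]
    refine lintegral_congr fun x => ?_
    rw [hF]
    by_cases hx : h x ≤ t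
    · rw [indicator_of_mem (show x ∈ {x | h x ≤ t} from hx),
        indicator_of_mem (show (t, x) ∈ {z : ℝ × α | h z.2 ≤ z.1} from hx)]
    · rw [indicator_of_notMem (show x ∉ {x | h x ≤ t} from hx),
        indicator_of_notMem (show (t, x) ∉ {z : ℝ × α | h z.2 ≤ z.1} from hx)]
  simp_rw [e1]
  rw [lintegral_lintegral_swap (f := fun t x => F (t, x)) hFm.aemeasurable,
    ← lintegral_const_mul _ ((hm.pow_const p).ennreal_ofReal)]
  refine lintegral_mono fun x => ?_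
  rcases (h0 x).eq_or_lt with hx | hx
  · have e2 : ∀ t : ℝ, F (t, x) = 0 := by
      intro t
      rw [hF]
      by_cases hxt : h x ≤ t
      · rw [indicator_of_mem (show (t, x) ∈ {z : ℝ × α | h z.2 ≤ z.1} from hxt)]
        simp [← hx]
      · rw [indicator_of_notMem (show (t, x) ∉ {z : ℝ × α | h z.2 ≤ z.1} from hxt)]
    simp only [e2, lintegral_zero]
    exact zero_le
  · refine (setLIntegral_le_lintegral _ _).trans ?_
    have e2 : ∀ t : ℝ, F (t, x) = (Ici (h x)).indicator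
        (fun t : ℝ => ENNReal.ofReal (t ^ (p - 3)) * ENNReal.ofReal (h x ^ 2)) t := by
      intro t
      rw [hF]
      by_cases hxt : h x ≤ t
      · rw [indicator_of_mem (show (t, x) ∈ {z : ℝ × α | h z.2 ≤ z.1} from hxt),
          indicator_of_mem (show t ∈ Ici (h x) from hxt)]
      · rw [indicator_of_notMem (show (t, x) ∉ {z : ℝ × α | h z.2 ≤ z.1} from hxt),
          indicator_of_notMem (show t ∉ Ici (h x) from hxt)]
    have hmt : Measurable fun t : ℝ => ENNReal.ofReal (t ^ (p - 3)) :=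
      (measurable_id.pow_const _).ennreal_ofReal
    simp_rw [e2]
    rw [lintegral_indicator measurableSet_Ici, lintegral_mul_const _ hmt,
      IntA_tail (by linarith) hx]
    have h2p : 0 < 2 - p := by linarith
    rw [← ENNReal.ofReal_mul (by
      have := Real.rpow_nonneg hx.le (p - 3 + 1)
      have h3 : -(p - 3 + 1) = 2 - p := by ring
      rw [h3]
      positivity), ← ENNReal.ofReal_mul (by positivity)]
    refine le_of_eq ?_
    congr 1
    have e3 : h x ^ p = h x ^ (p - 3 + 1) * h x ^ 2 := by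
      rw [← Real.rpow_natCast (h x) 2, ← Real.rpow_add hx]
      congr 1
      push_cast
      ring
    have h3 : -(p - 3 + 1) = 2 - p := by ring
    rw [e3, h3]
    ring

private lemma IntA_two {α : Type*} [MeasurableSpace α] (μ : Measure α) [SFinite μ] {h : α → ℝ}
    (hm : Measurable h) (h0 : ∀ x, 0 ≤ h x) {p₁ p : ℝ} (hp1 : 1 ≤ p₁) (hp : p₁ < p) :
    ∫⁻ t in Ioi (0 : ℝ), ENNReal.ofReal (t ^ (p - 1 - p₁)) *
        ∫⁻ x in {x | t < 2 * h x}, ENNReal.ofReal (h x ^ p₁) ∂μ ≤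
      ENNReal.ofReal (2 ^ (p - p₁) / (p - p₁)) * ∫⁻ x, ENNReal.ofReal (h x ^ p) ∂μ := by
  have h2m : Measurable fun x => 2 * h x := hm.const_mul 2
  obtain ⟨F, hF⟩ : ∃ F : ℝ × α → ℝ≥0∞, F = {z : ℝ × α | z.1 < 2 * h z.2}.indicator
      (fun z => ENNReal.ofReal (z.1 ^ (p - 1 - p₁)) * ENNReal.ofReal (h z.2 ^ p₁)) := ⟨_, rfl⟩
  have hFm : Measurable F := by
    rw [hF]
    refine Measurable.indicator ?_ (measurableSet_lt measurable_fst (h2m.comp measurable_snd))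
    exact ((measurable_fst.pow_const _).ennreal_ofReal).mul
      (((hm.comp measurable_snd).pow_const _).ennreal_ofReal)
  have e1 : ∀ t : ℝ, ENNReal.ofReal (t ^ (p - 1 - p₁)) *
      ∫⁻ x in {x | t < 2 * h x}, ENNReal.ofReal (h x ^ p₁) ∂μ = ∫⁻ x, F (t, x) ∂μ := by
    intro t
    rw [← lintegral_const_mul _ ((hm.pow_const _).ennreal_ofReal),
      ← lintegral_indicator (measurableSet_lt measurable_const h2m)]
    refine lintegral_congr fun x => ?_
    rw [hF]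
    by_cases hx : t < 2 * h x
    · rw [indicator_of_mem (show x ∈ {x | t < 2 * h x} from hx),
        indicator_of_mem (show (t, x) ∈ {z : ℝ × α | z.1 < 2 * h z.2} from hx)]
    · rw [indicator_of_notMem (show x ∉ {x | t < 2 * h x} from hx),
        indicator_of_notMem (show (t, x) ∉ {z : ℝ × α | z.1 < 2 * h z.2} from hx)]
  simp_rw [e1]
  rw [lintegral_lintegral_swap (f := fun t x => F (t, x)) hFm.aemeasurable,
    ← lintegral_const_mul _ ((hm.pow_const p).ennreal_ofReal)]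
  refine lintegral_mono fun x => ?_
  have hx2 : 0 ≤ 2 * h x := by
    have := h0 x
    positivity
  have hmt : Measurable fun t : ℝ => ENNReal.ofReal (t ^ (p - 1 - p₁)) :=
    (measurable_id.pow_const _).ennreal_ofReal
  have e2 : ∫⁻ t in Ioi (0 : ℝ), F (t, x) ≤
      ∫⁻ t in Ioc 0 (2 * h x), ENNReal.ofReal (t ^ (p - 1 - p₁)) * ENNReal.ofReal (h x ^ p₁) := by
    rw [← lintegral_indicator measurableSet_Ioi, ← lintegral_indicator measurableSet_Ioc]
    refine lintegral_mono fun t => ?_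
    by_cases ht : t ∈ Ioi (0 : ℝ)
    · rw [indicator_of_mem ht, hF]
      by_cases hxt : t < 2 * h x
      · rw [indicator_of_mem (show (t, x) ∈ {z : ℝ × α | z.1 < 2 * h z.2} from hxt),
          indicator_of_mem (show t ∈ Ioc 0 (2 * h x) from ⟨ht, hxt.le⟩)]
      · rw [indicator_of_notMem (show (t, x) ∉ {z : ℝ × α | z.1 < 2 * h z.2} from hxt)]
        exact zero_le
    · rw [indicator_of_notMem ht]
      exact zero_le
  refine e2.trans ?_
  rw [lintegral_mul_const _ hmt, IntA_head (by linarith) hx2]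
  have hpp : 0 < p - p₁ := by linarith
  have h3 : p - 1 - p₁ + 1 = p - p₁ := by ring
  rw [h3, ← ENNReal.ofReal_mul (by positivity), ← ENNReal.ofReal_mul (by positivity)]
  refine le_of_eq ?_
  congr 1
  have e3 : h x ^ p = h x ^ (p - p₁) * h x ^ p₁ := by
    rw [← Real.rpow_add_of_nonneg (h0 x) (by linarith) (by linarith)]
    congr 1
    ring
  rw [e3, Real.mul_rpow (by norm_num) (h0 x)]
  ring

/-- Integration of the weak type estimates. -/
theorem interpol (hd : 0 < d) {p₁ p : ℝ} (h1 : 1 ≤ p₁) (h2 : p₁ < p) (h3 : p < 2) (C : ℝ≥0)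
    (hC : 0 < C) : ∃ C' : ℝ≥0, ∀ (G H : E d → E d), Measurable G → Continuous H →
      HasCompactSupport H → (∀ l : ℝ≥0∞, l ≠ 0 → l ≠ ⊤ → l ^ 2 * volume {x | C * l < ‖G x‖ₑ} ≤
        C * ((∫⁻ x in {x | ‖H x‖ₑ ≤ l}, ‖H x‖ₑ ^ 2) + l ^ 2 * volume (Lv (fp p₁ H) (l ^ p₁)))) →
      ∫⁻ x, ‖G x‖ₑ ^ p ≤ C' * ∫⁻ x, ‖H x‖ₑ ^ p := by
  have hc : (0 : ℝ) < (C : ℝ) := NNReal.coe_pos.2 hC
  have hp0 : 0 < p := by linarith
  have h2p : 0 < 2 - p := by linarith
  have hpp : 0 < p - p₁ := by linarith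
  refine ⟨Real.toNNReal ((C : ℝ) ^ p * (p * ((C : ℝ) * (1 / (2 - p)) +
    2 * (C : ℝ) * (2 ^ (p - p₁) / (p - p₁))))), fun G H hG hH hHc hyp => ?_⟩
  have hGe : ∀ x, ‖G x‖ₑ = ENNReal.ofReal ‖G x‖ := fun x => (ofReal_norm _).symm
  have hHe : ∀ x, ‖H x‖ₑ = ENNReal.ofReal ‖H x‖ := fun x => (ofReal_norm _).symm
  have hHm : Measurable fun x => ‖H x‖ := hH.norm.measurable
  have hH0 : ∀ x, 0 ≤ ‖H x‖ := fun x => norm_nonneg _
  have hHp : ∀ x, ∀ q : ℝ, 0 ≤ q → ‖H x‖ₑ ^ q = ENNReal.ofReal (‖H x‖ ^ q) := by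
    intro x q hq
    rw [hHe, ENNReal.ofReal_rpow_of_nonneg (norm_nonneg _) hq]
  -- layer cake
  have e1 : ∫⁻ x, ‖G x‖ₑ ^ p = ENNReal.ofReal ((C : ℝ) ^ p) *
      (ENNReal.ofReal p * ∫⁻ t in Ioi (0 : ℝ), volume {x | t < ‖G x‖ / C} *
        ENNReal.ofReal (t ^ (p - 1))) := by
    rw [← lintegral_rpow_eq_lintegral_meas_lt_mul (μ := (volume : Measure (E d)))
      (f := fun x => ‖G x‖ / C) (Filter.Eventually.of_forall fun x => by
        simp only [Pi.zero_apply]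
        positivity) (hG.norm.div_const _).aemeasurable hp0,
      ← lintegral_const_mul _ (((hG.norm.div_const _).pow_const p).ennreal_ofReal)]
    refine lintegral_congr fun x => ?_
    rw [hGe, ENNReal.ofReal_rpow_of_nonneg (norm_nonneg _) hp0.le,
      ← ENNReal.ofReal_mul (by positivity), Real.div_rpow (norm_nonneg _) hc.le]
    congr 1
    field_simp
  have hfin : ∫⁻ x, fp p₁ H x ≠ ⊤ := by
    have hi : Integrable (fun x => ‖H x‖ ^ p₁) (volume : Measure (E d)) := by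
      refine Continuous.integrable_of_hasCompactSupport
        (hH.norm.rpow_const fun x => Or.inr (by linarith)) ?_
      exact hHc.norm.comp_left (g := fun y : ℝ => y ^ p₁) (Real.zero_rpow (by linarith))
    have h4 := hi.lintegral_lt_top
    have h5 : ∫⁻ x, fp p₁ H x = ∫⁻ x, ENNReal.ofReal (‖H x‖ ^ p₁) :=
      lintegral_congr fun x => hHp x p₁ (by linarith)
    rw [h5]
    exact h4.ne
  have hfm : Measurable (fp p₁ H) := hH.measurable.enorm.pow_const p₁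
  -- the pointwise estimate
  have e2 : ∀ t ∈ Ioi (0 : ℝ), volume {x | t < ‖G x‖ / C} * ENNReal.ofReal (t ^ (p - 1)) ≤
      (C : ℝ≥0∞) * (ENNReal.ofReal (t ^ (p - 3)) *
        ∫⁻ x in {x | ‖H x‖ ≤ t}, ENNReal.ofReal (‖H x‖ ^ 2)) +
      2 * (C : ℝ≥0∞) * (ENNReal.ofReal (t ^ (p - 1 - p₁)) *
        ∫⁻ x in {x | t < 2 * ‖H x‖}, ENNReal.ofReal (‖H x‖ ^ p₁)) := by
    intro t ht
    have ht0 : (0 : ℝ) < t := ht
    obtain ⟨l, hl⟩ : ∃ l : ℝ≥0∞, l = ENNReal.ofReal t := ⟨_, rfl⟩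
    have hl0 : l ≠ 0 := by
      rw [hl]
      exact (ENNReal.ofReal_pos.2 ht0).ne'
    have hl1 : l ≠ ⊤ := by
      rw [hl]
      exact ENNReal.ofReal_ne_top
    have hlp : l ^ p₁ = ENNReal.ofReal (t ^ p₁) := by
      rw [hl, ENNReal.ofReal_rpow_of_nonneg ht0.le (by linarith)]
    have hlp0 : l ^ p₁ ≠ 0 := by
      rw [hlp]
      exact (ENNReal.ofReal_pos.2 (by positivity)).ne'
    have hlp1 : l ^ p₁ ≠ ⊤ := by
      rw [hlp]
      exact ENNReal.ofReal_ne_top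
    have hl2 : l ^ 2 = ENNReal.ofReal (t ^ 2) := by
      rw [hl, ENNReal.ofReal_pow ht0.le]
    have hset : {x | t < ‖G x‖ / C} = {x | C * l < ‖G x‖ₑ} := by
      ext x
      rw [mem_ofPred_eq, mem_ofPred_eq, hGe, hl, lt_div_iff₀ hc,
        ← ENNReal.ofReal_coe_nnreal, ← ENNReal.ofReal_mul hc.le,
        ENNReal.ofReal_lt_ofReal_iff_of_nonneg (by positivity), mul_comm]
    have hA : ∫⁻ x in {x | ‖H x‖ₑ ≤ l}, ‖H x‖ₑ ^ 2 =
        ∫⁻ x in {x | ‖H x‖ ≤ t}, ENNReal.ofReal (‖H x‖ ^ 2) := by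
      have hs : {x | ‖H x‖ₑ ≤ l} = {x | ‖H x‖ ≤ t} := by
        ext x
        rw [mem_ofPred_eq, mem_ofPred_eq, hHe, hl, ENNReal.ofReal_le_ofReal_iff ht0.le]
      rw [hs]
      refine lintegral_congr fun x => ?_
      rw [hHe, ENNReal.ofReal_pow (norm_nonneg _)]
    have hB : l ^ p₁ * volume (Lv (fp p₁ H) (l ^ p₁)) ≤
        2 * ∫⁻ x in {x | t < 2 * ‖H x‖}, ENNReal.ofReal (‖H x‖ ^ p₁) := by
      refine (Lv_weak hd hfm hlp0 hlp1 hfin).trans ?_
      refine mul_le_mul' le_rfl ?_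
      have hs : {x | l ^ p₁ / 2 < fp p₁ H x} ⊆ {x | t < 2 * ‖H x‖} := by
        intro x hx
        rw [mem_ofPred_eq] at hx ⊢
        have hdiv : ENNReal.ofReal (t ^ p₁) / 2 = ENNReal.ofReal (t ^ p₁ / 2) := by
          rw [ENNReal.ofReal_div_of_pos (by norm_num), ENNReal.ofReal_ofNat]
        rw [fp, hHp x p₁ (by linarith), hlp, hdiv,
          ENNReal.ofReal_lt_ofReal_iff_of_nonneg (by positivity)] at hx
        have h6 : t ^ p₁ < (2 * ‖H x‖) ^ p₁ := by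
          rw [Real.mul_rpow (by norm_num) (norm_nonneg _)]
          have h7 : (2 : ℝ) ≤ 2 ^ p₁ := by
            calc (2 : ℝ) = 2 ^ (1 : ℝ) := (Real.rpow_one 2).symm
              _ ≤ 2 ^ p₁ := Real.rpow_le_rpow_of_exponent_le (by norm_num) h1
          have h8 : 0 ≤ ‖H x‖ ^ p₁ := by positivity
          nlinarith
        exact (Real.rpow_lt_rpow_iff ht0.le (by positivity) (by linarith)).1 h6
      refine (lintegral_mono_set hs).trans (le_of_eq ?_)
      exact lintegral_congr fun x => hHp x p₁ (by linarith)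
    have h4 := hyp l hl0 hl1
    rw [hA] at h4
    have h5 : ENNReal.ofReal (t ^ (p - 1)) = ENNReal.ofReal (t ^ (p - 3)) * l ^ 2 := by
      rw [hl2, ← ENNReal.ofReal_mul (by positivity), ← Real.rpow_natCast t 2,
        ← Real.rpow_add ht0]
      congr 2
      push_cast
      ring
    have h6 : ENNReal.ofReal (t ^ (p - 1)) = ENNReal.ofReal (t ^ (p - 1 - p₁)) * l ^ p₁ := by
      rw [hlp, ← ENNReal.ofReal_mul (by positivity), ← Real.rpow_add ht0]
      congr 2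
      ring
    rw [hset]
    obtain ⟨A, hAe⟩ : ∃ A : ℝ≥0∞,
        A = ∫⁻ x in {x | ‖H x‖ ≤ t}, ENNReal.ofReal (‖H x‖ ^ 2) := ⟨_, rfl⟩
    obtain ⟨B, hBe⟩ : ∃ B : ℝ≥0∞,
        B = ∫⁻ x in {x | t < 2 * ‖H x‖}, ENNReal.ofReal (‖H x‖ ^ p₁) := ⟨_, rfl⟩
    rw [← hAe] at h4 ⊢
    rw [← hBe] at hB ⊢
    calc volume {x | C * l < ‖G x‖ₑ} * ENNReal.ofReal (t ^ (p - 1))
        = ENNReal.ofReal (t ^ (p - 3)) * (l ^ 2 * volume {x | C * l < ‖G x‖ₑ}) := by
          rw [h5]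
          ring
      _ ≤ ENNReal.ofReal (t ^ (p - 3)) *
          (C * (A + l ^ 2 * volume (Lv (fp p₁ H) (l ^ p₁)))) := mul_le_mul' le_rfl h4
      _ = C * (ENNReal.ofReal (t ^ (p - 3)) * A) +
          C * (ENNReal.ofReal (t ^ (p - 3)) * l ^ 2 * volume (Lv (fp p₁ H) (l ^ p₁))) := by
          ring
      _ = C * (ENNReal.ofReal (t ^ (p - 3)) * A) + C * (ENNReal.ofReal (t ^ (p - 1 - p₁)) *
          (l ^ p₁ * volume (Lv (fp p₁ H) (l ^ p₁)))) := by
          rw [← h5, h6, mul_assoc (ENNReal.ofReal (t ^ (p - 1 - p₁)))]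
      _ ≤ C * (ENNReal.ofReal (t ^ (p - 3)) * A) + C * (ENNReal.ofReal (t ^ (p - 1 - p₁)) *
          (2 * B)) := by
          gcongr
      _ = _ := by ring
  have hmono : Monotone fun t : ℝ =>
      ∫⁻ x in {x | ‖H x‖ ≤ t}, ENNReal.ofReal (‖H x‖ ^ 2) := by
    intro s t hst
    exact lintegral_mono_set fun x hx => le_trans hx hst
  have hmeas : Measurable fun t : ℝ => (C : ℝ≥0∞) * (ENNReal.ofReal (t ^ (p - 3)) *
        ∫⁻ x in {x | ‖H x‖ ≤ t}, ENNReal.ofReal (‖H x‖ ^ 2)) :=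
    (((measurable_id.pow_const _).ennreal_ofReal).mul hmono.measurable).const_mul _
  have hm1 : Measurable fun t : ℝ => ENNReal.ofReal (t ^ (p - 3)) *
        ∫⁻ x in {x | ‖H x‖ ≤ t}, ENNReal.ofReal (‖H x‖ ^ 2) :=
    ((measurable_id.pow_const _).ennreal_ofReal).mul hmono.measurable
  have e3 : ∫⁻ t in Ioi (0 : ℝ), volume {x | t < ‖G x‖ / C} * ENNReal.ofReal (t ^ (p - 1)) ≤
      (C : ℝ≥0∞) * (ENNReal.ofReal (1 / (2 - p)) * ∫⁻ x, ENNReal.ofReal (‖H x‖ ^ p)) +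
      2 * (C : ℝ≥0∞) * (ENNReal.ofReal (2 ^ (p - p₁) / (p - p₁)) *
        ∫⁻ x, ENNReal.ofReal (‖H x‖ ^ p)) := by
    refine (setLIntegral_mono' measurableSet_Ioi e2).trans ?_
    rw [lintegral_add_left hmeas, lintegral_const_mul _ hm1,
      lintegral_const_mul' _ _ (ENNReal.mul_ne_top (by norm_num) ENNReal.coe_ne_top)]
    exact add_le_add (mul_le_mul' le_rfl (IntA_one volume hHm hH0 h3))
      (mul_le_mul' le_rfl (IntA_two volume hHm hH0 h1 h2))
  have e4 : ∫⁻ x, ‖H x‖ₑ ^ p = ∫⁻ x, ENNReal.ofReal (‖H x‖ ^ p) :=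
    lintegral_congr fun x => hHp x p hp0.le
  rw [e1, e4]
  refine (mul_le_mul' le_rfl (mul_le_mul' le_rfl e3)).trans (le_of_eq ?_)
  obtain ⟨N, hN⟩ : ∃ N : ℝ≥0∞, N = ∫⁻ x, ENNReal.ofReal (‖H x‖ ^ p) := ⟨_, rfl⟩
  rw [← hN]
  have e5 : ((Real.toNNReal ((C : ℝ) ^ p * (p * ((C : ℝ) * (1 / (2 - p)) +
      2 * (C : ℝ) * (2 ^ (p - p₁) / (p - p₁))))) : ℝ≥0) : ℝ≥0∞) = ENNReal.ofReal ((C : ℝ) ^ p) *
        (ENNReal.ofReal p * ((C : ℝ≥0∞) * ENNReal.ofReal (1 / (2 - p)) +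
        2 * (C : ℝ≥0∞) * ENNReal.ofReal (2 ^ (p - p₁) / (p - p₁)))) := by
    change ENNReal.ofReal _ = _
    rw [ENNReal.ofReal_mul (by positivity), ENNReal.ofReal_mul (by positivity),
      ENNReal.ofReal_add (by positivity) (by positivity), ENNReal.ofReal_mul (by positivity),
      ENNReal.ofReal_mul (by positivity), ENNReal.ofReal_mul (by positivity),
      ENNReal.ofReal_coe_nnreal, ENNReal.ofReal_ofNat]
  rw [e5]
  ring

end Pool.Agent.Lib.MP_ff3fe0_an_SPH
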