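import Pool.Agent.Lib.MP_ff3fe0_an_SPH.CvA

set_option autoImplicit false

/-!
# A radial bump function and the telescoping kernel
-/

namespace Pool.Agent.Lib.MP_ff3fe0_an_SPH

open MeasureTheory Metric Set
open scoped ENNReal NNReal ContDiff FourierTransform
open Pool.Agent.Lib.MP_ff3fe0_an

variable {d : ℕ}

/-! ### Smooth dependence on parameters -/

private theorem KerA_fderiv {F : Type} [NormedAddCommGroup F] [NormedSpace ℝ F]
    {f : E d × ℝ → F} (hf : ContDiff ℝ 1 f) (α β : ℝ) (x₀ : E d) :
    HasFDerivAt (fun x => ∫ r in α..β, f (x, r))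
      (∫ r in α..β, (fderiv ℝ f (x₀, r)).comp (ContinuousLinearMap.inl ℝ (E d) ℝ)) x₀ := by
  have hf' : Continuous fun p : E d × ℝ =>
      (fderiv ℝ f p).comp (ContinuousLinearMap.inl ℝ (E d) ℝ) :=
    (hf.continuous_fderiv one_ne_zero).clm_comp continuous_const
  obtain ⟨C, hC⟩ := ((isCompact_closedBall x₀ 1).prod (isCompact_uIcc (a := α) (b := β))
    ).exists_bound_of_continuousOn hf'.continuousOn
  refine intervalIntegral.hasFDerivAt_integral_of_dominated_of_fderiv_le
    (F := fun x r => f (x, r))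
    (F' := fun x r => (fderiv ℝ f (x, r)).comp (ContinuousLinearMap.inl ℝ (E d) ℝ))
    (bound := fun _ => C) (s := Metric.closedBall x₀ 1) (Metric.closedBall_mem_nhds x₀ one_pos)
    ?_ ?_ ?_ ?_ ?_ ?_
  · refine Filter.Eventually.of_forall fun x => ?_
    exact (hf.continuous.comp (by fun_prop : Continuous fun r : ℝ => (x, r))).aestronglyMeasurable
  · exact (hf.continuous.comp (by fun_prop : Continuous fun r : ℝ =>
      (x₀, r))).intervalIntegrable _ _
  · exact (hf'.comp (by fun_prop : Continuous fun r : ℝ => (x₀, r))).aestronglyMeasurable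
  · refine Filter.Eventually.of_forall fun t ht x hx => ?_
    exact hC (x, t) ⟨hx, uIoc_subset_uIcc ht⟩
  · exact intervalIntegrable_const
  · refine Filter.Eventually.of_forall fun t _ x _ => ?_
    have h1 : HasFDerivAt f (fderiv ℝ f (x, t)) (x, t) :=
      ((hf.differentiable one_ne_zero) (x, t)).hasFDerivAt
    have h2 : HasFDerivAt (fun y : E d => (y, t)) (ContinuousLinearMap.inl ℝ (E d) ℝ) x := by
      have := (hasFDerivAt_id (𝕜 := ℝ) x).prodMk (hasFDerivAt_const t x)
      exact this
    exact h1.comp x h2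

private theorem KerA_nat (n : ℕ) (α β : ℝ) : ∀ {F : Type} [NormedAddCommGroup F]
    [NormedSpace ℝ F] (f : E d × ℝ → F), ContDiff ℝ n f →
    ContDiff ℝ n (fun x => ∫ r in α..β, f (x, r)) := by
  induction n with
  | zero =>
    intro F _ _ f hf
    rw [Nat.cast_zero, contDiff_zero] at hf ⊢
    exact intervalIntegral.continuous_parametric_intervalIntegral_of_continuous'
      (f := fun x r => f (x, r)) (by exact hf) α β
  | succ n ih =>
    intro F _ _ f hf
    have h1 : ContDiff ℝ 1 f := hf.of_le (by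
      have : ((1:ℕ) : WithTop ℕ∞) ≤ ((n + 1 : ℕ) : WithTop ℕ∞) := by
        exact_mod_cast Nat.le_add_left 1 n
      exact_mod_cast this)
    have hn : ((n + 1 : ℕ) : WithTop ℕ∞) = (n : WithTop ℕ∞) + 1 := by push_cast; rfl
    rw [hn, contDiff_succ_iff_hasFDerivAt]
    refine ⟨fun x₀ => ∫ r in α..β,
      (fderiv ℝ f (x₀, r)).comp (ContinuousLinearMap.inl ℝ (E d) ℝ), ?_, ?_⟩
    · refine ih (fun p => (fderiv ℝ f p).comp (ContinuousLinearMap.inl ℝ (E d) ℝ)) ?_
      refine ContDiff.clm_comp ?_ contDiff_const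
      exact hf.fderiv_right (by rw [hn])
    · exact fun x => KerA_fderiv h1 α β x

private theorem KerA_param {F : Type} [NormedAddCommGroup F] [NormedSpace ℝ F]
    {f : E d × ℝ → F} (hf : ContDiff ℝ ∞ f) (α β : ℝ) :
    ContDiff ℝ ∞ (fun x => ∫ r in α..β, f (x, r)) := by
  rw [contDiff_infty] at hf ⊢
  exact fun n => KerA_nat n α β f (hf n)

/-! ### The derivative of the convolution in the scale -/

private theorem KerA_cs {X : E d → ℝ} {r : ℝ} (hs : ∀ y, r < ‖y‖ → X y = 0) :
    HasCompactSupport X := by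
  refine HasCompactSupport.intro (isCompact_closedBall (0 : E d) r) fun y hy => hs y ?_
  rw [mem_closedBall, dist_zero_right, not_le] at hy
  exact hy

private theorem KerA_grad {g : E d → ℝ} (hg : ContDiff ℝ ∞ g) : Continuous (gradient g) := by
  unfold gradient
  have h1 : Continuous (fderiv ℝ g) := hg.continuous_fderiv (by norm_num)
  exact (InnerProductSpace.toDual ℝ (E d)).symm.continuous.comp h1

private theorem KerA_gradb {g : E d → ℝ} (hg : ContDiff ℝ ∞ g) (hc : HasCompactSupport g) :
    ∃ C : ℝ, ∀ y, ‖gradient g y‖ ≤ C := by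
  have h1 : HasCompactSupport (gradient g) := by
    unfold gradient
    exact (hc.fderiv ℝ).comp_left (g := fun l => (InnerProductSpace.toDual ℝ (E d)).symm l)
      (map_zero _)
  obtain ⟨C, hC⟩ := h1.exists_bound_of_continuous (KerA_grad hg)
  exact ⟨C, hC⟩

/-- the derivative of the convolution in the scale -/
private noncomputable def KerAPhi (X : E d → ℝ) (g : E d → ℝ) (x : E d) (s : ℝ) : ℝ :=
  ∫ y, X y * inner ℝ y (gradient g (x - s • y))

private theorem KerA_line {g : E d → ℝ} (hg : ContDiff ℝ ∞ g) (x y : E d) (s : ℝ) :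
    HasDerivAt (fun s : ℝ => g (x - s • y)) (-inner ℝ y (gradient g (x - s • y))) s := by
  have h1 : HasFDerivAt g (fderiv ℝ g (x - s • y)) (x - s • y) :=
    (hg.differentiable (by norm_num) _).hasFDerivAt
  have h2 : HasDerivAt (fun s : ℝ => x - s • y) (-y) s := by
    have := ((hasDerivAt_id s).smul_const y).const_sub x
    simpa using this
  have h3 := h1.comp_hasDerivAt s h2
  refine h3.congr_deriv ?_
  rw [map_neg, real_inner_comm]
  unfold gradient
  rw [InnerProductSpace.toDual_symm_apply]

private theorem KerA_bound {X : E d → ℝ} {r : ℝ} (hs : ∀ y, r < ‖y‖ → X y = 0) {g : E d → ℝ}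
    {C : ℝ} (hC : ∀ y, ‖gradient g y‖ ≤ C) (hr : 0 ≤ r) (x y : E d) (s : ℝ) :
    ‖X y * inner ℝ y (gradient g (x - s • y))‖ ≤ ‖X y‖ * (r * C) := by
  rw [norm_mul]
  rcases le_or_gt ‖y‖ r with h | h
  · refine mul_le_mul_of_nonneg_left ?_ (norm_nonneg _)
    refine (norm_inner_le_norm _ _).trans ?_
    exact mul_le_mul h (hC _) (norm_nonneg _) hr
  · rw [hs y h, norm_zero, zero_mul, zero_mul]

private theorem KerA_cont (X : E d → ℝ) (hX : Continuous X) {g : E d → ℝ}
    (hg : ContDiff ℝ ∞ g) (x : E d) :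
    Continuous fun p : E d × ℝ => X p.1 * inner ℝ p.1 (gradient g (x - p.2 • p.1)) := by
  have h1 := KerA_grad hg
  have h2 : Continuous fun p : E d × ℝ => gradient g (x - p.2 • p.1) :=
    h1.comp (by fun_prop)
  exact (hX.comp continuous_fst).mul (continuous_fst.inner h2)

private theorem KerA_Phi_cont {X : E d → ℝ} (hX : Continuous X) {r : ℝ} (hr : 0 ≤ r)
    (hs : ∀ y, r < ‖y‖ → X y = 0) {g : E d → ℝ} (hg : ContDiff ℝ ∞ g)
    (hc : HasCompactSupport g) (x : E d) : Continuous (KerAPhi X g x) := by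
  obtain ⟨C, hC⟩ := KerA_gradb hg hc
  unfold KerAPhi
  refine continuous_of_dominated (bound := fun y => ‖X y‖ * (r * C)) ?_ ?_ ?_ ?_
  · intro s
    exact ((KerA_cont X hX hg x).comp (by fun_prop : Continuous fun y : E d =>
      (y, s))).aestronglyMeasurable
  · intro s
    exact Filter.Eventually.of_forall fun y => KerA_bound hs hC hr x y s
  · exact ((hX.integrable_of_hasCompactSupport (KerA_cs hs)).norm).mul_const _
  · refine Filter.Eventually.of_forall fun y => ?_
    exact (KerA_cont X hX hg x).comp (by fun_prop : Continuous fun s : ℝ => (y, s))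

private theorem KerA_deriv {X : E d → ℝ} (hX : Continuous X) {r : ℝ} (hr : 0 ≤ r)
    (hs : ∀ y, r < ‖y‖ → X y = 0) {g : E d → ℝ} (hg : ContDiff ℝ ∞ g)
    (hc : HasCompactSupport g) (x : E d) (s : ℝ) :
    HasDerivAt (fun s => cv X s g x) (-KerAPhi X g x s) s := by
  obtain ⟨C, hC⟩ := KerA_gradb hg hc
  have hXi : Integrable X := hX.integrable_of_hasCompactSupport (KerA_cs hs)
  have h1 := (hasDerivAt_integral_of_dominated_loc_of_deriv_le (μ := (volume : Measure (E d)))
    (F := fun s y => X y * g (x - s • y))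
    (F' := fun s y => X y * -inner ℝ y (gradient g (x - s • y))) (x₀ := s) (s := univ)
    (bound := fun y => ‖X y‖ * (r * C)) Filter.univ_mem ?_ ?_ ?_ ?_ ?_ ?_).2
  · unfold cv KerAPhi
    refine h1.congr_deriv ?_
    rw [← integral_neg]
    refine integral_congr_ae (Filter.Eventually.of_forall fun y => ?_)
    show X y * -inner ℝ y (gradient g (x - s • y)) = -(X y * inner ℝ y (gradient g (x - s • y)))
    ring
  · refine Filter.Eventually.of_forall fun s => ?_
    have : Continuous fun y : E d => X y * g (x - s • y) :=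
      hX.mul (hg.continuous.comp (by fun_prop))
    exact this.aestronglyMeasurable
  · have : Continuous fun y : E d => X y * g (x - s • y) :=
      hX.mul (hg.continuous.comp (by fun_prop))
    refine this.integrable_of_hasCompactSupport ?_
    exact (KerA_cs hs).mul_right
  · have h2 := ((KerA_cont X hX hg x).comp (by fun_prop : Continuous fun y : E d =>
      (y, s))).neg
    refine (h2.congr fun y => ?_).aestronglyMeasurable
    show -(X y * inner ℝ y (gradient g (x - s • y))) = X y * -inner ℝ y (gradient g (x - s • y))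
    ring
  · refine Filter.Eventually.of_forall fun y s _ => ?_
    have h3 := KerA_bound hs hC hr x y s
    have h4 : X y * -inner ℝ y (gradient g (x - s • y)) =
      -(X y * inner ℝ y (gradient g (x - s • y))) := by ring
    rw [h4, norm_neg]
    exact h3
  · exact hXi.norm.mul_const _
  · refine Filter.Eventually.of_forall fun y s _ => ?_
    exact (KerA_line hg x y s).const_mul (X y)

/-- the fundamental theorem of calculus in the scale -/
private theorem KerA_ftc {X : E d → ℝ} (hX : Continuous X) {r : ℝ} (hr : 0 ≤ r)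
    (hs : ∀ y, r < ‖y‖ → X y = 0) {g : E d → ℝ} (hg : ContDiff ℝ ∞ g)
    (hc : HasCompactSupport g) (x : E d) (b : ℝ) :
    ∫ u in (1 / 2 : ℝ)..1, b / u ^ 2 * KerAPhi X g x (b / u) = cv X b g x - cv X (2 * b) g x := by
  have hne : ∀ u ∈ uIcc (1 / 2 : ℝ) 1, u ≠ 0 := by
    intro u hu
    rw [uIcc_of_le (by norm_num)] at hu
    have := hu.1
    intro h
    rw [h] at this
    norm_num at this
  have h1 : ∀ u ∈ uIcc (1 / 2 : ℝ) 1, HasDerivAt (fun u : ℝ => cv X (b / u) g x)
      (b / u ^ 2 * KerAPhi X g x (b / u)) u := by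
    intro u hu
    have h2 : HasDerivAt (fun u : ℝ => b / u) (-b / u ^ 2) u := by
      have := (hasDerivAt_inv (hne u hu)).const_mul b
      refine (this.congr_deriv ?_)
      field_simp
    have h3 := (KerA_deriv hX hr hs hg hc x (b / u)).comp u h2
    refine h3.congr_deriv ?_
    ring
  have h4 := intervalIntegral.integral_eq_sub_of_hasDerivAt h1 ?_
  · have e1 : b / (1 / 2) = 2 * b := by ring
    rw [h4, div_one, e1]
  · refine ContinuousOn.intervalIntegrable ?_
    have h5 : ContinuousOn (fun u : ℝ => b / u) (uIcc (1 / 2) 1) :=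
      continuousOn_const.div continuousOn_id hne
    have h6 : ContinuousOn (fun u : ℝ => b / u ^ 2) (uIcc (1 / 2) 1) :=
      continuousOn_const.div (continuousOn_id.pow 2) fun u hu => pow_ne_zero 2 (hne u hu)
    exact h6.mul ((KerA_Phi_cont hX hr hs hg hc x).comp_continuousOn h5)

/-- the change of variables for a fixed scale -/
private theorem KerA_cov (hd : 0 < d) (X : E d → ℝ) (g : E d → ℝ) (x : E d) (b : ℝ) {u : ℝ}
    (hu : 0 < u) :
    ∫ y, u ^ (d - 1) * X (u • y) * inner ℝ y (gradient g (x - b • y)) =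
      1 / u ^ 2 * KerAPhi X g x (b / u) := by
  have h1 := Measure.integral_comp_smul (volume : Measure (E d))
    (fun z => X z * inner ℝ (u⁻¹ • z) (gradient g (x - (b / u) • z))) u
  rw [finrank_euclideanSpace, Fintype.card_fin] at h1
  have h2 : ∀ y : E d, u ^ (d - 1) * X (u • y) * inner ℝ y (gradient g (x - b • y)) =
      u ^ (d - 1) * (X (u • y) * inner ℝ (u⁻¹ • u • y)
        (gradient g (x - (b / u) • u • y))) := by
    intro y
    rw [smul_smul, smul_smul, inv_mul_cancel₀ hu.ne', one_smul, div_mul_cancel₀ _ hu.ne',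
      mul_assoc]
  calc ∫ y, u ^ (d - 1) * X (u • y) * inner ℝ y (gradient g (x - b • y))
      = ∫ y, u ^ (d - 1) * (X (u • y) * inner ℝ (u⁻¹ • u • y)
        (gradient g (x - (b / u) • u • y))) :=
        integral_congr_ae (Filter.Eventually.of_forall h2)
    _ = u ^ (d - 1) * (|(u ^ d)⁻¹| •
        ∫ z, X z * inner ℝ (u⁻¹ • z) (gradient g (x - (b / u) • z))) := by
        rw [integral_const_mul, h1]
    _ = u ^ (d - 1) * (|(u ^ d)⁻¹| • (u⁻¹ * KerAPhi X g x (b / u))) := by
        congr 2
        unfold KerAPhi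
        rw [← integral_const_mul]
        refine integral_congr_ae (Filter.Eventually.of_forall fun z => ?_)
        show X z * inner ℝ (u⁻¹ • z) (gradient g (x - (b / u) • z)) =
          u⁻¹ * (X z * inner ℝ z (gradient g (x - (b / u) • z)))
        rw [real_inner_smul_left]
        ring
    _ = 1 / u ^ 2 * KerAPhi X g x (b / u) := by
        rw [abs_of_pos (by positivity), smul_eq_mul]
        obtain ⟨e, rfl⟩ : ∃ e, d = e + 1 := ⟨d - 1, by omega⟩
        rw [Nat.add_sub_cancel]
        field_simp
        ring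

/-- A smooth even bump function `X` supported in the ball of radius `r`, with integral `1`, and a
smooth odd vector kernel `ka` supported in the ball of radius `2 r` with `X_b - X_(2b) = div ka_b`.
(`X` is radial, `ka x = ∫ s in 1..2, s⁻¹ • X_s x • x`.) -/
theorem exists_bump (hd : 0 < d) (r : ℝ) (hr : 0 < r) : ∃ (X : E d → ℝ) (ka : E d → E d),
    ContDiff ℝ ∞ X ∧ (∀ y, r < ‖y‖ → X y = 0) ∧ ∫ y, X y = 1 ∧ (∀ y, X (-y) = X y) ∧
    ContDiff ℝ ∞ ka ∧ (∀ y, 2 * r < ‖y‖ → ka y = 0) ∧ (∀ y, ka (-y) = - ka y) ∧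
    ∀ g : E d → ℝ, ContDiff ℝ ∞ g → HasCompactSupport g → ∀ b : ℝ, 0 < b → ∀ x,
      cv X b g x - cv X (2 * b) g x = b * cvv ka b (gradient g) x := by
  obtain ⟨f, hf⟩ : ∃ f : ContDiffBump (0 : E d), f.rOut = r :=
    ⟨⟨r / 2, r, by positivity, by linarith⟩, rfl⟩
  set X : E d → ℝ := f.normed volume with hX
  have hXs : ContDiff ℝ ∞ X := f.contDiff_normed
  have hX0 : ∀ y, r < ‖y‖ → X y = 0 := by
    intro y hy
    have h1 : y ∉ Function.support X := by
      rw [hX, f.support_normed_eq, hf, mem_ball, dist_zero_right, not_lt]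
      exact hy.le
    exact Function.notMem_support.1 h1
  have hXe : ∀ y, X (-y) = X y := fun y => f.normed_neg y
  set a : E d → ℝ := fun y => ∫ u in (1 / 2 : ℝ)..1, u ^ (d - 1) * X (u • y) with ha
  have has : ContDiff ℝ ∞ a := by
    refine KerA_param (f := fun p : E d × ℝ => p.2 ^ (d - 1) * X (p.2 • p.1)) ?_ _ _
    exact (contDiff_snd.pow _).mul (hXs.comp (contDiff_snd.smul contDiff_fst))
  have ha0 : ∀ y, 2 * r < ‖y‖ → ∀ u ∈ Icc (1 / 2 : ℝ) 1, X (u • y) = 0 := by
    intro y hy u hu
    apply hX0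
    rw [norm_smul, Real.norm_of_nonneg (by linarith [hu.1])]
    nlinarith [hu.1, norm_nonneg y]
  refine ⟨X, fun y => a y • y, hXs, hX0, f.integral_normed, hXe, has.smul contDiff_id, ?_, ?_, ?_⟩
  · intro y hy
    have : a y = 0 := by
      rw [ha]
      show ∫ u in (1 / 2 : ℝ)..1, u ^ (d - 1) * X (u • y) = 0
      rw [intervalIntegral.integral_congr (g := fun _ => (0 : ℝ)), intervalIntegral.integral_zero]
      intro u hu
      rw [uIcc_of_le (by norm_num)] at hu
      show u ^ (d - 1) * X (u • y) = 0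
      rw [ha0 y hy u hu, mul_zero]
    show a y • y = 0
    rw [this, zero_smul]
  · intro y
    have : a (-y) = a y := by
      rw [ha]
      show ∫ u in (1 / 2 : ℝ)..1, u ^ (d - 1) * X (u • -y) =
        ∫ u in (1 / 2 : ℝ)..1, u ^ (d - 1) * X (u • y)
      refine intervalIntegral.integral_congr fun u _ => ?_
      show u ^ (d - 1) * X (u • -y) = u ^ (d - 1) * X (u • y)
      rw [smul_neg, hXe]
    show a (-y) • -y = -(a y • y)
    rw [this, smul_neg]
  · intro g hg hgc b hb x
    rw [← KerA_ftc hXs.continuous hr.le hX0 hg hgc x b]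
    -- the integrand on the product
    set G : E d × ℝ → ℝ := fun p =>
      p.2 ^ (d - 1) * X (p.2 • p.1) * inner ℝ p.1 (gradient g (x - b • p.1)) with hG
    have hGc : Continuous G := by
      have h2 : Continuous fun p : E d × ℝ => gradient g (x - b • p.1) :=
        (KerA_grad hg).comp (by fun_prop)
      have h3 : Continuous fun p : E d × ℝ => X (p.2 • p.1) := hXs.continuous.comp (by fun_prop)
      exact ((continuous_snd.pow _).mul h3).mul (continuous_fst.inner h2)
    have hGi : Integrable G ((volume : Measure (E d)).prod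
        ((volume : Measure ℝ).restrict (Ioc (1 / 2 : ℝ) 1))) := by
      have h4 : IntegrableOn G (closedBall (0 : E d) (2 * r) ×ˢ Icc (1 / 2 : ℝ) 1)
          ((volume : Measure (E d)).prod (volume : Measure ℝ)) :=
        hGc.continuousOn.integrableOn_compact ((isCompact_closedBall _ _).prod isCompact_Icc)
      have h5 : IntegrableOn G (univ ×ˢ Ioc (1 / 2 : ℝ) 1)
          ((volume : Measure (E d)).prod (volume : Measure ℝ)) := by
        refine h4.of_forall_sdiff_eq_zero (MeasurableSet.univ.prod measurableSet_Ioc) ?_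
        rintro ⟨y, u⟩ ⟨⟨-, hu⟩, h6⟩
        have h7 : 2 * r < ‖y‖ := by
          by_contra h8
          apply h6
          refine ⟨?_, Ioc_subset_Icc_self hu⟩
          rw [mem_closedBall, dist_zero_right]
          exact not_lt.1 h8
        show u ^ (d - 1) * X (u • y) * inner ℝ y (gradient g (x - b • y)) = 0
        rw [ha0 y h7 u (Ioc_subset_Icc_self hu), mul_zero, zero_mul]
      have h9 : (volume : Measure (E d)).prod ((volume : Measure ℝ).restrict
          (Ioc (1 / 2 : ℝ) 1)) = ((volume : Measure (E d)).prod (volume : Measure ℝ)).restrict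
          (univ ×ˢ Ioc (1 / 2 : ℝ) 1) := by
        rw [← Measure.prod_restrict, Measure.restrict_univ]
      rw [h9]
      exact h5
    have hswap := integral_integral_swap (f := fun y u => G (y, u)) hGi
    have h10 : cvv (fun y => a y • y) b (gradient g) x =
        ∫ y, ∫ u in Ioc (1 / 2 : ℝ) 1, G (y, u) := by
      unfold cvv
      refine integral_congr_ae (Filter.Eventually.of_forall fun y => ?_)
      show inner ℝ (a y • y) (gradient g (x - b • y)) = ∫ u in Ioc (1 / 2 : ℝ) 1, G (y, u)
      rw [real_inner_smul_left, ha]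
      show (∫ u in (1 / 2 : ℝ)..1, u ^ (d - 1) * X (u • y)) *
        inner ℝ y (gradient g (x - b • y)) = ∫ u in Ioc (1 / 2 : ℝ) 1, G (y, u)
      rw [intervalIntegral.integral_of_le (by norm_num), ← integral_mul_const]
    rw [h10, hswap, intervalIntegral.integral_of_le (by norm_num), ← integral_const_mul]
    refine setIntegral_congr_fun measurableSet_Ioc fun u hu => ?_
    have hu0 : 0 < u := by linarith [hu.1]
    show b / u ^ 2 * KerAPhi X g x (b / u) = b * ∫ y, G (y, u)
    have h11 : ∫ y, G (y, u) = 1 / u ^ 2 * KerAPhi X g x (b / u) := KerA_cov hd X g x b hu0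
    rw [h11]
    ring

end Pool.Agent.Lib.MP_ff3fe0_an_SPH
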