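import Pool.Agent.Lib.MP_ff3fe0_an_SPH.CvA

set_option autoImplicit false

/-!
# Smooth kernels
-/

namespace Pool.Agent.Lib.MP_ff3fe0_an_SPH

open MeasureTheory Metric Set
open scoped ENNReal NNReal ContDiff FourierTransform
open Pool.Agent.Lib.MP_ff3fe0_an

variable {d : ℕ}

/-- Smooth kernels supported in the ball of radius `r`. -/
structure KR (r : ℝ) (K : E d → ℝ) : Prop where
  smooth : ContDiff ℝ ∞ K
  supp : ∀ y, r < ‖y‖ → K y = 0

private theorem kerB_cs {r : ℝ} {K : E d → ℝ} (hK : KR r K) : HasCompactSupport K := by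
  refine HasCompactSupport.intro (isCompact_closedBall (0 : E d) r) (fun y hy => hK.supp y ?_)
  rw [mem_closedBall, dist_zero_right, not_le] at hy
  exact hy

private theorem kerB_bdd {r : ℝ} {K : E d → ℝ} (hK : KR r K) : ∃ C : ℝ, ∀ y, ‖K y‖ ≤ C :=
  (kerB_cs hK).exists_bound_of_continuous hK.smooth.continuous

theorem KR.cv_one {r s : ℝ} {K L : E d → ℝ} (hK : KR r K) (hL : KR s L) :
    KR (r + s) (cv K 1 L) := by
  refine ⟨?_, ?_⟩
  · have h1 : cv K 1 L = MeasureTheory.convolution K L (ContinuousLinearMap.mul ℝ ℝ) volume := by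
      funext x
      unfold cv
      rw [MeasureTheory.convolution_def]
      simp only [one_smul, ContinuousLinearMap.mul_apply']
    rw [h1]
    exact (kerB_cs hL).contDiff_convolution_right (ContinuousLinearMap.mul ℝ ℝ)
      hK.smooth.continuous.locallyIntegrable hL.smooth
  · intro x hx
    unfold cv
    have h1 : ∀ y, K y * L (x - (1 : ℝ) • y) = 0 := by
      intro y
      by_cases hy : r < ‖y‖
      · rw [hK.supp y hy, zero_mul]
      · have h2 : s < ‖x - (1 : ℝ) • y‖ := by
          rw [one_smul]
          have h3 := norm_sub_norm_le x y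
          linarith [not_lt.mp hy]
        rw [hL.supp _ h2, mul_zero]
    simp only [h1, integral_zero]

theorem KR.sub {r : ℝ} {K L : E d → ℝ} (hK : KR r K) (hL : KR r L) :
    KR r (fun y => K y - L y) := by
  refine ⟨hK.smooth.sub hL.smooth, fun y hy => ?_⟩
  rw [hK.supp y hy, hL.supp y hy, sub_zero]

theorem KR.add {r : ℝ} {K L : E d → ℝ} (hK : KR r K) (hL : KR r L) :
    KR r (fun y => K y + L y) := by
  refine ⟨hK.smooth.add hL.smooth, fun y hy => ?_⟩
  rw [hK.supp y hy, hL.supp y hy, add_zero]

theorem KR.dil {r : ℝ} {K : E d → ℝ} (hK : KR r K) :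
    KR (2 * r) (fun y => (2 ^ d)⁻¹ * K ((2 : ℝ)⁻¹ • y)) := by
  refine ⟨contDiff_const.mul (hK.smooth.comp (by fun_prop)), fun y hy => ?_⟩
  rw [hK.supp _ ?_, mul_zero]
  rw [norm_smul, norm_inv, Real.norm_ofNat]
  linarith

theorem cv_dil (K : E d → ℝ) (b : ℝ) (f : E d → ℝ) (x : E d) :
    cv (fun y => (2 ^ d)⁻¹ * K ((2 : ℝ)⁻¹ • y)) b f x = cv K (2 * b) f x := by
  unfold cv
  have h1 := Measure.integral_comp_smul (volume : Measure (E d))
    (fun z => K z * f (x - (2 * b) • z)) (2 : ℝ)⁻¹
  have h2 : ∀ y : E d, (2 * b) • (2 : ℝ)⁻¹ • y = b • y := by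
    intro y
    rw [smul_smul]
    congr 1
    ring
  simp only [h2] at h1
  have h3 : ∀ y : E d, (2 ^ d : ℝ)⁻¹ * K ((2 : ℝ)⁻¹ • y) * f (x - b • y) =
      (2 ^ d : ℝ)⁻¹ * (K ((2 : ℝ)⁻¹ • y) * f (x - b • y)) := fun y => by ring
  simp only [h3]
  rw [integral_const_mul, h1, finrank_euclideanSpace, Fintype.card_fin, smul_eq_mul, ← mul_assoc]
  have h4 : (2 ^ d : ℝ)⁻¹ * |((2 : ℝ)⁻¹ ^ d)⁻¹| = 1 := by
    rw [inv_pow, inv_inv, abs_of_pos (by positivity)]
    exact inv_mul_cancel₀ (by positivity)
  rw [h4, one_mul]

private theorem kerB_loc {f : E d → ℝ} (hf : LocallyIntegrable f) {b : ℝ} (hb : 0 < b) (x : E d)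
    (R : ℝ) : IntegrableOn (fun y => f (x - b • y)) (closedBall (0 : E d) R) := by
  have h1 : IntegrableOn f (closedBall x (b * R)) :=
    hf.integrableOn_isCompact (isCompact_closedBall _ _)
  have h2 : Integrable ((closedBall x (b * R)).indicator f) :=
    (integrable_indicator_iff isClosed_closedBall.measurableSet).mpr h1
  have h3 : Integrable (fun y => (closedBall x (b * R)).indicator f (x - b • y)) :=
    (h2.comp_sub_left x).comp_smul hb.ne'
  refine h3.integrableOn.congr_fun (fun y hy => ?_) isClosed_closedBall.measurableSet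
  refine indicator_of_mem ?_ f
  rw [mem_closedBall, dist_eq_norm, sub_sub_cancel_left, norm_neg, norm_smul,
    Real.norm_of_nonneg hb.le]
  rw [mem_closedBall, dist_zero_right] at hy
  exact mul_le_mul_of_nonneg_left hy hb.le

theorem cv_cv {r s : ℝ} {K L : E d → ℝ} (hK : KR r K) (hL : KR s L) {b : ℝ} (hb : 0 < b)
    {f : E d → ℝ} (hf : LocallyIntegrable f) (x : E d) :
    cv (cv K 1 L) b f x = cv K b (cv L b f) x := by
  have hm : AEStronglyMeasurable (fun y => f (x - b • y)) (volume : Measure (E d)) := by
    have h1 : LocallyIntegrable (fun y => f (x - b • y)) (volume : Measure (E d)) := by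
      intro y
      refine ⟨closedBall 0 (‖y‖ + 1), ?_, kerB_loc hf hb x _⟩
      refine Filter.mem_of_superset (ball_mem_nhds y one_pos) (fun z hz => ?_)
      rw [mem_closedBall, dist_zero_right]
      rw [mem_ball, dist_eq_norm] at hz
      have := norm_add_le (z - y) y
      rw [sub_add_cancel] at this
      linarith
    exact h1.aestronglyMeasurable
  obtain ⟨C, hC⟩ := kerB_bdd hL
  have hKi : Integrable K := hK.smooth.continuous.integrable_of_hasCompactSupport (kerB_cs hK)
  have hint : Integrable (Function.uncurry (fun (y z : E d) =>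
      K z * L (y - z) * f (x - b • y))) ((volume : Measure (E d)).prod volume) := by
    have h2 : Integrable ((closedBall (0 : E d) (r + s)).indicator (fun y => f (x - b • y))) :=
      (integrable_indicator_iff isClosed_closedBall.measurableSet).mpr (kerB_loc hf hb x _)
    have h3 : Integrable (fun q : E d × E d =>
        (closedBall (0 : E d) (r + s)).indicator (fun y => f (x - b • y)) q.1 * (C * K q.2))
        ((volume : Measure (E d)).prod volume) := h2.mul_prod (hKi.const_mul C)
    refine h3.mono ?_ ?_
    · refine AEStronglyMeasurable.mul ?_ ?_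
      · have h4 : Continuous (fun q : E d × E d => K q.2 * L (q.1 - q.2)) :=
          (hK.smooth.continuous.comp continuous_snd).mul
            (hL.smooth.continuous.comp (continuous_fst.sub continuous_snd))
        exact h4.aestronglyMeasurable
      · exact hm.comp_fst
    · refine Filter.Eventually.of_forall (fun q => ?_)
      obtain ⟨y, z⟩ := q
      simp only [Function.uncurry]
      by_cases hz : r < ‖z‖
      · rw [hK.supp z hz, zero_mul, zero_mul, norm_zero]
        exact norm_nonneg _
      · by_cases hy : s < ‖y - z‖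
        · rw [hL.supp _ hy, mul_zero, zero_mul, norm_zero]
          exact norm_nonneg _
        · have hyz : y ∈ closedBall (0 : E d) (r + s) := by
            rw [mem_closedBall, dist_zero_right]
            have := norm_add_le (y - z) z
            rw [sub_add_cancel] at this
            linarith [not_lt.mp hz, not_lt.mp hy]
          rw [indicator_of_mem hyz]
          have hC0 : 0 ≤ C := (norm_nonneg _).trans (hC 0)
          have h5 := hC (y - z)
          rw [norm_mul, norm_mul, norm_mul, norm_mul, Real.norm_of_nonneg hC0]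
          calc ‖K z‖ * ‖L (y - z)‖ * ‖f (x - b • y)‖ ≤ ‖K z‖ * C * ‖f (x - b • y)‖ := by
                gcongr
            _ = _ := by ring
  have e1 : cv (cv K 1 L) b f x = ∫ y, ∫ z, K z * L (y - z) * f (x - b • y) := by
    unfold cv
    refine integral_congr_ae (Filter.Eventually.of_forall (fun y => ?_))
    simp only [one_smul]
    rw [← integral_mul_const]
  have e2 : cv K b (cv L b f) x = ∫ z, ∫ y, K z * L (y - z) * f (x - b • y) := by
    unfold cv
    refine integral_congr_ae (Filter.Eventually.of_forall (fun z => ?_))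
    simp only
    rw [← integral_const_mul]
    have h6 := integral_sub_right_eq_self (μ := (volume : Measure (E d)))
      (fun w => K z * (L w * f (x - b • z - b • w))) z
    rw [← h6]
    refine integral_congr_ae (Filter.Eventually.of_forall (fun y => ?_))
    simp only
    have h7 : x - b • z - b • (y - z) = x - b • y := by
      rw [smul_sub]
      abel
    rw [h7]
    ring
  rw [e1, e2]
  exact integral_integral_swap hint

theorem cv_comm {r s : ℝ} {K L : E d → ℝ} (hK : KR r K) (hL : KR s L) :
    cv K 1 L = cv L 1 K := by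
  funext x
  unfold cv
  have h1 := integral_sub_left_eq_self (fun y => K y * L (x - (1 : ℝ) • y))
    (volume : Measure (E d)) x
  rw [← h1]
  refine integral_congr_ae (Filter.Eventually.of_forall (fun y => ?_))
  simp only [one_smul, sub_sub_cancel]
  ring

end Pool.Agent.Lib.MP_ff3fe0_an_SPH
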