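import Pool.Agent.Lib.MP_ff3fe0_an_SPH.KerD

set_option autoImplicit false

/-!
# The algebra of the kernels
-/

namespace Pool.Agent.Lib.MP_ff3fe0_an_SPH

open MeasureTheory Metric Set
open scoped ENNReal NNReal ContDiff FourierTransform
open Pool.Agent.Lib.MP_ff3fe0_an

variable {d : ℕ}

variable {X K : E d → ℝ} {r s b : ℝ}

/-- The operator `K ↦ K - X * K` on kernels. -/
noncomputable def op (X K : E d → ℝ) (y : E d) : ℝ := K y - cv X 1 K y

/-- The operator `f ↦ f - X_b * f` on functions. -/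
noncomputable def opf (X : E d → ℝ) (b : ℝ) (f : E d → ℝ) (y : E d) : ℝ := f y - cv X b f y

/-- The kernel `δ - (δ - X) ^ n`. -/
noncomputable def phi (X : E d → ℝ) (n : ℕ) (y : E d) : ℝ :=
  ∑ l ∈ Finset.range n, (op X)^[l] X y

theorem KerE_mono {r s : ℝ} (h : r ≤ s) {K : E d → ℝ} (hK : KR r K) : KR s K :=
  ⟨hK.smooth, fun y hy => hK.supp y (lt_of_le_of_lt h hy)⟩

theorem KerE_zero (r : ℝ) : KR r (fun _ : E d => (0 : ℝ)) := ⟨contDiff_const, fun _ _ => rfl⟩

theorem KerE_sum {ι : Type*} (t : Finset ι) (F : ι → E d → ℝ) {r : ℝ} (h : ∀ i ∈ t, KR r (F i)) :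
    KR r (fun y => ∑ i ∈ t, F i y) :=
  ⟨ContDiff.sum fun i hi => (h i hi).smooth,
    fun y hy => Finset.sum_eq_zero fun i hi => (h i hi).supp y hy⟩

theorem KerE_cpt {r : ℝ} {K : E d → ℝ} (hK : KR r K) : HasCompactSupport K := by
  refine HasCompactSupport.intro (isCompact_closedBall (0 : E d) r) fun y hy => hK.supp y ?_
  rw [mem_closedBall_zero_iff, not_le] at hy
  exact hy

theorem KerE_int {r b : ℝ} {K f : E d → ℝ} (hK : KR r K) (hb : 0 < b) (hf : LocallyIntegrable f)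
    (x : E d) : Integrable (fun y => K y * f (x - b • y)) := by
  have h1 : Continuous fun z : E d => K (b⁻¹ • (x - z)) :=
    hK.smooth.continuous.comp ((continuous_const.sub continuous_id).const_smul b⁻¹)
  have h2 : HasCompactSupport fun z : E d => K (b⁻¹ • (x - z)) := by
    refine HasCompactSupport.intro (isCompact_closedBall x (b * r)) fun z hz => hK.supp _ ?_
    rw [mem_closedBall, dist_eq_norm, not_le] at hz
    rw [norm_smul, Real.norm_of_nonneg (inv_nonneg.mpr hb.le), norm_sub_rev, inv_mul_eq_div,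
      lt_div_iff₀ hb, mul_comm]
    exact hz
  have h3 : Integrable (fun z : E d => f z • K (b⁻¹ • (x - z))) :=
    hf.integrable_smul_right_of_hasCompactSupport h1 h2
  have h4 := (h3.comp_sub_left x).comp_smul hb.ne'
  refine h4.congr (Filter.Eventually.of_forall fun y => ?_)
  show f (x - b • y) • K (b⁻¹ • (x - (x - b • y))) = K y * f (x - b • y)
  rw [sub_sub_cancel, smul_smul, inv_mul_cancel₀ hb.ne', one_smul, smul_eq_mul, mul_comm]

theorem KerE_cv_add {r s b : ℝ} {K L f : E d → ℝ} (hK : KR r K) (hL : KR s L) (hb : 0 < b)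
    (hf : LocallyIntegrable f) (x : E d) :
    cv (fun y => K y + L y) b f x = cv K b f x + cv L b f x := by
  unfold cv
  rw [← integral_add (KerE_int hK hb hf x) (KerE_int hL hb hf x)]
  refine integral_congr_ae (Filter.Eventually.of_forall fun y => ?_)
  show (K y + L y) * f (x - b • y) = K y * f (x - b • y) + L y * f (x - b • y)
  ring

theorem KerE_cv_sub {r s b : ℝ} {K L f : E d → ℝ} (hK : KR r K) (hL : KR s L) (hb : 0 < b)
    (hf : LocallyIntegrable f) (x : E d) :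
    cv (fun y => K y - L y) b f x = cv K b f x - cv L b f x := by
  unfold cv
  rw [← integral_sub (KerE_int hK hb hf x) (KerE_int hL hb hf x)]
  refine integral_congr_ae (Filter.Eventually.of_forall fun y => ?_)
  show (K y - L y) * f (x - b • y) = K y * f (x - b • y) - L y * f (x - b • y)
  ring

theorem KerE_cv_cont {r b : ℝ} {K f : E d → ℝ} (hK : KR r K) (hf : Continuous f) :
    Continuous (cv K b f) := by
  have h1 : cv K b f = fun x => ∫ y in closedBall (0 : E d) r, K y * f (x - b • y) := by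
    funext x
    unfold cv
    symm
    refine setIntegral_eq_integral_of_forall_compl_eq_zero fun y hy => ?_
    rw [mem_closedBall_zero_iff, not_le] at hy
    rw [hK.supp y hy, zero_mul]
  rw [h1]
  refine continuous_parametric_integral_of_continuous ?_ (isCompact_closedBall (0 : E d) r)
  have h2 : Continuous fun p : E d × E d => K p.2 := hK.smooth.continuous.comp continuous_snd
  have h3 : Continuous fun p : E d × E d => f (p.1 - b • p.2) :=
    hf.comp (continuous_fst.sub (continuous_snd.const_smul b))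
  exact h2.mul h3

theorem KerE_op_KR {r s : ℝ} {X K : E d → ℝ} (hs : 0 ≤ s) (hX : KR s X) (hK : KR r K) :
    KR (r + s) (op X K) := by
  have h1 := hX.cv_one hK
  rw [add_comm] at h1
  exact (KerE_mono (by linarith) hK).sub h1

theorem op_iter_KR (hs : 0 ≤ s) (hX : KR s X) (hK : KR r K) (l : ℕ) :
    KR (r + l * s) ((op X)^[l] K) := by
  induction l with
  | zero => simpa using hK
  | succ l ih =>
    rw [Function.iterate_succ_apply']
    have h1 := KerE_op_KR hs hX ih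
    have e : r + ((l + 1 : ℕ) : ℝ) * s = r + l * s + s := by push_cast; ring
    rw [e]
    exact h1

theorem KerE_hat_int {r : ℝ} {K : E d → ℝ} (hK : KR r K) : Integrable (fun y => (K y : ℂ)) := by
  have h1 : Integrable K := hK.smooth.continuous.integrable_of_hasCompactSupport (KerE_cpt hK)
  exact h1.ofReal

theorem KerE_hat_add {r s : ℝ} {K L : E d → ℝ} (hK : KR r K) (hL : KR s L) (ξ : E d) :
    𝓕 (fun y => ((K y + L y : ℝ) : ℂ)) ξ =
      𝓕 (fun y => (K y : ℂ)) ξ + 𝓕 (fun y => (L y : ℂ)) ξ := by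
  have h1 := (Real.fourierIntegral_convergent_iff ξ).2 (KerE_hat_int hK)
  have h2 := (Real.fourierIntegral_convergent_iff ξ).2 (KerE_hat_int hL)
  rw [Real.fourier_eq, Real.fourier_eq, Real.fourier_eq, ← integral_add h1 h2]
  refine integral_congr_ae (Filter.Eventually.of_forall fun y => ?_)
  show _ • ((K y + L y : ℝ) : ℂ) = _ • (K y : ℂ) + _ • (L y : ℂ)
  rw [← smul_add, Complex.ofReal_add]

theorem KerE_hat_sub {r s : ℝ} {K L : E d → ℝ} (hK : KR r K) (hL : KR s L) (ξ : E d) :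
    𝓕 (fun y => ((K y - L y : ℝ) : ℂ)) ξ =
      𝓕 (fun y => (K y : ℂ)) ξ - 𝓕 (fun y => (L y : ℂ)) ξ := by
  have h1 := (Real.fourierIntegral_convergent_iff ξ).2 (KerE_hat_int hK)
  have h2 := (Real.fourierIntegral_convergent_iff ξ).2 (KerE_hat_int hL)
  rw [Real.fourier_eq, Real.fourier_eq, Real.fourier_eq, ← integral_sub h1 h2]
  refine integral_congr_ae (Filter.Eventually.of_forall fun y => ?_)
  show _ • ((K y - L y : ℝ) : ℂ) = _ • (K y : ℂ) - _ • (L y : ℂ)
  rw [← smul_sub, Complex.ofReal_sub]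

theorem op_iter_hat (hs : 0 ≤ s) (hX : KR s X) (hK : KR r K) (l : ℕ) (ξ : E d) :
    𝓕 (fun y => ((op X)^[l] K y : ℂ)) ξ =
      (1 - 𝓕 (fun y => (X y : ℂ)) ξ) ^ l * 𝓕 (fun y => (K y : ℂ)) ξ := by
  induction l with
  | zero => simp
  | succ l ih =>
    have hL := op_iter_KR hs hX hK l
    obtain ⟨L, hLd⟩ : ∃ L, L = (op X)^[l] K := ⟨_, rfl⟩
    rw [Function.iterate_succ_apply', ← hLd]
    rw [← hLd] at ih hL
    have h1 := KerE_hat_sub hL (hX.cv_one hL) ξ
    rw [fourier_cv hX hL ξ, ih] at h1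
    refine h1.trans ?_
    ring

theorem KerE_cv_op {r s b : ℝ} {X K f : E d → ℝ} (hX : KR s X) (hK : KR r K) (hb : 0 < b)
    (hf : LocallyIntegrable f) : cv (op X K) b f = opf X b (cv K b f) := by
  funext x
  have h1 := KerE_cv_sub hK (hX.cv_one hK) hb hf x
  rw [cv_cv hX hK hb hf x] at h1
  exact h1

theorem cv_op_iter (hs : 0 ≤ s) (hX : KR s X) (hK : KR r K) (hb : 0 < b) {f : E d → ℝ}
    (hf : LocallyIntegrable f) (l : ℕ) :
    cv ((op X)^[l] K) b f = (opf X b)^[l] (cv K b f) := by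
  induction l with
  | zero => rfl
  | succ l ih =>
    rw [Function.iterate_succ_apply', Function.iterate_succ_apply',
      KerE_cv_op hX (op_iter_KR hs hX hK l) hb hf, ih]

theorem KerE_phi_succ (X : E d → ℝ) (n : ℕ) :
    phi X (n + 1) = fun y => phi X n y + (op X)^[n] X y := by
  funext y
  unfold phi
  rw [Finset.sum_range_succ]

theorem phi_KR (hs : 0 ≤ s) (hX : KR s X) (n : ℕ) : KR (n * s) (phi X n) := by
  unfold phi
  refine KerE_sum _ _ fun l hl => ?_
  refine KerE_mono ?_ (op_iter_KR hs hX hX l)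
  have h1 : (l : ℝ) + 1 ≤ n := by exact_mod_cast Finset.mem_range.mp hl
  nlinarith

theorem phi_hat (hs : 0 ≤ s) (hX : KR s X) (n : ℕ) (ξ : E d) :
    𝓕 (fun y => (phi X n y : ℂ)) ξ = 1 - (1 - 𝓕 (fun y => (X y : ℂ)) ξ) ^ n := by
  induction n with
  | zero =>
    have h1 : (fun y : E d => (phi X 0 y : ℂ)) = fun _ => (0 : ℂ) := by
      funext y
      simp [phi]
    rw [h1, Real.fourier_eq]
    simp
  | succ n ih =>
    rw [KerE_phi_succ]
    rw [KerE_hat_add (phi_KR hs hX n) (op_iter_KR hs hX hX n) ξ, ih, op_iter_hat hs hX hX n ξ]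
    ring

/-! ### The operators on continuous functions -/

theorem KerE_opf_cont {X f : E d → ℝ} {s b : ℝ} (hX : KR s X) (hf : Continuous f) :
    Continuous (opf X b f) := hf.sub (KerE_cv_cont hX hf)

theorem KerE_cv_add_right {K f g : E d → ℝ} {r b : ℝ} (hK : KR r K) (hb : 0 < b)
    (hf : Continuous f) (hg : Continuous g) (x : E d) :
    cv K b (fun y => f y + g y) x = cv K b f x + cv K b g x := by
  unfold cv
  rw [← integral_add (KerE_int hK hb hf.locallyIntegrable x)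
    (KerE_int hK hb hg.locallyIntegrable x)]
  refine integral_congr_ae (Filter.Eventually.of_forall fun y => ?_)
  show K y * (f (x - b • y) + g (x - b • y)) = K y * f (x - b • y) + K y * g (x - b • y)
  ring

theorem KerE_cv_smul_right {K f : E d → ℝ} {b : ℝ} (c : ℝ) (x : E d) :
    cv K b (fun y => c * f y) x = c * cv K b f x := by
  unfold cv
  rw [← integral_const_mul]
  refine integral_congr_ae (Filter.Eventually.of_forall fun y => ?_)
  show K y * (c * f (x - b • y)) = c * (K y * f (x - b • y))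
  ring

/-- The convolution with a smooth kernel, as a linear map. -/
noncomputable def KerE_T {K : E d → ℝ} {r : ℝ} (hK : KR r K) {b : ℝ} (hb : 0 < b) :
    C(E d, ℝ) →ₗ[ℝ] C(E d, ℝ) where
  toFun f := ⟨cv K b f, KerE_cv_cont hK f.continuous⟩
  map_add' f g := by
    ext x
    exact KerE_cv_add_right hK hb f.continuous g.continuous x
  map_smul' c f := by
    ext x
    exact KerE_cv_smul_right c x

theorem KerE_T_comm {X : E d → ℝ} {s : ℝ} (hX : KR s X) {b b' : ℝ} (hb : 0 < b) (hb' : 0 < b')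
    (h2 : b' = 2 * b) : Commute (KerE_T hX hb) (KerE_T hX hb') := by
  subst h2
  refine LinearMap.ext fun f => ContinuousMap.ext fun x => ?_
  show cv X b (cv X (2 * b) f) x = cv X (2 * b) (cv X b f) x
  obtain ⟨X2, hX2⟩ : ∃ X2 : E d → ℝ, X2 = fun y => (2 ^ d)⁻¹ * X ((2 : ℝ)⁻¹ • y) := ⟨_, rfl⟩
  have hX2K : KR (2 * s) X2 := by rw [hX2]; exact hX.dil
  have e : ∀ g : E d → ℝ, cv X (2 * b) g = cv X2 b g := by
    intro g
    funext z
    rw [hX2, cv_dil]
  rw [e, e, ← cv_cv hX hX2K hb f.continuous.locallyIntegrable,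
    ← cv_cv hX2K hX hb f.continuous.locallyIntegrable, cv_comm hX hX2K]

theorem KerE_opf_iter {X : E d → ℝ} {s : ℝ} (hX : KR s X) {b : ℝ} (hb : 0 < b) (n : ℕ)
    (f : C(E d, ℝ)) : (opf X b)^[n] f = ((1 - KerE_T hX hb) ^ n) f := by
  rw [Module.End.pow_apply]
  induction n with
  | zero => rfl
  | succ n ih =>
    rw [Function.iterate_succ_apply', Function.iterate_succ_apply', ih]
    rfl

theorem KerE_cv_phi {X : E d → ℝ} {s : ℝ} (hs : 0 ≤ s) (hX : KR s X) (n : ℕ) {b : ℝ}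
    (hb : 0 < b) (f : C(E d, ℝ)) :
    cv (phi X n) b f = ((1 - (1 - KerE_T hX hb) ^ n) f : C(E d, ℝ)) := by
  induction n with
  | zero =>
    funext x
    simp [cv, phi]
  | succ n ih =>
    funext x
    rw [KerE_phi_succ, KerE_cv_add (phi_KR hs hX n) (op_iter_KR hs hX hX n) hb
      f.continuous.locallyIntegrable, ih, cv_op_iter hs hX hX hb f.continuous.locallyIntegrable n]
    have h1 : cv X b f = (KerE_T hX hb f : C(E d, ℝ)) := rfl
    rw [h1, KerE_opf_iter hX hb n]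
    obtain ⟨P, hP⟩ : ∃ P, P = KerE_T hX hb := ⟨_, rfl⟩
    rw [← hP]
    have h2 : (1 - (1 - P) ^ (n + 1)) = (1 - (1 - P) ^ n) + (1 - P) ^ n * P := by
      rw [pow_succ, mul_sub, mul_one]
      abel
    rw [h2]
    rfl

theorem cv_phi (hs : 0 ≤ s) (hX : KR s X) (n : ℕ) (hb : 0 < b) {f : E d → ℝ}
    (hf : Continuous f) : cv (phi X n) b f = fun y => f y - (opf X b)^[n] f y := by
  have h1 := KerE_cv_phi hs hX n hb ⟨f, hf⟩
  have h2 := KerE_opf_iter hX hb n ⟨f, hf⟩
  funext y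
  have h3 := congrFun h1 y
  have h4 := congrFun h2 y
  refine h3.trans ?_
  show f y - ((1 - KerE_T hX hb) ^ n) ⟨f, hf⟩ y = f y - (opf X b)^[n] f y
  rw [← h4]
  rfl

/-- The kernel `∑ (δ - X₂) ^ (n - 1 - l) (δ - X) ^ l (Φ + Φ₂)`, where `X₂` and `Φ₂` are the
dilations of `X` and `Φ` by the factor `2`. -/
noncomputable def Sk (X : E d → ℝ) (n : ℕ) (y : E d) : ℝ :=
  ∑ l ∈ Finset.range n, (op (fun y => (2 ^ d)⁻¹ * X ((2 : ℝ)⁻¹ • y)))^[n - 1 - l]
    ((op X)^[l] (fun y => phi X n y + (2 ^ d)⁻¹ * phi X n ((2 : ℝ)⁻¹ • y))) y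

theorem KerE_cv_sum {ι : Type*} (t : Finset ι) (F : ι → E d → ℝ) {r b : ℝ} (hb : 0 < b)
    (h : ∀ i ∈ t, KR r (F i)) {f : E d → ℝ} (hf : LocallyIntegrable f) (x : E d) :
    cv (fun y => ∑ i ∈ t, F i y) b f x = ∑ i ∈ t, cv (F i) b f x := by
  unfold cv
  rw [← integral_finsetSum t fun i hi => KerE_int (h i hi) hb hf x]
  refine integral_congr_ae (Filter.Eventually.of_forall fun y => ?_)
  show (∑ i ∈ t, F i y) * f (x - b • y) = ∑ i ∈ t, F i y * f (x - b • y)
  rw [Finset.sum_mul]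

/-- The identity in the ring of operators. -/
theorem KerE_ring {R : Type*} [Ring R] {P Q : R} (h : Commute P Q) (n : ℕ) :
    (1 - (1 - P) ^ n) * (1 - (1 - P) ^ n) - (1 - (1 - Q) ^ n) * (1 - (1 - Q) ^ n) =
      (∑ l ∈ Finset.range n, (1 - Q) ^ (n - 1 - l) * ((1 - P) ^ l *
        ((1 - (1 - P) ^ n) + (1 - (1 - Q) ^ n)))) * (P - Q) := by
  obtain ⟨T, hT⟩ : ∃ T, T = 1 - P := ⟨_, rfl⟩
  obtain ⟨U, hU⟩ : ∃ U, U = 1 - Q := ⟨_, rfl⟩
  have hPQ : P - Q = U - T := by rw [hT, hU]; noncomm_ring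
  rw [hPQ, ← hT, ← hU]
  have hTU : Commute T U := by
    rw [hT, hU]
    exact ((Commute.one_left _).sub_left ((Commute.one_right P).sub_right h))
  have hUT := hTU.symm
  obtain ⟨A, hA⟩ : ∃ A, A = 1 - T ^ n := ⟨_, rfl⟩
  obtain ⟨B, hB⟩ : ∃ B, B = 1 - U ^ n := ⟨_, rfl⟩
  rw [← hA, ← hB]
  have hAT : Commute A T := by
    rw [hA]; exact (Commute.one_left _).sub_left ((Commute.refl T).pow_left n)
  have hAU : Commute A U := by
    rw [hA]; exact (Commute.one_left _).sub_left (hTU.pow_left n)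
  have hBT : Commute B T := by
    rw [hB]; exact (Commute.one_left _).sub_left (hUT.pow_left n)
  have hBU : Commute B U := by
    rw [hB]; exact (Commute.one_left _).sub_left ((Commute.refl U).pow_left n)
  have hAB : Commute A B := by
    rw [hB]; exact (Commute.one_right _).sub_right (hAU.pow_right n)
  have h1 : ∀ l, U ^ (n - 1 - l) * (T ^ l * (A + B)) = (A + B) * (T ^ l * U ^ (n - 1 - l)) := by
    intro l
    have c1 : Commute (A + B) (T ^ l) := (hAT.pow_right l).add_left (hBT.pow_right l)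
    have c2 : Commute (A + B) (U ^ (n - 1 - l)) :=
      (hAU.pow_right _).add_left (hBU.pow_right _)
    have c3 : Commute (T ^ l) (U ^ (n - 1 - l)) := hTU.pow_pow _ _
    rw [← c1.eq, ← mul_assoc, ← c2.eq, mul_assoc, c3.eq]
  rw [Finset.sum_congr rfl fun l _ => h1 l, ← Finset.mul_sum, mul_assoc]
  have h2 := hTU.geom_sum₂_mul n
  have h3 : (∑ l ∈ Finset.range n, T ^ l * U ^ (n - 1 - l)) * (U - T) = A - B := by
    have h4 : U - T = -(T - U) := by noncomm_ring
    rw [h4, mul_neg, h2, hA, hB]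
    noncomm_ring
  rw [h3, hAB.mul_self_sub_mul_self_eq]

/-- The telescoping identity. -/
theorem cv_Sk (hs : 0 ≤ s) (hX : KR s X) (n : ℕ) (hb : 0 < b) {g : E d → ℝ}
    (hg : Continuous g) (x : E d) :
    cv (cv (phi X n) 1 (phi X n)) b g x - cv (cv (phi X n) 1 (phi X n)) (2 * b) g x =
      cv (Sk X n) b (fun y => cv X b g y - cv X (2 * b) g y) x := by
  have hb2 : 0 < 2 * b := by positivity
  have hphi := phi_KR hs hX n
  obtain ⟨P, hP⟩ : ∃ P, P = KerE_T hX hb := ⟨_, rfl⟩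
  obtain ⟨Q, hQ⟩ : ∃ Q, Q = KerE_T hX hb2 := ⟨_, rfl⟩
  obtain ⟨G, hG⟩ : ∃ G : C(E d, ℝ), G = ⟨g, hg⟩ := ⟨_, rfl⟩
  have hGg : (G : E d → ℝ) = g := by rw [hG]; rfl
  have hPc : ∀ f : C(E d, ℝ), cv (phi X n) b f = ((1 - (1 - P) ^ n) f : C(E d, ℝ)) := by
    intro f; rw [hP]; exact KerE_cv_phi hs hX n hb f
  have hQc : ∀ f : C(E d, ℝ), cv (phi X n) (2 * b) f = ((1 - (1 - Q) ^ n) f : C(E d, ℝ)) := by
    intro f; rw [hQ]; exact KerE_cv_phi hs hX n hb2 f
  have hcomm : Commute P Q := by rw [hP, hQ]; exact KerE_T_comm hX hb hb2 rfl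
  -- the left side
  have hl1 : cv (cv (phi X n) 1 (phi X n)) b g x =
      ((1 - (1 - P) ^ n) * (1 - (1 - P) ^ n)) G x := by
    rw [cv_cv hphi hphi hb hg.locallyIntegrable, ← hGg, hPc, hPc]
    rfl
  have hl2 : cv (cv (phi X n) 1 (phi X n)) (2 * b) g x =
      ((1 - (1 - Q) ^ n) * (1 - (1 - Q) ^ n)) G x := by
    rw [cv_cv hphi hphi hb2 hg.locallyIntegrable, ← hGg, hQc, hQc]
    rfl
  -- the right side
  have hh : (fun y => cv X b g y - cv X (2 * b) g y) = ((P - Q) G : C(E d, ℝ)) := by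
    rw [hP, hQ, ← hGg]
    rfl
  obtain ⟨H, hH⟩ : ∃ H : C(E d, ℝ), H = (P - Q) G := ⟨_, rfl⟩
  obtain ⟨X2, hX2⟩ : ∃ X2 : E d → ℝ, X2 = fun y => (2 ^ d)⁻¹ * X ((2 : ℝ)⁻¹ • y) := ⟨_, rfl⟩
  have hX2K : KR (2 * s) X2 := by rw [hX2]; exact hX.dil
  obtain ⟨M, hM⟩ : ∃ M : E d → ℝ,
    M = fun y => phi X n y + (2 ^ d)⁻¹ * phi X n ((2 : ℝ)⁻¹ • y) := ⟨_, rfl⟩
  have hMK : KR (2 * (n * s)) M := by
    rw [hM]
    exact (KerE_mono (by nlinarith [mul_nonneg (Nat.cast_nonneg (α := ℝ) n) hs]) hphi).add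
      hphi.dil
  have hMc : cv M b H = (((1 - (1 - P) ^ n) + (1 - (1 - Q) ^ n)) H : C(E d, ℝ)) := by
    funext z
    rw [hM, KerE_cv_add hphi hphi.dil hb H.continuous.locallyIntegrable, cv_dil, hPc, hQc]
    rfl
  have hopf2 : ∀ (m : ℕ) (f : C(E d, ℝ)), (opf X2 b)^[m] f = ((1 - Q) ^ m) f := by
    intro m f
    have e : opf X2 b = opf X (2 * b) := by
      funext f z
      unfold opf
      rw [hX2, cv_dil]
    rw [e, hQ]
    exact KerE_opf_iter hX hb2 m f
  have hopf1 : ∀ (m : ℕ) (f : C(E d, ℝ)), (opf X b)^[m] f = ((1 - P) ^ m) f := by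
    intro m f
    rw [hP]
    exact KerE_opf_iter hX hb m f
  have hLl : ∀ l, cv ((op X2)^[n - 1 - l] ((op X)^[l] M)) b H =
      (((1 - Q) ^ (n - 1 - l) * ((1 - P) ^ l *
        ((1 - (1 - P) ^ n) + (1 - (1 - Q) ^ n)))) H : C(E d, ℝ)) := by
    intro l
    have h2s : 0 ≤ 2 * s := by positivity
    rw [cv_op_iter h2s hX2K (op_iter_KR hs hX hMK l) hb H.continuous.locallyIntegrable,
      cv_op_iter hs hX hMK hb H.continuous.locallyIntegrable, hMc, hopf1, hopf2]
    rfl
  have hSk : Sk X n = fun y => ∑ l ∈ Finset.range n, (op X2)^[n - 1 - l] ((op X)^[l] M) y := by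
    rw [hX2, hM]
    rfl
  have hKl : ∀ l ∈ Finset.range n,
      KR (2 * (n * s) + n * s + n * (2 * s)) ((op X2)^[n - 1 - l] ((op X)^[l] M)) := by
    intro l hl
    have h2s : 0 ≤ 2 * s := by positivity
    have h3 := op_iter_KR h2s hX2K (op_iter_KR hs hX hMK l) (n - 1 - l)
    refine KerE_mono ?_ h3
    have h4 : (l : ℝ) ≤ n := by exact_mod_cast (Finset.mem_range.mp hl).le
    have h5 : ((n - 1 - l : ℕ) : ℝ) ≤ n := by exact_mod_cast (by omega : n - 1 - l ≤ n)
    have h6 := mul_le_mul_of_nonneg_right h4 hs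
    have h7 := mul_le_mul_of_nonneg_right h5 h2s
    linarith
  rw [hl1, hl2, hh, ← hH, hSk, KerE_cv_sum _ _ hb hKl H.continuous.locallyIntegrable,
    Finset.sum_congr rfl fun l _ => congrFun (hLl l) x]
  have hring := KerE_ring hcomm n
  have h8 := congrArg (fun R : Module.End ℝ C(E d, ℝ) => (R G) x) hring
  refine Eq.trans ?_ (h8.trans ?_)
  · rfl
  · show ((∑ l ∈ Finset.range n, (1 - Q) ^ (n - 1 - l) * ((1 - P) ^ l *
        ((1 - (1 - P) ^ n) + (1 - (1 - Q) ^ n)))) * (P - Q)) G x = _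
    rw [Module.End.mul_apply, ← hH, LinearMap.sum_apply, ContinuousMap.sum_apply]

end Pool.Agent.Lib.MP_ff3fe0_an_SPH
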