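import Pool.Agent.Lib.MP_ff3fe0_an_SPH.KerA
import Pool.Agent.Lib.MP_ff3fe0_an_SPH.KerE

set_option autoImplicit false

/-!
# Existence of the kernels
-/

namespace Pool.Agent.Lib.MP_ff3fe0_an_SPH

open MeasureTheory Metric Set
open scoped ENNReal NNReal ContDiff FourierTransform
open Pool.Agent.Lib.MP_ff3fe0_an

variable {d : ℕ}

/-! ### Evenness -/

private theorem KerC_cv_even {X K : E d → ℝ} (hX : ∀ y, X (-y) = X y) (hK : ∀ y, K (-y) = K y)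
    (y : E d) : cv X 1 K (-y) = cv X 1 K y := by
  unfold cv
  rw [← integral_neg_eq_self (fun z => X z * K (-y - (1:ℝ) • z)) volume]
  refine integral_congr_ae (Filter.Eventually.of_forall fun z => ?_)
  show X (-z) * K (-y - (1:ℝ) • (-z)) = X z * K (y - (1:ℝ) • z)
  have e : -y - (1:ℝ) • (-z) = -(y - (1:ℝ) • z) := by
    rw [smul_neg]
    abel
  rw [hX, e, hK]

private theorem KerC_iter_even {X : E d → ℝ} (hX : ∀ y, X (-y) = X y) (l : ℕ) :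
    ∀ y, (op X)^[l] X (-y) = (op X)^[l] X y := by
  induction l with
  | zero => exact hX
  | succ l ih =>
    intro y
    rw [Function.iterate_succ_apply']
    unfold op at ih ⊢
    rw [ih, KerC_cv_even hX ih]

private theorem KerC_phi_even {X : E d → ℝ} (hX : ∀ y, X (-y) = X y) (n : ℕ) (y : E d) :
    phi X n (-y) = phi X n y := by
  unfold phi
  exact Finset.sum_congr rfl fun l _ => KerC_iter_even hX l y

/-! ### The Fourier transforms -/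

private theorem KerC_hat_sum {ι : Type*} (t : Finset ι) (F : ι → E d → ℝ) {r : ℝ}
    (h : ∀ i ∈ t, KR r (F i)) (ξ : E d) :
    𝓕 (fun y => ((∑ i ∈ t, F i y : ℝ) : ℂ)) ξ = ∑ i ∈ t, 𝓕 (fun y => (F i y : ℂ)) ξ := by
  classical
  induction t using Finset.induction_on with
  | empty =>
    simp only [Finset.sum_empty]
    rw [Real.fourier_eq]
    simp
  | insert a s ha ih =>
    have h1 : (fun y : E d => ((∑ i ∈ insert a s, F i y : ℝ) : ℂ)) =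
        fun y => ((F a y + ∑ i ∈ s, F i y : ℝ) : ℂ) := by
      funext y
      rw [Finset.sum_insert ha]
    rw [h1, KerE_hat_add (h a (Finset.mem_insert_self a s))
      (KerE_sum s F fun i hi => h i (Finset.mem_insert_of_mem hi)) ξ,
      ih fun i hi => h i (Finset.mem_insert_of_mem hi), Finset.sum_insert ha]

private theorem KerC_zero {K : E d → ℝ} (h : ∫ y, K y = 1) :
    𝓕 (fun y => (K y : ℂ)) (0 : E d) = 1 := by
  rw [Real.fourier_eq]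
  have h1 : (fun v : E d => Real.fourierChar (-inner ℝ v (0 : E d)) • (K v : ℂ)) =
      fun v => (K v : ℂ) := by
    funext v
    simp
  have h2 : ∫ v : E d, (K v : ℂ) = ((∫ v : E d, K v : ℝ) : ℂ) := integral_complex_ofReal
  rw [h1, h2, h]
  simp

private theorem KerC_min {C B t a : ℝ} (hC : 0 ≤ C) (hB : 0 ≤ B) (ht : 0 ≤ t) (h1 : a ≤ C * t)
    (h2 : a ≤ B) : a ≤ 2 * (C + B) * (t / (1 + t)) := by
  have ht1 : 0 < 1 + t := by linarith
  rw [← mul_div_assoc, le_div_iff₀ ht1]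
  rcases le_total t 1 with h | h
  · have h3 : a * (1 + t) ≤ C * t * (1 + t) := mul_le_mul_of_nonneg_right h1 ht1.le
    have h4 : C * t * (1 + t) ≤ C * t * 2 := by
      refine mul_le_mul_of_nonneg_left (by linarith) (by positivity)
    have h5 : 0 ≤ B * t := by positivity
    nlinarith
  · have h3 : a * (1 + t) ≤ B * (1 + t) := mul_le_mul_of_nonneg_right h2 ht1.le
    have h4 : B * (1 + t) ≤ B * (2 * t) := mul_le_mul_of_nonneg_left (by linarith) hB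
    have h5 : 0 ≤ C * t := by positivity
    nlinarith

/-- The bounds for `1 - X^`. -/
private theorem KerC_X {r : ℝ} {X : E d → ℝ} (hX : KR r X) (h1 : ∫ y, X y = 1) :
    ∃ M : ℝ, 0 ≤ M ∧ ∀ ξ : E d,
      ‖1 - 𝓕 (fun y => (X y : ℂ)) ξ‖ ≤ M * (‖ξ‖ / (1 + ‖ξ‖)) ∧
      ‖1 - 𝓕 (fun y => (X y : ℂ)) ((2 : ℝ) • ξ)‖ ≤ M * (‖ξ‖ / (1 + ‖ξ‖)) := by
  obtain ⟨C, hC⟩ := fourier_order hX h1
  obtain ⟨B, hB⟩ := fourier_decay hX 0
  have hB0 : 0 ≤ B := by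
    have := (norm_nonneg _).trans (hB 0)
    simpa using this
  have hb : ∀ ξ : E d, ‖1 - 𝓕 (fun y => (X y : ℂ)) ξ‖ ≤
      2 * (|C| + (1 + B)) * (‖ξ‖ / (1 + ‖ξ‖)) := by
    intro ξ
    refine KerC_min (abs_nonneg C) (by positivity) (norm_nonneg _) ?_ ?_
    · exact (hC ξ).trans (mul_le_mul_of_nonneg_right (le_abs_self C) (norm_nonneg _))
    · refine (norm_sub_le _ _).trans ?_
      have := hB ξ
      rw [pow_zero, div_one] at this
      rw [norm_one]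
      linarith
  refine ⟨2 * (2 * (|C| + (1 + B))), by positivity, fun ξ => ⟨?_, ?_⟩⟩
  · refine (hb ξ).trans ?_
    have h2 : 0 ≤ 2 * (|C| + (1 + B)) * (‖ξ‖ / (1 + ‖ξ‖)) := by positivity
    linarith
  · refine (hb _).trans ?_
    have hn : ‖(2 : ℝ) • ξ‖ = 2 * ‖ξ‖ := by
      rw [norm_smul, Real.norm_of_nonneg (by norm_num)]
    rw [hn]
    have h3 : 2 * ‖ξ‖ / (1 + 2 * ‖ξ‖) ≤ 2 * (‖ξ‖ / (1 + ‖ξ‖)) := by
      have h0 := norm_nonneg ξ
      rw [← mul_div_assoc]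
      exact div_le_div_of_nonneg_left (by positivity) (by positivity) (by linarith)
    calc 2 * (|C| + (1 + B)) * (2 * ‖ξ‖ / (1 + 2 * ‖ξ‖))
        ≤ 2 * (|C| + (1 + B)) * (2 * (‖ξ‖ / (1 + ‖ξ‖))) := by
          refine mul_le_mul_of_nonneg_left h3 (by positivity)
      _ = 2 * (2 * (|C| + (1 + B))) * (‖ξ‖ / (1 + ‖ξ‖)) := by ring

/-- The bounds for `Phi^`. -/
private theorem KerC_Phi {r : ℝ} {K : E d → ℝ} (hK : KR r K) (n : ℕ) :
    ∃ D : ℝ, 0 ≤ D ∧ ∀ ξ : E d,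
      ‖𝓕 (fun y => (K y : ℂ)) ξ‖ ≤ D / (1 + ‖ξ‖) ^ n ∧
      ‖𝓕 (fun y => (K y : ℂ)) ((2 : ℝ) • ξ)‖ ≤ D / (1 + ‖ξ‖) ^ n := by
  obtain ⟨D, hD⟩ := fourier_decay hK n
  have hD0 : 0 ≤ D := by
    have := (norm_nonneg _).trans (hD 0)
    simpa using this
  refine ⟨D, hD0, fun ξ => ⟨hD ξ, (hD _).trans ?_⟩⟩
  have hn : ‖(2 : ℝ) • ξ‖ = 2 * ‖ξ‖ := by
    rw [norm_smul, Real.norm_of_nonneg (by norm_num)]
  rw [hn]
  have h0 := norm_nonneg ξ
  refine div_le_div_of_nonneg_left hD0 (by positivity) ?_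
  exact pow_le_pow_left₀ (by positivity) (by linarith) n

private theorem KerC_pow {M t : ℝ} (hM : 0 ≤ M) (ht : 0 ≤ t) {d n : ℕ} (h : d ≤ n) :
    (M * (t / (1 + t))) ^ n ≤ M ^ n * t ^ d := by
  have h1 : 0 ≤ t / (1 + t) := by positivity
  have h2 : t / (1 + t) ≤ 1 := by
    rw [div_le_one (by positivity)]
    linarith
  have h3 : t / (1 + t) ≤ t := div_le_self ht (by linarith)
  rw [mul_pow]
  refine mul_le_mul_of_nonneg_left ?_ (by positivity)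
  calc (t / (1 + t)) ^ n ≤ (t / (1 + t)) ^ d := pow_le_pow_of_le_one h1 h2 h
    _ ≤ t ^ d := pow_le_pow_left₀ h1 h3 d

/-- The support of the summands of the telescoping kernel. -/
private theorem KerC_KR {X : E d → ℝ} {n : ℕ} (hn : 0 < n)
    (hX : KR (1 / (4 * (n:ℝ))) X) (l : ℕ) (hl : l < n) :
    KR 1 ((op (fun y => (2 ^ d)⁻¹ * X ((2 : ℝ)⁻¹ • y)))^[n - 1 - l]
      ((op X)^[l] (fun y => phi X n y + (2 ^ d)⁻¹ * phi X n ((2 : ℝ)⁻¹ • y)))) := by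
  have hn' : (0:ℝ) < n := by exact_mod_cast hn
  have hr : (0:ℝ) ≤ 1 / (4 * (n:ℝ)) := by positivity
  have hphi := phi_KR hr hX n
  have hnr : (n:ℝ) * (1 / (4 * (n:ℝ))) = 1 / 4 := by field_simp
  rw [hnr] at hphi
  have hM : KR (1 / 2) (fun y => phi X n y + (2 ^ d)⁻¹ * phi X n ((2 : ℝ)⁻¹ • y)) := by
    refine (KerE_mono ?_ hphi).add (KerE_mono ?_ hphi.dil) <;> norm_num
  have h1 := op_iter_KR hr hX hM l
  have h2 := op_iter_KR (by positivity) hX.dil h1 (n - 1 - l)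
  refine KerE_mono ?_ h2
  have h3 : ((n - 1 - l : ℕ) : ℝ) = (n:ℝ) - 1 - l := by
    have : n = (n - 1 - l) + 1 + l := by omega
    have h4 : (n:ℝ) = ((n - 1 - l : ℕ) : ℝ) + 1 + l := by exact_mod_cast this
    linarith
  rw [h3]
  have h5 : (l:ℝ) * (1 / (4 * (n:ℝ))) + ((n:ℝ) - 1 - l) * (2 * (1 / (4 * (n:ℝ)))) ≤
      (n:ℝ) * (2 * (1 / (4 * (n:ℝ)))) := by
    have h6 : (0:ℝ) ≤ l := Nat.cast_nonneg l
    nlinarith [mul_nonneg h6 hr]
  have h7 : (n:ℝ) * (2 * (1 / (4 * (n:ℝ)))) = 1 / 2 := by field_simp; norm_num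
  linarith

theorem exists_ker (hd : 0 < d) : Nonempty (Ker d) := by
  obtain ⟨n, hn⟩ : ∃ n, n = d + 1 := ⟨_, rfl⟩
  have hn0 : 0 < n := by omega
  have hn' : (0:ℝ) < n := by exact_mod_cast hn0
  obtain ⟨r, hr⟩ : ∃ r : ℝ, r = 1 / (4 * (n:ℝ)) := ⟨_, rfl⟩
  have hr0 : 0 < r := by rw [hr]; positivity
  obtain ⟨X, ka, hXs, hX0, hX1, hXe, hks, hk0, hko, hkt⟩ := exists_bump hd r hr0
  have hX : KR r X := ⟨hXs, hX0⟩
  have hnr : (n:ℝ) * r = 1 / 4 := by rw [hr]; field_simp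
  have hphi : KR (1 / 4) (phi X n) := by
    have := phi_KR hr0.le hX n
    rwa [hnr] at this
  have hPsi : KR (1 / 2) (cv (phi X n) 1 (phi X n)) := by
    have := hphi.cv_one hphi
    norm_num at this ⊢
    exact this
  obtain ⟨M, hM0, hM⟩ := KerC_X hX hX1
  obtain ⟨D, hD0, hD⟩ := KerC_Phi hphi (2 * d + 4)
  have hPhat : ∀ ξ : E d, 𝓕 (fun y => (phi X n y : ℂ)) ξ =
      1 - (1 - 𝓕 (fun y => (X y : ℂ)) ξ) ^ n := phi_hat hr0.le hX n
  have hPP : ∀ ξ : E d, 𝓕 (fun y => (cv (phi X n) 1 (phi X n) y : ℂ)) ξ =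
      𝓕 (fun y => (phi X n y : ℂ)) ξ * 𝓕 (fun y => (phi X n y : ℂ)) ξ :=
    fourier_cv hphi hphi
  have hSKR : ∀ l ∈ Finset.range n, KR 1
      ((op (fun y => (2 ^ d)⁻¹ * X ((2 : ℝ)⁻¹ • y)))^[n - 1 - l]
        ((op X)^[l] (fun y => phi X n y + (2 ^ d)⁻¹ * phi X n ((2 : ℝ)⁻¹ • y)))) :=
    fun l hl => KerC_KR hn0 (by rw [← hr]; exact hX) l (Finset.mem_range.1 hl)
  have hS : KR 1 (Sk X n) := KerE_sum _ _ hSKR
  refine ⟨{
    Psi := cv (phi X n) 1 (phi X n)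
    S := Sk X n
    ka := ka
    hPsi := ⟨hPsi.smooth, fun y hy => hPsi.supp y (by linarith)⟩
    hS := ⟨hS.smooth, hS.supp⟩
    hka := ⟨hks, fun y hy => hk0 y (lt_of_le_of_lt ?_ hy)⟩
    Psi_half := fun y hy => hPsi.supp y hy
    Psi_int := ?_
    Psi_even := KerC_cv_even (KerC_phi_even hXe n) (KerC_phi_even hXe n)
    ka_odd := hko
    S_hat := ?_
    Psi_hat := ?_
    tele := ?_ }⟩
  · rw [hr]
    have h1 : (1:ℝ) ≤ n := by exact_mod_cast hn0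
    rw [← mul_div_assoc, div_le_one (by positivity)]
    linarith
  · have h1 : 𝓕 (fun y => (cv (phi X n) 1 (phi X n) y : ℂ)) (0 : E d) = 1 := by
      rw [hPP, hPhat, KerC_zero hX1, sub_self, zero_pow hn0.ne']
      norm_num
    rw [Real.fourier_eq] at h1
    have h2 : (fun v : E d => Real.fourierChar (-inner ℝ v (0 : E d)) •
        (cv (phi X n) 1 (phi X n) v : ℂ)) = fun v => (cv (phi X n) 1 (phi X n) v : ℂ) := by
      funext v
      simp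
    have h3 : ∫ v : E d, (cv (phi X n) 1 (phi X n) v : ℂ) =
        ((∫ v : E d, cv (phi X n) 1 (phi X n) v : ℝ) : ℂ) := integral_complex_ofReal
    rw [h2, h3] at h1
    exact_mod_cast h1
  · refine ⟨n * (M ^ d * (2 * D)), fun ξ => ?_⟩
    have h0 := norm_nonneg ξ
    have hs1 : 𝓕 (fun y => (Sk X n y : ℂ)) ξ = ∑ l ∈ Finset.range n,
        (1 - 𝓕 (fun y => (X y : ℂ)) ((2 : ℝ) • ξ)) ^ (n - 1 - l) *
          ((1 - 𝓕 (fun y => (X y : ℂ)) ξ) ^ l *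
            (𝓕 (fun y => (phi X n y : ℂ)) ξ + 𝓕 (fun y => (phi X n y : ℂ)) ((2 : ℝ) • ξ))) := by
      unfold Sk
      rw [KerC_hat_sum _ _ hSKR ξ]
      refine Finset.sum_congr rfl fun l hl => ?_
      have hMK := hphi.dil
      have hsum : KR (2 * (1 / 4))
          (fun y => phi X n y + (2 ^ d)⁻¹ * phi X n ((2 : ℝ)⁻¹ • y)) :=
        (KerE_mono (by norm_num) hphi).add hMK
      rw [op_iter_hat (by positivity) hX.dil (op_iter_KR hr0.le hX hsum l) (n - 1 - l) ξ,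
        op_iter_hat hr0.le hX hsum l ξ, fourier_dil, KerE_hat_add hphi hphi.dil ξ, fourier_dil]
    rw [hs1]
    have hterm : ∀ l ∈ Finset.range n,
        ‖(1 - 𝓕 (fun y => (X y : ℂ)) ((2 : ℝ) • ξ)) ^ (n - 1 - l) *
          ((1 - 𝓕 (fun y => (X y : ℂ)) ξ) ^ l *
            (𝓕 (fun y => (phi X n y : ℂ)) ξ + 𝓕 (fun y => (phi X n y : ℂ)) ((2 : ℝ) • ξ)))‖ ≤
        M ^ d * ‖ξ‖ ^ d * (2 * D / (1 + ‖ξ‖) ^ (2 * d + 4)) := by
      intro l hl
      have hl' := Finset.mem_range.1 hl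
      rw [norm_mul, norm_mul, norm_pow, norm_pow, ← mul_assoc]
      have hu : 0 ≤ M * (‖ξ‖ / (1 + ‖ξ‖)) := by positivity
      have e1 : ‖1 - 𝓕 (fun y => (X y : ℂ)) ((2 : ℝ) • ξ)‖ ^ (n - 1 - l) *
          ‖1 - 𝓕 (fun y => (X y : ℂ)) ξ‖ ^ l ≤ M ^ d * ‖ξ‖ ^ d := by
        calc ‖1 - 𝓕 (fun y => (X y : ℂ)) ((2 : ℝ) • ξ)‖ ^ (n - 1 - l) *
            ‖1 - 𝓕 (fun y => (X y : ℂ)) ξ‖ ^ l
            ≤ (M * (‖ξ‖ / (1 + ‖ξ‖))) ^ (n - 1 - l) * (M * (‖ξ‖ / (1 + ‖ξ‖))) ^ l :=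
              mul_le_mul (pow_le_pow_left₀ (norm_nonneg _) (hM ξ).2 _)
                (pow_le_pow_left₀ (norm_nonneg _) (hM ξ).1 _) (by positivity) (by positivity)
          _ = (M * (‖ξ‖ / (1 + ‖ξ‖))) ^ d := by
              rw [← pow_add]
              congr 1
              omega
          _ ≤ M ^ d * ‖ξ‖ ^ d := KerC_pow hM0 h0 le_rfl
      have e2 : ‖𝓕 (fun y => (phi X n y : ℂ)) ξ + 𝓕 (fun y => (phi X n y : ℂ)) ((2 : ℝ) • ξ)‖ ≤
          2 * D / (1 + ‖ξ‖) ^ (2 * d + 4) := by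
        refine (norm_add_le _ _).trans ?_
        have := hD ξ
        rw [mul_div_assoc]
        linarith [this.1, this.2]
      exact mul_le_mul e1 e2 (norm_nonneg _) (by positivity)
    refine (norm_sum_le _ _).trans ((Finset.sum_le_sum hterm).trans (le_of_eq ?_))
    rw [Finset.sum_const, Finset.card_range, nsmul_eq_mul]
    ring
  · refine ⟨2 * M ^ n * (2 * D), fun ξ => ?_⟩
    have h0 := norm_nonneg ξ
    rw [KerE_hat_sub hPsi hPsi.dil ξ, fourier_dil, hPP, hPP]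
    have e0 : 𝓕 (fun y => (phi X n y : ℂ)) ξ * 𝓕 (fun y => (phi X n y : ℂ)) ξ -
        𝓕 (fun y => (phi X n y : ℂ)) ((2 : ℝ) • ξ) * 𝓕 (fun y => (phi X n y : ℂ)) ((2 : ℝ) • ξ) =
        (𝓕 (fun y => (phi X n y : ℂ)) ξ - 𝓕 (fun y => (phi X n y : ℂ)) ((2 : ℝ) • ξ)) *
        (𝓕 (fun y => (phi X n y : ℂ)) ξ + 𝓕 (fun y => (phi X n y : ℂ)) ((2 : ℝ) • ξ)) := by
      ring
    rw [e0, norm_mul]
    have e1 : ‖𝓕 (fun y => (phi X n y : ℂ)) ξ - 𝓕 (fun y => (phi X n y : ℂ)) ((2 : ℝ) • ξ)‖ ≤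
        2 * M ^ n * ‖ξ‖ ^ d := by
      have e3 : 𝓕 (fun y => (phi X n y : ℂ)) ξ - 𝓕 (fun y => (phi X n y : ℂ)) ((2 : ℝ) • ξ) =
          (1 - 𝓕 (fun y => (X y : ℂ)) ((2 : ℝ) • ξ)) ^ n -
            (1 - 𝓕 (fun y => (X y : ℂ)) ξ) ^ n := by
        rw [hPhat, hPhat]
        ring
      rw [e3]
      refine (norm_sub_le _ _).trans ?_
      rw [norm_pow, norm_pow]
      have f1 := (pow_le_pow_left₀ (norm_nonneg _) (hM ξ).1 n).trans
        (KerC_pow hM0 h0 (by omega : d ≤ n))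
      have f2 := (pow_le_pow_left₀ (norm_nonneg _) (hM ξ).2 n).trans
        (KerC_pow hM0 h0 (by omega : d ≤ n))
      linarith
    have e2 : ‖𝓕 (fun y => (phi X n y : ℂ)) ξ + 𝓕 (fun y => (phi X n y : ℂ)) ((2 : ℝ) • ξ)‖ ≤
        2 * D / (1 + ‖ξ‖) ^ (2 * d + 4) := by
      refine (norm_add_le _ _).trans ?_
      have := hD ξ
      rw [mul_div_assoc]
      linarith [this.1, this.2]
    refine (mul_le_mul e1 e2 (norm_nonneg _) (by positivity)).trans (le_of_eq ?_)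
    ring
  · intro g hg hc b hb x
    rw [cv_Sk hr0.le hX n hb hg.continuous x]
    have e1 : (fun y => cv X b g y - cv X (2 * b) g y) =
        fun y => b * cvv ka b (gradient g) y := by
      funext y
      exact hkt g hg hc b hb y
    rw [e1]
    exact KerE_cv_smul_right b x

end Pool.Agent.Lib.MP_ff3fe0_an_SPH
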