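import Pool.Agent.Lib.MP_ff3fe0_an_SPH.SrcB
import Pool.Agent.Lib.MP_ff3fe0_an_SPH.BilB

set_option autoImplicit false

/-!
# The densities of the sources
-/

namespace Pool.Agent.Lib.MP_ff3fe0_an_SPH

open MeasureTheory Metric Set
open scoped ENNReal NNReal ContDiff FourierTransform
open Pool.Agent.Lib.MP_ff3fe0_an

variable {d : ℕ}

variable {p η A r : ℝ} {q : ℕ → E d → ℝ}

private lemma ppa_meas (hq : ∀ m, Measurable (q m)) (m : ℕ) : Measurable fun v : E d =>
    2 * ‖q m v‖ₑ ^ p + (closedBall (0 : E d) r).indicator (fun _ => ENNReal.ofReal (A ^ p)) v :=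
  Measurable.add (((hq m).enorm.pow_const p).const_mul 2)
    (measurable_const.indicator measurableSet_closedBall)

private lemma ppa_meas2 (hq : ∀ m, Measurable (q m)) (m : ℕ) :
    Measurable fun v : E d × E d => 2 * ‖q m (v.1 - sc m • v.2)‖ₑ ^ p +
      (closedBall (0 : E d) r).indicator (fun _ => ENNReal.ofReal (A ^ p)) (v.1 - sc m • v.2) :=
  (ppa_meas hq m).comp (g := fun v : E d => 2 * ‖q m v‖ₑ ^ p +
    (closedBall (0 : E d) r).indicator (fun _ => ENNReal.ofReal (A ^ p)) v)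
    (f := fun v : E d × E d => v.1 - sc m • v.2) (by fun_prop)

theorem measurable_PP (hq : ∀ m, Measurable (q m)) (m : ℕ) : Measurable (PP p η A r q m) := by
  unfold PP
  refine Measurable.const_mul ?_ _
  exact (ppa_meas2 hq m).lintegral_prod_right'

private lemma ppa_int (hq : ∀ m, Measurable (q m)) (m : ℕ) :
    ∫⁻ y, PP p η A r q m y = ENNReal.ofReal ((2 : ℝ) ^ (-(η * m))) *
      (volume (closedBall (0 : E d) 2) * (2 * (∫⁻ y, ‖q m y‖ₑ ^ p) +
        ENNReal.ofReal (A ^ p) * volume (closedBall (0 : E d) r))) := by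
  unfold PP
  rw [lintegral_const_mul' _ _ ENNReal.ofReal_ne_top]
  congr 1
  rw [lintegral_lintegral_swap (f := fun y z : E d => 2 * ‖q m (y - sc m • z)‖ₑ ^ p +
      (closedBall (0 : E d) r).indicator (fun _ => ENNReal.ofReal (A ^ p)) (y - sc m • z))
      (ppa_meas2 hq m).aemeasurable]
  have h1 : ∀ z : E d, ∫⁻ y : E d, (2 * ‖q m (y - sc m • z)‖ₑ ^ p +
      (closedBall (0 : E d) r).indicator (fun _ => ENNReal.ofReal (A ^ p)) (y - sc m • z)) =
      ∫⁻ y : E d, (2 * ‖q m y‖ₑ ^ p +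
        (closedBall (0 : E d) r).indicator (fun _ => ENNReal.ofReal (A ^ p)) y) := fun z =>
    lintegral_sub_right_eq_self (fun y : E d => 2 * ‖q m y‖ₑ ^ p +
        (closedBall (0 : E d) r).indicator (fun _ => ENNReal.ofReal (A ^ p)) y) (sc m • z)
  simp_rw [h1]
  rw [lintegral_const, Measure.restrict_apply_univ, mul_comm]
  congr 1
  rw [lintegral_add_left (((hq m).enorm.pow_const p).const_mul 2),
    lintegral_const_mul _ ((hq m).enorm.pow_const p),
    lintegral_indicator_const measurableSet_closedBall]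

/-- The total mass of the sources. -/
theorem PP_sum (hη : 0 < η) (p r : ℝ) : ∃ C : ℝ≥0, ∀ (A : ℝ) (q : ℕ → E d → ℝ), 0 < A →
    (∀ m, Measurable (q m)) → ∑' m : ℕ, ENNReal.ofReal ((2 : ℝ) ^ (-(η * m))) *
      ∫⁻ y, ‖q m y‖ₑ ^ p ≤ ENNReal.ofReal (A ^ p) →
    ∑' m, ∫⁻ y, PP p η A r q m y ≤ C * ENNReal.ofReal (A ^ p) := by
  have hV2 : volume (closedBall (0 : E d) 2) ≠ ⊤ := measure_closedBall_lt_top.ne
  have hVr : volume (closedBall (0 : E d) r) ≠ ⊤ := measure_closedBall_lt_top.ne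
  have hg : ∑' m : ℕ, ENNReal.ofReal ((2 : ℝ) ^ (-(η * m))) ≠ ⊤ := by
    have h1 : ∀ m : ℕ, ENNReal.ofReal ((2 : ℝ) ^ (-(η * m))) =
        (ENNReal.ofReal ((2 : ℝ) ^ (-η))) ^ m := by
      intro m
      rw [← ENNReal.ofReal_pow (by positivity), ← Real.rpow_natCast,
        ← Real.rpow_mul (by norm_num)]
      congr 2
      ring
    simp only [h1]
    rw [ENNReal.tsum_geometric, ne_eq, ENNReal.inv_eq_top, tsub_eq_zero_iff_le, not_le,
      ← ENNReal.ofReal_one]
    exact (ENNReal.ofReal_lt_ofReal_iff one_pos).2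
      (Real.rpow_lt_one_of_one_lt_of_neg (by norm_num) (by linarith))
  refine ⟨(2 * volume (closedBall (0 : E d) 2) + volume (closedBall (0 : E d) 2) *
    volume (closedBall (0 : E d) r) *
      ∑' m : ℕ, ENNReal.ofReal ((2 : ℝ) ^ (-(η * m)))).toNNReal, fun A q hA hq h => ?_⟩
  rw [ENNReal.coe_toNNReal (ENNReal.add_ne_top.2 ⟨ENNReal.mul_ne_top (by norm_num) hV2,
    ENNReal.mul_ne_top (ENNReal.mul_ne_top hV2 hVr) hg⟩)]
  simp only [ppa_int hq]
  calc ∑' m : ℕ, ENNReal.ofReal ((2 : ℝ) ^ (-(η * m))) * (volume (closedBall (0 : E d) 2) *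
        (2 * (∫⁻ y, ‖q m y‖ₑ ^ p) + ENNReal.ofReal (A ^ p) * volume (closedBall (0 : E d) r)))
      = ∑' m : ℕ, (2 * volume (closedBall (0 : E d) 2) *
          (ENNReal.ofReal ((2 : ℝ) ^ (-(η * m))) * ∫⁻ y, ‖q m y‖ₑ ^ p) +
          volume (closedBall (0 : E d) 2) * volume (closedBall (0 : E d) r) *
            ENNReal.ofReal (A ^ p) * ENNReal.ofReal ((2 : ℝ) ^ (-(η * m)))) :=
        tsum_congr fun m => by ring
    _ = 2 * volume (closedBall (0 : E d) 2) *
          (∑' m : ℕ, ENNReal.ofReal ((2 : ℝ) ^ (-(η * m))) * ∫⁻ y, ‖q m y‖ₑ ^ p) +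
          volume (closedBall (0 : E d) 2) * volume (closedBall (0 : E d) r) *
            ENNReal.ofReal (A ^ p) * ∑' m : ℕ, ENNReal.ofReal ((2 : ℝ) ^ (-(η * m))) := by
        rw [ENNReal.tsum_add, ENNReal.tsum_mul_left, ENNReal.tsum_mul_left]
    _ ≤ 2 * volume (closedBall (0 : E d) 2) * ENNReal.ofReal (A ^ p) +
          volume (closedBall (0 : E d) 2) * volume (closedBall (0 : E d) r) *
            ENNReal.ofReal (A ^ p) * ∑' m : ℕ, ENNReal.ofReal ((2 : ℝ) ^ (-(η * m))) := by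
        gcongr
    _ = _ := by ring

/-- The averages of a piece are controlled by the density of the sources. -/
theorem PP_fat (hp : 0 < p) {β : ℝ} (hβ : 0 < β) {m : ℕ} {u : E d → ℝ} (hu : ∀ y,
    β ^ (p - 1) * |u y| ≤ 2 * |q m y| ^ p + (closedBall (0 : E d) r).indicator (fun _ => A ^ p) y)
    (hA : 0 < A) (y : E d) :
    ENNReal.ofReal ((2 : ℝ) ^ (-(η * m)) * β ^ (p - 1)) * fat m u y ≤ PP p η A r q m y := by
  unfold PP fat
  rw [ENNReal.ofReal_mul (by positivity), mul_assoc,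
    ← lintegral_const_mul' _ _ ENNReal.ofReal_ne_top]
  refine mul_le_mul_right (lintegral_mono fun z => ?_) _
  have h1 := hu (y - sc m • z)
  have h2 : 0 ≤ (closedBall (0 : E d) r).indicator (fun _ => A ^ p) (y - sc m • z) :=
    indicator_nonneg (fun _ _ => by positivity) _
  rw [Real.enorm_eq_ofReal_abs, ← ENNReal.ofReal_mul (by positivity)]
  refine (ENNReal.ofReal_le_ofReal h1).trans (le_of_eq ?_)
  rw [ENNReal.ofReal_add (by positivity) h2, ENNReal.ofReal_mul (by norm_num),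
    ENNReal.ofReal_ofNat, Real.enorm_eq_ofReal_abs,
    ENNReal.ofReal_rpow_of_nonneg (abs_nonneg _) hp.le]
  congr 1
  by_cases hz : y - sc m • z ∈ closedBall (0 : E d) r
  · rw [indicator_of_mem hz, indicator_of_mem hz]
  · rw [indicator_of_notMem hz, indicator_of_notMem hz, ENNReal.ofReal_zero]

/-- Positivity and finiteness of the source measures. -/
theorem PP_pos (hd : 0 < d) (hA : 0 < A) (hr : √d + 4 ≤ r) (hq : ∀ m, Measurable (q m))
    (hs : ∑' m, ∫⁻ y, PP p η A r q m y ≠ ⊤) (k : ℕ) {x : E d} (hx : ‖x‖ ≤ √d) {t : ℝ}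
    (ht : t ∈ Icc (1 : ℝ) 2) :
    piK (PP p η A r q) k x t univ ≠ 0 ∧ piK (PP p η A r q) k x t univ ≠ ⊤ := by
  refine ⟨piK_pos hd k 1 (measurable_PP hq) x ht fun y hy => ?_,
    piK_fin hd k (measurable_PP hq) hs x ht⟩
  have h1 : ENNReal.ofReal ((2 : ℝ) ^ (-(η * (1 : ℕ)))) *
      (ENNReal.ofReal (A ^ p) * volume (closedBall (0 : E d) 2)) ≤ PP p η A r q 1 y := by
    unfold PP
    refine mul_le_mul_right ?_ _
    rw [← setLIntegral_const]
    refine setLIntegral_mono' measurableSet_closedBall fun z hz => ?_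
    refine le_trans (le_of_eq ?_) le_add_self
    rw [indicator_of_mem]
    rw [mem_closedBall_zero_iff] at hz ⊢
    rw [mem_closedBall, dist_eq_norm] at hy
    have h2 : ‖y‖ ≤ ‖y - x‖ + ‖x‖ := by
      have := norm_add_le (y - x) x
      rwa [sub_add_cancel] at this
    have h3 : ‖sc 1 • z‖ ≤ 1 := by
      rw [norm_smul]
      unfold sc
      rw [pow_one, Real.norm_eq_abs, abs_of_pos (by norm_num)]
      linarith
    have h4 := norm_sub_le y (sc 1 • z)
    linarith
  have h2 : 0 < ENNReal.ofReal ((2 : ℝ) ^ (-(η * (1 : ℕ)))) *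
      (ENNReal.ofReal (A ^ p) * volume (closedBall (0 : E d) 2)) := by
    refine ENNReal.mul_pos (ENNReal.ofReal_pos.2 (by positivity)).ne'
      (ENNReal.mul_pos (ENNReal.ofReal_pos.2 (by positivity)).ne' ?_).ne'
    exact (measure_closedBall_pos volume _ (by norm_num)).ne'
  exact (h2.trans_le h1).ne'

end Pool.Agent.Lib.MP_ff3fe0_an_SPH
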