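import Pool.Agent.Lib.MP_ff3fe0_an_SPH.HighA
import Pool.Agent.Lib.MP_ff3fe0_an_SPH.PPA

set_option autoImplicit false

/-!
# The high piece
-/

namespace Pool.Agent.Lib.MP_ff3fe0_an_SPH

open MeasureTheory Metric Set
open scoped ENNReal NNReal ContDiff FourierTransform
open Pool.Agent.Lib.MP_ff3fe0_an

variable {d : ℕ}

private theorem kmH_53 : (5 / 3 : ℝ≥0∞) = ENNReal.ofReal (5 / 3) := by
  rw [ENNReal.ofReal_div_of_pos (by norm_num)]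
  norm_num

private theorem kmH_43 : (4 / 3 : ℝ≥0∞) = ENNReal.ofReal (4 / 3) := by
  rw [ENNReal.ofReal_div_of_pos (by norm_num)]
  norm_num

private theorem kmH_2 : (2 : ℝ≥0∞) = ENNReal.ofReal 2 := by norm_num

private theorem kmH_KK (k m : ℕ) :
    KK k m * 2 ^ max k m ≤ ((5 / 3) ^ ((k - m) + (m - k))) ^ 2 * 2 ^ m := by
  unfold KK
  have h1 : max k m = (k - m) + m := by omega
  rw [h1]
  have h2 : (4 / 3 : ℝ≥0∞) ^ (k - m) * 2 ^ (m - k) * 2 ^ (k - m + m) =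
      ((4 / 3) * 2) ^ (k - m) * 2 ^ (m - k) * 2 ^ m := by
    rw [pow_add, mul_pow]
    ring
  have h3 : ((5 / 3 : ℝ≥0∞) ^ ((k - m) + (m - k))) ^ 2 * 2 ^ m =
      ((5 / 3) ^ 2) ^ (k - m) * ((5 / 3) ^ 2) ^ (m - k) * 2 ^ m := by
    rw [pow_add]
    ring
  have h4 : (4 / 3 : ℝ≥0∞) * 2 ≤ (5 / 3) ^ 2 := by
    rw [kmH_53, kmH_43, kmH_2, ← ENNReal.ofReal_mul (by norm_num), ← ENNReal.ofReal_pow
      (by norm_num)]
    exact ENNReal.ofReal_le_ofReal (by norm_num)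
  have h5 : (2 : ℝ≥0∞) ≤ (5 / 3) ^ 2 := by
    rw [kmH_53, kmH_2, ← ENNReal.ofReal_pow (by norm_num)]
    exact ENNReal.ofReal_le_ofReal (by norm_num)
  rw [h2, h3]
  gcongr

private theorem kmH_real {p η A b D e dd : ℝ} {m : ℕ} (hA : 0 < A)
    (hb : b = (2 : ℝ) ^ (D * m) * A) (hD : D * p = dd - 1 / 2) (he : e = dd - 1 - D - η) :
    2 ^ m * ((2 ^ (-(η * m)) * b ^ (p - 1))⁻¹ * A ^ p * b ^ (1 - p) * 2 ^ (η * m) * A ^ p) =
      ((2 : ℝ) ^ (-(e * m)) * A) ^ 2 := by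
  have h2 : (0 : ℝ) < 2 := by norm_num
  have hb0 : 0 < b := by
    rw [hb]
    positivity
  have e1 : (2 : ℝ) ^ m = (2 : ℝ) ^ (m : ℝ) := (Real.rpow_natCast 2 m).symm
  have hbr : ∀ s : ℝ, b ^ s = 2 ^ (D * m * s) * A ^ s := by
    intro s
    rw [hb, Real.mul_rpow (by positivity) hA.le, ← Real.rpow_mul h2.le]
  rw [mul_inv, ← Real.rpow_neg h2.le, ← Real.rpow_neg hb0.le, hbr, hbr, e1, mul_pow]
  have e2 : ((2 : ℝ) ^ (-(e * m))) ^ 2 = (2 : ℝ) ^ (-(e * m) * 2) := by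
    rw [Real.rpow_mul h2.le]
    norm_num
  have e3 : A ^ 2 = A ^ (2 : ℝ) := by norm_num
  rw [e2, e3]
  have l1 : (2 : ℝ) ^ (-(e * m) * 2) = 2 ^ (m : ℝ) * (2 ^ (-(-(η * m))) *
      2 ^ (D * m * -(p - 1)) * 2 ^ (D * m * (1 - p)) * 2 ^ (η * m)) := by
    rw [← Real.rpow_add h2, ← Real.rpow_add h2, ← Real.rpow_add h2, ← Real.rpow_add h2]
    congr 1
    have : D * m * -(p - 1) = D * m - (D * p) * m := by ring
    have h3 : D * m * (1 - p) = D * m - (D * p) * m := by ring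
    rw [this, h3, hD, he]
    ring
  have l2 : A ^ (2 : ℝ) = A ^ (-(p - 1)) * A ^ (1 - p) * A ^ p * A ^ p := by
    rw [← Real.rpow_add hA, ← Real.rpow_add hA, ← Real.rpow_add hA]
    congr 1
    ring
  rw [l1, l2]
  ring

theorem km_high (hd : 3 ≤ d) {S : E d → ℝ} (hS : IsKer S) {p : ℝ}
    (hp : (2 * (d : ℝ) - 1) / (2 * d - 2) < p) (hp2 : p < 3 / 2) {η : ℝ} (h0 : 0 < η)
    (h1 : η < (d : ℝ) - 1 - (d - 1 / 2) / p) (r : ℝ) :
    ∃ (C : ℝ≥0) (ε : ℝ), 0 < ε ∧ ∀ (A : ℝ) (q : ℕ → E d → ℝ), 0 < A → (∀ m, Bdd r (q m)) →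
      ∑' m : ℕ, ENNReal.ofReal ((2 : ℝ) ^ (-(η * m))) * ∫⁻ y, ‖q m y‖ₑ ^ p ≤
        ENNReal.ofReal (A ^ p) →
      ∀ k m n j : ℕ, 1 ≤ m → n ∈ RR k m → j ≤ 2 → ∀ (b : ℝ) (u : E d → ℝ),
        b = (2 : ℝ) ^ (((d : ℝ) - 1 / 2) / p * m) * A → Bdd r u →
        (∀ y, b ^ (p - 1) * |u y| ≤ |q m y| ^ p) →
        ∫⁻ y, ‖u y‖ₑ ≤ ENNReal.ofReal (b ^ (1 - p)) * ∫⁻ y, ‖q m y‖ₑ ^ p →
        ∃ Z : E d → ℝ≥0∞, Measurable Z ∧
          (∀ x, ∀ t ∈ Icc (1 : ℝ) 2, (piK (PP p η A r q) k x t univ)⁻¹ * ∫⁻ c : Sph d,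
            Avr n (fun s => XX S m j u c x s) t ∂(piK (PP p η A r q) k x t) ≤ Z x) ∧
          (∫⁻ x in closedBall (0 : E d) (√d), Z x ^ 2) ^ (1 / 2 : ℝ) ≤
            C * (5 / 3) ^ ((k - m) + (m - k)) * ENNReal.ofReal ((2 : ℝ) ^ (-(ε * m)) * A) := by
  have hp0 : 0 < p := by
    have hd1 : (3 : ℝ) ≤ d := by exact_mod_cast hd
    have h2 : (0 : ℝ) < (2 * (d : ℝ) - 1) / (2 * d - 2) := by
      apply div_pos
      · linarith
      · linarith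
    linarith
  obtain ⟨C1, hC1⟩ := high (by omega) hS
  obtain ⟨C2, hC2⟩ := PP_sum h0 p r
  refine ⟨NNReal.sqrt (C1 * C2), (d : ℝ) - 1 - (d - 1 / 2) / p - η, by linarith, ?_⟩
  intro A q hA hq hsum k m n j hm hn hj b u hb hu hbu hint
  have hb0 : 0 < b := by
    rw [hb]
    positivity
  set θ : ℝ≥0∞ := ENNReal.ofReal ((2 : ℝ) ^ (-(η * m)) * b ^ (p - 1)) with hθ
  have hθpos : 0 < (2 : ℝ) ^ (-(η * m)) * b ^ (p - 1) := by positivity
  have hθ0 : θ ≠ 0 := by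
    rw [hθ]
    exact (ENNReal.ofReal_pos.2 hθpos).ne'
  have hθt : θ ≠ ⊤ := ENNReal.ofReal_ne_top
  have hfat : ∀ y, θ * fat m u y ≤ PP p η A r q m y := by
    intro y
    apply PP_fat hp0 hb0 _ hA y
    intro z
    have h2 := hbu z
    have h3 : (0 : ℝ) ≤ |q m z| ^ p := by positivity
    have h4 : (0 : ℝ) ≤ (closedBall (0 : E d) r).indicator (fun _ => A ^ p) z :=
      indicator_nonneg (fun _ _ => by positivity) _
    linarith
  obtain ⟨W, hW, hW1, hW2⟩ := hC1 k m n j hm hn hj (PP p η A r q)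
    (fun m => measurable_PP (fun m => (hq m).meas) m) r u hu θ hθ0 hθt hfat
  refine ⟨fun x => W x ^ (1 / 2 : ℝ), hW.pow_const _, ?_, ?_⟩
  · intro x t ht
    have h2 := hW1 x t ht
    have h3 := ENNReal.rpow_le_rpow h2 (show (0 : ℝ) ≤ 1 / 2 by norm_num)
    rw [← ENNReal.rpow_natCast, ← ENNReal.rpow_mul] at h3
    norm_num at h3
    norm_num
    exact h3
  · have hZ : ∀ x, (W x ^ (1 / 2 : ℝ)) ^ 2 = W x := by
      intro x
      rw [← ENNReal.rpow_natCast, ← ENNReal.rpow_mul]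
      norm_num
    simp only [hZ]
    have hI : ∫⁻ y, ‖q m y‖ₑ ^ p ≤ ENNReal.ofReal ((2 : ℝ) ^ (η * m)) *
        ENNReal.ofReal (A ^ p) := by
      have h2 : ENNReal.ofReal ((2 : ℝ) ^ (-(η * m))) * ∫⁻ y, ‖q m y‖ₑ ^ p ≤
          ENNReal.ofReal (A ^ p) := (ENNReal.le_tsum m).trans hsum
      have h3 : ENNReal.ofReal ((2 : ℝ) ^ (η * m)) * ENNReal.ofReal ((2 : ℝ) ^ (-(η * m))) =
          1 := by
        rw [← ENNReal.ofReal_mul (by positivity), ← Real.rpow_add (by norm_num), add_neg_cancel,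
          Real.rpow_zero, ENNReal.ofReal_one]
      calc ∫⁻ y, ‖q m y‖ₑ ^ p = ENNReal.ofReal ((2 : ℝ) ^ (η * m)) *
            ENNReal.ofReal ((2 : ℝ) ^ (-(η * m))) * ∫⁻ y, ‖q m y‖ₑ ^ p := by rw [h3, one_mul]
        _ = ENNReal.ofReal ((2 : ℝ) ^ (η * m)) *
            (ENNReal.ofReal ((2 : ℝ) ^ (-(η * m))) * ∫⁻ y, ‖q m y‖ₑ ^ p) := by rw [mul_assoc]
        _ ≤ _ := by gcongr
    have hS2 := hC2 A q hA (fun m => (hq m).meas) hsum
    have hθinv : θ⁻¹ = ENNReal.ofReal ((2 ^ (-(η * m)) * b ^ (p - 1))⁻¹) := by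
      rw [hθ, ENNReal.ofReal_inv_of_pos hθpos]
    have key : ∫⁻ x in closedBall (0 : E d) (√d), W x ≤
        ((NNReal.sqrt (C1 * C2) : ℝ≥0) * (5 / 3) ^ ((k - m) + (m - k)) *
          ENNReal.ofReal ((2 : ℝ) ^ (-(((d : ℝ) - 1 - (d - 1 / 2) / p - η) * m)) * A)) ^ 2 := by
      calc ∫⁻ x in closedBall (0 : E d) (√d), W x ≤ ∫⁻ x, W x := setLIntegral_le_lintegral _ _
        _ ≤ C1 * (KK k m * θ⁻¹ * 2 ^ max k m * (∑' m', ∫⁻ y, PP p η A r q m' y) *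
            ∫⁻ y, ‖u y‖ₑ) := hW2
        _ ≤ C1 * (KK k m * θ⁻¹ * 2 ^ max k m * (C2 * ENNReal.ofReal (A ^ p)) *
            (ENNReal.ofReal (b ^ (1 - p)) * (ENNReal.ofReal ((2 : ℝ) ^ (η * m)) *
              ENNReal.ofReal (A ^ p)))) := by
          gcongr
          exact hint.trans (by gcongr)
        _ = (C1 * C2) * (KK k m * 2 ^ max k m) * (θ⁻¹ * ENNReal.ofReal (A ^ p) *
            ENNReal.ofReal (b ^ (1 - p)) * ENNReal.ofReal ((2 : ℝ) ^ (η * m)) *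
              ENNReal.ofReal (A ^ p)) := by ring
        _ ≤ (C1 * C2) * (((5 / 3) ^ ((k - m) + (m - k))) ^ 2 * 2 ^ m) *
            (θ⁻¹ * ENNReal.ofReal (A ^ p) *
            ENNReal.ofReal (b ^ (1 - p)) * ENNReal.ofReal ((2 : ℝ) ^ (η * m)) *
              ENNReal.ofReal (A ^ p)) := mul_le_mul' (mul_le_mul' le_rfl (kmH_KK k m)) le_rfl
        _ = (C1 * C2) * ((5 / 3) ^ ((k - m) + (m - k))) ^ 2 * (2 ^ m *
            (θ⁻¹ * ENNReal.ofReal (A ^ p) *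
            ENNReal.ofReal (b ^ (1 - p)) * ENNReal.ofReal ((2 : ℝ) ^ (η * m)) *
              ENNReal.ofReal (A ^ p))) := by ring
        _ = _ := by
          rw [mul_pow, mul_pow]
          congr 1
          · congr 1
            rw [← ENNReal.coe_pow, NNReal.sq_sqrt, ENNReal.coe_mul]
          · rw [hθinv, kmH_2, ← ENNReal.ofReal_pow (by norm_num),
              ← ENNReal.ofReal_mul (by positivity), ← ENNReal.ofReal_mul (by positivity),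
              ← ENNReal.ofReal_mul (by positivity), ← ENNReal.ofReal_mul (by positivity),
              ← ENNReal.ofReal_mul (by positivity), ← ENNReal.ofReal_pow (by positivity)]
            congr 1
            exact kmH_real hA hb (div_mul_cancel₀ _ hp0.ne') rfl
    calc (∫⁻ x in closedBall (0 : E d) (√d), W x) ^ (1 / 2 : ℝ) ≤ (((NNReal.sqrt (C1 * C2) : ℝ≥0) *
          (5 / 3) ^ ((k - m) + (m - k)) * ENNReal.ofReal
          ((2 : ℝ) ^ (-(((d : ℝ) - 1 - (d - 1 / 2) / p - η) * m)) * A)) ^ 2) ^ (1 / 2 : ℝ) :=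
          ENNReal.rpow_le_rpow key (by norm_num)
      _ = _ := by
        rw [← ENNReal.rpow_natCast, ← ENNReal.rpow_mul]
        norm_num

end Pool.Agent.Lib.MP_ff3fe0_an_SPH
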