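import Pool.Agent.Lib.MP_ff3fe0_an_SPH.Defs

set_option autoImplicit false

/-!
# Minkowski for countable sums
-/

namespace Pool.Agent.Lib.MP_ff3fe0_an_SPH

open MeasureTheory Metric Set
open scoped ENNReal NNReal ContDiff FourierTransform
open Pool.Agent.Lib.MP_ff3fe0_an

variable {d : ℕ}

private lemma MinkA_finset {α : Type*} [MeasurableSpace α] {μ : Measure α} {ι : Type*}
    {f : ι → α → ℝ≥0∞} (hf : ∀ i, Measurable (f i)) (s : Finset ι) :
    (∫⁻ x, (∑ i ∈ s, f i x) ^ (2 : ℝ) ∂μ) ^ (1 / 2 : ℝ) ≤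
      ∑ i ∈ s, (∫⁻ x, f i x ^ (2 : ℝ) ∂μ) ^ (1 / 2 : ℝ) := by
  classical
  induction s using Finset.induction_on with
  | empty => simp
  | insert a s ha ih =>
    rw [Finset.sum_insert ha]
    refine le_trans ?_ (add_le_add le_rfl ih)
    have h := ENNReal.lintegral_Lp_add_le (μ := μ) (p := 2) (f := f a)
      (g := fun x => ∑ i ∈ s, f i x) (hf a).aemeasurable
      (Finset.measurable_sum s fun i _ => hf i).aemeasurable (by norm_num)
    simpa only [Finset.sum_insert ha, Pi.add_apply] using h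

/-- Minkowski for countable sums. -/
theorem minkowski {α : Type*} [MeasurableSpace α] {μ : Measure α} {ι : Type*} [Countable ι]
    {f : ι → α → ℝ≥0∞} (hf : ∀ i, Measurable (f i)) :
    (∫⁻ x, (∑' i, f i x) ^ 2 ∂μ) ^ (1 / 2 : ℝ) ≤ ∑' i, (∫⁻ x, f i x ^ 2 ∂μ) ^ (1 / 2 : ℝ) := by
  simp only [← ENNReal.rpow_two]
  have h1 : ∀ x, (∑' i, f i x) ^ (2 : ℝ) = ⨆ s : Finset ι, (∑ i ∈ s, f i x) ^ (2 : ℝ) := by
    intro x
    rw [ENNReal.tsum_eq_iSup_sum]
    exact (ENNReal.orderIsoRpow 2 (by norm_num)).map_iSup _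
  simp only [h1]
  have hm : ∀ s : Finset ι, Measurable (fun x => ∑ i ∈ s, f i x) :=
    fun s => Finset.measurable_sum s fun i _ => hf i
  rw [lintegral_iSup_directed (fun s => ((hm s).pow_const _).aemeasurable)]
  · have h2 : (⨆ s : Finset ι, ∫⁻ x, (∑ i ∈ s, f i x) ^ (2 : ℝ) ∂μ) ^ (1 / 2 : ℝ) =
        ⨆ s : Finset ι, (∫⁻ x, (∑ i ∈ s, f i x) ^ (2 : ℝ) ∂μ) ^ (1 / 2 : ℝ) :=
      (ENNReal.orderIsoRpow (1 / 2) (by norm_num)).map_iSup _
    rw [h2]
    exact iSup_le fun s => (MinkA_finset hf s).trans (ENNReal.sum_le_tsum s)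
  · refine directed_of_isDirected_le fun s t hst x => ?_
    exact ENNReal.rpow_le_rpow (Finset.sum_le_sum_of_subset hst) (by norm_num)

end Pool.Agent.Lib.MP_ff3fe0_an_SPH
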