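import Pool.Agent.Lib.MP_ff3fe0_an_SPH.Defs

set_option autoImplicit false

/-!
# The level sets of a frequency piece
-/

namespace Pool.Agent.Lib.MP_ff3fe0_an_SPH

open MeasureTheory Metric Set
open scoped ENNReal NNReal ContDiff FourierTransform
open Pool.Agent.Lib.MP_ff3fe0_an

variable {d : ℕ}

/-- The restriction of `q` to a measurable set of values. -/
private lemma Bdd.pieceA_ite {r : ℝ} {q : E d → ℝ} (hq : Bdd r q) {P : ℝ → Prop}
    [DecidablePred P] (hP : MeasurableSet {x | P x}) :
    Bdd r (fun y => if P |q y| then q y else 0) := by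
  refine ⟨?_, ?_, ?_⟩
  · refine Measurable.ite ?_ hq.meas measurable_const
    have h1 : Measurable fun y => |q y| := hq.meas.norm
    exact h1 hP
  · obtain ⟨C, hC⟩ := hq.bdd
    refine ⟨C, fun y => ?_⟩
    have h0 := hC y
    have h1 : 0 ≤ |q y| := abs_nonneg _
    split_ifs
    · exact h0
    · rw [abs_zero]
      linarith
  · intro y hy
    rw [hq.supp y hy]
    split_ifs <;> rfl

/-- The splitting of a bounded function into levels. -/
theorem pieces {p : ℝ} (hp : 1 < p) (hp2 : p < 3 / 2) {r : ℝ} {q : E d → ℝ} (hq : Bdd r q)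
    {A b : ℝ} (hA : 0 < A) (hb : A ≤ b) {N : ℕ} (hN : b ≤ A * 2 ^ N) :
    ∃ (ql : ℕ → E d → ℝ) (qh : E d → ℝ) (β : ℕ → ℝ), (∀ l, Bdd r (ql l)) ∧ Bdd r qh ∧
      (∀ y, q y = ∑ l ∈ Finset.range (N + 1), ql l y + qh y) ∧ (∀ l, 0 < β l ∧ β l ≤ b) ∧
      (∀ l y, β l ^ (p - 1) * |ql l y| ≤ 2 * |q y| ^ p +
        (closedBall (0 : E d) r).indicator (fun _ => A ^ p) y) ∧
      (∀ y, b ^ (p - 1) * |qh y| ≤ |q y| ^ p) ∧
      (∀ l, ∫⁻ y, ‖ql l y‖ₑ ^ 2 ≤ ENNReal.ofReal (β l ^ (2 - p)) * ∫⁻ y, ‖q y‖ₑ ^ p) ∧
      ∫⁻ y, ‖qh y‖ₑ ≤ ENNReal.ofReal (b ^ (1 - p)) * ∫⁻ y, ‖q y‖ₑ ^ p := by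
  classical
  have hb0 : 0 < b := hA.trans_le hb
  set β : ℕ → ℝ := fun l => b / 2 ^ l with hβ
  have hβ0 : ∀ l, 0 < β l := fun l => div_pos hb0 (by positivity)
  have hβb : ∀ l, β l ≤ b := fun l => div_le_self hb0.le (one_le_pow₀ (by norm_num))
  have hβs : ∀ l, β (l + 1) = β l / 2 := by
    intro l
    simp only [hβ]
    rw [pow_succ]
    field_simp
  have hβN : β N ≤ A := (div_le_iff₀ (by positivity)).2 hN
  -- the classes of values
  let P : ℕ → ℝ → Prop := fun l x =>
    if l < N then β l / 2 < x ∧ x ≤ β l else if l = N then x ≤ β l else False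
  have hPm : ∀ l, MeasurableSet {x | P l x} := by
    intro l
    simp only [P]
    split_ifs
    · exact measurableSet_Ioc
    · exact measurableSet_Iic
    · simp
  have hPle : ∀ l x, P l x → x ≤ β l := by
    intro l x h
    simp only [P] at h
    split_ifs at h
    · exact h.2
    · exact h
  set ql : ℕ → E d → ℝ := fun l y => if P l |q y| then q y else 0 with hql
  set qh : E d → ℝ := fun y => if b < |q y| then q y else 0 with hqh
  have hqlB : ∀ l, Bdd r (ql l) := fun l => hq.pieceA_ite (hPm l)
  have hqhB : Bdd r qh := hq.pieceA_ite (P := fun x => b < x) measurableSet_Ioi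
  have hql1 : ∀ l y, |ql l y| ≤ β l ∧ |ql l y| ≤ |q y| := by
    intro l y
    simp only [hql]
    split_ifs with h
    · exact ⟨hPle l _ h, le_rfl⟩
    · rw [abs_zero]
      exact ⟨(hβ0 l).le, abs_nonneg _⟩
  -- the second bound
  have hhi : ∀ y, b ^ (p - 1) * |qh y| ≤ |q y| ^ p := by
    intro y
    simp only [hqh]
    split_ifs with h
    · have h0 : 0 < |q y| := hb0.trans h
      have h1 : b ^ (p - 1) ≤ |q y| ^ (p - 1) :=
        Real.rpow_le_rpow hb0.le h.le (by linarith)
      have h2 : |q y| ^ p = |q y| ^ (p - 1) * |q y| := by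
        rw [← Real.rpow_add_one h0.ne']
        congr 1
        ring
      rw [h2]
      exact mul_le_mul_of_nonneg_right h1 h0.le
    · rw [abs_zero, mul_zero]
      positivity
  refine ⟨ql, qh, β, hqlB, hqhB, ?_, fun l => ⟨hβ0 l, hβb l⟩, ?_, hhi, ?_, ?_⟩
  · -- the sum
    intro y
    have key : ∀ M, M ≤ N → ∑ l ∈ Finset.range M, ql l y + qh y =
        if β M < |q y| then q y else 0 := by
      intro M
      induction M with
      | zero =>
        intro _
        simp [hqh, hβ]
      | succ M ih =>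
        intro hM
        have hM' : M < N := hM
        have h1 := ih hM'.le
        rw [Finset.sum_range_succ, add_right_comm, h1, hβs]
        have h2 : ql M y = if β M / 2 < |q y| ∧ |q y| ≤ β M then q y else 0 := by
          simp only [hql, P, if_pos hM']
        rw [h2]
        have h3 := hβ0 M
        by_cases h4 : β M < |q y|
        · have h5 : β M / 2 < |q y| := by linarith
          rw [if_pos h4, if_neg (fun h => absurd h.2 (not_le.2 h4)), if_pos h5, add_zero]
        · by_cases h5 : β M / 2 < |q y|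
          · rw [if_neg h4, if_pos ⟨h5, not_lt.1 h4⟩, if_pos h5, zero_add]
          · rw [if_neg h4, if_neg (fun h => h5 h.1), if_neg h5, zero_add]
    have h1 := key N le_rfl
    rw [Finset.sum_range_succ, add_right_comm, h1]
    have h2 : ql N y = if |q y| ≤ β N then q y else 0 := by
      simp [hql, P]
    rw [h2]
    by_cases h4 : β N < |q y|
    · rw [if_pos h4, if_neg (not_le.2 h4), add_zero]
    · rw [if_neg h4, if_pos (not_lt.1 h4), zero_add]
  · -- the first bound
    intro l y
    have hind : 0 ≤ (closedBall (0 : E d) r).indicator (fun _ => A ^ p) y :=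
      indicator_nonneg (fun _ _ => by positivity) y
    have hq0 : 0 ≤ |q y| ^ p := by positivity
    simp only [hql]
    split_ifs with h
    · simp only [P] at h
      split_ifs at h with h1 h2
      · -- l < N
        have h0 : 0 < |q y| := lt_trans (half_pos (hβ0 l)) h.1
        have h3 : β l ≤ 2 * |q y| := by linarith [h.1]
        have h4 : β l ^ (p - 1) ≤ 2 * |q y| ^ (p - 1) := by
          calc β l ^ (p - 1) ≤ (2 * |q y|) ^ (p - 1) :=
                Real.rpow_le_rpow (hβ0 l).le h3 (by linarith)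
            _ = 2 ^ (p - 1) * |q y| ^ (p - 1) := Real.mul_rpow (by norm_num) h0.le
            _ ≤ 2 * |q y| ^ (p - 1) := by
                refine mul_le_mul_of_nonneg_right ?_ (by positivity)
                calc (2 : ℝ) ^ (p - 1) ≤ 2 ^ (1 : ℝ) :=
                      Real.rpow_le_rpow_of_exponent_le (by norm_num) (by linarith)
                  _ = 2 := Real.rpow_one 2
        have h5 : |q y| ^ p = |q y| ^ (p - 1) * |q y| := by
          rw [← Real.rpow_add_one h0.ne']
          congr 1
          ring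
        have h6 : β l ^ (p - 1) * |q y| ≤ 2 * |q y| ^ (p - 1) * |q y| :=
          mul_le_mul_of_nonneg_right h4 h0.le
        rw [h5]
        linarith
      · -- l = N
        subst h2
        by_cases hy : r < ‖y‖
        · rw [hq.supp y hy, abs_zero, mul_zero]
          rw [hq.supp y hy, abs_zero] at hq0
          linarith
        · have hy' : y ∈ closedBall (0 : E d) r := mem_closedBall_zero_iff.2 (not_lt.1 hy)
          rw [indicator_of_mem hy']
          have h5 : β l ^ p = β l ^ (p - 1) * β l := by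
            rw [← Real.rpow_add_one (hβ0 l).ne']
            congr 1
            ring
          have h6 : β l ^ (p - 1) * |q y| ≤ β l ^ (p - 1) * β l :=
            mul_le_mul_of_nonneg_left h (by have := hβ0 l; positivity)
          have h7 : β l ^ p ≤ A ^ p := Real.rpow_le_rpow (hβ0 l).le hβN (by linarith)
          linarith
    · rw [abs_zero, mul_zero]
      linarith
  · -- the square integrals
    intro l
    rw [← lintegral_const_mul' _ _ ENNReal.ofReal_ne_top]
    refine lintegral_mono fun y => ?_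
    rw [Real.enorm_eq_ofReal_abs, Real.enorm_eq_ofReal_abs,
      ENNReal.ofReal_rpow_of_nonneg (abs_nonneg _) (by linarith),
      ← ENNReal.ofReal_pow (abs_nonneg _), ← ENNReal.ofReal_mul (by have := hβ0 l; positivity)]
    refine ENNReal.ofReal_le_ofReal ?_
    obtain ⟨h1, h2⟩ := hql1 l y
    rcases (abs_nonneg (ql l y)).eq_or_lt with h0 | h0
    · rw [← h0]
      have h3 : 0 ≤ β l ^ (2 - p) * |q y| ^ p := by
        have := hβ0 l
        positivity
      simpa using h3
    · calc |ql l y| ^ 2 = |ql l y| ^ (2 - p) * |ql l y| ^ p := by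
            rw [← Real.rpow_add h0, sub_add_cancel]
            exact (Real.rpow_two _).symm
        _ ≤ β l ^ (2 - p) * |q y| ^ p := by
            refine mul_le_mul (Real.rpow_le_rpow h0.le h1 (by linarith))
              (Real.rpow_le_rpow h0.le h2 (by linarith)) (by positivity) ?_
            have := hβ0 l
            positivity
  · -- the integral of the high part
    rw [← lintegral_const_mul' _ _ ENNReal.ofReal_ne_top]
    refine lintegral_mono fun y => ?_
    rw [Real.enorm_eq_ofReal_abs, Real.enorm_eq_ofReal_abs,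
      ENNReal.ofReal_rpow_of_nonneg (abs_nonneg _) (by linarith),
      ← ENNReal.ofReal_mul (by positivity)]
    refine ENNReal.ofReal_le_ofReal ?_
    have h1 : b ^ (1 - p) * b ^ (p - 1) = 1 := by
      rw [← Real.rpow_add hb0, sub_add_sub_cancel', sub_self, Real.rpow_zero]
    calc |qh y| = b ^ (1 - p) * (b ^ (p - 1) * |qh y|) := by
          rw [← mul_assoc, h1, one_mul]
      _ ≤ b ^ (1 - p) * |q y| ^ p := mul_le_mul_of_nonneg_left (hhi y) (by positivity)

/-- The exponents. -/
theorem expo {p : ℝ} (hd : 3 ≤ d) (hp : (2 * (d : ℝ) - 1) / (2 * d - 2) < p) :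
    1 < p ∧ 0 < (d : ℝ) - 1 - (d - 1 / 2) / p := by
  have hd' : (3 : ℝ) ≤ d := by exact_mod_cast hd
  have h1 : (0 : ℝ) < 2 * d - 2 := by linarith
  have h2 : 1 < (2 * (d : ℝ) - 1) / (2 * d - 2) := by
    rw [lt_div_iff₀ h1]
    linarith
  have hp1 : 1 < p := h2.trans hp
  refine ⟨hp1, ?_⟩
  have h3 : 2 * (d : ℝ) - 1 < p * (2 * d - 2) := (div_lt_iff₀ h1).1 hp
  have h4 : ((d : ℝ) - 1 / 2) / p < d - 1 := by
    rw [div_lt_iff₀ (by linarith)]
    linarith
  linarith

end Pool.Agent.Lib.MP_ff3fe0_an_SPH
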