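import Pool.Agent.Lib.MP_ff3fe0_an_SPH.KmL
import Pool.Agent.Lib.MP_ff3fe0_an_SPH.KmH
import Pool.Agent.Lib.MP_ff3fe0_an_SPH.PieceA
import Pool.Agent.Lib.MP_ff3fe0_an_SPH.MinkA

set_option autoImplicit false

/-!
# The bound for the pieces
-/

namespace Pool.Agent.Lib.MP_ff3fe0_an_SPH

open MeasureTheory Metric Set
open scoped ENNReal NNReal ContDiff FourierTransform
open Pool.Agent.Lib.MP_ff3fe0_an

variable {d : ℕ}

/-- the number of levels is absorbed by half of the gain -/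
private theorem KmA_growth {D ε : ℝ} (hD : 0 < D) (hε : 0 < ε) (m : ℕ) :
    (D * m + 3) * (2 : ℝ) ^ (-(ε * m)) ≤
      (3 + D * (2 / (ε * Real.log 2))) * (2 : ℝ) ^ (-(ε / 2 * m)) := by
  have hlog : 0 < Real.log 2 := Real.log_pos (by norm_num)
  have h1 : (2 : ℝ) ^ (-(ε * m)) = (2 : ℝ) ^ (-(ε / 2 * m)) * (2 : ℝ) ^ (-(ε / 2 * m)) := by
    rw [← Real.rpow_add (by norm_num)]
    congr 1
    ring
  have h2 : 1 + ε / 2 * m * Real.log 2 ≤ (2 : ℝ) ^ (ε / 2 * m) := by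
    rw [Real.rpow_def_of_pos (by norm_num)]
    have := Real.add_one_le_exp (Real.log 2 * (ε / 2 * m))
    linarith
  have h3 : D * m + 3 ≤ (3 + D * (2 / (ε * Real.log 2))) * (2 : ℝ) ^ (ε / 2 * m) := by
    have h4 : D * m = D * (2 / (ε * Real.log 2)) * (ε / 2 * m * Real.log 2) := by
      field_simp
    have h5 : 0 < D * (2 / (ε * Real.log 2)) := by positivity
    have h6 : 1 ≤ (2 : ℝ) ^ (ε / 2 * m) := by
      refine le_trans ?_ h2
      have : 0 ≤ ε / 2 * m * Real.log 2 := by positivity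
      linarith
    have h7 : D * (2 / (ε * Real.log 2)) * (ε / 2 * m * Real.log 2) ≤
        D * (2 / (ε * Real.log 2)) * (2 : ℝ) ^ (ε / 2 * m) :=
      mul_le_mul_of_nonneg_left (by linarith) h5.le
    rw [add_mul]
    rw [h4]
    linarith
  have h8 : (2 : ℝ) ^ (ε / 2 * m) * (2 : ℝ) ^ (-(ε / 2 * m)) = 1 := by
    rw [← Real.rpow_add (by norm_num), add_neg_cancel, Real.rpow_zero]
  have h9 : 0 < (2 : ℝ) ^ (-(ε / 2 * m)) := by positivity
  rw [h1]
  calc (D * m + 3) * ((2 : ℝ) ^ (-(ε / 2 * m)) * (2 : ℝ) ^ (-(ε / 2 * m)))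
      ≤ ((3 + D * (2 / (ε * Real.log 2))) * (2 : ℝ) ^ (ε / 2 * m)) *
        ((2 : ℝ) ^ (-(ε / 2 * m)) * (2 : ℝ) ^ (-(ε / 2 * m))) :=
        mul_le_mul_of_nonneg_right h3 (by positivity)
    _ = (3 + D * (2 / (ε * Real.log 2))) * (2 : ℝ) ^ (-(ε / 2 * m)) *
        ((2 : ℝ) ^ (ε / 2 * m) * (2 : ℝ) ^ (-(ε / 2 * m))) := by ring
    _ = (3 + D * (2 / (ε * Real.log 2))) * (2 : ℝ) ^ (-(ε / 2 * m)) := by rw [h8, mul_one]

/-- measurability of the averages in the vector -/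
private theorem KmA_meas (hd : 0 < d) {S : E d → ℝ} (hS : IsKer S) (m j n : ℕ) {r : ℝ}
    {u : E d → ℝ} (hu : Bdd r u) (x : E d) (t : ℝ) :
    Measurable (fun c : Sph d => Avr n (fun s => XX S m j u (c : E d) x s) t) := by
  unfold Avr
  refine Measurable.const_mul ?_ _
  have h1 := measurable_XX hd hS m j hu
  have h2 : Measurable fun z : Sph d × ℝ => XX S m j u (z.1 : E d) x (t + z.2) := by
    have h3 : Measurable fun z : Sph d × ℝ => ((z.1 : E d), x, t + z.2) := by fun_prop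
    have h4 := h1.comp h3
    exact h4
  exact h2.lintegral_prod_right'

private theorem KmA_measr (hd : 0 < d) {S : E d → ℝ} (hS : IsKer S) (m j : ℕ) {r : ℝ}
    {u : E d → ℝ} (hu : Bdd r u) (c x : E d) (t : ℝ) :
    Measurable (fun s : ℝ => XX S m j u c x (t + s)) := by
  have h1 := measurable_XX hd hS m j hu
  have h3 : Measurable fun s : ℝ => (c, x, t + s) := by fun_prop
  have h4 := h1.comp h3
  exact h4

/-- subadditivity of the averages -/
private theorem KmA_avr (hd : 0 < d) {S : E d → ℝ} (hS : IsKer S) (m j n : ℕ) {r : ℝ} {L : ℕ}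
    {q : E d → ℝ} {ql : ℕ → E d → ℝ} {qh : E d → ℝ} (hq : ∀ l, Bdd r (ql l)) (hh : Bdd r qh)
    (hs : ∀ y, q y = ∑ l ∈ Finset.range (L + 1), ql l y + qh y) (c x : E d) (t : ℝ) :
    Avr n (fun s => XX S m j q c x s) t ≤
      ∑ l ∈ Finset.range (L + 1), Avr n (fun s => XX S m j (ql l) c x s) t +
        Avr n (fun s => XX S m j qh c x s) t := by
  unfold Avr
  rw [← Finset.mul_sum, ← mul_add]
  gcongr
  rw [← lintegral_finsetSum _ fun l _ => KmA_measr hd hS m j (hq l) c x t,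
    ← lintegral_add_right _ (KmA_measr hd hS m j hh c x t)]
  exact lintegral_mono fun s => XX_sum hd hS m j hq hh hs c x (t + s)

theorem km_bound (hd : 3 ≤ d) {S : E d → ℝ} (hS : IsKer S) (hF : FB S) {p : ℝ}
    (hp : (2 * (d : ℝ) - 1) / (2 * d - 2) < p) (hp2 : p < 3 / 2) {η : ℝ} (h0 : 0 < η)
    (h1 : η < (d : ℝ) - 1 - (d - 1 / 2) / p) (r : ℝ) :
    ∃ (C : ℝ≥0) (ε : ℝ), 0 < ε ∧ ∀ (A : ℝ) (q : ℕ → E d → ℝ), 0 < A → (∀ m, Bdd r (q m)) →
      ∑' m : ℕ, ENNReal.ofReal ((2 : ℝ) ^ (-(η * m))) * ∫⁻ y, ‖q m y‖ₑ ^ p ≤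
        ENNReal.ofReal (A ^ p) →
      ∀ k m n j : ℕ, 1 ≤ m → n ∈ RR k m → j ≤ 2 → ∃ Z : E d → ℝ≥0∞, Measurable Z ∧
        (∀ x, ∀ t ∈ Icc (1 : ℝ) 2, (piK (PP p η A r q) k x t univ)⁻¹ * ∫⁻ c : Sph d,
          Avr n (fun s => XX S m j (q m) c x s) t ∂(piK (PP p η A r q) k x t) ≤ Z x) ∧
        (∫⁻ x in closedBall (0 : E d) (√d), Z x ^ 2) ^ (1 / 2 : ℝ) ≤
          C * (5 / 3) ^ ((k - m) + (m - k)) * ENNReal.ofReal ((2 : ℝ) ^ (-(ε * m)) * A) := by
  have hd0 : 0 < d := by omega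
  have hp1 : 1 < p := (expo hd hp).1
  obtain ⟨Cl, εl, hεl, hlow⟩ := km_low hd hS hF hp hp2 h0 h1 r
  obtain ⟨Ch, εh, hεh, hhigh⟩ := km_high hd hS hp hp2 h0 h1 r
  obtain ⟨ε, hε⟩ : ∃ ε, ε = min εl εh := ⟨_, rfl⟩
  have hε0 : 0 < ε := by rw [hε]; exact lt_min hεl hεh
  obtain ⟨D, hD⟩ : ∃ D : ℝ, D = ((d : ℝ) - 1 / 2) / p := ⟨_, rfl⟩
  have hD0 : 0 < D := by
    rw [hD]
    have : (3 : ℝ) ≤ d := by exact_mod_cast hd
    exact div_pos (by linarith) (by linarith)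
  obtain ⟨C1, hC1⟩ : ∃ C1 : ℝ, C1 = 3 + D * (2 / (ε * Real.log 2)) := ⟨_, rfl⟩
  have hC10 : 0 ≤ C1 := by
    have hlog : 0 < Real.log 2 := Real.log_pos (by norm_num)
    rw [hC1]
    positivity
  refine ⟨(Cl + Ch) * C1.toNNReal, ε / 2, by positivity, ?_⟩
  intro A q hA hq hsum k m n j hm hn hj
  obtain ⟨b, hb⟩ : ∃ b : ℝ, b = (2 : ℝ) ^ (D * m) * A := ⟨_, rfl⟩
  obtain ⟨N, hN⟩ : ∃ N : ℕ, N = ⌈D * m⌉₊ := ⟨_, rfl⟩
  have hbA : A ≤ b := by
    rw [hb]
    have : (1 : ℝ) ≤ (2 : ℝ) ^ (D * m) := Real.one_le_rpow (by norm_num) (by positivity)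
    nlinarith
  have hbN : b ≤ A * 2 ^ N := by
    rw [hb, mul_comm]
    refine mul_le_mul_of_nonneg_left ?_ hA.le
    rw [← Real.rpow_natCast]
    refine Real.rpow_le_rpow_of_exponent_le (by norm_num) ?_
    rw [hN]
    exact Nat.le_ceil _
  obtain ⟨ql, qh, β, hql, hqh, hdec, hβ, hlev, hhi, hl2, hl1⟩ := pieces hp1 hp2 (hq m) hA hbA hbN
  have hlow' : ∀ l : ℕ, ∃ Z : E d → ℝ≥0∞, Measurable Z ∧
      (∀ x, ∀ t ∈ Icc (1 : ℝ) 2, (piK (PP p η A r q) k x t univ)⁻¹ * ∫⁻ c : Sph d,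
        Avr n (fun s => XX S m j (ql l) c x s) t ∂(piK (PP p η A r q) k x t) ≤ Z x) ∧
      (∫⁻ x in closedBall (0 : E d) (√d), Z x ^ 2) ^ (1 / 2 : ℝ) ≤
        Cl * (5 / 3) ^ ((k - m) + (m - k)) * ENNReal.ofReal ((2 : ℝ) ^ (-(εl * m)) * A) := by
    intro l
    refine hlow A q hA hq hsum k m n j hm hn hj (β l) (ql l) (hβ l).1 ?_ (hql l) (hlev l) (hl2 l)
    rw [← hD, ← hb]
    exact (hβ l).2
  choose Zl hZlm hZl hZl2 using hlow'
  obtain ⟨Zh, hZhm, hZh, hZh2⟩ := hhigh A q hA hq hsum k m n j hm hn hj b qh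
    (by rw [hb, hD]) hqh hhi hl1
  -- the family
  set F : ℕ → E d → ℝ≥0∞ := fun i => if i < N + 1 then Zl i else Zh with hF'
  have hFm : ∀ i, Measurable (F i) := by
    intro i
    rw [hF']
    by_cases hi : i < N + 1
    · simp only [hi, if_true]
      exact hZlm i
    · simp only [hi, if_false]
      exact hZhm
  have hFsum : ∀ x, ∑ i ∈ Finset.range (N + 2), F i x =
      ∑ l ∈ Finset.range (N + 1), Zl l x + Zh x := by
    intro x
    rw [Finset.sum_range_succ]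
    congr 1
    · refine Finset.sum_congr rfl fun i hi => ?_
      rw [Finset.mem_range] at hi
      rw [hF']
      simp only [hi, if_true]
    · rw [hF']
      simp only [lt_irrefl, if_false]
  refine ⟨fun x => ∑ i ∈ Finset.range (N + 2), F i x, ?_, ?_, ?_⟩
  · exact Finset.measurable_sum _ fun i _ => hFm i
  · intro x t ht
    show (piK (PP p η A r q) k x t univ)⁻¹ * ∫⁻ c : Sph d,
      Avr n (fun s => XX S m j (q m) c x s) t ∂(piK (PP p η A r q) k x t) ≤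
      ∑ i ∈ Finset.range (N + 2), F i x
    rw [hFsum x]
    have h2 : ∫⁻ c : Sph d, Avr n (fun s => XX S m j (q m) c x s) t
        ∂(piK (PP p η A r q) k x t) ≤
        ∑ l ∈ Finset.range (N + 1), ∫⁻ c : Sph d, Avr n (fun s => XX S m j (ql l) c x s) t
          ∂(piK (PP p η A r q) k x t) +
        ∫⁻ c : Sph d, Avr n (fun s => XX S m j qh c x s) t ∂(piK (PP p η A r q) k x t) := by
      rw [← lintegral_finsetSum _ fun l _ => KmA_meas hd0 hS m j n (hql l) x t,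
        ← lintegral_add_right _ (KmA_meas hd0 hS m j n hqh x t)]
      exact lintegral_mono fun c => KmA_avr hd0 hS m j n hql hqh hdec (c : E d) x t
    calc (piK (PP p η A r q) k x t univ)⁻¹ * ∫⁻ c : Sph d,
          Avr n (fun s => XX S m j (q m) c x s) t ∂(piK (PP p η A r q) k x t)
        ≤ (piK (PP p η A r q) k x t univ)⁻¹ * (∑ l ∈ Finset.range (N + 1),
          ∫⁻ c : Sph d, Avr n (fun s => XX S m j (ql l) c x s) t
          ∂(piK (PP p η A r q) k x t) +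
          ∫⁻ c : Sph d, Avr n (fun s => XX S m j qh c x s) t ∂(piK (PP p η A r q) k x t)) :=
          by gcongr
      _ = ∑ l ∈ Finset.range (N + 1), (piK (PP p η A r q) k x t univ)⁻¹ *
          ∫⁻ c : Sph d, Avr n (fun s => XX S m j (ql l) c x s) t
          ∂(piK (PP p η A r q) k x t) +
          (piK (PP p η A r q) k x t univ)⁻¹ * ∫⁻ c : Sph d,
          Avr n (fun s => XX S m j qh c x s) t ∂(piK (PP p η A r q) k x t) := by
          rw [mul_add, Finset.mul_sum]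
      _ ≤ ∑ l ∈ Finset.range (N + 1), Zl l x + Zh x :=
          add_le_add (Finset.sum_le_sum fun l _ => hZl l x t ht) (hZh x t ht)
  · -- the square norm
    have hmin := minkowski (μ := volume.restrict (closedBall (0 : E d) (√d)))
      (f := fun (i : Fin (N + 2)) x => F i x) fun i => hFm i
    simp only [tsum_fintype] at hmin
    have e1 : ∀ x, ∑ i : Fin (N + 2), F i x = ∑ i ∈ Finset.range (N + 2), F i x := fun x =>
      Fin.sum_univ_eq_sum_range (fun i => F i x) (N + 2)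
    simp only [e1] at hmin
    refine hmin.trans ?_
    obtain ⟨Q, hQ⟩ : ∃ Q : ℝ≥0∞, Q = ((Cl + Ch : ℝ≥0) : ℝ≥0∞) * (5 / 3) ^ ((k - m) + (m - k)) :=
      ⟨_, rfl⟩
    have hmono : ∀ ε' : ℝ, ε ≤ ε' → ENNReal.ofReal ((2 : ℝ) ^ (-(ε' * m)) * A) ≤
        ENNReal.ofReal ((2 : ℝ) ^ (-(ε * m)) * A) := by
      intro ε' h
      refine ENNReal.ofReal_le_ofReal (mul_le_mul_of_nonneg_right ?_ hA.le)
      refine Real.rpow_le_rpow_of_exponent_le (by norm_num) ?_
      have : ε * m ≤ ε' * m := mul_le_mul_of_nonneg_right h (Nat.cast_nonneg m)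
      linarith
    have hterm : ∀ i : Fin (N + 2),
        (∫⁻ x in closedBall (0 : E d) (√d), F i x ^ 2) ^ (1 / 2 : ℝ) ≤
          Q * ENNReal.ofReal ((2 : ℝ) ^ (-(ε * m)) * A) := by
      intro i
      by_cases hi : (i : ℕ) < N + 1
      · have : F i = Zl i := by
          rw [hF']
          simp only [hi, if_true]
        rw [this]
        refine (hZl2 i).trans ?_
        rw [hQ]
        have h8 : (Cl : ℝ≥0∞) ≤ ((Cl + Ch : ℝ≥0) : ℝ≥0∞) := by exact_mod_cast le_self_add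
        exact mul_le_mul' (mul_le_mul' h8 le_rfl)
          (hmono εl (by rw [hε]; exact min_le_left _ _))
      · have : F i = Zh := by
          rw [hF']
          simp only [hi, if_false]
        rw [this]
        refine hZh2.trans ?_
        rw [hQ]
        have h8 : (Ch : ℝ≥0∞) ≤ ((Cl + Ch : ℝ≥0) : ℝ≥0∞) := by exact_mod_cast le_add_self
        exact mul_le_mul' (mul_le_mul' h8 le_rfl)
          (hmono εh (by rw [hε]; exact min_le_right _ _))
    have hcount : ((N : ℝ≥0∞) + 2) * ENNReal.ofReal ((2 : ℝ) ^ (-(ε * m)) * A) ≤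
        (C1.toNNReal : ℝ≥0∞) * ENNReal.ofReal ((2 : ℝ) ^ (-(ε / 2 * m)) * A) := by
      have e2 : ((N : ℝ≥0∞) + 2) = ENNReal.ofReal ((N : ℝ) + 2) := by
        rw [ENNReal.ofReal_add (Nat.cast_nonneg N) (by norm_num), ENNReal.ofReal_natCast]
        simp
      have e3 : (C1.toNNReal : ℝ≥0∞) = ENNReal.ofReal C1 := rfl
      rw [e2, e3, ← ENNReal.ofReal_mul (by positivity), ← ENNReal.ofReal_mul hC10]
      refine ENNReal.ofReal_le_ofReal ?_
      have hNle : (N : ℝ) + 2 ≤ D * m + 3 := by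
        have := Nat.ceil_lt_add_one (a := D * m) (by positivity)
        rw [← hN] at this
        linarith
      have hg := KmA_growth hD0 hε0 m
      rw [← hC1] at hg
      calc ((N : ℝ) + 2) * ((2 : ℝ) ^ (-(ε * m)) * A)
          = ((N : ℝ) + 2) * (2 : ℝ) ^ (-(ε * m)) * A := by ring
        _ ≤ (D * m + 3) * (2 : ℝ) ^ (-(ε * m)) * A := by gcongr
        _ ≤ C1 * (2 : ℝ) ^ (-(ε / 2 * m)) * A := by gcongr
        _ = C1 * ((2 : ℝ) ^ (-(ε / 2 * m)) * A) := by ring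
    calc ∑ i : Fin (N + 2), (∫⁻ x in closedBall (0 : E d) (√d), F i x ^ 2) ^ (1 / 2 : ℝ)
        ≤ ∑ _i : Fin (N + 2), Q * ENNReal.ofReal ((2 : ℝ) ^ (-(ε * m)) * A) :=
          Finset.sum_le_sum fun i _ => hterm i
      _ = Q * (((N : ℝ≥0∞) + 2) * ENNReal.ofReal ((2 : ℝ) ^ (-(ε * m)) * A)) := by
          rw [Finset.sum_const, Finset.card_univ, Fintype.card_fin, nsmul_eq_mul]
          push_cast
          ring
      _ ≤ Q * ((C1.toNNReal : ℝ≥0∞) * ENNReal.ofReal ((2 : ℝ) ^ (-(ε / 2 * m)) * A)) := by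
          gcongr
      _ = ((((Cl + Ch) * C1.toNNReal : ℝ≥0)) : ℝ≥0∞) * (5 / 3) ^ ((k - m) + (m - k)) *
          ENNReal.ofReal ((2 : ℝ) ^ (-(ε / 2 * m)) * A) := by
          rw [hQ]
          push_cast
          ring

end Pool.Agent.Lib.MP_ff3fe0_an_SPH
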