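import Pool.Agent.Lib.MP_ff3fe0_an_SPH.LowA
import Pool.Agent.Lib.MP_ff3fe0_an_SPH.PPA

set_option autoImplicit false

/-!
# The low pieces
-/

namespace Pool.Agent.Lib.MP_ff3fe0_an_SPH

open MeasureTheory Metric Set
open scoped ENNReal NNReal ContDiff FourierTransform
open Pool.Agent.Lib.MP_ff3fe0_an

variable {d : ℕ}

/-- The numerical inequality for the powers of two. -/
private theorem kmL_real {d m : ℕ} {p η A β : ℝ} (hd : 3 ≤ d) (hp0 : 0 < p) (hp2 : p < 3 / 2)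
    (hA : 0 < A) (hβ : 0 < β) (hβ2 : β ≤ (2 : ℝ) ^ (((d : ℝ) - 1 / 2) / p * m) * A) :
    ((2 : ℝ) ^ (-(η * m)) * β ^ (p - 1))⁻¹ * A ^ p * (sc m ^ (d - 1) * (β ^ (2 - p) *
      ((2 : ℝ) ^ (η * m) * A ^ p))) * 2 ^ m ≤
    ((2 : ℝ) ^ (-(((d : ℝ) - 1 - (d - 1 / 2) / p - 2 * η / 3) * m)) * A) ^ 3 := by
  have h2 : (0 : ℝ) < 2 := by norm_num
  have hsc : sc m ^ (d - 1) = (2 : ℝ) ^ (-(((d : ℝ) - 1) * m)) := by
    unfold sc
    rw [one_div, inv_pow, inv_pow, ← pow_mul, Real.rpow_neg h2.le, ← Real.rpow_natCast]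
    congr 2
    rw [Nat.cast_mul, Nat.cast_sub (by omega), Nat.cast_one]
    ring
  have e1 : ((2 : ℝ) ^ (-(η * m)) * β ^ (p - 1))⁻¹ = (2 : ℝ) ^ (η * m) * β ^ (-(p - 1)) := by
    rw [mul_inv, ← Real.rpow_neg h2.le, ← Real.rpow_neg hβ.le, neg_neg]
  have e2 : (2 : ℝ) ^ m = (2 : ℝ) ^ (m : ℝ) := (Real.rpow_natCast _ _).symm
  have e3 : ((2 : ℝ) ^ (-(η * m)) * β ^ (p - 1))⁻¹ * A ^ p * (sc m ^ (d - 1) * (β ^ (2 - p) *
      ((2 : ℝ) ^ (η * m) * A ^ p))) * 2 ^ m =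
      (2 : ℝ) ^ (η * m + -(((d : ℝ) - 1) * m) + η * m + m) * β ^ (-(p - 1) + (2 - p)) *
        A ^ (p + p) := by
    rw [e1, hsc, e2, Real.rpow_add h2, Real.rpow_add h2, Real.rpow_add h2, Real.rpow_add hβ,
      Real.rpow_add hA]
    ring
  have e4 : β ^ (-(p - 1) + (2 - p)) ≤
      (2 : ℝ) ^ (((d : ℝ) - 1 / 2) / p * m * (3 - 2 * p)) * A ^ (3 - 2 * p) := by
    have h5 : -(p - 1) + (2 - p) = 3 - 2 * p := by ring
    rw [h5]
    calc β ^ (3 - 2 * p) ≤ ((2 : ℝ) ^ (((d : ℝ) - 1 / 2) / p * m) * A) ^ (3 - 2 * p) :=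
          Real.rpow_le_rpow hβ.le hβ2 (by linarith)
      _ = _ := by
          rw [Real.mul_rpow (by positivity) hA.le, ← Real.rpow_mul h2.le]
  rw [e3]
  calc (2 : ℝ) ^ (η * m + -(((d : ℝ) - 1) * m) + η * m + m) * β ^ (-(p - 1) + (2 - p)) *
        A ^ (p + p)
      ≤ (2 : ℝ) ^ (η * m + -(((d : ℝ) - 1) * m) + η * m + m) *
        ((2 : ℝ) ^ (((d : ℝ) - 1 / 2) / p * m * (3 - 2 * p)) * A ^ (3 - 2 * p)) *
        A ^ (p + p) := by gcongr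
    _ = (2 : ℝ) ^ ((η * m + -(((d : ℝ) - 1) * m) + η * m + m) +
        ((d : ℝ) - 1 / 2) / p * m * (3 - 2 * p)) * A ^ ((3 - 2 * p) + (p + p)) := by
        rw [Real.rpow_add h2 (η * m + -(((d : ℝ) - 1) * m) + η * m + m)
          (((d : ℝ) - 1 / 2) / p * m * (3 - 2 * p)), Real.rpow_add hA (3 - 2 * p) (p + p)]
        ring
    _ = ((2 : ℝ) ^ (-(((d : ℝ) - 1 - (d - 1 / 2) / p - 2 * η / 3) * m)) * A) ^ 3 := by
        rw [mul_pow, ← Real.rpow_natCast ((2 : ℝ) ^ _) 3, ← Real.rpow_mul h2.le]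
        congr 1
        · congr 1
          push_cast
          field_simp
          ring
        · rw [← Real.rpow_natCast A 3]
          congr 1
          push_cast
          ring

/-- The numerical factors. -/
private theorem kmL_KK (k m : ℕ) :
    KK k m * 2 ^ max k m ≤ ((5 / 3) ^ ((k - m) + (m - k))) ^ 3 * (2 : ℝ≥0∞) ^ m := by
  have h1 : (4 / 3 : ℝ≥0∞) * 2 ≤ (5 / 3) ^ 3 := by
    have h : ((4 / 3 * 2 : ℝ≥0) : ℝ≥0∞) ≤ (((5 / 3) ^ 3 : ℝ≥0) : ℝ≥0∞) := by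
      rw [ENNReal.coe_le_coe, ← NNReal.coe_le_coe]
      push_cast
      norm_num
    rw [ENNReal.coe_mul, ENNReal.coe_pow, ENNReal.coe_div (by norm_num),
      ENNReal.coe_div (by norm_num)] at h
    simpa only [ENNReal.coe_ofNat] using h
  have h2 : (2 : ℝ≥0∞) ≤ (5 / 3) ^ 3 := by
    have h : ((2 : ℝ≥0) : ℝ≥0∞) ≤ (((5 / 3) ^ 3 : ℝ≥0) : ℝ≥0∞) := by
      rw [ENNReal.coe_le_coe, ← NNReal.coe_le_coe]
      push_cast
      norm_num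
    rw [ENNReal.coe_pow, ENNReal.coe_div (by norm_num)] at h
    simpa only [ENNReal.coe_ofNat] using h
  have h3 : max k m = m + (k - m) := by omega
  unfold KK
  rw [h3, pow_add (2 : ℝ≥0∞) m (k - m)]
  calc (4 / 3 : ℝ≥0∞) ^ (k - m) * 2 ^ (m - k) * (2 ^ m * 2 ^ (k - m))
      = (4 / 3 * 2) ^ (k - m) * 2 ^ (m - k) * 2 ^ m := by
        rw [mul_pow]
        ring
    _ ≤ ((5 / 3) ^ 3) ^ (k - m) * ((5 / 3) ^ 3) ^ (m - k) * 2 ^ m := by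
        gcongr
    _ = ((5 / 3) ^ ((k - m) + (m - k))) ^ 3 * (2 : ℝ≥0∞) ^ m := by
        rw [← pow_add, ← pow_mul, ← pow_mul, mul_comm 3]

private theorem kmL_cube (a b c : ℝ≥0∞) :
    (a * (b ^ 3 * c ^ 3)) ^ (1 / 3 : ℝ) = a ^ (1 / 3 : ℝ) * (b * c) := by
  rw [ENNReal.mul_rpow_of_nonneg _ _ (by norm_num), ← mul_pow, ← ENNReal.rpow_natCast,
    ← ENNReal.rpow_mul]
  norm_num

theorem km_low (hd : 3 ≤ d) {S : E d → ℝ} (hS : IsKer S) (hF : FB S) {p : ℝ}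
    (hp : (2 * (d : ℝ) - 1) / (2 * d - 2) < p) (hp2 : p < 3 / 2) {η : ℝ} (h0 : 0 < η)
    (h1 : η < (d : ℝ) - 1 - (d - 1 / 2) / p) (r : ℝ) :
    ∃ (C : ℝ≥0) (ε : ℝ), 0 < ε ∧ ∀ (A : ℝ) (q : ℕ → E d → ℝ), 0 < A → (∀ m, Bdd r (q m)) →
      ∑' m : ℕ, ENNReal.ofReal ((2 : ℝ) ^ (-(η * m))) * ∫⁻ y, ‖q m y‖ₑ ^ p ≤
        ENNReal.ofReal (A ^ p) →
      ∀ k m n j : ℕ, 1 ≤ m → n ∈ RR k m → j ≤ 2 → ∀ (β : ℝ) (u : E d → ℝ), 0 < β →
        β ≤ (2 : ℝ) ^ (((d : ℝ) - 1 / 2) / p * m) * A → Bdd r u →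
        (∀ y, β ^ (p - 1) * |u y| ≤ 2 * |q m y| ^ p +
          (closedBall (0 : E d) r).indicator (fun _ => A ^ p) y) →
        ∫⁻ y, ‖u y‖ₑ ^ 2 ≤ ENNReal.ofReal (β ^ (2 - p)) * ∫⁻ y, ‖q m y‖ₑ ^ p →
        ∃ Z : E d → ℝ≥0∞, Measurable Z ∧
          (∀ x, ∀ t ∈ Icc (1 : ℝ) 2, (piK (PP p η A r q) k x t univ)⁻¹ * ∫⁻ c : Sph d,
            Avr n (fun s => XX S m j u c x s) t ∂(piK (PP p η A r q) k x t) ≤ Z x) ∧
          (∫⁻ x in closedBall (0 : E d) (√d), Z x ^ 2) ^ (1 / 2 : ℝ) ≤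
            C * (5 / 3) ^ ((k - m) + (m - k)) * ENNReal.ofReal ((2 : ℝ) ^ (-(ε * m)) * A) := by
  have hd3 : (3 : ℝ) ≤ d := by exact_mod_cast hd
  have hp0 : 0 < p := lt_of_le_of_lt (div_nonneg (by linarith) (by linarith)) hp
  obtain ⟨C1, hlow⟩ := low (d := d) (by omega) hS hF
  obtain ⟨C2, hsum⟩ := PP_sum (d := d) h0 p r
  have hvol : volume (closedBall (0 : E d) (√d)) ≠ ⊤ := measure_closedBall_lt_top.ne
  refine ⟨(C1 * C2) ^ (1 / 3 : ℝ) * (volume (closedBall (0 : E d) (√d))).toNNReal ^ (1 / 6 : ℝ),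
    (d : ℝ) - 1 - (d - 1 / 2) / p - 2 * η / 3, by linarith, ?_⟩
  intro A q hA hq hs k m n j hm hn hj β u hβ hβ2 hu hu2 hu3
  have hθ : 0 < (2 : ℝ) ^ (-(η * m)) * β ^ (p - 1) := by positivity
  obtain ⟨W, hWm, hW1, hW2⟩ := hlow k m n j hm hn hj (PP p η A r q)
    (measurable_PP fun m => (hq m).meas) r u hu
    (ENNReal.ofReal ((2 : ℝ) ^ (-(η * m)) * β ^ (p - 1)))
    (by rw [Ne, ENNReal.ofReal_eq_zero, not_le]; exact hθ) ENNReal.ofReal_ne_top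
    (PP_fat hp0 hβ hu2 hA)
  -- the integral of `W`
  have hqm : ∫⁻ y, ‖q m y‖ₑ ^ p ≤ ENNReal.ofReal ((2 : ℝ) ^ (η * m) * A ^ p) := by
    have h3 : ENNReal.ofReal ((2 : ℝ) ^ (-(η * m))) * ∫⁻ y, ‖q m y‖ₑ ^ p ≤
        ENNReal.ofReal (A ^ p) := (ENNReal.le_tsum m).trans hs
    calc ∫⁻ y, ‖q m y‖ₑ ^ p = ENNReal.ofReal ((2 : ℝ) ^ (η * m)) *
          (ENNReal.ofReal ((2 : ℝ) ^ (-(η * m))) * ∫⁻ y, ‖q m y‖ₑ ^ p) := by
          rw [← mul_assoc, ← ENNReal.ofReal_mul (by positivity), ← Real.rpow_add (by norm_num),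
            add_neg_cancel, Real.rpow_zero, ENNReal.ofReal_one, one_mul]
      _ ≤ ENNReal.ofReal ((2 : ℝ) ^ (η * m)) * ENNReal.ofReal (A ^ p) := by gcongr
      _ = _ := (ENNReal.ofReal_mul (by positivity)).symm
  have hu4 : ∫⁻ y, ‖u y‖ₑ ^ 2 ≤ ENNReal.ofReal (β ^ (2 - p) * ((2 : ℝ) ^ (η * m) * A ^ p)) := by
    refine hu3.trans ?_
    rw [ENNReal.ofReal_mul (by positivity : (0 : ℝ) ≤ β ^ (2 - p))]
    gcongr
  have hPs := hsum A q hA (fun m => (hq m).meas) hs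
  have hWi : ∫⁻ x, W x ≤ (C1 * C2 : ℝ≥0∞) * (((5 / 3) ^ ((k - m) + (m - k))) ^ 3 *
      ENNReal.ofReal (((2 : ℝ) ^ (-(((d : ℝ) - 1 - (d - 1 / 2) / p - 2 * η / 3) * m)) *
        A) ^ 3)) := by
    have hsc : (0 : ℝ) ≤ sc m ^ (d - 1) := by unfold sc; positivity
    calc ∫⁻ x, W x ≤ C1 * (KK k m * (ENNReal.ofReal ((2 : ℝ) ^ (-(η * m)) * β ^ (p - 1)))⁻¹ *
          2 ^ max k m * (∑' m', ∫⁻ y, PP p η A r q m' y) *
            (ENNReal.ofReal (sc m ^ (d - 1)) * ∫⁻ y, ‖u y‖ₑ ^ 2)) := hW2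
      _ ≤ C1 * (KK k m * (ENNReal.ofReal ((2 : ℝ) ^ (-(η * m)) * β ^ (p - 1)))⁻¹ *
          2 ^ max k m * (C2 * ENNReal.ofReal (A ^ p)) *
            (ENNReal.ofReal (sc m ^ (d - 1)) *
              ENNReal.ofReal (β ^ (2 - p) * ((2 : ℝ) ^ (η * m) * A ^ p)))) := by gcongr
      _ = (C1 * C2) * ((KK k m * 2 ^ max k m) * (ENNReal.ofReal (((2 : ℝ) ^ (-(η * m)) *
          β ^ (p - 1))⁻¹) * ENNReal.ofReal (A ^ p) * (ENNReal.ofReal (sc m ^ (d - 1)) *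
              ENNReal.ofReal (β ^ (2 - p) * ((2 : ℝ) ^ (η * m) * A ^ p))))) := by
          rw [ENNReal.ofReal_inv_of_pos hθ]
          ring
      _ ≤ (C1 * C2) * ((((5 / 3) ^ ((k - m) + (m - k))) ^ 3 * (2 : ℝ≥0∞) ^ m) *
          (ENNReal.ofReal (((2 : ℝ) ^ (-(η * m)) *
          β ^ (p - 1))⁻¹) * ENNReal.ofReal (A ^ p) * (ENNReal.ofReal (sc m ^ (d - 1)) *
              ENNReal.ofReal (β ^ (2 - p) * ((2 : ℝ) ^ (η * m) * A ^ p))))) := by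
          exact mul_le_mul' le_rfl (mul_le_mul' (kmL_KK k m) le_rfl)
      _ = (C1 * C2) * (((5 / 3) ^ ((k - m) + (m - k))) ^ 3 *
          ENNReal.ofReal (((2 : ℝ) ^ (-(η * m)) * β ^ (p - 1))⁻¹ * A ^ p * (sc m ^ (d - 1) *
            (β ^ (2 - p) * ((2 : ℝ) ^ (η * m) * A ^ p))) * 2 ^ m)) := by
          have h5 : (2 : ℝ≥0∞) ^ m = ENNReal.ofReal ((2 : ℝ) ^ m) := by
            rw [ENNReal.ofReal_pow (by norm_num), ENNReal.ofReal_ofNat]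
          rw [h5, ENNReal.ofReal_mul (q := (2 : ℝ) ^ m) (by positivity),
            ENNReal.ofReal_mul (p := ((2 : ℝ) ^ (-(η * m)) * β ^ (p - 1))⁻¹ * A ^ p)
              (by positivity),
            ENNReal.ofReal_mul (p := ((2 : ℝ) ^ (-(η * m)) * β ^ (p - 1))⁻¹) (by positivity),
            ENNReal.ofReal_mul (p := sc m ^ (d - 1)) hsc]
          ring
      _ ≤ _ := by
          gcongr
          exact kmL_real hd hp0 hp2 hA hβ hβ2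
  refine ⟨fun x => W x ^ (1 / 3 : ℝ), hWm.pow_const _, ?_, ?_⟩
  · intro x t ht
    have h3 := hW1 x t ht
    calc (piK (PP p η A r q) k x t univ)⁻¹ * ∫⁻ c : Sph d,
            Avr n (fun s => XX S m j u c x s) t ∂(piK (PP p η A r q) k x t)
        = (((piK (PP p η A r q) k x t univ)⁻¹ * ∫⁻ c : Sph d,
            Avr n (fun s => XX S m j u c x s) t ∂(piK (PP p η A r q) k x t)) ^ 3) ^
              (1 / 3 : ℝ) := by
          rw [← ENNReal.rpow_natCast, ← ENNReal.rpow_mul]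
          norm_num
      _ ≤ W x ^ (1 / 3 : ℝ) := by gcongr
  · have h3 : ∀ x, (W x ^ (1 / 3 : ℝ)) ^ 2 = W x ^ (2 / 3 : ℝ) := by
      intro x
      rw [← ENNReal.rpow_natCast, ← ENNReal.rpow_mul]
      norm_num
    simp only [h3]
    have hH := ENNReal.lintegral_mul_le_Lp_mul_Lq (p := 3 / 2) (q := 3)
      (volume.restrict (closedBall (0 : E d) (√d)))
      (Real.holderConjugate_iff.2 ⟨by norm_num, by norm_num⟩)
      (f := fun x => W x ^ (2 / 3 : ℝ)) (g := fun _ => 1) (hWm.pow_const _).aemeasurable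
      aemeasurable_const
    simp only [Pi.mul_apply, mul_one, ENNReal.one_rpow, lintegral_one, Measure.restrict_apply,
      MeasurableSet.univ, univ_inter] at hH
    have h4 : ∀ x, (W x ^ (2 / 3 : ℝ)) ^ (3 / 2 : ℝ) = W x := by
      intro x
      rw [← ENNReal.rpow_mul]
      norm_num
    simp only [h4] at hH
    have h5 : ∫⁻ x in closedBall (0 : E d) (√d), W x ≤ ∫⁻ x, W x := setLIntegral_le_lintegral _ _
    calc (∫⁻ x in closedBall (0 : E d) (√d), W x ^ (2 / 3 : ℝ)) ^ (1 / 2 : ℝ)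
        ≤ ((∫⁻ x in closedBall (0 : E d) (√d), W x) ^ (1 / (3 / 2) : ℝ) *
          volume (closedBall (0 : E d) (√d)) ^ (1 / 3 : ℝ)) ^ (1 / 2 : ℝ) := by gcongr
      _ = (∫⁻ x in closedBall (0 : E d) (√d), W x) ^ (1 / 3 : ℝ) *
          volume (closedBall (0 : E d) (√d)) ^ (1 / 6 : ℝ) := by
          rw [ENNReal.mul_rpow_of_nonneg _ _ (by norm_num), ← ENNReal.rpow_mul,
            ← ENNReal.rpow_mul]
          norm_num
      _ ≤ ((C1 * C2 : ℝ≥0∞) * (((5 / 3) ^ ((k - m) + (m - k))) ^ 3 *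
          ENNReal.ofReal (((2 : ℝ) ^ (-(((d : ℝ) - 1 - (d - 1 / 2) / p - 2 * η / 3) * m)) *
          A) ^ 3))) ^ (1 / 3 : ℝ) * volume (closedBall (0 : E d) (√d)) ^ (1 / 6 : ℝ) := by
          gcongr
          exact h5.trans hWi
      _ = (((C1 * C2) ^ (1 / 3 : ℝ) *
          (volume (closedBall (0 : E d) (√d))).toNNReal ^ (1 / 6 : ℝ) : ℝ≥0) : ℝ≥0∞) *
          (5 / 3) ^ ((k - m) + (m - k)) * ENNReal.ofReal
          ((2 : ℝ) ^ (-(((d : ℝ) - 1 - (d - 1 / 2) / p - 2 * η / 3) * m)) * A) := by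
          rw [ENNReal.ofReal_pow (by positivity), kmL_cube, ENNReal.coe_mul,
            ENNReal.coe_rpow_of_nonneg _ (by norm_num), ENNReal.coe_rpow_of_nonneg _ (by norm_num),
            ENNReal.coe_toNNReal hvol, ENNReal.coe_mul]
          ring

end Pool.Agent.Lib.MP_ff3fe0_an_SPH
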