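import Pool.Agent.Lib.MP_ff3fe0_an_SPH.MuA

set_option autoImplicit false

/-!
# Decay of the Fourier transform of the sphere
-/

namespace Pool.Agent.Lib.MP_ff3fe0_an_SPH

open MeasureTheory Metric Set
open scoped ENNReal NNReal ContDiff FourierTransform
open Pool.Agent.Lib.MP_ff3fe0_an

variable {d : ℕ}

/-- The hypotheses on the radial profile. -/
private structure MuBProf (p : ℕ) (m m1 m2 m3 : ℝ → ℝ) : Prop where
  h0 : ∀ r, HasDerivAt m (m1 r) r
  h1 : ∀ r, HasDerivAt m1 (m2 r) r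
  h2 : ∀ r, HasDerivAt m2 (m3 r) r
  bd : ∀ r, |m r| ≤ 1
  ode : ∀ r, r * m2 r + ((p : ℝ) + 1) * m1 r + r * m r = 0

private theorem MuBProf.neg {p : ℕ} {m m1 m2 m3 : ℝ → ℝ} (h : MuBProf p m m1 m2 m3) :
    MuBProf p (fun r => -m r) (fun r => -m1 r) (fun r => -m2 r) (fun r => -m3 r) where
  h0 := fun r => (h.h0 r).neg
  h1 := fun r => (h.h1 r).neg
  h2 := fun r => (h.h2 r).neg
  bd := fun r => by rw [abs_neg]; exact h.bd r
  ode := fun r => by have := h.ode r; linear_combination -this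

/-- The differentiated equation. -/
private theorem MuBProf.ode3 {p : ℕ} {m m1 m2 m3 : ℝ → ℝ} (h : MuBProf p m m1 m2 m3) (r : ℝ) :
    r * m3 r = -((p : ℝ) + 2) * m2 r - m r - r * m1 r := by
  have hd : HasDerivAt (fun r => r * m2 r + ((p : ℝ) + 1) * m1 r + r * m r)
      ((1 * m2 r + r * m3 r) + ((p : ℝ) + 1) * m2 r + (1 * m r + r * m1 r)) r :=
    (((hasDerivAt_id r).mul (h.h2 r)).add ((h.h1 r).const_mul _)).add
      ((hasDerivAt_id r).mul (h.h0 r))
  have hc : (fun r => r * m2 r + ((p : ℝ) + 1) * m1 r + r * m r) = fun _ => (0 : ℝ) :=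
    funext h.ode
  rw [hc] at hd
  have := hd.unique (hasDerivAt_const r (0 : ℝ))
  linear_combination this

private theorem MuBProf.m1zero {p : ℕ} {m m1 m2 m3 : ℝ → ℝ} (h : MuBProf p m m1 m2 m3) :
    m1 0 = 0 := by
  have := h.ode 0
  simp only [zero_mul, zero_add, add_zero] at this
  rcases mul_eq_zero.1 this with h | h
  · have : (0 : ℝ) < (p : ℝ) + 1 := by positivity
    exact absurd h this.ne'
  · exact h

/-- A function on `[0, ∞)` with nonnegative derivative which vanishes at `0` is nonnegative. -/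
private theorem MuB_mono {f f' : ℝ → ℝ} (hf : ∀ r, HasDerivAt f (f' r) r)
    (h0 : f 0 = 0) (hn : ∀ r, 0 < r → 0 ≤ f' r) (r : ℝ) (hr : 0 ≤ r) : 0 ≤ f r := by
  have hm : MonotoneOn f (Ici 0) := by
    refine monotoneOn_of_deriv_nonneg (convex_Ici 0)
      (fun x _ => (hf x).continuousAt.continuousWithinAt)
      (fun x _ => (hf x).differentiableAt.differentiableWithinAt) ?_
    intro x hx
    rw [interior_Ici] at hx
    rw [(hf x).deriv]
    exact hn x hx
  have := hm (self_mem_Ici) hr hr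
  rwa [h0] at this

private theorem MuBProf.energy {p : ℕ} {m m1 m2 m3 : ℝ → ℝ} (h : MuBProf p m m1 m2 m3)
    (r : ℝ) (hr : 0 ≤ r) : m1 r ^ 2 + m r ^ 2 ≤ 1 := by
  have hd : ∀ r, HasDerivAt (fun r => m 0 ^ 2 - (m1 r ^ 2 + m r ^ 2))
      (-(2 * m1 r * m2 r + 2 * m r * m1 r)) r := by
    intro r
    have h1 : HasDerivAt (fun r => m1 r ^ 2) (2 * m1 r * m2 r) r := by
      simpa using (h.h1 r).fun_pow 2
    have h2 : HasDerivAt (fun r => m r ^ 2) (2 * m r * m1 r) r := by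
      simpa using (h.h0 r).fun_pow 2
    simpa using (h1.add h2).const_sub (m 0 ^ 2)
  have := MuB_mono hd (by simp [h.m1zero]) (fun r hr => ?_) r hr
  · have hb := abs_le.1 (h.bd 0)
    nlinarith [hb.1, hb.2]
  · have ho := h.ode r
    have hp : (0 : ℝ) ≤ (p : ℝ) + 1 := by positivity
    have hx : r * (m1 r * m2 r + m r * m1 r) = -((p : ℝ) + 1) * m1 r ^ 2 := by
      linear_combination m1 r * ho
    have h3 : r * (m1 r * m2 r + m r * m1 r) ≤ 0 := by
      rw [hx]; nlinarith [sq_nonneg (m1 r), mul_nonneg hp (sq_nonneg (m1 r))]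
    have h4 : m1 r * m2 r + m r * m1 r ≤ 0 := by
      by_contra hcon
      push Not at hcon
      nlinarith [mul_pos hr hcon]
    linarith

private theorem MuBProf.low1 {p : ℕ} {m m1 m2 m3 : ℝ → ℝ} (h : MuBProf p m m1 m2 m3)
    (r : ℝ) (hr : 0 < r) : -r ≤ m1 r := by
  have hd : ∀ r, HasDerivAt (fun r => r ^ (p + 1) * m1 r + r ^ (p + 2))
      (((p : ℝ) + 1) * r ^ p * m1 r + r ^ (p + 1) * m2 r + ((p : ℝ) + 2) * r ^ (p + 1)) r := by
    intro r
    have h1 := hasDerivAt_pow (p + 1) r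
    have h2 := hasDerivAt_pow (p + 2) r
    have h3 := (h1.mul (h.h1 r)).add h2
    have h6 : p + 1 - 1 = p := by omega
    have h5 : p + 2 - 1 = p + 1 := by omega
    rw [h6, h5] at h3
    exact h3.congr_deriv (by push_cast; ring)
  have := MuB_mono hd (by simp) (fun r hr => ?_) r hr.le
  · have hrp : 0 < r ^ (p + 1) := by positivity
    have h1 : 0 ≤ r ^ (p + 1) * (m1 r + r) := by
      have : r ^ (p + 1) * (m1 r + r) = r ^ (p + 1) * m1 r + r ^ (p + 2) := by ring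
      rw [this]; assumption
    have := nonneg_of_mul_nonneg_right h1 hrp
    linarith
  · have ho := h.ode r
    have hb := abs_le.1 (h.bd r)
    have h1 : ((p : ℝ) + 1) * r ^ p * m1 r + r ^ (p + 1) * m2 r + ((p : ℝ) + 2) * r ^ (p + 1)
        = r ^ (p + 1) * ((1 - m r) + ((p : ℝ) + 1)) := by
      linear_combination r ^ p * ho
    rw [h1]
    have hp : (0 : ℝ) ≤ (p : ℝ) + 1 := by positivity
    have : (0 : ℝ) ≤ (1 - m r) + ((p : ℝ) + 1) := by linarith [hb.2]
    positivity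

private theorem MuBProf.abs1 {p : ℕ} {m m1 m2 m3 : ℝ → ℝ} (h : MuBProf p m m1 m2 m3)
    (r : ℝ) (hr : 0 < r) : |m1 r| ≤ r := by
  have h1 := h.low1 r hr
  have h2 := h.neg.low1 r hr
  exact abs_le.2 ⟨h1, by linarith⟩

private theorem MuBProf.lowG {p : ℕ} {m m1 m2 m3 : ℝ → ℝ} (h : MuBProf p m m1 m2 m3)
    (r : ℝ) (hr : 0 < r) : -r ^ 3 ≤ r * m2 r - m1 r := by
  have hd : ∀ r, HasDerivAt (fun r => r ^ (p + 1) * (r * m2 r - m1 r) + r ^ (p + 4))
      (((p : ℝ) + 1) * r ^ p * (r * m2 r - m1 r) + r ^ (p + 1) * (r * m3 r)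
        + ((p : ℝ) + 4) * r ^ (p + 3)) r := by
    intro r
    have h1 := hasDerivAt_pow (p + 1) r
    have h2 := hasDerivAt_pow (p + 4) r
    have h4 : HasDerivAt (fun r => r * m2 r - m1 r) ((1 * m2 r + r * m3 r) - m2 r) r :=
      ((hasDerivAt_id r).mul (h.h2 r)).sub (h.h1 r)
    have h3 := (h1.mul h4).add h2
    have h6 : p + 4 - 1 = p + 3 := by omega
    have h5 : p + 1 - 1 = p := by omega
    rw [h6, h5] at h3
    exact h3.congr_deriv (by push_cast; ring)
  have := MuB_mono hd (by simp) (fun r hr => ?_) r hr.le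
  · have hrp : 0 < r ^ (p + 1) := by positivity
    have h1 : 0 ≤ r ^ (p + 1) * ((r * m2 r - m1 r) + r ^ 3) := by
      have : r ^ (p + 1) * ((r * m2 r - m1 r) + r ^ 3)
          = r ^ (p + 1) * (r * m2 r - m1 r) + r ^ (p + 4) := by ring
      rw [this]; assumption
    have := nonneg_of_mul_nonneg_right h1 hrp
    linarith
  · have ho := h.ode r
    have ho3 := h.ode3 r
    have hb := (abs_le.1 (h.abs1 r hr))
    have h1 : ((p : ℝ) + 1) * r ^ p * (r * m2 r - m1 r) + r ^ (p + 1) * (r * m3 r)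
        + ((p : ℝ) + 4) * r ^ (p + 3)
        = r ^ (p + 2) * ((r - m1 r) + ((p : ℝ) + 3) * r) := by
      linear_combination (-r ^ p) * ho + r ^ (p + 1) * ho3
    rw [h1]
    have hp : (0 : ℝ) ≤ ((p : ℝ) + 3) * r := by positivity
    have : (0 : ℝ) ≤ (r - m1 r) + ((p : ℝ) + 3) * r := by linarith [hb.2]
    positivity

private theorem MuBProf.absG {p : ℕ} {m m1 m2 m3 : ℝ → ℝ} (h : MuBProf p m m1 m2 m3)
    (r : ℝ) (hr : 0 < r) : |r * m2 r - m1 r| ≤ r ^ 3 := by
  have h1 := h.lowG r hr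
  have h2 := h.neg.lowG r hr
  exact abs_le.2 ⟨h1, by linarith⟩

private theorem MuBProf.abs2 {p : ℕ} {m m1 m2 m3 : ℝ → ℝ} (h : MuBProf p m m1 m2 m3)
    (r : ℝ) (hr : 0 < r) : |m2 r| ≤ p + 2 := by
  have ho := h.ode r
  have h1 : r * |m2 r| ≤ r * (p + 2) := by
    rw [← abs_of_pos hr, ← abs_mul, abs_of_pos hr]
    have : r * m2 r = -(((p : ℝ) + 1) * m1 r) - r * m r := by linarith
    rw [this]
    have ha := h.abs1 r hr
    have hb := h.bd r
    calc |-(((p : ℝ) + 1) * m1 r) - r * m r| ≤ |-(((p : ℝ) + 1) * m1 r)| + |r * m r| :=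
          abs_sub _ _
      _ = ((p : ℝ) + 1) * |m1 r| + r * |m r| := by
          rw [abs_neg, abs_mul, abs_mul, abs_of_pos hr, abs_of_nonneg (by positivity)]
      _ ≤ ((p : ℝ) + 1) * r + r * 1 := by gcongr
      _ = r * (p + 2) := by ring
  exact le_of_mul_le_mul_left h1 hr

private theorem MuBProf.abs3 {p : ℕ} {m m1 m2 m3 : ℝ → ℝ} (h : MuBProf p m m1 m2 m3)
    (r : ℝ) (hr : 0 < r) : |m3 r| ≤ (p + 2) * r := by
  have ho := h.ode r
  have ho3 := h.ode3 r
  have h1 : r ^ 2 * |m3 r| ≤ r ^ 2 * ((p + 2) * r) := by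
    have hr2 : (0 : ℝ) < r ^ 2 := by positivity
    rw [← abs_of_pos hr2, ← abs_mul, abs_of_pos hr2]
    have : r ^ 2 * m3 r = -(((p : ℝ) + 1) * (r * m2 r - m1 r)) - r ^ 2 * m1 r := by
      linear_combination r * ho3 + ho * (-1)
    rw [this]
    have ha := h.absG r hr
    have hb := h.abs1 r hr
    calc |-(((p : ℝ) + 1) * (r * m2 r - m1 r)) - r ^ 2 * m1 r|
        ≤ |-(((p : ℝ) + 1) * (r * m2 r - m1 r))| + |r ^ 2 * m1 r| := abs_sub _ _
      _ = ((p : ℝ) + 1) * |r * m2 r - m1 r| + r ^ 2 * |m1 r| := by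
          rw [abs_neg, abs_mul, abs_mul, abs_of_pos hr2, abs_of_nonneg (a := (p : ℝ) + 1)
            (by positivity)]
      _ ≤ ((p : ℝ) + 1) * r ^ 3 + r ^ 2 * r := by gcongr
      _ = r ^ 2 * ((p + 2) * r) := by ring
  exact le_of_mul_le_mul_left h1 (by positivity)

/-- The decay of the energy. -/
private theorem MuBProf.decay {p : ℕ} {m m1 m2 m3 : ℝ → ℝ} (h : MuBProf p m m1 m2 m3)
    (r : ℝ) (hr : 0 < r) :
    r ^ (p + 1) * (m r ^ 2 + m1 r ^ 2) ≤ 4 * Real.exp 1 * ((p : ℝ) + 1) ^ (p + 1) := by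
  set n : ℝ := (p : ℝ) + 1 with hn
  have hn1 : 1 ≤ n := by rw [hn]; linarith [Nat.cast_nonneg (α := ℝ) p]
  have hn0 : 0 < n := by linarith
  have he1 : (1 : ℝ) ≤ Real.exp 1 := by
    have := Real.add_one_le_exp (1 : ℝ); linarith
  have hen : ∀ r, 0 < r → m r ^ 2 + m1 r ^ 2 ≤ 1 := fun r hr => by
    have := h.energy r hr.le; linarith
  rcases le_or_gt r n with hrn | hrn
  · have h1 : r ^ (p + 1) ≤ n ^ (p + 1) := pow_le_pow_left₀ hr.le hrn _
    have h2 := hen r hr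
    have h3 : 0 ≤ m r ^ 2 + m1 r ^ 2 := by positivity
    have h4 : 0 < n ^ (p + 1) := by positivity
    calc r ^ (p + 1) * (m r ^ 2 + m1 r ^ 2) ≤ n ^ (p + 1) * 1 := by gcongr
      _ ≤ 4 * Real.exp 1 * n ^ (p + 1) := by nlinarith
  · -- the Lyapunov function
    let Q : ℝ → ℝ := fun r => r ^ (p + 1) * (m r ^ 2 + m1 r ^ 2) + n * (r ^ p * (m r * m1 r))
    let Q' : ℝ → ℝ := fun r => n * r ^ p * (m r ^ 2 + m1 r ^ 2)
      + r ^ (p + 1) * (2 * m r * m1 r + 2 * m1 r * m2 r)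
      + n * (((p : ℝ) * r ^ (p - 1)) * (m r * m1 r)
        + r ^ p * (m1 r * m1 r + m r * m2 r))
    have hQd : ∀ r, HasDerivAt Q (Q' r) r := by
      intro r
      have h1 : HasDerivAt (fun r => m1 r ^ 2) (2 * m1 r * m2 r) r := by
        simpa using (h.h1 r).fun_pow 2
      have h2 : HasDerivAt (fun r => m r ^ 2) (2 * m r * m1 r) r := by
        simpa using (h.h0 r).fun_pow 2
      have h3 : HasDerivAt (fun r : ℝ => r ^ (p + 1)) (n * r ^ p) r := by
        have := hasDerivAt_pow (p + 1) r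
        simpa [hn] using this
      have h4 := hasDerivAt_pow p r
      have h5 := (h3.mul (h2.add h1)).add ((h4.mul ((h.h0 r).mul (h.h1 r))).const_mul n)
      exact h5
    have hpow : ∀ r : ℝ, r * ((p : ℝ) * r ^ (p - 1)) = (p : ℝ) * r ^ p := by
      intro r
      rcases Nat.eq_zero_or_pos p with hp | hp
      · simp [hp]
      · have : r ^ p = r ^ (p - 1) * r := by rw [← pow_succ]; congr 1; omega
        rw [this]; ring
    have hQ'eq : ∀ r, r * Q' r = -(n * r ^ p * (m r * m1 r)) := by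
      intro r
      have ho := h.ode r
      have hp := hpow r
      have hnn : n = (p : ℝ) + 1 := hn
      simp only [Q']
      have e1 : r * (n * (((p : ℝ) * r ^ (p - 1)) * (m r * m1 r)
          + r ^ p * (m1 r * m1 r + m r * m2 r)))
          = n * (((p : ℝ) * r ^ p) * (m r * m1 r)
          + r ^ p * r * (m1 r * m1 r + m r * m2 r)) := by
        linear_combination n * (m r * m1 r) * hp
      have e2 : r * (n * r ^ p * (m r ^ 2 + m1 r ^ 2)
          + r ^ (p + 1) * (2 * m r * m1 r + 2 * m1 r * m2 r)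
          + n * (((p : ℝ) * r ^ (p - 1)) * (m r * m1 r)
          + r ^ p * (m1 r * m1 r + m r * m2 r)))
          = r * (n * r ^ p * (m r ^ 2 + m1 r ^ 2))
          + r * (r ^ (p + 1) * (2 * m r * m1 r + 2 * m1 r * m2 r))
          + r * (n * (((p : ℝ) * r ^ (p - 1)) * (m r * m1 r)
          + r ^ p * (m1 r * m1 r + m r * m2 r))) := by ring
      rw [e2, e1]
      rw [hnn]
      linear_combination (2 * r ^ (p + 1) * m1 r + ((p : ℝ) + 1) * r ^ p * m r) * ho
    have hQlow : ∀ r, n ≤ r → r ^ (p + 1) * (m r ^ 2 + m1 r ^ 2) / 2 ≤ Q r := by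
      intro r hr
      have hr0 : 0 < r := by linarith
      have hrp : 0 < r ^ p := by positivity
      simp only [Q]
      have h1 : -(m r ^ 2 + m1 r ^ 2) / 2 ≤ m r * m1 r := by nlinarith [sq_nonneg (m r + m1 r)]
      have h2 : n * (r ^ p * (-(m r ^ 2 + m1 r ^ 2) / 2)) ≤ n * (r ^ p * (m r * m1 r)) := by
        gcongr
      have h3 : r ^ (p + 1) * (m r ^ 2 + m1 r ^ 2) / 2
          ≤ r ^ (p + 1) * (m r ^ 2 + m1 r ^ 2) + n * (r ^ p * (-(m r ^ 2 + m1 r ^ 2) / 2)) := by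
        have h4 : n * (r ^ p * (m r ^ 2 + m1 r ^ 2)) ≤ r * (r ^ p * (m r ^ 2 + m1 r ^ 2)) := by
          gcongr
        have h5 : r ^ (p + 1) = r * r ^ p := by ring
        rw [h5]
        nlinarith
      linarith
    let H : ℝ → ℝ := fun r => Q r * Real.exp (n / r)
    have hHd : ∀ r, 0 < r → HasDerivAt H
        (Q' r * Real.exp (n / r) + Q r * (Real.exp (n / r) * (-n / r ^ 2))) r := by
      intro r hr
      have h1 : HasDerivAt (fun r : ℝ => n / r) (-n / r ^ 2) r := by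
        have h0 := (hasDerivAt_inv hr.ne').const_mul n
        simp only [div_eq_mul_inv]
        exact h0.congr_deriv (by ring)
      exact (hQd r).mul h1.exp
    have hHanti : AntitoneOn H (Ici n) := by
      refine antitoneOn_of_deriv_nonpos (convex_Ici n) ?_ ?_ ?_
      · intro x hx
        exact (hHd x (lt_of_lt_of_le hn0 hx)).continuousAt.continuousWithinAt
      · intro x hx
        rw [interior_Ici] at hx
        exact (hHd x (lt_trans hn0 hx)).differentiableAt.differentiableWithinAt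
      · intro x hx
        rw [interior_Ici] at hx
        have hx0 : 0 < x := lt_trans hn0 hx
        rw [(hHd x hx0).deriv]
        have hxp : 0 < x ^ p := by positivity
        have hE : 0 < Real.exp (n / x) := Real.exp_pos _
        have h1 : x ^ 2 * Q' x ≤ n * Q x := by
          have e1 : x ^ 2 * Q' x = x * (x * Q' x) := by ring
          rw [e1, hQ'eq x]
          have h2 := hQlow x hx.le
          have h3 : -(m x ^ 2 + m1 x ^ 2) / 2 ≤ m x * m1 x := by
            nlinarith [sq_nonneg (m x + m1 x)]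
          have h4 : n * (x ^ (p + 1) * (-(m x ^ 2 + m1 x ^ 2) / 2))
              ≤ n * (x ^ (p + 1) * (m x * m1 x)) := by gcongr
          have h5 : n * (x ^ (p + 1) * (m x ^ 2 + m1 x ^ 2) / 2) ≤ n * Q x := by gcongr
          have h6 : x * -(n * x ^ p * (m x * m1 x)) = -(n * (x ^ (p + 1) * (m x * m1 x))) := by
            ring
          rw [h6]
          linarith
        have h2 : Q' x + Q x * (-n / x ^ 2) ≤ 0 := by
          have hx2 : 0 < x ^ 2 := by positivity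
          have e1 : Q' x + Q x * (-n / x ^ 2) = (x ^ 2 * Q' x - n * Q x) / x ^ 2 := by
            field_simp
            ring
          rw [e1]
          exact div_nonpos_of_nonpos_of_nonneg (by linarith) hx2.le
        have e2 : Q' x * Real.exp (n / x) + Q x * (Real.exp (n / x) * (-n / x ^ 2))
            = Real.exp (n / x) * (Q' x + Q x * (-n / x ^ 2)) := by ring
        rw [e2]
        exact mul_nonpos_of_nonneg_of_nonpos hE.le h2
    have hH := hHanti (self_mem_Ici) hrn.le hrn.le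
    have hQn : Q n ≤ 2 * n ^ (p + 1) := by
      simp only [Q]
      have h1 := hen n hn0
      have h2 : m n * m1 n ≤ 1 := by nlinarith [sq_nonneg (m n - m1 n)]
      have hnp : 0 < n ^ p := by positivity
      calc n ^ (p + 1) * (m n ^ 2 + m1 n ^ 2) + n * (n ^ p * (m n * m1 n))
          ≤ n ^ (p + 1) * 1 + n * (n ^ p * 1) := by gcongr
        _ = 2 * n ^ (p + 1) := by ring
    have hQr : Q r ≤ H r := by
      have h1 : 1 ≤ Real.exp (n / r) := Real.one_le_exp (by positivity)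
      have h2 : 0 ≤ Q r := le_trans (by positivity) (hQlow r hrn.le)
      simp only [H]
      nlinarith
    have hHn : H n ≤ 2 * n ^ (p + 1) * Real.exp 1 := by
      simp only [H]
      rw [div_self hn0.ne']
      gcongr
    have h3 := hQlow r hrn.le
    have h4 : H r ≤ H n := hH
    linarith

private theorem MuBProf.bd1 {p : ℕ} {m m1 m2 m3 : ℝ → ℝ} (h : MuBProf p m m1 m2 m3)
    (r : ℝ) (hr : 0 < r) :
    (1 + r) ^ (p + 1) * (m r ^ 2 + m1 r ^ 2)
      ≤ 2 ^ (p + 1) * (1 + 4 * Real.exp 1 * ((p : ℝ) + 1) ^ (p + 1)) := by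
  have h1 := h.decay r hr
  have h2 := h.energy r hr.le
  have h3 : (1 + r) ^ (p + 1) ≤ 2 ^ (p + 1) * (1 + r ^ (p + 1)) := by
    rcases le_or_gt r 1 with hr1 | hr1
    · have : (1 + r) ^ (p + 1) ≤ 2 ^ (p + 1) := pow_le_pow_left₀ (by linarith) (by linarith) _
      have h5 : (0 : ℝ) < 2 ^ (p + 1) := by positivity
      have h6 : (0 : ℝ) ≤ r ^ (p + 1) := by positivity
      nlinarith
    · have : (1 + r) ^ (p + 1) ≤ (2 * r) ^ (p + 1) :=
        pow_le_pow_left₀ (by linarith) (by linarith) _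
      rw [mul_pow] at this
      have h5 : (0 : ℝ) < 2 ^ (p + 1) := by positivity
      nlinarith
  have h4 : 0 ≤ m r ^ 2 + m1 r ^ 2 := by positivity
  calc (1 + r) ^ (p + 1) * (m r ^ 2 + m1 r ^ 2)
      ≤ 2 ^ (p + 1) * (1 + r ^ (p + 1)) * (m r ^ 2 + m1 r ^ 2) := by gcongr
    _ = 2 ^ (p + 1) * ((m r ^ 2 + m1 r ^ 2) + r ^ (p + 1) * (m r ^ 2 + m1 r ^ 2)) := by ring
    _ ≤ _ := by gcongr; linarith

/-- All the derivatives up to order three. -/
private theorem MuB_core (p : ℕ) : ∃ C : ℝ, 0 ≤ C ∧ ∀ m m1 m2 m3 : ℝ → ℝ,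
    MuBProf p m m1 m2 m3 → ∀ r, 0 < r →
      m r ^ 2 ≤ C / (1 + r) ^ (p + 1) ∧ m1 r ^ 2 ≤ C / (1 + r) ^ (p + 1) ∧
      m2 r ^ 2 ≤ C / (1 + r) ^ (p + 1) ∧ m3 r ^ 2 ≤ C / (1 + r) ^ (p + 1) := by
  set B : ℝ := 2 ^ (p + 1) * (1 + 4 * Real.exp 1 * ((p : ℝ) + 1) ^ (p + 1)) with hB
  have hB1 : 2 ^ (p + 1) ≤ B := by
    rw [hB]
    have h1 : (0 : ℝ) < 2 ^ (p + 1) := by positivity
    have h2 : (0 : ℝ) ≤ 4 * Real.exp 1 * ((p : ℝ) + 1) ^ (p + 1) := by positivity
    nlinarith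
  have hB0 : 0 ≤ B := le_trans (by positivity) hB1
  have hK : ∀ x : ℝ, 0 ≤ x → x ≤ 6 * ((p : ℝ) + 2) ^ 4 → x * B ≤ 6 * ((p : ℝ) + 2) ^ 4 * B :=
    fun x _ hx => by gcongr
  have hp2 : (2 : ℝ) ≤ (p : ℝ) + 2 := by linarith [Nat.cast_nonneg (α := ℝ) p]
  have hq1 : (1 : ℝ) ≤ ((p : ℝ) + 2) ^ 4 := one_le_pow₀ (by linarith)
  have hq2 : ((p : ℝ) + 2) ^ 2 ≤ ((p : ℝ) + 2) ^ 4 :=
    pow_le_pow_right₀ (by linarith) (by norm_num)
  refine ⟨9 * ((p : ℝ) + 2) ^ 4 * B, by positivity, ?_⟩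
  intro m m1 m2 m3 h r hr
  have hb := h.bd1 r hr
  have hr1 : (0 : ℝ) < (1 + r) ^ (p + 1) := by positivity
  set s : ℝ := m r ^ 2 + m1 r ^ 2 with hs
  have hs0 : 0 ≤ s := by positivity
  have ho := h.ode r
  have ho3 := h.ode3 r
  set q : ℝ := (p : ℝ) + 2 with hq
  have hq0 : 0 < q := by linarith
  have key : ∀ x : ℝ, x ≤ 9 * q ^ 4 * s ∨ (r < 1 ∧ x ≤ 9 * q ^ 4) →
      x ≤ 9 * q ^ 4 * B / (1 + r) ^ (p + 1) := by
    intro x hx
    rw [le_div_iff₀ hr1]
    rcases hx with hx | ⟨hr2, hx⟩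
    · calc x * (1 + r) ^ (p + 1) ≤ 9 * q ^ 4 * s * (1 + r) ^ (p + 1) := by gcongr
        _ = 9 * q ^ 4 * ((1 + r) ^ (p + 1) * s) := by ring
        _ ≤ 9 * q ^ 4 * B := by gcongr
    · have h2 : (1 + r) ^ (p + 1) ≤ 2 ^ (p + 1) :=
        pow_le_pow_left₀ (by linarith) (by linarith) _
      calc x * (1 + r) ^ (p + 1) ≤ 9 * q ^ 4 * (1 + r) ^ (p + 1) := by gcongr
        _ ≤ 9 * q ^ 4 * B := by
          gcongr
          linarith
  have c2 : m2 r ^ 2 ≤ 2 * q ^ 2 * s ∨ (r < 1 ∧ m2 r ^ 2 ≤ q ^ 2) := by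
    rcases lt_or_ge r 1 with hr2 | hr2
    · right
      refine ⟨hr2, ?_⟩
      have := h.abs2 r hr
      rw [← sq_abs (m2 r)]
      gcongr
    · left
      have e1 : m2 r ^ 2 ≤ (r * m2 r) ^ 2 := by
        rw [mul_pow]
        have : (1 : ℝ) ≤ r ^ 2 := one_le_pow₀ hr2
        nlinarith [sq_nonneg (m2 r)]
      have e2 : m2 r ^ 2 * r ^ 2 ≤ 2 * (q ^ 2 * m1 r ^ 2 + r ^ 2 * m r ^ 2) := by
        have e3 : r * m2 r = -((q - 1) * m1 r) - r * m r := by rw [hq]; linarith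
        have e4 : m2 r ^ 2 * r ^ 2 = ((q - 1) * m1 r + r * m r) ^ 2 := by
          have : m2 r ^ 2 * r ^ 2 = (r * m2 r) ^ 2 := by ring
          rw [this, e3]; ring
        rw [e4]
        have e5 : (q - 1) ^ 2 ≤ q ^ 2 := by nlinarith
        nlinarith [sq_nonneg ((q - 1) * m1 r - r * m r), mul_le_mul_of_nonneg_right e5
          (sq_nonneg (m1 r))]
      have e6 : (1 : ℝ) ≤ r ^ 2 := one_le_pow₀ hr2
      have e7 : m2 r ^ 2 * r ^ 2 ≤ (2 * q ^ 2 * s) * r ^ 2 := by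
        have e8 : q ^ 2 * m1 r ^ 2 ≤ q ^ 2 * m1 r ^ 2 * r ^ 2 := by
          have : 0 ≤ q ^ 2 * m1 r ^ 2 := by positivity
          nlinarith
        have e9 : r ^ 2 * m r ^ 2 ≤ q ^ 2 * (r ^ 2 * m r ^ 2) := by
          have : 0 ≤ r ^ 2 * m r ^ 2 := by positivity
          have : (1 : ℝ) ≤ q ^ 2 := one_le_pow₀ (by linarith)
          nlinarith
        rw [hs]
        nlinarith
      exact le_of_mul_le_mul_right e7 (by positivity)
  have c3 : m3 r ^ 2 ≤ 9 * q ^ 4 * s ∨ (r < 1 ∧ m3 r ^ 2 ≤ q ^ 2) := by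
    rcases lt_or_ge r 1 with hr2 | hr2
    · right
      refine ⟨hr2, ?_⟩
      have h3 := h.abs3 r hr
      have h4 : |m3 r| ≤ q := by
        refine le_trans h3 ?_
        nlinarith
      rw [← sq_abs (m3 r)]
      gcongr
    · left
      have c2' : m2 r ^ 2 ≤ 2 * q ^ 2 * s := by
        rcases c2 with c2 | c2
        · exact c2
        · exact absurd c2.1 (not_lt.2 hr2)
      have e2 : m3 r ^ 2 * r ^ 2 ≤ 3 * (q ^ 2 * m2 r ^ 2 + m r ^ 2 + r ^ 2 * m1 r ^ 2) := by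
        have e4 : m3 r ^ 2 * r ^ 2 = (q * m2 r + m r + r * m1 r) ^ 2 := by
          have : m3 r ^ 2 * r ^ 2 = (r * m3 r) ^ 2 := by ring
          rw [this, ho3]; ring
        rw [e4]
        nlinarith [sq_nonneg (q * m2 r - m r), sq_nonneg (q * m2 r - r * m1 r),
          sq_nonneg (m r - r * m1 r)]
      have e6 : (1 : ℝ) ≤ r ^ 2 := one_le_pow₀ hr2
      have e10 : q ^ 2 * m2 r ^ 2 ≤ 2 * q ^ 4 * s := by
        calc q ^ 2 * m2 r ^ 2 ≤ q ^ 2 * (2 * q ^ 2 * s) := by gcongr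
          _ = 2 * q ^ 4 * s := by ring
      have e11 : s ≤ q ^ 4 * s := by nlinarith
      have e7 : m3 r ^ 2 * r ^ 2 ≤ (9 * q ^ 4 * s) * r ^ 2 := by
        have e12 : m r ^ 2 + r ^ 2 * m1 r ^ 2 ≤ r ^ 2 * s := by
          rw [hs]
          nlinarith [sq_nonneg (m r)]
        have e13 : 2 * q ^ 4 * s ≤ 2 * q ^ 4 * s * r ^ 2 := by
          have : 0 ≤ 2 * q ^ 4 * s := by positivity
          nlinarith
        have e14 : r ^ 2 * s ≤ r ^ 2 * (q ^ 4 * s) := by gcongr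
        nlinarith
      exact le_of_mul_le_mul_right e7 (by positivity)
  have hq4 : q ^ 2 ≤ 9 * q ^ 4 := by nlinarith
  have hq4s : 2 * q ^ 2 * s ≤ 9 * q ^ 4 * s := by
    have : 2 * q ^ 2 ≤ 9 * q ^ 4 := by nlinarith
    gcongr
  have hs9 : s ≤ 9 * q ^ 4 * s := by nlinarith
  refine ⟨key _ (Or.inl ?_), key _ (Or.inl ?_), key _ ?_, key _ ?_⟩
  · refine le_trans ?_ hs9
    rw [hs]; nlinarith [sq_nonneg (m1 r)]
  · refine le_trans ?_ hs9
    rw [hs]; nlinarith [sq_nonneg (m r)]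
  · rcases c2 with c2 | c2
    · exact Or.inl (c2.trans hq4s)
    · exact Or.inr ⟨c2.1, c2.2.trans hq4⟩
  · rcases c3 with c3 | c3
    · exact Or.inl c3
    · exact Or.inr ⟨c3.1, c3.2.trans hq4⟩

/-- Decay of the derivatives of the Fourier transform of the sphere in the radial direction. -/
theorem mus_decay (hd : 2 ≤ d) : ∃ C : ℝ, ∀ (ξ : E d), ∀ t ∈ Icc (1 / 4 : ℝ) 3, ∀ k ≤ 3,
    (iteratedDeriv k (fun s : ℝ => mus (s • ξ)) t) ^ 2 ≤
      C * ‖ξ‖ ^ (2 * k) / (1 + ‖ξ‖) ^ (d - 1) := by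
  have hd0 : 0 < d := by omega
  obtain ⟨p, rfl⟩ : ∃ p, d = p + 2 := ⟨d - 2, by omega⟩
  have hpr : IsProbabilityMeasure (sigma (p + 2)) := sigma_prob hd0
  obtain ⟨C, hC0, hC⟩ := MuB_core p
  have hmus : ∀ x : E (p + 2), |mus x| ≤ 1 := by
    intro x
    unfold mus
    have h1 : ∀ᵐ w : Sph (p + 2) ∂(sigma (p + 2)),
        ‖Real.cos (inner ℝ x (w : E (p + 2)))‖ ≤ 1 :=
      Filter.Eventually.of_forall (fun w => by
        rw [Real.norm_eq_abs]; exact Real.abs_cos_le_one _)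
    have h2 := norm_integral_le_of_norm_le_const h1
    rw [Real.norm_eq_abs] at h2
    simpa using h2
  refine ⟨4 ^ (p + 1) * C + 1, ?_⟩
  intro ξ t ht k hk
  have hsub : p + 2 - 1 = p + 1 := by omega
  rw [hsub]
  rcases eq_or_ne ξ 0 with hξ | hξ
  · subst hξ
    have hc : (fun s : ℝ => mus (s • (0 : E (p + 2)))) = fun _ => mus (0 : E (p + 2)) := by
      funext s; rw [smul_zero]
    rw [hc]
    rcases Nat.eq_zero_or_pos k with hk0 | hk0
    · subst hk0
      simp only [iteratedDeriv_zero, norm_zero, mul_zero, pow_zero, mul_one, add_zero, one_pow,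
        div_one]
      have h1 := abs_le.1 (hmus 0)
      have h2 : (0 : ℝ) ≤ 4 ^ (p + 1) * C := by positivity
      nlinarith [h1.1, h1.2]
    · have : iteratedDeriv k (fun _ : ℝ => mus (0 : E (p + 2))) t = 0 := by
        rw [iteratedDeriv_const, if_neg (by omega)]
      rw [this, zero_pow (by norm_num)]
      positivity
  · have hn : 0 < ‖ξ‖ := norm_pos_iff.2 hξ
    set e : E (p + 2) := ‖ξ‖⁻¹ • ξ with he
    have hne : ‖e‖ = 1 := by
      rw [he, norm_smul, norm_inv, norm_norm, inv_mul_cancel₀ hn.ne']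
    set m : ℝ → ℝ := fun s => mus (s • e) with hm
    have hmc : ContDiff ℝ ∞ m := mus_contDiff hd0 e
    have hfe : (fun s : ℝ => mus (s • ξ)) = fun s => m (‖ξ‖ * s) := by
      funext s
      rw [hm]
      simp only
      rw [he, smul_smul]
      congr 2
      field_simp
    have hmk : ContDiff ℝ (k : ℕ∞) m := hmc.of_le (by exact_mod_cast le_top)
    have hit := congrFun (iteratedDeriv_comp_const_mul (n := k) (f := m) (by exact_mod_cast hmk)
      ‖ξ‖) t
    rw [hfe, hit]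
    have hD : ∀ j : ℕ, ∀ r, HasDerivAt (iteratedDeriv j m) (iteratedDeriv (j + 1) m r) r := by
      intro j r
      rw [iteratedDeriv_succ]
      have : Differentiable ℝ (iteratedDeriv j m) :=
        hmc.differentiable_iteratedDeriv j (by exact_mod_cast WithTop.coe_lt_top _)
      exact (this r).hasDerivAt
    have hprof : MuBProf p m (iteratedDeriv 1 m) (iteratedDeriv 2 m) (iteratedDeriv 3 m) := by
      refine ⟨fun r => ?_, hD 1, hD 2, fun r => hmus _, fun r => ?_⟩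
      · have := hD 0 r
        rwa [iteratedDeriv_zero] at this
      · have := mus_ode hd0 e hne r
        rw [iteratedDeriv_one]
        push_cast at this
        rw [← this]
        ring
    have hr : 0 < ‖ξ‖ * t := mul_pos hn (by linarith [ht.1])
    obtain ⟨b0, b1, b2, b3⟩ := hC m _ _ _ hprof (‖ξ‖ * t) hr
    have hbk : (iteratedDeriv k m (‖ξ‖ * t)) ^ 2 ≤ C / (1 + ‖ξ‖ * t) ^ (p + 1) := by
      interval_cases k
      · rw [iteratedDeriv_zero]; exact b0
      · exact b1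
      · exact b2
      · exact b3
    have h4 : (1 + ‖ξ‖) ^ (p + 1) ≤ 4 ^ (p + 1) * (1 + ‖ξ‖ * t) ^ (p + 1) := by
      rw [← mul_pow]
      refine pow_le_pow_left₀ (by positivity) ?_ _
      nlinarith [ht.1]
    have h5 : C / (1 + ‖ξ‖ * t) ^ (p + 1) ≤ 4 ^ (p + 1) * C / (1 + ‖ξ‖) ^ (p + 1) := by
      rw [div_le_div_iff₀ (by positivity) (by positivity)]
      calc C * (1 + ‖ξ‖) ^ (p + 1) ≤ C * (4 ^ (p + 1) * (1 + ‖ξ‖ * t) ^ (p + 1)) := by gcongr
        _ = 4 ^ (p + 1) * C * (1 + ‖ξ‖ * t) ^ (p + 1) := by ring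
    rw [mul_pow, ← pow_mul, mul_comm k 2]
    calc ‖ξ‖ ^ (2 * k) * (iteratedDeriv k m (‖ξ‖ * t)) ^ 2
        ≤ ‖ξ‖ ^ (2 * k) * (4 ^ (p + 1) * C / (1 + ‖ξ‖) ^ (p + 1)) := by
          gcongr
          exact hbk.trans h5
      _ = (4 ^ (p + 1) * C) * ‖ξ‖ ^ (2 * k) / (1 + ‖ξ‖) ^ (p + 1) := by ring
      _ ≤ _ := by
          gcongr
          linarith

end Pool.Agent.Lib.MP_ff3fe0_an_SPH
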