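import Pool.Agent.Lib.MP_ff3fe0_an_SPH.FouA
import Pool.Agent.Lib.MP_ff3fe0_an_SPH.MuB
import Pool.Agent.Lib.MP_ff3fe0_an_SPH.CvA

set_option autoImplicit false

/-!
# The L2 bound for the square functions
-/

namespace Pool.Agent.Lib.MP_ff3fe0_an_SPH

open MeasureTheory Metric Set
open scoped ENNReal NNReal ContDiff FourierTransform
open Pool.Agent.Lib.MP_ff3fe0_an

variable {d : ℕ}

private lemma lTwo_sc_pos (m : ℕ) : 0 < sc m := by
  unfold sc
  positivity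

/-- A bounded function with bounded support is in all Lebesgue spaces. -/
private lemma lTwo_memLp {r : ℝ} {q : E d → ℝ} (hq : Bdd r q) (p : ℝ≥0∞) :
    MemLp q p := by
  obtain ⟨C, hC⟩ := hq.bdd
  have h1 : (closedBall (0 : E d) r).indicator q = q := by
    funext y
    by_cases hy : y ∈ closedBall (0 : E d) r
    · rw [indicator_of_mem hy]
    · rw [indicator_of_notMem hy]
      rw [mem_closedBall_zero_iff, not_le] at hy
      exact (hq.supp y hy).symm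
  rw [← h1, memLp_indicator_iff_restrict measurableSet_closedBall]
  have : IsFiniteMeasure ((volume : Measure (E d)).restrict (closedBall (0 : E d) r)) :=
    ⟨by rw [Measure.restrict_apply_univ]; exact measure_closedBall_lt_top⟩
  exact MemLp.of_bound hq.meas.aestronglyMeasurable C
    (Filter.Eventually.of_forall fun y => by rw [Real.norm_eq_abs]; exact hC y)

/-- The bound of the multiplier. -/
private lemma lTwo_mult (hd : 2 ≤ d) {C D : ℝ} (hC : 0 ≤ C) (m : ℕ) {k : ℕ} (hk : k ≤ 1) {x : ℝ}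
    (hx : 0 ≤ x) :
    2 ^ m / 4 ^ (m * k) * ((C * (2 * Real.pi * x) ^ (2 * k) / (1 + 2 * Real.pi * x) ^ (d - 1)) *
      (D * (sc m * x) ^ d / (1 + sc m * x) ^ (2 * d + 4)) ^ 2) ≤
      C * D ^ 2 * (2 * Real.pi) ^ 2 * (1 / 2) ^ ((d - 2) * m) := by
  have hpi : (1 : ℝ) ≤ 2 * Real.pi := by
    have := Real.pi_gt_three
    linarith
  have hs : 0 < sc m := lTwo_sc_pos m
  set y : ℝ := 2 * Real.pi * x with hy
  set l : ℝ := sc m * x with hl
  have hy0 : 0 ≤ y := by positivity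
  have hl0 : 0 ≤ l := by positivity
  have hxy : x ≤ 1 + y := by
    rw [hy]
    nlinarith
  have h1 : l ^ (d - 1) ≤ sc m ^ (d - 1) * (1 + y) ^ (d - 1) := by
    rw [hl, mul_pow]
    exact mul_le_mul_of_nonneg_left (pow_le_pow_left₀ hx hxy _) (by positivity)
  have h2 : l ^ (2 * k + d + 1) ≤ (1 + l) ^ (4 * d + 8) :=
    (pow_le_pow_left₀ hl0 (by linarith) _).trans
      (pow_le_pow_right₀ (by linarith) (by omega))
  have h3 : (2 : ℝ) ^ m / 4 ^ (m * k) * y ^ (2 * k) = 2 ^ m * (2 * Real.pi) ^ (2 * k)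
      * l ^ (2 * k) := by
    have h4 : ((4 : ℝ) ^ (m * k))⁻¹ = sc m ^ (2 * k) := by
      unfold sc
      rw [← pow_mul, one_div, inv_pow, show (4 : ℝ) = 2 ^ 2 by norm_num, ← pow_mul]
      congr 2
      ring
    rw [hy, hl, div_eq_mul_inv, h4, mul_pow, mul_pow]
    ring
  have h5 : (2 : ℝ) ^ m * sc m ^ (d - 1) = (1 / 2) ^ ((d - 2) * m) := by
    unfold sc
    have h6 : d - 1 = (d - 2) + 1 := by omega
    rw [h6, ← pow_mul, mul_add, mul_one, pow_add, mul_comm m (d - 2), mul_comm, mul_assoc,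
      ← mul_pow]
    norm_num
  have h7 : l ^ (2 * k) * (l ^ d) ^ 2 = l ^ (d - 1) * l ^ (2 * k + d + 1) := by
    rw [← pow_mul, ← pow_add, ← pow_add]
    congr 1
    omega
  have h8 : l ^ (d - 1) / (1 + y) ^ (d - 1) ≤ sc m ^ (d - 1) := by
    rw [div_le_iff₀ (by positivity)]
    exact h1
  have h9 : l ^ (2 * k + d + 1) / (1 + l) ^ (4 * d + 8) ≤ 1 := by
    rw [div_le_one (by positivity)]
    exact h2
  have h10 : (2 * Real.pi) ^ (2 * k) ≤ (2 * Real.pi) ^ 2 := pow_le_pow_right₀ hpi (by omega)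
  have h11 : 2 ^ m / 4 ^ (m * k) * ((C * y ^ (2 * k) / (1 + y) ^ (d - 1)) *
      (D * l ^ d / (1 + l) ^ (2 * d + 4)) ^ 2) =
      C * D ^ 2 * (2 * Real.pi) ^ (2 * k) * (2 ^ m * (l ^ (d - 1) / (1 + y) ^ (d - 1))) *
        (l ^ (2 * k + d + 1) / (1 + l) ^ (4 * d + 8)) := by
    have h12 : ((1 + l) ^ (2 * d + 4)) ^ 2 = (1 + l) ^ (4 * d + 8) := by
      rw [← pow_mul]
      congr 1
      ring
    rw [div_pow, h12, mul_pow D (l ^ d) 2]
    calc 2 ^ m / 4 ^ (m * k) * ((C * y ^ (2 * k) / (1 + y) ^ (d - 1)) *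
        (D ^ 2 * (l ^ d) ^ 2 / (1 + l) ^ (4 * d + 8)))
        = C * D ^ 2 * (2 ^ m / 4 ^ (m * k) * y ^ (2 * k)) * (l ^ d) ^ 2 /
          (1 + y) ^ (d - 1) / (1 + l) ^ (4 * d + 8) := by ring
      _ = C * D ^ 2 * (2 * Real.pi) ^ (2 * k) * 2 ^ m * (l ^ (2 * k) * (l ^ d) ^ 2) /
          (1 + y) ^ (d - 1) / (1 + l) ^ (4 * d + 8) := by rw [h3]; ring
      _ = _ := by rw [h7]; ring
  rw [h11]
  have h13 : (2 : ℝ) ^ m * (l ^ (d - 1) / (1 + y) ^ (d - 1)) ≤ (1 / 2) ^ ((d - 2) * m) := by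
    rw [← h5]
    exact mul_le_mul_of_nonneg_left h8 (by positivity)
  calc C * D ^ 2 * (2 * Real.pi) ^ (2 * k) * (2 ^ m * (l ^ (d - 1) / (1 + y) ^ (d - 1))) *
        (l ^ (2 * k + d + 1) / (1 + l) ^ (4 * d + 8))
      ≤ C * D ^ 2 * (2 * Real.pi) ^ (2 * k) * (2 ^ m * (l ^ (d - 1) / (1 + y) ^ (d - 1))) * 1 :=
        mul_le_mul_of_nonneg_left h9 (by positivity)
    _ ≤ C * D ^ 2 * (2 * Real.pi) ^ 2 * (1 / 2) ^ ((d - 2) * m) := by
        rw [mul_one]
        apply mul_le_mul _ h13 (by positivity) (by positivity)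
        exact mul_le_mul_of_nonneg_left h10 (by positivity)

private lemma lTwo_enorm_sq (x : ℝ) : ‖x‖ₑ ^ 2 = ENNReal.ofReal (x ^ 2) := by
  rw [← ofReal_norm, ← ENNReal.ofReal_pow (norm_nonneg _), Real.norm_eq_abs, sq_abs]

private lemma lTwo_cenorm_sq (z : ℂ) : ‖z‖ₑ ^ 2 = ENNReal.ofReal (‖z‖ ^ 2) := by
  rw [← ofReal_norm, ← ENNReal.ofReal_pow (norm_nonneg _)]

/-- The L2 bound for the spherical means of the frequency pieces. -/
theorem Lk_bound (hd : 2 ≤ d) {K : E d → ℝ} (hK : IsKer K) (hF : FB K) : ∃ C : ℝ≥0,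
    ∀ (m : ℕ) (r : ℝ) (q : E d → ℝ), Bdd r q →
      ∫⁻ x, Lk K m q x ≤ C * ENNReal.ofReal ((1 / 2) ^ ((d - 2) * m)) * ∫⁻ y, ‖q y‖ₑ ^ 2 := by
  obtain ⟨D, hD⟩ := hF
  obtain ⟨C0, hC0⟩ := mus_decay (d := d) hd
  set C : ℝ := max C0 0 with hCdef
  have hC : 0 ≤ C := le_max_right _ _
  have hC1 : C0 ≤ C := le_max_left _ _
  set M : ℝ := C * D ^ 2 * (2 * Real.pi) ^ 2 with hM
  have hM0 : 0 ≤ M := by positivity
  refine ⟨4 * M.toNNReal, ?_⟩
  intro m r q hq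
  have hd0 : 0 < d := by omega
  have hsc : 0 < sc m := lTwo_sc_pos m
  set g : E d → ℝ := cv K (sc m) q with hg
  have hgs : ContDiff ℝ ∞ g := cv_contDiff hK hsc hq.locallyIntegrable
  have hgc : HasCompactSupport g := by
    refine HasCompactSupport.intro (isCompact_closedBall (0 : E d) (r + sc m)) fun x hx => ?_
    rw [mem_closedBall_zero_iff, not_le] at hx
    exact cv_supp hK hsc hq.supp x hx
  have hqi : Integrable q := memLp_one_iff_integrable.mp (lTwo_memLp hq 1)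
  have hpl : ∫⁻ ξ : E d, ‖𝓕 (fun y => (q y : ℂ)) ξ‖ₑ ^ 2 = ∫⁻ y, ‖q y‖ₑ ^ 2 := by
    rw [plancherel (fun y => (q y : ℂ)) hqi.ofReal ((lTwo_memLp hq 2).ofReal)]
    refine lintegral_congr fun y => ?_
    rw [← ofReal_norm, ← ofReal_norm, Complex.norm_real]
  -- measurability
  have hmeas : ∀ k : ℕ, Measurable (fun p : E d × ℝ =>
      ‖iteratedDeriv k (fun s => sm g s p.1) p.2‖ₑ ^ 2) := by
    intro k
    have h1 : Continuous (fun p : E d × ℝ => iteratedDeriv k (fun s => sm g s p.1) p.2) :=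
      (sm_cont hd0 hgs k).comp (continuous_snd.prodMk continuous_fst)
    exact (h1.measurable.enorm).pow_const 2
  -- the multiplier bound
  have hkey : ∀ k ∈ Finset.range 2, ∀ t ∈ Icc (1 / 2 : ℝ) (5 / 2),
      ENNReal.ofReal (2 ^ m / 4 ^ (m * k)) *
        ∫⁻ x, ‖iteratedDeriv k (fun s => sm g s x) t‖ₑ ^ 2 ≤
      ENNReal.ofReal M * ENNReal.ofReal ((1 / 2) ^ ((d - 2) * m)) * ∫⁻ y, ‖q y‖ₑ ^ 2 := by
    intro k hk t ht
    have hk1 : k ≤ 1 := by
      have := Finset.mem_range.mp hk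
      omega
    rw [sm_fourier hd0 hgs hgc k t, ← hpl]
    rw [← lintegral_const_mul' _ _ ENNReal.ofReal_ne_top,
      ← lintegral_const_mul' _ _ (ENNReal.mul_ne_top ENNReal.ofReal_ne_top ENNReal.ofReal_ne_top)]
    refine lintegral_mono fun ξ => ?_
    rw [hg, fourier_cv_scale hK hsc hqi ξ, enorm_mul, mul_pow, ← mul_assoc, ← mul_assoc]
    refine mul_le_mul_left ?_ _
    rw [lTwo_enorm_sq, lTwo_cenorm_sq, mul_assoc, ← ENNReal.ofReal_mul (sq_nonneg _),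
      ← ENNReal.ofReal_mul (by positivity), ← ENNReal.ofReal_mul hM0]
    apply ENNReal.ofReal_le_ofReal
    have h1 := hC0 ((2 * Real.pi) • ξ) t ⟨by linarith [ht.1], by linarith [ht.2]⟩ k (by omega)
    have h2 : ‖(2 * Real.pi) • ξ‖ = 2 * Real.pi * ‖ξ‖ := by
      rw [norm_smul, Real.norm_eq_abs, abs_of_nonneg (by positivity)]
    rw [h2] at h1
    have h3 : iteratedDeriv k (fun s : ℝ => mus (s • ((2 * Real.pi) • ξ))) t ^ 2 ≤
        C * (2 * Real.pi * ‖ξ‖) ^ (2 * k) / (1 + 2 * Real.pi * ‖ξ‖) ^ (d - 1) := by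
      refine h1.trans ?_
      apply div_le_div_of_nonneg_right _ (by positivity)
      exact mul_le_mul_of_nonneg_right hC1 (by positivity)
    have h4 : ‖𝓕 (fun y => (K y : ℂ)) (sc m • ξ)‖ ^ 2 ≤
        (D * (sc m * ‖ξ‖) ^ d / (1 + sc m * ‖ξ‖) ^ (2 * d + 4)) ^ 2 := by
      have h5 := hD (sc m • ξ)
      rw [norm_smul, Real.norm_eq_abs, abs_of_pos hsc] at h5
      exact pow_le_pow_left₀ (norm_nonneg _) h5 2
    refine le_trans ?_ (lTwo_mult hd hC m hk1 (norm_nonneg ξ) (D := D))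
    apply mul_le_mul_of_nonneg_left _ (by positivity)
    exact mul_le_mul h3 h4 (sq_nonneg _) ((sq_nonneg _).trans h3)
  have hterm : ∀ k ∈ Finset.range 2, ∫⁻ x, ENNReal.ofReal (2 ^ m / 4 ^ (m * k)) *
      ∫⁻ t in Icc (1 / 2 : ℝ) (5 / 2), ‖iteratedDeriv k (fun s => sm g s x) t‖ₑ ^ 2 ≤
      2 * (ENNReal.ofReal M * ENNReal.ofReal ((1 / 2) ^ ((d - 2) * m)) *
        ∫⁻ y, ‖q y‖ₑ ^ 2) := by
    intro k hk
    rw [lintegral_const_mul' _ _ ENNReal.ofReal_ne_top,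
      lintegral_lintegral_swap (hmeas k).aemeasurable,
      ← lintegral_const_mul' _ _ ENNReal.ofReal_ne_top]
    refine (setLIntegral_mono' measurableSet_Icc (hkey k hk)).trans ?_
    rw [setLIntegral_const, Real.volume_Icc, mul_comm]
    refine mul_le_mul_left (le_of_eq ?_) _
    norm_num
  have hmx : ∀ k ∈ Finset.range 2, Measurable (fun x : E d =>
      ENNReal.ofReal (2 ^ m / 4 ^ (m * k)) *
      ∫⁻ t in Icc (1 / 2 : ℝ) (5 / 2), ‖iteratedDeriv k (fun s => sm g s x) t‖ₑ ^ 2) := by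
    intro k _
    exact ((hmeas k).lintegral_prod_right').const_mul _
  unfold Lk
  rw [lintegral_finsetSum _ hmx]
  refine (Finset.sum_le_sum hterm).trans ?_
  rw [Finset.sum_const, Finset.card_range, ← ENNReal.ofNNReal_toNNReal]
  rw [nsmul_eq_mul, ENNReal.ofReal]
  push_cast
  apply le_of_eq
  ring

end Pool.Agent.Lib.MP_ff3fe0_an_SPH
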