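import Pool.Agent.Lib.MP_ff3fe0_an_SPH.LocB

set_option autoImplicit false

/-!
# The local estimate at the unit scale
-/

namespace Pool.Agent.Lib.MP_ff3fe0_an_SPH

open MeasureTheory Metric Set
open scoped ENNReal NNReal ContDiff FourierTransform
open Pool.Agent.Lib.MP_ff3fe0_an

variable {d : ℕ}

private lemma LocA_eps {ε : ℝ} (hε : 0 < ε) :
    ∑' m : ℕ, ENNReal.ofReal ((2 : ℝ) ^ (-(ε * m))) ≠ ⊤ := by
  have h : ∀ m : ℕ, ENNReal.ofReal ((2 : ℝ) ^ (-(ε * m))) =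
      (ENNReal.ofReal ((2 : ℝ) ^ (-ε))) ^ m := by
    intro m
    rw [← ENNReal.ofReal_pow (by positivity), ← Real.rpow_natCast, ← Real.rpow_mul (by norm_num)]
    congr 2
    ring
  simp only [h]
  rw [ENNReal.tsum_geometric]
  refine ENNReal.inv_ne_top.2 (tsub_pos_iff_lt.2 ?_).ne'
  rw [ENNReal.ofReal_lt_one]
  exact Real.rpow_lt_one_of_one_lt_of_neg (by norm_num) (by linarith)

/-- Hoelder's inequality for weighted series. -/
private lemma LocA_holder {q : ℝ} (hq : 1 ≤ q) (w a : ℕ → ℝ≥0∞) :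
    (∑' m, w m * a m) ^ q ≤ (∑' m, w m) ^ (q - 1) * ∑' m, w m * a m ^ q := by
  have hq0 : 0 < q := by linarith
  have hinv : 0 ≤ 1 - q⁻¹ := by
    have := inv_le_one_of_one_le₀ hq
    linarith
  have h1 : ∑' m, w m * a m ≤ (∑' m, w m) ^ (1 - q⁻¹) * (∑' m, w m * a m ^ q) ^ q⁻¹ := by
    rw [ENNReal.tsum_eq_iSup_sum]
    refine iSup_le fun s => ?_
    refine (ENNReal.inner_le_weight_mul_Lp_of_nonneg s hq w a).trans ?_
    gcongr
    · exact ENNReal.sum_le_tsum s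
    · exact ENNReal.sum_le_tsum s
  calc (∑' m, w m * a m) ^ q ≤
      ((∑' m, w m) ^ (1 - q⁻¹) * (∑' m, w m * a m ^ q) ^ q⁻¹) ^ q :=
        ENNReal.rpow_le_rpow h1 hq0.le
    _ = _ := by
        rw [ENNReal.mul_rpow_of_nonneg _ _ hq0.le, ← ENNReal.rpow_mul, ← ENNReal.rpow_mul,
          inv_mul_cancel₀ hq0.ne', ENNReal.rpow_one]
        congr 2
        field_simp

theorem local_est (hd : 3 ≤ d) (K : Ker d) {p : ℝ} (hp : (2 * (d : ℝ) - 1) / (2 * d - 2) < p)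
    (hp2 : p < 3 / 2) : ∃ (r : ℝ) (C : ℝ≥0) (ε : ℝ), 0 < r ∧ 0 < ε ∧ ∀ g : E d → ℝ,
      ContDiff ℝ ∞ g → HasCompactSupport g → ∃ T : E d → ℝ≥0∞, Measurable T ∧
        (∀ x : E d, ‖x‖ ≤ √d → ∀ t ∈ Icc (1 : ℝ) 2, (∀ s, 0 < s → sm g s x ≤ sm g t x) →
          ‖gradient (sm g t) x‖ₑ ≤ C * hlm (gradient g) x + T x) ∧
        ∫⁻ x in closedBall (0 : E d) (√d), T x ^ 2 ≤
          C * ∑' m : ℕ, ENNReal.ofReal ((2 : ℝ) ^ (-(ε * m))) *
            (∫⁻ y in closedBall (0 : E d) r,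
              ‖cvv K.ka (sc m) (gradient g) y‖ₑ ^ p) ^ (2 / p) := by
  obtain ⟨hp1, he⟩ := expo hd hp
  have hp0 : 0 < p := by linarith
  set η : ℝ := ((d : ℝ) - 1 - (d - 1 / 2) / p) / 2 with hη
  have h0 : 0 < η := by rw [hη]; linarith
  have h1 : η < (d : ℝ) - 1 - (d - 1 / 2) / p := by rw [hη]; linarith
  obtain ⟨C0, hC0⟩ := local_core hd K hp hp2 h0 h1 (r := √d + 4) le_rfl
  have hq1 : 1 ≤ 2 / p := by
    rw [le_div_iff₀ hp0]
    linarith
  set W : ℝ≥0∞ := ∑' m : ℕ, ENNReal.ofReal ((2 : ℝ) ^ (-(η * m))) with hW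
  have hWt : W ≠ ⊤ := LocA_eps h0
  have hCt : (C0 : ℝ≥0∞) * W ^ (2 / p - 1) ≠ ⊤ :=
    ENNReal.mul_ne_top ENNReal.coe_ne_top (ENNReal.rpow_ne_top_of_nonneg (by linarith) hWt)
  refine ⟨√d + 4, C0 + (C0 * W ^ (2 / p - 1)).toNNReal + 1, η, by positivity, h0,
    fun g hg hgc => ?_⟩
  set w : ℕ → ℝ≥0∞ := fun m => ENNReal.ofReal ((2 : ℝ) ^ (-(η * m))) with hw
  set a : ℕ → ℝ≥0∞ := fun m => ∫⁻ y in closedBall (0 : E d) (√d + 4),
    ‖cvv K.ka (sc m) (gradient g) y‖ₑ ^ p with ha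
  set S : ℝ≥0∞ := ∑' m, w m * a m with hS
  have hH : S ^ (2 / p) ≤ W ^ (2 / p - 1) * ∑' m, w m * a m ^ (2 / p) := LocA_holder hq1 w a
  rcases eq_or_ne S ⊤ with hSt | hSt
  · refine ⟨fun _ => ⊤, measurable_const, fun x _ t _ _ => by simp, ?_⟩
    have h2 : ∑' m, w m * a m ^ (2 / p) = ⊤ := by
      by_contra hne
      rw [hSt, ENNReal.top_rpow_of_pos (by linarith)] at hH
      exact (ENNReal.mul_ne_top (ENNReal.rpow_ne_top_of_nonneg (by linarith) hWt) hne)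
        (top_le_iff.mp hH)
    have h3 : ((C0 + (C0 * W ^ (2 / p - 1)).toNNReal + 1 : ℝ≥0) : ℝ≥0∞) *
        ∑' m, w m * a m ^ (2 / p) = ⊤ := by
      rw [h2, ENNReal.mul_top]
      rw [ENNReal.coe_ne_zero]
      positivity
    rw [h3]
    exact le_top
  · set σ : ℝ := (S ^ (1 / p)).toReal with hσ
    have hSp : S ^ (1 / p) ≠ ⊤ := ENNReal.rpow_ne_top_of_nonneg (by positivity) hSt
    have hσ0 : 0 ≤ σ := ENNReal.toReal_nonneg
    have hσS : ENNReal.ofReal σ = S ^ (1 / p) := ENNReal.ofReal_toReal hSp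
    have hA0 : ∀ n : ℕ, 0 < σ + 1 / ((n : ℝ) + 1) := fun n => by positivity
    have hA : ∀ n : ℕ, ∑' m : ℕ, w m * a m ≤ ENNReal.ofReal ((σ + 1 / ((n : ℝ) + 1)) ^ p) := by
      intro n
      have h2 : S = ENNReal.ofReal (σ ^ p) := by
        rw [← ENNReal.ofReal_rpow_of_nonneg hσ0 hp0.le, hσS, ← ENNReal.rpow_mul,
          one_div_mul_cancel hp0.ne', ENNReal.rpow_one]
      change S ≤ _
      rw [h2]
      apply ENNReal.ofReal_le_ofReal
      apply Real.rpow_le_rpow hσ0 _ hp0.le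
      have : (0 : ℝ) ≤ 1 / ((n : ℝ) + 1) := by positivity
      linarith
    choose T hT1 hT2 hT3 using fun n : ℕ => hC0 (σ + 1 / ((n : ℝ) + 1)) g (hA0 n) hg hgc (hA n)
    refine ⟨fun x => ⨅ n, T n x, Measurable.iInf hT1, ?_, ?_⟩
    · intro x hx t ht hmax
      rw [ENNReal.add_iInf]
      refine le_iInf fun n => (hT2 n x hx t ht hmax).trans ?_
      gcongr
      rw [add_assoc]
      exact le_self_add
    · have h2 : ∀ n : ℕ, ∫⁻ x in closedBall (0 : E d) (√d), (⨅ n, T n x) ^ 2 ≤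
          C0 * ENNReal.ofReal ((σ + 1 / ((n : ℝ) + 1)) ^ 2) := by
        intro n
        refine le_trans (lintegral_mono fun x => ?_) (hT3 n)
        gcongr
        exact iInf_le _ n
      have h3 : Filter.Tendsto (fun n : ℕ => (C0 : ℝ≥0∞) *
          ENNReal.ofReal ((σ + 1 / ((n : ℝ) + 1)) ^ 2)) Filter.atTop
          (nhds ((C0 : ℝ≥0∞) * ENNReal.ofReal ((σ + 0) ^ 2))) := by
        refine ENNReal.Tendsto.const_mul ?_ (Or.inr ENNReal.coe_ne_top)
        refine (ENNReal.continuous_ofReal.tendsto _).comp ?_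
        exact (tendsto_const_nhds.add tendsto_one_div_add_atTop_nhds_zero_nat).pow 2
      have h4 := ge_of_tendsto' h3 h2
      refine h4.trans ?_
      have h5 : ENNReal.ofReal ((σ + 0) ^ 2) = S ^ (2 / p) := by
        rw [add_zero, ENNReal.ofReal_pow hσ0, hσS, ← ENNReal.rpow_natCast, ← ENNReal.rpow_mul]
        congr 1
        push_cast
        ring
      rw [h5]
      calc (C0 : ℝ≥0∞) * S ^ (2 / p)
          ≤ C0 * (W ^ (2 / p - 1) * ∑' m, w m * a m ^ (2 / p)) := by gcongr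
        _ = (C0 * W ^ (2 / p - 1)) * ∑' m, w m * a m ^ (2 / p) := by rw [mul_assoc]
        _ ≤ _ := by
          gcongr
          rw [ENNReal.coe_add, ENNReal.coe_add, ENNReal.coe_toNNReal hCt, add_assoc, add_comm,
            add_assoc]
          exact le_self_add

end Pool.Agent.Lib.MP_ff3fe0_an_SPH
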