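import Pool.Agent.Lib.MP_ff3fe0_an_SPH.Defs

set_option autoImplicit false

/-!
# The consequences of maximality
-/

namespace Pool.Agent.Lib.MP_ff3fe0_an_SPH

open MeasureTheory Metric Set
open scoped ENNReal NNReal ContDiff FourierTransform
open Pool.Agent.Lib.MP_ff3fe0_an

variable {d : ℕ}

private theorem maxiA_sc (k : ℕ) : 0 < sc k ∧ sc k ≤ 1 ∧ 2 ^ k * sc k = 1 := by
  unfold sc
  refine ⟨by positivity, pow_le_one₀ (by norm_num) (by norm_num), ?_⟩
  rw [← mul_pow]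
  norm_num

/-- The increment of a function in terms of the derivative. -/
private theorem maxiA_inc {F : Type*} [NormedAddCommGroup F] [NormedSpace ℝ F] [CompleteSpace F]
    {f : ℝ → F} (hf : ContDiff ℝ 1 f) (t h v : ℝ) (hv : |v| ≤ h) :
    ‖f (t + v) - f t‖ ≤ ∫ s in Icc (-h) h, ‖deriv f (t + s)‖ := by
  have hc : Continuous (fun s => deriv f (t + s)) :=
    (hf.continuous_deriv le_rfl).comp (continuous_const.add continuous_id)
  have h1 : ∫ s in (0 : ℝ)..v, deriv f (t + s) = f (t + v) - f (t + 0) := by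
    refine intervalIntegral.integral_eq_sub_of_hasDerivAt (f := fun s => f (t + s))
      (fun s _ => ?_) (hc.intervalIntegrable _ _)
    have h2 : HasDerivAt f (deriv f (t + s)) (t + s) :=
      ((hf.differentiable (by norm_num)) (t + s)).hasDerivAt
    exact h2.comp_const_add t s
  rw [add_zero] at h1
  rw [← h1]
  refine intervalIntegral.norm_integral_le_integral_norm_uIoc.trans ?_
  refine setIntegral_mono_set (hc.norm.continuousOn.integrableOn_compact isCompact_Icc)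
    (Filter.Eventually.of_forall fun s => norm_nonneg _) (Filter.Eventually.of_forall ?_)
  intro s hs
  have h3 := uIoc_subset_uIcc hs
  rw [mem_uIcc] at h3
  rw [abs_le] at hv
  rcases h3 with h3 | h3
  · exact ⟨by linarith, by linarith⟩
  · exact ⟨by linarith, by linarith⟩

/-- Taylor with remainder. -/
private theorem maxiA_taylor {u : ℝ → ℝ} (hu : ContDiff ℝ 2 u) (t h σ : ℝ) (hσ : |σ| ≤ h) :
    |u (t + σ) - u t - σ * deriv u t| ≤
      |σ| * ∫ s in Icc (-h) h, |iteratedDeriv 2 u (t + s)| := by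
  have hu1 : ContDiff ℝ 1 (deriv u) := by
    have h2 : ContDiff ℝ (1 + 1) u := by
      rw [one_add_one_eq_two]
      exact hu
    exact (contDiff_succ_iff_deriv.1 h2).2.2
  have hinc : ∀ v, |v| ≤ h → ‖deriv u (t + v) - deriv u t‖ ≤
      ∫ s in Icc (-h) h, |iteratedDeriv 2 u (t + s)| := by
    intro v hv
    have h1 := maxiA_inc hu1 t h v hv
    have h2 : iteratedDeriv 2 u = deriv (deriv u) := by
      rw [iteratedDeriv_succ, iteratedDeriv_one]
    rw [h2]
    exact h1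
  have hd : ∀ v, HasDerivAt (fun v => u (t + v) - v * deriv u t)
      (deriv u (t + v) - deriv u t) v := by
    intro v
    have h2 : HasDerivAt u (deriv u (t + v)) (t + v) :=
      ((hu.differentiable (by norm_num)) (t + v)).hasDerivAt
    have h3 := (h2.comp_const_add t v).fun_sub ((hasDerivAt_id' v).mul_const (deriv u t))
    simpa using h3
  have hconv : Convex ℝ (Icc (-h) h) := convex_Icc _ _
  have h0 : (0 : ℝ) ∈ Icc (-h) h := by
    have := (abs_nonneg σ).trans hσ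
    exact ⟨by linarith, this⟩
  have hs : σ ∈ Icc (-h) h := abs_le.1 hσ
  have h4 := hconv.norm_image_sub_le_of_norm_hasDerivWithin_le
    (f := fun v => u (t + v) - v * deriv u t) (C := ∫ s in Icc (-h) h,
      |iteratedDeriv 2 u (t + s)|) (fun v _ => (hd v).hasDerivWithinAt)
    (fun v hv => hinc v (abs_le.2 hv)) h0 hs
  simp only [add_zero, zero_mul, sub_zero, Real.norm_eq_abs] at h4
  rw [mul_comm |σ|]
  refine le_of_eq_of_le ?_ h4
  congr 1
  ring

/-- One half of the symmetric interval. -/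
private theorem maxiA_half {f : ℝ → ℝ} (hf : Continuous f) (h0 : ∀ s, 0 ≤ f s) {h : ℝ}
    (hh : 0 < h) (ε : ℝ) (hε : ε = 1 ∨ ε = -1) :
    ∫ s in (h / 2)..h, f (ε * s) ≤ ∫ s in Icc (-h) h, f s := by
  have key : ∀ a b : ℝ, a ≤ b → -h ≤ a → b ≤ h → ∫ s in a..b, f s ≤ ∫ s in Icc (-h) h, f s := by
    intro a b hab ha hb
    rw [intervalIntegral.integral_of_le hab]
    refine setIntegral_mono_set (hf.continuousOn.integrableOn_compact isCompact_Icc)
      (Filter.Eventually.of_forall h0) (Filter.Eventually.of_forall ?_)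
    intro s hs
    exact ⟨ha.trans hs.1.le, hs.2.trans hb⟩
  rcases hε with hε | hε
  · simp only [hε, one_mul]
    exact key _ _ (by linarith) (by linarith) le_rfl
  · simp only [hε, neg_mul, one_mul]
    rw [intervalIntegral.integral_comp_neg f]
    exact key _ _ (by linarith) le_rfl (by linarith)

/-- At a maximum point `t` of `∑ u m + e` the derivative of the first `k + 1` terms is controlled
by their curvature and by the size of the other terms. -/
theorem maxi (M k : ℕ) (hk : k ≤ M) (u : ℕ → ℝ → ℝ) (e : ℝ → ℝ) (t : ℝ)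
    (ht : t ∈ Icc (1 : ℝ) 2) (hu : ∀ m, ContDiff ℝ 2 (u m))
    (hmax : ∀ s ∈ Icc (1 / 2 : ℝ) (5 / 2),
      ∑ m ∈ Finset.range (M + 1), u m s + e s ≤ ∑ m ∈ Finset.range (M + 1), u m t + e t)
    (R : ℝ) (hR : ∀ s ∈ Icc (1 / 2 : ℝ) (5 / 2), |e s| ≤ R) :
    |∑ m ∈ Finset.range (k + 1), deriv (u m) t| ≤
      (∑ m ∈ Finset.range (k + 1),
        ∫ s in Icc (-(sc k / 2)) (sc k / 2), |iteratedDeriv 2 (u m) (t + s)|) + 16 * 2 ^ k *
        (∑ m ∈ Finset.Ioc k M,
          (|u m t| + 2 ^ k * ∫ s in Icc (-(sc k / 2)) (sc k / 2), |u m (t + s)|) + R) := by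
  obtain ⟨hs0, hs1, hs2⟩ := maxiA_sc k
  obtain ⟨h, hh⟩ : ∃ h, h = sc k / 2 := ⟨_, rfl⟩
  have hh0 : 0 < h := by
    rw [hh]
    positivity
  have hh1 : h ≤ 1 / 2 := by
    rw [hh]
    linarith
  have hkh : 2 ^ k * h = 1 / 2 := by
    rw [hh]
    linarith
  rw [← hh]
  have hk2 : (0 : ℝ) < 2 ^ k := by positivity
  obtain ⟨D, hD⟩ : ∃ D, D = ∑ m ∈ Finset.range (k + 1), deriv (u m) t := ⟨_, rfl⟩
  obtain ⟨A, hA⟩ : ∃ A, A = ∑ m ∈ Finset.range (k + 1),
    ∫ s in Icc (-h) h, |iteratedDeriv 2 (u m) (t + s)| := ⟨_, rfl⟩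
  obtain ⟨S, hS⟩ : ∃ S, S = ∑ m ∈ Finset.Ioc k M, |u m t| := ⟨_, rfl⟩
  obtain ⟨T, hT⟩ : ∃ T : ℕ → ℝ, ∀ m, T m = ∫ s in Icc (-h) h, |u m (t + s)| :=
    ⟨_, fun _ => rfl⟩
  obtain ⟨ε, hε, hεD⟩ : ∃ ε : ℝ, (ε = 1 ∨ ε = -1) ∧ ε * D = |D| := by
    rcases le_total 0 D with h1 | h1
    · exact ⟨1, Or.inl rfl, by rw [abs_of_nonneg h1, one_mul]⟩
    · exact ⟨-1, Or.inr rfl, by rw [abs_of_nonpos h1]; ring⟩
  have hεa : |ε| = 1 := by
    rcases hε with h1 | h1 <;> simp [h1]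
  have hR0 : 0 ≤ R := (abs_nonneg _).trans (hR 1 ⟨by norm_num, by norm_num⟩)
  -- the splitting of the sum
  have hsplit : ∀ s, ∑ m ∈ Finset.range (M + 1), u m s =
      ∑ m ∈ Finset.range (k + 1), u m s + ∑ m ∈ Finset.Ioc k M, u m s := by
    intro s
    have h1 : Finset.range (M + 1) = Finset.range (k + 1) ∪ Finset.Ioc k M := by
      ext m
      simp only [Finset.mem_range, Finset.mem_union, Finset.mem_Ioc]
      omega
    rw [h1, Finset.sum_union]
    rw [Finset.disjoint_left]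
    intro m h2 h3
    simp only [Finset.mem_range, Finset.mem_Ioc] at h2 h3
    omega
  -- the pointwise inequality
  have hpt : ∀ s, h / 2 ≤ s → s ≤ h →
      s * |D| ≤ s * A + (S + ∑ m ∈ Finset.Ioc k M, |u m (t + ε * s)| + 2 * R) := by
    intro s hsa hsb
    have hs0' : 0 < s := lt_of_lt_of_le (by positivity) hsa
    have hσ : |ε * s| = s := by rw [abs_mul, hεa, one_mul, abs_of_pos hs0']
    have hσh : |ε * s| ≤ h := by rw [hσ]; exact hsb
    have hmem : t + ε * s ∈ Icc (1 / 2 : ℝ) (5 / 2) := by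
      have h1 := abs_le.1 hσh
      exact ⟨by linarith [ht.1, h1.1], by linarith [ht.2, h1.2]⟩
    have hmem' : t ∈ Icc (1 / 2 : ℝ) (5 / 2) := ⟨by linarith [ht.1], by linarith [ht.2]⟩
    have h1 := hmax _ hmem
    rw [hsplit, hsplit] at h1
    have h2 : ∑ m ∈ Finset.range (k + 1), (u m t + ε * s * deriv (u m) t) -
        ∑ m ∈ Finset.range (k + 1), u m (t + ε * s) ≤ s * A := by
      rw [← Finset.sum_sub_distrib, hA, Finset.mul_sum]
      refine Finset.sum_le_sum fun m _ => ?_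
      have h3 := maxiA_taylor (hu m) t h (ε * s) hσh
      rw [hσ] at h3
      have h4 := neg_abs_le (u m (t + ε * s) - u m t - ε * s * deriv (u m) t)
      linarith
    rw [Finset.sum_add_distrib, ← Finset.mul_sum, ← hD] at h2
    have h5 : ε * s * D = s * |D| := by
      rw [← hεD]
      ring
    have h6 : ∑ m ∈ Finset.Ioc k M, u m t ≤ S := by
      rw [hS]
      exact Finset.sum_le_sum fun m _ => le_abs_self _
    have h7 : -∑ m ∈ Finset.Ioc k M, u m (t + ε * s) ≤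
        ∑ m ∈ Finset.Ioc k M, |u m (t + ε * s)| := by
      rw [← Finset.sum_neg_distrib]
      exact Finset.sum_le_sum fun m _ => neg_le_abs _
    have h8 := abs_le.1 (hR _ hmem)
    have h9 := abs_le.1 (hR _ hmem')
    linarith [h8.1, h9.2]
  -- division by `s`
  have hSR : 0 ≤ S + 2 * R := by
    have : 0 ≤ S := by
      rw [hS]
      exact Finset.sum_nonneg fun m _ => abs_nonneg _
    linarith
  have hpt2 : ∀ s ∈ Icc (h / 2) h, |D| ≤ A + 4 * 2 ^ k * (S + 2 * R) +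
      4 * 2 ^ k * ∑ m ∈ Finset.Ioc k M, |u m (t + ε * s)| := by
    intro s hs
    have h1 := hpt s hs.1 hs.2
    have hs0' : 0 < s := lt_of_lt_of_le (by positivity) hs.1
    have h2 : 0 ≤ ∑ m ∈ Finset.Ioc k M, |u m (t + ε * s)| :=
      Finset.sum_nonneg fun m _ => abs_nonneg _
    have h3 : 1 ≤ s * (4 * 2 ^ k) := by nlinarith [hs.1]
    have h4 : s * |D| ≤ s * (A + 4 * 2 ^ k * (S + 2 * R) +
        4 * 2 ^ k * ∑ m ∈ Finset.Ioc k M, |u m (t + ε * s)|) := by
      have h5 : S + 2 * R ≤ s * (4 * 2 ^ k) * (S + 2 * R) := le_mul_of_one_le_left hSR h3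
      have h6 : ∑ m ∈ Finset.Ioc k M, |u m (t + ε * s)| ≤
          s * (4 * 2 ^ k) * ∑ m ∈ Finset.Ioc k M, |u m (t + ε * s)| :=
        le_mul_of_one_le_left h2 h3
      nlinarith
    exact le_of_mul_le_mul_left h4 hs0'
  -- integration
  have hcu : ∀ m, Continuous (fun s => |u m (t + s)|) := fun m =>
    ((hu m).continuous.comp (continuous_const.add continuous_id)).abs
  have hcu2 : ∀ m, Continuous (fun s => |u m (t + ε * s)|) := fun m =>
    ((hu m).continuous.comp (continuous_const.add (continuous_const.mul continuous_id))).abs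
  have hint : ∫ s in (h / 2)..h, |D| ≤ ∫ s in (h / 2)..h, (A + 4 * 2 ^ k * (S + 2 * R) +
      4 * 2 ^ k * ∑ m ∈ Finset.Ioc k M, |u m (t + ε * s)|) := by
    refine intervalIntegral.integral_mono_on (by linarith) (by simp) ?_ hpt2
    refine Continuous.intervalIntegrable ?_ _ _
    exact continuous_const.add (continuous_const.mul
      (continuous_finsetSum _ fun m _ => hcu2 m))
  have hint2 : ∀ m, ∫ s in (h / 2)..h, |u m (t + ε * s)| ≤ T m := by
    intro m
    rw [hT]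
    exact maxiA_half (f := fun s => |u m (t + s)|) (hcu m) (fun s => abs_nonneg _) hh0 ε hε
  have hadd : ∫ s in (h / 2)..h, (A + 4 * 2 ^ k * (S + 2 * R) +
      4 * 2 ^ k * ∑ m ∈ Finset.Ioc k M, |u m (t + ε * s)|) =
      (∫ s in (h / 2)..h, (A + 4 * 2 ^ k * (S + 2 * R))) +
        ∫ s in (h / 2)..h, 4 * 2 ^ k * ∑ m ∈ Finset.Ioc k M, |u m (t + ε * s)| := by
    refine intervalIntegral.integral_add (by simp) (Continuous.intervalIntegrable ?_ _ _)
    exact continuous_const.mul (continuous_finsetSum _ fun m _ => hcu2 m)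
  rw [hadd, intervalIntegral.integral_const, intervalIntegral.integral_const,
    intervalIntegral.integral_const_mul, intervalIntegral.integral_finsetSum
      (fun m _ => (hcu2 m).intervalIntegrable _ _), smul_eq_mul, smul_eq_mul] at hint
  have hsum : ∑ m ∈ Finset.Ioc k M, ∫ s in (h / 2)..h, |u m (t + ε * s)| ≤
      ∑ m ∈ Finset.Ioc k M, T m := Finset.sum_le_sum fun m _ => hint2 m
  have hTn : 0 ≤ ∑ m ∈ Finset.Ioc k M, T m := Finset.sum_nonneg fun m _ => by
    rw [hT]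
    exact setIntegral_nonneg measurableSet_Icc fun s _ => abs_nonneg _
  simp only [← hT, ← hD, ← hA]
  rw [Finset.sum_add_distrib, ← Finset.mul_sum, ← hS]
  have hS0 : 0 ≤ S := by
    rw [hS]
    exact Finset.sum_nonneg fun m _ => abs_nonneg _
  have h1 : h / 2 * |D| ≤ h / 2 * (A + 4 * 2 ^ k * (S + 2 * R)) +
      4 * 2 ^ k * ∑ m ∈ Finset.Ioc k M, T m := by
    have h2 : 4 * 2 ^ k * ∑ m ∈ Finset.Ioc k M, ∫ s in (h / 2)..h, |u m (t + ε * s)| ≤
        4 * 2 ^ k * ∑ m ∈ Finset.Ioc k M, T m := mul_le_mul_of_nonneg_left hsum (by positivity)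
    have h3 : h - h / 2 = h / 2 := by ring
    rw [h3] at hint
    linarith
  have h2 : |D| = 4 * 2 ^ k * (h / 2 * |D|) := by
    have : 4 * 2 ^ k * (h / 2 * |D|) = 2 * (2 ^ k * h) * |D| := by ring
    rw [this, hkh]
    ring
  have h3 : 4 * 2 ^ k * (h / 2 * |D|) ≤ 4 * 2 ^ k * (h / 2 * (A + 4 * 2 ^ k * (S + 2 * R)) +
      4 * 2 ^ k * ∑ m ∈ Finset.Ioc k M, T m) := mul_le_mul_of_nonneg_left h1 (by positivity)
  have h4 : 4 * 2 ^ k * (h / 2 * (A + 4 * 2 ^ k * (S + 2 * R)) +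
      4 * 2 ^ k * ∑ m ∈ Finset.Ioc k M, T m) = 2 * (2 ^ k * h) * (A + 4 * 2 ^ k * (S + 2 * R)) +
        16 * 2 ^ k * (2 ^ k * ∑ m ∈ Finset.Ioc k M, T m) := by ring
  rw [h4, hkh] at h3
  rw [h2]
  refine h3.trans ?_
  have h5 : 0 ≤ 2 ^ k * S := mul_nonneg hk2.le hS0
  have h6 : 0 ≤ 2 ^ k * R := mul_nonneg hk2.le hR0
  nlinarith

/-- The value at a point in terms of averages. -/
theorem pt_le {F : ℝ → E d} (hF : ContDiff ℝ 1 F) (m : ℕ) (t : ℝ) :
    ‖F t‖ₑ ≤ Avr m (fun s => ‖F s‖ₑ) t + ENNReal.ofReal (sc m) *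
      Avr m (fun s => ‖deriv F s‖ₑ) t := by
  obtain ⟨hs0, hs1, hs2⟩ := maxiA_sc m
  obtain ⟨h, hh⟩ : ∃ h, h = sc m / 2 := ⟨_, rfl⟩
  have hh0 : 0 < h := by
    rw [hh]
    positivity
  have hc : Continuous (fun s => deriv F (t + s)) :=
    (hF.continuous_deriv le_rfl).comp (continuous_const.add continuous_id)
  have hpt : ∀ r ∈ Icc (-h) h, ‖F t‖ₑ ≤ ‖F (t + r)‖ₑ +
      ∫⁻ s in Icc (-h) h, ‖deriv F (t + s)‖ₑ := by
    intro r hr
    have h1 := maxiA_inc hF t h r (abs_le.2 hr)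
    have h2 : ‖F (t + r) - F t‖ₑ ≤ ∫⁻ s in Icc (-h) h, ‖deriv F (t + s)‖ₑ := by
      rw [← ofReal_norm]
      refine (ENNReal.ofReal_le_ofReal h1).trans ?_
      rw [ofReal_integral_norm_eq_lintegral_enorm
        (hc.continuousOn.integrableOn_compact isCompact_Icc)]
    have h3 : ‖F t‖ₑ ≤ ‖F (t + r)‖ₑ + ‖F (t + r) - F t‖ₑ := by
      have h4 : F t = F (t + r) - (F (t + r) - F t) := by abel
      calc ‖F t‖ₑ = ‖F (t + r) - (F (t + r) - F t)‖ₑ := by rw [← h4]
        _ ≤ _ := enorm_sub_le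
    exact h3.trans (add_le_add le_rfl h2)
  have hvol : (2 : ℝ≥0∞) ^ m * volume (Icc (-h) h) = 1 := by
    rw [Real.volume_Icc]
    have h1 : (2 : ℝ≥0∞) ^ m = ENNReal.ofReal (2 ^ m) := by
      rw [ENNReal.ofReal_pow (by norm_num)]
      norm_num
    rw [h1, ← ENNReal.ofReal_mul (by positivity)]
    have h2 : (2 : ℝ) ^ m * (h - -h) = 1 := by
      rw [hh]
      linarith
    rw [h2, ENNReal.ofReal_one]
  have hint : ∫⁻ r in Icc (-h) h, ‖F t‖ₑ ≤ ∫⁻ r in Icc (-h) h, (‖F (t + r)‖ₑ +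
      ∫⁻ s in Icc (-h) h, ‖deriv F (t + s)‖ₑ) := by
    refine setLIntegral_mono' measurableSet_Icc hpt
  rw [setLIntegral_const, lintegral_add_right _ measurable_const, setLIntegral_const] at hint
  unfold Avr
  rw [← hh]
  calc ‖F t‖ₑ = 2 ^ m * (‖F t‖ₑ * volume (Icc (-h) h)) := by
        rw [mul_left_comm, hvol, mul_one]
    _ ≤ 2 ^ m * ((∫⁻ r in Icc (-h) h, ‖F (t + r)‖ₑ) +
        (∫⁻ s in Icc (-h) h, ‖deriv F (t + s)‖ₑ) * volume (Icc (-h) h)) :=
      mul_le_mul' le_rfl hint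
    _ = 2 ^ m * (∫⁻ r in Icc (-h) h, ‖F (t + r)‖ₑ) +
        ∫⁻ s in Icc (-h) h, ‖deriv F (t + s)‖ₑ := by
      rw [mul_add, mul_left_comm _ _ (volume (Icc (-h) h)), hvol, mul_one]
    _ = _ := by
      congr 1
      rw [← mul_assoc]
      have h1 : ENNReal.ofReal (sc m) * 2 ^ m = 1 := by
        have h1 : (2 : ℝ≥0∞) ^ m = ENNReal.ofReal (2 ^ m) := by
          rw [ENNReal.ofReal_pow (by norm_num)]
          norm_num
        rw [h1, ← ENNReal.ofReal_mul hs0.le, mul_comm, hs2, ENNReal.ofReal_one]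
      rw [h1, one_mul]

end Pool.Agent.Lib.MP_ff3fe0_an_SPH
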