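import Pool.Agent.Lib.MP_ff3fe0_an_SPH.CvA

set_option autoImplicit false

/-!
# The remainder
-/

namespace Pool.Agent.Lib.MP_ff3fe0_an_SPH

open MeasureTheory Metric Set
open scoped ENNReal NNReal ContDiff FourierTransform
open Pool.Agent.Lib.MP_ff3fe0_an

variable {d : ℕ}

private theorem RemA_grad_le {f : E d → ℝ} (y : E d) :
    ‖gradient f y‖ ≤ ∑ i, |pd i f y| := by
  have h1 : ∀ i, (gradient f y) i = pd i f y := by
    intro i
    have h2 : inner ℝ (gradient f y) (EuclideanSpace.single i (1 : ℝ)) =
        fderiv ℝ f y (EuclideanSpace.single i 1) := by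
      rw [gradient, InnerProductSpace.toDual_symm_apply]
    rw [pd, ← h2, EuclideanSpace.inner_single_right]
    simp
  rw [EuclideanSpace.norm_eq]
  refine (Real.sqrt_le_sqrt (y := (∑ i, |pd i f y|) ^ 2) ?_).trans (le_of_eq
    (Real.sqrt_sq (Finset.sum_nonneg fun i _ => abs_nonneg _)))
  have h3 : ∀ i, ‖(gradient f y) i‖ ^ 2 = |pd i f y| ^ 2 := by
    intro i
    rw [h1, Real.norm_eq_abs]
  simp only [h3]
  exact Finset.sum_sq_le_sq_sum_of_nonneg fun i _ => abs_nonneg _

private theorem RemA_taylor {g : E d → ℝ} (hg : Differentiable ℝ g) {M : ℝ≥0}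
    (hM : LipschitzWith M (fderiv ℝ g)) (y h : E d) :
    |g (y + h) - g y - fderiv ℝ g y h| ≤ M * ‖h‖ * ‖h‖ := by
  have h1 := (convex_closedBall y ‖h‖).norm_image_sub_le_of_norm_fderiv_le'
    (f := g) (φ := fderiv ℝ g y) (C := M * ‖h‖) (x := y) (y := y + h)
    (fun x _ => hg x) (fun x hx => ?_) (mem_closedBall_self (norm_nonneg _)) ?_
  · rw [add_sub_cancel_left, Real.norm_eq_abs] at h1
    exact h1
  · have h2 := hM.dist_le_mul x y
    rw [dist_eq_norm] at h2
    exact h2.trans (mul_le_mul_of_nonneg_left (mem_closedBall.1 hx) M.coe_nonneg)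
  · rw [mem_closedBall, dist_eq_norm, add_sub_cancel_left]

theorem rem_bound (hd : 0 < d) (K : Ker d) {g : E d → ℝ} (hg : ContDiff ℝ ∞ g)
    (hc : HasCompactSupport g) : ∃ C : ℝ, ∀ b ∈ Ioc (0 : ℝ) 1, ∀ y,
      |g y - cv K.Psi b g y| ≤ C * b ^ 2 ∧
        ‖gradient (fun z => g z - cv K.Psi b g z) y‖ ≤ C * b := by
  have hgd : Differentiable ℝ g := hg.differentiable (by simp)
  have hg1 : ContDiff ℝ 1 g := hg.of_le (by simp)
  have hF : ContDiff ℝ ∞ (fderiv ℝ g) := (contDiff_infty_iff_fderiv.1 hg).2
  have hF1 : ContDiff ℝ 1 (fderiv ℝ g) := hF.of_le (by simp)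
  obtain ⟨M, hM⟩ := hF1.lipschitzWith_of_hasCompactSupport (hc.fderiv ℝ) one_ne_zero
  have hKc := K.hPsi.smooth.continuous
  have hKs := CvA_hcs K.hPsi
  have hKi : Integrable K.Psi := hKc.integrable_of_hasCompactSupport hKs
  obtain ⟨I, hI⟩ : ∃ I, I = ∫ z, ‖K.Psi z‖ := ⟨_, rfl⟩
  have hI0 : 0 ≤ I := by rw [hI]; exact integral_nonneg fun z => norm_nonneg _
  have hMI : 0 ≤ M * I := mul_nonneg M.coe_nonneg hI0
  refine ⟨M * I + d * (M * I), fun b hb y => ⟨?_, ?_⟩⟩
  · -- the function
    have hb0 := hb.1
    have i1 : Integrable fun z => K.Psi z * g (y - b • z) :=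
      (hKc.mul (hg.continuous.comp (continuous_const.sub (continuous_id.const_smul b)))
        ).integrable_of_hasCompactSupport hKs.mul_right
    have i2 : Integrable fun z => K.Psi z * g y := hKi.mul_const _
    have i3 : Integrable fun z => K.Psi z * fderiv ℝ g y (b • z) :=
      (hKc.mul ((fderiv ℝ g y).continuous.comp (continuous_id.const_smul b))
        ).integrable_of_hasCompactSupport hKs.mul_right
    have z3 : ∫ z, K.Psi z * fderiv ℝ g y (b • z) = 0 := by
      have h1 := integral_neg_eq_self (fun z => K.Psi z * fderiv ℝ g y (b • z))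
        (volume : Measure (E d))
      have h2 : ∀ z, K.Psi (-z) * fderiv ℝ g y (b • (-z)) =
          -(K.Psi z * fderiv ℝ g y (b • z)) := by
        intro z
        rw [K.Psi_even, smul_neg, map_neg, mul_neg]
      simp only [h2, integral_neg] at h1
      linarith
    have e : g y - cv K.Psi b g y =
        ∫ z, (K.Psi z * g y - K.Psi z * g (y - b • z) - K.Psi z * fderiv ℝ g y (b • z)) := by
      have i4 : Integrable fun z => K.Psi z * g y - K.Psi z * g (y - b • z) := i2.sub i1
      rw [integral_sub i4 i3, integral_sub i2 i1, z3, integral_mul_const, K.Psi_int,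
        one_mul, sub_zero, cv]
    have hle : |g y - cv K.Psi b g y| ≤ M * I * b ^ 2 := by
      rw [e, ← Real.norm_eq_abs]
      refine (norm_integral_le_of_norm_le (g := fun z => ‖K.Psi z‖ * (M * b ^ 2))
        (hKi.norm.mul_const _) (Filter.Eventually.of_forall fun z => ?_)).trans (le_of_eq ?_)
      · have h1 : K.Psi z * g y - K.Psi z * g (y - b • z) - K.Psi z * fderiv ℝ g y (b • z) =
            - (K.Psi z * (g (y + -(b • z)) - g y - fderiv ℝ g y (-(b • z)))) := by
          rw [map_neg, ← sub_eq_add_neg]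
          ring
        rw [h1, norm_neg, norm_mul]
        by_cases hz : 1 < ‖z‖
        · rw [K.hPsi.supp z hz, norm_zero, zero_mul, zero_mul]
        · refine mul_le_mul_of_nonneg_left ?_ (norm_nonneg _)
          rw [Real.norm_eq_abs]
          refine (RemA_taylor hgd hM y _).trans ?_
          rw [norm_neg, norm_smul, Real.norm_of_nonneg hb0.le]
          have h2 : b * ‖z‖ ≤ b := mul_le_of_le_one_right hb0.le (not_lt.1 hz)
          have h3 : 0 ≤ b * ‖z‖ := by positivity
          rw [mul_assoc]
          refine mul_le_mul_of_nonneg_left ?_ M.coe_nonneg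
          nlinarith
      · rw [integral_mul_const, ← hI]
        ring
    refine hle.trans ?_
    have : 0 ≤ d * (M * I) * b ^ 2 := by positivity
    linarith
  · -- the gradient
    have hb0 := hb.1
    have hcvd : Differentiable ℝ (cv K.Psi b g) :=
      (cv_contDiff K.hPsi hb0 hg.continuous.locallyIntegrable).differentiable (by simp)
    have hpd : ∀ i, |pd i (fun z => g z - cv K.Psi b g z) y| ≤ M * I * b := by
      intro i
      have hpc : Continuous (pd i g) := hF.continuous.clm_apply continuous_const
      have e1 : pd i (fun z => g z - cv K.Psi b g z) y = pd i g y - cv K.Psi b (pd i g) y := by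
        rw [← cv_pd_right K.hPsi b hg1 i, pd, fderiv_fun_sub (hgd y) (hcvd y)]
        rfl
      have i1 : Integrable fun z => K.Psi z * pd i g (y - b • z) :=
        (hKc.mul (hpc.comp (continuous_const.sub (continuous_id.const_smul b)))
          ).integrable_of_hasCompactSupport hKs.mul_right
      have i2 : Integrable fun z => K.Psi z * pd i g y := hKi.mul_const _
      have e : pd i g y - cv K.Psi b (pd i g) y =
          ∫ z, (K.Psi z * pd i g y - K.Psi z * pd i g (y - b • z)) := by
        rw [integral_sub i2 i1, integral_mul_const, K.Psi_int, one_mul, cv]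
      rw [e1, e, ← Real.norm_eq_abs]
      refine (norm_integral_le_of_norm_le (g := fun z => ‖K.Psi z‖ * (M * b))
        (hKi.norm.mul_const _) (Filter.Eventually.of_forall fun z => ?_)).trans (le_of_eq ?_)
      · rw [← mul_sub, norm_mul]
        by_cases hz : 1 < ‖z‖
        · rw [K.hPsi.supp z hz, norm_zero, zero_mul, zero_mul]
        · refine mul_le_mul_of_nonneg_left ?_ (norm_nonneg _)
          have h1 : pd i g y - pd i g (y - b • z) =
              (fderiv ℝ g y - fderiv ℝ g (y - b • z)) (EuclideanSpace.single i 1) := rfl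
          rw [h1]
          refine (ContinuousLinearMap.le_opNorm _ _).trans ?_
          rw [EuclideanSpace.norm_single, norm_one, mul_one]
          have h2 := hM.dist_le_mul y (y - b • z)
          rw [dist_eq_norm, dist_eq_norm, sub_sub_cancel, norm_smul,
            Real.norm_of_nonneg hb0.le] at h2
          refine h2.trans (mul_le_mul_of_nonneg_left ?_ M.coe_nonneg)
          exact mul_le_of_le_one_right hb0.le (not_lt.1 hz)
      · rw [integral_mul_const, ← hI]
        ring
    refine (RemA_grad_le y).trans ((Finset.sum_le_sum fun i _ => hpd i).trans ?_)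
    rw [Finset.sum_const, Finset.card_univ, Fintype.card_fin, nsmul_eq_mul]
    have : 0 ≤ M * I * b := by positivity
    nlinarith

end Pool.Agent.Lib.MP_ff3fe0_an_SPH
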