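import Pool.Agent.Lib.MP_ff3fe0_an_SPH.ZeroA
import Pool.Agent.Lib.MP_ff3fe0_an_SPH.RemA
import Pool.Agent.Lib.MP_ff3fe0_an_SPH.DecA
import Pool.Agent.Lib.MP_ff3fe0_an_SPH.MaxiA
import Pool.Agent.Lib.MP_ff3fe0_an_SPH.GmA
import Pool.Agent.Lib.MP_ff3fe0_an_SPH.SmB

set_option autoImplicit false

/-!
# Maximality
-/

namespace Pool.Agent.Lib.MP_ff3fe0_an_SPH

open MeasureTheory Metric Set
open scoped ENNReal NNReal ContDiff FourierTransform
open Pool.Agent.Lib.MP_ff3fe0_an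

variable {d : ℕ}

private theorem TeleB_smooth (K : Ker d) {g : E d → ℝ} (hg : ContDiff ℝ ∞ g) {r : ℝ}
    {q : ℕ → E d → ℝ} (hq : ∀ m, Bdd r (q m)) (m : ℕ) : ContDiff ℝ ∞ (pc K g q m) := by
  unfold pc
  split_ifs with h
  · exact cv_contDiff K.hPsi one_pos hg.continuous.locallyIntegrable
  · exact gm_contDiff K.hS m (hq m)

private theorem TeleB_half (k : ℕ) : (1 / 2 : ℝ≥0∞) ^ k * 2 ^ k = 1 := by
  rw [← mul_pow, ENNReal.div_mul_cancel (by norm_num) (by norm_num), one_pow]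

private theorem TeleB_sc (m : ℕ) : ENNReal.ofReal (sc m) = (1 / 2) ^ m := by
  unfold sc
  rw [ENNReal.ofReal_pow (by norm_num), ENNReal.ofReal_div_of_pos (by norm_num)]
  simp

private theorem TeleB_cc (hd : 0 < d) {φ : E d → ℝ} (hφ : ContDiff ℝ ∞ φ) (j : ℕ)
    (c c' x : E d) (t : ℝ) :
    ‖c - c'‖ₑ * ‖iteratedDeriv j (fun s => sm φ s x) t‖ₑ ≤
      ‖JJ j φ c x t‖ₑ + ‖JJ j φ c' x t‖ₑ := by
  have h := JJ_sub hd hφ j c c' x t
  rw [mul_comm, ← enorm_smul, ← h, add_comm]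
  exact enorm_sub_le

private theorem TeleB_abs (f : ℝ → ℝ) (S : Set ℝ) :
    ENNReal.ofReal (∫ s in S, |f s|) ≤ ∫⁻ s in S, ‖f s‖ₑ := by
  calc ENNReal.ofReal (∫ s in S, |f s|) ≤ ‖∫ s in S, |f s|‖ₑ := by
        rw [Real.enorm_eq_ofReal_abs]
        exact ENNReal.ofReal_le_ofReal (le_abs_self _)
    _ ≤ ∫⁻ s in S, ‖|f s|‖ₑ := enorm_integral_le_lintegral_enorm _
    _ = ∫⁻ s in S, ‖f s‖ₑ := by simp only [Real.enorm_eq_ofReal_abs, abs_abs]

private theorem TeleB_Avr (k : ℕ) (F : ℝ → ℝ≥0∞) (t : ℝ) :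
    (1 / 2) ^ k * Avr k F t = ∫⁻ r in Icc (-(sc k / 2)) (sc k / 2), F (t + r) := by
  unfold Avr
  rw [← mul_assoc, TeleB_half, one_mul]

private theorem TeleB_int (hd : 0 < d) {φ : E d → ℝ} (hφ : ContDiff ℝ ∞ φ) (j : ℕ)
    (c c' x : E d) (t : ℝ) (k : ℕ) :
    ‖c - c'‖ₑ * ENNReal.ofReal (∫ s in Icc (-(sc k / 2)) (sc k / 2),
      |iteratedDeriv j (fun s => sm φ s x) (t + s)|) ≤
        (1 / 2) ^ k * Avr k (fun s => ‖JJ j φ c x s‖ₑ) t +
          (1 / 2) ^ k * Avr k (fun s => ‖JJ j φ c' x s‖ₑ) t := by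
  have h1 := TeleB_abs (fun s => iteratedDeriv j (fun s => sm φ s x) (t + s))
    (Icc (-(sc k / 2)) (sc k / 2))
  have hm : Measurable fun s : ℝ => ‖JJ j φ c x (t + s)‖ₑ :=
    (((JJ_contDiff hd hφ j c x).continuous.comp (continuous_const.add continuous_id)).enorm
      ).measurable
  rw [TeleB_Avr, TeleB_Avr, ← lintegral_add_left hm]
  refine (mul_le_mul_right h1 _).trans ?_
  rw [← lintegral_const_mul' _ _ enorm_ne_top]
  exact lintegral_mono fun s => TeleB_cc hd hφ j c c' x (t + s)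

private theorem TeleB_mul (n : ℕ) {a : ℝ≥0∞} (ha : a ≠ ⊤) (F : ℝ → ℝ≥0∞) (t : ℝ) :
    Avr n (fun s => a * F s) t = a * Avr n F t := by
  unfold Avr
  rw [lintegral_const_mul' _ _ ha, mul_left_comm]

private theorem TeleB_pow (m : ℕ) : ENNReal.ofReal (2 ^ m) = 2 ^ m := by
  rw [ENNReal.ofReal_pow (by norm_num)]
  simp

private theorem TeleB_XX0 (S : E d → ℝ) (m n : ℕ) (q : E d → ℝ) (c x : E d) (t : ℝ) :
    Avr n (fun s => XX S m 0 q c x s) t = 2 ^ m * Avr n (fun s => ‖JJ 0 (gm S m q) c x s‖ₑ) t := by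
  rw [← TeleB_mul n (by finiteness)]
  unfold XX
  simp only [pow_zero, mul_one, TeleB_pow]

private theorem TeleB_XX1 (S : E d → ℝ) (m n : ℕ) (q : E d → ℝ) (c x : E d) (t : ℝ) :
    Avr n (fun s => XX S m 1 q c x s) t = Avr n (fun s => ‖JJ 1 (gm S m q) c x s‖ₑ) t := by
  have h : (2 : ℝ) ^ m * sc m ^ 1 = 1 := by
    unfold sc
    rw [pow_one, ← mul_pow]
    norm_num
  unfold XX
  simp only [h, ENNReal.ofReal_one, one_mul]

private theorem TeleB_XX2 (S : E d → ℝ) (m n : ℕ) (q : E d → ℝ) (c x : E d) (t : ℝ) :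
    Avr n (fun s => XX S m 2 q c x s) t =
      (1 / 2) ^ m * Avr n (fun s => ‖JJ 2 (gm S m q) c x s‖ₑ) t := by
  have h : (2 : ℝ) ^ m * sc m ^ 2 = sc m := by
    unfold sc
    rw [pow_two, ← mul_assoc, ← mul_pow]
    norm_num
  rw [← TeleB_mul n (by finiteness)]
  unfold XX
  simp only [h, TeleB_sc]

/-- one term of the error -/
private theorem TeleB_dd (S : E d → ℝ) (q : ℕ → E d → ℝ) (k m : ℕ) (x : E d) (t : ℝ) (c : E d)
    {n j : ℕ} (hn : n ∈ RR k m) (hj : j ∈ Finset.range 3) :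
    (1 / 2) ^ ((k - m) + (m - k)) * Avr n (fun s => XX S m j (q m) c x s) t ≤
      (1 / 2) ^ ((k - m) + (m - k)) * ∑ n ∈ RR k m, ∑ j ∈ Finset.range 3,
        Avr n (fun s => XX S m j (q m) c x s) t := by
  refine mul_le_mul_right ?_ _
  calc Avr n (fun s => XX S m j (q m) c x s) t
      ≤ ∑ j ∈ Finset.range 3, Avr n (fun s => XX S m j (q m) c x s) t :=
        Finset.single_le_sum (f := fun j => Avr n (fun s => XX S m j (q m) c x s) t)
          (fun _ _ => zero_le) hj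
    _ ≤ _ := Finset.single_le_sum
        (f := fun n => ∑ j ∈ Finset.range 3, Avr n (fun s => XX S m j (q m) c x s) t)
          (fun _ _ => zero_le) hn

/-- the term of the error -/
private noncomputable def TeleB_t (S : E d → ℝ) (q : ℕ → E d → ℝ) (k m : ℕ) (x : E d) (t : ℝ)
    (c : E d) : ℝ≥0∞ :=
  (1 / 2) ^ ((k - m) + (m - k)) * ∑ n ∈ RR k m, ∑ j ∈ Finset.range 3,
    Avr n (fun s => XX S m j (q m) c x s) t

private theorem TeleB_low (hd : 0 < d) {S : E d → ℝ} (hS : IsKer S) {r : ℝ} {q : ℕ → E d → ℝ}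
    {m : ℕ} (hq : Bdd r (q m)) (k : ℕ) (hmk : m ≤ k) (x : E d) (t : ℝ) (c c' : E d) :
    ‖c - c'‖ₑ * ENNReal.ofReal (∫ s in Icc (-(sc k / 2)) (sc k / 2),
      |iteratedDeriv 2 (fun s => sm (gm S m (q m)) s x) (t + s)|) ≤
        2 * (TeleB_t S q k m x t c + TeleB_t S q (k + 1) m x t c') := by
  refine (TeleB_int hd (gm_contDiff hS m hq) 2 c c' x t k).trans ?_
  have h1 : (1 / 2) ^ k * Avr k (fun s => ‖JJ 2 (gm S m (q m)) c x s‖ₑ) t ≤
      TeleB_t S q k m x t c := by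
    have h := TeleB_dd S q k m x t c (n := k) (j := 2) (by simp [RR]) (by simp)
    rw [TeleB_XX2, ← mul_assoc, ← pow_add, show (k - m) + (m - k) + m = k by omega] at h
    exact h
  have h2 : (1 / 2) ^ (k + 1) * Avr k (fun s => ‖JJ 2 (gm S m (q m)) c' x s‖ₑ) t ≤
      TeleB_t S q (k + 1) m x t c' := by
    have h := TeleB_dd S q (k + 1) m x t c' (n := k) (j := 2) (by simp [RR]) (by simp)
    rw [TeleB_XX2, ← mul_assoc, ← pow_add,
      show (k + 1 - m) + (m - (k + 1)) + m = k + 1 by omega] at h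
    exact h
  have h3 : (1 / 2 : ℝ≥0∞) ^ k = 2 * (1 / 2) ^ (k + 1) := by
    rw [pow_succ, mul_comm ((1 / 2 : ℝ≥0∞) ^ k), ← mul_assoc,
      ENNReal.mul_div_cancel (by norm_num) (by norm_num), one_mul]
  have h4 : (1 / 2) ^ k * Avr k (fun s => ‖JJ 2 (gm S m (q m)) c' x s‖ₑ) t ≤
      2 * TeleB_t S q (k + 1) m x t c' := by
    rw [h3, mul_assoc]
    exact mul_le_mul_right h2 _
  rw [mul_add]
  refine add_le_add (h1.trans ?_) h4
  exact le_mul_of_one_le_left zero_le (by norm_num)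

private theorem TeleB_w {k m : ℕ} (h : k < m) :
    (1 / 2 : ℝ≥0∞) ^ (m - k) * 2 ^ m = 2 ^ k := by
  obtain ⟨l, rfl⟩ := Nat.exists_eq_add_of_lt h
  rw [show k + l + 1 - k = l + 1 by omega, show k + l + 1 = (l + 1) + k by ring, pow_add 2,
    ← mul_assoc, TeleB_half, one_mul]

private theorem TeleB_w' {k m : ℕ} (h : k < m) :
    (2 : ℝ≥0∞) ^ k * (1 / 2) ^ m = (1 / 2) ^ (m - k) := by
  obtain ⟨l, rfl⟩ := Nat.exists_eq_add_of_lt h
  rw [show k + l + 1 - k = l + 1 by omega, show k + l + 1 = k + (l + 1) by ring, pow_add,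
    ← mul_assoc, mul_comm ((2 : ℝ≥0∞) ^ k), TeleB_half, one_mul]

private theorem TeleB_w2 {k m : ℕ} (h : k < m) :
    (1 / 2 : ℝ≥0∞) ^ (m - k) ≤ (1 / 2) ^ ((k + 1 - m) + (m - (k + 1))) :=
  pow_le_pow_of_le_one zero_le (by
    rw [one_div]; exact ENNReal.inv_le_one.2 (by norm_num)) (by omega)

/-- high frequencies: the point value and the averages, for one vector -/
private theorem TeleB_hi (hd : 0 < d) {S : E d → ℝ} (hS : IsKer S) {r : ℝ} {q : ℕ → E d → ℝ}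
    {m : ℕ} (hq : Bdd r (q m)) {k κ : ℕ} (hmk : k < m) (hκ : κ = k ∨ κ = k + 1) (x : E d)
    (t : ℝ) (c : E d) :
    2 ^ k * ‖JJ 0 (gm S m (q m)) c x t‖ₑ ≤ 2 * TeleB_t S q κ m x t c ∧
      2 ^ k * Avr k (fun s => ‖JJ 0 (gm S m (q m)) c x s‖ₑ) t ≤ TeleB_t S q κ m x t c := by
  have hw : (1 / 2 : ℝ≥0∞) ^ (m - k) ≤ (1 / 2) ^ ((κ - m) + (m - κ)) := by
    rcases hκ with rfl | rfl
    · rw [show κ - m + (m - κ) = m - κ by omega]
    · exact TeleB_w2 hmk
  have hkR : k ∈ RR κ m := by rcases hκ with rfl | rfl <;> simp [RR]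
  have hmR : m ∈ RR κ m := by
    have h1 : max κ m = m := max_eq_right (by rcases hκ with rfl | rfl <;> omega)
    simp [RR, h1]
  have h0 : ∀ n ∈ RR κ m, 2 ^ k * Avr n (fun s => ‖JJ 0 (gm S m (q m)) c x s‖ₑ) t ≤
      TeleB_t S q κ m x t c := by
    intro n hn
    have h := TeleB_dd S q κ m x t c (n := n) (j := 0) hn (by simp)
    refine le_trans ?_ h
    rw [TeleB_XX0, ← TeleB_w hmk, ← mul_assoc]
    exact mul_le_mul_left (mul_le_mul_left hw _) _
  have h1 : (1 / 2) ^ (m - k) * Avr m (fun s => ‖JJ 1 (gm S m (q m)) c x s‖ₑ) t ≤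
      TeleB_t S q κ m x t c := by
    have h := TeleB_dd S q κ m x t c (n := m) (j := 1) hmR (by simp)
    refine le_trans ?_ h
    rw [TeleB_XX1]
    exact mul_le_mul_left hw _
  refine ⟨?_, h0 k hkR⟩
  have hφ := gm_contDiff hS m hq
  have hpt := pt_le (F := JJ 0 (gm S m (q m)) c x)
    (contDiff_infty.1 (JJ_contDiff hd hφ 0 c x) 1) m t
  rw [JJ_succ hd hφ 0 c x, TeleB_sc] at hpt
  calc 2 ^ k * ‖JJ 0 (gm S m (q m)) c x t‖ₑ
      ≤ 2 ^ k * (Avr m (fun s => ‖JJ 0 (gm S m (q m)) c x s‖ₑ) t +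
        (1 / 2) ^ m * Avr m (fun s => ‖JJ (0 + 1) (gm S m (q m)) c x s‖ₑ) t) :=
        mul_le_mul_right hpt _
    _ ≤ TeleB_t S q κ m x t c + TeleB_t S q κ m x t c := by
        rw [mul_add, ← mul_assoc, TeleB_w' hmk]
        exact add_le_add (h0 m hmR) h1
    _ = 2 * TeleB_t S q κ m x t c := (two_mul _).symm

private theorem TeleB_high (hd : 0 < d) {S : E d → ℝ} (hS : IsKer S) {r : ℝ} {q : ℕ → E d → ℝ}
    {m : ℕ} (hq : Bdd r (q m)) (k : ℕ) (hmk : k < m) (x : E d) (t : ℝ) (c c' : E d) :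
    ‖c - c'‖ₑ * (2 ^ k * ENNReal.ofReal (|sm (gm S m (q m)) t x| + 2 ^ k *
      ∫ s in Icc (-(sc k / 2)) (sc k / 2), |sm (gm S m (q m)) (t + s) x|)) ≤
        3 * (TeleB_t S q k m x t c + TeleB_t S q (k + 1) m x t c') := by
  have hφ := gm_contDiff hS m hq
  obtain ⟨a1, a2⟩ := TeleB_hi hd hS hq hmk (Or.inl rfl) x t c
  obtain ⟨b1, b2⟩ := TeleB_hi hd hS hq hmk (Or.inr rfl) x t c'
  have h1 : ‖c - c'‖ₑ * ENNReal.ofReal |sm (gm S m (q m)) t x| ≤
      ‖JJ 0 (gm S m (q m)) c x t‖ₑ + ‖JJ 0 (gm S m (q m)) c' x t‖ₑ := by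
    have h := TeleB_cc hd hφ 0 c c' x t
    rw [iteratedDeriv_zero] at h
    rwa [← Real.enorm_eq_ofReal_abs]
  have h2 := TeleB_int hd hφ 0 c c' x t k
  simp only [iteratedDeriv_zero] at h2
  have h3 : ENNReal.ofReal (|sm (gm S m (q m)) t x| + 2 ^ k *
      ∫ s in Icc (-(sc k / 2)) (sc k / 2), |sm (gm S m (q m)) (t + s) x|) ≤
      ENNReal.ofReal |sm (gm S m (q m)) t x| + 2 ^ k *
        ENNReal.ofReal (∫ s in Icc (-(sc k / 2)) (sc k / 2), |sm (gm S m (q m)) (t + s) x|) := by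
    refine ENNReal.ofReal_add_le.trans (add_le_add le_rfl ?_)
    rw [ENNReal.ofReal_mul (by positivity), TeleB_pow]
  calc ‖c - c'‖ₑ * (2 ^ k * ENNReal.ofReal (|sm (gm S m (q m)) t x| + 2 ^ k *
      ∫ s in Icc (-(sc k / 2)) (sc k / 2), |sm (gm S m (q m)) (t + s) x|))
      ≤ ‖c - c'‖ₑ * (2 ^ k * (ENNReal.ofReal |sm (gm S m (q m)) t x| + 2 ^ k *
        ENNReal.ofReal (∫ s in Icc (-(sc k / 2)) (sc k / 2),
          |sm (gm S m (q m)) (t + s) x|))) := mul_le_mul_right (mul_le_mul_right h3 _) _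
    _ = 2 ^ k * (‖c - c'‖ₑ * ENNReal.ofReal |sm (gm S m (q m)) t x|) + 2 ^ k * (2 ^ k *
        (‖c - c'‖ₑ * ENNReal.ofReal (∫ s in Icc (-(sc k / 2)) (sc k / 2),
          |sm (gm S m (q m)) (t + s) x|))) := by ring
    _ ≤ 2 ^ k * (‖JJ 0 (gm S m (q m)) c x t‖ₑ + ‖JJ 0 (gm S m (q m)) c' x t‖ₑ) +
        2 ^ k * (2 ^ k * ((1 / 2) ^ k * Avr k (fun s => ‖JJ 0 (gm S m (q m)) c x s‖ₑ) t +
          (1 / 2) ^ k * Avr k (fun s => ‖JJ 0 (gm S m (q m)) c' x s‖ₑ) t)) :=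
        add_le_add (mul_le_mul_right h1 _) (mul_le_mul_right (mul_le_mul_right h2 _) _)
    _ = (2 ^ k * ‖JJ 0 (gm S m (q m)) c x t‖ₑ + 2 ^ k * ‖JJ 0 (gm S m (q m)) c' x t‖ₑ) +
        ((1 / 2) ^ k * 2 ^ k) * (2 ^ k * Avr k (fun s => ‖JJ 0 (gm S m (q m)) c x s‖ₑ) t +
          2 ^ k * Avr k (fun s => ‖JJ 0 (gm S m (q m)) c' x s‖ₑ) t) := by ring
    _ ≤ (2 * TeleB_t S q k m x t c + 2 * TeleB_t S q (k + 1) m x t c') +
        (TeleB_t S q k m x t c + TeleB_t S q (k + 1) m x t c') := by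
        rw [TeleB_half, one_mul]
        exact add_le_add (add_le_add a1 b1) (add_le_add a2 b2)
    _ = _ := by ring

private theorem TeleB_dec (hd : 0 < d) (K : Ker d) {r : ℝ} {g : E d → ℝ} {q : ℕ → E d → ℝ}
    (hg : ContDiff ℝ ∞ g) (hc : HasCompactSupport g) (hq : ∀ m, Bdd r (q m))
    (hqr : ∀ m, 1 ≤ m → ∀ y ∈ closedBall (0 : E d) r, q m y = cvv K.ka (sc m) (gradient g) y)
    (M : ℕ) (x : E d) (hx : ‖x‖ + 4 ≤ r) (s : ℝ) (hs : s ∈ Icc (1 / 2 : ℝ) (5 / 2)) :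
    ∑ m ∈ Finset.range (M + 1), sm (pc K g q m) s x +
      sm (fun y => g y - cv K.Psi (sc M) g y) s x = sm g s x := by
  have hcont : Continuous (cv K.Psi (sc M) g) :=
    (cv_contDiff K.hPsi (by unfold sc; positivity) hg.continuous.locallyIntegrable).continuous
  rw [← sm_sum hd _ _ (fun m _ => (TeleB_smooth K hg hq m).continuous),
    ← sm_add hd (g := fun y => ∑ m ∈ Finset.range (M + 1), pc K g q m y)
      (g' := fun y => g y - cv K.Psi (sc M) g y)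
      (continuous_finsetSum _ fun m _ => (TeleB_smooth K hg hq m).continuous)
      (hg.continuous.sub hcont)]
  refine (sm_congr fun y hy => ?_).symm
  have hy' : ‖y‖ + 1 ≤ r := by
    rw [mem_closedBall, dist_eq_norm, abs_of_nonneg (by linarith [hs.1])] at hy
    have h1 := norm_le_norm_add_norm_sub' y x
    linarith [hs.2]
  have h := decomp K hg hc hqr M hy'
  have hset : Finset.range (M + 1) = insert 0 (Finset.Icc 1 M) := by
    ext i
    simp only [Finset.mem_range, Finset.mem_insert, Finset.mem_Icc]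
    omega
  rw [hset, Finset.sum_insert (by simp)]
  have h2 : ∑ m ∈ Finset.Icc 1 M, pc K g q m y = ∑ m ∈ Finset.Icc 1 M, gm K.S m (q m) y := by
    refine Finset.sum_congr rfl fun m hm => ?_
    have : m ≠ 0 := by have := (Finset.mem_Icc.1 hm).1; omega
    simp only [pc, this, if_false]
  rw [h2]
  have h3 : pc K g q 0 y = cv K.Psi 1 g y := by simp only [pc, if_true]
  rw [h3]
  exact h

/-- The bound of the derivatives by maximality. -/
theorem tele_b (hd : 0 < d) (K : Ker d) : ∃ C : ℝ≥0, ∀ (r : ℝ) (g : E d → ℝ)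
    (q : ℕ → E d → ℝ), ContDiff ℝ ∞ g → HasCompactSupport g → (∀ m, Bdd r (q m)) → q 0 = 0 →
    (∀ m, 1 ≤ m → ∀ y ∈ closedBall (0 : E d) r, q m y = cvv K.ka (sc m) (gradient g) y) →
    ∃ B : ℝ, ∀ x : E d, ‖x‖ + 4 ≤ r → ∀ t ∈ Icc (1 : ℝ) 2,
      (∀ s, 0 < s → sm g s x ≤ sm g t x) → ∀ c : ℕ → E d, (∀ k, ‖c k‖ ≤ 1) → ∀ M k : ℕ, k < M →
        ‖c k - c (k + 1)‖ₑ *
          ‖∑ m ∈ Finset.range (k + 1), deriv (fun s => sm (pc K g q m) s x) t‖ₑ ≤
        C * ((1 / 2) ^ k * hlm (gradient g) x + DD K.S q k x t (c k) +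
          DD K.S q (k + 1) x t (c (k + 1))) + ENNReal.ofReal (B * 2 ^ k / 4 ^ M) := by
  obtain ⟨C0, hC0⟩ := zero_terms hd K
  refine ⟨2 * C0 + 50, fun r g q hg hc hq _ hqr => ?_⟩
  obtain ⟨Cg, hCg⟩ := rem_bound hd K hg hc
  have hprob := sigma_prob hd
  refine ⟨32 * Cg, fun x hx t ht hmax c hcn M k hkM => ?_⟩
  obtain ⟨a, ha⟩ : ∃ a : E d, a = c k := ⟨_, rfl⟩
  obtain ⟨b, hb⟩ : ∃ b : E d, b = c (k + 1) := ⟨_, rfl⟩
  rw [← ha, ← hb]
  have hab : ‖a - b‖ₑ ≤ 2 := by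
    have h1 : ‖a - b‖ ≤ 2 := by
      have h2 := norm_sub_le a b
      have h3 := hcn k
      have h4 := hcn (k + 1)
      rw [← ha] at h3
      rw [← hb] at h4
      linarith
    rw [← ofReal_norm]
    exact (ENNReal.ofReal_le_ofReal h1).trans (by simp)
  -- the inequality from maximality
  have hR : ∀ s ∈ Icc (1 / 2 : ℝ) (5 / 2),
      |sm (fun y => g y - cv K.Psi (sc M) g y) s x| ≤ Cg * sc M ^ 2 := by
    intro s _
    unfold sm
    rw [← Real.norm_eq_abs]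
    have h1 := norm_integral_le_of_norm_le_const (μ := sigma d)
      (f := fun w : Sph d => g (x - s • (w : E d)) - cv K.Psi (sc M) g (x - s • (w : E d)))
      (C := Cg * sc M ^ 2) (Filter.Eventually.of_forall fun w =>
        (hCg (sc M) ⟨by unfold sc; positivity, by
          unfold sc; exact pow_le_one₀ (by norm_num) (by norm_num)⟩ _).1)
    simpa using h1
  have hm := maxi M k hkM.le (fun m s => sm (pc K g q m) s x)
    (fun s => sm (fun y => g y - cv K.Psi (sc M) g y) s x) t ht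
    (fun m => contDiff_infty.1 (sm_contDiff_t hd (TeleB_smooth K hg hq m) x) 2)
    (fun s hs => by
      have h1 := TeleB_dec hd K hg hc hq hqr M x hx s hs
      have h2 := TeleB_dec hd K hg hc hq hqr M x hx t ⟨by linarith [ht.1], by linarith [ht.2]⟩
      rw [h1, h2]
      exact hmax s (by linarith [hs.1])) (Cg * sc M ^ 2) hR
  -- pass to extended reals
  obtain ⟨A, hA⟩ : ∃ A : ℕ → ℝ, A = fun m => ∫ s in Icc (-(sc k / 2)) (sc k / 2),
      |iteratedDeriv 2 (fun s => sm (pc K g q m) s x) (t + s)| := ⟨_, rfl⟩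
  obtain ⟨P, hP⟩ : ∃ P : ℕ → ℝ, P = fun m => |sm (pc K g q m) t x| + 2 ^ k *
      ∫ s in Icc (-(sc k / 2)) (sc k / 2), |sm (pc K g q m) (t + s) x| := ⟨_, rfl⟩
  have hA0 : ∀ m, 0 ≤ A m := fun m => by
    rw [hA]
    exact integral_nonneg fun s => abs_nonneg _
  have hP0 : ∀ m, 0 ≤ P m := fun m => by
    rw [hP]
    exact add_nonneg (abs_nonneg _) (mul_nonneg (by positivity)
      (integral_nonneg fun s => abs_nonneg _))
  have hm' : |∑ m ∈ Finset.range (k + 1), deriv (fun s => sm (pc K g q m) s x) t| ≤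
      (∑ m ∈ Finset.range (k + 1), A m) + 16 * 2 ^ k * (∑ m ∈ Finset.Ioc k M, P m) +
        16 * 2 ^ k * (Cg * sc M ^ 2) := by
    rw [hA, hP]
    refine hm.trans (le_of_eq ?_)
    ring
  have hE : ‖∑ m ∈ Finset.range (k + 1), deriv (fun s => sm (pc K g q m) s x) t‖ₑ ≤
      (∑ m ∈ Finset.range (k + 1), ENNReal.ofReal (A m)) +
        16 * (2 ^ k * ∑ m ∈ Finset.Ioc k M, ENNReal.ofReal (P m)) +
          ENNReal.ofReal (16 * 2 ^ k * (Cg * sc M ^ 2)) := by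
    rw [Real.enorm_eq_ofReal_abs]
    refine (ENNReal.ofReal_le_ofReal hm').trans ?_
    refine ENNReal.ofReal_add_le.trans (add_le_add ?_ le_rfl)
    refine ENNReal.ofReal_add_le.trans (add_le_add ?_ ?_)
    · rw [ENNReal.ofReal_sum_of_nonneg fun m _ => hA0 m]
    · rw [ENNReal.ofReal_mul (by positivity), ENNReal.ofReal_mul (by positivity), TeleB_pow,
        ENNReal.ofReal_sum_of_nonneg fun m _ => hP0 m, mul_assoc]
      simp
  -- the terms
  have hlow : ∀ m, 1 ≤ m → m ≤ k → ‖a - b‖ₑ * ENNReal.ofReal (A m) ≤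
      2 * (TeleB_t K.S q k m x t a + TeleB_t K.S q (k + 1) m x t b) := by
    intro m h1 h2
    have h3 : pc K g q m = gm K.S m (q m) := by
      have : m ≠ 0 := by omega
      simp only [pc, this, if_false]
    rw [hA]
    simp only [h3]
    exact TeleB_low hd K.hS (hq m) k h2 x t a b
  have hhigh : ∀ m ∈ Finset.Ioc k M, ‖a - b‖ₑ * (2 ^ k * ENNReal.ofReal (P m)) ≤
      3 * (TeleB_t K.S q k m x t a + TeleB_t K.S q (k + 1) m x t b) := by
    intro m hmm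
    have h2 := (Finset.mem_Ioc.1 hmm).1
    have h3 : pc K g q m = gm K.S m (q m) := by
      have : m ≠ 0 := by omega
      simp only [pc, this, if_false]
    rw [hP]
    simp only [h3]
    exact TeleB_high hd K.hS (hq m) k h2 x t a b
  have hzero : ‖a - b‖ₑ * ENNReal.ofReal (A 0) ≤ 2 * C0 * ((1 / 2) ^ k * hlm (gradient g) x) := by
    have h3 : pc K g q 0 = cv K.Psi 1 g := by
      funext y
      simp only [pc, if_true]
    have h4 : ENNReal.ofReal (A 0) ≤ (1 / 2) ^ k * (C0 * hlm (gradient g) x) := by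
      rw [hA]
      simp only [h3]
      refine (TeleB_abs _ _).trans ?_
      have h5 : ∫⁻ s in Icc (-(sc k / 2)) (sc k / 2),
          ‖iteratedDeriv 2 (fun s => sm (cv K.Psi 1 g) s x) (t + s)‖ₑ ≤
          ∫⁻ _ in Icc (-(sc k / 2)) (sc k / 2), C0 * hlm (gradient g) x := by
        refine setLIntegral_mono measurable_const fun s hs => ?_
        have hk1 : sc k ≤ 1 := by
          unfold sc
          exact pow_le_one₀ (by norm_num) (by norm_num)
        refine (hC0 g hg hc x (t + s) ⟨?_, ?_⟩).2 2 (by norm_num) le_rfl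
        · linarith [hs.1, ht.1]
        · linarith [hs.2, ht.2]
      refine h5.trans (le_of_eq ?_)
      rw [setLIntegral_const, Real.volume_Icc, show sc k / 2 - -(sc k / 2) = sc k by ring,
        TeleB_sc, mul_comm]
    calc ‖a - b‖ₑ * ENNReal.ofReal (A 0) ≤ 2 * ((1 / 2) ^ k * (C0 * hlm (gradient g) x)) :=
          mul_le_mul' hab h4
      _ = _ := by ring
  have htsum : ∀ (κ : ℕ) (e : E d) (s : Finset ℕ),
      ∑ m ∈ s, TeleB_t K.S q κ m x t e ≤ DD K.S q κ x t e := fun κ e s => by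
    unfold DD TeleB_t
    exact ENNReal.sum_le_tsum s
  have hs1 : ‖a - b‖ₑ * ∑ m ∈ Finset.range (k + 1), ENNReal.ofReal (A m) ≤
      2 * (DD K.S q k x t a + DD K.S q (k + 1) x t b) +
        2 * C0 * ((1 / 2) ^ k * hlm (gradient g) x) := by
    have hset : Finset.range (k + 1) = insert 0 (Finset.Icc 1 k) := by
      ext i
      simp only [Finset.mem_range, Finset.mem_insert, Finset.mem_Icc]
      omega
    rw [hset, Finset.sum_insert (by simp), mul_add, add_comm]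
    refine add_le_add ?_ hzero
    rw [Finset.mul_sum]
    calc ∑ m ∈ Finset.Icc 1 k, ‖a - b‖ₑ * ENNReal.ofReal (A m)
        ≤ ∑ m ∈ Finset.Icc 1 k, 2 * (TeleB_t K.S q k m x t a +
          TeleB_t K.S q (k + 1) m x t b) := Finset.sum_le_sum fun m hm =>
            hlow m (Finset.mem_Icc.1 hm).1 (Finset.mem_Icc.1 hm).2
      _ = 2 * (∑ m ∈ Finset.Icc 1 k, TeleB_t K.S q k m x t a +
          ∑ m ∈ Finset.Icc 1 k, TeleB_t K.S q (k + 1) m x t b) := by
          rw [← Finset.mul_sum, Finset.sum_add_distrib]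
      _ ≤ _ := mul_le_mul_right (add_le_add (htsum _ _ _) (htsum _ _ _)) _
  have hs2 : ‖a - b‖ₑ * (16 * (2 ^ k * ∑ m ∈ Finset.Ioc k M, ENNReal.ofReal (P m))) ≤
      48 * (DD K.S q k x t a + DD K.S q (k + 1) x t b) := by
    calc ‖a - b‖ₑ * (16 * (2 ^ k * ∑ m ∈ Finset.Ioc k M, ENNReal.ofReal (P m)))
        = 16 * ∑ m ∈ Finset.Ioc k M, ‖a - b‖ₑ * (2 ^ k * ENNReal.ofReal (P m)) := by
          rw [← Finset.mul_sum, ← Finset.mul_sum]
          ring
      _ ≤ 16 * ∑ m ∈ Finset.Ioc k M, 3 * (TeleB_t K.S q k m x t a +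
          TeleB_t K.S q (k + 1) m x t b) := mul_le_mul_right (Finset.sum_le_sum hhigh) _
      _ = 48 * (∑ m ∈ Finset.Ioc k M, TeleB_t K.S q k m x t a +
          ∑ m ∈ Finset.Ioc k M, TeleB_t K.S q (k + 1) m x t b) := by
          rw [← Finset.mul_sum, Finset.sum_add_distrib, ← mul_assoc]
          norm_num
      _ ≤ _ := mul_le_mul_right (add_le_add (htsum _ _ _) (htsum _ _ _)) _
  have hs3 : ‖a - b‖ₑ * ENNReal.ofReal (16 * 2 ^ k * (Cg * sc M ^ 2)) ≤
      ENNReal.ofReal (32 * Cg * 2 ^ k / 4 ^ M) := by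
    refine (mul_le_mul_left hab _).trans (le_of_eq ?_)
    have h2 : (2 : ℝ≥0∞) = ENNReal.ofReal 2 := by simp
    rw [h2, ← ENNReal.ofReal_mul (by norm_num)]
    congr 1
    have h3 : sc M ^ 2 = 1 / 4 ^ M := by
      unfold sc
      rw [← pow_mul, mul_comm M 2, pow_mul, ← one_div_pow]
      norm_num
    rw [h3]
    ring
  calc ‖a - b‖ₑ * ‖∑ m ∈ Finset.range (k + 1), deriv (fun s => sm (pc K g q m) s x) t‖ₑ
      ≤ ‖a - b‖ₑ * ((∑ m ∈ Finset.range (k + 1), ENNReal.ofReal (A m)) +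
        16 * (2 ^ k * ∑ m ∈ Finset.Ioc k M, ENNReal.ofReal (P m)) +
          ENNReal.ofReal (16 * 2 ^ k * (Cg * sc M ^ 2))) := mul_le_mul_right hE _
    _ = ‖a - b‖ₑ * (∑ m ∈ Finset.range (k + 1), ENNReal.ofReal (A m)) +
        ‖a - b‖ₑ * (16 * (2 ^ k * ∑ m ∈ Finset.Ioc k M, ENNReal.ofReal (P m))) +
          ‖a - b‖ₑ * ENNReal.ofReal (16 * 2 ^ k * (Cg * sc M ^ 2)) := by
        rw [mul_add, mul_add]
    _ ≤ (2 * (DD K.S q k x t a + DD K.S q (k + 1) x t b) +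
        2 * C0 * ((1 / 2) ^ k * hlm (gradient g) x)) +
        48 * (DD K.S q k x t a + DD K.S q (k + 1) x t b) +
          ENNReal.ofReal (32 * Cg * 2 ^ k / 4 ^ M) := add_le_add (add_le_add hs1 hs2) hs3
    _ ≤ ((2 * C0 + 50 : ℝ≥0) : ℝ≥0∞) * ((1 / 2) ^ k * hlm (gradient g) x + DD K.S q k x t a +
        DD K.S q (k + 1) x t b) + ENNReal.ofReal (32 * Cg * 2 ^ k / 4 ^ M) := by
        refine add_le_add ?_ le_rfl
        push_cast
        have e1 : (2 * (DD K.S q k x t a + DD K.S q (k + 1) x t b) +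
            2 * C0 * ((1 / 2) ^ k * hlm (gradient g) x)) +
            48 * (DD K.S q k x t a + DD K.S q (k + 1) x t b) =
            2 * C0 * ((1 / 2) ^ k * hlm (gradient g) x) +
              50 * (DD K.S q k x t a + DD K.S q (k + 1) x t b) := by ring
        have e2 : (2 * (C0 : ℝ≥0∞) + 50) * ((1 / 2) ^ k * hlm (gradient g) x +
            DD K.S q k x t a + DD K.S q (k + 1) x t b) =
            (2 * C0 * ((1 / 2) ^ k * hlm (gradient g) x) +
              50 * (DD K.S q k x t a + DD K.S q (k + 1) x t b)) +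
            (50 * ((1 / 2) ^ k * hlm (gradient g) x) +
              2 * C0 * (DD K.S q k x t a + DD K.S q (k + 1) x t b)) := by ring
        rw [e1, e2]
        exact le_self_add

end Pool.Agent.Lib.MP_ff3fe0_an_SPH
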