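import Pool.Agent.Lib.MP_ff3fe0_an_SPH.TeleF
import Pool.Agent.Lib.MP_ff3fe0_an_SPH.TeleB

set_option autoImplicit false

/-!
# The telescoping inequality
-/

namespace Pool.Agent.Lib.MP_ff3fe0_an_SPH

open MeasureTheory Metric Set
open scoped ENNReal NNReal ContDiff FourierTransform
open Pool.Agent.Lib.MP_ff3fe0_an

variable {d : ℕ}

private theorem teleA_sc (m : ℕ) : (2 : ℝ) ^ m * sc m = 1 := by
  unfold sc
  rw [← mul_pow]
  norm_num

/-- The first derivative of a piece is one of the terms of the error. -/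
theorem JJ_le_DD (hd : 0 < d) {S : E d → ℝ} (hS : IsKer S) {r : ℝ} {q : ℕ → E d → ℝ} {m : ℕ}
    (hq : Bdd r (q m)) (hm : 1 ≤ m) (x : E d) (t : ℝ) (c : E d) :
    ‖JJ 1 (gm S m (q m)) c x t‖ₑ ≤ DD S q m x t c := by
  have hφ : ContDiff ℝ ∞ (gm S m (q m)) := gm_contDiff hS m hq
  have h1 := pt_le ((JJ_contDiff hd hφ 1 c x).of_le (by exact_mod_cast le_top)) m t
  have e1 : (fun s => ‖JJ 1 (gm S m (q m)) c x s‖ₑ) = fun s => XX S m 1 (q m) c x s := by
    funext s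
    unfold XX
    rw [pow_one, teleA_sc, ENNReal.ofReal_one, one_mul]
  have e2 : (fun s => ‖deriv (JJ 1 (gm S m (q m)) c x) s‖ₑ) =
      fun s => ‖JJ 2 (gm S m (q m)) c x s‖ₑ := by
    funext s
    rw [← JJ_succ hd hφ 1 c x]
  have e3 : ENNReal.ofReal (sc m) * Avr m (fun s => ‖JJ 2 (gm S m (q m)) c x s‖ₑ) t =
      Avr m (fun s => XX S m 2 (q m) c x s) t := by
    unfold Avr XX
    rw [← mul_assoc, mul_comm (ENNReal.ofReal (sc m)), mul_assoc,
      ← lintegral_const_mul' _ _ ENNReal.ofReal_ne_top]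
    have e4 : (2 : ℝ) ^ m * sc m ^ 2 = sc m := by
      rw [pow_two, ← mul_assoc, teleA_sc, one_mul]
    rw [e4]
  rw [e1, e2, e3] at h1
  refine h1.trans ?_
  unfold DD
  refine le_trans ?_ (ENNReal.le_tsum m)
  have e5 : (m - m) + (m - m) = 0 := by omega
  rw [e5, pow_zero, one_mul]
  have hmem : m ∈ RR m m := by
    unfold RR
    simp
  refine le_trans ?_ (Finset.single_le_sum (f := fun n => ∑ j ∈ Finset.range 3,
    Avr n (fun s => XX S m j (q m) c x s) t) (fun _ _ => zero_le) hmem)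
  rw [Finset.sum_range_succ, Finset.sum_range_succ, Finset.sum_range_succ, Finset.sum_range_zero,
    zero_add]
  exact add_le_add le_add_self le_rfl

private theorem teleA_half (M : ℕ) : ∑ k ∈ Finset.range M, ((1 : ℝ≥0∞) / 2) ^ k ≤ 2 := by
  refine (ENNReal.sum_le_tsum _).trans ?_
  rw [one_div, ENNReal.tsum_geometric, ENNReal.one_sub_inv_two, inv_inv]

private theorem teleA_err (B : ℝ) (M : ℕ) :
    ∑ k ∈ Finset.range M, ENNReal.ofReal (B * 2 ^ k / 4 ^ M) ≤ ENNReal.ofReal (|B| / 2 ^ M) := by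
  have h1 : ∀ k ∈ Finset.range M, ENNReal.ofReal (B * 2 ^ k / 4 ^ M) ≤
      ENNReal.ofReal (|B| * 2 ^ k / 4 ^ M) := by
    intro k _
    refine ENNReal.ofReal_le_ofReal ?_
    gcongr
    exact le_abs_self B
  refine (Finset.sum_le_sum h1).trans ?_
  rw [← ENNReal.ofReal_sum_of_nonneg (fun k _ => by positivity)]
  refine ENNReal.ofReal_le_ofReal ?_
  have h2 : ∑ k ∈ Finset.range M, (2 : ℝ) ^ k = 2 ^ M - 1 := by
    have := geom_sum_eq (by norm_num : (2 : ℝ) ≠ 1) M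
    rw [this]
    norm_num
  rw [← Finset.sum_div, ← Finset.mul_sum, h2]
  have h3 : (4 : ℝ) ^ M = 2 ^ M * 2 ^ M := by
    rw [← mul_pow]
    norm_num
  have h4 : (0 : ℝ) < 2 ^ M := by positivity
  rw [h3, div_le_div_iff₀ (by positivity) h4]
  have h5 : 0 ≤ |B| := abs_nonneg B
  nlinarith [mul_nonneg h5 h4.le]

/-- The pointwise inequality (3*), for an arbitrary choice of the vectors `c k`. -/
theorem tele_ineq (hd : 0 < d) (K : Ker d) : ∃ C : ℝ≥0, ∀ (r : ℝ) (g : E d → ℝ)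
    (q : ℕ → E d → ℝ), ContDiff ℝ ∞ g → HasCompactSupport g → (∀ m, Bdd r (q m)) → q 0 = 0 →
    (∀ m, 1 ≤ m → ∀ y ∈ closedBall (0 : E d) r, q m y = cvv K.ka (sc m) (gradient g) y) →
    ∀ x : E d, ‖x‖ + 4 ≤ r → ∀ t ∈ Icc (1 : ℝ) 2, (∀ s, 0 < s → sm g s x ≤ sm g t x) →
    ∀ c : ℕ → E d, (∀ k, ‖c k‖ ≤ 1) →
      ‖gradient (sm g t) x‖ₑ ≤ C * (hlm (gradient g) x + ∑' k : ℕ, DD K.S q k x t (c k)) := by
  obtain ⟨C1, hC1⟩ := tele_fin hd K
  obtain ⟨C2, hC2⟩ := tele_b hd K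
  refine ⟨1 + C1 + 2 * C2, fun r g q hg hgc hq hq0 hqe x hx t ht hmax c hc => ?_⟩
  obtain ⟨B1, hB1⟩ := hC1 r g q hg hgc hq hqe
  obtain ⟨B2, hB2⟩ := hC2 r g q hg hgc hq hq0 hqe
  obtain ⟨h, hh⟩ : ∃ h, h = hlm (gradient g) x := ⟨_, rfl⟩
  obtain ⟨f, hf⟩ : ∃ f : ℕ → ℝ≥0∞, ∀ k, f k = DD K.S q k x t (c k) := ⟨_, fun _ => rfl⟩
  have key : ∀ M : ℕ, ‖gradient (sm g t) x‖ₑ ≤ (((1 + C1 + 2 * C2 : ℝ≥0) : ℝ≥0∞) *
      (h + ∑' k, f k)) + (ENNReal.ofReal (|B2| / 2 ^ M) + ENNReal.ofReal (B1 / 2 ^ M)) := by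
    intro M
    have h1 := hB1 x hx t ht hmax c hc M
    have h2 : ∑ m ∈ Finset.Icc 1 M, ‖JJ 1 (pc K g q m) (c m) x t‖ₑ ≤ ∑' k, f k := by
      refine le_trans (Finset.sum_le_sum (g := f) ?_) (ENNReal.sum_le_tsum _)
      intro m hm
      have hm1 : 1 ≤ m := (Finset.mem_Icc.mp hm).1
      have e : pc K g q m = gm K.S m (q m) := by
        unfold pc
        rw [if_neg (by omega)]
      rw [e, hf]
      exact JJ_le_DD hd K.hS (hq m) hm1 x t (c m)
    have h3 : (∑ k ∈ Finset.range M, ‖c k - c (k + 1)‖ₑ *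
        ‖∑ m ∈ Finset.range (k + 1), deriv (fun s => sm (pc K g q m) s x) t‖ₑ) ≤
        C2 * (2 * h + 2 * ∑' k, f k) + ENNReal.ofReal (|B2| / 2 ^ M) := by
      have h4 : (∑ k ∈ Finset.range M, ‖c k - c (k + 1)‖ₑ *
          ‖∑ m ∈ Finset.range (k + 1), deriv (fun s => sm (pc K g q m) s x) t‖ₑ) ≤
          ∑ k ∈ Finset.range M, (C2 * ((1 / 2) ^ k * h + f k + f (k + 1)) +
            ENNReal.ofReal (B2 * 2 ^ k / 4 ^ M)) := by
        refine Finset.sum_le_sum (fun k hk => ?_)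
        have := hB2 x hx t ht hmax c hc M k (Finset.mem_range.mp hk)
        rw [← hh, ← hf, ← hf] at this
        exact this
      refine h4.trans ?_
      rw [Finset.sum_add_distrib, ← Finset.mul_sum, Finset.sum_add_distrib,
        Finset.sum_add_distrib, ← Finset.sum_mul]
      refine add_le_add (mul_le_mul' le_rfl ?_) (teleA_err B2 M)
      have h5 : ∑ k ∈ Finset.range M, f k ≤ ∑' k, f k := ENNReal.sum_le_tsum _
      have h6 : ∑ k ∈ Finset.range M, f (k + 1) ≤ ∑' k, f k := by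
        refine (ENNReal.sum_le_tsum (f := fun k => f (k + 1)) _).trans ?_
        exact ENNReal.tsum_comp_le_tsum_of_injective (add_left_injective 1) f
      calc (∑ k ∈ Finset.range M, (1 / 2 : ℝ≥0∞) ^ k) * h + ∑ k ∈ Finset.range M, f k +
            ∑ k ∈ Finset.range M, f (k + 1)
          ≤ 2 * h + ∑' k, f k + ∑' k, f k :=
            add_le_add (add_le_add (mul_le_mul' (teleA_half M) le_rfl) h5) h6
        _ = 2 * h + 2 * ∑' k, f k := by rw [two_mul (∑' k, f k), add_assoc]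
    rw [← hh] at h1
    calc ‖gradient (sm g t) x‖ₑ ≤ C1 * h + (∑' k, f k) +
          (C2 * (2 * h + 2 * ∑' k, f k) + ENNReal.ofReal (|B2| / 2 ^ M)) +
          ENNReal.ofReal (B1 / 2 ^ M) :=
          h1.trans (add_le_add (add_le_add (add_le_add le_rfl h2) h3) le_rfl)
      _ ≤ (1 + C1 + 2 * C2) * (h + ∑' k, f k) +
          (ENNReal.ofReal (|B2| / 2 ^ M) + ENNReal.ofReal (B1 / 2 ^ M)) := by
          have e1 : (1 + C1 + 2 * C2 : ℝ≥0∞) * (h + ∑' k, f k) =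
            (C1 * h + (∑' k, f k) + C2 * (2 * h + 2 * ∑' k, f k)) +
              (h + C1 * ∑' k, f k) := by ring
          rw [e1]
          calc C1 * h + (∑' k, f k) + (C2 * (2 * h + 2 * ∑' k, f k) +
                ENNReal.ofReal (|B2| / 2 ^ M)) + ENNReal.ofReal (B1 / 2 ^ M)
              = (C1 * h + (∑' k, f k) + C2 * (2 * h + 2 * ∑' k, f k)) +
                (ENNReal.ofReal (|B2| / 2 ^ M) + ENNReal.ofReal (B1 / 2 ^ M)) := by ring
            _ ≤ _ := add_le_add le_self_add le_rfl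
      _ = _ := by push_cast; ring
  have hlim : Filter.Tendsto (fun M : ℕ => (((1 + C1 + 2 * C2 : ℝ≥0) : ℝ≥0∞) *
      (h + ∑' k, f k)) + (ENNReal.ofReal (|B2| / 2 ^ M) + ENNReal.ofReal (B1 / 2 ^ M)))
      Filter.atTop (nhds ((((1 + C1 + 2 * C2 : ℝ≥0) : ℝ≥0∞) * (h + ∑' k, f k)) + (0 + 0))) := by
    have h7 : ∀ B : ℝ, Filter.Tendsto (fun M : ℕ => ENNReal.ofReal (B / 2 ^ M)) Filter.atTop
        (nhds 0) := by
      intro B
      rw [← ENNReal.ofReal_zero]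
      refine ENNReal.tendsto_ofReal ?_
      have h8 : Filter.Tendsto (fun M : ℕ => B * (1 / 2 : ℝ) ^ M) Filter.atTop
          (nhds (B * 0)) :=
        (tendsto_pow_atTop_nhds_zero_of_lt_one (by norm_num) (by norm_num)).const_mul B
      rw [mul_zero] at h8
      refine h8.congr (fun M => ?_)
      rw [one_div, inv_pow, div_eq_mul_inv]
    exact tendsto_const_nhds.add ((h7 _).add (h7 _))
  have h9 := ge_of_tendsto' hlim key
  rw [add_zero, add_zero] at h9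
  have e6 : (fun k => DD K.S q k x t (c k)) = f := by
    funext k
    exact (hf k).symm
  rw [e6, ← hh]
  exact h9

end Pool.Agent.Lib.MP_ff3fe0_an_SPH
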