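import Pool.Agent.Lib.MP_ff3fe0_an_SPH.SigA
import Pool.Agent.Lib.MP_ff3fe0_an_SPH.ThA

set_option autoImplicit false

/-!
# The trilinear estimate
-/

namespace Pool.Agent.Lib.MP_ff3fe0_an_SPH

open MeasureTheory Metric Set
open scoped ENNReal NNReal ContDiff FourierTransform
open Pool.Agent.Lib.MP_ff3fe0_an

variable {d : ℕ}

/-- The trilinear expression. -/
noncomputable def WW (n : ℕ) (G : E d → ℝ≥0∞) (X : E d → E d → ℝ → ℝ≥0∞) (x : E d) : ℝ≥0∞ :=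
  ∫⁻ s in Icc (1 / 2 : ℝ) (5 / 2), ∫⁻ t in Icc (1 / 4 : ℝ) 3, ∫⁻ c : Sph d,
    Th n (t - s) * G (x - t • (c : E d)) * X c x s ^ 2 ∂(sigma d)

/-- The measure in `(s, t, c)`. -/
private noncomputable def triMu (d : ℕ) : Measure (ℝ × ℝ × Sph d) :=
  (volume.restrict (Icc (1 / 2 : ℝ) (5 / 2))).prod
    ((volume.restrict (Icc (1 / 4 : ℝ) 3)).prod (sigma d))

private theorem tri_meas (n : ℕ) {G : E d → ℝ≥0∞} (hG : Measurable G)
    {X : E d → E d → ℝ → ℝ≥0∞} (hX : Measurable (fun z : E d × E d × ℝ => X z.1 z.2.1 z.2.2)) :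
    Measurable (fun p : E d × ℝ × ℝ × Sph d =>
      Th n (p.2.2.1 - p.2.1) * G (p.1 - p.2.2.1 • (p.2.2.2 : E d)) *
        X p.2.2.2 p.1 p.2.1 ^ 2) := by
  have h1 : Measurable (fun p : E d × ℝ × ℝ × Sph d => Th n (p.2.2.1 - p.2.1)) :=
    (measurable_Th n).comp (by fun_prop)
  have h2 : Measurable (fun p : E d × ℝ × ℝ × Sph d => G (p.1 - p.2.2.1 • (p.2.2.2 : E d))) :=
    hG.comp (by fun_prop)
  have h3 : Measurable (fun p : E d × ℝ × ℝ × Sph d => X p.2.2.2 p.1 p.2.1) :=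
    hX.comp (g := fun z : E d × E d × ℝ => X z.1 z.2.1 z.2.2)
      (f := fun p : E d × ℝ × ℝ × Sph d => ((p.2.2.2 : E d), p.1, p.2.1)) (by fun_prop)
  exact (h1.mul h2).mul (h3.pow_const 2)

private theorem WW_eq (hd : 0 < d) (n : ℕ) {G : E d → ℝ≥0∞} (hG : Measurable G)
    {X : E d → E d → ℝ → ℝ≥0∞} (hX : Measurable (fun z : E d × E d × ℝ => X z.1 z.2.1 z.2.2))
    (x : E d) : WW n G X x = ∫⁻ p, Th n (p.2.1 - p.1) * G (x - p.2.1 • (p.2.2 : E d)) *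
        X p.2.2 x p.1 ^ 2 ∂(triMu d) := by
  have := sigma_prob hd
  have hm : Measurable (fun p : ℝ × ℝ × Sph d => Th n (p.2.1 - p.1) *
      G (x - p.2.1 • (p.2.2 : E d)) * X p.2.2 x p.1 ^ 2) :=
    (tri_meas n hG hX).comp (f := fun p : ℝ × ℝ × Sph d => (x, p)) (by fun_prop)
  unfold WW triMu
  rw [lintegral_prod _ hm.aemeasurable]
  refine lintegral_congr fun s => ?_
  have hm' : Measurable (fun p : ℝ × Sph d => Th n (p.1 - s) *
      G (x - p.1 • (p.2 : E d)) * X p.2 x s ^ 2) :=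
    hm.comp (f := fun p : ℝ × Sph d => (s, p)) (by fun_prop)
  rw [lintegral_prod _ hm'.aemeasurable]

theorem measurable_WW (hd : 0 < d) (n : ℕ) {G : E d → ℝ≥0∞} (hG : Measurable G)
    {X : E d → E d → ℝ → ℝ≥0∞} (hX : Measurable (fun z : E d × E d × ℝ => X z.1 z.2.1 z.2.2)) :
    Measurable (WW n G X) := by
  have := sigma_prob hd
  have h1 : WW n G X = fun x => ∫⁻ p, Th n (p.2.1 - p.1) * G (x - p.2.1 • (p.2.2 : E d)) *
        X p.2.2 x p.1 ^ 2 ∂(triMu d) := funext fun x => WW_eq hd n hG hX x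
  rw [h1]
  have : SFinite (triMu d) := by
    unfold triMu
    infer_instance
  exact Measurable.lintegral_prod_right' (tri_meas n hG hX)

/-- The integral in `(t, c)` for a fixed difference of the radii. -/
private theorem tri_tau {C : ℝ≥0}
    (hC : ∀ f : E d → ℝ≥0∞, Measurable f → ∀ x : E d,
      ∫⁻ r in Icc (1 / 4 : ℝ) 3, ∫⁻ w : Sph d, f (x - r • (w : E d)) ∂(sigma d)
        ≤ C * ∫⁻ y in closedBall x 3, f y)
    {X : E d → E d → ℝ → ℝ≥0∞} (hX : Measurable (fun z : E d × E d × ℝ => X z.1 z.2.1 z.2.2))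
    {A : ℝ≥0∞} (b : E d) (τ : ℝ)
    (hA : ∫⁻ y in {y : E d | ‖y - b‖ + τ ∈ Icc (1 / 2 : ℝ) (5 / 2)},
      X (‖y - b‖⁻¹ • (y - b)) y (‖y - b‖ + τ) ^ 2 ≤ A) :
    ∫⁻ t in Icc (1 / 4 : ℝ) 3, (Icc (1 / 2 : ℝ) (5 / 2)).indicator
      (fun s => ∫⁻ c : Sph d, X c (b + t • (c : E d)) s ^ 2 ∂(sigma d)) (τ + t) ≤ C * A := by
  set φ : E d → ℝ≥0∞ := {y : E d | ‖y - b‖ + τ ∈ Icc (1 / 2 : ℝ) (5 / 2)}.indicator
    (fun y => X (‖y - b‖⁻¹ • (y - b)) y (‖y - b‖ + τ) ^ 2) with hφ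
  have hS : MeasurableSet {y : E d | ‖y - b‖ + τ ∈ Icc (1 / 2 : ℝ) (5 / 2)} := by
    refine measurableSet_Icc.preimage ?_
    fun_prop
  have hm : Measurable φ := by
    refine Measurable.indicator ?_ hS
    refine (hX.comp (g := fun z : E d × E d × ℝ => X z.1 z.2.1 z.2.2)
      (f := fun y : E d => (‖y - b‖⁻¹ • (y - b), y, ‖y - b‖ + τ)) ?_).pow_const 2
    fun_prop
  have h1 : ∫⁻ y, φ y ≤ A := by
    rw [hφ, lintegral_indicator hS]
    exact hA
  have h2 : ∀ t ∈ Icc (1 / 4 : ℝ) 3, (Icc (1 / 2 : ℝ) (5 / 2)).indicator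
      (fun s => ∫⁻ c : Sph d, X c (b + t • (c : E d)) s ^ 2 ∂(sigma d)) (τ + t) =
      ∫⁻ w : Sph d, (fun z => φ (-z)) (-b - t • (w : E d)) ∂(sigma d) := by
    intro t ht
    have ht0 : 0 < t := lt_of_lt_of_le (by norm_num) ht.1
    have h3 : ∀ w : Sph d, φ (-(-b - t • (w : E d))) = (Icc (1 / 2 : ℝ) (5 / 2)).indicator
        (fun s => X w (b + t • (w : E d)) s ^ 2) (τ + t) := by
      intro w
      have h4 : -(-b - t • (w : E d)) = b + t • (w : E d) := by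
        rw [neg_sub, sub_neg_eq_add, add_comm]
      have h5 : (b + t • (w : E d)) - b = t • (w : E d) := by
        rw [add_sub_cancel_left]
      have h6 : ‖(b + t • (w : E d)) - b‖ = t := by
        have h7 : ‖(w : E d)‖ = 1 := by
          have := w.2
          rwa [mem_sphere_zero_iff_norm] at this
        rw [h5, norm_smul, h7, mul_one, Real.norm_eq_abs, abs_of_pos ht0]
      rw [h4]
      by_cases h8 : τ + t ∈ Icc (1 / 2 : ℝ) (5 / 2)
      · have h9 : b + t • (w : E d) ∈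
            {y : E d | ‖y - b‖ + τ ∈ Icc (1 / 2 : ℝ) (5 / 2)} := by
          change ‖(b + t • (w : E d)) - b‖ + τ ∈ Icc (1 / 2 : ℝ) (5 / 2)
          rw [h6, add_comm]
          exact h8
        rw [hφ, indicator_of_mem h9, indicator_of_mem h8, h6, h5, smul_smul,
          inv_mul_cancel₀ ht0.ne', one_smul, add_comm t τ]
      · have h9 : b + t • (w : E d) ∉
            {y : E d | ‖y - b‖ + τ ∈ Icc (1 / 2 : ℝ) (5 / 2)} := by
          intro h10
          have h11 : ‖(b + t • (w : E d)) - b‖ + τ ∈ Icc (1 / 2 : ℝ) (5 / 2) := h10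
          rw [h6, add_comm] at h11
          exact h8 h11
        rw [hφ, indicator_of_notMem h9, indicator_of_notMem h8]
    simp only [h3]
    by_cases h8 : τ + t ∈ Icc (1 / 2 : ℝ) (5 / 2)
    · simp only [indicator_of_mem h8]
    · simp only [indicator_of_notMem h8, lintegral_zero]
  rw [setLIntegral_congr_fun measurableSet_Icc h2]
  refine (hC (fun z => φ (-z)) (hm.comp measurable_neg) (-b)).trans ?_
  refine mul_le_mul_right ?_ _
  refine (setLIntegral_le_lintegral _ _).trans ?_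
  rw [lintegral_neg_eq_self (μ := volume) φ]
  exact h1

/-- The integral in `(s, t, c)`. -/
private theorem tri_b (hd : 0 < d) {C : ℝ≥0}
    (hC : ∀ f : E d → ℝ≥0∞, Measurable f → ∀ x : E d,
      ∫⁻ r in Icc (1 / 4 : ℝ) 3, ∫⁻ w : Sph d, f (x - r • (w : E d)) ∂(sigma d)
        ≤ C * ∫⁻ y in closedBall x 3, f y) (n : ℕ)
    {X : E d → E d → ℝ → ℝ≥0∞} (hX : Measurable (fun z : E d × E d × ℝ => X z.1 z.2.1 z.2.2))
    {A : ℝ≥0∞}
    (hA : ∀ (b : E d) (τ : ℝ), ∫⁻ y in {y : E d | ‖y - b‖ + τ ∈ Icc (1 / 2 : ℝ) (5 / 2)},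
      X (‖y - b‖⁻¹ • (y - b)) y (‖y - b‖ + τ) ^ 2 ≤ A) (b : E d) :
    ∫⁻ p, Th n (p.2.1 - p.1) * X p.2.2 (b + p.2.1 • (p.2.2 : E d)) p.1 ^ 2 ∂(triMu d) ≤
      2 * (C * A) := by
  have := sigma_prob hd
  have hm1 : Measurable (fun p : ℝ × ℝ × Sph d => X p.2.2 (b + p.2.1 • (p.2.2 : E d)) p.1 ^ 2) :=
    (hX.comp (g := fun z : E d × E d × ℝ => X z.1 z.2.1 z.2.2)
      (f := fun p : ℝ × ℝ × Sph d => ((p.2.2 : E d), b + p.2.1 • (p.2.2 : E d), p.1))
      (by fun_prop)).pow_const 2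
  have hm : Measurable (fun p : ℝ × ℝ × Sph d => Th n (p.2.1 - p.1) *
      X p.2.2 (b + p.2.1 • (p.2.2 : E d)) p.1 ^ 2) :=
    ((measurable_Th n).comp (by fun_prop)).mul hm1
  -- the inner integral over the sphere
  set K : ℝ → ℝ → ℝ≥0∞ := fun s t => ∫⁻ c : Sph d, X c (b + t • (c : E d)) s ^ 2 ∂(sigma d)
    with hK
  have hKm : Measurable (fun p : ℝ × ℝ => K p.1 p.2) := by
    have h1 : Measurable (fun q : (ℝ × ℝ) × Sph d =>
        X q.2 (b + q.1.2 • (q.2 : E d)) q.1.1 ^ 2) :=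
      hm1.comp (f := fun q : (ℝ × ℝ) × Sph d => (q.1.1, q.1.2, q.2)) (by fun_prop)
    exact Measurable.lintegral_prod_right' h1
  have hstep1 : ∫⁻ p, Th n (p.2.1 - p.1) * X p.2.2 (b + p.2.1 • (p.2.2 : E d)) p.1 ^ 2 ∂(triMu d)
      = ∫⁻ s in Icc (1 / 2 : ℝ) (5 / 2), ∫⁻ t in Icc (1 / 4 : ℝ) 3, Th n (t - s) * K s t := by
    unfold triMu
    rw [lintegral_prod _ hm.aemeasurable]
    refine lintegral_congr fun s => ?_
    have hm' : Measurable (fun p : ℝ × Sph d => Th n (p.1 - s) *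
        X p.2 (b + p.1 • (p.2 : E d)) s ^ 2) :=
      hm.comp (f := fun p : ℝ × Sph d => (s, p)) (by fun_prop)
    rw [lintegral_prod _ hm'.aemeasurable]
    refine lintegral_congr fun t => ?_
    change ∫⁻ c : Sph d, Th n (t - s) * X c (b + t • (c : E d)) s ^ 2 ∂(sigma d) = _
    rw [lintegral_const_mul']
    exact ne_top_of_le_ne_top (by exact ENNReal.pow_ne_top (by norm_num)) (Th_le n (t - s))
  rw [hstep1]
  have hm2 : Measurable (fun p : ℝ × ℝ => Th n (p.2 - p.1) * K p.1 p.2) :=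
    ((measurable_Th n).comp (by fun_prop)).mul hKm
  rw [lintegral_lintegral_swap (f := fun s t => Th n (t - s) * K s t) hm2.aemeasurable]
  have hstep2 : ∀ t : ℝ, ∫⁻ s in Icc (1 / 2 : ℝ) (5 / 2), Th n (t - s) * K s t =
      ∫⁻ τ, Th n τ * (Icc (1 / 2 : ℝ) (5 / 2)).indicator (fun s => K s t) (τ + t) := by
    intro t
    rw [← lintegral_indicator measurableSet_Icc,
      ← lintegral_add_right_eq_self (μ := (volume : Measure ℝ)) _ t]
    refine lintegral_congr fun τ => ?_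
    by_cases h : τ + t ∈ Icc (1 / 2 : ℝ) (5 / 2)
    · rw [indicator_of_mem h, indicator_of_mem h]
      have h1 : t - (τ + t) = -τ := by ring
      rw [h1, Th_neg]
    · rw [indicator_of_notMem h, indicator_of_notMem h, mul_zero]
  simp only [hstep2]
  have hm3 : Measurable (fun p : ℝ × ℝ => Th n p.2 *
      (Icc (1 / 2 : ℝ) (5 / 2)).indicator (fun s => K s p.1) (p.2 + p.1)) := by
    refine ((measurable_Th n).comp measurable_snd).mul ?_
    have h1 : (fun p : ℝ × ℝ => (Icc (1 / 2 : ℝ) (5 / 2)).indicator (fun s => K s p.1)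
        (p.2 + p.1)) = {p : ℝ × ℝ | p.2 + p.1 ∈ Icc (1 / 2 : ℝ) (5 / 2)}.indicator
          (fun p => K (p.2 + p.1) p.1) := by
      funext p
      by_cases h : p.2 + p.1 ∈ Icc (1 / 2 : ℝ) (5 / 2)
      · have h' : p ∈ {p : ℝ × ℝ | p.2 + p.1 ∈ Icc (1 / 2 : ℝ) (5 / 2)} := h
        rw [indicator_of_mem h, indicator_of_mem h']
      · have h' : p ∉ {p : ℝ × ℝ | p.2 + p.1 ∈ Icc (1 / 2 : ℝ) (5 / 2)} := h
        rw [indicator_of_notMem h, indicator_of_notMem h']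
    rw [h1]
    refine Measurable.indicator ?_ ?_
    · exact hKm.comp (f := fun p : ℝ × ℝ => (p.2 + p.1, p.1)) (by fun_prop)
    · refine measurableSet_Icc.preimage ?_
      fun_prop
  rw [lintegral_lintegral_swap (f := fun t τ => Th n τ *
      (Icc (1 / 2 : ℝ) (5 / 2)).indicator (fun s => K s t) (τ + t)) hm3.aemeasurable]
  calc ∫⁻ τ, ∫⁻ t in Icc (1 / 4 : ℝ) 3, Th n τ *
        (Icc (1 / 2 : ℝ) (5 / 2)).indicator (fun s => K s t) (τ + t)
      ≤ ∫⁻ τ, Th n τ * (C * A) := by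
        refine lintegral_mono fun τ => ?_
        rw [lintegral_const_mul']
        · exact mul_le_mul_right (tri_tau hC hX b τ (hA b τ)) _
        · exact ne_top_of_le_ne_top (by exact ENNReal.pow_ne_top (by norm_num)) (Th_le n τ)
    _ = (∫⁻ τ, Th n τ) * (C * A) := lintegral_mul_const _ (measurable_Th n)
    _ ≤ 2 * (C * A) := mul_le_mul_left (Th_int n) _

theorem tri (hd : 0 < d) : ∃ C : ℝ≥0, ∀ (n : ℕ) (G : E d → ℝ≥0∞) (X : E d → E d → ℝ → ℝ≥0∞)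
    (A : ℝ≥0∞), Measurable G → Measurable (fun z : E d × E d × ℝ => X z.1 z.2.1 z.2.2) →
    (∀ (b : E d) (τ : ℝ), ∫⁻ y in {y : E d | ‖y - b‖ + τ ∈ Icc (1 / 2 : ℝ) (5 / 2)},
      X (‖y - b‖⁻¹ • (y - b)) y (‖y - b‖ + τ) ^ 2 ≤ A) →
    ∫⁻ x, WW n G X x ≤ C * (∫⁻ y, G y) * A := by
  obtain ⟨C, hC⟩ := polar_ann hd
  refine ⟨2 * C, fun n G X A hG hX hA => ?_⟩
  have := sigma_prob hd
  have : SFinite (triMu d) := by
    unfold triMu
    infer_instance
  have hm := tri_meas n hG hX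
  have hmb : Measurable (fun p : E d × ℝ × ℝ × Sph d => Th n (p.2.2.1 - p.2.1) *
      X p.2.2.2 (p.1 + p.2.2.1 • (p.2.2.2 : E d)) p.2.1 ^ 2) := by
    refine ((measurable_Th n).comp (by fun_prop)).mul ?_
    exact (hX.comp (g := fun z : E d × E d × ℝ => X z.1 z.2.1 z.2.2)
      (f := fun p : E d × ℝ × ℝ × Sph d =>
        ((p.2.2.2 : E d), p.1 + p.2.2.1 • (p.2.2.2 : E d), p.2.1)) (by fun_prop)).pow_const 2
  have h1 : ∫⁻ x, WW n G X x = ∫⁻ x, ∫⁻ p, Th n (p.2.1 - p.1) *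
      G (x - p.2.1 • (p.2.2 : E d)) * X p.2.2 x p.1 ^ 2 ∂(triMu d) :=
    lintegral_congr fun x => WW_eq hd n hG hX x
  rw [h1, lintegral_lintegral_swap (f := fun (x : E d) (p : ℝ × ℝ × Sph d) =>
    Th n (p.2.1 - p.1) * G (x - p.2.1 • (p.2.2 : E d)) * X p.2.2 x p.1 ^ 2) hm.aemeasurable]
  have h2 : ∀ p : ℝ × ℝ × Sph d, ∫⁻ x, Th n (p.2.1 - p.1) * G (x - p.2.1 • (p.2.2 : E d)) *
      X p.2.2 x p.1 ^ 2 = ∫⁻ b, G b * (Th n (p.2.1 - p.1) *
        X p.2.2 (b + p.2.1 • (p.2.2 : E d)) p.1 ^ 2) := by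
    intro p
    rw [← lintegral_add_right_eq_self (μ := (volume : Measure (E d))) _
      (p.2.1 • (p.2.2 : E d))]
    refine lintegral_congr fun b => ?_
    rw [add_sub_cancel_right]
    ring
  simp only [h2]
  have hm4 : Measurable (fun q : (ℝ × ℝ × Sph d) × E d => G q.2 * (Th n (q.1.2.1 - q.1.1) *
      X q.1.2.2 (q.2 + q.1.2.1 • (q.1.2.2 : E d)) q.1.1 ^ 2)) :=
    (hG.comp measurable_snd).mul
      (hmb.comp (f := fun q : (ℝ × ℝ × Sph d) × E d => (q.2, q.1)) (by fun_prop))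
  rw [lintegral_lintegral_swap (f := fun (p : ℝ × ℝ × Sph d) (b : E d) => G b *
    (Th n (p.2.1 - p.1) * X p.2.2 (b + p.2.1 • (p.2.2 : E d)) p.1 ^ 2)) hm4.aemeasurable]
  calc ∫⁻ b, ∫⁻ p, G b * (Th n (p.2.1 - p.1) *
        X p.2.2 (b + p.2.1 • (p.2.2 : E d)) p.1 ^ 2) ∂(triMu d)
      ≤ ∫⁻ b, G b * (2 * (C * A)) := by
        refine lintegral_mono fun b => ?_
        have h5 : Measurable (fun p : ℝ × ℝ × Sph d => Th n (p.2.1 - p.1) *
            X p.2.2 (b + p.2.1 • (p.2.2 : E d)) p.1 ^ 2) :=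
          hmb.comp (f := fun p : ℝ × ℝ × Sph d => (b, p)) (by fun_prop)
        rw [lintegral_const_mul _ h5]
        exact mul_le_mul_right (tri_b hd hC n hX hA b) _
    _ = (∫⁻ b, G b) * (2 * (C * A)) := lintegral_mul_const _ hG
    _ = ((2 * C : ℝ≥0) : ℝ≥0∞) * (∫⁻ y, G y) * A := by
        push_cast
        ring

end Pool.Agent.Lib.MP_ff3fe0_an_SPH
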