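import Pool.Agent.Lib.MP_ff3fe0_an_SPH.SrcA
import Pool.Agent.Lib.MP_ff3fe0_an_SPH.SrcB
import Pool.Agent.Lib.MP_ff3fe0_an_SPH.TriA
import Pool.Agent.Lib.MP_ff3fe0_an_SPH.ConeB
import Pool.Agent.Lib.MP_ff3fe0_an_SPH.GmA

set_option autoImplicit false

/-!
# The low pieces
-/

namespace Pool.Agent.Lib.MP_ff3fe0_an_SPH

open MeasureTheory Metric Set
open scoped ENNReal NNReal ContDiff FourierTransform
open Pool.Agent.Lib.MP_ff3fe0_an

variable {d : ℕ}

private theorem LowA_sc_pos (n : ℕ) : 0 < sc n := by unfold sc; positivity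

private theorem LowA_sc_anti {n n' : ℕ} (h : n ≤ n') : sc n' ≤ sc n :=
  pow_le_pow_of_le_one (by norm_num) (by norm_num) h

private theorem LowA_sc_one (n : ℕ) : sc n ≤ 1 := pow_le_one₀ (by norm_num) (by norm_num)

private theorem LowA_sc_succ (n : ℕ) : sc n = 2 * sc (n + 1) := by
  unfold sc
  rw [pow_succ]
  ring

private theorem LowA_two_sc (n : ℕ) : (2 : ℝ≥0∞) ^ n * ENNReal.ofReal (sc n) = 1 := by
  have h1 : (2 : ℝ≥0∞) = ENNReal.ofReal 2 := by simp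
  rw [h1, ← ENNReal.ofReal_pow (by norm_num), ← ENNReal.ofReal_mul (by positivity)]
  unfold sc
  rw [← mul_pow]
  norm_num

/-- Cauchy-Schwarz. -/
private theorem LowA_cs {α : Type*} [MeasurableSpace α] (μ : Measure α) {f : α → ℝ≥0∞}
    (hf : AEMeasurable f μ) : (∫⁻ a, f a ∂μ) ^ 2 ≤ μ univ * ∫⁻ a, f a ^ 2 ∂μ := by
  have h := ENNReal.lintegral_mul_le_Lp_mul_Lq μ Real.HolderConjugate.two_two hf
    (aemeasurable_const : AEMeasurable (fun _ => (1 : ℝ≥0∞)) μ)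
  simp only [Pi.mul_apply, mul_one, ENNReal.one_rpow, lintegral_const, one_mul] at h
  have h2 : ∀ a, f a ^ (2 : ℝ) = f a ^ 2 := fun a => by
    rw [← ENNReal.rpow_natCast]
    norm_num
  simp only [h2] at h
  have h3 : ∀ b : ℝ≥0∞, (b ^ (1 / 2 : ℝ)) ^ 2 = b := fun b => by
    rw [← ENNReal.rpow_natCast, ← ENNReal.rpow_mul]
    norm_num
  calc (∫⁻ a, f a ∂μ) ^ 2 ≤ ((∫⁻ a, f a ^ 2 ∂μ) ^ (1 / 2 : ℝ) * (μ univ) ^ (1 / 2 : ℝ)) ^ 2 :=
        pow_le_pow_left' h 2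
    _ = μ univ * ∫⁻ a, f a ^ 2 ∂μ := by
        rw [mul_pow, h3, h3, mul_comm]

/-- Jensen for the cubes. -/
private theorem LowA_cube {α : Type*} [MeasurableSpace α] (ν : Measure α) {F G : α → ℝ≥0∞}
    (hF : AEMeasurable F ν) (B : ℝ≥0∞) (h1 : ∀ c, F c ≤ B * ν univ)
    (h2 : ∀ c, F c ^ 2 ≤ G c) :
    ((ν univ)⁻¹ * ∫⁻ c, F c ∂ν) ^ 3 ≤ B * ∫⁻ c, G c ∂ν := by
  by_cases h0 : ν univ = 0
  · have : ν = 0 := Measure.measure_univ_eq_zero.1 h0
    rw [this]
    simp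
  by_cases ht : ν univ = ⊤
  · rw [ht]
    simp
  have hY1 : (ν univ)⁻¹ * ∫⁻ c, F c ∂ν ≤ B * ν univ := by
    calc (ν univ)⁻¹ * ∫⁻ c, F c ∂ν ≤ (ν univ)⁻¹ * ∫⁻ _, B * ν univ ∂ν :=
          mul_le_mul' le_rfl (lintegral_mono h1)
      _ = B * ν univ * ((ν univ)⁻¹ * ν univ) := by
          rw [lintegral_const]
          ring
      _ = B * ν univ := by rw [ENNReal.inv_mul_cancel h0 ht, mul_one]
  have hY2 : ((ν univ)⁻¹ * ∫⁻ c, F c ∂ν) ^ 2 ≤ (ν univ)⁻¹ * ∫⁻ c, G c ∂ν := by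
    calc ((ν univ)⁻¹ * ∫⁻ c, F c ∂ν) ^ 2 = (ν univ)⁻¹ ^ 2 * (∫⁻ c, F c ∂ν) ^ 2 := mul_pow _ _ _
      _ ≤ (ν univ)⁻¹ ^ 2 * (ν univ * ∫⁻ c, F c ^ 2 ∂ν) := mul_le_mul' le_rfl (LowA_cs ν hF)
      _ ≤ (ν univ)⁻¹ ^ 2 * (ν univ * ∫⁻ c, G c ∂ν) :=
          mul_le_mul' le_rfl (mul_le_mul' le_rfl (lintegral_mono h2))
      _ = ((ν univ)⁻¹ * ν univ) * ((ν univ)⁻¹ * ∫⁻ c, G c ∂ν) := by ring
      _ = (ν univ)⁻¹ * ∫⁻ c, G c ∂ν := by rw [ENNReal.inv_mul_cancel h0 ht, one_mul]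
  calc ((ν univ)⁻¹ * ∫⁻ c, F c ∂ν) ^ 3 = ((ν univ)⁻¹ * ∫⁻ c, F c ∂ν) *
        ((ν univ)⁻¹ * ∫⁻ c, F c ∂ν) ^ 2 := by ring
    _ ≤ (B * ν univ) * ((ν univ)⁻¹ * ∫⁻ c, G c ∂ν) := mul_le_mul' hY1 hY2
    _ = (ν univ * (ν univ)⁻¹) * (B * ∫⁻ c, G c ∂ν) := by ring
    _ = B * ∫⁻ c, G c ∂ν := by rw [ENNReal.mul_inv_cancel h0 ht, one_mul]

private theorem LowA_vol (n : ℕ) :
    volume (Icc (-(sc n / 2)) (sc n / 2)) = ENNReal.ofReal (sc n) := by
  rw [Real.volume_Icc]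
  congr 1
  ring

/-- `Avr` is an average. -/
private theorem LowA_avr_le (n : ℕ) {F : ℝ → ℝ≥0∞} {t : ℝ} {A : ℝ≥0∞}
    (h : ∀ u : ℝ, |u| ≤ sc n / 2 → F (t + u) ≤ A) : Avr n F t ≤ A := by
  unfold Avr
  calc 2 ^ n * ∫⁻ r in Icc (-(sc n / 2)) (sc n / 2), F (t + r)
      ≤ 2 ^ n * ∫⁻ r in Icc (-(sc n / 2)) (sc n / 2), A :=
        mul_le_mul' le_rfl (setLIntegral_mono' measurableSet_Icc fun r hr => h r (abs_le.2 hr))
    _ = (2 ^ n * ENNReal.ofReal (sc n)) * A := by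
        rw [lintegral_const, Measure.restrict_apply_univ, LowA_vol]
        ring
    _ = A := by rw [LowA_two_sc, one_mul]

private theorem LowA_avr_sq (n : ℕ) {F : ℝ → ℝ≥0∞} (hF : Measurable F) (t : ℝ) :
    (Avr n F t) ^ 2 ≤ Avr n (fun s => F s ^ 2) t := by
  unfold Avr
  have h1 : AEMeasurable (fun r => F (t + r))
      (volume.restrict (Icc (-(sc n / 2)) (sc n / 2))) :=
    (hF.comp (measurable_const.add measurable_id)).aemeasurable
  have h2 := LowA_cs _ h1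
  rw [Measure.restrict_apply_univ, LowA_vol] at h2
  calc (2 ^ n * ∫⁻ r in Icc (-(sc n / 2)) (sc n / 2), F (t + r)) ^ 2
      = (2 ^ n) ^ 2 * (∫⁻ r in Icc (-(sc n / 2)) (sc n / 2), F (t + r)) ^ 2 := mul_pow _ _ _
    _ ≤ (2 ^ n) ^ 2 * (ENNReal.ofReal (sc n) *
          ∫⁻ r in Icc (-(sc n / 2)) (sc n / 2), F (t + r) ^ 2) := mul_le_mul' le_rfl h2
    _ = (2 ^ n * ENNReal.ofReal (sc n)) *
          (2 ^ n * ∫⁻ r in Icc (-(sc n / 2)) (sc n / 2), F (t + r) ^ 2) := by ring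
    _ = _ := by rw [LowA_two_sc, one_mul]

/-- Translation of the domain of integration. -/
private theorem LowA_shift {φ : ℝ → ℝ≥0∞} {a b a' b' t : ℝ} (ha : a' ≤ t + a) (hb : t + b ≤ b') :
    ∫⁻ s in Icc a b, φ (t + s) ≤ ∫⁻ s in Icc a' b', φ s := by
  have h1 := lintegral_add_left_eq_self (μ := volume) (fun s => (Icc a' b').indicator φ s) t
  rw [← lintegral_indicator measurableSet_Icc, ← lintegral_indicator measurableSet_Icc, ← h1]
  refine lintegral_mono fun s => ?_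
  by_cases hs : s ∈ Icc a b
  · rw [indicator_of_mem hs, indicator_of_mem]
    exact ⟨by linarith [hs.1], by linarith [hs.2]⟩
  · rw [indicator_of_notMem hs]
    exact zero_le

/-- The pointwise part of the expansion of the source measure. -/
private theorem LowA_term {k m n : ℕ} (hn1 : k ≤ n + 1) (hn2 : n ≤ max k m) (m' : ℕ)
    {p : ℝ → ℝ≥0∞} (hp : Measurable p) {X : ℝ → ℝ≥0∞} (hX : Measurable X)
    {t : ℝ} (ht : t ∈ Icc (1 : ℝ) 2) :
    (3 / 4 : ℝ≥0∞) ^ (k - m') * (∫⁻ s in Icc (-(3 / 4) : ℝ) (3 / 4),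
      Th (min k m') s * p (t + s)) * Avr n (fun s => X s ^ 2) t ≤
      4 * 2 ^ max k m * ∫⁻ t' in Icc (1 / 4 : ℝ) 3, ∫⁻ s in Icc (1 / 2 : ℝ) (5 / 2),
        Th (min k m') (t' - s) * p t' * X s ^ 2 := by
  have h34 : (3 / 4 : ℝ≥0∞) ^ (k - m') ≤ 1 := by
    refine pow_le_one' ?_ _
    rw [ENNReal.div_le_iff (by norm_num) (by norm_num), one_mul]
    norm_num
  have h2n : (2 : ℝ≥0∞) ^ n ≤ 2 ^ max k m := pow_le_pow_right₀ (by norm_num) hn2
  have hsc : sc n / 2 ≤ sc (min k m') := by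
    have h1 : sc k ≤ sc (min k m') := LowA_sc_anti (min_le_left _ _)
    refine le_trans ?_ h1
    rcases Nat.eq_zero_or_pos k with hk | hk
    · subst hk
      have h2 := LowA_sc_one n
      have h3 : sc 0 = 1 := by simp [sc]
      rw [h3]
      linarith
    · obtain ⟨k', rfl⟩ : ∃ k', k = k' + 1 := ⟨k - 1, by omega⟩
      have h2 : sc n ≤ sc k' := LowA_sc_anti (by omega)
      rw [LowA_sc_succ k'] at h2
      linarith
  have hT : Measurable (Th (min k m')) := measurable_Th _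
  have hfm : Measurable (fun s => Th (min k m') s * p (t + s)) :=
    hT.mul (hp.comp (measurable_const.add measurable_id))
  have hgm : Measurable (fun u => X (t + u) ^ 2) :=
    (hX.comp (measurable_const.add measurable_id)).pow_const 2
  have hn : |sc n / 2| = sc n / 2 := abs_of_pos (half_pos (LowA_sc_pos n))
  calc (3 / 4 : ℝ≥0∞) ^ (k - m') * (∫⁻ s in Icc (-(3 / 4) : ℝ) (3 / 4),
      Th (min k m') s * p (t + s)) * Avr n (fun s => X s ^ 2) t
      ≤ 1 * (∫⁻ s in Icc (-(3 / 4) : ℝ) (3 / 4),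
      Th (min k m') s * p (t + s)) * Avr n (fun s => X s ^ 2) t := by gcongr
    _ = 2 ^ n * ((∫⁻ s in Icc (-(3 / 4) : ℝ) (3 / 4), Th (min k m') s * p (t + s)) *
        ∫⁻ u in Icc (-(sc n / 2)) (sc n / 2), X (t + u) ^ 2) := by
        unfold Avr
        ring
    _ = 2 ^ n * ∫⁻ s in Icc (-(3 / 4) : ℝ) (3 / 4), ∫⁻ u in Icc (-(sc n / 2)) (sc n / 2),
        Th (min k m') s * p (t + s) * X (t + u) ^ 2 := by
        congr 1
        rw [← lintegral_mul_const _ hfm]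
        refine lintegral_congr fun s => ?_
        rw [lintegral_const_mul _ hgm]
    _ ≤ 2 ^ n * ∫⁻ s in Icc (-(3 / 4) : ℝ) (3 / 4), ∫⁻ u in Icc (-(sc n / 2)) (sc n / 2),
        4 * (Th (min k m') ((t + s) - (t + u)) * p (t + s) * X (t + u) ^ 2) := by
        refine mul_le_mul' le_rfl (lintegral_mono fun s => ?_)
        refine setLIntegral_mono' measurableSet_Icc fun u hu => ?_
        have h1 : Th (min k m') s ≤ 4 * Th (min k m') (s - u) :=
          Th_shift ((abs_le.2 hu).trans hsc)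
        have h2 : (t + s) - (t + u) = s - u := by ring
        rw [h2]
        calc Th (min k m') s * p (t + s) * X (t + u) ^ 2
            ≤ (4 * Th (min k m') (s - u)) * p (t + s) * X (t + u) ^ 2 := by gcongr
          _ = _ := by ring
    _ ≤ 2 ^ n * ∫⁻ s in Icc (-(3 / 4) : ℝ) (3 / 4), ∫⁻ u in Icc (1 / 2 : ℝ) (5 / 2),
        4 * (Th (min k m') ((t + s) - u) * p (t + s) * X u ^ 2) := by
        refine mul_le_mul' le_rfl (lintegral_mono fun s => ?_)
        refine LowA_shift (φ := fun u => 4 * (Th (min k m') ((t + s) - u) * p (t + s) * X u ^ 2))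
          ?_ ?_
        · linarith [ht.1, LowA_sc_one n]
        · linarith [ht.2, LowA_sc_one n]
    _ ≤ 2 ^ n * ∫⁻ t' in Icc (1 / 4 : ℝ) 3, ∫⁻ u in Icc (1 / 2 : ℝ) (5 / 2),
        4 * (Th (min k m') (t' - u) * p t' * X u ^ 2) := by
        refine mul_le_mul' le_rfl ?_
        refine LowA_shift (φ := fun t' => ∫⁻ u in Icc (1 / 2 : ℝ) (5 / 2),
          4 * (Th (min k m') (t' - u) * p t' * X u ^ 2)) ?_ ?_
        · linarith [ht.1]
        · linarith [ht.2]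
    _ = 2 ^ n * (4 * ∫⁻ t' in Icc (1 / 4 : ℝ) 3, ∫⁻ u in Icc (1 / 2 : ℝ) (5 / 2),
        Th (min k m') (t' - u) * p t' * X u ^ 2) := by
        congr 1
        rw [← lintegral_const_mul' _ _ (by norm_num)]
        refine lintegral_congr fun t' => ?_
        rw [← lintegral_const_mul' _ _ (by norm_num)]
    _ ≤ 2 ^ max k m * (4 * ∫⁻ t' in Icc (1 / 4 : ℝ) 3, ∫⁻ u in Icc (1 / 2 : ℝ) (5 / 2),
        Th (min k m') (t' - u) * p t' * X u ^ 2) := mul_le_mul' h2n le_rfl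
    _ = _ := by ring

/-- The expansion of the source measure. -/
private theorem LowA_expand (hd : 0 < d) {k m n : ℕ} (hn1 : k ≤ n + 1) (hn2 : n ≤ max k m)
    {P : ℕ → E d → ℝ≥0∞} (hP : ∀ m, Measurable (P m)) {X : E d → E d → ℝ → ℝ≥0∞}
    (hX : Measurable (fun z : E d × E d × ℝ => X z.1 z.2.1 z.2.2)) (x : E d) {t : ℝ}
    (ht : t ∈ Icc (1 : ℝ) 2) :
    ∫⁻ c : Sph d, Avr n (fun s => X c x s ^ 2) t ∂(piK P k x t) ≤
      4 * 2 ^ max k m * ∑' m', WW (min k m') (P m') X x := by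
  have hpr := sigma_prob hd
  have hm1 : ∀ m', Measurable (fun z : (Sph d × ℝ) × ℝ =>
      Th (min k m') (z.1.2 - z.2) * P m' (x - z.1.2 • (z.1.1 : E d)) *
        X (z.1.1 : E d) x z.2 ^ 2) := by
    intro m'
    refine Measurable.mul (Measurable.mul ?_ ?_) ?_
    · exact (measurable_Th _).comp (by fun_prop)
    · exact (hP m').comp (by fun_prop)
    · refine Measurable.pow_const ?_ 2
      exact hX.comp (f := fun z : (Sph d × ℝ) × ℝ => ((z.1.1 : E d), x, z.2)) (by fun_prop)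
  have hm2 : ∀ m', Measurable (fun z : Sph d × ℝ => ∫⁻ s in Icc (1 / 2 : ℝ) (5 / 2),
      Th (min k m') (z.2 - s) * P m' (x - z.2 • (z.1 : E d)) * X (z.1 : E d) x s ^ 2) :=
    fun m' => (hm1 m').lintegral_prod_right
  have hm3 : ∀ m', Measurable (fun c : Sph d => ∫⁻ t' in Icc (1 / 4 : ℝ) 3,
      ∫⁻ s in Icc (1 / 2 : ℝ) (5 / 2),
      Th (min k m') (t' - s) * P m' (x - t' • (c : E d)) * X (c : E d) x s ^ 2) :=
    fun m' => (hm2 m').lintegral_prod_right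
  -- the order of integration
  have hsw : ∀ m', ∫⁻ c : Sph d, (∫⁻ t' in Icc (1 / 4 : ℝ) 3, ∫⁻ s in Icc (1 / 2 : ℝ) (5 / 2),
      Th (min k m') (t' - s) * P m' (x - t' • (c : E d)) * X (c : E d) x s ^ 2) ∂(sigma d) =
      WW (min k m') (P m') X x := by
    intro m'
    unfold WW
    calc ∫⁻ c : Sph d, (∫⁻ t' in Icc (1 / 4 : ℝ) 3, ∫⁻ s in Icc (1 / 2 : ℝ) (5 / 2),
          Th (min k m') (t' - s) * P m' (x - t' • (c : E d)) * X (c : E d) x s ^ 2) ∂(sigma d)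
        = ∫⁻ t' in Icc (1 / 4 : ℝ) 3, ∫⁻ c : Sph d, (∫⁻ s in Icc (1 / 2 : ℝ) (5 / 2),
          Th (min k m') (t' - s) * P m' (x - t' • (c : E d)) * X (c : E d) x s ^ 2)
            ∂(sigma d) := lintegral_lintegral_swap (hm2 m').aemeasurable
      _ = ∫⁻ t' in Icc (1 / 4 : ℝ) 3, ∫⁻ s in Icc (1 / 2 : ℝ) (5 / 2), ∫⁻ c : Sph d,
          Th (min k m') (t' - s) * P m' (x - t' • (c : E d)) * X (c : E d) x s ^ 2
            ∂(sigma d) := by
          refine lintegral_congr fun t' => ?_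
          refine lintegral_lintegral_swap ?_
          exact ((hm1 m').comp (g := _) (f := fun z : Sph d × ℝ => ((z.1, t'), z.2))
            (by fun_prop)).aemeasurable
      _ = ∫⁻ s in Icc (1 / 2 : ℝ) (5 / 2), ∫⁻ t' in Icc (1 / 4 : ℝ) 3, ∫⁻ c : Sph d,
          Th (min k m') (t' - s) * P m' (x - t' • (c : E d)) * X (c : E d) x s ^ 2
            ∂(sigma d) := by
          refine lintegral_lintegral_swap ?_
          have h1 : Measurable (fun z : (ℝ × ℝ) × Sph d =>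
              Th (min k m') (z.1.1 - z.1.2) * P m' (x - z.1.1 • (z.2 : E d)) *
                X (z.2 : E d) x z.1.2 ^ 2) :=
            (hm1 m').comp (f := fun z : (ℝ × ℝ) × Sph d => ((z.2, z.1.1), z.1.2)) (by fun_prop)
          exact (h1.lintegral_prod_right (ν := sigma d)).aemeasurable
  calc ∫⁻ c : Sph d, Avr n (fun s => X c x s ^ 2) t ∂(piK P k x t)
      ≤ ∫⁻ c : Sph d, (pden P k x t * fun c : Sph d => Avr n (fun s => X c x s ^ 2) t) c
          ∂(sigma d) :=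
        lintegral_withDensity_le_lintegral_mul _ (measurable_pden k hP x t) _
    _ ≤ ∫⁻ c : Sph d, (∑' m', 4 * 2 ^ max k m * ∫⁻ t' in Icc (1 / 4 : ℝ) 3,
          ∫⁻ s in Icc (1 / 2 : ℝ) (5 / 2),
            Th (min k m') (t' - s) * P m' (x - t' • (c : E d)) * X (c : E d) x s ^ 2)
              ∂(sigma d) := by
        refine lintegral_mono fun c => ?_
        simp only [Pi.mul_apply, pden]
        rw [← ENNReal.tsum_mul_right]
        refine ENNReal.tsum_le_tsum fun m' => ?_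
        exact LowA_term hn1 hn2 m' (p := fun s => P m' (x - s • (c : E d)))
          ((hP m').comp (by fun_prop)) (X := fun s => X (c : E d) x s)
          (hX.comp (f := fun s : ℝ => ((c : E d), x, s)) (by fun_prop)) ht
    _ = ∑' m', 4 * 2 ^ max k m * ∫⁻ c : Sph d, (∫⁻ t' in Icc (1 / 4 : ℝ) 3,
          ∫⁻ s in Icc (1 / 2 : ℝ) (5 / 2),
            Th (min k m') (t' - s) * P m' (x - t' • (c : E d)) * X (c : E d) x s ^ 2)
              ∂(sigma d) := by
        rw [lintegral_tsum fun m' => ((hm3 m').const_mul _).aemeasurable]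
        refine tsum_congr fun m' => ?_
        rw [lintegral_const_mul _ (hm3 m')]
    _ = _ := by
        rw [ENNReal.tsum_mul_left]
        congr 1
        exact tsum_congr fun m' => hsw m'

theorem low (hd : 2 ≤ d) {S : E d → ℝ} (hS : IsKer S) (hF : FB S) : ∃ C : ℝ≥0,
    ∀ (k m n j : ℕ), 1 ≤ m → n ∈ RR k m → j ≤ 2 → ∀ P : ℕ → E d → ℝ≥0∞,
      (∀ m, Measurable (P m)) → ∀ (r : ℝ) (q : E d → ℝ), Bdd r q → ∀ θ : ℝ≥0∞, θ ≠ 0 → θ ≠ ⊤ →
        (∀ y, θ * fat m q y ≤ P m y) → ∃ W : E d → ℝ≥0∞, Measurable W ∧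
          (∀ x, ∀ t ∈ Icc (1 : ℝ) 2, ((piK P k x t univ)⁻¹ * ∫⁻ c : Sph d,
            Avr n (fun s => XX S m j q c x s) t ∂(piK P k x t)) ^ 3 ≤ W x) ∧
          ∫⁻ x, W x ≤ C * (KK k m * θ⁻¹ * 2 ^ max k m * (∑' m', ∫⁻ y, P m' y) *
            (ENNReal.ofReal (sc m ^ (d - 1)) * ∫⁻ y, ‖q y‖ₑ ^ 2)) := by
  have hd0 : 0 < d := by omega
  have hpr := sigma_prob hd0
  obtain ⟨C1, hC1⟩ := XX_le hd0 hS
  obtain ⟨C2, hC2⟩ := cone_piece hd hS hF
  obtain ⟨C3, hC3⟩ := tri (d := d) hd0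
  refine ⟨32 * C1 * 4 * C3 * C2, ?_⟩
  intro k m n j hm hn hj P hP r q hq θ hθ0 hθt hθ
  have hn1 : k ≤ n + 1 := by
    simp only [RR, Finset.mem_insert, Finset.mem_singleton] at hn
    rcases hn with h | h | h
    · omega
    · omega
    · have := le_max_left k m
      omega
  have hn2 : n ≤ max k m := by
    simp only [RR, Finset.mem_insert, Finset.mem_singleton] at hn
    have := le_max_left k m
    rcases hn with h | h | h <;> omega
  have hXm := measurable_XX hd0 hS m j hq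
  set X : E d → E d → ℝ → ℝ≥0∞ := fun c x s => XX S m j q c x s with hXdef
  have hXm' : Measurable (fun z : E d × E d × ℝ => X z.1 z.2.1 z.2.2) := hXm
  set B : ℝ≥0∞ := 32 * C1 * (KK k m * θ⁻¹) with hB
  refine ⟨fun x => B * (4 * 2 ^ max k m) * ∑' m', WW (min k m') (P m') X x, ?_, ?_, ?_⟩
  · refine Measurable.const_mul ?_ _
    exact Measurable.ennreal_tsum fun m' => measurable_WW hd0 _ (hP m') hXm'
  · intro x t ht
    have hXc : ∀ c : Sph d, Measurable (fun s : ℝ => X (c : E d) x s) := fun c =>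
      hXm'.comp (f := fun s : ℝ => ((c : E d), x, s)) (by fun_prop)
    have h1 : ∀ c : Sph d, Avr n (fun s => X (c : E d) x s) t ≤ B * piK P k x t univ := by
      intro c
      refine LowA_avr_le n fun u hu => ?_
      calc X (c : E d) x (t + u)
          ≤ C1 * ∫⁻ w : Sph d, ‖(w : E d) - c‖ₑ * nm m q x (t + u) w ∂(sigma d) :=
            hC1 m hm j hj r q hq c x (t + u)
        _ ≤ C1 * ∫⁻ w : Sph d, 2 * nm m q x (t + u) w ∂(sigma d) := by
            refine mul_le_mul' le_rfl (lintegral_mono fun w => mul_le_mul' ?_ le_rfl)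
            have h2 : ‖(w : E d) - c‖ ≤ 2 := by
              have h3 := norm_sub_le (w : E d) (c : E d)
              rw [norm_eq_of_mem_sphere w, norm_eq_of_mem_sphere c] at h3
              linarith
            rw [← ofReal_norm_eq_enorm]
            calc ENNReal.ofReal ‖(w : E d) - c‖ ≤ ENNReal.ofReal 2 :=
                  ENNReal.ofReal_le_ofReal h2
              _ = 2 := by simp
        _ = 2 * C1 * ∫⁻ w : Sph d, nm m q x (t + u) w ∂(sigma d) := by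
            rw [lintegral_const_mul' _ _ (by norm_num)]
            ring
        _ ≤ 2 * C1 * (16 * KK k m * θ⁻¹ * piK P k x t univ) :=
            mul_le_mul' le_rfl (mass_le hd0 k m n hm hn hP hq.meas hθ0 hθt hθ x t hu)
        _ = B * piK P k x t univ := by
            rw [hB]
            ring
    have h2 : ∀ c : Sph d, Avr n (fun s => X (c : E d) x s) t ^ 2 ≤
        Avr n (fun s => X (c : E d) x s ^ 2) t := fun c => LowA_avr_sq n (hXc c) t
    have hFm : Measurable (fun c : Sph d => Avr n (fun s => X (c : E d) x s) t) := by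
      unfold Avr
      refine Measurable.const_mul ?_ _
      have h3 : Measurable (fun z : Sph d × ℝ => X (z.1 : E d) x (t + z.2)) :=
        hXm'.comp (f := fun z : Sph d × ℝ => ((z.1 : E d), x, t + z.2)) (by fun_prop)
      exact h3.lintegral_prod_right
    calc ((piK P k x t univ)⁻¹ * ∫⁻ c : Sph d, Avr n (fun s => X (c : E d) x s) t
          ∂(piK P k x t)) ^ 3
        ≤ B * ∫⁻ c : Sph d, Avr n (fun s => X (c : E d) x s ^ 2) t ∂(piK P k x t) :=
          LowA_cube _ hFm.aemeasurable B h1 h2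
      _ ≤ B * (4 * 2 ^ max k m * ∑' m', WW (min k m') (P m') X x) :=
          mul_le_mul' le_rfl (LowA_expand hd0 hn1 hn2 hP hXm' x ht)
      _ = _ := by ring
  · have hWm : Measurable (fun x => ∑' m', WW (min k m') (P m') X x) :=
      Measurable.ennreal_tsum fun m' => measurable_WW hd0 _ (hP m') hXm'
    rw [lintegral_const_mul _ hWm, lintegral_tsum fun m' =>
      (measurable_WW hd0 _ (hP m') hXm').aemeasurable]
    have h1 : ∀ m', ∫⁻ x, WW (min k m') (P m') X x ≤ C3 * (∫⁻ y, P m' y) *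
        (C2 * ENNReal.ofReal (sc m ^ (d - 1)) * ∫⁻ y, ‖q y‖ₑ ^ 2) := fun m' =>
      hC3 (min k m') (P m') X _ (hP m') hXm' (fun b τ => hC2 m r q hq j hj b τ)
    calc B * (4 * 2 ^ max k m) * ∑' m', ∫⁻ x, WW (min k m') (P m') X x
        ≤ B * (4 * 2 ^ max k m) * ∑' m', C3 * (∫⁻ y, P m' y) *
          (C2 * ENNReal.ofReal (sc m ^ (d - 1)) * ∫⁻ y, ‖q y‖ₑ ^ 2) :=
          mul_le_mul' le_rfl (ENNReal.tsum_le_tsum h1)
      _ = B * (4 * 2 ^ max k m) * (C3 * (∑' m', ∫⁻ y, P m' y) *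
          (C2 * ENNReal.ofReal (sc m ^ (d - 1)) * ∫⁻ y, ‖q y‖ₑ ^ 2)) := by
          rw [ENNReal.tsum_mul_right, ENNReal.tsum_mul_left]
      _ = _ := by
          rw [hB]
          push_cast
          ring

end Pool.Agent.Lib.MP_ff3fe0_an_SPH
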