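import Pool.Agent.Lib.MP_ff3fe0_an_SPH.RadA

set_option autoImplicit false

/-!
# The gradient of the spherical maximal function of a test function
-/

namespace Pool.Agent.Lib.MP_ff3fe0_an_SPH

open MeasureTheory Metric Set
open scoped ENNReal NNReal ContDiff FourierTransform
open Pool.Agent.Lib.MP_ff3fe0_an

variable {d : ℕ}

private theorem rad_int (hd : 0 < d) {g : E d → ℝ} (hg : Continuous g) (t : ℝ) (x : E d) :
    Integrable (fun w : Sph d => g (x - t • (w : E d))) (sigma d) := by
  have := sigma_prob hd
  have hcont : Continuous (fun w : Sph d => g (x - t • (w : E d))) := by fun_prop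
  exact hcont.integrable_of_hasCompactSupport (HasCompactSupport.of_compactSpace _)

private theorem rad_lip (hd : 0 < d) {g : E d → ℝ} {C : ℝ≥0} (hg : LipschitzWith C g) (t : ℝ)
    (x y : E d) : sm g t x ≤ sm g t y + C * dist x y := by
  have := sigma_prob hd
  have h1 : sm g t x ≤ ∫ w : Sph d, (g (y - t • (w : E d)) + C * dist x y) ∂(sigma d) := by
    apply integral_mono (rad_int hd hg.continuous t x)
      ((rad_int hd hg.continuous t y).add (integrable_const _))
    intro w
    show g (x - t • (w : E d)) ≤ g (y - t • (w : E d)) + C * dist x y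
    have h2 := hg.dist_le_mul (x - t • (w : E d)) (y - t • (w : E d))
    rw [dist_sub_right, Real.dist_eq] at h2
    have h3 := le_abs_self (g (x - t • (w : E d)) - g (y - t • (w : E d)))
    linarith
  rw [integral_add (rad_int hd hg.continuous t y) (integrable_const _), integral_const,
    probReal_univ, one_smul] at h1
  exact h1

private theorem rad_zero (hd : 0 < d) (g : E d → ℝ) (x : E d) : sm g 0 x = g x := by
  have := sigma_prob hd
  unfold sm
  simp only [zero_smul, sub_zero, integral_const, probReal_univ, one_smul]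

private theorem rad_nonneg {g : E d → ℝ} (h0 : ∀ x, 0 ≤ g x) (t : ℝ) (x : E d) :
    0 ≤ sm g t x := integral_nonneg fun _ => h0 _

private theorem rad_far {g : E d → ℝ} {R : ℝ} (hR : ∀ y, R < ‖y‖ → g y = 0) {t : ℝ} {x : E d}
    (ht : R + ‖x‖ < t) : sm g t x = 0 := by
  unfold sm
  have h1 : ∀ w : Sph d, g (x - t • (w : E d)) = 0 := by
    intro w
    apply hR
    have hw : ‖(w : E d)‖ = 1 := by
      have := w.2
      rwa [mem_sphere_zero_iff_norm] at this
    have h2 : ‖t • (w : E d)‖ ≤ ‖x‖ + ‖x - t • (w : E d)‖ := by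
      have h3 : t • (w : E d) = x - (x - t • (w : E d)) := by abel
      calc ‖t • (w : E d)‖ = ‖x - (x - t • (w : E d))‖ := by rw [← h3]
        _ ≤ ‖x‖ + ‖x - t • (w : E d)‖ := norm_sub_le _ _
    rw [norm_smul, hw, mul_one, Real.norm_eq_abs] at h2
    have h4 := le_abs_self t
    linarith
  simp only [h1, integral_zero]

private theorem rad_grad {M s : E d → ℝ} {x : E d} (hM : DifferentiableAt ℝ M x)
    (hs : DifferentiableAt ℝ s x) (hle : ∀ y, s y ≤ M y) (heq : M x = s x) :
    gradient M x = gradient s x := by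
  have h1 : IsLocalMin (fun y => M y - s y) x := by
    apply Filter.Eventually.of_forall
    intro y
    show M x - s x ≤ M y - s y
    have := hle y
    rw [heq]
    linarith
  have h2 := h1.fderiv_eq_zero
  have h3 : fderiv ℝ (fun y => M y - s y) x = fderiv ℝ M x - fderiv ℝ s x := fderiv_fun_sub hM hs
  rw [h3, sub_eq_zero] at h2
  unfold gradient
  rw [h2]

private theorem rad_coord (f : E d → ℝ) (x : E d) (i : Fin d) :
    gradient f x i = fderiv ℝ f x (EuclideanSpace.single i 1) := by
  have h1 : inner ℝ (gradient f x) (EuclideanSpace.single i (1 : ℝ)) =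
      fderiv ℝ f x (EuclideanSpace.single i 1) := by
    unfold gradient
    rw [InnerProductSpace.toDual_symm_apply]
  rw [← h1, EuclideanSpace.inner_single_right]
  simp

theorem rad (hd : 0 < d) {g : E d → ℝ} (hg : ContDiff ℝ ∞ g) (hc : HasCompactSupport g)
    (h0 : ∀ x, 0 ≤ g x) : ∃ G : E d → E d, Measurable G ∧
      IsWeakGradient (fun x => (sphMax g x).toReal) G ∧
      ∀ᵐ x, ‖G x‖ ≤ ‖gradient g x‖ ∨
        ∃ t, 0 < t ∧ (∀ s, 0 < s → sm g s x ≤ sm g t x) ∧ G x = gradient (sm g t) x := by
  obtain ⟨C, hC⟩ := ContDiff.lipschitzWith_of_hasCompactSupport hc hg (by simp)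
  obtain ⟨R, hR⟩ : ∃ R : ℝ, ∀ y, R < ‖y‖ → g y = 0 := by
    obtain ⟨R, hR⟩ := hc.isCompact.isBounded.subset_closedBall (0 : E d)
    refine ⟨R, fun y hy => ?_⟩
    by_contra hne
    have h1 : y ∈ tsupport g := subset_tsupport g hne
    have h2 := hR h1
    rw [mem_closedBall_zero_iff] at h2
    linarith
  set M : E d → ℝ := fun x => (sphMax g x).toReal with hMdef
  have hlub : ∀ x, IsLUB ((fun t => sm g t x) '' Ioi 0) (M x) := fun x =>
    (sphMax_eq hd hg hc h0 x).2
  have hub : ∀ x t, 0 < t → sm g t x ≤ M x := fun x t ht =>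
    (hlub x).1 (mem_image_of_mem _ ht)
  have hML : LipschitzWith C M := by
    apply LipschitzWith.of_le_add_mul
    intro x y
    apply (hlub x).2
    rintro _ ⟨t, ht, rfl⟩
    have h1 := rad_lip hd hC t x y
    have h2 := hub y t ht
    show sm g t x ≤ M y + C * dist x y
    linarith
  have hgM : ∀ x, g x ≤ M x := by
    intro x
    have hcl : IsClosed {t : ℝ | sm g t x ≤ M x} :=
      isClosed_le (sm_contDiff_t hd hg x).continuous continuous_const
    have h1 : Ioi (0 : ℝ) ⊆ {t : ℝ | sm g t x ≤ M x} := fun t ht => hub x t ht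
    have h2 := hcl.closure_subset_iff.2 h1
    rw [closure_Ioi] at h2
    have h3 : sm g 0 x ≤ M x := h2 (mem_Ici.2 le_rfl)
    rwa [rad_zero hd] at h3
  have hMcont : Continuous M := hML.continuous
  have hmeas : Measurable (gradient M) := by
    have h1 : Measurable (fun x => fderiv ℝ M x) := measurable_fderiv ℝ M
    exact ((InnerProductSpace.toDual ℝ (E d)).symm.continuous.measurable).comp h1
  have hbdd : ∀ x, ‖gradient M x‖ ≤ C := by
    intro x
    unfold gradient
    rw [LinearIsometryEquiv.norm_map]
    exact norm_fderiv_le_of_lipschitz ℝ hML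
  refine ⟨gradient M, hmeas, ⟨hMcont.locallyIntegrable, ?_, ?_⟩, ?_⟩
  · have h1 : LocallyIntegrable (fun _ : E d => (C : ℝ)) volume := locallyIntegrable_const _
    apply h1.mono hmeas.aestronglyMeasurable
    filter_upwards with x
    exact (hbdd x).trans (Real.le_norm_self _)
  · intro φ hφ hφc i
    obtain ⟨D, hD⟩ := ContDiff.lipschitzWith_of_hasCompactSupport hφc hφ (by simp)
    have h1 := LipschitzWith.integral_lineDeriv_mul_eq (μ := (volume : Measure (E d))) hML hD hφc
      (EuclideanSpace.single i (1 : ℝ))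
    have h2 : ∫ x, lineDeriv ℝ M x (EuclideanSpace.single i (1 : ℝ)) * φ x =
        ∫ x, gradient M x i * φ x := by
      apply integral_congr_ae
      filter_upwards [hML.ae_differentiableAt (μ := volume)] with x hx
      show lineDeriv ℝ M x (EuclideanSpace.single i (1 : ℝ)) * φ x = gradient M x i * φ x
      rw [hx.lineDeriv_eq_fderiv, rad_coord]
    have h3 : ∫ x, lineDeriv ℝ φ x (-(EuclideanSpace.single i (1 : ℝ))) * M x =
        - ∫ x, M x * fderiv ℝ φ x (EuclideanSpace.single i 1) := by
      rw [← integral_neg]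
      apply integral_congr_ae
      filter_upwards with x
      have hdx : DifferentiableAt ℝ φ x := (hφ.differentiable (by simp)) x
      rw [hdx.lineDeriv_eq_fderiv, map_neg]
      ring
    rw [h2, h3] at h1
    rw [h1, neg_neg]
  · filter_upwards [hML.ae_differentiableAt (μ := volume)] with x hx
    have hcx : Continuous (fun t => sm g t x) := (sm_contDiff_t hd hg x).continuous
    set T : ℝ := |R| + ‖x‖ + 1 with hT
    have hT0 : 0 ≤ T := by positivity
    obtain ⟨t0, ht0, hmax⟩ := (isCompact_Icc (a := (0 : ℝ)) (b := T)).exists_isMaxOn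
      ⟨0, left_mem_Icc.2 hT0⟩ hcx.continuousOn
    have hall : ∀ s, 0 < s → sm g s x ≤ sm g t0 x := by
      intro s hs
      rcases le_or_gt s T with hsT | hsT
      · exact hmax ⟨hs.le, hsT⟩
      · have h1 : sm g s x = 0 := by
          apply rad_far hR
          have := le_abs_self R
          linarith
        rw [h1]
        exact rad_nonneg h0 _ _
    have hMle : M x ≤ sm g t0 x := by
      apply (hlub x).2
      rintro _ ⟨s, hs, rfl⟩
      exact hall s hs
    rcases eq_or_lt_of_le ht0.1 with h | h
    · left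
      rw [← h, rad_zero hd] at hMle
      have heq : M x = g x := le_antisymm hMle (hgM x)
      have hdx : DifferentiableAt ℝ g x := (hg.differentiable (by simp)) x
      rw [rad_grad hx hdx hgM heq]
    · right
      refine ⟨t0, h, hall, ?_⟩
      have heq : M x = sm g t0 x := le_antisymm hMle (hub x t0 h)
      have hdx : DifferentiableAt ℝ (sm g t0) x :=
        ((sm_contDiff_x hd hg t0).differentiable (by simp)) x
      exact rad_grad hx hdx (fun y => hub y t0 h) heq

end Pool.Agent.Lib.MP_ff3fe0_an_SPH
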