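import Pool.Agent.Lib.MP_ff3fe0_an_SPH.IntA
import Pool.Agent.Lib.MP_ff3fe0_an_SPH.WTA
import Pool.Agent.Lib.MP_ff3fe0_an_SPH.KerC

set_option autoImplicit false

/-!
# The strong estimate for test functions
-/

namespace Pool.Agent.Lib.MP_ff3fe0_an_SPH

open MeasureTheory Metric Set
open scoped ENNReal NNReal ContDiff FourierTransform
open Pool.Agent.Lib.MP_ff3fe0_an

variable {d : ℕ}

/-- The gradient bound for nonnegative test functions. -/
theorem smooth_bound (hd : 3 ≤ d) {p : ℝ} (hp : (2 * (d : ℝ) - 1) / (2 * d - 2) < p)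
    (hp2 : p < 2) : ∃ C : ℝ≥0, ∀ g : E d → ℝ, ContDiff ℝ ∞ g → HasCompactSupport g →
      (∀ x, 0 ≤ g x) → ∃ G : E d → E d, IsWeakGradient (fun x => (sphMax g x).toReal) G ∧
        ∫⁻ x, ‖G x‖ₑ ^ p ≤ C * ∫⁻ x, ‖gradient g x‖ₑ ^ p := by
  have hd0 : 0 < d := by omega
  have hdR : (3 : ℝ) ≤ d := by exact_mod_cast hd
  have h32 : (2 * (d : ℝ) - 1) / (2 * d - 2) < 3 / 2 := by
    rw [div_lt_div_iff₀ (by linarith) (by norm_num)]
    linarith
  have h1 : 1 < (2 * (d : ℝ) - 1) / (2 * d - 2) := by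
    rw [lt_div_iff₀ (by linarith)]
    linarith
  obtain ⟨p₁, hp₁, hp₁'⟩ := exists_between (lt_min hp h32)
  have hp₁p : p₁ < p := hp₁'.trans_le (min_le_left _ _)
  have hp₁3 : p₁ < 3 / 2 := hp₁'.trans_le (min_le_right _ _)
  obtain ⟨C, hC, hw⟩ := weak_est hd hp₁ hp₁3
  obtain ⟨C', hC'⟩ := interpol hd0 (by linarith : 1 ≤ p₁) hp₁p hp2 C hC
  refine ⟨C', fun g hg hgc h0 => ?_⟩
  obtain ⟨G, hGm, hGw, hGa⟩ := rad hd0 hg hgc h0
  have hHc : Continuous (gradient g) := by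
    have : Continuous (fderiv ℝ g) := hg.continuous_fderiv (by simp)
    exact (InnerProductSpace.toDual ℝ (E d)).symm.continuous.comp this
  have hHs : HasCompactSupport (gradient g) := by
    have h1 : HasCompactSupport (fderiv ℝ g) := hgc.fderiv (𝕜 := ℝ)
    exact h1.comp_left (g := (InnerProductSpace.toDual ℝ (E d)).symm) (map_zero _)
  exact ⟨G, hGw, hC' G (gradient g) hGm hHc hHs (hw g G hg hgc hGa)⟩

end Pool.Agent.Lib.MP_ff3fe0_an_SPH
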