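import Pool.Agent.Lib.MP_ff3fe0_an_SPH.SigA
import Pool.Agent.Lib.MP_ff3fe0_an_SPH.HlA

set_option autoImplicit false

/-!
# A pointwise bound for the spherical maximal function
-/

namespace Pool.Agent.Lib.MP_ff3fe0_an_SPH

open MeasureTheory Metric Set
open scoped ENNReal NNReal ContDiff FourierTransform
open Pool.Agent.Lib.MP_ff3fe0_an

variable {d : ℕ}

/-- the spherical average of a nonnegative function -/
private noncomputable def maxS_A (F : E d → ℝ≥0∞) (t : ℝ) (x : E d) : ℝ≥0∞ :=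
  ∫⁻ y : Sph d, F (x - t • (y : E d)) ∂(sigma d)

private theorem maxS_norm_gradient (w : E d → ℝ) (z : E d) :
    ‖gradient w z‖ = ‖fderiv ℝ w z‖ := by
  rw [gradient, LinearIsometryEquiv.norm_map]

private theorem maxS_cont_gradient {w : E d → ℝ} (hw : ContDiff ℝ 1 w) :
    Continuous (gradient w) := by
  have h1 : Continuous (fderiv ℝ w) := hw.continuous_fderiv one_ne_zero
  exact (LinearIsometryEquiv.continuous _).comp h1

private theorem maxS_ftc {w : E d → ℝ} (hw : ContDiff ℝ 1 w) (x : E d) (y : Sph d) {a b : ℝ}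
    (hab : a ≤ b) : ‖w (x - b • (y : E d)) - w (x - a • (y : E d))‖ₑ ≤
      ∫⁻ u in Ioc a b, ‖gradient w (x - u • (y : E d))‖ₑ := by
  have hd1 : ∀ u : ℝ, HasDerivAt (fun u : ℝ => w (x - u • (y : E d)))
      (fderiv ℝ w (x - u • (y : E d)) (-(y : E d))) u := by
    intro u
    have h1 : HasDerivAt (fun u : ℝ => x - u • (y : E d)) (-(y : E d)) u := by
      have h2 := ((hasDerivAt_id u).smul_const (y : E d)).const_sub x
      simpa using h2
    have h3 : HasFDerivAt w (fderiv ℝ w (x - u • (y : E d))) (x - u • (y : E d)) :=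
      ((hw.differentiable one_ne_zero) _).hasFDerivAt
    exact h3.comp_hasDerivAt u h1
  have hc : Continuous fun u : ℝ => fderiv ℝ w (x - u • (y : E d)) (-(y : E d)) := by
    have h1 : Continuous fun u : ℝ => fderiv ℝ w (x - u • (y : E d)) :=
      (hw.continuous_fderiv one_ne_zero).comp (by fun_prop)
    exact h1.clm_apply continuous_const
  have hI := intervalIntegral.integral_eq_sub_of_hasDerivAt (a := a) (b := b)
    (fun u _ => hd1 u) (hc.intervalIntegrable _ _)
  rw [← hI, intervalIntegral.integral_of_le hab]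
  refine (enorm_integral_le_lintegral_enorm _).trans ?_
  refine lintegral_mono fun u => ?_
  rw [← ofReal_norm, ← ofReal_norm]
  apply ENNReal.ofReal_le_ofReal
  rw [maxS_norm_gradient]
  refine (ContinuousLinearMap.le_opNorm _ _).trans ?_
  rw [norm_neg, norm_eq_of_mem_sphere y, mul_one]

private theorem maxS_meas {F : E d → ℝ≥0∞} (hF : Measurable F) (x : E d) :
    Measurable fun p : ℝ × Sph d => F (x - p.1 • (p.2 : E d)) := by
  apply hF.comp
  fun_prop

private theorem maxS_measA (hd : 0 < d) {F : E d → ℝ≥0∞} (hF : Measurable F) (x : E d) :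
    Measurable fun u : ℝ => maxS_A F u x := by
  have := sigma_prob hd
  exact (maxS_meas hF x).lintegral_prod_right'

private theorem maxS_swap (hd : 0 < d) {F : E d → ℝ≥0∞} (hF : Measurable F) (x : E d)
    (s : Set ℝ) :
    ∫⁻ y : Sph d, (∫⁻ u in s, F (x - u • (y : E d))) ∂(sigma d) =
      ∫⁻ u in s, maxS_A F u x := by
  have := sigma_prob hd
  unfold maxS_A
  rw [lintegral_lintegral_swap]
  exact ((maxS_meas hF x).comp measurable_swap).aemeasurable

/-- polar coordinates around `x` -/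
private theorem maxS_polar (hd : 0 < d) {F ψ : E d → ℝ≥0∞} (hF : Measurable F)
    (hψ : Measurable ψ) (x : E d) :
    (d * volume (ball (0 : E d) 1)) * ∫⁻ r in Ioi (0 : ℝ),
      ENNReal.ofReal (r ^ (d - 1)) * ∫⁻ y : Sph d, F (x - r • (y : E d)) *
        ψ (r • (y : E d)) ∂(sigma d) = ∫⁻ z, F (x - z) * ψ z := by
  have hm : Measurable fun z : E d => F (x - z) * ψ z :=
    (hF.comp (measurable_const.sub measurable_id)).mul hψ
  exact (lintegral_polar hd _ hm).symm

private theorem maxS_near_aux (hd : 0 < d) {F : E d → ℝ≥0∞} (hF : Measurable F) (x : E d)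
    {t : ℝ} (ht : 0 < t) :
    (d * volume (ball (0 : E d) 1)) * (ENNReal.ofReal ((t / 2) ^ (d - 1)) *
      ∫⁻ u in Ioc (t / 2) t, maxS_A F u x) ≤ ∫⁻ z in closedBall x t, F z := by
  have h1 : ∫⁻ z in closedBall x t, F z =
      ∫⁻ z, F (x - z) * (closedBall (0 : E d) t).indicator 1 z := by
    rw [← lintegral_indicator measurableSet_closedBall,
      ← lintegral_sub_left_eq_self (fun y => (closedBall x t).indicator F y) x]
    refine lintegral_congr fun z => ?_
    by_cases hz : z ∈ closedBall (0 : E d) t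
    · rw [indicator_of_mem hz, indicator_of_mem]
      · simp
      · rw [mem_closedBall, dist_eq_norm, sub_sub_cancel_left, norm_neg]
        rwa [mem_closedBall, dist_zero_right] at hz
    · rw [indicator_of_notMem hz, indicator_of_notMem]
      · simp
      · rw [mem_closedBall, dist_eq_norm, sub_sub_cancel_left, norm_neg]
        rwa [mem_closedBall, dist_zero_right] at hz
  have hind : Measurable ((closedBall (0 : E d) t).indicator (1 : E d → ℝ≥0∞)) :=
    measurable_one.indicator measurableSet_closedBall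
  rw [h1, ← maxS_polar hd hF hind x]
  refine mul_le_mul' le_rfl ?_
  rw [← lintegral_const_mul _ (maxS_measA hd hF x)]
  have hsub : Ioc (t / 2) t ⊆ Ioi (0 : ℝ) := fun r hr => by
    rw [mem_Ioi]
    linarith [hr.1]
  refine le_trans ?_ (lintegral_mono_set hsub)
  refine setLIntegral_mono' measurableSet_Ioc fun r hr => ?_
  have hr0 : 0 < r := by linarith [hr.1]
  refine mul_le_mul' (ENNReal.ofReal_le_ofReal (pow_le_pow_left₀ (by positivity) hr.1.le _)) ?_
  unfold maxS_A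
  refine lintegral_mono fun y => ?_
  rw [indicator_of_mem]
  · simp
  · rw [mem_closedBall, dist_zero_right, norm_smul, Real.norm_of_nonneg hr0.le,
      norm_eq_of_mem_sphere y, mul_one]
    exact hr.2

private theorem maxS_near (hd : 0 < d) : ∃ C : ℝ≥0, ∀ w : E d → ℝ,
    ContDiff ℝ 1 w → ∀ x, ∀ t : ℝ, 0 < t → t ≤ 1 → maxS_A (fun z => ‖w z‖ₑ) t x ≤
      C * (hlm w x + hlm (gradient w) x) := by
  obtain ⟨C, hC⟩ := hl_ball (d := d) hd
  have hd0 : (d : ℝ≥0∞) ≠ 0 := by
    simp only [ne_eq, Nat.cast_eq_zero]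
    omega
  have hb0 : volume (ball (0 : E d) 1) ≠ 0 := (measure_ball_pos _ _ one_pos).ne'
  have hbt : volume (ball (0 : E d) 1) ≠ ⊤ := measure_ball_lt_top.ne
  set κ : ℝ≥0∞ := d * volume (ball (0 : E d) 1) with hκ
  have hκ0 : κ ≠ 0 := mul_ne_zero hd0 hb0
  have hκt : κ ≠ ⊤ := ENNReal.mul_ne_top (by simp) hbt
  have hpr := sigma_prob hd
  refine ⟨κ⁻¹.toNNReal * C * 2 ^ d, fun w hw x t ht ht1 => ?_⟩
  have hFw : Measurable fun z => ‖w z‖ₑ := hw.continuous.measurable.enorm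
  have hFg : Measurable fun z => ‖gradient w z‖ₑ := (maxS_cont_gradient hw).measurable.enorm
  -- averaging over the radius
  have h1 : ENNReal.ofReal (t / 2) * maxS_A (fun z => ‖w z‖ₑ) t x ≤
      (∫⁻ u in Ioc (t / 2) t, maxS_A (fun z => ‖w z‖ₑ) u x) +
      ENNReal.ofReal (t / 2) * ∫⁻ u in Ioc (t / 2) t, maxS_A (fun z => ‖gradient w z‖ₑ) u x := by
    have h2 : ∀ s ∈ Ioc (t / 2) t, maxS_A (fun z => ‖w z‖ₑ) t x ≤
        maxS_A (fun z => ‖w z‖ₑ) s x +
          ∫⁻ u in Ioc (t / 2) t, maxS_A (fun z => ‖gradient w z‖ₑ) u x := by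
      intro s hs
      rw [← maxS_swap hd hFg x (Ioc (t / 2) t)]
      unfold maxS_A
      rw [← lintegral_add_left]
      · refine lintegral_mono fun y => ?_
        have h3 := maxS_ftc hw x y hs.2
        have h4 : ‖w (x - t • (y : E d))‖ₑ ≤ ‖w (x - s • (y : E d))‖ₑ +
            ‖w (x - t • (y : E d)) - w (x - s • (y : E d))‖ₑ := by
          have h5 := enorm_add_le (w (x - s • (y : E d)))
            (w (x - t • (y : E d)) - w (x - s • (y : E d)))
          rwa [add_sub_cancel] at h5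
        refine h4.trans (add_le_add le_rfl (h3.trans ?_))
        exact lintegral_mono_set (Ioc_subset_Ioc_left hs.1.le)
      · exact hFw.comp (by fun_prop)
    have h3 : ∫⁻ s in Ioc (t / 2) t, maxS_A (fun z => ‖w z‖ₑ) t x ≤
        ∫⁻ s in Ioc (t / 2) t, (maxS_A (fun z => ‖w z‖ₑ) s x +
          ∫⁻ u in Ioc (t / 2) t, maxS_A (fun z => ‖gradient w z‖ₑ) u x) :=
      setLIntegral_mono' measurableSet_Ioc h2
    rw [lintegral_add_left (maxS_measA hd hFw x), lintegral_const, lintegral_const,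
      Measure.restrict_apply MeasurableSet.univ, univ_inter, Real.volume_Ioc,
      show t - t / 2 = t / 2 by ring, mul_comm, mul_comm _ (ENNReal.ofReal (t / 2))] at h3
    exact h3
  have hw1 := maxS_near_aux hd hFw x ht
  have hg1 := maxS_near_aux hd hFg x ht
  have hw2 := hC w x t ht
  have hg2 := hC (gradient w) x t ht
  rw [← hκ] at hw1 hg1
  have hw3 := hw1.trans hw2
  have hg3 := hg1.trans hg2
  -- multiply
  set c : ℝ≥0∞ := κ * ENNReal.ofReal ((t / 2) ^ d) with hc
  have ht2 : 0 < (t / 2) ^ d := by positivity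
  have hc0 : c ≠ 0 := mul_ne_zero hκ0 (by
    rw [ne_eq, ENNReal.ofReal_eq_zero, not_le]
    exact ht2)
  have hct : c ≠ ⊤ := ENNReal.mul_ne_top hκt ENNReal.ofReal_ne_top
  have hpow : ENNReal.ofReal ((t / 2) ^ d) =
      ENNReal.ofReal ((t / 2) ^ (d - 1)) * ENNReal.ofReal (t / 2) := by
    rw [← ENNReal.ofReal_mul (by positivity), ← pow_succ, Nat.sub_add_cancel hd]
  have hpow2 : ENNReal.ofReal (t ^ d) = 2 ^ d * ENNReal.ofReal ((t / 2) ^ d) := by
    have h5 : (2 : ℝ≥0∞) ^ d = ENNReal.ofReal (2 ^ d) := by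
      rw [ENNReal.ofReal_pow (by norm_num)]
      simp
    rw [h5, ← ENNReal.ofReal_mul (by positivity), ← mul_pow]
    congr 2
    ring
  have hle1 : ENNReal.ofReal (t / 2) ≤ 1 := by
    rw [← ENNReal.ofReal_one]
    apply ENNReal.ofReal_le_ofReal
    linarith
  have key : c * maxS_A (fun z => ‖w z‖ₑ) t x ≤
      c * ((κ⁻¹.toNNReal * C * 2 ^ d : ℝ≥0) * (hlm w x + hlm (gradient w) x)) := by
    calc c * maxS_A (fun z => ‖w z‖ₑ) t x
        = κ * ENNReal.ofReal ((t / 2) ^ (d - 1)) *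
          (ENNReal.ofReal (t / 2) * maxS_A (fun z => ‖w z‖ₑ) t x) := by
          rw [hc, hpow]
          ring
      _ ≤ κ * ENNReal.ofReal ((t / 2) ^ (d - 1)) *
          ((∫⁻ u in Ioc (t / 2) t, maxS_A (fun z => ‖w z‖ₑ) u x) +
          ENNReal.ofReal (t / 2) *
            ∫⁻ u in Ioc (t / 2) t, maxS_A (fun z => ‖gradient w z‖ₑ) u x) :=
          mul_le_mul' le_rfl h1
      _ = κ * (ENNReal.ofReal ((t / 2) ^ (d - 1)) *
            ∫⁻ u in Ioc (t / 2) t, maxS_A (fun z => ‖w z‖ₑ) u x) +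
          ENNReal.ofReal (t / 2) * (κ * (ENNReal.ofReal ((t / 2) ^ (d - 1)) *
            ∫⁻ u in Ioc (t / 2) t, maxS_A (fun z => ‖gradient w z‖ₑ) u x)) := by ring
      _ ≤ C * ENNReal.ofReal (t ^ d) * hlm w x +
          1 * (C * ENNReal.ofReal (t ^ d) * hlm (gradient w) x) :=
          add_le_add hw3 (mul_le_mul' hle1 hg3)
      _ = (κ * κ⁻¹) * (C * (2 ^ d * ENNReal.ofReal ((t / 2) ^ d)) *
            (hlm w x + hlm (gradient w) x)) := by
          rw [ENNReal.mul_inv_cancel hκ0 hκt, hpow2]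
          ring
      _ = c * ((κ⁻¹.toNNReal * C * 2 ^ d : ℝ≥0) * (hlm w x + hlm (gradient w) x)) := by
          rw [hc]
          push_cast
          rw [ENNReal.coe_toNNReal (ENNReal.inv_ne_top.mpr hκ0)]
          ring
  exact (ENNReal.mul_le_mul_iff_right hc0 hct).1 key

private theorem maxS_far_aux (hd : 0 < d) {w : E d → ℝ} (hw : ContDiff ℝ 1 w)
    (hs : HasCompactSupport w) (x : E d) {t : ℝ} (ht : 1 < t) :
    maxS_A (fun z => ‖w z‖ₑ) t x ≤
      ∫⁻ u in Ioi (1 : ℝ), maxS_A (fun z => ‖gradient w z‖ₑ) u x := by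
  have hFg : Measurable fun z => ‖gradient w z‖ₑ := (maxS_cont_gradient hw).measurable.enorm
  rw [← maxS_swap hd hFg x (Ioi 1)]
  unfold maxS_A
  refine lintegral_mono fun y => ?_
  obtain ⟨R0, hR0⟩ := hs.isCompact.isBounded.subset_closedBall (0 : E d)
  set R : ℝ := max t (‖x‖ + |R0| + 1) with hR
  have hRt : t ≤ R := le_max_left _ _
  have hR1 : ‖x‖ + |R0| + 1 ≤ R := le_max_right _ _
  have hR0' : 0 < R := by linarith
  have hz : w (x - R • (y : E d)) = 0 := by
    apply image_eq_zero_of_notMem_tsupport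
    intro hmem
    have h1 := hR0 hmem
    rw [mem_closedBall, dist_zero_right] at h1
    have h2 : ‖R • (y : E d)‖ = R := by
      rw [norm_smul, Real.norm_of_nonneg hR0'.le, norm_eq_of_mem_sphere y, mul_one]
    have h3 : ‖R • (y : E d)‖ ≤ ‖x‖ + ‖x - R • (y : E d)‖ := by
      have h4 := norm_sub_le x (x - R • (y : E d))
      rwa [sub_sub_cancel] at h4
    have h5 := le_abs_self R0
    linarith
  have h1 := maxS_ftc hw x y hRt
  rw [hz, zero_sub, enorm_neg] at h1
  refine h1.trans (lintegral_mono_set fun u hu => ?_)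
  exact ht.trans hu.1

private theorem maxS_far_int (hd : 0 < d) {F : E d → ℝ≥0∞} (hF : Measurable F) (x : E d) :
    (d * volume (ball (0 : E d) 1)) * ∫⁻ u in Ioi (1 : ℝ), maxS_A F u x ≤
      ∫⁻ z, F (x - z) * ENNReal.ofReal (2 ^ (d - 1) * ((1 + ‖z‖) ^ (d - 1))⁻¹) := by
  have hψ : Measurable fun z : E d => ENNReal.ofReal (2 ^ (d - 1) * ((1 + ‖z‖) ^ (d - 1))⁻¹) := by
    fun_prop
  rw [← maxS_polar hd hF hψ x]
  refine mul_le_mul' le_rfl ?_
  have hsub : Ioi (1 : ℝ) ⊆ Ioi (0 : ℝ) := Ioi_subset_Ioi zero_le_one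
  refine le_trans ?_ (lintegral_mono_set hsub)
  refine setLIntegral_mono' measurableSet_Ioi fun r hr => ?_
  have hr1 : (1 : ℝ) < r := hr
  have hr0 : 0 < r := by linarith
  unfold maxS_A
  rw [← lintegral_const_mul' _ _ ENNReal.ofReal_ne_top]
  refine lintegral_mono fun y => ?_
  have h1 : ‖r • (y : E d)‖ = r := by
    rw [norm_smul, Real.norm_of_nonneg hr0.le, norm_eq_of_mem_sphere y, mul_one]
  rw [h1]
  have h2 : 1 ≤ r ^ (d - 1) * (2 ^ (d - 1) * ((1 + r) ^ (d - 1))⁻¹) := by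
    rw [← mul_assoc, ← div_eq_mul_inv, le_div_iff₀ (by positivity), one_mul, ← mul_pow]
    exact pow_le_pow_left₀ (by positivity) (by linarith) _
  calc F (x - r • (y : E d)) = 1 * F (x - r • (y : E d)) := (one_mul _).symm
    _ ≤ ENNReal.ofReal (r ^ (d - 1) * (2 ^ (d - 1) * ((1 + r) ^ (d - 1))⁻¹)) *
        F (x - r • (y : E d)) := by
        refine mul_le_mul' ?_ le_rfl
        rw [← ENNReal.ofReal_one]
        exact ENNReal.ofReal_le_ofReal h2
    _ = _ := by
        rw [ENNReal.ofReal_mul (by positivity)]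
        ring

private theorem maxS_holder (hd : 2 ≤ d) {p : ℝ} (hp : 1 ≤ p) (hpd : p < d) :
    ∃ D : ℝ≥0, ∀ F : E d → ℝ≥0∞, Measurable F → ∀ x : E d,
      ∫⁻ z, F (x - z) * ENNReal.ofReal (2 ^ (d - 1) * ((1 + ‖z‖) ^ (d - 1))⁻¹) ≤
        D * (∫⁻ z, F z ^ p) ^ (1 / p) := by
  rcases hp.eq_or_lt with hp1 | hp1
  · refine ⟨2 ^ (d - 1), fun F hF x => ?_⟩
    rw [← hp1]
    simp only [ENNReal.rpow_one, div_one]
    have h1 : ∫⁻ z, F (x - z) = ∫⁻ z, F z := lintegral_sub_left_eq_self F x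
    rw [← h1]
    have h2 : ((2 ^ (d - 1) : ℝ≥0) : ℝ≥0∞) = ENNReal.ofReal (2 ^ (d - 1)) := by
      rw [ENNReal.ofReal_pow (by norm_num)]
      simp
    rw [h2, mul_comm, ← lintegral_mul_const' _ _ ENNReal.ofReal_ne_top]
    refine lintegral_mono fun z => ?_
    refine mul_le_mul' le_rfl (ENNReal.ofReal_le_ofReal ?_)
    have h3 : ((1 + ‖z‖) ^ (d - 1))⁻¹ ≤ 1 := by
      apply inv_le_one_of_one_le₀
      exact one_le_pow₀ (by linarith [norm_nonneg z])
    calc (2 : ℝ) ^ (d - 1) * ((1 + ‖z‖) ^ (d - 1))⁻¹ ≤ 2 ^ (d - 1) * 1 :=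
          mul_le_mul_of_nonneg_left h3 (by positivity)
      _ = 2 ^ (d - 1) := mul_one _
  · have hpq := Real.HolderConjugate.conjExponent hp1
    set q : ℝ := p.conjExponent with hq
    have hq0 : 0 < q := hpq.symm.pos
    have hd2 : (2 : ℝ) ≤ d := by exact_mod_cast hd
    -- the integral of the weight
    have hfin : ∫⁻ z : E d, ENNReal.ofReal (2 ^ (d - 1) * ((1 + ‖z‖) ^ (d - 1))⁻¹) ^ q < ⊤ := by
      have h1 : (Module.finrank ℝ (E d) : ℝ) < (d - 1 : ℝ) * q := by
        rw [finrank_euclideanSpace_fin, hq, Real.conjExponent]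
        have h2 : 0 < p - 1 := by linarith
        rw [mul_div_assoc', lt_div_iff₀ h2]
        nlinarith
      have h2 := finite_integral_one_add_norm (μ := (volume : Measure (E d))) h1
      have h3 : ∀ z : E d, ENNReal.ofReal (2 ^ (d - 1) * ((1 + ‖z‖) ^ (d - 1))⁻¹) ^ q =
          ENNReal.ofReal ((2 ^ (d - 1)) ^ q) *
            ENNReal.ofReal ((1 + ‖z‖) ^ (-((d - 1 : ℝ) * q))) := by
        intro z
        have hz : (0 : ℝ) < 1 + ‖z‖ := by positivity
        rw [ENNReal.ofReal_rpow_of_nonneg (by positivity) hq0.le,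
          ← ENNReal.ofReal_mul (by positivity)]
        congr 1
        rw [Real.mul_rpow (by positivity) (by positivity)]
        congr 1
        rw [← Real.rpow_natCast (1 + ‖z‖), ← Real.rpow_neg hz.le, ← Real.rpow_mul hz.le]
        congr 1
        rw [Nat.cast_sub (by omega)]
        push_cast
        ring
      simp only [h3]
      rw [lintegral_const_mul' _ _ ENNReal.ofReal_ne_top]
      exact ENNReal.mul_lt_top ENNReal.ofReal_lt_top h2
    set W : ℝ≥0∞ :=
      (∫⁻ z : E d, ENNReal.ofReal (2 ^ (d - 1) * ((1 + ‖z‖) ^ (d - 1))⁻¹) ^ q) ^ (1 / q) with hW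
    have hWt : W ≠ ⊤ := ENNReal.rpow_ne_top_of_nonneg (by positivity) hfin.ne
    refine ⟨W.toNNReal, fun F hF x => ?_⟩
    rw [ENNReal.coe_toNNReal hWt, mul_comm]
    have hψ : Measurable fun z : E d =>
        ENNReal.ofReal (2 ^ (d - 1) * ((1 + ‖z‖) ^ (d - 1))⁻¹) := by
      fun_prop
    have h1 := ENNReal.lintegral_mul_le_Lp_mul_Lq (volume : Measure (E d)) hpq
      (hF.comp (measurable_const.sub measurable_id) : Measurable fun z => F (x - z)).aemeasurable
      hψ.aemeasurable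
    have h2 : ∫⁻ z, F (x - z) ^ p = ∫⁻ z, F z ^ p :=
      lintegral_sub_left_eq_self (fun z => F z ^ p) x
    have h3 : ∫⁻ z, F (x - z) * ENNReal.ofReal (2 ^ (d - 1) * ((1 + ‖z‖) ^ (d - 1))⁻¹) ≤
        (∫⁻ z, F (x - z) ^ p) ^ (1 / p) * W := h1
    rw [h2] at h3
    exact h3

theorem local_max (hd : 2 ≤ d) {p : ℝ} (hp : 1 ≤ p) (hpd : p < d) : ∃ C : ℝ≥0, ∀ w : E d → ℝ,
    ContDiff ℝ 1 w → HasCompactSupport w → ∀ x, sphMax w x ≤
      C * (hlm w x + hlm (gradient w) x + (∫⁻ y, ‖gradient w y‖ₑ ^ p) ^ (1 / p)) := by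
  have hd' : 0 < d := by omega
  obtain ⟨C1, hC1⟩ := maxS_near (d := d) hd'
  obtain ⟨D, hD⟩ := maxS_holder hd hp hpd
  have hd0 : (d : ℝ≥0∞) ≠ 0 := by
    simp only [ne_eq, Nat.cast_eq_zero]
    omega
  have hb0 : volume (ball (0 : E d) 1) ≠ 0 := (measure_ball_pos _ _ one_pos).ne'
  have hbt : volume (ball (0 : E d) 1) ≠ ⊤ := measure_ball_lt_top.ne
  set κ : ℝ≥0∞ := d * volume (ball (0 : E d) 1) with hκ
  have hκ0 : κ ≠ 0 := mul_ne_zero hd0 hb0
  have hκt : κ ≠ ⊤ := ENNReal.mul_ne_top (by simp) hbt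
  refine ⟨C1 + κ⁻¹.toNNReal * D, fun w hw hs x => ?_⟩
  have hFg : Measurable fun z => ‖gradient w z‖ₑ := (maxS_cont_gradient hw).measurable.enorm
  unfold sphMax
  refine iSup_le fun t => iSup_le fun ht => ?_
  change maxS_A (fun z => ‖w z‖ₑ) t x ≤ _
  rcases le_or_gt t 1 with ht1 | ht1
  · refine (hC1 w hw x t ht ht1).trans ?_
    refine mul_le_mul' ?_ le_self_add
    push_cast
    exact le_self_add
  · have h1 := maxS_far_aux hd' hw hs x ht1
    have h2 := (maxS_far_int hd' hFg x).trans (hD _ hFg x)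
    rw [← hκ] at h2
    have h3 : ∫⁻ u in Ioi (1 : ℝ), maxS_A (fun z => ‖gradient w z‖ₑ) u x ≤
        κ⁻¹ * (D * (∫⁻ y, ‖gradient w y‖ₑ ^ p) ^ (1 / p)) := by
      rw [← ENNReal.div_eq_inv_mul, ENNReal.le_div_iff_mul_le (Or.inl hκ0) (Or.inl hκt), mul_comm]
      exact h2
    refine h1.trans (h3.trans ?_)
    rw [← mul_assoc]
    refine mul_le_mul' ?_ le_add_self
    push_cast
    rw [ENNReal.coe_toNNReal (ENNReal.inv_ne_top.mpr hκ0)]
    exact le_add_self

end Pool.Agent.Lib.MP_ff3fe0_an_SPH
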