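import Pool.Agent.Lib.MP_ff3fe0_an_SPH.RotA

set_option autoImplicit false

/-!
# The Fourier transform of the sphere
-/

namespace Pool.Agent.Lib.MP_ff3fe0_an_SPH

open MeasureTheory Metric Set
open scoped ENNReal NNReal ContDiff FourierTransform
open Pool.Agent.Lib.MP_ff3fe0_an

variable {d : ℕ}

private theorem muA_abs {e : E d} (he : ‖e‖ = 1) (w : Sph d) : |inner ℝ e (w : E d)| ≤ 1 := by
  have h := abs_real_inner_le_norm e (w : E d)
  have hw : ‖(w : E d)‖ = 1 := by
    have := w.2
    rwa [mem_sphere_zero_iff_norm] at this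
  rw [he, hw, mul_one] at h
  exact h

private theorem muA_eq (ξ : E d) (s : ℝ) :
    mus (s • ξ) = sm (fun y => Real.cos (inner ℝ ξ y)) s 0 := by
  unfold mus sm
  congr 1
  funext w
  show Real.cos (inner ℝ (s • ξ) (w : E d)) = Real.cos (inner ℝ ξ (0 - s • (w : E d)))
  rw [zero_sub, inner_neg_right, Real.cos_neg, real_inner_smul_left, real_inner_smul_right]

private theorem muA_cos (e : E d) : ContDiff ℝ ∞ (fun y : E d => Real.cos (inner ℝ e y)) :=
  Real.contDiff_cos.comp (contDiff_const.inner ℝ contDiff_id)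

private theorem muA_sin (e : E d) : ContDiff ℝ ∞ (fun y : E d => Real.sin (inner ℝ e y)) :=
  Real.contDiff_sin.comp (contDiff_const.inner ℝ contDiff_id)

private theorem muA_fcos (e y v : E d) : fderiv ℝ (fun y => Real.cos (inner ℝ e y)) y v =
    -Real.sin (inner ℝ e y) * inner ℝ e v := by
  have h : HasFDerivAt (fun y : E d => Real.cos (innerSL ℝ e y))
      (-Real.sin (innerSL ℝ e y) • (innerSL ℝ e)) y := ((innerSL ℝ e).hasFDerivAt).cos
  have h2 := h.fderiv
  simp only [innerSL_apply_apply] at h2
  rw [h2]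
  simp

private theorem muA_fsin (e y v : E d) : fderiv ℝ (fun y => Real.sin (inner ℝ e y)) y v =
    Real.cos (inner ℝ e y) * inner ℝ e v := by
  have h : HasFDerivAt (fun y : E d => Real.sin (innerSL ℝ e y))
      (Real.cos (innerSL ℝ e y) • (innerSL ℝ e)) y := ((innerSL ℝ e).hasFDerivAt).sin
  have h2 := h.fderiv
  simp only [innerSL_apply_apply] at h2
  rw [h2]
  simp

private theorem muA_deriv (hd : 0 < d) (e : E d) (t : ℝ) :
    deriv (fun s : ℝ => mus (s • e)) t =
      - ∫ w : Sph d, Real.sin (t * inner ℝ e (w : E d)) * inner ℝ e (w : E d) ∂(sigma d) := by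
  have h1 : (fun s : ℝ => mus (s • e)) = fun s : ℝ => sm (fun y => Real.cos (inner ℝ e y)) s 0 :=
    funext fun s => muA_eq e s
  rw [h1, sm_deriv hd (muA_cos e)]
  congr 1
  congr 1
  funext w
  have h2 : inner ℝ (gradient (fun y => Real.cos (inner ℝ e y)) (0 - t • (w : E d))) (w : E d) =
      fderiv ℝ (fun y => Real.cos (inner ℝ e y)) (0 - t • (w : E d)) (w : E d) := by
    unfold gradient
    rw [InnerProductSpace.toDual_symm_apply]
  rw [h2, muA_fcos, zero_sub, inner_neg_right, real_inner_smul_right, Real.sin_neg, neg_neg]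

private theorem muA_deriv2 (hd : 0 < d) {e : E d} (he : ‖e‖ = 1) (t : ℝ) :
    HasDerivAt (fun s : ℝ => ∫ w : Sph d, Real.sin (s * inner ℝ e (w : E d)) *
      inner ℝ e (w : E d) ∂(sigma d)) (∫ w : Sph d, Real.cos (t * inner ℝ e (w : E d)) *
      inner ℝ e (w : E d) * inner ℝ e (w : E d) ∂(sigma d)) t := by
  have := sigma_prob hd
  have hint : ∀ f : Sph d → ℝ, Continuous f → Integrable f (sigma d) := fun f hf =>
    hf.integrable_of_hasCompactSupport (HasCompactSupport.of_compactSpace _)
  refine (hasDerivAt_integral_of_dominated_loc_of_deriv_le (μ := sigma d) (x₀ := t)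
    (F := fun s w => Real.sin (s * inner ℝ e (w : E d)) * inner ℝ e (w : E d))
    (F' := fun s w => Real.cos (s * inner ℝ e (w : E d)) * inner ℝ e (w : E d) *
      inner ℝ e (w : E d)) (bound := fun _ => 1) (s := univ) Filter.univ_mem
    ?_ ?_ ?_ ?_ ?_ ?_).2
  · exact Filter.Eventually.of_forall fun s => (hint _ (by fun_prop)).aestronglyMeasurable
  · exact hint _ (by fun_prop)
  · exact (hint _ (by fun_prop)).aestronglyMeasurable
  · refine Filter.Eventually.of_forall fun w s _ => ?_
    rw [norm_mul, norm_mul, Real.norm_eq_abs, Real.norm_eq_abs]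
    have h1 := muA_abs he w
    have h2 := Real.abs_cos_le_one (s * inner ℝ e (w : E d))
    have h3 : |Real.cos (s * inner ℝ e (w : E d))| * |inner ℝ e (w : E d)| ≤ 1 :=
      mul_le_one₀ h2 (abs_nonneg _) h1
    exact mul_le_one₀ h3 (abs_nonneg _) h1
  · exact integrable_const _
  · refine Filter.Eventually.of_forall fun w s _ => ?_
    have h1 : HasDerivAt (fun s : ℝ => s * inner ℝ e (w : E d)) (inner ℝ e (w : E d)) s := by
      have := (hasDerivAt_id s).mul_const (inner ℝ e (w : E d))
      simpa using this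
    exact h1.sin.mul_const _

/-- The profile of the Fourier transform of the sphere is smooth on the ray through `ξ`. -/
theorem mus_contDiff (hd : 0 < d) (ξ : E d) : ContDiff ℝ ∞ (fun s : ℝ => mus (s • ξ)) := by
  have h1 : (fun s : ℝ => mus (s • ξ)) = fun s : ℝ => sm (fun y => Real.cos (inner ℝ ξ y)) s 0 :=
    funext fun s => muA_eq ξ s
  rw [h1]
  exact sm_contDiff_t hd (muA_cos ξ) 0

/-- The profile `r ↦ mus (r e)`, for a unit vector `e`, solves `r m'' + (d - 1) m' + r m = 0`. -/
theorem mus_ode (hd : 0 < d) (e : E d) (he : ‖e‖ = 1) (r : ℝ) :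
    r * iteratedDeriv 2 (fun s : ℝ => mus (s • e)) r
      + ((d : ℝ) - 1) * deriv (fun s : ℝ => mus (s • e)) r + r * mus (r • e) = 0 := by
  by_cases hr : r = 0
  · rw [hr, muA_deriv hd]
    simp
  have := sigma_prob hd
  have hint : ∀ f : Sph d → ℝ, Continuous f → Integrable f (sigma d) := fun f hf =>
    hf.integrable_of_hasCompactSupport (HasCompactSupport.of_compactSpace _)
  have hint' : ∀ f : Sph d → E d, Continuous f → Integrable f (sigma d) := fun f hf =>
    hf.integrable_of_hasCompactSupport (HasCompactSupport.of_compactSpace _)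
  have h2 : iteratedDeriv 2 (fun s : ℝ => mus (s • e)) r =
      - ∫ w : Sph d, Real.cos (r * inner ℝ e (w : E d)) *
      inner ℝ e (w : E d) * inner ℝ e (w : E d) ∂(sigma d) := by
    rw [iteratedDeriv_succ, iteratedDeriv_one]
    have h3 : deriv (fun s : ℝ => mus (s • e)) = fun t => - ∫ w : Sph d,
        Real.sin (t * inner ℝ e (w : E d)) * inner ℝ e (w : E d) ∂(sigma d) :=
      funext fun t => muA_deriv hd e t
    rw [h3]
    exact (muA_deriv2 hd he r).neg.deriv
  have h3 := sm_gradient_eq hd (muA_sin e) hr 0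
  have h4 : inner ℝ e (gradient (sm (fun y => Real.sin (inner ℝ e y)) r) 0) = mus (r • e) := by
    have h5 : gradient (sm (fun y => Real.sin (inner ℝ e y)) r) 0 = mus (r • e) • e := by
      ext i
      rw [sm_gradient hd (muA_sin e)]
      unfold sm pd mus
      rw [PiLp.smul_apply, smul_eq_mul, ← integral_mul_const]
      congr 1
      funext w
      rw [muA_fsin, zero_sub, inner_neg_right, Real.cos_neg, real_inner_smul_right,
        real_inner_smul_left, EuclideanSpace.inner_single_right]
      simp
    rw [h5, real_inner_smul_right, real_inner_self_eq_norm_sq, he]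
    ring
  have h6 : inner ℝ e (∫ w : Sph d, inner ℝ (gradient (fun y => Real.sin (inner ℝ e y))
      (0 - r • (w : E d))) (w : E d) • (w : E d) ∂(sigma d)) = ∫ w : Sph d,
      Real.cos (r * inner ℝ e (w : E d)) * inner ℝ e (w : E d) * inner ℝ e (w : E d)
        ∂(sigma d) := by
    have h7 : ∀ w : Sph d, inner ℝ (gradient (fun y => Real.sin (inner ℝ e y))
        (0 - r • (w : E d))) (w : E d) = Real.cos (r * inner ℝ e (w : E d)) *
        inner ℝ e (w : E d) := by
      intro w
      have h8 : inner ℝ (gradient (fun y => Real.sin (inner ℝ e y)) (0 - r • (w : E d)))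
          (w : E d) = fderiv ℝ (fun y => Real.sin (inner ℝ e y)) (0 - r • (w : E d))
          (w : E d) := by
        unfold gradient
        rw [InnerProductSpace.toDual_symm_apply]
      rw [h8, muA_fsin, zero_sub, inner_neg_right, Real.cos_neg, real_inner_smul_right]
    simp only [h7]
    rw [← integral_inner (hint' _ (by fun_prop))]
    congr 1
    funext w
    rw [real_inner_smul_right]
  have h9 : inner ℝ e (∫ w : Sph d, Real.sin (inner ℝ e (0 - r • (w : E d))) • (w : E d)
      ∂(sigma d)) = - ∫ w : Sph d, Real.sin (r * inner ℝ e (w : E d)) * inner ℝ e (w : E d)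
        ∂(sigma d) := by
    rw [← integral_inner (hint' _ (by fun_prop)), ← integral_neg]
    congr 1
    funext w
    rw [real_inner_smul_right, zero_sub, inner_neg_right, real_inner_smul_right, Real.sin_neg]
    ring
  have h10 : inner ℝ e (gradient (sm (fun y => Real.sin (inner ℝ e y)) r) 0) = inner ℝ e
      (∫ w : Sph d, inner ℝ (gradient (fun y => Real.sin (inner ℝ e y))
        (0 - r • (w : E d))) (w : E d) • (w : E d) ∂(sigma d)) -
        (((d : ℝ) - 1) / r) * inner ℝ e (∫ w : Sph d,
          Real.sin (inner ℝ e (0 - r • (w : E d))) • (w : E d) ∂(sigma d)) := by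
    rw [h3, inner_sub_right, real_inner_smul_right]
  rw [h4, h6, h9] at h10
  rw [h2, muA_deriv hd, h10]
  field_simp
  ring

end Pool.Agent.Lib.MP_ff3fe0_an_SPH
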