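import Pool.Agent.Lib.MP_ff3fe0_an_SPH.CZA
import Pool.Agent.Lib.MP_ff3fe0_an_SPH.OverA

set_option autoImplicit false

/-!
# The exceptional set
-/

namespace Pool.Agent.Lib.MP_ff3fe0_an_SPH

open MeasureTheory Metric Set
open scoped ENNReal NNReal ContDiff FourierTransform
open Pool.Agent.Lib.MP_ff3fe0_an

variable {d : ℕ}

/-- The union of the enlargements of the maximal cubes. -/
def Om (f : E d → ℝ≥0∞) (a : ℝ≥0∞) (c : ℝ) : Set (E d) :=
  {x | ∃ i : ℤ, ∃ y ∈ lev f a i, ‖x - y‖ ≤ c * (2 : ℝ) ^ i}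

/-- The volume of the union of the enlargements of the maximal cubes of one level. -/
private theorem om_vol_level {c : ℝ} (hc : 0 ≤ c) {f : E d → ℝ≥0∞} (a : ℝ≥0∞)
    (hf : Measurable f) (i : ℤ) :
    volume {x : E d | ∃ y ∈ lev f a i, ‖x - y‖ ≤ c * (2 : ℝ) ^ i} ≤
      ENNReal.ofReal ((c + √d) ^ d) * volume (ball (0 : E d) 1) * volume (lev f a i) := by
  have h2 : (0 : ℝ) < (2 : ℝ) ^ i := by positivity
  set R : ℝ := (c + √d) * (2 : ℝ) ^ i with hR
  have hR0 : 0 ≤ R := by positivity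
  set v : ℝ≥0∞ := ENNReal.ofReal (((2 : ℝ) ^ i) ^ d) with hv
  have hv0 : v ≠ 0 := by
    rw [hv, ne_eq, ENNReal.ofReal_eq_zero, not_le]
    positivity
  have hvt : v ≠ ⊤ := ENNReal.ofReal_ne_top
  have hL := measurableSet_lev (a := a) hf i
  set P : Set (E d × E d) := {q | dist q.2 q.1 ≤ R} ∩ {q | q.2 ∈ lev f a i} with hP
  have hPm : MeasurableSet P := by
    refine MeasurableSet.inter ?_ (measurable_snd hL)
    exact (isClosed_le (continuous_snd.dist continuous_fst) continuous_const).measurableSet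
  set g : E d × E d → ℝ≥0∞ := P.indicator (fun _ => 1) with hg
  have hgm : Measurable g := measurable_const.indicator hPm
  have hsub : {x : E d | ∃ y ∈ lev f a i, ‖x - y‖ ≤ c * (2 : ℝ) ^ i} ⊆
      {x | v ≤ ∫⁻ z, g (x, z)} := by
    rintro x ⟨y, hy, hxy⟩
    change v ≤ ∫⁻ z, g (x, z)
    rw [hv, ← volume_dc i y, ← lintegral_indicator_one (measurableSet_dc i y)]
    refine lintegral_mono fun z => ?_
    by_cases hz : z ∈ dc i y
    · rw [indicator_of_mem hz, hg, indicator_of_mem]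
      · simp
      · refine ⟨?_, lev_sat hy hz⟩
        change dist z x ≤ R
        have h3 := dc_dist hz
        rw [dist_eq_norm]
        calc ‖z - x‖ = ‖(z - y) - (x - y)‖ := by congr 1; abel
          _ ≤ ‖z - y‖ + ‖x - y‖ := norm_sub_le _ _
          _ ≤ √d * (2 : ℝ) ^ i + c * (2 : ℝ) ^ i := add_le_add h3 hxy
          _ = R := by rw [hR]; ring
    · rw [indicator_of_notMem hz]
      exact zero_le
  have hφ : Measurable fun x : E d => ∫⁻ z, g (x, z) := hgm.lintegral_prod_right'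
  have h3 : v * volume {x : E d | ∃ y ∈ lev f a i, ‖x - y‖ ≤ c * (2 : ℝ) ^ i} ≤
      ∫⁻ x : E d, ∫⁻ z, g (x, z) :=
    (mul_le_mul_right (measure_mono hsub) _).trans (mul_meas_ge_le_lintegral hφ v)
  have h4 : ∫⁻ x : E d, ∫⁻ z, g (x, z) = volume (closedBall (0 : E d) R) *
      volume (lev f a i) := by
    rw [lintegral_lintegral_swap (f := fun x z : E d => g (x, z)) hgm.aemeasurable]
    have h5 : ∀ z : E d, ∫⁻ x : E d, g (x, z) =
        (lev f a i).indicator (fun _ => volume (closedBall (0 : E d) R)) z := by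
      intro z
      by_cases hz : z ∈ lev f a i
      · rw [indicator_of_mem hz]
        have h6 : (fun x : E d => g (x, z)) = (closedBall z R).indicator 1 := by
          funext x
          by_cases hx : x ∈ closedBall z R
          · rw [indicator_of_mem hx, hg, indicator_of_mem]
            · simp
            · refine ⟨?_, hz⟩
              change dist z x ≤ R
              rw [dist_comm]
              exact hx
          · rw [indicator_of_notMem hx, hg, indicator_of_notMem]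
            rintro ⟨hx1, -⟩
            apply hx
            rw [mem_closedBall, dist_comm]
            exact hx1
        rw [h6, lintegral_indicator_one measurableSet_closedBall]
        exact Measure.addHaar_closedBall_center volume z R
      · rw [indicator_of_notMem hz]
        have h6 : (fun x : E d => g (x, z)) = fun _ => 0 := by
          funext x
          rw [hg, indicator_of_notMem]
          rintro ⟨-, hx1⟩
          exact hz hx1
        rw [h6, lintegral_zero]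
    rw [lintegral_congr h5, lintegral_indicator_const hL]
  have h7 : volume (closedBall (0 : E d) R) =
      v * (ENNReal.ofReal ((c + √d) ^ d) * volume (ball (0 : E d) 1)) := by
    rw [Measure.addHaar_closedBall volume (0 : E d) hR0, finrank_euclideanSpace, Fintype.card_fin,
      hR, mul_pow, ENNReal.ofReal_mul (by positivity), hv]
    ring
  rw [h4, h7, mul_assoc v] at h3
  exact (ENNReal.mul_le_mul_iff_right hv0 hvt).1 h3

theorem om_vol (hd : 0 < d) (c : ℝ) : ∃ C : ℝ≥0, ∀ (f : E d → ℝ≥0∞) (a : ℝ≥0∞), Measurable f →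
    volume (Om f a c) ≤ C * volume (Lv f a) := by
  have hK : ENNReal.ofReal ((|c| + √d) ^ d) * volume (ball (0 : E d) 1) ≠ ⊤ :=
    ENNReal.mul_ne_top ENNReal.ofReal_ne_top measure_ball_lt_top.ne
  refine ⟨(ENNReal.ofReal ((|c| + √d) ^ d) * volume (ball (0 : E d) 1)).toNNReal,
    fun f a hf => ?_⟩
  rw [ENNReal.coe_toNNReal hK]
  have h1 : Om f a c ⊆ ⋃ i : ℤ, {x : E d | ∃ y ∈ lev f a i, ‖x - y‖ ≤ |c| * (2 : ℝ) ^ i} := by
    rintro x ⟨i, y, hy, hxy⟩
    refine mem_iUnion.2 ⟨i, y, hy, hxy.trans ?_⟩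
    exact mul_le_mul_of_nonneg_right (le_abs_self c) (by positivity)
  have h2 : volume (Lv f a) = ∑' i : ℤ, volume (lev f a i) :=
    measure_iUnion (fun i j hij => lev_disj hij) fun i => measurableSet_lev hf i
  rw [h2, ← ENNReal.tsum_mul_left]
  refine (measure_mono h1).trans ((measure_iUnion_le _).trans ?_)
  exact ENNReal.tsum_le_tsum fun i => om_vol_level (abs_nonneg c) a hf i

/-- Outside of the exceptional set the maximal function is at most `C l`. -/
theorem om_hlm (hd : 0 < d) {p : ℝ} (hp : 1 ≤ p) {F : Type} [NormedAddCommGroup F] :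
    ∃ C : ℝ≥0, ∀ (H : E d → F) (l : ℝ≥0∞), Measurable (fun x => ‖H x‖ₑ) → l ≠ 0 → l ≠ ⊤ →
      ∫⁻ x, ‖H x‖ₑ ^ p ≠ ⊤ → ∀ x, x ∉ Om (fun y => ‖H y‖ₑ ^ p) (l ^ p) 2 → hlm H x ≤ C * l := by
  refine ⟨(2 * ENNReal.ofReal ((1 + 4 * √d) ^ d)).toNNReal, ?_⟩
  intro H l hH hl hl' hfin x hx
  rw [ENNReal.coe_toNNReal (ENNReal.mul_ne_top (by simp) ENNReal.ofReal_ne_top)]
  set f : E d → ℝ≥0∞ := fun y => ‖H y‖ₑ ^ p with hf
  have hfm : Measurable f := hH.pow_const p
  have hp0 : 0 ≤ p := by linarith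
  have hlp : l ^ p ≠ 0 := by
    rw [ne_eq, ENNReal.rpow_eq_zero_iff]
    rintro (⟨h, -⟩ | ⟨h, -⟩)
    · exact hl h
    · exact hl' h
  have hlp1 : l ^ (p - 1) ≠ 0 := by
    rw [ne_eq, ENNReal.rpow_eq_zero_iff]
    rintro (⟨h, -⟩ | ⟨h, -⟩)
    · exact hl h
    · exact hl' h
  have hlp1' : l ^ (p - 1) ≠ ⊤ := ENNReal.rpow_ne_top_of_nonneg (by linarith) hl'
  have hlmul : l * l ^ (p - 1) = l ^ p := by
    conv_lhs => rw [← ENNReal.rpow_one l, ← ENNReal.rpow_mul, one_mul,
      ← ENNReal.rpow_add_of_nonneg 1 (p - 1) zero_le_one (by linarith)]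
    congr 1
    ring
  -- the comparison of the averages
  have hcmp : ∀ t : ℝ≥0∞, t * l ^ (p - 1) ≤ l ^ p + t ^ p := by
    intro t
    rcases le_total t l with h | h
    · rw [← hlmul]
      exact (mul_le_mul_left h _).trans le_self_add
    · have h1 : t * t ^ (p - 1) = t ^ p := by
        conv_lhs => rw [← ENNReal.rpow_one t, ← ENNReal.rpow_mul, one_mul,
          ← ENNReal.rpow_add_of_nonneg 1 (p - 1) zero_le_one (by linarith)]
        congr 1
        ring
      calc t * l ^ (p - 1) ≤ t * t ^ (p - 1) := by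
            gcongr
        _ = t ^ p := h1
        _ ≤ l ^ p + t ^ p := le_add_self
  have hdav : ∀ (i : ℤ) (z : E d), dav i f z ≤ l ^ p → dav i (fun y => ‖H y‖ₑ) z ≤ 2 * l := by
    intro i z hz
    have hv0 : volume (dc i z) ≠ 0 := by
      rw [volume_dc, ne_eq, ENNReal.ofReal_eq_zero, not_le]
      positivity
    have hvt : volume (dc i z) ≠ ⊤ := by
      rw [volume_dc]
      exact ENNReal.ofReal_ne_top
    have h1 : (∫⁻ y in dc i z, ‖H y‖ₑ) * l ^ (p - 1) ≤
        l ^ p * volume (dc i z) + ∫⁻ y in dc i z, f y := by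
      rw [← lintegral_mul_const _ hH, ← setLIntegral_const, ← lintegral_add_left measurable_const]
      exact lintegral_mono fun y => hcmp _
    have h2 : dav i (fun y => ‖H y‖ₑ) z * l ^ (p - 1) ≤ 2 * l * l ^ (p - 1) := by
      calc dav i (fun y => ‖H y‖ₑ) z * l ^ (p - 1)
          = (volume (dc i z))⁻¹ * ((∫⁻ y in dc i z, ‖H y‖ₑ) * l ^ (p - 1)) := by
            rw [dav, mul_assoc]
        _ ≤ (volume (dc i z))⁻¹ * (l ^ p * volume (dc i z) + ∫⁻ y in dc i z, f y) := by
            gcongr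
        _ = l ^ p + dav i f z := by
            rw [mul_add, dav, mul_comm (l ^ p), ← mul_assoc, ENNReal.inv_mul_cancel hv0 hvt,
              one_mul]
        _ ≤ l ^ p + l ^ p := by gcongr
        _ = 2 * l * l ^ (p - 1) := by rw [mul_assoc, hlmul, two_mul]
    exact (ENNReal.mul_le_mul_iff_left hlp1 hlp1').1 h2
  refine iSup₂_le fun ρ hρ => ?_
  obtain ⟨n, hn1, hn2⟩ := exists_mem_Ioc_zpow (y := (2 : ℝ)) hρ one_lt_two
  set i : ℤ := n + 1 with hi
  have h2i : (0 : ℝ) < (2 : ℝ) ^ i := by positivity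
  have hi2 : (2 : ℝ) ^ i ≤ 2 * ρ := by
    rw [hi, zpow_add_one₀ two_ne_zero]
    linarith
  set A : Set (E d) := {z | dav i f z ≤ l ^ p ∧ ‖cor i z - x‖ ≤ ρ + √d * (2 : ℝ) ^ i} with hA
  have hAm : MeasurableSet A := by
    refine MeasurableSet.inter (measurableSet_le (measurable_dav i hfm) measurable_const) ?_
    exact measurableSet_le ((measurable_cor i).sub_const x).norm measurable_const
  have hAs : ∀ z ∈ A, dc i z ⊆ A := by
    rintro z ⟨hz1, hz2⟩ y hy
    refine ⟨?_, ?_⟩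
    · rw [dav_eq f hy]
      exact hz1
    · rw [cor_eq hy]
      exact hz2
  have hball : ball x ρ ⊆ A := by
    intro y hy
    rw [mem_ball, dist_eq_norm] at hy
    refine ⟨?_, ?_⟩
    · by_contra h
      obtain ⟨i', hi', hy'⟩ := exists_lev hd hlp hfin (not_le.1 h)
      apply hx
      refine ⟨i', y, hy', ?_⟩
      have h1 : (2 : ℝ) ^ i ≤ (2 : ℝ) ^ i' := zpow_le_zpow_right₀ one_le_two hi'
      rw [norm_sub_rev]
      linarith
    · have h1 := dc_dist (cor_mem i y)
      calc ‖cor i y - x‖ = ‖(y - x) + (cor i y - y)‖ := by congr 1; abel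
        _ ≤ ‖y - x‖ + ‖cor i y - y‖ := norm_add_le _ _
        _ ≤ ρ + √d * (2 : ℝ) ^ i := add_le_add hy.le h1
  have hAb : A ⊆ closedBall x ((1 + 4 * √d) * ρ) := by
    rintro z ⟨-, hz⟩
    have h1 := dc_dist (cor_mem i z)
    rw [mem_closedBall, dist_eq_norm]
    have h3 : √(d : ℝ) * (2 : ℝ) ^ i ≤ √d * (2 * ρ) :=
      mul_le_mul_of_nonneg_left hi2 (Real.sqrt_nonneg _)
    calc ‖z - x‖ = ‖(cor i z - x) - (cor i z - z)‖ := by congr 1; abel
      _ ≤ ‖cor i z - x‖ + ‖cor i z - z‖ := norm_sub_le _ _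
      _ ≤ (ρ + √d * (2 : ℝ) ^ i) + √d * (2 : ℝ) ^ i := add_le_add hz h1
      _ ≤ (1 + 4 * √d) * ρ := by linarith
  have hvol : volume (closedBall x ((1 + 4 * √d) * ρ)) =
      ENNReal.ofReal ((1 + 4 * √d) ^ d) * volume (ball x ρ) := by
    rw [Measure.addHaar_closedBall volume x (by positivity),
      Measure.addHaar_ball_of_pos volume x hρ, finrank_euclideanSpace, Fintype.card_fin, mul_pow,
      ENNReal.ofReal_mul (by positivity), mul_assoc]
  have hb0 : volume (ball x ρ) ≠ 0 := (measure_ball_pos volume x hρ).ne'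
  have hbt : volume (ball x ρ) ≠ ⊤ := measure_ball_lt_top.ne
  calc (volume (ball x ρ))⁻¹ * ∫⁻ y in ball x ρ, ‖H y‖ₑ
      ≤ (volume (ball x ρ))⁻¹ * ∫⁻ y in A, ‖H y‖ₑ := by
        gcongr
    _ = (volume (ball x ρ))⁻¹ * ∫⁻ y in A, dav i (fun y => ‖H y‖ₑ) y := by
        rw [lintegral_dav i hH hAm hAs]
    _ ≤ (volume (ball x ρ))⁻¹ * ∫⁻ _ in A, 2 * l := by
        refine mul_le_mul_right ?_ _
        exact setLIntegral_mono' hAm fun y hy => hdav i y hy.1
    _ = (volume (ball x ρ))⁻¹ * (2 * l * volume A) := by rw [setLIntegral_const]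
    _ ≤ (volume (ball x ρ))⁻¹ * (2 * l * (ENNReal.ofReal ((1 + 4 * √d) ^ d) *
          volume (ball x ρ))) := by
        rw [← hvol]
        gcongr
    _ = (volume (ball x ρ))⁻¹ * volume (ball x ρ) *
          (2 * ENNReal.ofReal ((1 + 4 * √d) ^ d) * l) := by ring
    _ = 2 * ENNReal.ofReal ((1 + 4 * √d) ^ d) * l := by
        rw [ENNReal.inv_mul_cancel hb0 hbt, one_mul]

theorem om_good {c r : ℝ} (hc : r + √d ≤ c) {f : E d → ℝ≥0∞} {a : ℝ≥0∞} {j : ℤ}
    {z : Fin d → ℤ} (h : ¬ dc j (cen j z) ⊆ Om f a c) {i : ℤ} (hi : j < i) {y : E d}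
    (hy : y ∈ lev f a i) : y ∉ closedBall (cen j z) (r * (2 : ℝ) ^ j) := by
  intro hyb
  rw [mem_closedBall, dist_eq_norm] at hyb
  have h2 : (0 : ℝ) < (2 : ℝ) ^ j := by positivity
  have hr : 0 ≤ r := by
    by_contra hr
    have h3 := mul_neg_of_neg_of_pos (not_le.1 hr) h2
    linarith [norm_nonneg (y - cen j z)]
  apply h
  intro x hx
  refine ⟨i, y, hy, ?_⟩
  have h3 := dc_dist hx
  have h4 : (2 : ℝ) ^ j ≤ (2 : ℝ) ^ i := zpow_le_zpow_right₀ one_le_two hi.le
  have hs := Real.sqrt_nonneg (d : ℝ)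
  calc ‖x - y‖ = ‖(x - cen j z) - (y - cen j z)‖ := by congr 1; abel
    _ ≤ ‖x - cen j z‖ + ‖y - cen j z‖ := norm_sub_le _ _
    _ ≤ √d * (2 : ℝ) ^ j + r * (2 : ℝ) ^ j := add_le_add h3 hyb
    _ = (r + √d) * (2 : ℝ) ^ j := by ring
    _ ≤ c * (2 : ℝ) ^ i := mul_le_mul hc h4 h2.le (by linarith)

end Pool.Agent.Lib.MP_ff3fe0_an_SPH
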