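import Pool.Agent.Lib.MP_ff3fe0_an_SPH.SmB

set_option autoImplicit false

/-!
# The spherical maximal function of a test function
-/

namespace Pool.Agent.Lib.MP_ff3fe0_an_SPH

open MeasureTheory Metric Set
open scoped ENNReal NNReal ContDiff FourierTransform
open Pool.Agent.Lib.MP_ff3fe0_an

variable {d : ℕ}

private theorem RadA_eq (hd : 0 < d) {g : E d → ℝ} (hg : Continuous g) (h0 : ∀ x, 0 ≤ g x)
    (t : ℝ) (x : E d) : ∫⁻ y : Sph d, ‖g (x - t • (y : E d))‖ₑ ∂(sigma d) =
      ENNReal.ofReal (sm g t x) := by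
  have := sigma_prob hd
  have hcont : Continuous (fun w : Sph d => g (x - t • (w : E d))) := by fun_prop
  have hint : Integrable (fun w : Sph d => g (x - t • (w : E d))) (sigma d) :=
    hcont.integrable_of_hasCompactSupport (HasCompactSupport.of_compactSpace _)
  unfold sm
  rw [ofReal_integral_eq_lintegral_ofReal hint (Filter.Eventually.of_forall fun w => h0 _)]
  refine lintegral_congr fun w => ?_
  rw [Real.enorm_eq_ofReal (h0 _)]

theorem sphMax_eq (hd : 0 < d) {g : E d → ℝ} (hg : ContDiff ℝ ∞ g) (hc : HasCompactSupport g)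
    (h0 : ∀ x, 0 ≤ g x) (x : E d) : sphMax g x ≠ ⊤ ∧
      IsLUB ((fun t => sm g t x) '' Ioi 0) (sphMax g x).toReal := by
  have := sigma_prob hd
  obtain ⟨C, hC⟩ := hc.exists_bound_of_continuous hg.continuous
  have hS : sphMax g x = ⨆ t : ℝ, ⨆ _ : 0 < t, ENNReal.ofReal (sm g t x) := by
    unfold sphMax
    refine iSup_congr fun t => iSup_congr fun _ => ?_
    exact RadA_eq hd hg.continuous h0 t x
  have hsm : ∀ t, sm g t x ≤ C := by
    intro t
    have hcont : Continuous (fun w : Sph d => g (x - t • (w : E d))) :=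
      hg.continuous.comp (by fun_prop)
    have hint : Integrable (fun w : Sph d => g (x - t • (w : E d))) (sigma d) :=
      hcont.integrable_of_hasCompactSupport (HasCompactSupport.of_compactSpace _)
    have h1 : sm g t x ≤ ∫ _w : Sph d, C ∂(sigma d) :=
      integral_mono hint (integrable_const _) fun w => (le_abs_self _).trans (hC _)
    rwa [integral_const, probReal_univ, one_smul] at h1
  have hpos : ∀ t, 0 ≤ sm g t x := fun t => integral_nonneg fun _ => h0 _
  have htop : sphMax g x ≠ ⊤ := by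
    rw [hS]
    refine ne_top_of_le_ne_top (ENNReal.ofReal_ne_top (r := C)) ?_
    exact iSup_le fun t => iSup_le fun _ => ENNReal.ofReal_le_ofReal (hsm t)
  refine ⟨htop, ?_, ?_⟩
  · rintro _ ⟨t, ht, rfl⟩
    change sm g t x ≤ (sphMax g x).toReal
    rw [← ENNReal.toReal_ofReal (hpos t)]
    refine ENNReal.toReal_mono htop ?_
    rw [hS]
    exact le_iSup₂ (f := fun (t : ℝ) (_ : 0 < t) => ENNReal.ofReal (sm g t x)) t ht
  · intro b hb
    have hb' : ∀ t : ℝ, 0 < t → sm g t x ≤ b := fun t ht => hb ⟨t, ht, rfl⟩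
    have hb0 : 0 ≤ b := (hpos 1).trans (hb' 1 one_pos)
    refine ENNReal.toReal_le_of_le_ofReal hb0 ?_
    rw [hS]
    exact iSup_le fun t => iSup_le fun ht => ENNReal.ofReal_le_ofReal (hb' t ht)

end Pool.Agent.Lib.MP_ff3fe0_an_SPH
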