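import Pool.Agent.Lib.MP_ff3fe0_an_SPH.SmA

set_option autoImplicit false

/-!
# The gradient of a spherical mean
-/

namespace Pool.Agent.Lib.MP_ff3fe0_an_SPH

open MeasureTheory Metric Set
open scoped ENNReal NNReal ContDiff FourierTransform
open Pool.Agent.Lib.MP_ff3fe0_an

variable {d : ℕ}

/-- continuous functions on the sphere are integrable -/
private theorem rotA_int (hd : 0 < d) {F : Type*} [NormedAddCommGroup F] {f : Sph d → F}
    (hf : Continuous f) : Integrable f (sigma d) := by
  have := sigma_prob hd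
  exact hf.integrable_of_hasCompactSupport (HasCompactSupport.of_compactSpace f)

/-- differentiation under the integral over the sphere -/
private theorem rotA_deriv (hd : 0 < d) {F : Type*} [NormedAddCommGroup F] [NormedSpace ℝ F]
    {f f' : ℝ → Sph d → F} (hf : ∀ s, Continuous (f s))
    (hf' : Continuous (fun p : ℝ × Sph d => f' p.1 p.2))
    (hd' : ∀ w s, HasDerivAt (fun s => f s w) (f' s w) s) (s₀ : ℝ) :
    HasDerivAt (fun s => ∫ w, f s w ∂(sigma d)) (∫ w, f' s₀ w ∂(sigma d)) s₀ := by
  have := sigma_prob hd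
  have hK : IsCompact (closedBall s₀ 1 ×ˢ (univ : Set (Sph d))) :=
    (isCompact_closedBall s₀ 1).prod isCompact_univ
  obtain ⟨M, hM⟩ := hK.exists_bound_of_continuousOn hf'.continuousOn
  have hc0 : Continuous (f' s₀) := hf'.comp (Continuous.prodMk continuous_const continuous_id)
  refine (hasDerivAt_integral_of_dominated_loc_of_deriv_le (bound := fun _ => M)
    (closedBall_mem_nhds s₀ one_pos) ?_ (rotA_int hd (hf s₀)) ?_ ?_ (integrable_const M) ?_).2
  · exact Filter.Eventually.of_forall fun s => (rotA_int hd (hf s)).aestronglyMeasurable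
  · exact (rotA_int hd hc0).aestronglyMeasurable
  · refine Filter.Eventually.of_forall fun w s hs => ?_
    exact hM (s, w) ⟨hs, mem_univ _⟩
  · exact Filter.Eventually.of_forall fun w s _ => hd' w s

/-- the unit vectors in the plane of two coordinates -/
private noncomputable def rotA_u (i j : Fin d) (θ : ℝ) : E d :=
  Real.cos θ • EuclideanSpace.single i (1 : ℝ) + Real.sin θ • EuclideanSpace.single j (1 : ℝ)

private theorem rotA_u_norm {i j : Fin d} (hij : i ≠ j) (θ : ℝ) : ‖rotA_u i j θ‖ = 1 := by
  have h : ‖rotA_u i j θ‖ ^ 2 = 1 := by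
    rw [rotA_u, ← real_inner_self_eq_norm_sq, inner_add_left, inner_add_right, inner_add_right]
    simp only [inner_smul_left, inner_smul_right, EuclideanSpace.inner_single_left,
      EuclideanSpace.inner_single_right, PiLp.single_apply, hij, hij.symm]
    simp
    nlinarith [Real.sin_sq_add_cos_sq θ]
  nlinarith [norm_nonneg (rotA_u i j θ)]

private theorem rotA_u_deriv (i j : Fin d) (θ : ℝ) : HasDerivAt (rotA_u i j)
    (-Real.sin θ • EuclideanSpace.single i (1 : ℝ) +
      Real.cos θ • EuclideanSpace.single j (1 : ℝ)) θ :=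
  ((Real.hasDerivAt_cos θ).smul_const _).add ((Real.hasDerivAt_sin θ).smul_const _)

/-- derivative of `rotA_u` -/
private noncomputable def rotA_v (i j : Fin d) (θ : ℝ) : E d :=
  -Real.sin θ • EuclideanSpace.single i (1 : ℝ) + Real.cos θ • EuclideanSpace.single j (1 : ℝ)

private theorem rotA_u_cont (i j : Fin d) : Continuous (rotA_u i j) :=
  continuous_iff_continuousAt.2 fun θ => (rotA_u_deriv i j θ).continuousAt

private theorem rotA_v_cont (i j : Fin d) : Continuous (rotA_v i j) := by
  unfold rotA_v
  fun_prop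

/-- the reflections -/
private noncomputable def rotA_A (i j : Fin d) (θ : ℝ) (w : E d) : E d :=
  (2 * inner ℝ (rotA_u i j θ) w) • rotA_u i j θ - w

private noncomputable def rotA_B (i j : Fin d) (θ : ℝ) (w : E d) : E d :=
  (2 * inner ℝ (rotA_u i j θ) w) • rotA_v i j θ + (2 * inner ℝ (rotA_v i j θ) w) • rotA_u i j θ

private theorem rotA_A_deriv (i j : Fin d) (w : E d) (θ : ℝ) :
    HasDerivAt (fun θ => rotA_A i j θ w) (rotA_B i j θ w) θ := by
  have h1 : HasDerivAt (fun θ => inner ℝ (rotA_u i j θ) w) (inner ℝ (rotA_v i j θ) w) θ := by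
    have h0 := (rotA_u_deriv i j θ).inner ℝ (hasDerivAt_const θ w)
    rw [inner_zero_right, zero_add] at h0
    exact h0
  exact ((h1.const_mul 2).smul (rotA_u_deriv i j θ)).sub_const w

private theorem rotA_A_cont1 (i j : Fin d) (s : ℝ) :
    Continuous (fun w : Sph d => rotA_A i j s w) := by
  unfold rotA_A
  fun_prop

private theorem rotA_A_cont (i j : Fin d) :
    Continuous (fun p : ℝ × Sph d => rotA_A i j p.1 p.2) := by
  have huc := rotA_u_cont i j
  unfold rotA_A
  fun_prop

private theorem rotA_B_cont (i j : Fin d) :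
    Continuous (fun p : ℝ × Sph d => rotA_B i j p.1 p.2) := by
  have huc := rotA_u_cont i j
  have hvc := rotA_v_cont i j
  unfold rotA_B
  fun_prop

private theorem rotA_refl {i j : Fin d} (hij : i ≠ j) (θ : ℝ) (w : E d) :
    rotA_A i j θ w = (ℝ ∙ rotA_u i j θ).reflection w := by
  rw [Submodule.reflection_singleton_apply, rotA_u_norm hij, rotA_A]
  norm_num
  rw [two_smul, ← add_smul]
  congr 2
  ring

private theorem rotA_const (hd : 0 < d) (G : E d → ℝ) {i j : Fin d} (hij : i ≠ j) (θ : ℝ) :
    ∫ w : Sph d, G (rotA_A i j θ w) ∂(sigma d) = ∫ w : Sph d, G w ∂(sigma d) := by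
  have h := integral_sigma_isometry hd ((ℝ ∙ rotA_u i j θ).reflection) G
  rw [← h]
  refine integral_congr_ae (Filter.Eventually.of_forall fun w => ?_)
  simp only [rotA_refl hij]

private theorem rotA_zero (hd : 0 < d) {G : E d → ℝ} (hG : ContDiff ℝ ∞ G) {i j : Fin d}
    (hij : i ≠ j) :
    ∫ w : Sph d, fderiv ℝ G (rotA_A i j 0 w) (rotA_B i j 0 w) ∂(sigma d) = 0 := by
  have hGd : Differentiable ℝ G := hG.differentiable (by simp)
  have hGc : Continuous (fderiv ℝ G) := hG.continuous_fderiv (by simp)
  have c1 : ∀ s : ℝ, Continuous fun w : Sph d => G (rotA_A i j s w) := fun s =>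
    hGd.continuous.comp (rotA_A_cont1 i j s)
  have c2 : Continuous fun p : ℝ × Sph d =>
      fderiv ℝ G (rotA_A i j p.1 p.2) (rotA_B i j p.1 p.2) :=
    (hGc.comp (rotA_A_cont i j)).clm_apply (rotA_B_cont i j)
  have c3 : ∀ (w : Sph d) (s : ℝ), HasDerivAt (fun s => G (rotA_A i j s w))
      (fderiv ℝ G (rotA_A i j s w) (rotA_B i j s w)) s := fun w s =>
    (hGd _).hasFDerivAt.comp_hasDerivAt s (rotA_A_deriv i j w s)
  have hder : HasDerivAt (fun θ => ∫ w : Sph d, G (rotA_A i j θ w) ∂(sigma d))
      (∫ w : Sph d, fderiv ℝ G (rotA_A i j 0 w) (rotA_B i j 0 w) ∂(sigma d)) 0 :=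
    rotA_deriv hd c1 c2 c3 0
  have h1 : HasDerivAt (fun θ => ∫ w : Sph d, G (rotA_A i j θ w) ∂(sigma d)) 0 0 := by
    have h2 : (fun θ => ∫ w : Sph d, G (rotA_A i j θ w) ∂(sigma d)) =
        fun _ => ∫ w : Sph d, G w ∂(sigma d) := funext (rotA_const hd G hij)
    rw [h2]
    exact hasDerivAt_const _ _
  exact hder.unique h1

private theorem rotA_fin (G : E d → ℝ) {i j : Fin d} (hij : i ≠ j) (w : E d) :
    fderiv ℝ G (rotA_A i j 0 ((ℝ ∙ rotA_u i j 0).reflection w))
      (rotA_B i j 0 ((ℝ ∙ rotA_u i j 0).reflection w)) =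
      2 * (w i * pd j G w - w j * pd i G w) := by
  have hu0 : rotA_u i j 0 = EuclideanSpace.single i (1 : ℝ) := by simp [rotA_u]
  have hv0 : rotA_v i j 0 = EuclideanSpace.single j (1 : ℝ) := by simp [rotA_v]
  have hAi : inner ℝ (rotA_u i j 0) (rotA_A i j 0 w) = w i := by
    rw [rotA_A, hu0, inner_sub_right, inner_smul_right, EuclideanSpace.inner_single_left,
      EuclideanSpace.inner_single_left]
    simp
    ring
  have hAj : inner ℝ (rotA_v i j 0) (rotA_A i j 0 w) = - w j := by
    rw [rotA_A, hu0, hv0, inner_sub_right, inner_smul_right, EuclideanSpace.inner_single_left,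
      EuclideanSpace.inner_single_left, EuclideanSpace.inner_single_left]
    simp [hij.symm]
  have hBw : rotA_B i j 0 (rotA_A i j 0 w) = (2 * w i) • EuclideanSpace.single j (1 : ℝ) -
      (2 * w j) • EuclideanSpace.single i (1 : ℝ) := by
    rw [rotA_B, hAi, hAj, hu0, hv0, mul_neg, neg_smul, sub_eq_add_neg]
  have e1 : rotA_A i j 0 ((ℝ ∙ rotA_u i j 0).reflection w) = w := by
    rw [rotA_refl hij, Submodule.reflection_reflection]
  rw [e1, ← rotA_refl hij, hBw, map_sub, map_smul, map_smul, smul_eq_mul, smul_eq_mul, pd, pd]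
  ring

/-- invariance under infinitesimal rotations -/
private theorem rotA_rot (hd : 0 < d) {G : E d → ℝ} (hG : ContDiff ℝ ∞ G) {i j : Fin d}
    (hij : i ≠ j) :
    ∫ w : Sph d, ((w : E d) i * pd j G w - (w : E d) j * pd i G w) ∂(sigma d) = 0 := by
  have hsub := integral_sigma_isometry hd ((ℝ ∙ rotA_u i j 0).reflection)
    (fun w : E d => fderiv ℝ G (rotA_A i j 0 w) (rotA_B i j 0 w))
  rw [rotA_zero hd hG hij] at hsub
  rw [integral_congr_ae (Filter.Eventually.of_forall fun w : Sph d => rotA_fin G hij (w : E d)),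
    integral_const_mul] at hsub
  linarith

/-- The `i`-th component of `∫ ∂_i G`. -/
private theorem rotA_comp (hd : 0 < d) {G : E d → ℝ} (hG : ContDiff ℝ ∞ G) (i : Fin d) :
    ∫ w : Sph d, pd i G w ∂(sigma d) =
      ∫ w : Sph d, (w : E d) i * ∑ j, (w : E d) j * pd j G w ∂(sigma d) +
        ((d : ℝ) - 1) * ∫ w : Sph d, (w : E d) i * G w ∂(sigma d) := by
  have hGd : Differentiable ℝ G := hG.differentiable (by simp)
  have hpdc : ∀ j, Continuous (pd j G) := fun j =>
    (hG.continuous_fderiv (by simp)).clm_apply continuous_const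
  have hco : ∀ j, Continuous fun w : Sph d => (w : E d) j := fun j => by
    exact (EuclideanSpace.proj (𝕜 := ℝ) j).continuous.comp continuous_subtype_val
  have hpdS : ∀ j, Continuous fun w : Sph d => pd j G w := fun j =>
    (hpdc j).comp continuous_subtype_val
  have hGS : Continuous fun w : Sph d => G w := hG.continuous.comp continuous_subtype_val
  have hj : ∀ j, ∫ w : Sph d, ((w : E d) i * ((w : E d) j * pd j G w) + (w : E d) i * G w -
      (w : E d) j * ((w : E d) j * pd i G w)) ∂(sigma d) =
      if j = i then ∫ w : Sph d, (w : E d) i * G w ∂(sigma d) else 0 := by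
    intro j
    split_ifs with h
    · subst h
      refine integral_congr_ae (Filter.Eventually.of_forall fun w => ?_)
      simp only
      ring
    · have hH : ContDiff ℝ ∞ fun y : E d => G y * y j :=
        hG.mul (EuclideanSpace.proj (𝕜 := ℝ) j).contDiff
      have h1 := rotA_rot hd hH (i := i) (j := j) (Ne.symm h)
      have hfd : ∀ y : E d, ∀ l : Fin d, pd l (fun y : E d => G y * y j) y =
          G y * (if l = j then 1 else 0) + y j * pd l G y := by
        intro y l
        have h2 : HasFDerivAt (fun y : E d => G y * y j)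
            (G y • (EuclideanSpace.proj (𝕜 := ℝ) j : E d →L[ℝ] ℝ) + y j • fderiv ℝ G y) y :=
          (hGd y).hasFDerivAt.mul (EuclideanSpace.proj (𝕜 := ℝ) j : E d →L[ℝ] ℝ).hasFDerivAt
        rw [pd, h2.fderiv]
        simp [pd, PiLp.single_apply, eq_comm]
      rw [← h1]
      refine integral_congr_ae (Filter.Eventually.of_forall fun w => ?_)
      simp only [hfd, if_true, if_neg (Ne.symm h)]
      ring
  have hsum : ∑ j, ∫ w : Sph d, ((w : E d) i * ((w : E d) j * pd j G w) + (w : E d) i * G w -
      (w : E d) j * ((w : E d) j * pd i G w)) ∂(sigma d) =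
      ∫ w : Sph d, (w : E d) i * G w ∂(sigma d) := by
    rw [Finset.sum_congr rfl fun j _ => hj j]
    simp
  have hI : ∀ j ∈ Finset.univ, Integrable (fun w : Sph d =>
      (w : E d) i * ((w : E d) j * pd j G w) + (w : E d) i * G w -
      (w : E d) j * ((w : E d) j * pd i G w)) (sigma d) := fun j _ => rotA_int hd
    ((((hco i).mul ((hco j).mul (hpdS j))).add ((hco i).mul hGS)).sub
      ((hco j).mul ((hco j).mul (hpdS i))))
  rw [← integral_finsetSum _ hI] at hsum
  have hpt : ∀ w : Sph d, ∑ j, ((w : E d) i * ((w : E d) j * pd j G w) + (w : E d) i * G w -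
      (w : E d) j * ((w : E d) j * pd i G w)) =
      (w : E d) i * ∑ j, (w : E d) j * pd j G w + (d : ℝ) * ((w : E d) i * G w) -
        pd i G w := by
    intro w
    have hn : ∑ j, (w : E d) j * (w : E d) j = 1 := by
      have h1 : ‖(w : E d)‖ = 1 := by simp
      have h2 := EuclideanSpace.norm_sq_eq (w : E d)
      rw [h1] at h2
      simp only [Real.norm_eq_abs, sq_abs] at h2
      simp only [← sq]
      linarith
    have h1 : ∑ j, (w : E d) j * ((w : E d) j * pd i G w) = pd i G w := by
      simp only [← mul_assoc]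
      rw [← Finset.sum_mul, hn, one_mul]
    rw [Finset.sum_sub_distrib, Finset.sum_add_distrib, ← Finset.mul_sum, h1,
      Finset.sum_const, Finset.card_univ, Fintype.card_fin, nsmul_eq_mul]
  rw [integral_congr_ae (Filter.Eventually.of_forall hpt), integral_sub, integral_add,
    integral_const_mul] at hsum
  · linarith
  · exact rotA_int hd ((hco i).mul (continuous_finsetSum _ fun j _ => (hco j).mul (hpdS j)))
  · exact rotA_int hd (continuous_const.mul ((hco i).mul hGS))
  · exact rotA_int hd (((hco i).mul (continuous_finsetSum _ fun j _ =>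
      (hco j).mul (hpdS j))).add (continuous_const.mul ((hco i).mul hGS)))
  · exact rotA_int hd (hpdS i)

private theorem rotA_lin (L : E d →L[ℝ] ℝ) (v : E d) :
    L v = ∑ j, v j * L (EuclideanSpace.single j (1 : ℝ)) := by
  conv_lhs => rw [← (EuclideanSpace.basisFun (Fin d) ℝ).sum_repr v]
  rw [map_sum]
  refine Finset.sum_congr rfl fun j _ => ?_
  rw [map_smul, smul_eq_mul]
  simp

/-- Decomposition of the gradient of a spherical mean into a radial part and a remainder. -/
theorem sm_gradient_eq (hd : 0 < d) {g : E d → ℝ} (hg : ContDiff ℝ ∞ g) {t : ℝ} (ht : t ≠ 0)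
    (x : E d) : gradient (sm g t) x =
      (∫ w : Sph d, inner ℝ (gradient g (x - t • (w : E d))) (w : E d) • (w : E d) ∂(sigma d)) -
        (((d : ℝ) - 1) / t) • ∫ w : Sph d, g (x - t • (w : E d)) • (w : E d) ∂(sigma d) := by
  have hgd : Differentiable ℝ g := hg.differentiable (by simp)
  have hgc : Continuous (fderiv ℝ g) := hg.continuous_fderiv (by simp)
  have hx : Continuous fun w : Sph d => x - t • (w : E d) := by fun_prop
  have hin : ∀ y v : E d, inner ℝ (gradient g y) v = fderiv ℝ g y v := by
    intro y v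
    rw [gradient, InnerProductSpace.toDual_symm_apply]
  have hc1 : Continuous fun w : Sph d =>
      inner ℝ (gradient g (x - t • (w : E d))) (w : E d) • (w : E d) := by
    simp only [hin]
    exact ((hgc.comp hx).clm_apply continuous_subtype_val).smul continuous_subtype_val
  have hc2 : Continuous fun w : Sph d => g (x - t • (w : E d)) • (w : E d) :=
    (hg.continuous.comp hx).smul continuous_subtype_val
  ext i
  have hproj : ∀ {f : Sph d → E d}, Continuous f →
      (∫ w, f w ∂(sigma d)) i = ∫ w, f w i ∂(sigma d) := by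
    intro f hf
    exact ((EuclideanSpace.proj (𝕜 := ℝ) i : E d →L[ℝ] ℝ).integral_comp_comm
      (rotA_int hd hf)).symm
  set G : E d → ℝ := fun y => g (x - t • y) with hG
  have hGs : ContDiff ℝ ∞ G := hg.comp (by fun_prop)
  have hpd : ∀ (j : Fin d) (y : E d), pd j G y = -(t * pd j g (x - t • y)) := by
    intro j y
    have h1 : HasFDerivAt (fun y : E d => x - t • y) (-(t • ContinuousLinearMap.id ℝ (E d))) y :=
      ((hasFDerivAt_id y).const_smul t).const_sub x
    have h2 : HasFDerivAt G ((fderiv ℝ g (x - t • y)).comp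
        (-(t • ContinuousLinearMap.id ℝ (E d)))) y := (hgd _).hasFDerivAt.comp y h1
    rw [pd, h2.fderiv, pd]
    simp
  have key := rotA_comp hd hGs i
  simp only [hpd] at key
  rw [PiLp.sub_apply, PiLp.smul_apply, hproj hc1, hproj hc2, sm_gradient hd hg, sm]
  have e1 : ∫ w : Sph d, (inner ℝ (gradient g (x - t • (w : E d))) (w : E d) • (w : E d)) i
      ∂(sigma d) = ∫ w : Sph d, (w : E d) i * ∑ j, (w : E d) j * pd j g (x - t • (w : E d))
      ∂(sigma d) := by
    refine integral_congr_ae (Filter.Eventually.of_forall fun w => ?_)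
    simp only [PiLp.smul_apply, smul_eq_mul]
    rw [hin, mul_comm, rotA_lin]
    simp only [pd]
  have e2 : ∫ w : Sph d, (g (x - t • (w : E d)) • (w : E d)) i ∂(sigma d) =
      ∫ w : Sph d, (w : E d) i * G w ∂(sigma d) := by
    refine integral_congr_ae (Filter.Eventually.of_forall fun w => ?_)
    simp only [PiLp.smul_apply, smul_eq_mul, hG]
    ring
  rw [e1, e2]
  have e3 : ∫ w : Sph d, -(t * pd i g (x - t • (w : E d))) ∂(sigma d) =
      -(t * ∫ w : Sph d, pd i g (x - t • (w : E d)) ∂(sigma d)) := by
    rw [integral_neg, integral_const_mul]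
  have e4 : ∫ w : Sph d, (w : E d) i * ∑ j, (w : E d) j * -(t * pd j g (x - t • (w : E d)))
      ∂(sigma d) = -(t * ∫ w : Sph d, (w : E d) i *
        ∑ j, (w : E d) j * pd j g (x - t • (w : E d)) ∂(sigma d)) := by
    rw [← integral_const_mul, ← integral_neg]
    refine integral_congr_ae (Filter.Eventually.of_forall fun w => ?_)
    simp only [Finset.mul_sum, ← Finset.sum_neg_distrib]
    refine Finset.sum_congr rfl fun j _ => ?_
    ring
  rw [e3, e4] at key
  rw [smul_eq_mul]
  field_simp
  linarith

/-- The derivative of the vector-valued spherical mean. -/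
theorem vec_deriv (hd : 0 < d) {g : E d → ℝ} (hg : ContDiff ℝ ∞ g) {t : ℝ} (ht : t ≠ 0)
    (x : E d) : deriv (fun s => ∫ w : Sph d, g (x - s • (w : E d)) • (w : E d) ∂(sigma d)) t =
      - gradient (sm g t) x -
        (((d : ℝ) - 1) / t) • ∫ w : Sph d, g (x - t • (w : E d)) • (w : E d) ∂(sigma d) := by
  have hgd : Differentiable ℝ g := hg.differentiable (by simp)
  have hgc : Continuous (fderiv ℝ g) := hg.continuous_fderiv (by simp)
  have hin : ∀ y v : E d, inner ℝ (gradient g y) v = fderiv ℝ g y v := by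
    intro y v
    rw [gradient, InnerProductSpace.toDual_symm_apply]
  have hder := rotA_deriv hd (f := fun s w => g (x - s • (w : E d)) • (w : E d))
    (f' := fun s w => (fderiv ℝ g (x - s • (w : E d)) (-(w : E d))) • (w : E d))
    (fun s => (hg.continuous.comp
      (by fun_prop : Continuous fun w : Sph d => x - s • (w : E d))).smul
      continuous_subtype_val)
    (((hgc.comp (by fun_prop :
      Continuous fun p : ℝ × Sph d => x - p.1 • ((p.2 : Sph d) : E d))).clm_apply
      (by fun_prop : Continuous fun p : ℝ × Sph d => -((p.2 : Sph d) : E d))).smul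
      (by fun_prop : Continuous fun p : ℝ × Sph d => ((p.2 : Sph d) : E d)))
    (fun w s => by
      have h1 : HasDerivAt (fun s : ℝ => x - s • (w : E d)) (-(w : E d)) s := by
        have := ((hasDerivAt_id s).smul_const (w : E d)).const_sub x
        simpa using this
      exact ((hgd _).hasFDerivAt.comp_hasDerivAt s h1).smul_const _) t
  rw [hder.deriv, sm_gradient_eq hd hg ht x]
  have e1 : ∫ w : Sph d, (fderiv ℝ g (x - t • (w : E d)) (-(w : E d))) • (w : E d) ∂(sigma d) =
      -∫ w : Sph d, inner ℝ (gradient g (x - t • (w : E d))) (w : E d) • (w : E d)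
        ∂(sigma d) := by
    rw [← integral_neg]
    refine integral_congr_ae (Filter.Eventually.of_forall fun w => ?_)
    simp only [hin, map_neg, neg_smul]
  rw [e1]
  abel

end Pool.Agent.Lib.MP_ff3fe0_an_SPH
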