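import Pool.Agent.Lib.MP_ff3fe0_an_SPH.SigA

set_option autoImplicit false

/-!
# Spherical means of smooth functions
-/

namespace Pool.Agent.Lib.MP_ff3fe0_an_SPH

open MeasureTheory Metric Set
open scoped ENNReal NNReal ContDiff FourierTransform
open Pool.Agent.Lib.MP_ff3fe0_an

variable {d : ℕ}

section SmAaux

variable {P : Type} [NormedAddCommGroup P] [NormedSpace ℝ P] [FiniteDimensional ℝ P]

private theorem SmA_int [IsFiniteMeasure (sigma d)] {F : Type} [NormedAddCommGroup F]
    [NormedSpace ℝ F] [CompleteSpace F] {f : Sph d → F} (hf : Continuous f) :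
    Integrable f (sigma d) := by
  exact integrableOn_univ.mp (hf.continuousOn.integrableOn_compact isCompact_univ)

private noncomputable def SmA_D {F : Type} [NormedAddCommGroup F] [NormedSpace ℝ F]
    (H : P × E d → F) (q : P × E d) : P →L[ℝ] F :=
  (fderiv ℝ H q).comp (ContinuousLinearMap.inl ℝ P (E d))

private theorem SmA_D_cd {F : Type} [NormedAddCommGroup F] [NormedSpace ℝ F]
    {H : P × E d → F} (hH : ContDiff ℝ ∞ H) : ContDiff ℝ ∞ (SmA_D H) := by
  unfold SmA_D
  have h1 : ContDiff ℝ ∞ (fderiv ℝ H) := hH.fderiv_right (by simp)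
  exact h1.clm_comp contDiff_const

private theorem SmA_D_has {F : Type} [NormedAddCommGroup F] [NormedSpace ℝ F]
    {H : P × E d → F} (hH : ContDiff ℝ ∞ H) (p : P) (w : E d) :
    HasFDerivAt (fun p => H (p, w)) (SmA_D H (p, w)) p := by
  have h1 : HasFDerivAt H (fderiv ℝ H (p, w)) (p, w) :=
    (hH.differentiable (by simp) (p, w)).hasFDerivAt
  have h2 : HasFDerivAt (fun p : P => (p, w)) (ContinuousLinearMap.inl ℝ P (E d)) p :=
    hasFDerivAt_prodMk_left p w
  exact h1.comp p h2

private theorem SmA_der [IsFiniteMeasure (sigma d)] {F : Type} [NormedAddCommGroup F]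
    [NormedSpace ℝ F] [CompleteSpace F] {H : P × E d → F} (hH : ContDiff ℝ ∞ H) (p0 : P) :
    HasFDerivAt (fun p => ∫ w : Sph d, H (p, (w : E d)) ∂(sigma d))
      (∫ w : Sph d, SmA_D H (p0, (w : E d)) ∂(sigma d)) p0 := by
  have hDc : Continuous (SmA_D H) := (SmA_D_cd hH).continuous
  have hHc : Continuous H := hH.continuous
  have hcomp : IsCompact (closedBall p0 1 ×ˢ (sphere (0 : E d) 1)) :=
    (isCompact_closedBall p0 1).prod (isCompact_sphere 0 1)
  obtain ⟨C, hC⟩ := hcomp.exists_bound_of_continuousOn (f := SmA_D H) hDc.continuousOn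
  refine hasFDerivAt_integral_of_dominated_of_fderiv_le (F' := fun p (w : Sph d) =>
    SmA_D H (p, (w : E d))) (bound := fun _ => C) (s := ball p0 1)
    (ball_mem_nhds p0 one_pos) ?_ ?_ ?_ ?_ ?_ ?_
  · refine Filter.Eventually.of_forall (fun p => ?_)
    exact (SmA_int (hHc.comp (by fun_prop))).aestronglyMeasurable
  · exact SmA_int (hHc.comp (by fun_prop))
  · exact (SmA_int (hDc.comp (by fun_prop))).aestronglyMeasurable
  · refine Filter.Eventually.of_forall (fun w p hp => ?_)
    exact hC (p, (w : E d)) ⟨ball_subset_closedBall hp, w.2⟩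
  · exact integrable_const _
  · refine Filter.Eventually.of_forall (fun w p hp => ?_)
    exact SmA_D_has hH p w

private theorem SmA_cdn [IsFiniteMeasure (sigma d)] (n : ℕ) : ∀ {F : Type}
    [NormedAddCommGroup F] [NormedSpace ℝ F] [CompleteSpace F] {H : P × E d → F},
    ContDiff ℝ ∞ H → ContDiff ℝ n (fun p => ∫ w : Sph d, H (p, (w : E d)) ∂(sigma d)) := by
  induction n with
  | zero =>
    intro F _ _ _ H hH
    rw [Nat.cast_zero, contDiff_zero]
    exact continuous_iff_continuousAt.mpr (fun p => (SmA_der hH p).continuousAt)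
  | succ n ih =>
    intro F _ _ _ H hH
    rw [Nat.cast_succ, contDiff_succ_iff_hasFDerivAt]
    exact ⟨fun p => ∫ w : Sph d, SmA_D H (p, (w : E d)) ∂(sigma d), ih (SmA_D_cd hH),
      fun p => SmA_der hH p⟩

private theorem SmA_cd [IsFiniteMeasure (sigma d)] {F : Type}
    [NormedAddCommGroup F] [NormedSpace ℝ F] [CompleteSpace F] {H : P × E d → F}
    (hH : ContDiff ℝ ∞ H) :
    ContDiff ℝ ∞ (fun p => ∫ w : Sph d, H (p, (w : E d)) ∂(sigma d)) :=
  contDiff_infty.mpr (fun n => SmA_cdn n hH)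

/-- the `k`-th derivative in the first variable of a smooth function on `ℝ × P` -/
private theorem SmA_iter {F : Type} [NormedAddCommGroup F] [NormedSpace ℝ F]
    {Φ : ℝ × P → F} (hΦ : ContDiff ℝ ∞ Φ) (k : ℕ) :
    ContDiff ℝ ∞ (fun p : ℝ × P => iteratedDeriv k (fun s => Φ (s, p.2)) p.1) := by
  induction k with
  | zero => simpa only [iteratedDeriv_zero, Prod.mk.eta] using hΦ
  | succ k ih =>
    have h1 : (fun p : ℝ × P => iteratedDeriv (k + 1) (fun s => Φ (s, p.2)) p.1) =
        fun p => fderiv ℝ (fun p : ℝ × P => iteratedDeriv k (fun s => Φ (s, p.2)) p.1) p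
          ((1 : ℝ), (0 : P)) := by
      funext p
      rw [iteratedDeriv_succ]
      have h2 : HasFDerivAt (fun p : ℝ × P => iteratedDeriv k (fun s => Φ (s, p.2)) p.1)
          (fderiv ℝ (fun p : ℝ × P => iteratedDeriv k (fun s => Φ (s, p.2)) p.1) p) p :=
        (ih.differentiable (by simp) p).hasFDerivAt
      have h3 : HasDerivAt (fun s : ℝ => (s, p.2)) ((1 : ℝ), (0 : P)) p.1 :=
        (hasDerivAt_id p.1).prodMk (hasDerivAt_const p.1 p.2)
      have h4 := HasFDerivAt.comp_hasDerivAt p.1 (f := fun s : ℝ => (s, p.2)) h2 h3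
      exact h4.deriv
    rw [h1]
    have h5 := ih.fderiv_right (m := ∞) (by simp)
    exact h5.clm_apply contDiff_const

private theorem SmA_deriv_eq [IsFiniteMeasure (sigma d)] {F : Type} [NormedAddCommGroup F]
    [NormedSpace ℝ F] [CompleteSpace F] {H : ℝ × E d → F} (hH : ContDiff ℝ ∞ H) (t : ℝ) :
    deriv (fun s => ∫ w : Sph d, H (s, (w : E d)) ∂(sigma d)) t =
      ∫ w : Sph d, deriv (fun s => H (s, (w : E d))) t ∂(sigma d) := by
  have h1 := (SmA_der hH t).hasDerivAt
  rw [h1.deriv, ContinuousLinearMap.integral_apply]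
  · refine integral_congr_ae (Filter.Eventually.of_forall (fun w => ?_))
    exact (SmA_D_has hH t w).hasDerivAt.deriv.symm
  · exact SmA_int ((SmA_D_cd hH).continuous.comp (by fun_prop))

private theorem SmA_iter_eq [IsFiniteMeasure (sigma d)] (k : ℕ) : ∀ {F : Type}
    [NormedAddCommGroup F] [NormedSpace ℝ F] [CompleteSpace F] {H : ℝ × E d → F},
    ContDiff ℝ ∞ H → ∀ t : ℝ,
    iteratedDeriv k (fun s => ∫ w : Sph d, H (s, (w : E d)) ∂(sigma d)) t =
      ∫ w : Sph d, iteratedDeriv k (fun s => H (s, (w : E d))) t ∂(sigma d) := by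
  induction k with
  | zero =>
    intro F _ _ _ H hH t
    simp only [iteratedDeriv_zero]
  | succ k ih =>
    intro F _ _ _ H hH t
    simp only [iteratedDeriv_succ']
    have h1 : deriv (fun s => ∫ w : Sph d, H (s, (w : E d)) ∂(sigma d)) =
        fun s => ∫ w : Sph d, (SmA_D H (s, (w : E d))) 1 ∂(sigma d) := by
      funext s
      rw [SmA_deriv_eq hH]
      refine integral_congr_ae (Filter.Eventually.of_forall (fun w => ?_))
      exact (SmA_D_has hH s w).hasDerivAt.deriv
    have h2 : ContDiff ℝ ∞ (fun q : ℝ × E d => (SmA_D H q) 1) :=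
      (SmA_D_cd hH).clm_apply contDiff_const
    rw [h1, ih h2 t]
    refine integral_congr_ae (Filter.Eventually.of_forall (fun w => ?_))
    have h3 : (fun s => (SmA_D H (s, (w : E d))) 1) = deriv (fun s => H (s, (w : E d))) := by
      funext s
      exact ((SmA_D_has hH s w).hasDerivAt.deriv).symm
    simp only [h3]

end SmAaux

private theorem SmA_sm_cd (hd : 0 < d) {g : E d → ℝ} (hg : ContDiff ℝ ∞ g) :
    ContDiff ℝ ∞ (fun p : ℝ × E d => sm g p.1 p.2) := by
  have := sigma_prob hd
  have hH : ContDiff ℝ ∞ (fun q : (ℝ × E d) × E d => g (q.1.2 - q.1.1 • q.2)) :=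
    hg.comp (by fun_prop)
  exact SmA_cd hH

theorem sm_cont (hd : 0 < d) {g : E d → ℝ} (hg : ContDiff ℝ ∞ g) (k : ℕ) :
    Continuous (fun p : ℝ × E d => iteratedDeriv k (fun s => sm g s p.2) p.1) :=
  (SmA_iter (SmA_sm_cd hd hg) k).continuous

theorem sm_contDiff_t (hd : 0 < d) {g : E d → ℝ} (hg : ContDiff ℝ ∞ g) (x : E d) :
    ContDiff ℝ ∞ (fun s => sm g s x) :=
  (SmA_sm_cd hd hg).comp (f := fun s : ℝ => (s, x)) (by fun_prop)

theorem sm_contDiff_x (hd : 0 < d) {g : E d → ℝ} (hg : ContDiff ℝ ∞ g) (t : ℝ) :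
    ContDiff ℝ ∞ (sm g t) :=
  (SmA_sm_cd hd hg).comp (f := fun x : E d => (t, x)) (by fun_prop)

theorem sm_gradient (hd : 0 < d) {g : E d → ℝ} (hg : ContDiff ℝ ∞ g) (t : ℝ) (x : E d)
    (i : Fin d) : gradient (sm g t) x i = sm (pd i g) t x := by
  have := sigma_prob hd
  have hH : ContDiff ℝ ∞ (fun q : E d × E d => g (q.1 - t • q.2)) :=
    hg.comp (by fun_prop)
  have h0 : gradient (sm g t) x i = fderiv ℝ (sm g t) x (EuclideanSpace.single i 1) := by
    have h1 : inner ℝ (gradient (sm g t) x) (EuclideanSpace.single i (1 : ℝ)) =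
        fderiv ℝ (sm g t) x (EuclideanSpace.single i 1) := by
      unfold gradient
      exact InnerProductSpace.toDual_symm_apply
    rw [← h1, EuclideanSpace.inner_single_right]
    simp
  rw [h0]
  have h2 := SmA_der hH x
  have h3 : HasFDerivAt (sm g t)
      (∫ w : Sph d, SmA_D (fun q : E d × E d => g (q.1 - t • q.2)) (x, (w : E d)) ∂(sigma d)) x :=
    h2
  rw [h3.fderiv, ContinuousLinearMap.integral_apply]
  · unfold sm
    refine integral_congr_ae (Filter.Eventually.of_forall (fun w => ?_))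
    have h4 := SmA_D_has hH x w
    have h5 : HasFDerivAt (fun y : E d => g (y - t • (w : E d)))
        (fderiv ℝ g (x - t • (w : E d))) x := by
      have h6 : HasFDerivAt g (fderiv ℝ g (x - t • (w : E d))) (x - t • (w : E d)) :=
        (hg.differentiable (by simp) _).hasFDerivAt
      have h7 : HasFDerivAt (fun y : E d => y - t • (w : E d)) (ContinuousLinearMap.id ℝ (E d)) x :=
        (hasFDerivAt_id x).sub_const _
      have h8 := h6.comp x h7
      rwa [ContinuousLinearMap.comp_id] at h8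
    have h9 := h4.unique h5
    simp only [h9, pd]
  · exact SmA_int ((SmA_D_cd hH).continuous.comp (by fun_prop))

theorem sm_deriv (hd : 0 < d) {g : E d → ℝ} (hg : ContDiff ℝ ∞ g) (t : ℝ) (x : E d) :
    deriv (fun s => sm g s x) t =
      - ∫ w : Sph d, inner ℝ (gradient g (x - t • (w : E d))) (w : E d) ∂(sigma d) := by
  have := sigma_prob hd
  have hH : ContDiff ℝ ∞ (fun q : ℝ × E d => g (x - q.1 • q.2)) :=
    hg.comp (by fun_prop)
  have h1 := SmA_deriv_eq hH t
  rw [← integral_neg]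
  refine h1.trans ?_
  refine integral_congr_ae (Filter.Eventually.of_forall (fun w => ?_))
  have h6 : HasFDerivAt g (fderiv ℝ g (x - t • (w : E d))) (x - t • (w : E d)) :=
    (hg.differentiable (by simp) _).hasFDerivAt
  have h7 : HasDerivAt (fun s : ℝ => x - s • (w : E d)) (-(w : E d)) t := by
    have h8 := ((hasDerivAt_id t).smul_const (w : E d)).const_sub x
    simpa using h8
  have h9 := (h6.comp_hasDerivAt t h7).deriv
  have h10 : inner ℝ (gradient g (x - t • (w : E d))) (w : E d) =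
      fderiv ℝ g (x - t • (w : E d)) (w : E d) := by
    unfold gradient
    exact InnerProductSpace.toDual_symm_apply
  show deriv (fun s => g (x - s • (w : E d))) t =
    -inner ℝ (gradient g (x - t • (w : E d))) (w : E d)
  rw [h10, ← map_neg]
  exact h9

theorem sm_iter_le (hd : 0 < d) {g : E d → ℝ} (hg : ContDiff ℝ ∞ g) (k : ℕ) (t : ℝ) (x : E d) :
    ‖iteratedDeriv k (fun s => sm g s x) t‖ₑ ≤
      ∫⁻ w : Sph d, ‖iteratedFDeriv ℝ k g (x - t • (w : E d))‖ₑ ∂(sigma d) := by
  have := sigma_prob hd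
  have hH : ContDiff ℝ ∞ (fun q : ℝ × E d => g (x - q.1 • q.2)) :=
    hg.comp (by fun_prop)
  have h1 : iteratedDeriv k (fun s => sm g s x) t =
      ∫ w : Sph d, iteratedDeriv k (fun s => g (x - s • (w : E d))) t ∂(sigma d) :=
    SmA_iter_eq k hH t
  rw [h1]
  refine (enorm_integral_le_lintegral_enorm _).trans (lintegral_mono (fun w => ?_))
  set L : ℝ →L[ℝ] E d := ContinuousLinearMap.toSpanSingleton ℝ (-(w : E d)) with hL
  have hw : ‖(w : E d)‖ = 1 := by
    have := w.2
    rwa [mem_sphere_zero_iff_norm] at this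
  have hLn : ‖L‖ ≤ 1 := by
    rw [hL, ContinuousLinearMap.norm_toSpanSingleton, norm_neg, hw]
  have h2 : (fun s : ℝ => g (x - s • (w : E d))) = (fun y => g (x + y)) ∘ L := by
    funext s
    simp [hL, ContinuousLinearMap.toSpanSingleton_apply, sub_eq_add_neg]
  have h3 : ContDiff ℝ ∞ (fun y => g (x + y)) := hg.comp (by fun_prop)
  have h4 : ‖iteratedDeriv k (fun s : ℝ => g (x - s • (w : E d))) t‖ ≤
      ‖iteratedFDeriv ℝ k g (x - t • (w : E d))‖ := by
    rw [← norm_iteratedFDeriv_eq_norm_iteratedDeriv, h2,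
      L.iteratedFDeriv_comp_right h3 t (i := k) (by exact_mod_cast le_top)]
    refine (ContinuousMultilinearMap.norm_compContinuousLinearMap_le _ _).trans ?_
    have h5 : ∏ i : Fin k, ‖(fun _ : Fin k => L) i‖ ≤ 1 :=
      Finset.prod_le_one (fun _ _ => norm_nonneg _) (fun _ _ => hLn)
    have h6 : iteratedFDeriv ℝ k (fun y => g (x + y)) (L t) =
        iteratedFDeriv ℝ k g (x - t • (w : E d)) := by
      rw [iteratedFDeriv_comp_add_left]
      congr 1
      simp [hL, ContinuousLinearMap.toSpanSingleton_apply, sub_eq_add_neg]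
    rw [h6]
    calc _ ≤ ‖iteratedFDeriv ℝ k g (x - t • (w : E d))‖ * 1 :=
        mul_le_mul_of_nonneg_left h5 (norm_nonneg _)
      _ = _ := mul_one _
  rw [← ofReal_norm, ← ofReal_norm]
  exact ENNReal.ofReal_le_ofReal h4

end Pool.Agent.Lib.MP_ff3fe0_an_SPH
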