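import Pool.Agent.Lib.MP_ff3fe0_an_SPH.SmA
import Pool.Agent.Lib.MP_ff3fe0_an_SPH.CvA

set_option autoImplicit false

/-!
# The maximum over t in terms of the square functions
-/

namespace Pool.Agent.Lib.MP_ff3fe0_an_SPH

open MeasureTheory Metric Set
open scoped ENNReal NNReal ContDiff FourierTransform
open Pool.Agent.Lib.MP_ff3fe0_an

variable {d : ℕ}

/-- the real inequality on an interval of length `h` -/
private theorem SobA_real {F : ℝ → ℝ} (hF : ContDiff ℝ 1 F) {a h t : ℝ} (hh : 0 < h)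
    (ht : t ∈ Icc a (a + h)) :
    F t ^ 2 ≤ 2 * h⁻¹ * (∫ s in a..(a + h), F s ^ 2) + h * ∫ s in a..(a + h), deriv F s ^ 2 := by
  have hab : a ≤ a + h := by linarith
  have hFc : Continuous F := hF.continuous
  have hFd : Differentiable ℝ F := hF.differentiable (by simp)
  have hF'c : Continuous (deriv F) := hF.continuous_deriv le_rfl
  have hprod : Continuous (fun s => 2 * F s * deriv F s) := by fun_prop
  have hkey : ∀ s ∈ Icc a (a + h), F t ^ 2 ≤ F s ^ 2 + ∫ u in a..(a + h),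
      (h⁻¹ * F u ^ 2 + h * deriv F u ^ 2) := by
    intro s hs
    have h1 : ∫ u in s..t, 2 * F u * deriv F u = F t ^ 2 - F s ^ 2 := by
      refine intervalIntegral.integral_eq_sub_of_hasDerivAt (f := fun u => F u ^ 2)
        (fun u _ => ?_) (hprod.intervalIntegrable _ _)
      have h2 := ((hFd u).hasDerivAt).pow 2
      refine h2.congr_deriv ?_
      norm_num
    have hb : ∀ u : ℝ, |2 * F u * deriv F u| ≤ h⁻¹ * F u ^ 2 + h * deriv F u ^ 2 := by
      intro u
      have h3 : h⁻¹ * F u ^ 2 + h * deriv F u ^ 2 - |2 * F u * deriv F u| =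
          h * (h⁻¹ * |F u| - |deriv F u|) ^ 2 := by
        rw [abs_mul, abs_mul, abs_two, sub_sq, mul_pow, sq_abs, sq_abs]
        field_simp
        ring
      have h4 : 0 ≤ h * (h⁻¹ * |F u| - |deriv F u|) ^ 2 := by positivity
      linarith
    have h5 : |∫ u in s..t, 2 * F u * deriv F u| ≤
        ∫ u in a..(a + h), (h⁻¹ * F u ^ 2 + h * deriv F u ^ 2) := by
      have hint : Continuous (fun u => h⁻¹ * F u ^ 2 + h * deriv F u ^ 2) := by fun_prop
      have h6 : |∫ u in s..t, 2 * F u * deriv F u| ≤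
          |∫ u in s..t, (h⁻¹ * F u ^ 2 + h * deriv F u ^ 2)| := by
        have h7 := intervalIntegral.norm_integral_le_abs_of_norm_le (μ := volume) (a := s)
          (b := t) (f := fun u => 2 * F u * deriv F u)
          (g := fun u => h⁻¹ * F u ^ 2 + h * deriv F u ^ 2)
          (Filter.Eventually.of_forall (fun u => by
            rw [Real.norm_eq_abs]; exact hb u)) (hint.intervalIntegrable _ _)
        simpa using h7
      refine h6.trans ?_
      have hnn : ∀ u : ℝ, 0 ≤ h⁻¹ * F u ^ 2 + h * deriv F u ^ 2 := fun u => by positivity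
      rcases le_total s t with hst | hst
      · rw [abs_of_nonneg (intervalIntegral.integral_nonneg hst (fun u _ => hnn u))]
        exact intervalIntegral.integral_mono_interval hs.1 hst ht.2
          (Filter.Eventually.of_forall hnn) (hint.intervalIntegrable _ _)
      · rw [intervalIntegral.integral_symm, abs_neg,
          abs_of_nonneg (intervalIntegral.integral_nonneg hst (fun u _ => hnn u))]
        exact intervalIntegral.integral_mono_interval ht.1 hst hs.2
          (Filter.Eventually.of_forall hnn) (hint.intervalIntegrable _ _)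
    rw [h1] at h5
    have := le_of_abs_le h5
    linarith
  set Q := ∫ u in a..(a + h), (h⁻¹ * F u ^ 2 + h * deriv F u ^ 2) with hQ
  have hint2 : ∫ s in a..(a + h), F t ^ 2 ≤ ∫ s in a..(a + h), (F s ^ 2 + Q) :=
    intervalIntegral.integral_mono_on hab (by simp)
      ((by fun_prop : Continuous (fun s => F s ^ 2 + Q)).intervalIntegrable _ _) hkey
  have hQ2 : Q = h⁻¹ * (∫ s in a..(a + h), F s ^ 2) + h * ∫ s in a..(a + h), deriv F s ^ 2 := by
    rw [hQ, intervalIntegral.integral_add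
      ((by fun_prop : Continuous (fun s => h⁻¹ * F s ^ 2)).intervalIntegrable _ _)
      ((by fun_prop : Continuous (fun s => h * deriv F s ^ 2)).intervalIntegrable _ _),
      intervalIntegral.integral_const_mul, intervalIntegral.integral_const_mul]
  rw [intervalIntegral.integral_add
      ((by fun_prop : Continuous (fun s => F s ^ 2)).intervalIntegrable _ _)
      (by simp), intervalIntegral.integral_const, intervalIntegral.integral_const] at hint2
  simp only [add_sub_cancel_left, smul_eq_mul] at hint2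
  rw [hQ2] at hint2
  have h8 : h * (2 * h⁻¹ * (∫ s in a..(a + h), F s ^ 2) + h * ∫ s in a..(a + h), deriv F s ^ 2) =
      (∫ s in a..(a + h), F s ^ 2) + h * (h⁻¹ * (∫ s in a..(a + h), F s ^ 2) +
        h * ∫ s in a..(a + h), deriv F s ^ 2) := by
    field_simp
    ring
  rw [← h8] at hint2
  exact le_of_mul_le_mul_left hint2 hh

theorem sob {F : ℝ → ℝ} (hF : ContDiff ℝ 1 F) (m : ℕ) {t : ℝ} (ht : t ∈ Icc (1 / 2 : ℝ) (5 / 2)) :
    ‖F t‖ₑ ^ 2 ≤ 2 * 2 ^ m * (∫⁻ s in Icc (1 / 2 : ℝ) (5 / 2), ‖F s‖ₑ ^ 2) +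
      ENNReal.ofReal ((2 ^ m)⁻¹) * ∫⁻ s in Icc (1 / 2 : ℝ) (5 / 2), ‖deriv F s‖ₑ ^ 2 := by
  set h : ℝ := (2 ^ m)⁻¹ with hh
  have hpos : 0 < h := by positivity
  have hle : h ≤ 1 := inv_le_one_of_one_le₀ (one_le_pow₀ (by norm_num))
  have hFc : Continuous F := hF.continuous
  have hF'c : Continuous (deriv F) := hF.continuous_deriv le_rfl
  obtain ⟨a, ha1, ha2, ha3⟩ : ∃ a : ℝ, 1 / 2 ≤ a ∧ a + h ≤ 5 / 2 ∧ t ∈ Icc a (a + h) := by
    rcases le_total (1 / 2) (t - h) with h1 | h1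
    · exact ⟨t - h, h1, by linarith [ht.2], by constructor <;> linarith⟩
    · exact ⟨1 / 2, le_rfl, by linarith, ht.1, by linarith⟩
  have h2 := SobA_real hF hpos ha3
  have hsub : Icc a (a + h) ⊆ Icc (1 / 2 : ℝ) (5 / 2) := Icc_subset_Icc ha1 ha2
  have hconv : ∀ G : ℝ → ℝ, Continuous G →
      ENNReal.ofReal (∫ s in a..(a + h), G s ^ 2) ≤
        ∫⁻ s in Icc (1 / 2 : ℝ) (5 / 2), ‖G s‖ₑ ^ 2 := by
    intro G hG
    rw [intervalIntegral.integral_of_le (by linarith), ← integral_Icc_eq_integral_Ioc,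
      ofReal_integral_eq_lintegral_ofReal]
    · refine (lintegral_mono_set hsub).trans (lintegral_mono (fun s => ?_))
      rw [← ofReal_norm, ← ENNReal.ofReal_pow (norm_nonneg _), Real.norm_eq_abs, sq_abs]
    · exact (hG.pow 2).continuousOn.integrableOn_compact isCompact_Icc
    · exact Filter.Eventually.of_forall (fun s => sq_nonneg _)
  have h3 : ‖F t‖ₑ ^ 2 = ENNReal.ofReal (F t ^ 2) := by
    rw [← ofReal_norm, ← ENNReal.ofReal_pow (norm_nonneg _), Real.norm_eq_abs, sq_abs]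
  rw [h3]
  refine (ENNReal.ofReal_le_ofReal h2).trans ?_
  rw [ENNReal.ofReal_add (mul_nonneg (by positivity) (intervalIntegral.integral_nonneg
      (by linarith) (fun _ _ => sq_nonneg _))) (mul_nonneg hpos.le
      (intervalIntegral.integral_nonneg (by linarith) (fun _ _ => sq_nonneg _))),
    ENNReal.ofReal_mul (by positivity), ENNReal.ofReal_mul hpos.le]
  have h4 : ENNReal.ofReal (2 * h⁻¹) = 2 * 2 ^ m := by
    rw [hh, inv_inv, ENNReal.ofReal_mul (by norm_num), ENNReal.ofReal_pow (by norm_num)]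
    simp
  rw [h4]
  gcongr
  · exact hconv F hFc
  · exact hconv (deriv F) hF'c

private theorem SobA_sc_pos (m : ℕ) : 0 < sc m := by
  unfold sc
  positivity

private theorem SobA_Lk_eq (K : E d → ℝ) (m : ℕ) (q : E d → ℝ) (x : E d) :
    Lk K m q x = 2 ^ m * (∫⁻ t in Icc (1 / 2 : ℝ) (5 / 2),
      ‖sm (cv K (sc m) q) t x‖ₑ ^ 2) + ENNReal.ofReal ((2 ^ m)⁻¹) *
      ∫⁻ t in Icc (1 / 2 : ℝ) (5 / 2), ‖deriv (fun s => sm (cv K (sc m) q) s x) t‖ₑ ^ 2 := by
  unfold Lk
  rw [Finset.sum_range_succ, Finset.sum_range_one]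
  simp only [iteratedDeriv_zero, iteratedDeriv_one, mul_zero, pow_zero, div_one, mul_one]
  have h1 : (2 : ℝ) ^ m / 4 ^ m = (2 ^ m)⁻¹ := by
    have h2 : (4 : ℝ) ^ m = 2 ^ m * 2 ^ m := by
      rw [← mul_pow]
      norm_num
    rw [h2]
    field_simp
  rw [h1, ENNReal.ofReal_pow (by norm_num)]
  simp

theorem Lk_sup (hd : 0 < d) {K : E d → ℝ} (hK : IsKer K) (m : ℕ) {r : ℝ} {q : E d → ℝ}
    (hq : Bdd r q) (x : E d) {t : ℝ} (ht : t ∈ Icc (1 / 2 : ℝ) (5 / 2)) :
    ‖sm (cv K (sc m) q) t x‖ₑ ≤ 2 * Lk K m q x ^ (1 / 2 : ℝ) := by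
  have hF : ContDiff ℝ 1 (fun s => sm (cv K (sc m) q) s x) :=
    (sm_contDiff_t hd (cv_contDiff hK (SobA_sc_pos m) hq.locallyIntegrable) x).of_le
      (by exact_mod_cast le_top)
  have h1 := sob hF m ht
  have h2 : ‖sm (cv K (sc m) q) t x‖ₑ ^ 2 ≤ 4 * Lk K m q x := by
    refine h1.trans ?_
    rw [SobA_Lk_eq]
    set A := ∫⁻ t in Icc (1 / 2 : ℝ) (5 / 2), ‖sm (cv K (sc m) q) t x‖ₑ ^ 2
    set B := ENNReal.ofReal ((2 ^ m)⁻¹) *
      ∫⁻ t in Icc (1 / 2 : ℝ) (5 / 2), ‖deriv (fun s => sm (cv K (sc m) q) s x) t‖ₑ ^ 2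
    rw [mul_add, mul_assoc]
    refine add_le_add ?_ ?_
    · gcongr
      norm_num
    · calc B = 1 * B := (one_mul B).symm
        _ ≤ 4 * B := by gcongr; norm_num
  have h3 : ‖sm (cv K (sc m) q) t x‖ₑ =
      (‖sm (cv K (sc m) q) t x‖ₑ ^ 2) ^ (1 / 2 : ℝ) := by
    rw [← ENNReal.rpow_natCast, ← ENNReal.rpow_mul]
    norm_num
  rw [h3]
  refine (ENNReal.rpow_le_rpow h2 (by norm_num)).trans ?_
  rw [ENNReal.mul_rpow_of_nonneg _ _ (by norm_num)]
  have h4 : (4 : ℝ≥0∞) ^ (1 / 2 : ℝ) = 2 := by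
    have h5 : (4 : ℝ≥0∞) = 2 ^ (2 : ℝ) := by
      rw [show (2 : ℝ) = ((2 : ℕ) : ℝ) by norm_num, ENNReal.rpow_natCast]
      norm_num
    rw [h5, ← ENNReal.rpow_mul]
    norm_num
  rw [h4]

theorem measurable_Lk (hd : 0 < d) {K : E d → ℝ} (hK : IsKer K) (m : ℕ) {r : ℝ} {q : E d → ℝ}
    (hq : Bdd r q) : Measurable (Lk K m q) := by
  have hg : ContDiff ℝ ∞ (cv K (sc m) q) :=
    cv_contDiff hK (SobA_sc_pos m) hq.locallyIntegrable
  unfold Lk
  refine Finset.measurable_sum _ (fun k _ => Measurable.const_mul ?_ _)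
  have h1 : Measurable (fun p : ℝ × E d =>
      ‖iteratedDeriv k (fun s => sm (cv K (sc m) q) s p.2) p.1‖ₑ ^ 2) :=
    ((sm_cont hd hg k).measurable.enorm).pow_const 2
  exact h1.lintegral_prod_left' (μ := volume.restrict (Icc (1 / 2 : ℝ) (5 / 2)))

end Pool.Agent.Lib.MP_ff3fe0_an_SPH
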