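import Pool.Agent.Lib.MP_ff3fe0_an_SPH.LTwo
import Pool.Agent.Lib.MP_ff3fe0_an_SPH.SobA
import Pool.Agent.Lib.MP_ff3fe0_an_SPH.KerB
import Pool.Agent.Lib.MP_ff3fe0_an_SPH.MinkA
import Pool.Agent.Lib.MP_ff3fe0_an_SPH.SmB

set_option autoImplicit false

/-!
# The maximal operator at a single scale
-/

namespace Pool.Agent.Lib.MP_ff3fe0_an_SPH

open MeasureTheory Metric Set
open scoped ENNReal NNReal ContDiff FourierTransform
open Pool.Agent.Lib.MP_ff3fe0_an

variable {d : ℕ}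

/-! ### The difference kernel -/

private noncomputable def SphM_D (K : Ker d) : E d → ℝ :=
  fun y => K.Psi y - (2 ^ d)⁻¹ * K.Psi ((2 : ℝ)⁻¹ • y)

private theorem SphM_half (K : Ker d) (y : E d) (hy : 1 < ‖y‖) : K.Psi ((2 : ℝ)⁻¹ • y) = 0 := by
  refine K.Psi_half _ ?_
  rw [norm_smul, Real.norm_of_nonneg (by norm_num)]
  linarith

private theorem SphM_D_ker (K : Ker d) : IsKer (SphM_D K) := by
  refine ⟨?_, fun y hy => ?_⟩
  · exact K.hPsi.smooth.sub
      (contDiff_const.mul (K.hPsi.smooth.comp (contDiff_const_smul (2 : ℝ)⁻¹)))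
  · have h1 : K.Psi y = 0 := K.Psi_half y (by linarith)
    have h2 := SphM_half K y hy
    simp [SphM_D, h1, h2]

private theorem SphM_int {k g : E d → ℝ} (hk : Continuous k) (hs : ∀ y, 1 < ‖y‖ → k y = 0)
    (hg : Continuous g) (b : ℝ) (x : E d) : Integrable (fun y => k y * g (x - b • y)) := by
  have h1 : HasCompactSupport k :=
    HasCompactSupport.intro (isCompact_closedBall 0 1) (fun y hy => hs y (by simpa using hy))
  refine Continuous.integrable_of_hasCompactSupport (hk.mul (hg.comp (by fun_prop))) ?_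
  exact h1.mul_right

private theorem SphM_cv (K : Ker d) {g : E d → ℝ} (hg : Continuous g) (b : ℝ) (x : E d) :
    cv (SphM_D K) b g x = cv K.Psi b g x - cv K.Psi (2 * b) g x := by
  rw [← cv_dil K.Psi b g x]
  unfold cv SphM_D
  rw [← integral_sub]
  · refine integral_congr_ae (Filter.Eventually.of_forall fun y => ?_)
    show (K.Psi y - (2 ^ d)⁻¹ * K.Psi ((2 : ℝ)⁻¹ • y)) * g (x - b • y) = _
    ring
  · exact SphM_int K.hPsi.smooth.continuous K.hPsi.supp hg b x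
  · refine SphM_int (k := fun y => (2 ^ d)⁻¹ * K.Psi ((2 : ℝ)⁻¹ • y)) ?_ (fun y hy => ?_) hg b x
    · exact continuous_const.mul (K.hPsi.smooth.continuous.comp (continuous_const_smul (2 : ℝ)⁻¹))
    · show (2 ^ d)⁻¹ * K.Psi ((2 : ℝ)⁻¹ • y) = 0
      rw [SphM_half K y hy, mul_zero]

private theorem SphM_sc (m : ℕ) : 2 * sc (m + 1) = sc m := by
  unfold sc
  rw [pow_succ]
  ring

private theorem SphM_sc_pos (m : ℕ) : 0 < sc m := by
  unfold sc
  positivity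

private theorem SphM_tele (K : Ker d) {g : E d → ℝ} (hg : Continuous g) (M : ℕ) (x : E d) :
    cv K.Psi (sc M) g x =
      cv K.Psi 1 g x + ∑ m ∈ Finset.range M, cv (SphM_D K) (sc (m + 1)) g x := by
  induction M with
  | zero => simp [sc]
  | succ M ih =>
    rw [Finset.sum_range_succ, ← add_assoc, ← ih, SphM_cv K hg, SphM_sc]
    ring

private theorem SphM_sm_tele (hd : 0 < d) (K : Ker d) {g : E d → ℝ} (hg : Continuous g) (M : ℕ)
    (t : ℝ) (x : E d) : sm (cv K.Psi (sc M) g) t x =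
      sm (cv K.Psi 1 g) t x + ∑ m ∈ Finset.range M, sm (cv (SphM_D K) (sc (m + 1)) g) t x := by
  have h0 : cv K.Psi (sc M) g = fun y => cv K.Psi 1 g y +
      (fun z => ∑ m ∈ Finset.range M, cv (SphM_D K) (sc (m + 1)) g z) y := by
    funext y
    exact SphM_tele K hg M y
  have hc : ∀ m : ℕ, Continuous (cv (SphM_D K) (sc (m + 1)) g) := fun m =>
    (cv_contDiff (SphM_D_ker K) (SphM_sc_pos _) hg.locallyIntegrable).continuous
  rw [h0, sm_add hd (cv_contDiff K.hPsi one_pos hg.locallyIntegrable).continuous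
    (continuous_finsetSum _ fun m _ => hc m), sm_sum hd _ _ (fun m _ => hc m)]

/-! ### The limit -/

private theorem SphM_bd (K : Ker d) {g : E d → ℝ} {C : ℝ} (hC : ∀ y, ‖g y‖ ≤ C) (b : ℝ)
    (x : E d) : ‖cv K.Psi b g x‖ ≤ ∫ y, ‖K.Psi y‖ * C := by
  unfold cv
  refine norm_integral_le_of_norm_le ?_ (Filter.Eventually.of_forall fun y => ?_)
  · have h1 : HasCompactSupport K.Psi := HasCompactSupport.intro (isCompact_closedBall 0 1)
      (fun y hy => K.hPsi.supp y (by simpa using hy))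
    exact ((K.hPsi.smooth.continuous.integrable_of_hasCompactSupport h1).norm).mul_const C
  · rw [norm_mul]
    exact mul_le_mul_of_nonneg_left (hC _) (norm_nonneg _)

private theorem SphM_sc_lim : Filter.Tendsto sc Filter.atTop (nhds 0) := by
  unfold sc
  exact tendsto_pow_atTop_nhds_zero_of_lt_one (by norm_num) (by norm_num)

private theorem SphM_lim (K : Ker d) {g : E d → ℝ} (hg : Continuous g) {C : ℝ}
    (hC : ∀ y, ‖g y‖ ≤ C) (x : E d) :
    Filter.Tendsto (fun M => cv K.Psi (sc M) g x) Filter.atTop (nhds (g x)) := by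
  have h1 : HasCompactSupport K.Psi := HasCompactSupport.intro (isCompact_closedBall 0 1)
    (fun y hy => K.hPsi.supp y (by simpa using hy))
  have h2 : g x = ∫ y, K.Psi y * g x := by
    rw [integral_mul_const, K.Psi_int, one_mul]
  rw [h2]
  unfold cv
  refine tendsto_integral_of_dominated_convergence (fun y => ‖K.Psi y‖ * C) ?_ ?_ ?_ ?_
  · intro M
    exact (K.hPsi.smooth.continuous.mul (hg.comp (by fun_prop))).aestronglyMeasurable
  · exact ((K.hPsi.smooth.continuous.integrable_of_hasCompactSupport h1).norm).mul_const C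
  · intro M
    refine Filter.Eventually.of_forall fun y => ?_
    rw [norm_mul]
    exact mul_le_mul_of_nonneg_left (hC _) (norm_nonneg _)
  · refine Filter.Eventually.of_forall fun y => ?_
    refine Filter.Tendsto.const_mul _ ?_
    have h3 : Filter.Tendsto (fun M => x - sc M • y) Filter.atTop (nhds (x - (0 : ℝ) • y)) :=
      (SphM_sc_lim.smul_const y).const_sub x
    rw [zero_smul, sub_zero] at h3
    exact (hg.tendsto x).comp h3

private theorem SphM_sm_lim (hd : 0 < d) (K : Ker d) {g : E d → ℝ} (hg : Continuous g) {C : ℝ}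
    (hC : ∀ y, ‖g y‖ ≤ C) (t : ℝ) (x : E d) :
    Filter.Tendsto (fun M => sm (cv K.Psi (sc M) g) t x) Filter.atTop (nhds (sm g t x)) := by
  have := sigma_prob hd
  unfold sm
  refine tendsto_integral_of_dominated_convergence (fun _ => ∫ y, ‖K.Psi y‖ * C) ?_ ?_ ?_ ?_
  · intro M
    have h1 := (cv_contDiff K.hPsi (SphM_sc_pos M) hg.locallyIntegrable).continuous
    exact (h1.comp (by fun_prop)).aestronglyMeasurable
  · exact integrable_const _
  · intro M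
    exact Filter.Eventually.of_forall fun w => SphM_bd K hC _ _
  · exact Filter.Eventually.of_forall fun w => SphM_lim K hg hC _

/-! ### The low frequency term -/

private noncomputable def SphM_A (g : E d → ℝ) (x : E d) : ℝ≥0∞ :=
  ∫⁻ z in closedBall (0 : E d) 3, ‖g (x - z)‖ₑ

private theorem SphM_A_meas {g : E d → ℝ} (hg : Continuous g) : Measurable (SphM_A g) := by
  unfold SphM_A
  have h1 : Measurable (fun p : E d × E d => ‖g (p.1 - p.2)‖ₑ) :=
    (hg.comp (by fun_prop : Continuous fun p : E d × E d => p.1 - p.2)).measurable.enorm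
  exact h1.lintegral_prod_right'

private theorem SphM_shift (g : E d → ℝ) (x v : E d) (hv : ‖v‖ ≤ 2) :
    ∫⁻ y in closedBall (0 : E d) 1, ‖g (x - v - (1 : ℝ) • y)‖ₑ ≤ SphM_A g x := by
  unfold SphM_A
  rw [← lintegral_indicator measurableSet_closedBall, ← lintegral_indicator
    measurableSet_closedBall]
  rw [← lintegral_add_right_eq_self ((closedBall (0 : E d) 3).indicator
    (fun z => ‖g (x - z)‖ₑ)) v]
  refine lintegral_mono fun y => ?_
  by_cases hy : y ∈ closedBall (0 : E d) 1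
  · have h1 : y + v ∈ closedBall (0 : E d) 3 := by
      rw [mem_closedBall_zero_iff] at hy ⊢
      have := norm_add_le y v
      linarith
    rw [indicator_of_mem hy, indicator_of_mem h1, one_smul, sub_sub, add_comm v y]
  · rw [indicator_of_notMem hy]
    exact bot_le

private theorem SphM_low (hd : 0 < d) (K : Ker d) : ∃ C : ℝ≥0, ∀ (g : E d → ℝ), Continuous g →
    ∀ (t : ℝ) (x : E d), t ∈ Icc (1 : ℝ) 2 → ‖sm (cv K.Psi 1 g) t x‖ₑ ≤ C * SphM_A g x := by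
  have := sigma_prob hd
  obtain ⟨C, hC⟩ := cv_le K.hPsi
  refine ⟨C, fun g _ t x ht => ?_⟩
  unfold sm
  refine (enorm_integral_le_lintegral_enorm _).trans ?_
  calc ∫⁻ w : Sph d, ‖cv K.Psi 1 g (x - t • (w : E d))‖ₑ ∂(sigma d)
      ≤ ∫⁻ _ : Sph d, C * SphM_A g x ∂(sigma d) := by
        refine lintegral_mono fun w => (hC 1 g (x - t • (w : E d))).trans ?_
        refine mul_le_mul_right (SphM_shift g x (t • (w : E d)) ?_) _
        have hw : ‖(w : E d)‖ = 1 := by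
          have := w.2
          rwa [mem_sphere_zero_iff_norm] at this
        rw [norm_smul, hw, mul_one, Real.norm_of_nonneg (by linarith [ht.1])]
        exact ht.2
    _ = C * SphM_A g x := by rw [lintegral_const, measure_univ, mul_one]

private theorem SphM_cs {α : Type*} [MeasurableSpace α] (μ : Measure α) {f : α → ℝ≥0∞}
    (hf : Measurable f) : (∫⁻ x, f x ∂μ) ^ 2 ≤ μ univ * ∫⁻ x, f x ^ 2 ∂μ := by
  have h1 := ENNReal.lintegral_mul_le_Lp_mul_Lq μ Real.HolderConjugate.two_two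
    (f := f) (g := fun _ => 1) hf.aemeasurable aemeasurable_const
  simp only [Pi.mul_apply, mul_one, ENNReal.one_rpow, lintegral_const, one_mul] at h1
  calc (∫⁻ x, f x ∂μ) ^ 2 ≤ ((∫⁻ a, f a ^ (2 : ℝ) ∂μ) ^ (1 / 2 : ℝ) * μ univ ^ (1 / 2 : ℝ)) ^ 2 :=
        pow_le_pow_left' h1 2
    _ = μ univ * ∫⁻ x, f x ^ 2 ∂μ := by
        rw [mul_pow, ← ENNReal.rpow_natCast, ← ENNReal.rpow_mul, ← ENNReal.rpow_natCast,
          ← ENNReal.rpow_mul]
        norm_num
        rw [mul_comm]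

private theorem SphM_A_sq {g : E d → ℝ} (hg : Continuous g) :
    ∫⁻ x, SphM_A g x ^ 2 ≤ volume (closedBall (0 : E d) 3) ^ 2 * ∫⁻ y, ‖g y‖ₑ ^ 2 := by
  have hm : Measurable (fun p : E d × E d => ‖g (p.1 - p.2)‖ₑ ^ 2) :=
    (hg.comp (by fun_prop : Continuous fun p : E d × E d => p.1 - p.2)).measurable.enorm.pow_const 2
  have h1 : ∀ x, SphM_A g x ^ 2 ≤ volume (closedBall (0 : E d) 3) *
      ∫⁻ z in closedBall (0 : E d) 3, ‖g (x - z)‖ₑ ^ 2 := by
    intro x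
    have h2 := SphM_cs (volume.restrict (closedBall (0 : E d) 3)) (f := fun z => ‖g (x - z)‖ₑ)
      ((hg.comp (by fun_prop : Continuous fun z : E d => x - z)).measurable.enorm)
    rw [Measure.restrict_apply_univ] at h2
    exact h2
  calc ∫⁻ x, SphM_A g x ^ 2 ≤ ∫⁻ x, volume (closedBall (0 : E d) 3) *
        ∫⁻ z in closedBall (0 : E d) 3, ‖g (x - z)‖ₑ ^ 2 := lintegral_mono h1
    _ = volume (closedBall (0 : E d) 3) *
        ∫⁻ x, ∫⁻ z in closedBall (0 : E d) 3, ‖g (x - z)‖ₑ ^ 2 :=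
        lintegral_const_mul _ hm.lintegral_prod_right'
    _ = volume (closedBall (0 : E d) 3) *
        ∫⁻ z in closedBall (0 : E d) 3, ∫⁻ x, ‖g (x - z)‖ₑ ^ 2 := by
        rw [lintegral_lintegral_swap hm.aemeasurable]
    _ = volume (closedBall (0 : E d) 3) *
        ∫⁻ _ in closedBall (0 : E d) 3, ∫⁻ x, ‖g x‖ₑ ^ 2 := by
        congr 1
        refine lintegral_congr fun z => ?_
        exact lintegral_sub_right_eq_self (fun x => ‖g x‖ₑ ^ 2) z
    _ = volume (closedBall (0 : E d) 3) ^ 2 * ∫⁻ y, ‖g y‖ₑ ^ 2 := by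
        rw [lintegral_const, Measure.restrict_apply_univ]
        ring

/-! ### The sum of the high frequency terms -/

private theorem SphM_high (hd : 3 ≤ d) (K : Ker d) : ∃ C : ℝ≥0, ∀ (r : ℝ) (g : E d → ℝ),
    Bdd r g → ∫⁻ x, (∑' m : ℕ, 2 * Lk (SphM_D K) (m + 1) g x ^ (1 / 2 : ℝ)) ^ 2 ≤
      C * ∫⁻ y, ‖g y‖ₑ ^ 2 := by
  obtain ⟨C, hC⟩ := Lk_bound (by omega) (SphM_D_ker K) K.Psi_hat
  set ρ : ℝ≥0∞ := ENNReal.ofReal (1 / 2) ^ (1 / 2 : ℝ) with hρ
  have hρ1 : ρ < 1 := by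
    rw [hρ]
    refine ENNReal.rpow_lt_one ?_ (by norm_num)
    rw [← ENNReal.ofReal_one]
    exact (ENNReal.ofReal_lt_ofReal_iff one_pos).2 (by norm_num)
  set c : ℝ≥0∞ := 2 * (C : ℝ≥0∞) ^ (1 / 2 : ℝ) * (ρ * (1 - ρ)⁻¹) with hc
  have hcf : c ≠ ⊤ := by
    rw [hc]
    refine ENNReal.mul_ne_top (ENNReal.mul_ne_top (by norm_num)
      (ENNReal.rpow_ne_top_of_nonneg (by norm_num) ENNReal.coe_ne_top)) ?_
    refine ENNReal.mul_ne_top (hρ1.trans ENNReal.one_lt_top).ne ?_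
    rw [ENNReal.inv_ne_top]
    exact (tsub_pos_of_lt hρ1).ne'
  refine ⟨(c ^ 2).toNNReal, fun r g hg => ?_⟩
  rw [ENNReal.coe_toNNReal (ENNReal.pow_ne_top hcf)]
  have hmeas : ∀ m : ℕ, Measurable (fun x => 2 * Lk (SphM_D K) (m + 1) g x ^ (1 / 2 : ℝ)) :=
    fun m => ((measurable_Lk (by omega) (SphM_D_ker K) (m + 1) hg).pow_const _).const_mul _
  have h1 := minkowski (μ := (volume : Measure (E d))) hmeas
  have h2 : ∀ m : ℕ, (∫⁻ x, (2 * Lk (SphM_D K) (m + 1) g x ^ (1 / 2 : ℝ)) ^ 2) ^ (1 / 2 : ℝ) ≤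
      2 * (C : ℝ≥0∞) ^ (1 / 2 : ℝ) * (∫⁻ y, ‖g y‖ₑ ^ 2) ^ (1 / 2 : ℝ) * ρ ^ (m + 1) := by
    intro m
    have h3 : ∫⁻ x, (2 * Lk (SphM_D K) (m + 1) g x ^ (1 / 2 : ℝ)) ^ 2 ≤
        4 * (C * ENNReal.ofReal (1 / 2) ^ (m + 1) * ∫⁻ y, ‖g y‖ₑ ^ 2) := by
      calc ∫⁻ x, (2 * Lk (SphM_D K) (m + 1) g x ^ (1 / 2 : ℝ)) ^ 2
          = ∫⁻ x, 4 * Lk (SphM_D K) (m + 1) g x := by
            refine lintegral_congr fun x => ?_
            rw [mul_pow, ← ENNReal.rpow_natCast (Lk (SphM_D K) (m + 1) g x ^ (1 / 2 : ℝ)),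
              ← ENNReal.rpow_mul]
            norm_num
        _ = 4 * ∫⁻ x, Lk (SphM_D K) (m + 1) g x :=
            lintegral_const_mul _ (measurable_Lk (by omega) (SphM_D_ker K) (m + 1) hg)
        _ ≤ 4 * (C * ENNReal.ofReal (1 / 2) ^ (m + 1) * ∫⁻ y, ‖g y‖ₑ ^ 2) := by
            refine mul_le_mul_right ((hC (m + 1) r g hg).trans ?_) _
            refine mul_le_mul_left (mul_le_mul_right ?_ _) _
            rw [← ENNReal.ofReal_pow (by norm_num)]
            refine ENNReal.ofReal_le_ofReal ?_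
            refine pow_le_pow_of_le_one (by norm_num) (by norm_num) ?_
            exact Nat.le_mul_of_pos_left _ (by omega)
    refine (ENNReal.rpow_le_rpow h3 (by norm_num)).trans (le_of_eq ?_)
    rw [ENNReal.mul_rpow_of_nonneg _ _ (by norm_num), ENNReal.mul_rpow_of_nonneg _ _ (by norm_num),
      ENNReal.mul_rpow_of_nonneg _ _ (by norm_num)]
    have h4 : (4 : ℝ≥0∞) ^ (1 / 2 : ℝ) = 2 := by
      rw [show (4 : ℝ≥0∞) = 2 ^ (2 : ℝ) by norm_num, ← ENNReal.rpow_mul]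
      norm_num
    have h5 : (ENNReal.ofReal (1 / 2) ^ (m + 1)) ^ (1 / 2 : ℝ) = ρ ^ (m + 1) := by
      rw [hρ, ← ENNReal.rpow_natCast, ← ENNReal.rpow_natCast, ← ENNReal.rpow_mul,
        ← ENNReal.rpow_mul, mul_comm]
    rw [h4, h5]
    ring
  have h6 : ∑' m : ℕ, (∫⁻ x, (2 * Lk (SphM_D K) (m + 1) g x ^ (1 / 2 : ℝ)) ^ 2) ^ (1 / 2 : ℝ) ≤
      c * (∫⁻ y, ‖g y‖ₑ ^ 2) ^ (1 / 2 : ℝ) := by
    refine (ENNReal.tsum_le_tsum h2).trans (le_of_eq ?_)
    rw [ENNReal.tsum_mul_left]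
    have h7 : ∑' m : ℕ, ρ ^ (m + 1) = ρ * (1 - ρ)⁻¹ := by
      rw [← ENNReal.tsum_geometric, ← ENNReal.tsum_mul_left]
      exact tsum_congr fun m => pow_succ' ρ m
    rw [h7, hc]
    ring
  have h8 := h1.trans h6
  have h9 : ∀ a : ℝ≥0∞, (a ^ (1 / 2 : ℝ)) ^ 2 = a := by
    intro a
    rw [← ENNReal.rpow_natCast, ← ENNReal.rpow_mul]
    norm_num
  calc ∫⁻ x, (∑' m : ℕ, 2 * Lk (SphM_D K) (m + 1) g x ^ (1 / 2 : ℝ)) ^ 2
      = ((∫⁻ x, (∑' m : ℕ, 2 * Lk (SphM_D K) (m + 1) g x ^ (1 / 2 : ℝ)) ^ 2) ^ (1 / 2 : ℝ)) ^ 2 :=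
        (h9 _).symm
    _ ≤ (c * (∫⁻ y, ‖g y‖ₑ ^ 2) ^ (1 / 2 : ℝ)) ^ 2 := pow_le_pow_left' h8 2
    _ = c ^ 2 * ∫⁻ y, ‖g y‖ₑ ^ 2 := by rw [mul_pow, h9]

private theorem SphM_sq (a b : ℝ≥0∞) : (a + b) ^ 2 ≤ 4 * (a ^ 2 + b ^ 2) := by
  have h1 : a + b ≤ 2 * max a b := by
    rw [two_mul]
    exact add_le_add (le_max_left _ _) (le_max_right _ _)
  calc (a + b) ^ 2 ≤ (2 * max a b) ^ 2 := pow_le_pow_left' h1 2
    _ = 4 * max a b ^ 2 := by rw [mul_pow]; norm_num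
    _ ≤ 4 * (a ^ 2 + b ^ 2) := by
        refine mul_le_mul_right ?_ _
        rcases le_total a b with h | h
        · rw [max_eq_right h]
          exact le_add_self
        · rw [max_eq_left h]
          exact le_self_add

/-- The L2 bound for the spherical maximal operator at a single scale. -/
theorem max_two (hd : 3 ≤ d) (K : Ker d) : ∃ C : ℝ≥0, ∀ g : E d → ℝ, Continuous g →
    HasCompactSupport g → (∀ x, 0 ≤ g x) →
      ∫⁻ x, (⨆ t : ℝ, ⨆ _ : t ∈ Icc (1 : ℝ) 2, ENNReal.ofReal (sm g t x)) ^ 2 ≤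
        C * ∫⁻ x, ‖g x‖ₑ ^ 2 := by
  have hd0 : 0 < d := by omega
  obtain ⟨C1, hC1⟩ := SphM_low hd0 K
  obtain ⟨C2, hC2⟩ := SphM_high hd K
  set V : ℝ≥0∞ := volume (closedBall (0 : E d) 3) with hV
  have hVf : V ≠ ⊤ := (isCompact_closedBall (0 : E d) 3).measure_lt_top.ne
  refine ⟨4 * (C1 ^ 2 * V.toNNReal ^ 2 + C2), fun g hg hgs _ => ?_⟩
  obtain ⟨C, hC⟩ := hgs.exists_bound_of_continuous hg
  obtain ⟨r, hr⟩ := hgs.isCompact.isBounded.subset_closedBall 0
  have hB : Bdd r g := by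
    refine ⟨hg.measurable, ⟨C, hC⟩, fun y hy => ?_⟩
    refine image_eq_zero_of_notMem_tsupport fun h => ?_
    have := hr h
    rw [mem_closedBall_zero_iff] at this
    linarith
  set S : E d → ℝ≥0∞ := fun x => ∑' m : ℕ, 2 * Lk (SphM_D K) (m + 1) g x ^ (1 / 2 : ℝ) with hS
  have hpt : ∀ x : E d, (⨆ t : ℝ, ⨆ _ : t ∈ Icc (1 : ℝ) 2, ENNReal.ofReal (sm g t x)) ≤
      C1 * SphM_A g x + S x := by
    intro x
    refine iSup₂_le fun t ht => ?_
    have ht' : t ∈ Icc (1 / 2 : ℝ) (5 / 2) := ⟨by linarith [ht.1], by linarith [ht.2]⟩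
    have h1 : Filter.Tendsto (fun M => ENNReal.ofReal (sm (cv K.Psi (sc M) g) t x)) Filter.atTop
        (nhds (ENNReal.ofReal (sm g t x))) :=
      (ENNReal.continuous_ofReal.tendsto _).comp (SphM_sm_lim hd0 K hg hC t x)
    refine le_of_tendsto' h1 fun M => ?_
    rw [SphM_sm_tele hd0 K hg]
    calc ENNReal.ofReal (sm (cv K.Psi 1 g) t x +
          ∑ m ∈ Finset.range M, sm (cv (SphM_D K) (sc (m + 1)) g) t x)
        ≤ ‖sm (cv K.Psi 1 g) t x +
          ∑ m ∈ Finset.range M, sm (cv (SphM_D K) (sc (m + 1)) g) t x‖ₑ := by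
          rw [← ofReal_norm]
          exact ENNReal.ofReal_le_ofReal (le_abs_self _)
      _ ≤ ‖sm (cv K.Psi 1 g) t x‖ₑ +
          ∑ m ∈ Finset.range M, ‖sm (cv (SphM_D K) (sc (m + 1)) g) t x‖ₑ :=
          (enorm_add_le _ _).trans (add_le_add le_rfl (enorm_sum_le _ _))
      _ ≤ C1 * SphM_A g x + S x := by
          refine add_le_add (hC1 g hg t x ht) ?_
          refine le_trans ?_ (ENNReal.sum_le_tsum (Finset.range M))
          exact Finset.sum_le_sum fun m _ => Lk_sup hd0 (SphM_D_ker K) (m + 1) hB x ht'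
  calc ∫⁻ x, (⨆ t : ℝ, ⨆ _ : t ∈ Icc (1 : ℝ) 2, ENNReal.ofReal (sm g t x)) ^ 2
      ≤ ∫⁻ x, 4 * ((C1 * SphM_A g x) ^ 2 + S x ^ 2) :=
        lintegral_mono fun x => (pow_le_pow_left' (hpt x) 2).trans (SphM_sq _ _)
    _ = 4 * (∫⁻ x, (C1 * SphM_A g x) ^ 2 + S x ^ 2) := lintegral_const_mul' _ _ (by norm_num)
    _ = 4 * ((∫⁻ x, (C1 * SphM_A g x) ^ 2) + ∫⁻ x, S x ^ 2) := by
        rw [lintegral_add_left (((SphM_A_meas hg).const_mul _).pow_const 2)]
    _ ≤ 4 * (C1 ^ 2 * (V ^ 2 * ∫⁻ x, ‖g x‖ₑ ^ 2) + C2 * ∫⁻ x, ‖g x‖ₑ ^ 2) := by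
        refine mul_le_mul_right (add_le_add ?_ (hC2 r g hB)) _
        simp only [mul_pow]
        rw [lintegral_const_mul' _ _ (ENNReal.pow_ne_top ENNReal.coe_ne_top)]
        exact mul_le_mul_right (SphM_A_sq hg) _
    _ = ((4 * (C1 ^ 2 * V.toNNReal ^ 2 + C2) : ℝ≥0) : ℝ≥0∞) * ∫⁻ x, ‖g x‖ₑ ^ 2 := by
        push_cast
        rw [ENNReal.coe_toNNReal hVf]
        ring

end Pool.Agent.Lib.MP_ff3fe0_an_SPH
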