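import Pool.Agent.Lib.MP_ff3fe0_an_SPH.ThA
import Pool.Agent.Lib.MP_ff3fe0_an_SPH.JJA
import Pool.Agent.Lib.MP_ff3fe0_an_SPH.CvB

set_option autoImplicit false

/-!
# The pointwise bound of the pieces
-/

namespace Pool.Agent.Lib.MP_ff3fe0_an_SPH

open MeasureTheory Metric Set
open scoped ENNReal NNReal ContDiff FourierTransform
open Pool.Agent.Lib.MP_ff3fe0_an

variable {d : ℕ}

private theorem srcA_sc_pos (m : ℕ) : 0 < sc m := by
  unfold sc
  positivity

private theorem srcA_sc_mul (m : ℕ) : 2 ^ m * sc m = 1 := by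
  unfold sc
  rw [← mul_pow]
  norm_num

private theorem srcA_pow (n : ℕ) : (2 : ℝ≥0∞) ^ n = ENNReal.ofReal (2 ^ n) := by
  rw [ENNReal.ofReal_pow (by norm_num)]
  norm_num

/-- the average over the unit ball is at most the fat average around a close point -/
private theorem srcA_fat (m : ℕ) (q : E d → ℝ) (y w : E d) (hw : ‖w‖ = 1) {s : ℝ}
    (hs : |s| ≤ sc m) : av m q y ≤ fat m q (y - s • w) := by
  have hp := srcA_sc_pos m
  unfold av fat
  rw [← lintegral_indicator measurableSet_closedBall,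
    ← lintegral_indicator measurableSet_closedBall,
    ← lintegral_add_right_eq_self _ ((s / sc m) • w)]
  refine lintegral_mono fun z => ?_
  by_cases hz : z + (s / sc m) • w ∈ closedBall (0 : E d) 1
  · have h1 : z ∈ closedBall (0 : E d) 2 := by
      rw [mem_closedBall_zero_iff] at hz ⊢
      have h2 : ‖(s / sc m) • w‖ ≤ 1 := by
        rw [norm_smul, hw, mul_one, Real.norm_eq_abs, abs_div, abs_of_pos hp]
        exact (div_le_one hp).2 hs
      calc ‖z‖ = ‖(z + (s / sc m) • w) - (s / sc m) • w‖ := by rw [add_sub_cancel_right]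
        _ ≤ ‖z + (s / sc m) • w‖ + ‖(s / sc m) • w‖ := norm_sub_le _ _
        _ ≤ 1 + 1 := add_le_add hz h2
        _ = 2 := by norm_num
    rw [indicator_of_mem hz, indicator_of_mem h1]
    have h3 : y - sc m • (z + (s / sc m) • w) = y - s • w - sc m • z := by
      rw [smul_add, smul_smul, mul_div_cancel₀ _ hp.ne']
      abel
    rw [h3]
  · rw [indicator_of_notMem hz]
    exact zero_le

/-- the average over the unit ball is at most four times the mass -/
private theorem srcA_nm {m : ℕ} (hm : 1 ≤ m) (q : E d → ℝ) (x : E d) (t : ℝ) (w : Sph d) :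
    av m q (x - t • (w : E d)) ≤ 4 * nm m q x t w := by
  have hp := srcA_sc_pos m
  have hw : ‖(w : E d)‖ = 1 := by
    have := w.2
    rwa [mem_sphere_zero_iff_norm] at this
  have hsc : sc m ≤ 1 / 2 := by
    unfold sc
    calc (1 / 2 : ℝ) ^ m ≤ (1 / 2) ^ 1 :=
        pow_le_pow_of_le_one (by norm_num) (by norm_num) hm
      _ = 1 / 2 := pow_one _
  have hone : (2 : ℝ≥0∞) ^ m * volume (Icc (-(sc m / 2)) (sc m / 2)) = 1 := by
    rw [Real.volume_Icc, srcA_pow, ← ENNReal.ofReal_mul (by positivity),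
      show sc m / 2 - -(sc m / 2) = sc m by ring, srcA_sc_mul, ENNReal.ofReal_one]
  calc av m q (x - t • (w : E d))
      = av m q (x - t • (w : E d)) * (2 ^ m * volume (Icc (-(sc m / 2)) (sc m / 2))) := by
        rw [hone, mul_one]
    _ = ∫⁻ _ in Icc (-(sc m / 2)) (sc m / 2), av m q (x - t • (w : E d)) * 2 ^ m := by
        rw [setLIntegral_const, mul_assoc]
    _ ≤ ∫⁻ s in Icc (-(sc m / 2)) (sc m / 2),
          4 * (Th m s * fat m q (x - (t + s) • (w : E d))) := by
        refine setLIntegral_mono' measurableSet_Icc fun s hs => ?_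
        have hs' : |s| ≤ sc m := by
          rw [abs_le]
          constructor <;> linarith [hs.1, hs.2]
        have h1 := srcA_fat m q (x - t • (w : E d)) (w : E d) hw hs'
        have h2 : x - t • (w : E d) - s • (w : E d) = x - (t + s) • (w : E d) := by
          rw [add_smul]
          abel
        rw [h2] at h1
        calc av m q (x - t • (w : E d)) * 2 ^ m
            ≤ fat m q (x - (t + s) • (w : E d)) * (4 * Th m s) := mul_le_mul' h1 (Th_lower hs')
          _ = 4 * (Th m s * fat m q (x - (t + s) • (w : E d))) := by ring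
    _ ≤ ∫⁻ s in Icc (-(1 / 4) : ℝ) (1 / 4),
          4 * (Th m s * fat m q (x - (t + s) • (w : E d))) := by
        refine lintegral_mono_set ?_
        exact Icc_subset_Icc (by linarith) (by linarith)
    _ = 4 * nm m q x t w := by
        rw [lintegral_const_mul' _ _ (by norm_num)]
        rfl

private theorem srcA_iter {S : E d → ℝ} (hS : IsKer S) (j : ℕ) : ∃ C : ℝ≥0, ∀ (m : ℕ) (r : ℝ)
    (q : E d → ℝ), Bdd r q → ∀ y : E d, ENNReal.ofReal (2 ^ m * sc m ^ j) *
      ‖iteratedFDeriv ℝ j (gm S m q) y‖ₑ ≤ C * av m q y := by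
  obtain ⟨C, hC⟩ := cv_iter_le hS j
  refine ⟨C, fun m r q hq y => ?_⟩
  have hp := srcA_sc_pos m
  have hl : LocallyIntegrable q := hq.locallyIntegrable
  have h1 : iteratedFDeriv ℝ j (gm S m q) y = sc m • iteratedFDeriv ℝ j (cv S (sc m) q) y := by
    have h2 : gm S m q = sc m • cv S (sc m) q := by
      funext z
      rfl
    rw [h2, iteratedFDeriv_const_smul_apply]
    exact ((cv_contDiff hS hp hl).of_le (by exact_mod_cast le_top)).contDiffAt
  have h3 : ‖sc m • iteratedFDeriv ℝ j (cv S (sc m) q) y‖ₑ =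
      ENNReal.ofReal (sc m) * ‖iteratedFDeriv ℝ j (cv S (sc m) q) y‖ₑ := by
    rw [enorm_smul, Real.enorm_eq_ofReal hp.le]
  have h4 : ENNReal.ofReal (2 ^ m * sc m ^ j) * (ENNReal.ofReal (sc m) *
      ENNReal.ofReal ((sc m)⁻¹ ^ j)) = 1 := by
    rw [← ENNReal.ofReal_mul hp.le, ← ENNReal.ofReal_mul (by positivity)]
    have h5 : 2 ^ m * sc m ^ j * (sc m * (sc m)⁻¹ ^ j) = (2 ^ m * sc m) *
        (sc m * (sc m)⁻¹) ^ j := by
      rw [mul_pow]
      ring
    rw [h5, srcA_sc_mul, mul_inv_cancel₀ hp.ne', one_pow, mul_one, ENNReal.ofReal_one]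
  rw [h1, h3]
  calc ENNReal.ofReal (2 ^ m * sc m ^ j) *
        (ENNReal.ofReal (sc m) * ‖iteratedFDeriv ℝ j (cv S (sc m) q) y‖ₑ)
      ≤ ENNReal.ofReal (2 ^ m * sc m ^ j) * (ENNReal.ofReal (sc m) *
          (C * ENNReal.ofReal ((sc m)⁻¹ ^ j) * av m q y)) := by
        gcongr
        exact hC (sc m) hp q hl y
    _ = (ENNReal.ofReal (2 ^ m * sc m ^ j) * (ENNReal.ofReal (sc m) *
          ENNReal.ofReal ((sc m)⁻¹ ^ j))) * (C * av m q y) := by ring
    _ = C * av m q y := by rw [h4, one_mul]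

/-- (4a). -/
theorem XX_le (hd : 0 < d) {S : E d → ℝ} (hS : IsKer S) : ∃ C : ℝ≥0, ∀ (m : ℕ), 1 ≤ m →
    ∀ j ≤ 2, ∀ (r : ℝ) (q : E d → ℝ), Bdd r q → ∀ (c x : E d) (t : ℝ), XX S m j q c x t ≤
      C * ∫⁻ w : Sph d, ‖(w : E d) - c‖ₑ * nm m q x t w ∂(sigma d) := by
  choose C hC using fun j : ℕ => srcA_iter hS j
  refine ⟨(∑ j ∈ Finset.range 3, C j) * 4, fun m hm j hj r q hq c x t => ?_⟩
  have hp := srcA_sc_pos m
  have hCj : C j ≤ ∑ j ∈ Finset.range 3, C j :=
    Finset.single_le_sum (f := C) (fun _ _ => zero_le) (Finset.mem_range.2 (by omega))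
  have hg : ContDiff ℝ ∞ (gm S m q) :=
    contDiff_const.mul (cv_contDiff hS hp hq.locallyIntegrable)
  calc XX S m j q c x t
      = ENNReal.ofReal (2 ^ m * sc m ^ j) * ‖JJ j (gm S m q) c x t‖ₑ := rfl
    _ ≤ ENNReal.ofReal (2 ^ m * sc m ^ j) * ∫⁻ w : Sph d, ‖(w : E d) - c‖ₑ *
          ‖iteratedFDeriv ℝ j (gm S m q) (x - t • (w : E d))‖ₑ ∂(sigma d) := by
        gcongr
        exact JJ_le hd hg j c x t
    _ = ∫⁻ w : Sph d, ENNReal.ofReal (2 ^ m * sc m ^ j) * (‖(w : E d) - c‖ₑ *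
          ‖iteratedFDeriv ℝ j (gm S m q) (x - t • (w : E d))‖ₑ) ∂(sigma d) := by
        rw [lintegral_const_mul' _ _ ENNReal.ofReal_ne_top]
    _ ≤ ∫⁻ w : Sph d, (((∑ j ∈ Finset.range 3, C j) * 4 : ℝ≥0) : ℝ≥0∞) *
          (‖(w : E d) - c‖ₑ * nm m q x t w) ∂(sigma d) := by
        refine lintegral_mono fun w => ?_
        have h1 := hC j m r q hq (x - t • (w : E d))
        have h2 := srcA_nm hm q x t w
        have h3 : (C j : ℝ≥0∞) ≤ ((∑ j ∈ Finset.range 3, C j : ℝ≥0) : ℝ≥0∞) := by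
          exact_mod_cast hCj
        calc ENNReal.ofReal (2 ^ m * sc m ^ j) * (‖(w : E d) - c‖ₑ *
              ‖iteratedFDeriv ℝ j (gm S m q) (x - t • (w : E d))‖ₑ)
            = ‖(w : E d) - c‖ₑ * (ENNReal.ofReal (2 ^ m * sc m ^ j) *
              ‖iteratedFDeriv ℝ j (gm S m q) (x - t • (w : E d))‖ₑ) := by ring
          _ ≤ ‖(w : E d) - c‖ₑ * (((∑ j ∈ Finset.range 3, C j : ℝ≥0) : ℝ≥0∞) *
              (4 * nm m q x t w)) := by
              exact mul_le_mul' le_rfl (h1.trans (mul_le_mul' h3 h2))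
          _ = _ := by
              rw [ENNReal.coe_mul]
              push_cast
              ring
    _ = _ := by
        rw [lintegral_const_mul' _ _ ENNReal.coe_ne_top]

end Pool.Agent.Lib.MP_ff3fe0_an_SPH
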