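import Pool.Agent.Lib.MP_ff3fe0_an_SPH.ZeroA
import Pool.Agent.Lib.MP_ff3fe0_an_SPH.RemA
import Pool.Agent.Lib.MP_ff3fe0_an_SPH.DecA
import Pool.Agent.Lib.MP_ff3fe0_an_SPH.RotA
import Pool.Agent.Lib.MP_ff3fe0_an_SPH.SmB
import Pool.Agent.Lib.MP_ff3fe0_an_SPH.GmA

set_option autoImplicit false

/-!
# The decomposition of the gradient at a maximum point
-/

namespace Pool.Agent.Lib.MP_ff3fe0_an_SPH

open MeasureTheory Metric Set
open scoped ENNReal NNReal ContDiff FourierTransform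
open Pool.Agent.Lib.MP_ff3fe0_an

variable {d : ℕ}

private theorem teleF_sum {α : Type*} [AddCommMonoid α] (f : ℕ → α) (M : ℕ) :
    ∑ m ∈ Finset.range (M + 1), f m = f 0 + ∑ m ∈ Finset.Icc 1 M, f m := by
  induction M with
  | zero => simp
  | succ M ih =>
    rw [Finset.sum_range_succ, ih, Finset.sum_Icc_succ_top (by omega), add_assoc]

private theorem teleF_abel {F : Type*} [AddCommGroup F] [Module ℝ F] (a : ℕ → ℝ) (c : ℕ → F)
    (M : ℕ) : ∑ m ∈ Finset.range (M + 1), a m • c m =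
      (∑ k ∈ Finset.range M, (∑ m ∈ Finset.range (k + 1), a m) • (c k - c (k + 1))) +
        (∑ m ∈ Finset.range (M + 1), a m) • c M := by
  induction M with
  | zero => simp
  | succ M ih =>
    rw [Finset.sum_range_succ (fun m => a m • c m) (M + 1), ih,
      Finset.sum_range_succ (fun k => (∑ m ∈ Finset.range (k + 1), a m) • (c k - c (k + 1))) M,
      Finset.sum_range_succ a (M + 1)]
    generalize ∑ m ∈ Finset.range (M + 1), a m = A
    rw [add_smul, smul_sub]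
    abel

private theorem teleF_int_le (hd : 0 < d) {F : Type*} [NormedAddCommGroup F] [NormedSpace ℝ F]
    {f : Sph d → F} {C : ℝ} (h : ∀ w, ‖f w‖ ≤ C) : ‖∫ w, f w ∂(sigma d)‖ ≤ C := by
  have := sigma_prob hd
  have h1 := norm_integral_le_of_norm_le_const (μ := sigma d) (Filter.Eventually.of_forall h)
  simpa using h1

private theorem teleF_w (w : Sph d) : ‖(w : E d)‖ = 1 := mem_sphere_zero_iff_norm.1 w.2

private theorem teleF_inner_le {e : E d → ℝ} {C : ℝ} (h : ∀ y, ‖gradient e y‖ ≤ C) (y : E d)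
    (w : Sph d) : |inner ℝ (gradient e y) (w : E d)| ≤ C := by
  refine (abs_real_inner_le_norm _ _).trans ?_
  rw [teleF_w, mul_one]
  exact h y

private theorem teleF_JJ_rem (hd : 0 < d) {e : E d → ℝ} (he : ContDiff ℝ ∞ e) {C : ℝ}
    (h : ∀ y, ‖gradient e y‖ ≤ C) (x : E d) (t : ℝ) : ‖JJ 1 e 0 x t‖ ≤ C := by
  have h1 := JJ_one hd he 0 x t
  rw [smul_zero, sub_zero] at h1
  have h2 : ‖∫ w : Sph d, inner ℝ (gradient e (x - t • (w : E d))) (w : E d) • (w : E d)
      ∂(sigma d)‖ ≤ C := by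
    refine teleF_int_le hd fun w => ?_
    rw [norm_smul, teleF_w, mul_one, Real.norm_eq_abs]
    exact teleF_inner_le h _ w
  rw [h1, norm_neg] at h2
  exact h2

private theorem teleF_sm_rem (hd : 0 < d) {e : E d → ℝ} (he : ContDiff ℝ ∞ e) {C : ℝ}
    (h : ∀ y, ‖gradient e y‖ ≤ C) (x : E d) (t : ℝ) :
    ‖deriv (fun s => sm e s x) t‖ ≤ C := by
  rw [sm_deriv hd he, norm_neg]
  refine teleF_int_le hd fun w => ?_
  rw [Real.norm_eq_abs]
  exact teleF_inner_le h _ w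

private theorem teleF_smooth (K : Ker d) {g : E d → ℝ} (hg : ContDiff ℝ ∞ g) {r : ℝ}
    {q : ℕ → E d → ℝ} (hq : ∀ m, Bdd r (q m)) (m : ℕ) : ContDiff ℝ ∞ (pc K g q m) := by
  unfold pc
  split_ifs
  · exact cv_contDiff K.hPsi one_pos hg.continuous.locallyIntegrable
  · exact gm_contDiff K.hS m (hq m)

private theorem teleF_dec (K : Ker d) {g : E d → ℝ} (hg : ContDiff ℝ ∞ g)
    (hc : HasCompactSupport g) {r : ℝ} {q : ℕ → E d → ℝ}
    (hq : ∀ m, 1 ≤ m → ∀ y ∈ closedBall (0 : E d) r, q m y = cvv K.ka (sc m) (gradient g) y)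
    (M : ℕ) {y : E d} (hy : ‖y‖ + 1 ≤ r) :
    g y = ∑ m ∈ Finset.range (M + 1), pc K g q m y + (g y - cv K.Psi (sc M) g y) := by
  have h := decomp K hg hc hq M hy
  rw [teleF_sum]
  have e1 : pc K g q 0 y = cv K.Psi 1 g y := by simp [pc]
  have e2 : ∑ m ∈ Finset.Icc 1 M, pc K g q m y = ∑ m ∈ Finset.Icc 1 M, gm K.S m (q m) y := by
    refine Finset.sum_congr rfl fun m hm => ?_
    have hm1 : m ≠ 0 := by
      rw [Finset.mem_Icc] at hm
      omega
    simp [pc, hm1]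
  rw [e1, e2]
  exact h

/-- The gradient at a maximum point in terms of the pieces. -/
theorem tele_fin (hd : 0 < d) (K : Ker d) : ∃ C : ℝ≥0, ∀ (r : ℝ) (g : E d → ℝ)
    (q : ℕ → E d → ℝ), ContDiff ℝ ∞ g → HasCompactSupport g → (∀ m, Bdd r (q m)) →
    (∀ m, 1 ≤ m → ∀ y ∈ closedBall (0 : E d) r, q m y = cvv K.ka (sc m) (gradient g) y) →
    ∃ B : ℝ, ∀ x : E d, ‖x‖ + 4 ≤ r → ∀ t ∈ Icc (1 : ℝ) 2,
      (∀ s, 0 < s → sm g s x ≤ sm g t x) → ∀ c : ℕ → E d, (∀ k, ‖c k‖ ≤ 1) → ∀ M : ℕ,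
        ‖gradient (sm g t) x‖ₑ ≤ C * hlm (gradient g) x +
          (∑ m ∈ Finset.Icc 1 M, ‖JJ 1 (pc K g q m) (c m) x t‖ₑ) +
          (∑ k ∈ Finset.range M, ‖c k - c (k + 1)‖ₑ *
            ‖∑ m ∈ Finset.range (k + 1), deriv (fun s => sm (pc K g q m) s x) t‖ₑ) +
          ENNReal.ofReal (B / 2 ^ M) := by
  obtain ⟨C1, hC1⟩ := low_term (d := d) hd
  obtain ⟨C2, hC2⟩ := zero_terms hd K
  refine ⟨d * C1 + C2, fun r g q hg hgc hq hqe => ?_⟩
  obtain ⟨Cg, hCg⟩ := rem_bound hd K hg hgc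
  have hCg0 : 0 ≤ Cg := by
    have h := (hCg 1 ⟨one_pos, le_refl 1⟩ 0).2
    rw [mul_one] at h
    exact (norm_nonneg _).trans h
  refine ⟨2 * Cg, fun x hx t ht hmax c hc M => ?_⟩
  have ht0 : 0 < t := lt_of_lt_of_le one_pos ht.1
  obtain ⟨b, hb⟩ : ∃ b, b = sc M := ⟨_, rfl⟩
  have hb0 : 0 < b := by
    rw [hb]
    unfold sc
    positivity
  have hb1 : b ≤ 1 := by
    rw [hb]
    unfold sc
    exact pow_le_one₀ (by norm_num) (by norm_num)
  obtain ⟨e, he⟩ : ∃ e : E d → ℝ, e = fun y => g y - cv K.Psi b g y := ⟨_, rfl⟩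
  have hes : ContDiff ℝ ∞ e := by
    rw [he]
    exact hg.sub (cv_contDiff K.hPsi hb0 hg.continuous.locallyIntegrable)
  have hgr : ∀ y, ‖gradient e y‖ ≤ Cg * b := by
    intro y
    rw [he]
    exact (hCg b ⟨hb0, hb1⟩ y).2
  have hφ : ∀ m, ContDiff ℝ ∞ (pc K g q m) := teleF_smooth K hg hq
  have hsumφ : ContDiff ℝ ∞ (fun y => ∑ m ∈ Finset.range (M + 1), pc K g q m y) :=
    ContDiff.sum fun m _ => hφ m
  have hdec : ∀ y ∈ closedBall x 3,
      g y = ∑ m ∈ Finset.range (M + 1), pc K g q m y + e y := by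
    intro y hy
    rw [mem_closedBall, dist_eq_norm] at hy
    have h1 : ‖y‖ + 1 ≤ r := by
      have h2 : ‖y‖ ≤ ‖y - x‖ + ‖x‖ := by
        have := norm_add_le (y - x) x
        rwa [sub_add_cancel] at this
      linarith
    rw [he, hb]
    exact teleF_dec K hg hgc hqe M h1
  -- the radial part of the gradient
  obtain ⟨a, ha⟩ : ∃ a : ℕ → ℝ, ∀ m, a m = deriv (fun s => sm (pc K g q m) s x) t :=
    ⟨_, fun _ => rfl⟩
  have hJ0 : ∀ m, JJ 1 (pc K g q m) 0 x t = JJ 1 (pc K g q m) (c m) x t + a m • c m := by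
    intro m
    have h := JJ_sub hd (hφ m) 1 0 (c m) x t
    rw [iteratedDeriv_one, zero_sub, smul_neg, ← ha m] at h
    rw [sub_eq_iff_eq_add] at h
    rw [h]
    abel
  have hV : ∫ w : Sph d, inner ℝ (gradient g (x - t • (w : E d))) (w : E d) • (w : E d)
      ∂(sigma d) = -(∑ m ∈ Finset.range (M + 1), JJ 1 (pc K g q m) (c m) x t +
        ∑ m ∈ Finset.range (M + 1), a m • c m + JJ 1 e 0 x t) := by
    have h1 := JJ_one hd hg 0 x t
    rw [smul_zero, sub_zero] at h1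
    have h2 : JJ 1 g 0 x t =
        JJ 1 (fun y => ∑ m ∈ Finset.range (M + 1), pc K g q m y + e y) 0 x t := by
      refine JJ_congr (a := 3) 1 0 ?_ hdec
      rw [abs_of_pos ht0]
      linarith [ht.2]
    rw [h1, h2, JJ_add hd hsumφ hes, JJ_sum hd (fun m _ => hφ m), ← Finset.sum_add_distrib]
    simp only [hJ0]
  -- the sum of the derivatives
  have hderiv : ∑ m ∈ Finset.range (M + 1), a m = -deriv (fun s => sm e s x) t := by
    have h1 : (fun s => sm g s x) =ᶠ[nhds t]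
        fun s => ∑ m ∈ Finset.range (M + 1), sm (pc K g q m) s x + sm e s x := by
      have h2 : Ioo (0 : ℝ) 3 ∈ nhds t := Ioo_mem_nhds ht0 (by linarith [ht.2])
      filter_upwards [h2] with s hs
      rw [← sm_sum hd _ _ (fun m _ => (hφ m).continuous), ← sm_add hd hsumφ.continuous
        hes.continuous]
      refine sm_congr fun y hy => hdec y (closedBall_subset_closedBall ?_ hy)
      rw [abs_of_pos hs.1]
      exact hs.2.le
    have h3 : deriv (fun s => sm g s x) t = 0 := by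
      refine IsLocalMax.deriv_eq_zero ?_
      filter_upwards [lt_mem_nhds ht0] with s hs
      exact hmax s hs
    have hdm : ∀ m ∈ Finset.range (M + 1), DifferentiableAt ℝ (fun s => sm (pc K g q m) s x) t :=
      fun m _ => ((sm_contDiff_t hd (hφ m) x).differentiable (by simp)) t
    have hde : DifferentiableAt ℝ (fun s => sm e s x) t :=
      ((sm_contDiff_t hd hes x).differentiable (by simp)) t
    have h4 := h1.deriv_eq
    rw [h3, deriv_fun_add (DifferentiableAt.fun_sum hdm) hde, deriv_fun_sum hdm] at h4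
    simp only [← ha] at h4
    linarith
  have hA : ‖∑ m ∈ Finset.range (M + 1), a m‖ₑ ≤ ENNReal.ofReal (Cg * b) := by
    rw [← ofReal_norm]
    refine ENNReal.ofReal_le_ofReal ?_
    rw [hderiv, norm_neg]
    exact teleF_sm_rem hd hes hgr x t
  have hR : ‖JJ 1 e 0 x t‖ₑ ≤ ENNReal.ofReal (Cg * b) := by
    rw [← ofReal_norm]
    exact ENNReal.ofReal_le_ofReal (teleF_JJ_rem hd hes hgr x t)
  have hcM : ‖c M‖ₑ ≤ 1 := by
    rw [← ofReal_norm]
    exact ENNReal.ofReal_le_one.2 (hc M)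
  have hac : ‖∑ m ∈ Finset.range (M + 1), a m • c m‖ₑ ≤
      (∑ k ∈ Finset.range M, ‖c k - c (k + 1)‖ₑ * ‖∑ m ∈ Finset.range (k + 1), a m‖ₑ) +
        ENNReal.ofReal (Cg * b) := by
    rw [teleF_abel]
    refine (enorm_add_le _ _).trans (add_le_add ?_ ?_)
    · refine (enorm_sum_le _ _).trans (Finset.sum_le_sum fun k _ => ?_)
      rw [enorm_smul, mul_comm]
    · rw [enorm_smul]
      exact (mul_le_mul' hA hcM).trans (by rw [mul_one])
  have h0 : ‖JJ 1 (pc K g q 0) (c 0) x t‖ₑ ≤ C2 * hlm (gradient g) x := by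
    have h := (hC2 g hg hgc x t ⟨by linarith [ht.1], by linarith [ht.2]⟩).1 (c 0) (hc 0)
    have e1 : pc K g q 0 = cv K.Psi 1 g := by
      unfold pc
      simp
    rw [e1]
    exact h
  have hJs : ‖∑ m ∈ Finset.range (M + 1), JJ 1 (pc K g q m) (c m) x t‖ₑ ≤
      C2 * hlm (gradient g) x + ∑ m ∈ Finset.Icc 1 M, ‖JJ 1 (pc K g q m) (c m) x t‖ₑ := by
    refine (enorm_sum_le _ _).trans ?_
    rw [teleF_sum]
    exact add_le_add h0 le_rfl
  have hT : ‖(((d : ℝ) - 1) / t) • ∫ w : Sph d, g (x - t • (w : E d)) • (w : E d)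
      ∂(sigma d)‖ₑ ≤ d * C1 * hlm (gradient g) x := by
    have h1 := hC1 g hg x t ht0
    have hd1 : (1 : ℝ) ≤ d := by exact_mod_cast hd
    rw [enorm_smul, Real.enorm_of_nonneg (div_nonneg (by linarith) ht0.le)]
    refine (mul_le_mul' le_rfl h1).trans ?_
    have h2 : ENNReal.ofReal (((d : ℝ) - 1) / t) * ENNReal.ofReal t ≤ d := by
      rw [← ENNReal.ofReal_mul (div_nonneg (by linarith) ht0.le), div_mul_cancel₀ _ ht0.ne',
        ← ENNReal.ofReal_natCast]
      exact ENNReal.ofReal_le_ofReal (by linarith)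
    calc ENNReal.ofReal (((d : ℝ) - 1) / t) * (C1 * ENNReal.ofReal t * hlm (gradient g) x)
        = (ENNReal.ofReal (((d : ℝ) - 1) / t) * ENNReal.ofReal t) *
          (C1 * hlm (gradient g) x) := by ring
      _ ≤ d * (C1 * hlm (gradient g) x) := mul_le_mul' h2 le_rfl
      _ = d * C1 * hlm (gradient g) x := by ring
  have hB : ENNReal.ofReal (2 * Cg / 2 ^ M) =
      ENNReal.ofReal (Cg * b) + ENNReal.ofReal (Cg * b) := by
    rw [← ENNReal.ofReal_add (by positivity) (by positivity), hb]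
    congr 1
    unfold sc
    rw [one_div, inv_pow]
    ring
  simp only [← ha]
  rw [sm_gradient_eq hd hg ht0.ne', hV]
  refine (enorm_sub_le).trans ?_
  rw [enorm_neg]
  calc ‖∑ m ∈ Finset.range (M + 1), JJ 1 (pc K g q m) (c m) x t +
        ∑ m ∈ Finset.range (M + 1), a m • c m + JJ 1 e 0 x t‖ₑ +
        ‖(((d : ℝ) - 1) / t) • ∫ w : Sph d, g (x - t • (w : E d)) • (w : E d) ∂(sigma d)‖ₑ
      ≤ ((C2 * hlm (gradient g) x + ∑ m ∈ Finset.Icc 1 M, ‖JJ 1 (pc K g q m) (c m) x t‖ₑ) +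
          ((∑ k ∈ Finset.range M, ‖c k - c (k + 1)‖ₑ *
            ‖∑ m ∈ Finset.range (k + 1), a m‖ₑ) + ENNReal.ofReal (Cg * b)) +
          ENNReal.ofReal (Cg * b)) + d * C1 * hlm (gradient g) x := by
        refine add_le_add ?_ hT
        refine (enorm_add_le _ _).trans (add_le_add ?_ hR)
        exact (enorm_add_le _ _).trans (add_le_add hJs hac)
    _ = _ := by
        rw [hB]
        push_cast
        ring

end Pool.Agent.Lib.MP_ff3fe0_an_SPH
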