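import Pool.Agent.Lib.MP_ff3fe0_an_SPH.JJA
import Pool.Agent.Lib.MP_ff3fe0_an_SPH.HlA
import Pool.Agent.Lib.MP_ff3fe0_an_SPH.CvA
import Pool.Agent.Lib.MP_ff3fe0_an_SPH.CvB

set_option autoImplicit false

/-!
# The low frequencies and the remainder
-/

namespace Pool.Agent.Lib.MP_ff3fe0_an_SPH

open MeasureTheory Metric Set
open scoped ENNReal NNReal ContDiff FourierTransform
open Pool.Agent.Lib.MP_ff3fe0_an

variable {d : ℕ}

private theorem ZeroA_grad_cont {g : E d → ℝ} (hg : ContDiff ℝ ∞ g) : Continuous (gradient g) := by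
  unfold gradient
  exact (LinearIsometryEquiv.continuous _).comp (hg.continuous_fderiv (by simp))

private theorem ZeroA_inner_grad {g : E d → ℝ} (y v : E d) :
    inner ℝ (gradient g y) v = fderiv ℝ g y v := by
  unfold gradient
  exact InnerProductSpace.toDual_symm_apply

private theorem ZeroA_shell (hd : 0 < d) : ∃ C : ℝ≥0, ∀ H : E d → E d, Continuous H →
    ∀ (x : E d) (a : ℝ), 0 < a →
      ∫⁻ s in Ioc (a / 2) a, ∫⁻ w : Sph d, ‖H (x - s • (w : E d))‖ₑ ∂(sigma d)
        ≤ C * ENNReal.ofReal a * hlm H x := by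
  obtain ⟨C0, hC0⟩ := hl_ball hd
  have hd0 : (d : ℝ≥0∞) ≠ 0 := by
    simp only [ne_eq, Nat.cast_eq_zero]
    omega
  have hb0 : volume (ball (0 : E d) 1) ≠ 0 := (measure_ball_pos _ _ one_pos).ne'
  have hbt : volume (ball (0 : E d) 1) ≠ ⊤ := measure_ball_lt_top.ne
  have hD0 : (d * volume (ball (0 : E d) 1)) ≠ 0 := mul_ne_zero hd0 hb0
  have hDt : (d * volume (ball (0 : E d) 1)) ≠ ⊤ := ENNReal.mul_ne_top (by simp) hbt
  refine ⟨(d * volume (ball (0 : E d) 1))⁻¹.toNNReal * C0 * 2 ^ (d - 1), fun H hH x a ha => ?_⟩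
  set f : E d → ℝ≥0∞ := fun y => ‖H y‖ₑ with hf_def
  have hf : Measurable f := hH.enorm.measurable
  have hq0 : ENNReal.ofReal ((a / 2) ^ (d - 1)) ≠ 0 := by
    rw [ne_eq, ENNReal.ofReal_eq_zero, not_le]
    positivity
  have hqt : ENNReal.ofReal ((a / 2) ^ (d - 1)) ≠ ⊤ := ENNReal.ofReal_ne_top
  have hg : Measurable fun y => (closedBall x a).indicator f (x - y) :=
    (hf.indicator measurableSet_closedBall).comp (measurable_const.sub measurable_id)
  have h1 : ∫⁻ y in closedBall x a, f y = ∫⁻ y, (closedBall x a).indicator f (x - y) := by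
    rw [lintegral_sub_left_eq_self (fun y => (closedBall x a).indicator f y) x,
      lintegral_indicator measurableSet_closedBall]
  have h2 : ∫⁻ r in Ioc (a / 2) a, ENNReal.ofReal ((a / 2) ^ (d - 1)) *
      ∫⁻ w : Sph d, f (x - r • (w : E d)) ∂(sigma d) ≤
      ∫⁻ r in Ioi (0 : ℝ), ENNReal.ofReal (r ^ (d - 1)) *
        ∫⁻ w : Sph d, (closedBall x a).indicator f (x - r • (w : E d)) ∂(sigma d) := by
    have h3 : Ioc (a / 2) a ⊆ Ioi (0 : ℝ) := fun r hr => by
      rw [mem_Ioi]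
      linarith [hr.1]
    refine le_trans ?_ (lintegral_mono_set h3)
    refine setLIntegral_mono' measurableSet_Ioc fun r hr => ?_
    have h4 : (0 : ℝ) ≤ r := by linarith [hr.1]
    refine mul_le_mul' (ENNReal.ofReal_le_ofReal
      (pow_le_pow_left₀ (by positivity) hr.1.le _)) ?_
    refine lintegral_mono fun w => ?_
    rw [indicator_of_mem]
    rw [mem_closedBall, dist_eq_norm, sub_sub_cancel_left, norm_neg, norm_smul,
      Real.norm_of_nonneg h4, norm_eq_of_mem_sphere w, mul_one]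
    exact hr.2
  rw [lintegral_const_mul' _ _ hqt] at h2
  have h5 : (d * volume (ball (0 : E d) 1)) * (ENNReal.ofReal ((a / 2) ^ (d - 1)) *
      ∫⁻ r in Ioc (a / 2) a, ∫⁻ w : Sph d, f (x - r • (w : E d)) ∂(sigma d)) ≤
      C0 * ENNReal.ofReal (a ^ d) * hlm H x := by
    calc (d * volume (ball (0 : E d) 1)) * (ENNReal.ofReal ((a / 2) ^ (d - 1)) *
        ∫⁻ r in Ioc (a / 2) a, ∫⁻ w : Sph d, f (x - r • (w : E d)) ∂(sigma d))
        ≤ (d * volume (ball (0 : E d) 1)) * ∫⁻ r in Ioi (0 : ℝ), ENNReal.ofReal (r ^ (d - 1)) *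
          ∫⁻ w : Sph d, (closedBall x a).indicator f (x - r • (w : E d)) ∂(sigma d) :=
          mul_le_mul' le_rfl h2
      _ = ∫⁻ y in closedBall x a, f y := by rw [h1, lintegral_polar hd _ hg]
      _ ≤ _ := hC0 H x a ha
  have h6 : ENNReal.ofReal (a ^ d) =
      ENNReal.ofReal ((a / 2) ^ (d - 1)) * (2 ^ (d - 1) * ENNReal.ofReal a) := by
    have h7 : (2 : ℝ≥0∞) ^ (d - 1) = ENNReal.ofReal (2 ^ (d - 1)) := by
      rw [ENNReal.ofReal_pow (by norm_num)]
      norm_num
    rw [h7, ← ENNReal.ofReal_mul (by positivity), ← ENNReal.ofReal_mul (by positivity)]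
    congr 1
    obtain ⟨n, rfl⟩ : ∃ n, d = n + 1 := ⟨d - 1, by omega⟩
    rw [Nat.add_sub_cancel, div_pow, pow_succ]
    field_simp
  rw [h6] at h5
  have h8 : ENNReal.ofReal ((a / 2) ^ (d - 1)) * ((d * volume (ball (0 : E d) 1)) *
      ∫⁻ r in Ioc (a / 2) a, ∫⁻ w : Sph d, f (x - r • (w : E d)) ∂(sigma d)) ≤
      ENNReal.ofReal ((a / 2) ^ (d - 1)) *
        (C0 * (2 ^ (d - 1) * ENNReal.ofReal a) * hlm H x) := by
    calc _ = _ := by ring
      _ ≤ _ := h5
      _ = _ := by ring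
  have h9 := (ENNReal.mul_le_mul_iff_right hq0 hqt).1 h8
  have h10 : ∫⁻ r in Ioc (a / 2) a, ∫⁻ w : Sph d, f (x - r • (w : E d)) ∂(sigma d) =
      (d * volume (ball (0 : E d) 1))⁻¹ * ((d * volume (ball (0 : E d) 1)) *
      ∫⁻ r in Ioc (a / 2) a, ∫⁻ w : Sph d, f (x - r • (w : E d)) ∂(sigma d)) := by
    rw [← mul_assoc, ENNReal.inv_mul_cancel hD0 hDt, one_mul]
  rw [h10]
  refine (mul_le_mul' le_rfl h9).trans (le_of_eq ?_)
  push_cast
  rw [ENNReal.coe_toNNReal (ENNReal.inv_ne_top.mpr hD0)]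
  ring

private theorem ZeroA_radial (hd : 0 < d) : ∃ C : ℝ≥0, ∀ H : E d → E d, Continuous H →
    ∀ (x : E d) (t : ℝ), 0 < t →
      ∫⁻ s in Ioc 0 t, ∫⁻ w : Sph d, ‖H (x - s • (w : E d))‖ₑ ∂(sigma d)
        ≤ C * ENNReal.ofReal t * hlm H x := by
  obtain ⟨C0, hC0⟩ := ZeroA_shell hd
  refine ⟨C0 * 2, fun H hH x t ht => ?_⟩
  have hsub : Ioc 0 t ⊆ ⋃ i : ℕ, Ioc ((t * (1 / 2) ^ i) / 2) (t * (1 / 2) ^ i) := by
    intro s hs
    obtain ⟨n, hn1, hn2⟩ := exists_nat_pow_near_of_lt_one (x := s / t) (y := (1 / 2 : ℝ))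
      (div_pos hs.1 ht) ((div_le_one ht).2 hs.2) (by norm_num) (by norm_num)
    refine mem_iUnion.2 ⟨n, ?_, ?_⟩
    · rw [lt_div_iff₀ ht] at hn1
      rw [pow_succ] at hn1
      linarith
    · rw [div_le_iff₀ ht] at hn2
      linarith
  refine (lintegral_mono_set hsub).trans ((lintegral_iUnion_le _ _).trans ?_)
  have h1 : ∀ i : ℕ, ∫⁻ s in Ioc ((t * (1 / 2) ^ i) / 2) (t * (1 / 2) ^ i),
      ∫⁻ w : Sph d, ‖H (x - s • (w : E d))‖ₑ ∂(sigma d) ≤
      C0 * ENNReal.ofReal t * hlm H x * (1 / 2) ^ i := by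
    intro i
    refine (hC0 H hH x (t * (1 / 2) ^ i) (by positivity)).trans (le_of_eq ?_)
    rw [ENNReal.ofReal_mul ht.le, ENNReal.ofReal_pow (by norm_num)]
    have h2 : ENNReal.ofReal (1 / 2) = 1 / 2 := by
      rw [ENNReal.ofReal_div_of_pos (by norm_num)]
      norm_num
    rw [h2]
    ring
  refine (ENNReal.tsum_le_tsum h1).trans (le_of_eq ?_)
  rw [ENNReal.tsum_mul_left, ENNReal.tsum_geometric, one_div, ENNReal.one_sub_inv_two, inv_inv]
  push_cast
  ring

/-- The remainder in the gradient of a spherical mean. -/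
theorem low_term (hd : 0 < d) : ∃ C : ℝ≥0, ∀ g : E d → ℝ, ContDiff ℝ ∞ g → ∀ (x : E d) (t : ℝ),
    0 < t → ‖∫ w : Sph d, g (x - t • (w : E d)) • (w : E d) ∂(sigma d)‖ₑ ≤
      C * ENNReal.ofReal t * hlm (gradient g) x := by
  obtain ⟨C0, hC0⟩ := ZeroA_radial hd
  have hpr := sigma_prob hd
  refine ⟨C0, fun g hg x t ht => ?_⟩
  have hgc := ZeroA_grad_cont hg
  have hint : ∀ {F : Type} [NormedAddCommGroup F] {f : Sph d → F}, Continuous f →
      Integrable f (sigma d) := by
    intro F _ f hf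
    exact integrableOn_univ.mp (hf.continuousOn.integrableOn_compact isCompact_univ)
  have h0 : ∫ w : Sph d, (w : E d) ∂(sigma d) = 0 := by
    have h1 := integral_sigma_isometry hd (LinearIsometryEquiv.neg ℝ (E := E d)) (fun y => y)
    simp only [LinearIsometryEquiv.coe_neg] at h1
    rw [integral_neg] at h1
    have h2 : (2 : ℝ) • ∫ w : Sph d, (w : E d) ∂(sigma d) = 0 := by
      rw [two_smul]
      nth_rewrite 1 [← h1]
      exact neg_add_cancel _
    exact (smul_eq_zero.1 h2).resolve_left two_ne_zero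
  have h1 : ∫ w : Sph d, g (x - t • (w : E d)) • (w : E d) ∂(sigma d) =
      ∫ w : Sph d, (g (x - t • (w : E d)) - g x) • (w : E d) ∂(sigma d) := by
    simp only [sub_smul]
    rw [integral_sub, integral_smul, h0, smul_zero, sub_zero]
    · exact hint (by have := hg.continuous; fun_prop)
    · exact hint (by fun_prop)
  rw [h1]
  refine (enorm_integral_le_lintegral_enorm _).trans ?_
  refine le_trans ?_ (hC0 (gradient g) hgc x t ht)
  rw [← lintegral_lintegral_swap]
  · refine lintegral_mono fun w => ?_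
    have hw : ‖(w : E d)‖ = 1 := norm_eq_of_mem_sphere w
    have h2 : ‖(g (x - t • (w : E d)) - g x) • (w : E d)‖ₑ = ‖g (x - t • (w : E d)) - g x‖ₑ := by
      rw [enorm_smul, ← ofReal_norm (w : E d), hw]
      simp
    rw [h2]
    have hder : ∀ s : ℝ, HasDerivAt (fun s : ℝ => g (x - s • (w : E d)))
        (-inner ℝ (gradient g (x - s • (w : E d))) (w : E d)) s := by
      intro s
      have h6 : HasFDerivAt g (fderiv ℝ g (x - s • (w : E d))) (x - s • (w : E d)) :=
        (hg.differentiable (by simp) _).hasFDerivAt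
      have h7 : HasDerivAt (fun s : ℝ => x - s • (w : E d)) (-(w : E d)) s := by
        have h8 := ((hasDerivAt_id s).smul_const (w : E d)).const_sub x
        simpa using h8
      have h9 := h6.comp_hasDerivAt s h7
      rw [ZeroA_inner_grad, ← map_neg]
      exact h9
    have hcont : Continuous fun s : ℝ => -inner ℝ (gradient g (x - s • (w : E d))) (w : E d) := by
      fun_prop
    have h3 := intervalIntegral.integral_eq_sub_of_hasDerivAt (fun s _ => hder s)
      (hcont.intervalIntegrable 0 t)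
    rw [zero_smul, sub_zero] at h3
    rw [← h3, intervalIntegral.integral_of_le ht.le]
    refine (enorm_integral_le_lintegral_enorm _).trans (lintegral_mono fun s => ?_)
    rw [enorm_neg, ← ofReal_norm, ← ofReal_norm]
    refine ENNReal.ofReal_le_ofReal ?_
    refine (norm_inner_le_norm _ _).trans ?_
    rw [hw, mul_one]
  · have hc : Continuous (Function.uncurry fun (w : Sph d) (s : ℝ) =>
        ‖gradient g (x - s • (w : E d))‖ₑ) := by
      unfold Function.uncurry
      exact (hgc.comp (by fun_prop)).enorm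
    exact hc.measurable.aemeasurable

private theorem ZeroA_iter {φ : E d → ℝ} (hφ : ContDiff ℝ ∞ φ) (k : ℕ) (y : E d) :
    ‖iteratedFDeriv ℝ (k + 1) φ y‖ₑ ≤ ∑ i : Fin d, ‖iteratedFDeriv ℝ k (pd i φ) y‖ₑ := by
  have h1 : fderiv ℝ φ = fun z => ∑ i : Fin d,
      (ContinuousLinearMap.toSpanSingleton ℝ (EuclideanSpace.proj i : E d →L[ℝ] ℝ))
        (pd i φ z) := by
    funext z
    ext v
    have hv : v = ∑ i : Fin d, v i • EuclideanSpace.single i (1 : ℝ) := by
      ext j
      simp [Finset.sum_apply, Pi.single_apply]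
    conv_lhs => rw [hv]
    rw [map_sum, _root_.sum_apply]
    refine Finset.sum_congr rfl fun i _ => ?_
    simp [pd, mul_comm]
  have hpd : ∀ i : Fin d, ContDiff ℝ ∞ (pd i φ) := by
    intro i
    have h2 : ContDiff ℝ ∞ (fderiv ℝ φ) := hφ.fderiv_right (by simp)
    exact h2.clm_apply contDiff_const
  have h2 : ‖iteratedFDeriv ℝ (k + 1) φ y‖ = ‖iteratedFDeriv ℝ k (fderiv ℝ φ) y‖ :=
    (norm_iteratedFDeriv_fderiv).symm
  have hsum : iteratedFDeriv ℝ k (fderiv ℝ φ) y = ∑ i : Fin d, iteratedFDeriv ℝ k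
      (fun z => (ContinuousLinearMap.toSpanSingleton ℝ
        (EuclideanSpace.proj i : E d →L[ℝ] ℝ)) (pd i φ z)) y := by
    have h5 := iteratedFDeriv_fun_sum_apply (𝕜 := ℝ) (u := Finset.univ) (n := k) (x := y)
      (f := fun (i : Fin d) z => (ContinuousLinearMap.toSpanSingleton ℝ
        (EuclideanSpace.proj i : E d →L[ℝ] ℝ)) (pd i φ z))
      (fun i _ => (((ContinuousLinearMap.contDiff _).comp
      (hpd i)).of_le (by exact_mod_cast le_top)).contDiffAt)
    rw [h1]
    exact h5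
  have h3 : ‖iteratedFDeriv ℝ k (fderiv ℝ φ) y‖ ≤ ∑ i : Fin d, ‖iteratedFDeriv ℝ k (pd i φ) y‖ := by
    rw [hsum]
    refine (norm_sum_le _ _).trans (Finset.sum_le_sum fun i _ => ?_)
    refine (ContinuousLinearMap.norm_iteratedFDeriv_comp_left
      (ContinuousLinearMap.toSpanSingleton ℝ (EuclideanSpace.proj i : E d →L[ℝ] ℝ))
      (f := pd i φ) (N := ∞) (hpd i).contDiffAt (by exact_mod_cast le_top)).trans ?_
    have h4 : ‖ContinuousLinearMap.toSpanSingleton ℝ
        (EuclideanSpace.proj i : E d →L[ℝ] ℝ)‖ ≤ 1 := by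
      rw [ContinuousLinearMap.norm_toSpanSingleton]
      refine ContinuousLinearMap.opNorm_le_bound _ zero_le_one fun v => ?_
      rw [one_mul]
      exact PiLp.norm_apply_le v i
    exact (mul_le_mul_of_nonneg_right h4 (norm_nonneg _)).trans (by rw [one_mul])
  rw [← ofReal_norm, h2]
  refine (ENNReal.ofReal_le_ofReal h3).trans (le_of_eq ?_)
  rw [ENNReal.ofReal_sum_of_nonneg (fun i _ => norm_nonneg _)]
  simp only [ofReal_norm]

private theorem ZeroA_pd_le {g : E d → ℝ} (i : Fin d) (y : E d) :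
    ‖pd i g y‖ₑ ≤ ‖gradient g y‖ₑ := by
  have h1 : pd i g y = gradient g y i := by
    unfold pd
    rw [← ZeroA_inner_grad, EuclideanSpace.inner_single_right]
    simp
  rw [h1, ← ofReal_norm, ← ofReal_norm]
  exact ENNReal.ofReal_le_ofReal (PiLp.norm_apply_le _ i)

private theorem ZeroA_key (hd : 0 < d) (K : Ker d) (k : ℕ) : ∃ C : ℝ≥0, ∀ g : E d → ℝ,
    ContDiff ℝ ∞ g → ∀ x y : E d, ‖y - x‖ ≤ 5 / 2 →
      ‖iteratedFDeriv ℝ (k + 1) (cv K.Psi 1 g) y‖ₑ ≤ C * hlm (gradient g) x := by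
  obtain ⟨C1, hC1⟩ := cv_iter_le K.hPsi k
  obtain ⟨C0, hC0⟩ := hl_ball hd
  refine ⟨d * C1 * (C0 * (7 / 2) ^ d), fun g hg x y hxy => ?_⟩
  have hgl : LocallyIntegrable g := hg.continuous.locallyIntegrable
  have hφ : ContDiff ℝ ∞ (cv K.Psi 1 g) := cv_contDiff K.hPsi one_pos hgl
  refine (ZeroA_iter hφ k y).trans ?_
  have hball : ∫⁻ z in closedBall (0 : E d) 1, ‖gradient g (y - z)‖ₑ ≤
      C0 * ENNReal.ofReal ((7 / 2) ^ d) * hlm (gradient g) x := by
    have hf : Measurable fun z => ‖gradient g z‖ₑ := (ZeroA_grad_cont hg).enorm.measurable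
    have h1 : ∫⁻ z in closedBall (0 : E d) 1, ‖gradient g (y - z)‖ₑ =
        ∫⁻ z in closedBall y 1, ‖gradient g z‖ₑ := by
      rw [← lintegral_indicator measurableSet_closedBall,
        ← lintegral_indicator measurableSet_closedBall,
        ← lintegral_sub_left_eq_self (fun z => (closedBall y 1).indicator
          (fun z => ‖gradient g z‖ₑ) z) y]
      refine lintegral_congr fun z => ?_
      by_cases hz : z ∈ closedBall (0 : E d) 1
      · rw [indicator_of_mem hz, indicator_of_mem]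
        rw [mem_closedBall, dist_eq_norm] at *
        simpa using hz
      · rw [indicator_of_notMem hz, indicator_of_notMem]
        rw [mem_closedBall, dist_eq_norm] at *
        simpa using hz
    rw [h1]
    refine le_trans (lintegral_mono_set ?_) (hC0 (gradient g) x (7 / 2) (by norm_num))
    intro z hz
    rw [mem_closedBall, dist_eq_norm] at *
    calc ‖z - x‖ = ‖(z - y) + (y - x)‖ := by congr 1; abel
      _ ≤ ‖z - y‖ + ‖y - x‖ := norm_add_le _ _
      _ ≤ 7 / 2 := by linarith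
  have hterm : ∀ i : Fin d, ‖iteratedFDeriv ℝ k (pd i (cv K.Psi 1 g)) y‖ₑ ≤
      C1 * (C0 * ENNReal.ofReal ((7 / 2) ^ d) * hlm (gradient g) x) := by
    intro i
    have hpdc : Continuous (pd i g) := by
      have h2 : Continuous (fderiv ℝ g) := hg.continuous_fderiv (by simp)
      exact h2.clm_apply continuous_const
    rw [cv_pd_right K.hPsi 1 (hg.of_le (by exact_mod_cast le_top)) i]
    refine (hC1 1 one_pos (pd i g) hpdc.locallyIntegrable y).trans ?_
    rw [inv_one, one_pow, ENNReal.ofReal_one, mul_one]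
    refine mul_le_mul' le_rfl (le_trans (lintegral_mono fun z => ?_) hball)
    rw [one_smul]
    exact ZeroA_pd_le i _
  refine (Finset.sum_le_sum fun i _ => hterm i).trans (le_of_eq ?_)
  rw [Finset.sum_const, Finset.card_univ, Fintype.card_fin, nsmul_eq_mul]
  have h5 : ENNReal.ofReal ((7 / 2) ^ d) = ((7 / 2 : ℝ≥0) ^ d : ℝ≥0) := by
    rw [ENNReal.ofReal, Real.toNNReal_pow (by norm_num)]
    congr 2
    ext
    rw [Real.coe_toNNReal _ (by norm_num)]
    push_cast
    norm_num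
  rw [h5]
  push_cast
  ring

theorem zero_terms (hd : 0 < d) (K : Ker d) : ∃ C : ℝ≥0, ∀ g : E d → ℝ, ContDiff ℝ ∞ g →
    HasCompactSupport g → ∀ (x : E d), ∀ t ∈ Icc (1 / 2 : ℝ) (5 / 2),
      (∀ c : E d, ‖c‖ ≤ 1 → ‖JJ 1 (cv K.Psi 1 g) c x t‖ₑ ≤ C * hlm (gradient g) x) ∧
      ∀ k : ℕ, 1 ≤ k → k ≤ 2 →
        ‖iteratedDeriv k (fun s => sm (cv K.Psi 1 g) s x) t‖ₑ ≤ C * hlm (gradient g) x := by
  obtain ⟨C0, hC0⟩ := ZeroA_key hd K 0
  obtain ⟨C1, hC1⟩ := ZeroA_key hd K 1
  have hpr := sigma_prob hd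
  refine ⟨2 * C0 + C1, fun g hg _ x t ht => ?_⟩
  have hgl : LocallyIntegrable g := hg.continuous.locallyIntegrable
  have hφ : ContDiff ℝ ∞ (cv K.Psi 1 g) := cv_contDiff K.hPsi one_pos hgl
  have hdist : ∀ w : Sph d, ‖(x - t • (w : E d)) - x‖ ≤ 5 / 2 := by
    intro w
    rw [sub_sub_cancel_left, norm_neg, norm_smul, norm_eq_of_mem_sphere w, mul_one,
      Real.norm_of_nonneg (by linarith [ht.1])]
    exact ht.2
  constructor
  · intro c hc
    refine (JJ_le hd hφ 1 c x t).trans ?_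
    have h1 : ∀ w : Sph d, ‖(w : E d) - c‖ₑ *
        ‖iteratedFDeriv ℝ 1 (cv K.Psi 1 g) (x - t • (w : E d))‖ₑ ≤
        2 * (C0 * hlm (gradient g) x) := by
      intro w
      refine mul_le_mul' ?_ (hC0 g hg x _ (hdist w))
      rw [← ofReal_norm]
      have h2 : ‖(w : E d) - c‖ ≤ 2 := by
        refine (norm_sub_le _ _).trans ?_
        rw [norm_eq_of_mem_sphere w]
        linarith
      refine (ENNReal.ofReal_le_ofReal h2).trans (by norm_num)
    refine (lintegral_mono h1).trans ?_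
    rw [lintegral_const, measure_univ, mul_one]
    calc 2 * (C0 * hlm (gradient g) x) = ((2 * C0 : ℝ≥0) : ℝ≥0∞) * hlm (gradient g) x := by
          push_cast; ring
      _ ≤ _ := mul_le_mul' (by exact_mod_cast le_self_add) le_rfl
  · intro k hk1 hk2
    refine (sm_iter_le hd hφ k t x).trans ?_
    have h1 : ∀ w : Sph d, ‖iteratedFDeriv ℝ k (cv K.Psi 1 g) (x - t • (w : E d))‖ₑ ≤
        ((2 * C0 + C1 : ℝ≥0) : ℝ≥0∞) * hlm (gradient g) x := by
      intro w
      interval_cases k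
      · refine (hC0 g hg x _ (hdist w)).trans (mul_le_mul' ?_ le_rfl)
        have : C0 ≤ 2 * C0 + C1 := by
          rw [two_mul, add_assoc]
          exact le_self_add
        exact_mod_cast this
      · refine (hC1 g hg x _ (hdist w)).trans (mul_le_mul' ?_ le_rfl)
        exact_mod_cast le_add_self
    refine (lintegral_mono h1).trans ?_
    rw [lintegral_const, measure_univ, mul_one]

end Pool.Agent.Lib.MP_ff3fe0_an_SPH
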